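import Pool.Agent.helper84.BoseUB

/-!
# Reindexing and adding distant particles
-/

open MeasureTheory Set Filter Topology
open scoped NNReal ENNReal

namespace Pool.Agent.helper84.Bose

open Classical in
theorem pot2_eq_sum {ι : Type*} [Fintype ι] (v : ℝ → ℝ) (X : ι → Space) :
    pot2 v X = ∑ i, ∑ j, (if i = j then 0 else v ‖X i - X j‖) := by
  unfold pot2
  have e1 : (Finset.univ : Finset ι).offDiag =
      ((Finset.univ : Finset ι) ×ˢ (Finset.univ : Finset ι)).filter (fun p => p.1 ≠ p.2) := by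
    ext p
    simp [Finset.mem_offDiag]
  rw [e1, Finset.sum_filter, Finset.sum_product]
  refine Finset.sum_congr rfl fun i _ => Finset.sum_congr rfl fun j _ => ?_
  by_cases h : i = j <;> simp [h]

theorem pot2_re {ι ι' : Type*} [Fintype ι] [Fintype ι'] (v : ℝ → ℝ) (e : ι ≃ ι')
    (X : ι' → Space) : pot2 v (re e X) = pot2 v X := by
  classical
  rw [pot2_eq_sum, pot2_eq_sum, ← Equiv.sum_comp e]
  refine Finset.sum_congr rfl fun i _ => ?_
  rw [← Equiv.sum_comp e]
  refine Finset.sum_congr rfl fun j _ => ?_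
  simp only [EmbeddingLike.apply_eq_iff_eq, re]

theorem pot2_sum {ι ι' : Type*} [Fintype ι] [Fintype ι'] (v : ℝ → ℝ) (X : ι ⊕ ι' → Space) :
    pot2 v X = pot2 v (fun i => X (Sum.inl i)) + pot2 v (fun i => X (Sum.inr i)) +
      ((∑ i : ι, ∑ j : ι', v ‖X (Sum.inl i) - X (Sum.inr j)‖) +
        ∑ i : ι', ∑ j : ι, v ‖X (Sum.inr i) - X (Sum.inl j)‖) := by
  classical
  rw [pot2_eq_sum, pot2_eq_sum, pot2_eq_sum, Fintype.sum_sum_type]
  simp only [Fintype.sum_sum_type, Sum.inl.injEq, Sum.inr.injEq, reduceCtorEq, if_false,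
    Finset.sum_add_distrib]
  ring

theorem UB.reindex {μ : ℝ} {v : ℝ → ℝ} {ι ι' : Type} [Fintype ι] [Fintype ι'] [DecidableEq ι]
    [DecidableEq ι'] (e : ι ≃ ι') {L E : ℝ} (h : UB μ v ι L E) : UB μ v ι' L E := by
  obtain ⟨Ψ, p, ⟨C, hC⟩, hc, hs, hpos, hE⟩ := h
  have h1 : ∫ X, Ψ (re e X) ^ 2 = ∫ X, Ψ X ^ 2 := integral_re e (fun X => Ψ X ^ 2)
  have h2 : ∫ X, kinOn Finset.univ (fun X => Ψ (re e X)) X = ∫ X, kinOn Finset.univ Ψ X := by
    simp_rw [kinOn_re e Ψ]
    exact integral_re e (fun x => kinOn Finset.univ Ψ x)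
  refine ⟨fun X => Ψ (re e X), p, ⟨C * 1, hC.comp (re_lipschitz e)⟩, re_compact e hc, ?_, ?_, ?_⟩
  · intro X hX
    obtain ⟨h3, h4⟩ := hs _ hX
    refine ⟨fun i => ?_, by rw [← h4, pot2_re]⟩
    have := h3 (e.symm i)
    simpa [re] using this
  · rw [h1]; exact hpos
  · rw [h1, h2]; exact hE

section Tensor

variable {ι ι' : Type} [Fintype ι] [Fintype ι'] [DecidableEq ι] [DecidableEq ι']

/-- The tensor product. -/
noncomputable def tensor (f : (ι → Space) → ℝ) (g : (ι' → Space) → ℝ) (X : ι ⊕ ι' → Space) : ℝ :=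
  f (fun i => X (Sum.inl i)) * g (fun i => X (Sum.inr i))

/-- splitting the configuration -/
noncomputable def splt : (ι ⊕ ι' → Space) ≃ᵐ (ι → Space) × (ι' → Space) :=
  MeasurableEquiv.sumPiEquivProdPi (fun _ : ι ⊕ ι' => Space)

theorem splt_apply (X : ι ⊕ ι' → Space) :
    splt X = (fun i => X (Sum.inl i), fun i => X (Sum.inr i)) := rfl

theorem splt_mp : MeasurePreserving (splt : (ι ⊕ ι' → Space) → (ι → Space) × (ι' → Space))
    volume (volume.prod volume) :=
  volume_measurePreserving_sumPiEquivProdPi (fun _ : ι ⊕ ι' => Space)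

theorem integral_tensor (f : (ι → Space) → ℝ) (g : (ι' → Space) → ℝ) :
    ∫ X, tensor f g X = (∫ x, f x) * ∫ y, g y := by
  rw [← integral_prod_mul f g, ← splt_mp.integral_comp' (fun z => f z.1 * g z.2)]
  rfl

theorem inl_add (X : ι ⊕ ι' → Space) (t : ℝ) (i : ι) (k : Fin 3) :
    (fun j => (X + t • dirG (Sum.inl i : ι ⊕ ι') k : ι ⊕ ι' → Space) (Sum.inl j)) =
      (fun j => X (Sum.inl j)) + t • dirG i k := by
  ext j l
  simp only [Pi.add_apply, Pi.smul_apply, dirG]
  by_cases h : j = i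
  · subst h; simp
  · rw [Pi.single_eq_of_ne h, Pi.single_eq_of_ne]
    exact fun h' => h (Sum.inl.inj h')

theorem inr_add (X : ι ⊕ ι' → Space) (t : ℝ) (i : ι) (k : Fin 3) :
    (fun j => (X + t • dirG (Sum.inl i : ι ⊕ ι') k : ι ⊕ ι' → Space) (Sum.inr j)) = (fun j => X (Sum.inr j)) := by
  ext j l
  simp only [Pi.add_apply, Pi.smul_apply, dirG]
  rw [Pi.single_eq_of_ne]
  · simp
  · exact Sum.inr_ne_inl

theorem inr_add' (X : ι ⊕ ι' → Space) (t : ℝ) (i : ι') (k : Fin 3) :
    (fun j => (X + t • dirG (Sum.inr i : ι ⊕ ι') k : ι ⊕ ι' → Space) (Sum.inr j)) =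
      (fun j => X (Sum.inr j)) + t • dirG i k := by
  ext j l
  simp only [Pi.add_apply, Pi.smul_apply, dirG]
  by_cases h : j = i
  · subst h; simp
  · rw [Pi.single_eq_of_ne h, Pi.single_eq_of_ne]
    exact fun h' => h (Sum.inr.inj h')

theorem inl_add' (X : ι ⊕ ι' → Space) (t : ℝ) (i : ι') (k : Fin 3) :
    (fun j => (X + t • dirG (Sum.inr i : ι ⊕ ι') k : ι ⊕ ι' → Space) (Sum.inl j)) = (fun j => X (Sum.inl j)) := by
  ext j l
  simp only [Pi.add_apply, Pi.smul_apply, dirG]
  rw [Pi.single_eq_of_ne]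
  · simp
  · exact Sum.inl_ne_inr

theorem kinOn_tensor (f : (ι → Space) → ℝ) (g : (ι' → Space) → ℝ) (X : ι ⊕ ι' → Space) :
    kinOn Finset.univ (tensor f g) X =
      tensor (kinOn Finset.univ f) (fun y => g y ^ 2) X +
        tensor (fun x => f x ^ 2) (kinOn Finset.univ g) X := by
  have h1 : ∀ (i : ι) (k : Fin 3), lineDeriv ℝ (tensor f g) X (dirG (Sum.inl i : ι ⊕ ι') k) =
      lineDeriv ℝ f (fun j => X (Sum.inl j)) (dirG i k) * g (fun j => X (Sum.inr j)) := by
    intro i k
    unfold lineDeriv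
    rw [← deriv_mul_const_field]
    congr 1
    ext t
    rw [tensor, inl_add, inr_add]
  have h2 : ∀ (i : ι') (k : Fin 3), lineDeriv ℝ (tensor f g) X (dirG (Sum.inr i : ι ⊕ ι') k) =
      f (fun j => X (Sum.inl j)) * lineDeriv ℝ g (fun j => X (Sum.inr j)) (dirG i k) := by
    intro i k
    unfold lineDeriv
    rw [← deriv_const_mul_field]
    congr 1
    ext t
    rw [tensor, inl_add', inr_add']
  unfold kinOn
  rw [Fintype.sum_sum_type]
  simp only [h1, h2, norm_mul, mul_pow, tensor, Real.norm_eq_abs, sq_abs]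
  simp only [← Finset.sum_mul, ← Finset.mul_sum]

end Tensor

/-- bump for one particle -/
noncomputable def b1 (x : Fin 1 → Space) : ℝ := max 0 (1 / 2 - ‖x‖)

theorem b1_lip : LipschitzWith 1 b1 := by
  refine LipschitzWith.of_dist_le_mul fun x y => ?_
  rw [NNReal.coe_one, one_mul, Real.dist_eq, b1, b1]
  refine (abs_max_sub_max_le_max _ _ _ _).trans ?_
  rw [sub_self, abs_zero, max_eq_right (abs_nonneg _)]
  have e : 1 / 2 - ‖x‖ - (1 / 2 - ‖y‖) = ‖y‖ - ‖x‖ := by ring
  rw [e]
  refine (abs_norm_sub_norm_le _ _).trans ?_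
  rw [dist_comm, dist_eq_norm]

theorem b1_supp {x : Fin 1 → Space} (h : b1 x ≠ 0) : ‖x‖ < 1 / 2 := by
  by_contra hcon
  rw [not_lt] at hcon
  exact h (by rw [b1, max_eq_left (by linarith)])

theorem b1_compact : HasCompactSupport b1 := by
  refine HasCompactSupport.of_support_subset_isCompact
    (isCompact_closedBall (0 : Fin 1 → Space) (1 / 2)) ?_
  intro x hx
  rw [Metric.mem_closedBall, dist_zero_right]
  exact (b1_supp hx).le

theorem b1_pos : 0 < ∫ x, b1 x ^ 2 := by
  have hcomp : HasCompactSupport fun y => b1 y ^ 2 := by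
    refine b1_compact.mono fun x hx => ?_
    intro h
    exact hx (by simp [h])
  refine (b1_lip.continuous.pow 2).integral_pos_of_hasCompactSupport_nonneg_nonzero
    hcomp (fun y => by positivity) (x := 0) ?_
  simp [b1]

/-- The kinetic energy of the extra particle. -/
noncomputable def cost (μ : ℝ) : ℝ := μ * (∫ x, kinOn Finset.univ b1 x) / ∫ x, b1 x ^ 2

theorem cost_nonneg {μ : ℝ} (hμ : 0 < μ) : 0 ≤ cost μ :=
  div_nonneg (mul_nonneg hμ.le (integral_nonneg fun x => kinOn_nonneg _ _ _)) b1_pos.le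

theorem UB.add_one {μ lam : ℝ} {ι : Type} [Fintype ι] [DecidableEq ι]
    {L E : ℝ} (hL : 0 ≤ L) (h : UB μ (vpot lam) ι L E) :
    UB μ (vpot lam) (ι ⊕ Fin 1) (L + 12) (E + cost μ) := by
  obtain ⟨Ψ, p, ⟨C, hC⟩, hc, hs, hpos, hE⟩ := h
  -- the position of the extra particle
  set P : Space := WithLp.toLp 2 (fun _ => L + 11) with hP
  have hPk : ∀ k, P k = L + 11 := fun k => rfl
  set P1 : Fin 1 → Space := fun _ => P with hP1
  set b : (Fin 1 → Space) → ℝ := fun x => b1 (x - P1) with hb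
  have hblip : LipschitzWith 1 b := by
    refine LipschitzWith.of_dist_le_mul fun x y => ?_
    refine (b1_lip.dist_le_mul _ _).trans ?_
    rw [dist_sub_right]
  have hbc : HasCompactSupport b := b1_compact.comp_homeomorph (Homeomorph.subRight P1)
  have hbsq : ∫ x, b x ^ 2 = ∫ x, b1 x ^ 2 :=
    integral_sub_right_eq_self (fun x => b1 x ^ 2) P1
  have hbkin : ∫ x, kinOn Finset.univ b x = ∫ x, kinOn Finset.univ b1 x := by
    have h1 : ∀ x, kinOn Finset.univ b x = kinOn Finset.univ b1 (x - P1) := by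
      intro x
      unfold kinOn
      refine Finset.sum_congr rfl fun i _ => Finset.sum_congr rfl fun k _ => ?_
      rw [hb, lineDeriv_comp_linear (fun x => x - P1) b1 x (dirG i k) (dirG i k)]
      intro t
      abel
    simp only [h1]
    exact integral_sub_right_eq_self (fun x => kinOn Finset.univ b1 x) P1
  have hbs : ∀ x, b x ≠ 0 → ∀ k, |x 0 k - (L + 11)| < 1 / 2 := by
    intro x hx k
    have h1 := b1_supp hx
    have h2 := norm_le_pi_norm (x - P1) 0
    have h3 := abs_coord_le ((x - P1) 0) k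
    have h4 : (x - P1) 0 k = x 0 k - (L + 11) := by
      rw [Pi.sub_apply, PiLp.sub_apply]
    rw [h4] at h3
    linarith
  -- bounds of the factors
  obtain ⟨B, hB⟩ : ∃ B, ∀ x, ‖Ψ x‖ ≤ B := hc.exists_bound_of_continuous hC.continuous
  have hB0 : 0 ≤ B := (norm_nonneg _).trans (hB 0)
  have hb01 : ∀ x, 0 ≤ b x ∧ b x ≤ 1 := by
    intro x
    refine ⟨le_max_left _ _, max_le zero_le_one ?_⟩
    have := norm_nonneg (x - P1)
    linarith
  have hleft : ∀ X Y : ι ⊕ Fin 1 → Space,
      dist (fun i => X (Sum.inl i)) (fun i => Y (Sum.inl i)) ≤ dist X Y := by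
    intro X Y
    rw [dist_pi_le_iff dist_nonneg]
    intro i
    exact dist_le_pi_dist X Y (Sum.inl i)
  have hright : ∀ X Y : ι ⊕ Fin 1 → Space,
      dist (fun i => X (Sum.inr i)) (fun i => Y (Sum.inr i)) ≤ dist X Y := by
    intro X Y
    rw [dist_pi_le_iff dist_nonneg]
    intro i
    exact dist_le_pi_dist X Y (Sum.inr i)
  refine ⟨tensor Ψ b, p, ⟨C + Real.toNNReal B, ?_⟩, ?_, ?_, ?_, ?_⟩
  · refine LipschitzWith.of_dist_le_mul fun X Y => ?_
    rw [Real.dist_eq]
    unfold tensor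
    set x := fun i => X (Sum.inl i) with hx
    set y := fun i => Y (Sum.inl i) with hy
    set x' := fun i => X (Sum.inr i) with hx'
    set y' := fun i => Y (Sum.inr i) with hy'
    have h1 : |Ψ x - Ψ y| ≤ C * dist X Y := by
      rw [← Real.dist_eq]
      exact (hC.dist_le_mul _ _).trans (mul_le_mul_of_nonneg_left (hleft X Y) C.2)
    have h2 : |b x' - b y'| ≤ dist X Y := by
      rw [← Real.dist_eq]
      refine (hblip.dist_le_mul _ _).trans ?_
      rw [NNReal.coe_one, one_mul]
      exact hright X Y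
    have e : Ψ x * b x' - Ψ y * b y' = (Ψ x - Ψ y) * b x' + Ψ y * (b x' - b y') := by ring
    rw [e]
    refine (abs_add_le _ _).trans ?_
    rw [abs_mul, abs_mul, abs_of_nonneg (hb01 _).1, NNReal.coe_add, add_mul,
      Real.coe_toNNReal _ hB0]
    refine add_le_add ?_ ?_
    · exact (mul_le_of_le_one_right (abs_nonneg _) (hb01 _).2).trans h1
    · exact mul_le_mul (hB y) h2 (abs_nonneg _) hB0
  · obtain ⟨R, hR⟩ := hc.isCompact.isBounded.subset_closedBall (0 : ι → Space)
    obtain ⟨R', hR'⟩ := hbc.isCompact.isBounded.subset_closedBall (0 : Fin 1 → Space)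
    refine HasCompactSupport.of_support_subset_isCompact
      (isCompact_closedBall (0 : ι ⊕ Fin 1 → Space) (max |R| |R'|)) ?_
    intro X hX
    have h1 : Ψ (fun i => X (Sum.inl i)) ≠ 0 := fun h => hX (by rw [tensor, h, zero_mul])
    have h2 : b (fun i => X (Sum.inr i)) ≠ 0 := fun h => hX (by rw [tensor, h, mul_zero])
    have h3 := hR (subset_tsupport _ h1)
    have h4 := hR' (subset_tsupport _ h2)
    rw [Metric.mem_closedBall, dist_zero_right] at h3 h4
    rw [Metric.mem_closedBall, dist_zero_right, pi_norm_le_iff_of_nonneg (by positivity)]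
    rintro (i | i)
    · exact ((norm_le_pi_norm (fun i => X (Sum.inl i)) i).trans h3).trans
        ((le_abs_self R).trans (le_max_left _ _))
    · exact ((norm_le_pi_norm (fun i => X (Sum.inr i)) i).trans h4).trans
        ((le_abs_self R').trans (le_max_right _ _))
  · intro X hX
    have h1 : Ψ (fun i => X (Sum.inl i)) ≠ 0 := fun h => hX (by rw [tensor, h, zero_mul])
    have h2 : b (fun i => X (Sum.inr i)) ≠ 0 := fun h => hX (by rw [tensor, h, mul_zero])
    obtain ⟨h3, h4⟩ := hs _ h1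
    have h5 := hbs _ h2
    have hfar : ∀ (i : ι) (j : Fin 1), 10 ≤ ‖X (Sum.inl i) - X (Sum.inr j)‖ := by
      intro i j
      have hj : j = 0 := Subsingleton.elim _ _
      subst hj
      refine le_trans ?_ (abs_coord_le _ 0)
      rw [PiLp.sub_apply]
      have h6 := h3 i 0
      have h7 := abs_lt.1 (h5 0)
      rw [le_abs]
      right
      linarith [h6.2, h7.1]
    refine ⟨?_, ?_⟩
    · rintro (i | i) k
      · have h6 := h3 i k
        exact ⟨h6.1, by linarith [h6.2]⟩
      · have hi : i = 0 := Subsingleton.elim _ _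
        subst hi
        have h7 := abs_lt.1 (h5 k)
        exact ⟨by linarith [h7.1], by linarith [h7.2]⟩
    · rw [pot2_sum, h4]
      have h6 : pot2 (vpot lam) (fun i => X (Sum.inr i)) = 0 := by
        classical
        rw [pot2_eq_sum]
        refine Finset.sum_eq_zero fun i _ => Finset.sum_eq_zero fun j _ => ?_
        rw [if_pos (Subsingleton.elim i j)]
      rw [h6, Finset.sum_eq_zero fun i _ => Finset.sum_eq_zero fun j _ => vpot_far (hfar i j),
        Finset.sum_eq_zero fun i _ => Finset.sum_eq_zero fun j _ => ?_]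
      · ring
      · rw [norm_sub_rev]
        exact vpot_far (hfar _ _)
  · have h1 : ∀ X, tensor Ψ b X ^ 2 = tensor (fun x => Ψ x ^ 2) (fun y => b y ^ 2) X := by
      intro X; simp only [tensor]; ring
    simp only [h1]
    rw [integral_tensor, hbsq]
    exact mul_pos hpos b1_pos
  · have h1 : ∀ X, tensor Ψ b X ^ 2 = tensor (fun x => Ψ x ^ 2) (fun y => b y ^ 2) X := by
      intro X; simp only [tensor]; ring
    simp only [h1]
    have iΨ : Integrable (fun x => Ψ x ^ 2) := by
      simpa [Real.norm_eq_abs, sq_abs] using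
        integrable_norm_sq (ν := (volume : Measure (ι → Space))) hC.continuous hc
    have ib : Integrable (fun x => b x ^ 2) := by
      simpa [Real.norm_eq_abs, sq_abs] using
        integrable_norm_sq (ν := (volume : Measure (Fin 1 → Space))) hblip.continuous hbc
    have i1 : Integrable (fun X => tensor (kinOn Finset.univ Ψ) (fun y => b y ^ 2) X) := by
      have := (integrable_kinOn Finset.univ hC hc).mul_prod ib
      exact (splt_mp.integrable_comp_emb splt.measurableEmbedding).2 this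
    have i2 : Integrable (fun X => tensor (fun x => Ψ x ^ 2) (kinOn Finset.univ b) X) := by
      have := iΨ.mul_prod (integrable_kinOn Finset.univ hblip hbc)
      exact (splt_mp.integrable_comp_emb splt.measurableEmbedding).2 this
    simp only [kinOn_tensor]
    rw [integral_add i1 i2, integral_tensor, integral_tensor, integral_tensor, hbsq, hbkin]
    have hcost : μ * (∫ x, kinOn Finset.univ b1 x) = cost μ * ∫ x, b1 x ^ 2 := by
      unfold cost
      rw [div_mul_cancel₀ _ b1_pos.ne']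
    have h2 := mul_le_mul_of_nonneg_right hE b1_pos.le
    calc μ * ((∫ x, kinOn Finset.univ Ψ x) * (∫ x, b1 x ^ 2) +
          (∫ x, Ψ x ^ 2) * ∫ x, kinOn Finset.univ b1 x) +
          p * ((∫ x, Ψ x ^ 2) * ∫ x, b1 x ^ 2) =
          (μ * (∫ x, kinOn Finset.univ Ψ x) + p * ∫ x, Ψ x ^ 2) * (∫ x, b1 x ^ 2) +
          (∫ x, Ψ x ^ 2) * (μ * ∫ x, kinOn Finset.univ b1 x) := by ring
      _ ≤ (E * ∫ x, Ψ x ^ 2) * (∫ x, b1 x ^ 2) +
          (∫ x, Ψ x ^ 2) * (μ * ∫ x, kinOn Finset.univ b1 x) := by linarith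
      _ = _ := by rw [hcost]; ring

theorem UB.add {μ lam : ℝ} {N : ℕ} (r : ℕ) {L E : ℝ} (hL : 0 ≤ L)
    (h : UB μ (vpot lam) (Fin N) L E) :
    UB μ (vpot lam) (Fin (N + r)) (L + 12 * r) (E + r * cost μ) := by
  induction r with
  | zero => simpa using h
  | succ r ih =>
    have h1 := (UB.add_one (by positivity) ih).reindex (finSumFinEquiv : Fin (N + r) ⊕ Fin 1 ≃ _)
    have e1 : L + 12 * (r : ℝ) + 12 = L + 12 * ((r + 1 : ℕ) : ℝ) := by push_cast; ring
    have e2 : E + r * cost μ + cost μ = E + ((r + 1 : ℕ) : ℝ) * cost μ := by push_cast; ring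
    rw [e1, e2] at h1
    exact h1

end Pool.Agent.helper84.Bose
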