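import Pool.Agent.helper84.BoseSym

/-!
# Asymptotics of the upper bound
-/

open MeasureTheory Set Filter Topology
open scoped NNReal ENNReal

namespace Pool.Agent.helper84.Bose

theorem UB.mono {μ : ℝ} {v : ℝ → ℝ} {ι : Type} [Fintype ι] [DecidableEq ι] {L E E' : ℝ}
    (h : UB μ v ι L E) (hE : E ≤ E') : UB μ v ι L E' := by
  obtain ⟨Ψ, p, h1, h2, h3, h4, h5⟩ := h
  exact ⟨Ψ, p, h1, h2, h3, h4, h5.trans (mul_le_mul_of_nonneg_right hE h4.le)⟩

/-- The numerical estimate. -/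
theorem numeric {μ ρ c : ℝ} (hμ : 0 < μ) (hρ : 0 < ρ) (hρ0 : ρ ≤ 1 / 5000000) (hc : 0 ≤ c)
    {n K r : ℕ} (hn : 2 ≤ n) (hr : r ≤ 728) {L : ℝ} (hK : (K : ℝ) * n ≤ ρ * L ^ 3)
    (hL1 : 10000000 ≤ L) (hL2 : 1 / ρ ≤ L) (hL3 : 728 * c ≤ Real.pi * μ * ρ ^ 2 * L) :
    4 ≤ L - 12 * r ∧ 0 < freeVol K (L - 12 * r) ∧
      μ / n * (K * jconst K (L - 12 * r)) + Real.pi * μ * ρ ^ 2 * L ^ 3 + r * c ≤
        36 * Real.pi * μ * ρ ^ 2 * L ^ 3 := by
  have hpi3 := Real.pi_gt_three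
  have hpi := Real.pi_lt_d2
  have hr' : (r : ℝ) ≤ 728 := by exact_mod_cast hr
  have hr0 : (0 : ℝ) ≤ r := by positivity
  have hn' : (2 : ℝ) ≤ n := by exact_mod_cast hn
  have hL0 : 0 < L := by linarith
  set A : ℝ := L ^ 3 with hA
  have hA0 : 0 < A := by positivity
  set L₀ : ℝ := L - 12 * r with hL₀
  have h4 : 4 ≤ L₀ := by rw [hL₀]; linarith
  have hL₀le : L₀ ≤ L := by rw [hL₀]; linarith
  have hK0 : (0 : ℝ) ≤ K := by positivity
  -- bounds for `K`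
  have hKn : (K : ℝ) ≤ ρ * A / n := by rw [le_div_iff₀ (by linarith)]; exact hK
  have hK2 : (K : ℝ) ≤ ρ * A / 2 := by
    refine hKn.trans ?_
    gcongr
  -- the free volume
  have hcube : 99 / 100 * A ≤ (L₀ - 4) ^ 3 := by
    have h1 : 999 / 1000 * L ≤ L₀ - 4 := by rw [hL₀]; linarith
    calc 99 / 100 * A ≤ (999 / 1000 * L) ^ 3 := by rw [hA]; nlinarith [hA0]
      _ ≤ (L₀ - 4) ^ 3 := pow_le_pow_left₀ (by positivity) h1 3
  have hD : 98 / 100 * A ≤ freeVol K L₀ := by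
    unfold freeVol
    have h1 : 18432 * Real.pi * K ≤ 1 / 100 * A := by
      have h2 : 18432 * Real.pi * K ≤ 18432 * Real.pi * (ρ * A / 2) := by gcongr
      have h3 : 18432 * Real.pi * (ρ * A / 2) ≤ 18432 * 3.15 * ((1 / 5000000) * A / 2) := by
        gcongr
      have h5 : 18432 * 3.15 * ((1 / 5000000) * A / 2) ≤ 1 / 100 * A := by nlinarith
      linarith
    linarith
  have hD0 : 0 < freeVol K L₀ := by linarith [mul_pos (by norm_num : (0:ℝ) < 98 / 100) hA0]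
  refine ⟨h4, hD0, ?_⟩
  set D := freeVol K L₀ with hDdef
  -- the layer term
  have hlay : ((L₀ - 2) ^ 3 - (L₀ - 4) ^ 3) / D ≤ 7 / L := by
    rw [div_le_div_iff₀ hD0 hL0]
    have h1 : (L₀ - 2) ^ 3 - (L₀ - 4) ^ 3 ≤ 6 * L ^ 2 := by
      have h2 : (L₀ - 2) ^ 3 - (L₀ - 4) ^ 3 = 6 * L₀ ^ 2 - 36 * L₀ + 56 := by ring
      rw [h2]
      nlinarith
    have h3 : ((L₀ - 2) ^ 3 - (L₀ - 4) ^ 3) * L ≤ 6 * L ^ 2 * L :=
      mul_le_mul_of_nonneg_right h1 hL0.le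
    have h5 : 6 * L ^ 2 * L = 6 * A := by rw [hA]; ring
    linarith
  -- the shell term
  set s : ℝ := 16128 * Real.pi / D with hs
  have hs0 : 0 ≤ s := by positivity
  have hKs : (K : ℝ) * s ≤ 16458 * Real.pi * ρ / n := by
    have h1 : s ≤ 16458 * Real.pi / A := by
      rw [hs, div_le_div_iff₀ hD0 hA0]
      nlinarith [mul_le_mul_of_nonneg_left hD (by positivity : (0:ℝ) ≤ 16458 * Real.pi),
        mul_pos Real.pi_pos hA0]
    calc (K : ℝ) * s ≤ (ρ * A / n) * (16458 * Real.pi / A) := by gcongr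
      _ = 16458 * Real.pi * ρ / n := by field_simp
  have hKs2 : (K : ℝ) * s ≤ 1 / 100 := by
    refine hKs.trans ?_
    calc 16458 * Real.pi * ρ / n ≤ 16458 * 3.15 * (1 / 5000000) / 2 := by gcongr
      _ ≤ 1 / 100 := by norm_num
  have hKs0 : 0 ≤ (K : ℝ) * s := by positivity
  have hj : jconst K L₀ ≤ 14 / L + (1 / 72) * (101 / 100 * (16458 * Real.pi * ρ / n)) := by
    unfold jconst
    rw [← hDdef, ← hs]
    have h1 : (K : ℝ) * (K * s ^ 2) = (K * s) * (K * s) := by ring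
    have h2 : (K * s) * (K * s) ≤ (K * s) * (1 / 100) := mul_le_mul_of_nonneg_left hKs2 hKs0
    have h3 : 2 * (((L₀ - 2) ^ 3 - (L₀ - 4) ^ 3) / D) ≤ 14 / L := by
      have : 14 / L = 2 * (7 / L) := by ring
      rw [this]
      linarith
    rw [h1]
    linarith
  have hμn : 0 ≤ μ / n := by positivity
  have hmain : μ / n * (K * jconst K L₀) ≤
      μ / n * ((ρ * A / n) * (14 / L + (1 / 72) * (101 / 100 * (16458 * Real.pi * ρ / n)))) := by
    refine mul_le_mul_of_nonneg_left ?_ hμn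
    have h1 : 0 ≤ 14 / L + (1 / 72) * (101 / 100 * (16458 * Real.pi * ρ / n)) := by positivity
    exact mul_le_mul hKn hj (jconst_nonneg h4 hD0) (by positivity)
  -- first part
  have hp1 : μ / n * ((ρ * A / n) * (14 / L)) ≤ 2 * (Real.pi * μ * ρ ^ 2 * A) := by
    have h1 : μ / n * ((ρ * A / n) * (14 / L)) ≤ μ / 2 * ((ρ * A / 2) * (14 / L)) := by
      gcongr
    refine h1.trans ?_
    have h2 : 14 / L ≤ 14 * ρ := by
      rw [div_le_iff₀ hL0]
      have : 1 ≤ ρ * L := by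
        rw [div_le_iff₀ hρ] at hL2
        linarith
      nlinarith
    have h3 : μ / 2 * ((ρ * A / 2) * (14 / L)) ≤ μ / 2 * ((ρ * A / 2) * (14 * ρ)) := by gcongr
    refine h3.trans ?_
    have h5 : 0 < μ * ρ ^ 2 * A := by positivity
    nlinarith
  -- second part
  have hp2 : μ / n * ((ρ * A / n) * ((1 / 72) * (101 / 100 * (16458 * Real.pi * ρ / n)))) ≤
      29 * (Real.pi * μ * ρ ^ 2 * A) := by
    have h1 : μ / n * ((ρ * A / n) * ((1 / 72) * (101 / 100 * (16458 * Real.pi * ρ / n)))) ≤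
        μ / 2 * ((ρ * A / 2) * ((1 / 72) * (101 / 100 * (16458 * Real.pi * ρ / 2)))) := by
      gcongr
    refine h1.trans ?_
    have h5 : 0 < Real.pi * μ * ρ ^ 2 * A := by positivity
    nlinarith
  have hp3 : (r : ℝ) * c ≤ Real.pi * μ * ρ ^ 2 * A := by
    have h1 : (r : ℝ) * c ≤ 728 * c := mul_le_mul_of_nonneg_right hr' hc
    have h2 : L ≤ A := by rw [hA]; nlinarith [sq_nonneg L]
    have h3 : Real.pi * μ * ρ ^ 2 * L ≤ Real.pi * μ * ρ ^ 2 * A :=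
      mul_le_mul_of_nonneg_left h2 (by positivity)
    linarith
  have hsplit : μ / n * ((ρ * A / n) * (14 / L + (1 / 72) * (101 / 100 *
      (16458 * Real.pi * ρ / n)))) = μ / n * ((ρ * A / n) * (14 / L)) +
      μ / n * ((ρ * A / n) * ((1 / 72) * (101 / 100 * (16458 * Real.pi * ρ / n)))) := by ring
  have h5 : 0 < Real.pi * μ * ρ ^ 2 * A := by positivity
  linarith

/-- The upper bound for the ground state energy at low density. -/
theorem upper_bound {μ : ℝ} (hμ : 0 < μ) {ρ : ℝ} (hρ : 0 < ρ) (hρ0 : ρ ≤ 1 / 5000000) :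
    ∀ᶠ L : ℝ in atTop,
      dirichletEnergy μ (vpot (lamc μ)) ⌊ρ * L ^ 3⌋₊ L ≤
        ((36 * Real.pi * μ * ρ ^ 2 * L ^ 3 : ℝ) : EReal) ∧
      neumannEnergy μ (vpot (lamc μ)) ⌊ρ * L ^ 3⌋₊ L ≤
        ((36 * Real.pi * μ * ρ ^ 2 * L ^ 3 : ℝ) : EReal) := by
  obtain ⟨n, hn2, hn729, hcrit⟩ := exists_critical hμ
  have hc := cost_nonneg hμ
  have hpos : 0 < Real.pi * μ * ρ ^ 2 := by positivity
  filter_upwards [eventually_ge_atTop (10000000 : ℝ), eventually_ge_atTop (1 / ρ),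
    eventually_ge_atTop (728 * cost μ / (Real.pi * μ * ρ ^ 2))] with L hL1 hL2 hL3
  rw [div_le_iff₀ hpos] at hL3
  set N := ⌊ρ * L ^ 3⌋₊ with hN
  set K := N / n with hKdef
  set r := N % n with hrdef
  have hdiv : K * n + r = N := Nat.div_add_mod' N n
  have hr : r ≤ 728 := by
    have : r < n := Nat.mod_lt _ (by omega)
    omega
  have hL0 : 0 < L := by linarith
  have hKn : (K : ℝ) * n ≤ ρ * L ^ 3 := by
    have h1 : ((K * n : ℕ) : ℝ) ≤ (N : ℝ) := by exact_mod_cast (by omega : K * n ≤ N)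
    have h2 : (N : ℝ) ≤ ρ * L ^ 3 := Nat.floor_le (by positivity)
    push_cast at h1
    linarith
  obtain ⟨h4, hD, hnum⟩ := numeric hμ hρ hρ0 hc hn2 hr hKn hL1 hL2 (by linarith)
  have hub1 : UB μ (vpot (lamc μ)) (Fin K × Fin n) (L - 12 * r)
      (μ / n * (K * jconst K (L - 12 * r)) + Real.pi * μ * ρ ^ 2 * L ^ 3) := by
    refine ub_clusters hμ hn2 hcrit h4 hD ?_
    have : 0 < Real.pi * μ * ρ ^ 2 * L ^ 3 := by positivity
    linarith
  have hub2 : UB μ (vpot (lamc μ)) (Fin (K * n)) (L - 12 * r)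
      (μ / n * (K * jconst K (L - 12 * r)) + Real.pi * μ * ρ ^ 2 * L ^ 3) :=
    hub1.reindex finProdFinEquiv
  have hub3 := (hub2.add r (by linarith)).mono hnum
  rw [hdiv, sub_add_cancel] at hub3
  exact ub_energy hμ hub3

end Pool.Agent.helper84.Bose
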