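import Pool.Agent.helper84.BoseDefs

/-!
# Calculus with line derivatives of Lipschitz functions
-/

open MeasureTheory Set Filter Topology
open scoped NNReal ENNReal

namespace Pool.Agent.helper84.Bose

section Gen

variable {V : Type*} [NormedAddCommGroup V] [NormedSpace ℝ V]
variable {E : Type*} [NormedAddCommGroup E] [NormedSpace ℝ E]
variable {F : Type*} [NormedAddCommGroup F] [NormedSpace ℝ F]

/-- Comparison of line derivatives through difference quotients (sum version). -/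
theorem norm_lineDeriv_sq_le_sum {σ : Type*} (S : Finset σ) {f : V → E} {g : σ → V → F} {x w : V}
    (hg : ∀ s ∈ S, LineDifferentiableAt ℝ (g s) x w)
    (h : ∀ t : ℝ, ‖f (x + t • w) - f x‖ ^ 2 ≤ ∑ s ∈ S, ‖g s (x + t • w) - g s x‖ ^ 2) :
    ‖lineDeriv ℝ f x w‖ ^ 2 ≤ ∑ s ∈ S, ‖lineDeriv ℝ (g s) x w‖ ^ 2 := by
  by_cases hf : LineDifferentiableAt ℝ f x w
  · have h1 := hasLineDerivAt_iff_tendsto_slope_zero.1 hf.hasLineDerivAt
    have h2 : ∀ s ∈ S, Tendsto (fun t : ℝ => t⁻¹ • (g s (x + t • w) - g s x)) (𝓝[≠] 0)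
        (𝓝 (lineDeriv ℝ (g s) x w)) := fun s hs =>
      hasLineDerivAt_iff_tendsto_slope_zero.1 (hg s hs).hasLineDerivAt
    have h3 : Tendsto (fun t : ℝ => ‖t⁻¹ • (f (x + t • w) - f x)‖ ^ 2) (𝓝[≠] 0)
        (𝓝 (‖lineDeriv ℝ f x w‖ ^ 2)) := (h1.norm).pow 2
    have h4 : Tendsto (fun t : ℝ => ∑ s ∈ S, ‖t⁻¹ • (g s (x + t • w) - g s x)‖ ^ 2) (𝓝[≠] 0)
        (𝓝 (∑ s ∈ S, ‖lineDeriv ℝ (g s) x w‖ ^ 2)) :=
      tendsto_finsetSum _ fun s hs => ((h2 s hs).norm).pow 2
    refine le_of_tendsto_of_tendsto' h3 h4 fun t => ?_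
    simp only [norm_smul, mul_pow]
    rw [← Finset.mul_sum]
    exact mul_le_mul_of_nonneg_left (h t) (by positivity)
  · rw [lineDeriv_zero_of_not_lineDifferentiableAt hf]
    simp only [norm_zero, ne_eq, OfNat.ofNat_ne_zero, not_false_eq_true, zero_pow]
    positivity

/-- Comparison of line derivatives through difference quotients. -/
theorem norm_lineDeriv_le_of_le {f : V → E} {g : V → F} {x w : V}
    (hg : LineDifferentiableAt ℝ g x w)
    (h : ∀ t : ℝ, ‖f (x + t • w) - f x‖ ≤ ‖g (x + t • w) - g x‖) :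
    ‖lineDeriv ℝ f x w‖ ≤ ‖lineDeriv ℝ g x w‖ := by
  have h1 : ∀ s ∈ (Finset.univ : Finset Unit), LineDifferentiableAt ℝ ((fun _ : Unit => g) s) x w :=
    fun _ _ => hg
  have h2 : ∀ t : ℝ, ‖f (x + t • w) - f x‖ ^ 2 ≤
      ∑ s ∈ (Finset.univ : Finset Unit), ‖(fun _ : Unit => g) s (x + t • w) -
        (fun _ : Unit => g) s x‖ ^ 2 := fun t => by
    simpa using pow_le_pow_left₀ (norm_nonneg _) (h t) 2
  have h3 := norm_lineDeriv_sq_le_sum Finset.univ h1 h2
  simp only [Finset.univ_unique, Finset.sum_const, Finset.card_singleton, one_smul] at h3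
  exact (pow_le_pow_iff_left₀ (norm_nonneg _) (norm_nonneg _) (by norm_num)).1 h3

theorem lineDeriv_eq_zero_of_notMem_tsupport {f : V → E} {x w : V} (h : x ∉ tsupport f) :
    lineDeriv ℝ f x w = 0 := by
  have h1 : f =ᶠ[𝓝 x] fun _ => 0 := notMem_tsupport_iff_eventuallyEq.1 h
  have h2 : lineDeriv ℝ f x w = lineDeriv ℝ (fun _ => (0 : E)) x w := h1.lineDeriv_eq
  rw [h2]
  simp [lineDeriv]

/-- line derivative of a composition with a linear map. -/
theorem lineDeriv_comp_linear {W : Type*} [NormedAddCommGroup W] [NormedSpace ℝ W]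
    (T : V → W) (f : W → E) (x w : V) (c : W)
    (hT : ∀ t : ℝ, T (x + t • w) = T x + t • c) :
    lineDeriv ℝ (fun x => f (T x)) x w = lineDeriv ℝ f (T x) c := by
  unfold lineDeriv
  congr 1
  ext t
  simp only [hT]

end Gen

section Meas

variable {V : Type*} [NormedAddCommGroup V] [NormedSpace ℝ V] [FiniteDimensional ℝ V]
  [MeasurableSpace V] [BorelSpace V] {ν : Measure V} [Measure.IsAddHaarMeasure ν]
variable {E : Type*} [NormedAddCommGroup E] [NormedSpace ℝ E] [FiniteDimensional ℝ E]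

theorem ae_lineDiff {K : ℝ≥0} {f : V → E} (hf : LipschitzWith K f) (w : V) :
    ∀ᵐ x ∂ν, LineDifferentiableAt ℝ f x w := by
  filter_upwards [hf.ae_differentiableAt (μ := ν)] with x hx
  exact hx.lineDifferentiableAt

theorem integrable_lineDeriv_sq {K : ℝ≥0} {f : V → E} (hf : LipschitzWith K f)
    (hc : HasCompactSupport f) (w : V) :
    Integrable (fun x => ‖lineDeriv ℝ f x w‖ ^ 2) ν := by
  have hsub : Function.support (fun x => ‖lineDeriv ℝ f x w‖ ^ 2) ⊆ tsupport f := by
    intro x hx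
    by_contra h
    exact hx (by simp [lineDeriv_eq_zero_of_notMem_tsupport h])
  rw [← integrableOn_iff_integrable_of_support_subset hsub]
  have : CompleteSpace E := FiniteDimensional.complete ℝ E
  refine Measure.integrableOn_of_bounded (M := (K * ‖w‖) ^ 2) (hc.isCompact.measure_lt_top.ne) ?_ ?_
  · borelize E
    exact ((aestronglyMeasurable_lineDeriv hf.continuous ν).norm.pow 2)
  · refine Eventually.of_forall fun x => ?_
    rw [norm_pow, norm_norm]
    exact pow_le_pow_left₀ (norm_nonneg _) (norm_lineDeriv_le_of_lipschitz ℝ hf) 2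

theorem integrable_norm_sq {f : V → E} (hf : Continuous f)
    (hc : HasCompactSupport f) : Integrable (fun x => ‖f x‖ ^ 2) ν := by
  refine Continuous.integrable_of_hasCompactSupport (by fun_prop) ?_
  refine hc.mono fun x hx => ?_
  intro h
  exact hx (by simp [h])

end Meas

end Pool.Agent.helper84.Bose
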