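import Pool.Agent.helper84.BoseDefs

/-!
# The combinatorial stability lemma
-/

open MeasureTheory Set Filter Topology
open scoped NNReal ENNReal

namespace Pool.Agent.helper84.Bose

open Classical in
/-- pairs at equal cells dominate pairs at a given cell offset -/
theorem card_offset_le {ι G : Type*} [AddCommGroup G] [DecidableEq G] (f : ι → G) (W : Finset ι)
    (d : G) :
    ((W ×ˢ W).filter fun p => f p.2 = f p.1 + d).card ≤
      ((W ×ˢ W).filter fun p => f p.2 = f p.1).card := by
  have key : ∀ d : G, ((W ×ˢ W).filter fun p => f p.2 = f p.1 + d).card =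
      ∑ c ∈ W.image f, (W.filter fun a => f a = c).card * (W.filter fun a => f a = c + d).card := by
    intro d
    rw [Finset.card_filter, Finset.sum_product]
    have h1 : ∀ i ∈ W, (∑ j ∈ W, if f (i, j).2 = f (i, j).1 + d then 1 else 0) =
        (fun c => (W.filter fun a => f a = c + d).card) (f i) := by
      intro i _
      simp only [Finset.card_filter]
    rw [Finset.sum_congr rfl h1,
      Finset.sum_comp (fun c => (W.filter fun a => f a = c + d).card) f]
    simp only [smul_eq_mul]
  have h0 := key 0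
  simp only [add_zero] at h0
  rw [key d, h0]
  set n : G → ℕ := fun c => (W.filter fun a => f a = c).card with hn
  have hshift : ∑ c ∈ W.image f, n (c + d) * n (c + d) ≤ ∑ c ∈ W.image f, n c * n c := by
    have h2 : ∑ c ∈ W.image f, n (c + d) * n (c + d) =
        ∑ c ∈ (W.image f).image (fun c => c + d), n c * n c := by
      rw [Finset.sum_image (f := fun c => n c * n c) (g := fun c => c + d)
        (s := W.image f)]
      intro a _ b _ hab
      exact add_right_cancel hab
    rw [h2]
    refine Finset.sum_le_sum_of_ne_zero ?_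
    intro c _ hc
    have : n c ≠ 0 := fun h => hc (by rw [h, mul_zero])
    rw [hn] at this
    simp only [ne_eq, Finset.card_eq_zero] at this
    obtain ⟨a, ha⟩ := Finset.nonempty_iff_ne_empty.2 this
    rw [Finset.mem_filter] at ha
    exact Finset.mem_image.2 ⟨a, ha.1, ha.2⟩
  have h3 : 2 * ∑ c ∈ W.image f, n c * n (c + d) ≤
      ∑ c ∈ W.image f, n c * n c + ∑ c ∈ W.image f, n (c + d) * n (c + d) := by
    rw [Finset.mul_sum, ← Finset.sum_add_distrib]
    refine Finset.sum_le_sum fun c _ => ?_
    have h5 : (0 : ℤ) ≤ ((n c : ℤ) - n (c + d)) ^ 2 := sq_nonneg _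
    have h6 : (2 * (n c * n (c + d)) : ℤ) ≤ n c * n c + n (c + d) * n (c + d) := by nlinarith
    exact_mod_cast h6
  have : 2 * ∑ c ∈ W.image f, n c * n (c + d) ≤ 2 * ∑ c ∈ W.image f, n c * n c := by
    linarith
  linarith

/-- The cell of side `1/4` containing a point. -/
noncomputable def cell (x : Space) : Fin 3 → ℤ := fun k => ⌊4 * x k⌋

theorem norm_sub_lt_of_cell_eq {x y : Space} (h : cell x = cell y) : ‖x - y‖ < 1 / 2 := by
  have hk : ∀ k, |x k - y k| ≤ 1 / 4 := by
    intro k
    have h1 : ⌊4 * x k⌋ = ⌊4 * y k⌋ := congrFun h k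
    have h2 := Int.abs_sub_lt_one_of_floor_eq_floor h1
    have h3 : 4 * x k - 4 * y k = 4 * (x k - y k) := by ring
    rw [h3, abs_mul] at h2
    norm_num at h2
    linarith
  rw [EuclideanSpace.norm_eq]
  have h4 : ∑ i, ‖(x - y) i‖ ^ 2 ≤ 3 / 16 := by
    rw [Fin.sum_univ_three]
    have h5 : ∀ k, ‖(x - y) k‖ ^ 2 ≤ 1 / 16 := by
      intro k
      have := hk k
      rw [Real.norm_eq_abs, PiLp.sub_apply]
      calc |x k - y k| ^ 2 ≤ (1 / 4) ^ 2 := pow_le_pow_left₀ (abs_nonneg _) this 2
        _ = 1 / 16 := by norm_num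
    linarith [h5 0, h5 1, h5 2]
  calc √(∑ i, ‖(x - y) i‖ ^ 2) ≤ √(3 / 16) := Real.sqrt_le_sqrt h4
    _ < 1 / 2 := by
      rw [Real.sqrt_lt' (by norm_num)]
      norm_num

/-- The cell offsets between points at distance at most one. -/
noncomputable def offsets : Finset (Fin 3 → ℤ) := Fintype.piFinset fun _ => Finset.Icc (-4 : ℤ) 4

theorem card_offsets : offsets.card = 729 := by
  simp [offsets, Fintype.card_piFinset]

theorem abs_coord_le (x : Space) (k : Fin 3) : |x k| ≤ ‖x‖ := by
  rw [← Real.norm_eq_abs]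
  exact PiLp.norm_apply_le x k

theorem cell_sub_mem_offsets {x y : Space} (h : ‖x - y‖ ≤ 1) : cell y - cell x ∈ offsets := by
  rw [offsets, Fintype.mem_piFinset]
  intro k
  have h1 : |x k - y k| ≤ 1 := by
    have := abs_coord_le (x - y) k
    rw [PiLp.sub_apply] at this
    linarith
  rw [abs_le] at h1
  simp only [Pi.sub_apply, cell, Finset.mem_Icc]
  have ha := Int.floor_le (4 * x k)
  have hb := Int.lt_floor_add_one (4 * x k)
  have hc := Int.floor_le (4 * y k)
  have hd := Int.lt_floor_add_one (4 * y k)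
  constructor
  · have : (-5 : ℝ) < (⌊4 * y k⌋ : ℝ) - ⌊4 * x k⌋ := by linarith
    have h5 : (-5 : ℤ) < ⌊4 * y k⌋ - ⌊4 * x k⌋ := by exact_mod_cast this
    omega
  · have : (⌊4 * y k⌋ : ℝ) - ⌊4 * x k⌋ < 5 := by linarith
    have h5 : ⌊4 * y k⌋ - ⌊4 * x k⌋ < (5 : ℤ) := by exact_mod_cast this
    omega

section

variable {ι : Type*}

/-- `C` is an isolated clique: all its pairs are at distance in `[1/2,1]` and it has distance at
least `10` from the other particles. -/
def IsClique (x : ι → Space) (C : Finset ι) : Prop :=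
  (∀ i ∈ C, ∀ j ∈ C, i ≠ j → 1 / 2 ≤ ‖x i - x j‖ ∧ ‖x i - x j‖ ≤ 1) ∧
    ∀ i ∈ C, ∀ j, j ∉ C → 10 ≤ ‖x i - x j‖

/-- A pair in the attractive well. -/
def Bonded (x : ι → Space) (p : ι × ι) : Prop :=
  p.1 ≠ p.2 ∧ 1 / 2 ≤ ‖x p.1 - x p.2‖ ∧ ‖x p.1 - x p.2‖ ≤ 1

/-- A pair in the repulsive zone. -/
def Forb (x : ι → Space) (p : ι × ι) : Prop :=
  p.1 ≠ p.2 ∧ (‖x p.1 - x p.2‖ < 1 / 2 ∨ (1 < ‖x p.1 - x p.2‖ ∧ ‖x p.1 - x p.2‖ < 10))

theorem bonded_of_not_forb {x : ι → Space} {i j : ι} (hij : i ≠ j) (hF : ¬ Forb x (i, j))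
    (h : ‖x i - x j‖ < 10) : Bonded x (i, j) := by
  unfold Forb at hF
  unfold Bonded
  simp only [not_and, not_or, not_lt] at hF
  have h2 := hF hij
  refine ⟨hij, h2.1, ?_⟩
  by_contra h3
  push Not at h3
  have := h2.2 h3
  linarith

theorem IsClique.eq {x : ι → Space} {C C' : Finset ι} (h : IsClique x C) (h' : IsClique x C')
    {i : ι} (hi : i ∈ C) (hi' : i ∈ C') : C = C' := by
  have key : ∀ {C C' : Finset ι}, IsClique x C → IsClique x C' → i ∈ C → i ∈ C' → C ⊆ C' := by
    intro C C' h h' hi hi' j hj
    by_contra hj'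
    have h1 := h'.2 i hi' j hj'
    have hne : i ≠ j := fun e => hj' (e ▸ hi')
    have h2 := (h.1 i hi j hj hne).2
    linarith
  exact Finset.Subset.antisymm (key h h' hi hi') (key h' h hi' hi)

variable [Fintype ι]

open Classical in
theorem comb (x : ι → Space) :
    (Finset.univ.filter (Bonded x)).card ≤
      ∑ C ∈ (Finset.univ : Finset ι).powerset.filter (IsClique x), C.card * (C.card - 1) +
        729 * 731 * (Finset.univ.filter (Forb x)).card := by
  set F := Finset.univ.filter (Forb x) with hF
  -- bad particles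
  set W : Finset ι := Finset.univ.filter (fun i => ¬ ∃ C : Finset ι, IsClique x C ∧ i ∈ C) with hW
  -- splitting of bonded pairs
  have hsub : Finset.univ.filter (Bonded x) ⊆
      ((Finset.univ : Finset ι).powerset.filter (IsClique x)).biUnion (fun C => C.offDiag) ∪
        (W ×ˢ W).filter (Bonded x) := by
    rintro ⟨i, j⟩ hp
    rw [Finset.mem_filter] at hp
    obtain ⟨_, hne, h1, h2⟩ := hp
    simp only at hne h1 h2
    rw [Finset.mem_union]
    by_cases hi : ∃ C : Finset ι, IsClique x C ∧ i ∈ C
    · left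
      obtain ⟨C, hC, hiC⟩ := hi
      have hjC : j ∈ C := by
        by_contra hj
        have := hC.2 i hiC j hj
        linarith
      simp only [Finset.mem_biUnion, Finset.mem_filter, Finset.mem_powerset, Finset.mem_offDiag]
      exact ⟨C, ⟨Finset.subset_univ _, hC⟩, hiC, hjC, hne⟩
    · right
      have hj : ¬ ∃ C : Finset ι, IsClique x C ∧ j ∈ C := by
        rintro ⟨C, hC, hjC⟩
        apply hi
        refine ⟨C, hC, ?_⟩
        by_contra hiC
        have := hC.2 j hjC i hiC
        rw [norm_sub_rev] at this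
        linarith
      simp only [Finset.mem_filter, Finset.mem_product, hW, Finset.mem_univ, true_and]
      exact ⟨⟨hi, hj⟩, hne, h1, h2⟩
  have h1 : (Finset.univ.filter (Bonded x)).card ≤
      ∑ C ∈ (Finset.univ : Finset ι).powerset.filter (IsClique x), C.card * (C.card - 1) +
        ((W ×ˢ W).filter (Bonded x)).card := by
    refine (Finset.card_le_card hsub).trans ((Finset.card_union_le _ _).trans ?_)
    refine Nat.add_le_add_right (Finset.card_biUnion_le.trans ?_) _
    refine Finset.sum_le_sum fun C _ => ?_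
    rw [Finset.offDiag_card, Nat.mul_sub, mul_one]
  -- bonded pairs in `W`
  have h2 : ((W ×ˢ W).filter (Bonded x)).card ≤
      729 * ((W ×ˢ W).filter fun p => cell (x p.2) = cell (x p.1)).card := by
    have hs : (W ×ˢ W).filter (Bonded x) ⊆
        offsets.biUnion (fun d => (W ×ˢ W).filter fun p => cell (x p.2) = cell (x p.1) + d) := by
      rintro ⟨i, j⟩ hp
      rw [Finset.mem_filter] at hp
      obtain ⟨hpW, hne, hp1, hp2⟩ := hp
      rw [Finset.mem_biUnion]
      refine ⟨cell (x j) - cell (x i), cell_sub_mem_offsets hp2, ?_⟩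
      rw [Finset.mem_filter]
      exact ⟨hpW, by simp⟩
    refine (Finset.card_le_card hs).trans (Finset.card_biUnion_le.trans ?_)
    refine (Finset.sum_le_sum fun d _ => card_offset_le (fun i => cell (x i)) W d).trans ?_
    rw [Finset.sum_const, card_offsets, smul_eq_mul]
  have h3 : ((W ×ˢ W).filter fun p => cell (x p.2) = cell (x p.1)).card ≤ W.card + F.card := by
    have hs : (W ×ˢ W).filter (fun p => cell (x p.2) = cell (x p.1)) ⊆ W.diag ∪ F := by
      rintro ⟨i, j⟩ hp
      rw [Finset.mem_filter, Finset.mem_product] at hp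
      rw [Finset.mem_union]
      by_cases hij : i = j
      · left
        rw [Finset.mem_diag]
        exact ⟨hp.1.1, hij⟩
      · right
        rw [hF, Finset.mem_filter]
        refine ⟨Finset.mem_univ _, hij, Or.inl ?_⟩
        exact norm_sub_lt_of_cell_eq hp.2.symm
    refine (Finset.card_le_card hs).trans ((Finset.card_union_le _ _).trans ?_)
    rw [Finset.diag_card]
  -- the vertices with a forbidden partner
  set Vf : Finset ι := F.image Prod.fst with hVf
  have h4 : Vf.card ≤ F.card := Finset.card_image_le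
  have hVf_mem : ∀ i, i ∉ Vf → ∀ j, ¬ Forb x (i, j) := by
    intro i hi j hj
    apply hi
    rw [hVf, Finset.mem_image]
    exact ⟨(i, j), by rw [hF, Finset.mem_filter]; exact ⟨Finset.mem_univ _, hj⟩, rfl⟩
  -- clean bad particles
  have h5 : W ⊆ Vf ∪ Vf.biUnion (fun j => offsets.biUnion (fun d =>
      (W \ Vf).filter fun i => cell (x i) = cell (x j) + d)) := by
    intro i hi
    rw [Finset.mem_union]
    by_cases hiV : i ∈ Vf
    · exact Or.inl hiV
    right
    have hcl : ∃ j ∈ Vf, Bonded x (i, j) := by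
      by_contra hno
      push Not at hno
      rw [hW, Finset.mem_filter] at hi
      apply hi.2
      refine ⟨Finset.univ.filter (fun j => j = i ∨ Bonded x (i, j)), ⟨?_, ?_⟩, ?_⟩
      · have hnf : ∀ j, (j = i ∨ Bonded x (i, j)) → j ∉ Vf := by
          rintro j (rfl | hj) hjV
          · exact hiV hjV
          · exact hno j hjV hj
        have hd : ∀ j, (j = i ∨ Bonded x (i, j)) → ‖x i - x j‖ ≤ 1 := by
          rintro j (rfl | hj)
          · simp
          · exact hj.2.2
        intro j hj k hk hjk
        rw [Finset.mem_filter] at hj hk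
        have hjk2 : ‖x j - x k‖ < 10 := by
          have e : x j - x k = (x i - x k) - (x i - x j) := by abel
          rw [e]
          refine (norm_sub_le _ _).trans_lt ?_
          linarith [hd j hj.2, hd k hk.2]
        have hb := bonded_of_not_forb hjk (hVf_mem j (hnf j hj.2) k) hjk2
        exact ⟨hb.2.1, hb.2.2⟩
      · have hnf : ∀ j, (j = i ∨ Bonded x (i, j)) → j ∉ Vf := by
          rintro j (rfl | hj) hjV
          · exact hiV hjV
          · exact hno j hjV hj
        have hd : ∀ j, (j = i ∨ Bonded x (i, j)) → ‖x i - x j‖ ≤ 1 := by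
          rintro j (rfl | hj)
          · simp
          · exact hj.2.2
        intro j hj k hk
        rw [Finset.mem_filter] at hj hk
        simp only [Finset.mem_univ, true_and] at hj hk
        by_contra hlt
        push Not at hlt
        apply hk
        by_cases hki : k = i
        · exact Or.inl hki
        right
        have hjk : j ≠ k := fun e => hk (e ▸ hj)
        have hb := bonded_of_not_forb hjk (hVf_mem j (hnf j hj) k) hlt
        refine bonded_of_not_forb (Ne.symm hki) (hVf_mem i hiV k) ?_
        have e : x i - x k = (x i - x j) + (x j - x k) := by abel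
        rw [e]
        refine (norm_add_le _ _).trans_lt ?_
        have := hb.2.2
        simp only at this
        linarith [hd j hj]
      · rw [Finset.mem_filter]
        exact ⟨Finset.mem_univ _, Or.inl rfl⟩
    obtain ⟨j, hj, hb⟩ := hcl
    rw [Finset.mem_biUnion]
    refine ⟨j, hj, ?_⟩
    rw [Finset.mem_biUnion]
    refine ⟨cell (x i) - cell (x j), cell_sub_mem_offsets ?_, ?_⟩
    · rw [norm_sub_rev]
      exact hb.2.2
    · rw [Finset.mem_filter, Finset.mem_sdiff]
      exact ⟨⟨hi, hiV⟩, by simp⟩
  have h6 : ∀ j d, ((W \ Vf).filter fun i => cell (x i) = cell (x j) + d).card ≤ 1 := by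
    intro j d
    rw [Finset.card_le_one]
    intro a ha b hb
    rw [Finset.mem_filter, Finset.mem_sdiff] at ha hb
    by_contra hab
    refine hVf_mem a ha.1.2 b ⟨hab, Or.inl ?_⟩
    exact norm_sub_lt_of_cell_eq (ha.2.trans hb.2.symm)
  have h7 : W.card ≤ 730 * F.card := by
    refine (Finset.card_le_card h5).trans ((Finset.card_union_le _ _).trans ?_)
    have h8 : (Vf.biUnion (fun j => offsets.biUnion (fun d =>
      (W \ Vf).filter fun i => cell (x i) = cell (x j) + d))).card ≤ Vf.card * 729 := by
      refine Finset.card_biUnion_le_card_mul _ _ _ fun j _ => ?_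
      refine (Finset.card_biUnion_le_card_mul _ _ 1 fun d _ => h6 j d).trans ?_
      rw [card_offsets]
    omega
  have h9 : ((W ×ˢ W).filter (Bonded x)).card ≤ 729 * 731 * F.card := by
    refine h2.trans ?_
    have : 729 * ((W ×ˢ W).filter fun p => cell (x p.2) = cell (x p.1)).card ≤
        729 * (731 * F.card) := by
      refine Nat.mul_le_mul_left _ (h3.trans ?_)
      omega
    linarith
  omega

/-- The number of particles in a clique is at most `729`. -/
theorem IsClique.card_le {x : ι → Space} {C : Finset ι}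
    (h : ∀ i ∈ C, ∀ j ∈ C, i ≠ j → 1 / 2 ≤ ‖x i - x j‖ ∧ ‖x i - x j‖ ≤ 1) : C.card ≤ 729 := by
  rcases C.eq_empty_or_nonempty with rfl | ⟨j, hj⟩
  · simp
  rw [← card_offsets]
  refine Finset.card_le_card_of_injOn (fun i => cell (x i) - cell (x j)) ?_ ?_
  · intro i hi
    by_cases hij : i = j
    · subst hij
      rw [offsets, Finset.mem_coe, Fintype.mem_piFinset]
      intro k
      simp
    · refine cell_sub_mem_offsets ?_
      rw [norm_sub_rev]
      exact (h i hi j hj hij).2
  · intro a ha b hb hab
    by_contra hne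
    have h1 := (h a ha b hb hne).1
    have h2 : cell (x a) = cell (x b) := sub_left_injective hab
    have h3 := norm_sub_lt_of_cell_eq h2
    linarith

end

end Pool.Agent.helper84.Bose
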