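import Pool.Agent.helper84.BoseCut

/-!
# The critical depth of the well
-/

open MeasureTheory Set Filter Topology
open scoped NNReal ENNReal

namespace Pool.Agent.helper84.Bose

section Gen

variable {ι : Type*} [DecidableEq ι] {E : Type*} [NormedAddCommGroup E] [NormedSpace ℝ E]

/-- The direction of the `k`-th coordinate of particle `i` (general index type). -/
noncomputable def dirG (i : ι) (k : Fin 3) : ι → Space :=
  Pi.single i (EuclideanSpace.single k (1 : ℝ))

/-- Kinetic energy density of the particles in `S`. -/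
noncomputable def kinOn [Fintype ι] (S : Finset ι) (Ψ : (ι → Space) → E) (X : ι → Space) : ℝ :=
  ∑ i ∈ S, ∑ k, ‖lineDeriv ℝ Ψ X (dirG i k)‖ ^ 2

theorem gradSq_eq {N : ℕ} (Ψ : (Fin N → Space) → ℂ) : gradSq Ψ = kinOn Finset.univ Ψ := rfl

theorem kinOn_nonneg [Fintype ι] (S : Finset ι) (Ψ : (ι → Space) → E) (X : ι → Space) :
    0 ≤ kinOn S Ψ X := by
  unfold kinOn; positivity

theorem kinOn_mono [Fintype ι] {S T : Finset ι} (h : S ⊆ T) (Ψ : (ι → Space) → E)
    (X : ι → Space) : kinOn S Ψ X ≤ kinOn T Ψ X :=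
  Finset.sum_le_sum_of_subset_of_nonneg h fun _ _ _ => by positivity

theorem integrable_kinOn [Fintype ι] [FiniteDimensional ℝ E] (S : Finset ι) {K : ℝ≥0}
    {Ψ : (ι → Space) → E}
    (hΨ : LipschitzWith K Ψ) (hc : HasCompactSupport Ψ) : Integrable (kinOn S Ψ) := by
  unfold kinOn
  refine integrable_finsetSum _ fun i _ => integrable_finsetSum _ fun k _ => ?_
  exact integrable_lineDeriv_sq hΨ hc _

end Gen

section Reindex

variable {ι ι' : Type*} [Fintype ι] [Fintype ι'] 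

/-- Reindexing of configurations. -/
def re (e : ι ≃ ι') (X : ι' → Space) : ι → Space := fun i => X (e i)

theorem re_measurePreserving (e : ι ≃ ι') :
    MeasurePreserving (re e) (volume : Measure (ι' → Space)) (volume : Measure (ι → Space)) := by
  have h := volume_measurePreserving_piCongrLeft (fun _ : ι => Space) e.symm
  have h2 : re e = ⇑(MeasurableEquiv.piCongrLeft (fun _ : ι => Space) e.symm) := by
    ext X i
    simp only [re, MeasurableEquiv.coe_piCongrLeft]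
    rw [Equiv.piCongrLeft_apply]
    simp
  rw [h2]
  exact h

theorem re_measurableEmbedding (e : ι ≃ ι') : MeasurableEmbedding (re e) := by
  have h : re e = MeasurableEquiv.piCongrLeft (fun _ : ι => Space) e.symm := by
    ext X i
    simp only [re, MeasurableEquiv.coe_piCongrLeft]
    rw [Equiv.piCongrLeft_apply]
    simp
  rw [h]
  exact MeasurableEquiv.measurableEmbedding _

theorem integral_re (e : ι ≃ ι') {F : Type*} [NormedAddCommGroup F] [NormedSpace ℝ F]
    (f : (ι → Space) → F) : ∫ X, f (re e X) = ∫ X, f X :=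
  (re_measurePreserving e).integral_comp (re_measurableEmbedding e) f

theorem re_lipschitz (e : ι ≃ ι') : LipschitzWith 1 (re e) := by
  refine LipschitzWith.of_dist_le_mul fun X Y => ?_
  rw [NNReal.coe_one, one_mul, dist_pi_le_iff dist_nonneg]
  intro i
  exact dist_le_pi_dist X Y (e i)

theorem re_add_smul_dirG [DecidableEq ι] [DecidableEq ι'] (e : ι ≃ ι') (X : ι' → Space) (t : ℝ)
    (i : ι') (k : Fin 3) :
    re e (X + t • dirG i k) = re e X + t • dirG (e.symm i) k := by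
  ext j l
  simp only [re, dirG, Pi.add_apply, Pi.smul_apply]
  by_cases h : e j = i
  · subst h
    simp
  · have h' : j ≠ e.symm i := fun h2 => h (by rw [h2]; simp)
    rw [Pi.single_eq_of_ne h, Pi.single_eq_of_ne h']

theorem kinOn_re [DecidableEq ι] [DecidableEq ι'] {E : Type*} [NormedAddCommGroup E]
    [NormedSpace ℝ E] (e : ι ≃ ι') (Ψ : (ι → Space) → E) (X : ι' → Space) :
    kinOn Finset.univ (fun X => Ψ (re e X)) X = kinOn Finset.univ Ψ (re e X) := by
  unfold kinOn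
  rw [← Equiv.sum_comp e.symm]
  refine Finset.sum_congr rfl fun i _ => Finset.sum_congr rfl fun k _ => ?_
  rw [lineDeriv_comp_linear (re e) Ψ X (dirG i k) (dirG (e.symm i) k)
    (fun t => re_add_smul_dirG e X t i k)]

theorem re_compact {E : Type*} [NormedAddCommGroup E] (e : ι ≃ ι') {Ψ : (ι → Space) → E}
    (hc : HasCompactSupport Ψ) : HasCompactSupport (fun X => Ψ (re e X)) := by
  have h : Continuous (re e.symm) := (re_lipschitz e.symm).continuous
  refine HasCompactSupport.of_support_subset_isCompact (hc.isCompact.image h) ?_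
  intro X hX
  refine ⟨re e X, subset_tsupport _ hX, ?_⟩
  ext i
  simp [re]

end Reindex

section Crit

/-- Wave functions of a clique: they vanish unless all pairs are in the well. -/
structure Adm {κ : Type*} [Fintype κ] (φ : (κ → Space) → ℂ) : Prop where
  lip : ∃ K : ℝ≥0, LipschitzWith K φ
  comp : HasCompactSupport φ
  supp : ∀ x, φ x ≠ 0 → ∀ i j, i ≠ j → 1 / 2 ≤ ‖x i - x j‖ ∧ ‖x i - x j‖ ≤ 1

/-- The set of all quotients kinetic energy / (number of pairs). -/
def critSet (μ : ℝ) : Set ℝ :=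
  {t | ∃ n : ℕ, 2 ≤ n ∧ ∃ φ : (Fin n → Space) → ℂ, Adm φ ∧ 0 < ∫ x, ‖φ x‖ ^ 2 ∧
    μ * ∫ x, kinOn Finset.univ φ x = t * ((n : ℝ) * ((n : ℝ) - 1) / 2) * ∫ x, ‖φ x‖ ^ 2}

/-- The critical depth. -/
noncomputable def lamc (μ : ℝ) : ℝ := sInf (critSet μ)

theorem critSet_bddBelow {μ : ℝ} (hμ : 0 < μ) : ∀ t ∈ critSet μ, 0 ≤ t := by
  rintro t ⟨n, hn, φ, _, hpos, h⟩
  have h1 : 0 ≤ μ * ∫ x, kinOn Finset.univ φ x :=
    mul_nonneg hμ.le (integral_nonneg fun x => kinOn_nonneg _ _ _)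
  have hn' : (2 : ℝ) ≤ n := by exact_mod_cast hn
  have h2 : 0 < ((n : ℝ) * ((n : ℝ) - 1) / 2) := by nlinarith
  rw [h] at h1
  by_contra hlt
  push Not at hlt
  have : t * ((n : ℝ) * ((n : ℝ) - 1) / 2) * ∫ x, ‖φ x‖ ^ 2 < 0 :=
    mul_neg_of_neg_of_pos (mul_neg_of_neg_of_pos hlt h2) hpos
  linarith

theorem lamc_nonneg {μ : ℝ} (hμ : 0 < μ) : 0 ≤ lamc μ :=
  Real.sInf_nonneg (critSet_bddBelow hμ)

theorem crit_fin {μ : ℝ} (hμ : 0 < μ) (n : ℕ) {φ : (Fin n → Space) → ℂ} (hφ : Adm φ) :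
    lamc μ * ((n : ℝ) * ((n : ℝ) - 1) / 2) * ∫ x, ‖φ x‖ ^ 2 ≤
      μ * ∫ x, kinOn Finset.univ φ x := by
  have h1 : 0 ≤ μ * ∫ x, kinOn Finset.univ φ x :=
    mul_nonneg hμ.le (integral_nonneg fun x => kinOn_nonneg _ _ _)
  have h0 : 0 ≤ ∫ x, ‖φ x‖ ^ 2 := integral_nonneg fun x => by positivity
  rcases lt_or_ge n 2 with hn | hn
  · have : (n : ℝ) * ((n : ℝ) - 1) / 2 = 0 := by
      interval_cases n <;> simp
    rw [this]
    simpa using h1
  rcases h0.eq_or_lt with h0 | h0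
  · rw [← h0]
    simpa using h1
  have hn' : (2 : ℝ) ≤ n := by exact_mod_cast hn
  have h2 : 0 < ((n : ℝ) * ((n : ℝ) - 1) / 2) := by nlinarith
  set t : ℝ := (μ * ∫ x, kinOn Finset.univ φ x) / (((n : ℝ) * ((n : ℝ) - 1) / 2) *
    ∫ x, ‖φ x‖ ^ 2) with ht
  have h3 : 0 < ((n : ℝ) * ((n : ℝ) - 1) / 2) * ∫ x, ‖φ x‖ ^ 2 := mul_pos h2 h0
  have hmem : t ∈ critSet μ := by
    refine ⟨n, hn, φ, hφ, h0, ?_⟩
    rw [mul_assoc, ht, div_mul_cancel₀ _ h3.ne']
  have h4 : lamc μ ≤ t := csInf_le ⟨0, critSet_bddBelow hμ⟩ hmem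
  rw [ht, le_div_iff₀ h3] at h4
  linarith

theorem Adm.reindex {κ κ' : Type*} [Fintype κ] [Fintype κ'] (e : κ ≃ κ')
    {φ : (κ → Space) → ℂ} (hφ : Adm φ) : Adm (fun x => φ (re e x)) where
  lip := by
    obtain ⟨K, hK⟩ := hφ.lip
    exact ⟨K * 1, hK.comp (re_lipschitz e)⟩
  comp := re_compact e hφ.comp
  supp := by
    intro x hx i j hij
    have := hφ.supp _ hx (e.symm i) (e.symm j) (fun h => hij (e.symm.injective h))
    simpa [re] using this

/-- The defining inequality of the critical depth, for a general index type. -/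
theorem crit_gen {μ : ℝ} (hμ : 0 < μ) {κ : Type*} [Fintype κ] [DecidableEq κ]
    {φ : (κ → Space) → ℂ} (hφ : Adm φ) :
    lamc μ * ((Fintype.card κ : ℝ) * ((Fintype.card κ : ℝ) - 1) / 2) * ∫ x, ‖φ x‖ ^ 2 ≤
      μ * ∫ x, kinOn Finset.univ φ x := by
  have e : κ ≃ Fin (Fintype.card κ) := Fintype.equivFin κ
  have h := crit_fin hμ (Fintype.card κ) (hφ.reindex e)
  have h1 : ∫ x, ‖φ (re e x)‖ ^ 2 = ∫ x, ‖φ x‖ ^ 2 := integral_re e (fun x => ‖φ x‖ ^ 2)
  have h2 : ∫ x, kinOn Finset.univ (fun x => φ (re e x)) x = ∫ x, kinOn Finset.univ φ x := by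
    simp_rw [kinOn_re e φ]
    exact integral_re e (fun x => kinOn Finset.univ φ x)
  rw [h1, h2] at h
  exact h

end Crit

end Pool.Agent.helper84.Bose
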