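import Pool.Agent.helper84.BoseWall

/-!
# Cutting a wave function along the walls
-/

open MeasureTheory Set Filter Topology
open scoped NNReal ENNReal

namespace Pool.Agent.helper84.Bose

variable {ι : Type*} [Fintype ι]

/-- `Ψ` vanishes on all walls. -/
def WallZero (Ψ : (ι → Space) → ℂ) : Prop :=
  ∀ X : ι → Space, ∀ i j, i ≠ j →
    (‖X i - X j‖ = 1 / 2 ∨ ‖X i - X j‖ = 1 ∨ ‖X i - X j‖ = 10) → Ψ X = 0

open Classical in
/-- The part of `Ψ` on configurations where `C` is an isolated clique. -/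
noncomputable def cut (C : Finset ι) (Ψ : (ι → Space) → ℂ) (X : ι → Space) : ℂ :=
  if IsClique X C then Ψ X else 0

theorem isClosed_isClique (C : Finset ι) : IsClosed {X : ι → Space | IsClique X C} := by
  have h1 : ∀ i j : ι, IsClosed {X : ι → Space | i ∈ C → j ∈ C → i ≠ j →
      1 / 2 ≤ ‖X i - X j‖ ∧ ‖X i - X j‖ ≤ 1} := by
    intro i j
    by_cases h : i ∈ C ∧ j ∈ C ∧ i ≠ j
    · have e : {X : ι → Space | i ∈ C → j ∈ C → i ≠ j →
          1 / 2 ≤ ‖X i - X j‖ ∧ ‖X i - X j‖ ≤ 1} =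
          {X : ι → Space | 1 / 2 ≤ ‖X i - X j‖} ∩ {X : ι → Space | ‖X i - X j‖ ≤ 1} := by
        ext X
        simp only [mem_ofPred_eq, mem_inter_iff]
        exact ⟨fun g => g h.1 h.2.1 h.2.2, fun g _ _ _ => g⟩
      rw [e]
      exact (isClosed_le (by fun_prop) (by fun_prop)).inter (isClosed_le (by fun_prop) (by fun_prop))
    · have e : {X : ι → Space | i ∈ C → j ∈ C → i ≠ j →
          1 / 2 ≤ ‖X i - X j‖ ∧ ‖X i - X j‖ ≤ 1} = univ := by
        ext X
        simp only [mem_ofPred_eq, mem_univ, iff_true]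
        intro a b c
        exact absurd ⟨a, b, c⟩ h
      rw [e]
      exact isClosed_univ
  have h2 : ∀ i j : ι, IsClosed {X : ι → Space | i ∈ C → j ∉ C → 10 ≤ ‖X i - X j‖} := by
    intro i j
    by_cases h : i ∈ C ∧ j ∉ C
    · have e : {X : ι → Space | i ∈ C → j ∉ C → 10 ≤ ‖X i - X j‖} =
          {X : ι → Space | 10 ≤ ‖X i - X j‖} := by
        ext X
        simp only [mem_ofPred_eq]
        exact ⟨fun g => g h.1 h.2, fun g _ _ => g⟩
      rw [e]
      exact isClosed_le (by fun_prop) (by fun_prop)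
    · have e : {X : ι → Space | i ∈ C → j ∉ C → 10 ≤ ‖X i - X j‖} = univ := by
        ext X
        simp only [mem_ofPred_eq, mem_univ, iff_true]
        intro a b
        exact absurd ⟨a, b⟩ h
      rw [e]
      exact isClosed_univ
  have e : {X : ι → Space | IsClique X C} =
      (⋂ i : ι, ⋂ j : ι, {X : ι → Space | i ∈ C → j ∈ C → i ≠ j →
          1 / 2 ≤ ‖X i - X j‖ ∧ ‖X i - X j‖ ≤ 1}) ∩
      (⋂ i : ι, ⋂ j : ι, {X : ι → Space | i ∈ C → j ∉ C → 10 ≤ ‖X i - X j‖}) := by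
    ext X
    simp only [IsClique, mem_ofPred_eq, mem_inter_iff, mem_iInter]
    constructor
    · rintro ⟨a, b⟩
      exact ⟨fun i j hi hj => a i hi j hj, fun i j hi hj => b i hi j hj⟩
    · rintro ⟨a, b⟩
      exact ⟨fun i hi j hj => a i j hi hj, fun i hi j hj => b i j hi hj⟩
  rw [e]
  exact (isClosed_iInter fun i => isClosed_iInter fun j => h1 i j).inter
    (isClosed_iInter fun i => isClosed_iInter fun j => h2 i j)

/-- Leaving the region where `C` is an isolated clique, one crosses a wall. -/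
theorem exists_wall {C : Finset ι} {X Y : ι → Space} (hX : IsClique X C) (hY : ¬ IsClique Y C) :
    ∃ Z : ι → Space, ‖X - Z‖ ≤ ‖X - Y‖ ∧ ∃ i j, i ≠ j ∧
      (‖Z i - Z j‖ = 1 / 2 ∨ ‖Z i - Z j‖ = 1 ∨ ‖Z i - Z j‖ = 10) := by
  set γ : ℝ → ι → Space := fun t => X + t • (Y - X) with hγ
  have hγ0 : γ 0 = X := by simp [hγ]
  have hγ1 : γ 1 = Y := by simp [hγ]
  have hγd : ∀ t ∈ Icc (0 : ℝ) 1, ‖X - γ t‖ ≤ ‖X - Y‖ := by
    intro t ht
    have e : X - γ t = t • (X - Y) := by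
      simp only [hγ, sub_add_cancel_left]
      rw [← smul_neg, neg_sub]
    rw [e, norm_smul, Real.norm_eq_abs, abs_of_nonneg ht.1]
    exact mul_le_of_le_one_left (norm_nonneg _) ht.2
  have hcont : ∀ i j : ι, ContinuousOn (fun t => ‖γ t i - γ t j‖) (Icc 0 1) := by
    intro i j
    refine Continuous.continuousOn ?_
    have h1 : ∀ i, Continuous fun t => γ t i := by
      intro i
      simp only [hγ, Pi.add_apply, Pi.smul_apply]
      fun_prop
    exact ((h1 i).sub (h1 j)).norm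
  -- the intermediate value theorem for the distance of a pair
  have ivt : ∀ (i j : ι) (R : ℝ), (‖X i - X j‖ ≤ R ∧ R ≤ ‖Y i - Y j‖) ∨
      (‖Y i - Y j‖ ≤ R ∧ R ≤ ‖X i - X j‖) → ∃ t ∈ Icc (0 : ℝ) 1, ‖γ t i - γ t j‖ = R := by
    rintro i j R (⟨h1, h2⟩ | ⟨h1, h2⟩)
    · have := intermediate_value_Icc (zero_le_one) (hcont i j)
      obtain ⟨t, ht, hR⟩ := this (show R ∈ Icc _ _ by
        simp only [hγ0, hγ1]; exact ⟨h1, h2⟩)
      exact ⟨t, ht, hR⟩
    · have := intermediate_value_Icc' (zero_le_one) (hcont i j)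
      obtain ⟨t, ht, hR⟩ := this (show R ∈ Icc _ _ by
        simp only [hγ0, hγ1]; exact ⟨h1, h2⟩)
      exact ⟨t, ht, hR⟩
  unfold IsClique at hY
  rw [not_and_or] at hY
  rcases hY with h | h
  · push Not at h
    obtain ⟨i, hi, j, hj, hij, h⟩ := h
    have hXij := hX.1 i hi j hj hij
    by_cases h1 : 1 / 2 ≤ ‖Y i - Y j‖
    · have h2 := h h1
      obtain ⟨t, ht, hR⟩ := ivt i j 1 (Or.inl ⟨hXij.2, h2.le⟩)
      exact ⟨γ t, hγd t ht, i, j, hij, Or.inr (Or.inl hR)⟩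
    · obtain ⟨t, ht, hR⟩ := ivt i j (1 / 2) (Or.inr ⟨(not_le.1 h1).le, hXij.1⟩)
      exact ⟨γ t, hγd t ht, i, j, hij, Or.inl hR⟩
  · push Not at h
    obtain ⟨i, hi, j, hj, h⟩ := h
    have hXij := hX.2 i hi j hj
    have hij : i ≠ j := fun e => hj (e ▸ hi)
    obtain ⟨t, ht, hR⟩ := ivt i j 10 (Or.inr ⟨h.le, hXij⟩)
    exact ⟨γ t, hγd t ht, i, j, hij, Or.inr (Or.inr hR)⟩

theorem cut_lipschitz {K : ℝ≥0} {Ψ : (ι → Space) → ℂ} (hΨ : LipschitzWith K Ψ)
    (hz : WallZero Ψ) (C : Finset ι) : LipschitzWith K (cut C Ψ) := by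
  have key : ∀ X Y : ι → Space, IsClique X C → ¬ IsClique Y C → ‖Ψ X‖ ≤ K * ‖X - Y‖ := by
    intro X Y hX hY
    obtain ⟨Z, hZ, i, j, hij, hR⟩ := exists_wall hX hY
    have h0 : Ψ Z = 0 := hz Z i j hij hR
    have h1 := lipschitzWith_iff_norm_sub_le.1 hΨ X Z
    rw [h0, sub_zero] at h1
    exact h1.trans (mul_le_mul_of_nonneg_left hZ K.2)
  rw [lipschitzWith_iff_norm_sub_le]
  intro X Y
  unfold cut
  by_cases hX : IsClique X C
  · by_cases hY : IsClique Y C
    · rw [if_pos hX, if_pos hY]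
      exact lipschitzWith_iff_norm_sub_le.1 hΨ X Y
    · rw [if_pos hX, if_neg hY, sub_zero]
      exact key X Y hX hY
  · by_cases hY : IsClique Y C
    · rw [if_neg hX, if_pos hY, zero_sub, norm_neg, norm_sub_rev]
      exact key Y X hY hX
    · rw [if_neg hX, if_neg hY, sub_zero, norm_zero]
      positivity

theorem cut_norm_le (C : Finset ι) (Ψ : (ι → Space) → ℂ) (X : ι → Space) :
    ‖cut C Ψ X‖ ≤ ‖Ψ X‖ := by
  unfold cut
  split_ifs
  · exact le_rfl
  · rw [norm_zero]; exact norm_nonneg _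

theorem cut_compact {Ψ : (ι → Space) → ℂ} (hc : HasCompactSupport Ψ) (C : Finset ι) :
    HasCompactSupport (cut C Ψ) := by
  refine hc.mono fun X hX => ?_
  intro h
  apply hX
  have := cut_norm_le C Ψ X
  rw [h, norm_zero] at this
  exact norm_le_zero_iff.1 this

open Classical in
theorem cut_lineDeriv_le {K : ℝ≥0} {Ψ : (ι → Space) → ℂ} (hΨ : LipschitzWith K Ψ)
    (hz : WallZero Ψ) (C : Finset ι) (X w : ι → Space) (hd : LineDifferentiableAt ℝ Ψ X w) :
    ‖lineDeriv ℝ (cut C Ψ) X w‖ ≤ if IsClique X C then ‖lineDeriv ℝ Ψ X w‖ else 0 := by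
  have hcont : Continuous (cut C Ψ) := (cut_lipschitz hΨ hz C).continuous
  by_cases hX : IsClique X C
  · rw [if_pos hX]
    by_cases h0 : Ψ X = 0
    · refine norm_lineDeriv_le_of_le hd fun t => ?_
      have h1 : cut C Ψ X = 0 := by
        rw [cut, if_pos hX, h0]
      rw [h1, h0, sub_zero, sub_zero]
      exact cut_norm_le C Ψ _
    · have h1 : cut C Ψ X ≠ 0 := by rwa [cut, if_pos hX]
      have h2 : ∀ᶠ Y in 𝓝 X, cut C Ψ Y ≠ 0 := hcont.continuousAt.eventually_ne h1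
      have h3 : cut C Ψ =ᶠ[𝓝 X] Ψ := by
        filter_upwards [h2] with Y hY
        by_cases hYC : IsClique Y C
        · rw [cut, if_pos hYC]
        · exact absurd (by rw [cut, if_neg hYC]) hY
      have h4 : lineDeriv ℝ (cut C Ψ) X w = lineDeriv ℝ Ψ X w := h3.lineDeriv_eq
      rw [h4]
  · rw [if_neg hX]
    have h3 : cut C Ψ =ᶠ[𝓝 X] fun _ => 0 := by
      filter_upwards [(isClosed_isClique C).isOpen_compl.mem_nhds hX] with Y hY
      have hY' : ¬ IsClique Y C := hY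
      rw [cut, if_neg hY']
    have h4 : lineDeriv ℝ (cut C Ψ) X w = lineDeriv ℝ (fun _ => (0 : ℂ)) X w := h3.lineDeriv_eq
    rw [h4]
    simp [lineDeriv]

end Pool.Agent.helper84.Bose
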