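import Mathlib

/-!
# Definitions for the dilute Bose gas problem (MP_b790f8_mp)

`N` particles in `ℝ³`, pair potential `v : ℝ → ℝ` (only its values on `[0,∞)` matter), Hamiltonian
`H_N = -μ ∑ Δ_i + ∑_{i<j} v(|x_i - x_j|)`, defined through its quadratic form
`∫ (μ |∇Ψ|² + ∑_{i<j} v(|x_i-x_j|) |Ψ|²)`.
-/

open MeasureTheory Set Filter Topology
open scoped NNReal

namespace Pool.Agent.helper84.Bose

/-- Three-dimensional Euclidean space. -/
abbrev Space : Type := EuclideanSpace ℝ (Fin 3)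

/-- The direction of the `k`-th coordinate of particle `i` in configuration space. -/
noncomputable def dir {N : ℕ} (i : Fin N) (k : Fin 3) : Fin N → Space :=
  Pi.single i (EuclideanSpace.single k (1 : ℝ))

/-- `|∇Ψ|²(X) = ∑_i ∑_k |∂Ψ/∂x_{i,k}(X)|²`. The derivative in the coordinate `x_{i,k}` is
the derivative of `t ↦ Ψ (X + t e_{i,k})` at `t = 0`; for Lipschitz `Ψ` it exists at almost every
`X` (Rademacher). -/
noncomputable def gradSq {N : ℕ} (Ψ : (Fin N → Space) → ℂ) (X : Fin N → Space) : ℝ :=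
  ∑ i, ∑ k, ‖lineDeriv ℝ Ψ X (dir i k)‖ ^ 2

/-- The potential energy `∑_{i<j} v(|x_i - x_j|)`. -/
noncomputable def potential (v : ℝ → ℝ) {N : ℕ} (X : Fin N → Space) : ℝ :=
  ∑ i, ∑ j ∈ Finset.univ.filter (fun j => i < j), v ‖X i - X j‖

/-- The energy form `∫_D (μ |∇Ψ|² + ∑_{i<j} v(|x_i-x_j|) |Ψ|²)` of `H_N` on a region `D` of
configuration space. -/
noncomputable def energy (μ : ℝ) (v : ℝ → ℝ) {N : ℕ} (D : Set (Fin N → Space))
    (Ψ : (Fin N → Space) → ℂ) : ℝ :=
  ∫ X in D, (μ * gradSq Ψ X + potential v X * ‖Ψ X‖ ^ 2)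

/-- `∫_D |Ψ|²`. -/
noncomputable def normSq {N : ℕ} (D : Set (Fin N → Space)) (Ψ : (Fin N → Space) → ℂ) : ℝ :=
  ∫ X in D, ‖Ψ X‖ ^ 2

/-- Wave functions of finite energy on the region `D`: (restrictions to `D` of) Lipschitz functions
with compact support whose potential energy on `D` is finite. -/
structure IsWave (v : ℝ → ℝ) {N : ℕ} (D : Set (Fin N → Space))
    (Ψ : (Fin N → Space) → ℂ) : Prop where
  lipschitz : ∃ K : ℝ≥0, LipschitzWith K Ψ
  compact : HasCompactSupport Ψ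
  finite : IntegrableOn (fun X => potential v X * ‖Ψ X‖ ^ 2) D

/-- `v` has no `N`-body bound states: `H_N ≥ 0` on `L²(ℝ^{3N})` (all wave functions, no symmetry
and no removal of the centre of mass). -/
def NoBoundStates (μ : ℝ) (v : ℝ → ℝ) (N : ℕ) : Prop :=
  ∀ Ψ : (Fin N → Space) → ℂ, IsWave v univ Ψ → 0 ≤ energy μ v univ Ψ

/-- The region `Λ^N`, where `Λ = (0,L)³`. -/
def box (N : ℕ) (L : ℝ) : Set (Fin N → Space) := {X | ∀ i k, X i k ∈ Ioo 0 L}

/-- Bosonic symmetry. -/
def IsSymmetric {N : ℕ} (Ψ : (Fin N → Space) → ℂ) : Prop :=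
  ∀ (σ : Equiv.Perm (Fin N)) (X : Fin N → Space), Ψ (fun i => X (σ i)) = Ψ X

/-- The ground state energy of `H_N` on symmetric functions on `Λ^N` with Neumann boundary
conditions: the infimum of the Rayleigh quotient over all symmetric wave functions. -/
noncomputable def neumannEnergy (μ : ℝ) (v : ℝ → ℝ) (N : ℕ) (L : ℝ) : EReal :=
  ⨅ Ψ : {Ψ : (Fin N → Space) → ℂ // IsWave v (box N L) Ψ ∧ IsSymmetric Ψ ∧
      0 < normSq (box N L) Ψ},
    ((energy μ v (box N L) Ψ.1 / normSq (box N L) Ψ.1 : ℝ) : EReal)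

/-- The ground state energy of `H_N` on symmetric functions on `Λ^N` with Dirichlet boundary
conditions: here the wave functions vanish outside `Λ^N`. -/
noncomputable def dirichletEnergy (μ : ℝ) (v : ℝ → ℝ) (N : ℕ) (L : ℝ) : EReal :=
  ⨅ Ψ : {Ψ : (Fin N → Space) → ℂ // IsWave v (box N L) Ψ ∧ IsSymmetric Ψ ∧
      (∀ X, X ∉ box N L → Ψ X = 0) ∧ 0 < normSq (box N L) Ψ},
    ((energy μ v (box N L) Ψ.1 / normSq (box N L) Ψ.1 : ℝ) : EReal)

/-- The energy per particle in the thermodynamic limit at density `ρ`, for a ground state energy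
function `E N L`. (A `limsup`, so that it is defined without a proof that the limit exists.) -/
noncomputable def energyPerParticle (E : ℕ → ℝ → EReal) (ρ : ℝ) : EReal :=
  limsup (fun L : ℝ => E ⌊ρ * L ^ 3⌋₊ L / ((ρ * L ^ 3 : ℝ) : EReal)) atTop

/-- `u` is a zero-energy solution of the radial equation `-2μ u'' + v u = 0` on `(0,∞)` with
`u(0) = 0`, in the weak (quadratic form) sense: `u` is absolutely continuous on every `[0,r]`, both
`|u'|²` and `v u²` are integrable on every `(0,r]`, and the equation holds when tested against the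
Lipschitz functions `η` with compact support in `(0,∞)` of finite potential energy. -/
structure IsZeroEnergySolution (μ : ℝ) (v : ℝ → ℝ) (u : ℝ → ℝ) : Prop where
  zero : u 0 = 0
  ac : ∀ r : ℝ, 0 < r → AbsolutelyContinuousOnInterval u 0 r
  deriv_sq : ∀ r : ℝ, 0 < r → IntegrableOn (fun s => deriv u s ^ 2) (Ioc 0 r)
  pot : ∀ r : ℝ, 0 < r → IntegrableOn (fun s => v s * u s ^ 2) (Ioc 0 r)
  weak : ∀ η : ℝ → ℝ, (∃ K : ℝ≥0, LipschitzWith K η) → HasCompactSupport η →
    tsupport η ⊆ Ioi 0 → Integrable (fun s => v s * η s ^ 2) →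
    ∫ s in Ioi (0 : ℝ), (2 * μ * (deriv u s * deriv η s) + v s * u s * η s) = 0

/-- `a` is the scattering length of `v`: `r - u(r)/u'(r) → a` as `r → ∞` for a zero-energy solution
`u` (with `u' ≠ 0` near infinity). -/
def IsScatteringLength (μ : ℝ) (v : ℝ → ℝ) (a : ℝ) : Prop :=
  ∃ u : ℝ → ℝ, IsZeroEnergySolution μ v u ∧ (∀ᶠ r in atTop, deriv u r ≠ 0) ∧
    Tendsto (fun r => r - u r / deriv u r) atTop (𝓝 a)

end Pool.Agent.helper84.Bose
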