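import Pool.Agent.helper84.BoseCrit

/-!
# The building blocks of the Jastrow function
-/

open MeasureTheory Set Filter Topology
open scoped NNReal ENNReal

namespace Pool.Agent.helper84.Bose

/-- The open cube `(a,b)³`. -/
def cube (a b : ℝ) : Set Space := {x | ∀ k, x k ∈ Ioo a b}

/-- The closed cube `[a,b]³`. -/
def ccube (a b : ℝ) : Set Space := {x | ∀ k, x k ∈ Icc a b}

theorem isOpen_cube (a b : ℝ) : IsOpen (cube a b) := by
  have : cube a b = ⋂ k : Fin 3, (fun x : Space => x k) ⁻¹' (Ioo a b) := by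
    ext x; simp only [cube, mem_ofPred_eq, mem_iInter, mem_preimage]
  rw [this]
  exact isOpen_iInter_of_finite fun k => isOpen_Ioo.preimage (by fun_prop)

theorem isClosed_ccube (a b : ℝ) : IsClosed (ccube a b) := by
  have : ccube a b = ⋂ k : Fin 3, (fun x : Space => x k) ⁻¹' (Icc a b) := by
    ext x; simp only [ccube, mem_ofPred_eq, mem_iInter, mem_preimage]
  rw [this]
  exact isClosed_iInter fun k => isClosed_Icc.preimage (by fun_prop)

theorem volume_cube (a b : ℝ) : volume (cube a b) = ENNReal.ofReal (b - a) ^ 3 := by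
  have h := (PiLp.volume_preserving_ofLp (Fin 3)).measure_preimage
    (s := Set.pi univ fun _ : Fin 3 => Ioo a b)
    (MeasurableSet.pi countable_univ fun _ _ => measurableSet_Ioo).nullMeasurableSet
  have h2 : (@WithLp.ofLp 2 (Fin 3 → ℝ)) ⁻¹' (Set.pi univ fun _ : Fin 3 => Ioo a b) = cube a b := by
    ext x; simp [cube]
  rw [h2] at h
  rw [h, Real.volume_pi_Ioo]
  simp

theorem volume_ccube (a b : ℝ) : volume (ccube a b) = ENNReal.ofReal (b - a) ^ 3 := by
  have h := (PiLp.volume_preserving_ofLp (Fin 3)).measure_preimage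
    (s := Icc (fun _ : Fin 3 => a) (fun _ => b)) measurableSet_Icc.nullMeasurableSet
  have h2 : (@WithLp.ofLp 2 (Fin 3 → ℝ)) ⁻¹' (Icc (fun _ : Fin 3 => a) (fun _ => b)) =
      ccube a b := by
    ext x
    simp only [mem_preimage, mem_Icc, Pi.le_def, ccube, mem_ofPred_eq]
    exact ⟨fun h k => ⟨h.1 k, h.2 k⟩, fun h => ⟨fun k => (h k).1, fun k => (h k).2⟩⟩
  rw [h2] at h
  rw [h, Real.volume_Icc_pi]
  simp

theorem cube_subset_ccube (a b : ℝ) : cube a b ⊆ ccube a b := fun _ hx k =>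
  ⟨(hx k).1.le, (hx k).2.le⟩

/-- The cut-off near the boundary of the box. -/
noncomputable def gcut (L : ℝ) (x : Space) : ℝ := min 1 (Metric.infDist x (cube 1 (L - 1))ᶜ)

/-- The pair factor. -/
noncomputable def fcut (x : Space) : ℝ := max 0 (min 1 (‖x‖ / 12 - 1))

theorem gcut_nonneg (L : ℝ) (x : Space) : 0 ≤ gcut L x :=
  le_min zero_le_one Metric.infDist_nonneg

theorem gcut_le_one (L : ℝ) (x : Space) : gcut L x ≤ 1 := min_le_left _ _

theorem compl_cube_nonempty (L : ℝ) : ((cube 1 (L - 1))ᶜ : Set Space).Nonempty := by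
  refine ⟨0, fun h => ?_⟩
  have := (h 0).1
  simp at this
  linarith

theorem gcut_lip (L : ℝ) (x y : Space) : |gcut L x - gcut L y| ≤ ‖x - y‖ := by
  unfold gcut
  have h1 : |Metric.infDist x (cube 1 (L - 1))ᶜ - Metric.infDist y (cube 1 (L - 1))ᶜ| ≤
      ‖x - y‖ := by
    have := (Metric.lipschitz_infDist_pt ((cube 1 (L - 1))ᶜ : Set Space)).dist_le_mul x y
    rw [NNReal.coe_one, one_mul, Real.dist_eq, dist_eq_norm] at this
    exact this
  refine (abs_min_sub_min_le_max _ _ _ _).trans ?_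
  simpa using h1

theorem gcut_eq_zero {L : ℝ} {x : Space} (h : x ∉ cube 1 (L - 1)) : gcut L x = 0 := by
  unfold gcut
  have : Metric.infDist x (cube 1 (L - 1))ᶜ = 0 := Metric.infDist_zero_of_mem h
  rw [this]
  simp

theorem gcut_eq_one {L : ℝ} {x : Space} (h : x ∈ cube 2 (L - 2)) : gcut L x = 1 := by
  unfold gcut
  refine min_eq_left ?_
  rw [Metric.le_infDist (compl_cube_nonempty L)]
  intro y hy
  have hy' : ¬ ∀ k, y k ∈ Ioo 1 (L - 1) := hy
  push Not at hy'
  obtain ⟨k, hk⟩ := hy'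
  have hx := h k
  rw [dist_eq_norm]
  refine le_trans ?_ (abs_coord_le (x - y) k)
  rw [PiLp.sub_apply]
  rw [mem_Ioo, not_and_or] at hk
  rcases hk with hk | hk
  · rw [not_lt] at hk
    rw [le_abs]
    left
    linarith [hx.1]
  · rw [not_lt] at hk
    rw [le_abs]
    right
    linarith [hx.2]

theorem fcut_nonneg (x : Space) : 0 ≤ fcut x := le_max_left _ _

theorem fcut_le_one (x : Space) : fcut x ≤ 1 := max_le zero_le_one (min_le_left _ _)

theorem fcut_neg (x : Space) : fcut (-x) = fcut x := by unfold fcut; rw [norm_neg]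

theorem fcut_lip (x y : Space) : |fcut x - fcut y| ≤ (1 / 12) * ‖x - y‖ := by
  unfold fcut
  refine (abs_max_sub_max_le_max _ _ _ _).trans ?_
  rw [sub_self, abs_zero, max_eq_right (abs_nonneg _)]
  refine (abs_min_sub_min_le_max _ _ _ _).trans ?_
  rw [sub_self, abs_zero, max_eq_right (abs_nonneg _)]
  have e : ‖x‖ / 12 - 1 - (‖y‖ / 12 - 1) = (1 / 12) * (‖x‖ - ‖y‖) := by ring
  rw [e, abs_mul, abs_of_pos (by norm_num : (0:ℝ) < 1 / 12)]
  exact mul_le_mul_of_nonneg_left (abs_norm_sub_norm_le x y) (by norm_num)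

theorem fcut_eq_zero {x : Space} (h : ‖x‖ ≤ 12) : fcut x = 0 := by
  unfold fcut
  refine max_eq_left ((min_le_right _ _).trans ?_)
  linarith

theorem fcut_eq_one {x : Space} (h : 24 ≤ ‖x‖) : fcut x = 1 := by
  unfold fcut
  rw [min_eq_left (by linarith), max_eq_right zero_le_one]

/-- The boundary layer, where `gcut` is not locally constant. -/
def layer (L : ℝ) : Set Space := ccube 1 (L - 1) \ cube 2 (L - 2)

/-- The shell, where `fcut` is not locally constant. -/
def shell : Set Space := {x | 12 ≤ ‖x‖ ∧ ‖x‖ ≤ 24}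

theorem measurableSet_layer (L : ℝ) : MeasurableSet (layer L) :=
  (isClosed_ccube _ _).measurableSet.diff (isOpen_cube _ _).measurableSet

theorem isClosed_shell : IsClosed shell := by
  have : shell = {x : Space | 12 ≤ ‖x‖} ∩ {x : Space | ‖x‖ ≤ 24} := by
    ext x; simp [shell]
  rw [this]
  exact (isClosed_le (by fun_prop) (by fun_prop)).inter (isClosed_le (by fun_prop) (by fun_prop))

theorem measurableSet_shell : MeasurableSet shell := isClosed_shell.measurableSet

theorem volume_shell : volume shell = ENNReal.ofReal (16128 * Real.pi) := by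
  have h : shell = Metric.closedBall 0 24 \ Metric.ball 0 12 := by
    ext x
    simp only [shell, mem_ofPred_eq, mem_diff, Metric.mem_closedBall, dist_zero_right,
      Metric.mem_ball, not_lt]
    exact and_comm
  rw [h, measure_diff (Metric.ball_subset_closedBall.trans
    (Metric.closedBall_subset_closedBall (by norm_num))) measurableSet_ball.nullMeasurableSet
    measure_ball_lt_top.ne, EuclideanSpace.volume_closedBall_fin_three,
    EuclideanSpace.volume_ball_fin_three, ← ENNReal.ofReal_pow (by norm_num),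
    ← ENNReal.ofReal_pow (by norm_num), ← ENNReal.ofReal_mul (by norm_num),
    ← ENNReal.ofReal_mul (by norm_num), ← ENNReal.ofReal_sub _ (by positivity)]
  congr 1
  ring

theorem volume_layer {L : ℝ} (hL : 4 ≤ L) :
    volume (layer L) = ENNReal.ofReal ((L - 2) ^ 3 - (L - 4) ^ 3) := by
  unfold layer
  have hsub : cube 2 (L - 2) ⊆ ccube 1 (L - 1) := by
    intro x hx k
    have := hx k
    constructor
    · linarith [this.1]
    · linarith [this.2]
  rw [measure_diff hsub (isOpen_cube _ _).measurableSet.nullMeasurableSet, volume_ccube,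
    volume_cube, ← ENNReal.ofReal_pow (by linarith), ← ENNReal.ofReal_pow (by linarith),
    ← ENNReal.ofReal_sub _ (pow_nonneg (by linarith) 3)]
  · congr 1
    ring
  · rw [volume_cube]
    exact ENNReal.pow_ne_top ENNReal.ofReal_ne_top

open Classical in
theorem gcut_local (L : ℝ) (x : Space) :
    ∀ᶠ x' in 𝓝 x, |gcut L x' - gcut L x| ≤ (if x ∈ layer L then 1 else 0) * ‖x' - x‖ := by
  by_cases hx : x ∈ layer L
  · rw [if_pos hx]
    filter_upwards with x'
    rw [one_mul]
    exact gcut_lip L x' x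
  · rw [if_neg hx]
    unfold layer at hx
    rw [mem_diff, not_and_or, not_not] at hx
    rcases hx with hx | hx
    · filter_upwards [(isClosed_ccube 1 (L - 1)).isOpen_compl.mem_nhds hx] with x' hx'
      rw [gcut_eq_zero fun h => hx' (cube_subset_ccube _ _ h),
        gcut_eq_zero fun h => hx (cube_subset_ccube _ _ h)]
      simp
    · filter_upwards [(isOpen_cube 2 (L - 2)).mem_nhds hx] with x' hx'
      rw [gcut_eq_one hx, gcut_eq_one hx']
      simp

open Classical in
theorem fcut_local (x : Space) :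
    ∀ᶠ x' in 𝓝 x, |fcut x' - fcut x| ≤ (1 / 12) * (if x ∈ shell then 1 else 0) * ‖x' - x‖ := by
  by_cases hx : x ∈ shell
  · rw [if_pos hx]
    filter_upwards with x'
    rw [mul_one]
    exact fcut_lip x' x
  · rw [if_neg hx]
    have hx2 : ¬ (12 ≤ ‖x‖ ∧ ‖x‖ ≤ 24) := hx
    rw [not_and_or, not_le, not_le] at hx2
    rcases hx2 with h | h
    · have h2 : ∀ᶠ x' in 𝓝 x, ‖x'‖ < 12 := continuous_norm.continuousAt.eventually (gt_mem_nhds h)
      filter_upwards [h2] with x' hx'
      rw [fcut_eq_zero hx'.le, fcut_eq_zero h.le]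
      simp
    · have h2 : ∀ᶠ x' in 𝓝 x, 24 < ‖x'‖ := continuous_norm.continuousAt.eventually (lt_mem_nhds h)
      filter_upwards [h2] with x' hx'
      rw [fcut_eq_one hx'.le, fcut_eq_one h.le]
      simp

/-- Products of numbers in `[0,1]`. -/
theorem abs_prod_sub_prod_le {J : Type*} (s : Finset J) (a b : J → ℝ)
    (ha : ∀ j ∈ s, 0 ≤ a j ∧ a j ≤ 1) (hb : ∀ j ∈ s, 0 ≤ b j ∧ b j ≤ 1) :
    |∏ j ∈ s, a j - ∏ j ∈ s, b j| ≤ ∑ j ∈ s, |a j - b j| := by
  classical
  induction s using Finset.induction_on with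
  | empty => simp
  | insert i s hi ih =>
    rw [Finset.prod_insert hi, Finset.prod_insert hi, Finset.sum_insert hi]
    have ha' := fun j hj => ha j (Finset.mem_insert_of_mem hj)
    have hb' := fun j hj => hb j (Finset.mem_insert_of_mem hj)
    have h1 := ih ha' hb'
    have hA : 0 ≤ ∏ j ∈ s, a j := Finset.prod_nonneg fun j hj => (ha' j hj).1
    have hA1 : ∏ j ∈ s, a j ≤ 1 := Finset.prod_le_one (fun j hj => (ha' j hj).1)
      fun j hj => (ha' j hj).2
    have hbi := hb i (Finset.mem_insert_self _ _)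
    have e : a i * ∏ j ∈ s, a j - b i * ∏ j ∈ s, b j =
        (a i - b i) * ∏ j ∈ s, a j + b i * (∏ j ∈ s, a j - ∏ j ∈ s, b j) := by ring
    rw [e]
    refine (abs_add_le _ _).trans ?_
    rw [abs_mul, abs_mul, abs_of_nonneg hA, abs_of_nonneg hbi.1]
    have h2 : |a i - b i| * ∏ j ∈ s, a j ≤ |a i - b i| :=
      mul_le_of_le_one_right (abs_nonneg _) hA1
    have h3 : b i * |∏ j ∈ s, a j - ∏ j ∈ s, b j| ≤ |∏ j ∈ s, a j - ∏ j ∈ s, b j| :=
      mul_le_of_le_one_left (abs_nonneg _) hbi.2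
    linarith

theorem continuous_gcut (L : ℝ) : Continuous (gcut L) :=
  continuous_const.min (Metric.continuous_infDist_pt _)

theorem continuous_fcut : Continuous fcut := by
  unfold fcut; fun_prop

/-- Gradient bound from a local Lipschitz bound. -/
theorem sum_lineDeriv_sq_le {s : Space → ℝ} {x : Space} (hs : DifferentiableAt ℝ s x) {ℓ : ℝ}
    (hℓ : 0 ≤ ℓ) (h : ∀ᶠ x' in 𝓝 x, |s x' - s x| ≤ ℓ * ‖x' - x‖) :
    ∑ k : Fin 3, ‖lineDeriv ℝ s x (EuclideanSpace.single k (1 : ℝ))‖ ^ 2 ≤ ℓ ^ 2 := by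
  have h1 : ‖fderiv ℝ s x‖ ≤ ℓ := hs.hasFDerivAt.le_of_lip' hℓ h
  have h2 : ∀ k : Fin 3, lineDeriv ℝ s x (EuclideanSpace.single k (1 : ℝ)) =
      fderiv ℝ s x (EuclideanSpace.single k (1 : ℝ)) := fun k => hs.lineDeriv_eq_fderiv
  simp only [h2]
  set A := fderiv ℝ s x with hA
  set c : Fin 3 → ℝ := fun k => A (EuclideanSpace.single k (1 : ℝ)) with hc
  set v : Space := ∑ k : Fin 3, c k • EuclideanSpace.single k (1 : ℝ) with hv
  have hAv : A v = ∑ k : Fin 3, c k ^ 2 := by
    rw [hv, map_sum]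
    refine Finset.sum_congr rfl fun k _ => ?_
    rw [map_smul, smul_eq_mul, pow_two]
  have hvn : ‖v‖ ^ 2 = ∑ k : Fin 3, c k ^ 2 := by
    rw [EuclideanSpace.norm_sq_eq]
    refine Finset.sum_congr rfl fun k _ => ?_
    have : v k = c k := by
      rw [hv, Fin.sum_univ_three]
      fin_cases k <;> simp
    rw [this, Real.norm_eq_abs, sq_abs]
  have h3 : ‖v‖ ^ 2 ≤ ℓ * ‖v‖ := by
    rw [hvn, ← hAv]
    calc A v ≤ ‖A v‖ := le_abs_self _
      _ ≤ ‖A‖ * ‖v‖ := A.le_opNorm v
      _ ≤ ℓ * ‖v‖ := mul_le_mul_of_nonneg_right h1 (norm_nonneg _)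
  have h4 : ‖v‖ ≤ ℓ := by
    rcases (norm_nonneg v).eq_or_lt with h0 | h0
    · rw [← h0]; exact hℓ
    · nlinarith
  calc ∑ k : Fin 3, ‖c k‖ ^ 2 = ∑ k : Fin 3, c k ^ 2 :=
        Finset.sum_congr rfl fun k _ => by rw [Real.norm_eq_abs, sq_abs]
    _ = ‖v‖ ^ 2 := hvn.symm
    _ ≤ ℓ ^ 2 := pow_le_pow_left₀ (norm_nonneg _) h4 2

end Pool.Agent.helper84.Bose
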