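import Pool.Agent.helper84.BoseGeom

/-!
# The Jastrow function of the centres
-/

open MeasureTheory Set Filter Topology
open scoped NNReal ENNReal

namespace Pool.Agent.helper84.Bose

variable {K : ℕ}

/-- pair factor for an ordered pair -/
noncomputable def pf (p : Fin K × Fin K) (y : Fin K → Space) : ℝ :=
  if p.1 < p.2 then fcut (y p.1 - y p.2) else 1

/-- The Jastrow function of the particles in `S`. -/
noncomputable def GS (L : ℝ) (S : Finset (Fin K)) (y : Fin K → Space) : ℝ :=
  (∏ c ∈ S, gcut L (y c)) * ∏ p ∈ S.offDiag, pf p y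

/-- The factor of `GS` containing the particle `c`. -/
noncomputable def BS (L : ℝ) (c : Fin K) (S : Finset (Fin K)) (y : Fin K → Space) : ℝ :=
  gcut L (y c) * ∏ c' ∈ S, fcut (y c - y c')

theorem pf_nonneg (p : Fin K × Fin K) (y : Fin K → Space) : 0 ≤ pf p y := by
  unfold pf; split_ifs
  · exact fcut_nonneg _
  · exact zero_le_one

theorem pf_le_one (p : Fin K × Fin K) (y : Fin K → Space) : pf p y ≤ 1 := by
  unfold pf; split_ifs
  · exact fcut_le_one _
  · exact le_rfl

theorem GS_insert (L : ℝ) {c : Fin K} {S : Finset (Fin K)} (hc : c ∉ S) (y : Fin K → Space) :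
    GS L (insert c S) y = GS L S y * BS L c S y := by
  unfold GS BS
  rw [Finset.prod_insert hc]
  have h1 : ∏ p ∈ (insert c S).offDiag, pf p y =
      (∏ p ∈ S.offDiag, pf p y) * ∏ c' ∈ S, fcut (y c - y c') := by
    rw [Finset.offDiag_insert hc, Finset.prod_union, Finset.prod_union, mul_assoc]
    · congr 1
      rw [Finset.prod_product, Finset.prod_singleton, Finset.prod_product_right,
        Finset.prod_singleton, ← Finset.prod_mul_distrib]
      refine Finset.prod_congr rfl fun c' hc' => ?_
      have hne : c ≠ c' := fun h => hc (h ▸ hc')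
      unfold pf
      rcases lt_or_gt_of_ne hne with h | h
      · simp only [h, if_true, if_neg (not_lt.2 h.le), mul_one]
      · simp only [h, if_true, if_neg (not_lt.2 h.le), one_mul]
        rw [← fcut_neg, neg_sub]
    · rw [Finset.disjoint_left]
      intro p hp hp'
      rw [Finset.mem_offDiag] at hp
      rw [Finset.mem_product, Finset.mem_singleton] at hp'
      exact hc (hp'.1 ▸ hp.1)
    · rw [Finset.disjoint_left]
      intro p hp hp'
      rw [Finset.mem_product, Finset.mem_singleton] at hp'
      rw [Finset.mem_union, Finset.mem_offDiag, Finset.mem_product, Finset.mem_singleton] at hp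
      rcases hp with hp | hp
      · exact hc (hp'.2 ▸ hp.2.1)
      · exact hc (hp'.2 ▸ hp.2)
  rw [h1]
  ring

theorem GS_nonneg (L : ℝ) (S : Finset (Fin K)) (y : Fin K → Space) : 0 ≤ GS L S y :=
  mul_nonneg (Finset.prod_nonneg fun _ _ => gcut_nonneg _ _)
    (Finset.prod_nonneg fun _ _ => pf_nonneg _ _)

theorem GS_le_one (L : ℝ) (S : Finset (Fin K)) (y : Fin K → Space) : GS L S y ≤ 1 :=
  mul_le_one₀ (Finset.prod_le_one (fun _ _ => gcut_nonneg _ _) fun _ _ => gcut_le_one _ _)
    (Finset.prod_nonneg fun _ _ => pf_nonneg _ _)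
    (Finset.prod_le_one (fun _ _ => pf_nonneg _ _) fun _ _ => pf_le_one _ _)

theorem BS_nonneg (L : ℝ) (c : Fin K) (S : Finset (Fin K)) (y : Fin K → Space) : 0 ≤ BS L c S y :=
  mul_nonneg (gcut_nonneg _ _) (Finset.prod_nonneg fun _ _ => fcut_nonneg _)

theorem BS_le_one (L : ℝ) (c : Fin K) (S : Finset (Fin K)) (y : Fin K → Space) : BS L c S y ≤ 1 :=
  mul_le_one₀ (gcut_le_one _ _) (Finset.prod_nonneg fun _ _ => fcut_nonneg _)
    (Finset.prod_le_one (fun _ _ => fcut_nonneg _) fun _ _ => fcut_le_one _)

theorem GS_update (L : ℝ) {c : Fin K} {S : Finset (Fin K)} (hc : c ∉ S) (y : Fin K → Space)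
    (x : Space) : GS L S (Function.update y c x) = GS L S y := by
  unfold GS
  congr 1
  · refine Finset.prod_congr rfl fun c' hc' => ?_
    have : c' ≠ c := fun h => hc (h ▸ hc')
    rw [Function.update_of_ne this]
  · refine Finset.prod_congr rfl fun p hp => ?_
    rw [Finset.mem_offDiag] at hp
    have h1 : p.1 ≠ c := fun h => hc (h ▸ hp.1)
    have h2 : p.2 ≠ c := fun h => hc (h ▸ hp.2.1)
    unfold pf
    rw [Function.update_of_ne h1, Function.update_of_ne h2]

theorem BS_update (L : ℝ) {c : Fin K} {S : Finset (Fin K)} (hc : c ∉ S) (y : Fin K → Space)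
    (x : Space) : BS L c S (Function.update y c x) = gcut L x * ∏ c' ∈ S, fcut (x - y c') := by
  unfold BS
  rw [Function.update_self]
  congr 1
  refine Finset.prod_congr rfl fun c' hc' => ?_
  have : c' ≠ c := fun h => hc (h ▸ hc')
  rw [Function.update_of_ne this]

theorem continuous_pf (p : Fin K × Fin K) : Continuous (pf p) := by
  unfold pf
  split_ifs
  · exact continuous_fcut.comp (by fun_prop)
  · exact continuous_const

theorem continuous_GS (L : ℝ) (S : Finset (Fin K)) : Continuous (GS L S) := by
  unfold GS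
  refine Continuous.mul (continuous_finsetProd _ fun c _ => (continuous_gcut L).comp
    (continuous_apply c)) (continuous_finsetProd _ fun p _ => continuous_pf p)

theorem continuous_BS (L : ℝ) (c : Fin K) (S : Finset (Fin K)) : Continuous (BS L c S) := by
  unfold BS
  refine Continuous.mul ((continuous_gcut L).comp
    (continuous_apply c)) (continuous_finsetProd _ fun p _ => continuous_fcut.comp (by fun_prop))

/-- The free volume left to one particle by the others. -/
noncomputable def freeVol (K : ℕ) (L : ℝ) : ℝ := (L - 4) ^ 3 - 18432 * Real.pi * K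

theorem lintegral_BS_ge {L : ℝ} (hL : 4 ≤ L) {c : Fin K} {S : Finset (Fin K)} (hc : c ∉ S)
    (y : Fin K → Space) :
    ENNReal.ofReal (freeVol K L) ≤ ∫⁻ x, ENNReal.ofReal (BS L c S (Function.update y c x) ^ 2) := by
  set U : Set Space := cube 2 (L - 2) \ ⋃ c' ∈ S, Metric.ball (y c') 24 with hU
  have hUm : MeasurableSet U := by
    refine (isOpen_cube _ _).measurableSet.diff ?_
    exact Finset.measurableSet_biUnion _ fun _ _ => measurableSet_ball
  have h1 : ∀ x, U.indicator (fun _ => (1 : ℝ≥0∞)) x ≤
      ENNReal.ofReal (BS L c S (Function.update y c x) ^ 2) := by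
    intro x
    by_cases hx : x ∈ U
    · rw [indicator_of_mem hx, BS_update L hc, gcut_eq_one hx.1, one_mul]
      have h2 : ∏ c' ∈ S, fcut (x - y c') = 1 := by
        refine Finset.prod_eq_one fun c' hc' => ?_
        refine fcut_eq_one ?_
        have h3 : x ∉ Metric.ball (y c') 24 := by
          intro h
          exact hx.2 (mem_biUnion hc' h)
        rw [Metric.mem_ball, not_lt, dist_eq_norm] at h3
        exact h3
      rw [h2]
      simp
    · rw [indicator_of_notMem hx]
      exact zero_le
  refine le_trans ?_ (lintegral_mono h1)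
  rw [lintegral_indicator hUm, setLIntegral_const, one_mul]
  refine le_trans ?_ (le_measure_sdiff)
  have hball : volume (⋃ c' ∈ S, Metric.ball (y c') 24) ≤ ENNReal.ofReal (18432 * Real.pi * K) := by
    refine (measure_biUnion_finset_le _ _).trans ?_
    have h2 : ∀ c' ∈ S, volume (Metric.ball (y c') (24 : ℝ)) = ENNReal.ofReal (18432 * Real.pi) := by
      intro c' _
      rw [EuclideanSpace.volume_ball_fin_three, ← ENNReal.ofReal_pow (by norm_num),
        ← ENNReal.ofReal_mul (by norm_num)]
      congr 1
      ring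
    rw [Finset.sum_congr rfl h2, Finset.sum_const, nsmul_eq_mul]
    have h3 : S.card ≤ K := by
      have := Finset.card_le_univ S
      rwa [Fintype.card_fin] at this
    rw [← ENNReal.ofReal_natCast, ← ENNReal.ofReal_mul (by positivity)]
    refine ENNReal.ofReal_le_ofReal ?_
    have h4 : (S.card : ℝ) ≤ K := by exact_mod_cast h3
    nlinarith [Real.pi_pos]
  rw [volume_cube]
  refine le_trans ?_ (tsub_le_tsub_left hball _)
  rw [← ENNReal.ofReal_pow (by linarith), ← ENNReal.ofReal_sub _ (by positivity)]
  refine ENNReal.ofReal_le_ofReal (le_of_eq ?_)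
  unfold freeVol
  ring

/-- The one-particle comparison. -/
theorem lintegral_le_of_slices {F₁ F₂ : (Fin K → Space) → ℝ≥0∞} (h₁ : Measurable F₁)
    (h₂ : Measurable F₂) (c : Fin K) (A : ℝ≥0∞)
    (h : ∀ y, ∫⁻ x, F₁ (Function.update y c x) ≤ A * ∫⁻ x, F₂ (Function.update y c x)) :
    ∫⁻ y, F₁ y ≤ A * ∫⁻ y, F₂ y := by
  have e1 := lmarginal_erase' (μ := fun _ : Fin K => (volume : Measure Space)) F₁ h₁
    (Finset.mem_univ c)
  have e2 := lmarginal_erase' (μ := fun _ : Fin K => (volume : Measure Space)) F₂ h₂
    (Finset.mem_univ c)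
  have h3 : (∫⋯∫⁻_Finset.univ, F₁ ∂fun _ : Fin K => (volume : Measure Space)) (fun _ => 0) ≤
      A * (∫⋯∫⁻_Finset.univ, F₂ ∂fun _ : Fin K => (volume : Measure Space)) (fun _ => 0) := by
    rw [e1, e2]
    unfold lmarginal
    rw [← lintegral_const_mul]
    · exact lintegral_mono fun z => h _
    · refine Measurable.comp (g := fun y : Fin K → Space => ∫⁻ x, F₂ (Function.update y c x)) ?_
        measurable_updateFinset
      refine Measurable.lintegral_prod_right' (f := fun z : (Fin K → Space) × Space =>
        F₂ (Function.update z.1 c z.2)) ?_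
      exact h₂.comp (measurable_update'.comp measurable_id)
  rw [← lintegral_eq_lmarginal_univ, ← lintegral_eq_lmarginal_univ] at h3
  exact h3

end Pool.Agent.helper84.Bose
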