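import Pool.Agent.helper84.BoseJastrow

/-!
# The kinetic energy of the Jastrow function
-/

open MeasureTheory Set Filter Topology
open scoped NNReal ENNReal

namespace Pool.Agent.helper84.Bose

variable {K : ℕ}

open Classical in
/-- Indicator of the shell as a function of two points. -/
noncomputable def sh (x y : Space) : ℝ := if x - y ∈ shell then 1 else 0

open Classical in
/-- Indicator of the layer. -/
noncomputable def la (L : ℝ) (x : Space) : ℝ := if x ∈ layer L then 1 else 0

theorem sh_symm (x y : Space) : sh x y = sh y x := by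
  have h : x - y ∈ shell ↔ y - x ∈ shell := by
    unfold shell
    rw [mem_ofPred_eq, mem_ofPred_eq, norm_sub_rev]
  unfold sh
  by_cases hxy : x - y ∈ shell
  · rw [if_pos hxy, if_pos (h.1 hxy)]
  · rw [if_neg hxy, if_neg fun h' => hxy (h.2 h')]

theorem sh_nonneg (x y : Space) : 0 ≤ sh x y := by unfold sh; split_ifs <;> norm_num

theorem la_nonneg (L : ℝ) (x : Space) : 0 ≤ la L x := by unfold la; split_ifs <;> norm_num

theorem sh_sq (x y : Space) : sh x y * sh x y = sh x y := by unfold sh; split_ifs <;> norm_num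

theorem la_sq (L : ℝ) (x : Space) : la L x ^ 2 = la L x := by unfold la; split_ifs <;> norm_num

theorem measurable_sh (c c' : Fin K) : Measurable fun y : Fin K → Space => sh (y c) (y c') := by
  unfold sh
  refine Measurable.ite ?_ measurable_const measurable_const
  exact measurableSet_shell.preimage (by fun_prop)

theorem measurable_la (L : ℝ) (c : Fin K) : Measurable fun y : Fin K → Space => la L (y c) := by
  unfold la
  refine Measurable.ite ?_ measurable_const measurable_const
  exact (measurableSet_layer L).preimage (by fun_prop)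

theorem lintegral_sh (a : Space) :
    ∫⁻ x, ENNReal.ofReal (sh x a) = ENNReal.ofReal (16128 * Real.pi) := by
  have h1 : ∀ x, ENNReal.ofReal (sh x a) = shell.indicator (fun _ => (1 : ℝ≥0∞)) (x - a) := by
    intro x
    unfold sh
    by_cases h : x - a ∈ shell
    · rw [if_pos h, indicator_of_mem h, ENNReal.ofReal_one]
    · rw [if_neg h, indicator_of_notMem h, ENNReal.ofReal_zero]
  rw [lintegral_congr h1, lintegral_sub_right_eq_self (fun x => shell.indicator
    (fun _ => (1 : ℝ≥0∞)) x) a, lintegral_indicator measurableSet_shell, setLIntegral_const,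
    one_mul, volume_shell]

theorem lintegral_la {L : ℝ} (hL : 4 ≤ L) :
    ∫⁻ x, ENNReal.ofReal (la L x) = ENNReal.ofReal ((L - 2) ^ 3 - (L - 4) ^ 3) := by
  have h1 : ∀ x, ENNReal.ofReal (la L x) = (layer L).indicator (fun _ => (1 : ℝ≥0∞)) x := by
    intro x
    unfold la
    by_cases h : x ∈ layer L
    · rw [if_pos h, indicator_of_mem h, ENNReal.ofReal_one]
    · rw [if_neg h, indicator_of_notMem h, ENNReal.ofReal_zero]
  rw [lintegral_congr h1, lintegral_indicator (measurableSet_layer L), setLIntegral_const,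
    one_mul, volume_layer hL]

/-- Weight of the Jastrow function. -/
noncomputable def WS (L : ℝ) (S : Finset (Fin K)) (y : Fin K → Space) : ℝ≥0∞ :=
  ENNReal.ofReal (GS L S y ^ 2)

theorem measurable_WS (L : ℝ) (S : Finset (Fin K)) : Measurable (WS L S) :=
  ((continuous_GS L S).measurable.pow_const 2).ennreal_ofReal

/-- Integrating out one particle. -/
theorem step {L : ℝ} (hL : 4 ≤ L) (hD : 0 < freeVol K L) {c : Fin K} {S : Finset (Fin K)}
    (hc : c ∉ S) {R H : (Fin K → Space) → ℝ≥0∞} (hR : Measurable R) (hH : Measurable H)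
    (hRc : ∀ y x, R (Function.update y c x) = R y) {M : ℝ≥0∞}
    (hM : ∀ y, ∫⁻ x, H (Function.update y c x) ≤ M) :
    ∫⁻ y, WS L S y * R y * H y ≤
      (M / ENNReal.ofReal (freeVol K L)) * ∫⁻ y, WS L (insert c S) y * R y := by
  have hD' : ENNReal.ofReal (freeVol K L) ≠ 0 := by
    rw [ne_eq, ENNReal.ofReal_eq_zero, not_le]; exact hD
  refine lintegral_le_of_slices (F₁ := fun y => WS L S y * R y * H y)
    (F₂ := fun y => WS L (insert c S) y * R y) (((measurable_WS L S).mul hR).mul hH)
    ((measurable_WS L _).mul hR) c _ fun y => ?_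
  have hup : Measurable fun x : Space => Function.update y c x := measurable_update y
  have h1 : ∫⁻ x, WS L S (Function.update y c x) * R (Function.update y c x) *
      H (Function.update y c x) = (WS L S y * R y) * ∫⁻ x, H (Function.update y c x) := by
    rw [← lintegral_const_mul (WS L S y * R y) (f := fun x => H (Function.update y c x))
      (hH.comp hup)]
    refine lintegral_congr fun x => ?_
    rw [hRc, WS, GS_update L hc]
    rfl
  have h2 : ∫⁻ x, WS L (insert c S) (Function.update y c x) * R (Function.update y c x) =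
      (WS L S y * R y) * ∫⁻ x, ENNReal.ofReal (BS L c S (Function.update y c x) ^ 2) := by
    rw [← lintegral_const_mul (WS L S y * R y)
      (f := fun x => ENNReal.ofReal (BS L c S (Function.update y c x) ^ 2))
      ((((continuous_BS L c S).measurable.comp hup).pow_const 2).ennreal_ofReal)]
    refine lintegral_congr fun x => ?_
    rw [hRc, WS, GS_insert L hc, GS_update L hc, mul_pow, ENNReal.ofReal_mul (by positivity)]
    unfold WS
    ring
  rw [h1, h2]
  have h3 := lintegral_BS_ge hL hc y
  calc (WS L S y * R y) * ∫⁻ x, H (Function.update y c x) ≤ (WS L S y * R y) * M := by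
        gcongr
        exact hM y
    _ = (WS L S y * R y) * (M / ENNReal.ofReal (freeVol K L) * ENNReal.ofReal (freeVol K L)) := by
        rw [ENNReal.div_mul_cancel hD' ENNReal.ofReal_ne_top]
    _ = M / ENNReal.ofReal (freeVol K L) * ((WS L S y * R y) * ENNReal.ofReal (freeVol K L)) := by
        ring
    _ ≤ _ := by gcongr

/-- The local Lipschitz constant of the Jastrow function in the variable `y c`. -/
noncomputable def ell (L : ℝ) (c : Fin K) (y : Fin K → Space) : ℝ :=
  la L (y c) + ∑ c' ∈ Finset.univ.erase c, (1 / 12) * sh (y c) (y c')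

theorem ell_nonneg (L : ℝ) (c : Fin K) (y : Fin K → Space) : 0 ≤ ell L c y :=
  add_nonneg (la_nonneg _ _) (Finset.sum_nonneg fun _ _ => mul_nonneg (by norm_num) (sh_nonneg _ _))

theorem BS_local (L : ℝ) (c : Fin K) (y : Fin K → Space) :
    ∀ᶠ x' in 𝓝 (y c), |BS L c (Finset.univ.erase c) (Function.update y c x') -
      BS L c (Finset.univ.erase c) y| ≤ ell L c y * ‖x' - y c‖ := by
  have hf : ∀ᶠ x' in 𝓝 (y c), ∀ c' ∈ Finset.univ.erase c,
      |fcut (x' - y c') - fcut (y c - y c')| ≤ (1 / 12) * sh (y c) (y c') * ‖x' - y c‖ := by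
    rw [Filter.eventually_all_finset]
    intro c' _
    have ht : Tendsto (fun x' : Space => x' - y c') (𝓝 (y c)) (𝓝 (y c - y c')) := by
      exact (continuous_id.sub continuous_const).tendsto _
    filter_upwards [ht.eventually (fcut_local (y c - y c'))] with x' hx'
    have e : x' - y c' - (y c - y c') = x' - y c := by abel
    rw [e] at hx'
    exact hx'
  filter_upwards [hf, gcut_local L (y c)] with x' hx' hg
  have hnm : c ∉ Finset.univ.erase c := Finset.notMem_erase _ _
  rw [BS_update L hnm]
  unfold BS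
  set P := ∏ c' ∈ Finset.univ.erase c, fcut (x' - y c') with hP
  set Q := ∏ c' ∈ Finset.univ.erase c, fcut (y c - y c') with hQ
  have hPQ : |P - Q| ≤ ∑ c' ∈ Finset.univ.erase c, |fcut (x' - y c') - fcut (y c - y c')| :=
    abs_prod_sub_prod_le _ _ _ (fun j _ => ⟨fcut_nonneg _, fcut_le_one _⟩)
      (fun j _ => ⟨fcut_nonneg _, fcut_le_one _⟩)
  have hP0 : 0 ≤ P := Finset.prod_nonneg fun _ _ => fcut_nonneg _
  have hP1 : P ≤ 1 := Finset.prod_le_one (fun _ _ => fcut_nonneg _) fun _ _ => fcut_le_one _
  have e : gcut L x' * P - gcut L (y c) * Q = (gcut L x' - gcut L (y c)) * P +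
      gcut L (y c) * (P - Q) := by ring
  rw [e]
  refine (abs_add_le _ _).trans ?_
  rw [abs_mul, abs_mul, abs_of_nonneg hP0, abs_of_nonneg (gcut_nonneg _ _)]
  have h1 : |gcut L x' - gcut L (y c)| * P ≤ la L (y c) * ‖x' - y c‖ :=
    (mul_le_of_le_one_right (abs_nonneg _) hP1).trans hg
  have h2 : gcut L (y c) * |P - Q| ≤ (∑ c' ∈ Finset.univ.erase c, (1 / 12) * sh (y c) (y c')) *
      ‖x' - y c‖ := by
    refine (mul_le_of_le_one_left (abs_nonneg _) (gcut_le_one _ _)).trans (hPQ.trans ?_)
    rw [Finset.sum_mul]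
    exact Finset.sum_le_sum fun c' hc' => hx' c' hc'
  unfold ell
  rw [add_mul]
  linarith

theorem GS_lipschitz (L : ℝ) (S : Finset (Fin K)) :
    ∃ C : ℝ≥0, LipschitzWith C (GS L S) := by
  refine ⟨(S.card + S.offDiag.card : ℕ), ?_⟩
  refine LipschitzWith.of_dist_le_mul fun y z => ?_
  rw [Real.dist_eq]
  set J : Finset (Fin K ⊕ (Fin K × Fin K)) := S.disjSum S.offDiag with hJ
  have hg : ∀ y : Fin K → Space, GS L S y = ∏ j ∈ J, Sum.elim (fun c => gcut L (y c))
      (fun p => pf p y) j := by
    intro y
    rw [hJ, Finset.prod_disjSum]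
    rfl
  rw [hg y, hg z]
  refine (abs_prod_sub_prod_le J _ _ ?_ ?_).trans ?_
  · rintro (c | p) _
    · exact ⟨gcut_nonneg _ _, gcut_le_one _ _⟩
    · exact ⟨pf_nonneg _ _, pf_le_one _ _⟩
  · rintro (c | p) _
    · exact ⟨gcut_nonneg _ _, gcut_le_one _ _⟩
    · exact ⟨pf_nonneg _ _, pf_le_one _ _⟩
  · rw [hJ, Finset.sum_disjSum]
    have h1 : ∀ c ∈ S, |Sum.elim (fun c => gcut L (y c)) (fun p => pf p y) (Sum.inl c) -
        Sum.elim (fun c => gcut L (z c)) (fun p => pf p z) (Sum.inl c)| ≤ dist y z := by
      intro c _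
      simp only [Sum.elim_inl]
      refine (gcut_lip L _ _).trans ?_
      rw [← dist_eq_norm]
      exact dist_le_pi_dist y z c
    have h2 : ∀ p ∈ S.offDiag, |Sum.elim (fun c => gcut L (y c)) (fun p => pf p y) (Sum.inr p) -
        Sum.elim (fun c => gcut L (z c)) (fun p => pf p z) (Sum.inr p)| ≤ dist y z := by
      intro p _
      simp only [Sum.elim_inr, pf]
      split_ifs
      · refine (fcut_lip _ _).trans ?_
        have e : y p.1 - y p.2 - (z p.1 - z p.2) = (y p.1 - z p.1) - (y p.2 - z p.2) := by abel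
        rw [e]
        have h3 := norm_sub_le (y p.1 - z p.1) (y p.2 - z p.2)
        have h4 : ‖y p.1 - z p.1‖ ≤ dist y z := by
          rw [← dist_eq_norm]; exact dist_le_pi_dist y z _
        have h5 : ‖y p.2 - z p.2‖ ≤ dist y z := by
          rw [← dist_eq_norm]; exact dist_le_pi_dist y z _
        have h6 : 0 ≤ dist y z := dist_nonneg
        linarith
      · rw [sub_self, abs_zero]
        exact dist_nonneg
    have h3 := Finset.sum_le_sum h1
    have h4 := Finset.sum_le_sum h2
    rw [Finset.sum_const, nsmul_eq_mul] at h3 h4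
    push_cast
    linarith

theorem GS_univ_mem {L : ℝ} {y : Fin K → Space} (h : GS L Finset.univ y ≠ 0) (c : Fin K) :
    y c ∈ cube 1 (L - 1) := by
  by_contra hc
  apply h
  unfold GS
  have : ∏ c ∈ Finset.univ, gcut L (y c) = 0 :=
    Finset.prod_eq_zero (Finset.mem_univ c) (gcut_eq_zero hc)
  rw [this, zero_mul]

theorem norm_le_of_mem_cube {L : ℝ} {x : Space} (h : x ∈ cube 1 (L - 1)) : ‖x‖ ≤ 2 * L := by
  have hL : 0 ≤ L := by
    have := h 0
    linarith [this.1, this.2]
  rw [EuclideanSpace.norm_eq, Real.sqrt_le_left (by positivity)]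
  rw [Fin.sum_univ_three]
  have h5 : ∀ k, ‖x k‖ ^ 2 ≤ L ^ 2 := by
    intro k
    have := h k
    rw [Real.norm_eq_abs, sq_abs]
    exact pow_le_pow_left₀ (by linarith [this.1]) (by linarith [this.2]) 2
  nlinarith [h5 0, h5 1, h5 2]

theorem GS_compact (L : ℝ) : HasCompactSupport (GS L (Finset.univ : Finset (Fin K))) := by
  refine HasCompactSupport.of_support_subset_isCompact
    (isCompact_closedBall (0 : Fin K → Space) (2 * |L|)) ?_
  intro y hy
  rw [Metric.mem_closedBall, dist_zero_right, pi_norm_le_iff_of_nonneg (by positivity)]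
  intro c
  refine (norm_le_of_mem_cube (GS_univ_mem hy c)).trans ?_
  exact mul_le_mul_of_nonneg_left (le_abs_self L) (by norm_num)

/-- Almost everywhere gradient bound. -/
theorem grad_GS_le (L : ℝ) (c : Fin K) : ∀ᵐ y : Fin K → Space,
    ∑ k, ‖lineDeriv ℝ (GS L Finset.univ) y (dirG c k)‖ ^ 2 ≤
      GS L (Finset.univ.erase c) y ^ 2 * ell L c y ^ 2 := by
  obtain ⟨C, hC⟩ := GS_lipschitz L (Finset.univ : Finset (Fin K))
  filter_upwards [hC.ae_differentiableAt] with y hy
  set s : Space → ℝ := fun x => GS L Finset.univ (Function.update y c x) with hs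
  have hnm : c ∉ Finset.univ.erase c := Finset.notMem_erase _ _
  have hins : insert c (Finset.univ.erase c) = (Finset.univ : Finset (Fin K)) :=
    Finset.insert_erase (Finset.mem_univ c)
  have hG : ∀ z, GS L Finset.univ z = GS L (Finset.univ.erase c) z *
      BS L c (Finset.univ.erase c) z := by
    intro z
    have := GS_insert L hnm z
    rwa [hins] at this
  have hsd : DifferentiableAt ℝ s (y c) := by
    have h1 : DifferentiableAt ℝ (Function.update y c) (y c) :=
      (hasFDerivAt_update (𝕜 := ℝ) y (y c)).differentiableAt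
    refine DifferentiableAt.comp (y c) (g := GS L Finset.univ) ?_ h1
    rw [Function.update_eq_self]
    exact hy
  have hloc : ∀ᶠ x' in 𝓝 (y c), |s x' - s (y c)| ≤
      (GS L (Finset.univ.erase c) y * ell L c y) * ‖x' - y c‖ := by
    filter_upwards [BS_local L c y] with x' hx'
    have e1 : s x' = GS L (Finset.univ.erase c) y *
        BS L c (Finset.univ.erase c) (Function.update y c x') := by
      rw [hs]
      simp only []
      rw [hG, GS_update L hnm]
    have e2 : s (y c) = GS L (Finset.univ.erase c) y * BS L c (Finset.univ.erase c) y := by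
      rw [hs]
      simp only []
      rw [Function.update_eq_self, hG]
    rw [e1, e2, ← mul_sub, abs_mul, abs_of_nonneg (GS_nonneg _ _ _), mul_assoc]
    exact mul_le_mul_of_nonneg_left hx' (GS_nonneg _ _ _)
  have h2 := sum_lineDeriv_sq_le hsd (mul_nonneg (GS_nonneg _ _ _) (ell_nonneg _ _ _)) hloc
  rw [mul_pow] at h2
  refine le_trans (le_of_eq ?_) h2
  refine Finset.sum_congr rfl fun k _ => ?_
  congr 2
  unfold lineDeriv
  congr 1
  ext t
  rw [hs]
  simp only []
  congr 1
  ext c' l
  by_cases h : c' = c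
  · subst h
    rw [Function.update_self]
    simp [dirG]
  · rw [Function.update_of_ne h]
    simp [dirG, Pi.single_eq_of_ne h]

end Pool.Agent.helper84.Bose
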