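import Pool.Agent.helper84.BoseJastrow2

/-!
# The kinetic energy of the Jastrow function: final estimate
-/

open MeasureTheory Set Filter Topology
open scoped NNReal ENNReal

namespace Pool.Agent.helper84.Bose

variable {K : ℕ}

theorem ell_sq_le (L : ℝ) (c : Fin K) (y : Fin K → Space) :
    ell L c y ^ 2 ≤ 2 * la L (y c) + (1 / 72) * (∑ c' ∈ Finset.univ.erase c, sh (y c) (y c') +
      ∑ c' ∈ Finset.univ.erase c, ∑ c'' ∈ (Finset.univ.erase c).erase c',
        sh (y c) (y c') * sh (y c) (y c'')) := by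
  set b : ℝ := ∑ c' ∈ Finset.univ.erase c, sh (y c) (y c') with hb
  have h1 : ell L c y = la L (y c) + (1 / 12) * b := by
    unfold ell; rw [hb, Finset.mul_sum]
  have h2 : b ^ 2 = ∑ c' ∈ Finset.univ.erase c, sh (y c) (y c') +
      ∑ c' ∈ Finset.univ.erase c, ∑ c'' ∈ (Finset.univ.erase c).erase c',
        sh (y c) (y c') * sh (y c) (y c'') := by
    rw [pow_two, hb, Finset.sum_mul_sum, ← Finset.sum_add_distrib]
    refine Finset.sum_congr rfl fun c' hc' => ?_
    rw [← Finset.add_sum_erase _ _ hc', sh_sq]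
  rw [← h2, h1]
  have h3 := la_sq L (y c)
  nlinarith [sq_nonneg (la L (y c) - (1 / 12) * b)]

theorem WS_mono (L : ℝ) {c : Fin K} {S : Finset (Fin K)} (hc : c ∉ S) (y : Fin K → Space) :
    WS L (insert c S) y ≤ WS L S y := by
  unfold WS
  refine ENNReal.ofReal_le_ofReal ?_
  rw [GS_insert L hc, mul_pow]
  refine mul_le_of_le_one_right (by positivity) ?_
  exact pow_le_one₀ (BS_nonneg _ _ _ _) (BS_le_one _ _ _ _)

section

variable {L : ℝ} (hL : 4 ≤ L) (hD : 0 < freeVol K L)
include hL hD

theorem bound_layer (c : Fin K) :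
    ∫⁻ y, WS L (Finset.univ.erase c) y * ENNReal.ofReal (la L (y c)) ≤
      ENNReal.ofReal (((L - 2) ^ 3 - (L - 4) ^ 3) / freeVol K L) *
        ∫⁻ y, WS L (Finset.univ : Finset (Fin K)) y := by
  have h := step hL hD (c := c) (S := Finset.univ.erase c) (Finset.notMem_erase _ _)
    (R := fun _ => 1) (H := fun y => ENNReal.ofReal (la L (y c))) measurable_const
    (measurable_la L c).ennreal_ofReal (fun _ _ => rfl)
    (M := ENNReal.ofReal ((L - 2) ^ 3 - (L - 4) ^ 3)) (fun y => by
      simp only [Function.update_self]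
      exact (lintegral_la hL).le)
  simp only [mul_one] at h
  rw [Finset.insert_erase (Finset.mem_univ c), ← ENNReal.ofReal_div_of_pos hD] at h
  exact h

theorem bound_shell {c c' : Fin K} (hcc : c' ≠ c) :
    ∫⁻ y, WS L (Finset.univ.erase c) y * ENNReal.ofReal (sh (y c) (y c')) ≤
      ENNReal.ofReal (16128 * Real.pi / freeVol K L) *
        ∫⁻ y, WS L (Finset.univ : Finset (Fin K)) y := by
  have h := step hL hD (c := c) (S := Finset.univ.erase c) (Finset.notMem_erase _ _)
    (R := fun _ => 1) (H := fun y => ENNReal.ofReal (sh (y c) (y c'))) measurable_const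
    (measurable_sh c c').ennreal_ofReal (fun _ _ => rfl)
    (M := ENNReal.ofReal (16128 * Real.pi)) (fun y => by
      simp only [Function.update_self, Function.update_of_ne hcc]
      exact (lintegral_sh _).le)
  simp only [mul_one] at h
  rw [Finset.insert_erase (Finset.mem_univ c), ← ENNReal.ofReal_div_of_pos hD] at h
  exact h

theorem bound_shell2 {c c' c'' : Fin K} (hc' : c' ≠ c) (hc'' : c'' ≠ c) (hne : c'' ≠ c') :
    ∫⁻ y, WS L (Finset.univ.erase c) y * (ENNReal.ofReal (sh (y c) (y c')) *
      ENNReal.ofReal (sh (y c) (y c''))) ≤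
      ENNReal.ofReal ((16128 * Real.pi / freeVol K L) ^ 2) *
        ∫⁻ y, WS L (Finset.univ : Finset (Fin K)) y := by
  have hmem : c' ∈ Finset.univ.erase c := Finset.mem_erase.2 ⟨hc', Finset.mem_univ _⟩
  have h := step hL hD (c := c') (S := (Finset.univ.erase c).erase c') (Finset.notMem_erase _ _)
    (R := fun y => ENNReal.ofReal (sh (y c) (y c'')))
    (H := fun y => ENNReal.ofReal (sh (y c) (y c')))
    (measurable_sh c c'').ennreal_ofReal
    (measurable_sh c c').ennreal_ofReal (fun y x => by
      simp only [Function.update_of_ne hc'.symm, Function.update_of_ne hne])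
    (M := ENNReal.ofReal (16128 * Real.pi)) (fun y => by
      simp only [Function.update_self, Function.update_of_ne hc'.symm]
      simp only [sh_symm (y c)]
      exact (lintegral_sh _).le)
  rw [Finset.insert_erase hmem, ← ENNReal.ofReal_div_of_pos hD] at h
  have h0 : ∫⁻ y, WS L (Finset.univ.erase c) y * (ENNReal.ofReal (sh (y c) (y c')) *
      ENNReal.ofReal (sh (y c) (y c''))) ≤
      ∫⁻ y, WS L ((Finset.univ.erase c).erase c') y * ENNReal.ofReal (sh (y c) (y c'')) *
        ENNReal.ofReal (sh (y c) (y c')) := by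
    refine lintegral_mono fun y => ?_
    have h1 := WS_mono L (Finset.notMem_erase c' (Finset.univ.erase c)) y
    rw [Finset.insert_erase hmem] at h1
    simp only []
    calc WS L (Finset.univ.erase c) y * (ENNReal.ofReal (sh (y c) (y c')) *
          ENNReal.ofReal (sh (y c) (y c''))) ≤
          WS L ((Finset.univ.erase c).erase c') y * (ENNReal.ofReal (sh (y c) (y c')) *
          ENNReal.ofReal (sh (y c) (y c''))) := by gcongr
      _ = _ := by ring
  refine h0.trans (h.trans ?_)
  have h2 := bound_shell hL hD hc''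
  calc ENNReal.ofReal (16128 * Real.pi / freeVol K L) *
        ∫⁻ y, WS L (Finset.univ.erase c) y * ENNReal.ofReal (sh (y c) (y c'')) ≤
        ENNReal.ofReal (16128 * Real.pi / freeVol K L) *
        (ENNReal.ofReal (16128 * Real.pi / freeVol K L) *
        ∫⁻ y, WS L (Finset.univ : Finset (Fin K)) y) := by gcongr
    _ = _ := by
        rw [pow_two, ENNReal.ofReal_mul (by positivity)]
        ring

/-- The constant in the Jastrow bound, per particle. -/
noncomputable def jconst (K : ℕ) (L : ℝ) : ℝ :=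
  2 * (((L - 2) ^ 3 - (L - 4) ^ 3) / freeVol K L) +
    (1 / 72) * (K * (16128 * Real.pi / freeVol K L) +
      K * (K * (16128 * Real.pi / freeVol K L) ^ 2))

theorem jconst_nonneg : 0 ≤ jconst K L := by
  unfold jconst
  have h1 : 0 ≤ (L - 2) ^ 3 - (L - 4) ^ 3 := by
    nlinarith [sq_nonneg (L - 3)]
  positivity

theorem bound_one (c : Fin K) :
    ∫⁻ y, ENNReal.ofReal (GS L (Finset.univ.erase c) y ^ 2 * ell L c y ^ 2) ≤
      ENNReal.ofReal (jconst K L) * ∫⁻ y, WS L (Finset.univ : Finset (Fin K)) y := by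
  set Z := ∫⁻ y, WS L (Finset.univ : Finset (Fin K)) y with hZ
  set s : ℝ := 16128 * Real.pi / freeVol K L with hs
  set l : ℝ := ((L - 2) ^ 3 - (L - 4) ^ 3) / freeVol K L with hl
  have hs0 : 0 ≤ s := by positivity
  have hl0 : 0 ≤ l := by
    have h1 : 0 ≤ (L - 2) ^ 3 - (L - 4) ^ 3 := by
      nlinarith [sq_nonneg (L - 3)]
    positivity
  set E : Finset (Fin K) := Finset.univ.erase c with hE
  have hEK : (E.card : ℝ) ≤ K := by
    have := Finset.card_le_univ E
    rw [Fintype.card_fin] at this
    exact_mod_cast this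
  have hpt : ∀ y, ENNReal.ofReal (GS L E y ^ 2 * ell L c y ^ 2) ≤
      ENNReal.ofReal 2 * (WS L E y * ENNReal.ofReal (la L (y c))) +
      (∑ c' ∈ E, ENNReal.ofReal (1 / 72) * (WS L E y * ENNReal.ofReal (sh (y c) (y c'))) +
      ∑ c' ∈ E, ∑ c'' ∈ E.erase c', ENNReal.ofReal (1 / 72) * (WS L E y *
        (ENNReal.ofReal (sh (y c) (y c')) * ENNReal.ofReal (sh (y c) (y c''))))) := by
    intro y
    have h1 := ell_sq_le L c y
    have h2 : GS L E y ^ 2 * ell L c y ^ 2 ≤
        2 * (GS L E y ^ 2 * la L (y c)) +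
      (∑ c' ∈ E, (1 / 72) * (GS L E y ^ 2 * sh (y c) (y c')) +
      ∑ c' ∈ E, ∑ c'' ∈ E.erase c', (1 / 72) * (GS L E y ^ 2 *
        (sh (y c) (y c') * sh (y c) (y c'')))) := by
      refine (mul_le_mul_of_nonneg_left h1 (by positivity)).trans (le_of_eq ?_)
      rw [← hE]
      simp only [← Finset.mul_sum]
      ring
    refine (ENNReal.ofReal_le_ofReal h2).trans (le_of_eq ?_)
    have hla := la_nonneg L (y c)
    have hshn : ∀ c', 0 ≤ sh (y c) (y c') := fun c' => sh_nonneg _ _
    have hGn : 0 ≤ GS L E y ^ 2 := by positivity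
    rw [ENNReal.ofReal_add (by positivity) (add_nonneg
      (Finset.sum_nonneg fun c' _ => by have := hshn c'; positivity)
      (Finset.sum_nonneg fun c' _ => Finset.sum_nonneg fun c'' _ => by
        have := hshn c'; have := hshn c''; positivity)),
      ENNReal.ofReal_add (Finset.sum_nonneg fun c' _ => by have := hshn c'; positivity)
      (Finset.sum_nonneg fun c' _ => Finset.sum_nonneg fun c'' _ => by
        have := hshn c'; have := hshn c''; positivity),
      ENNReal.ofReal_sum_of_nonneg (fun c' _ => by have := hshn c'; positivity),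
      ENNReal.ofReal_sum_of_nonneg (fun c' _ => Finset.sum_nonneg fun c'' _ => by
        have := hshn c'; have := hshn c''; positivity)]
    congr 1
    · rw [ENNReal.ofReal_mul (by norm_num), ENNReal.ofReal_mul (by positivity)]
      rfl
    congr 1
    · refine Finset.sum_congr rfl fun c' _ => ?_
      rw [ENNReal.ofReal_mul (by norm_num), ENNReal.ofReal_mul (by positivity)]
      rfl
    · refine Finset.sum_congr rfl fun c' _ => ?_
      rw [ENNReal.ofReal_sum_of_nonneg (fun c'' _ => by
        have := hshn c'; have := hshn c''; positivity)]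
      refine Finset.sum_congr rfl fun c'' _ => ?_
      rw [ENNReal.ofReal_mul (by norm_num), ENNReal.ofReal_mul (by positivity),
        ENNReal.ofReal_mul (hshn c')]
      rfl
  have hmW := measurable_WS L E
  have hmla := (measurable_la L c).ennreal_ofReal
  have hmsh := fun c' => (measurable_sh c c').ennreal_ofReal
  have hm1 : Measurable (fun y => WS L E y * ENNReal.ofReal (la L (y c))) := hmW.mul hmla
  have hm2 : ∀ c', Measurable (fun y => WS L E y * ENNReal.ofReal (sh (y c) (y c'))) :=
    fun c' => hmW.mul (hmsh c')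
  have hm3 : ∀ c' c'', Measurable (fun y => WS L E y * (ENNReal.ofReal (sh (y c) (y c')) *
      ENNReal.ofReal (sh (y c) (y c'')))) := fun c' c'' => hmW.mul ((hmsh c').mul (hmsh c''))
  refine (lintegral_mono hpt).trans ?_
  rw [lintegral_add_left (hm1.const_mul _), lintegral_add_left
    (Finset.measurable_fun_sum _ fun c' _ => (hm2 c').const_mul _),
    lintegral_finset_sum _ (fun c' _ => (hm2 c').const_mul _),
    lintegral_finset_sum _ (fun c' _ => Finset.measurable_fun_sum _ fun c'' _ =>
      (hm3 c' c'').const_mul _)]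
  have hA : ∫⁻ y, ENNReal.ofReal 2 * (WS L E y * ENNReal.ofReal (la L (y c))) ≤
      ENNReal.ofReal (2 * l) * Z := by
    rw [lintegral_const_mul _ hm1, ENNReal.ofReal_mul (by norm_num), mul_assoc]
    have := bound_layer hL hD c
    gcongr
  have hB : ∑ c' ∈ E, ∫⁻ y, ENNReal.ofReal (1 / 72) * (WS L E y *
      ENNReal.ofReal (sh (y c) (y c'))) ≤ ENNReal.ofReal ((1 / 72) * (K * s)) * Z := by
    have h1 : ∀ c' ∈ E, ∫⁻ y, ENNReal.ofReal (1 / 72) * (WS L E y *
      ENNReal.ofReal (sh (y c) (y c'))) ≤ ENNReal.ofReal ((1 / 72) * s) * Z := by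
      intro c' hc'
      rw [lintegral_const_mul _ (hm2 c'), ENNReal.ofReal_mul (by norm_num), mul_assoc]
      have := bound_shell hL hD (Finset.mem_erase.1 hc').1
      gcongr
    refine (Finset.sum_le_sum h1).trans ?_
    rw [Finset.sum_const, nsmul_eq_mul, ← mul_assoc, ← ENNReal.ofReal_natCast,
      ← ENNReal.ofReal_mul (by positivity)]
    refine mul_le_mul' (ENNReal.ofReal_le_ofReal ?_) le_rfl
    nlinarith
  have hC : ∑ c' ∈ E, ∫⁻ y, ∑ c'' ∈ E.erase c', ENNReal.ofReal (1 / 72) * (WS L E y *
        (ENNReal.ofReal (sh (y c) (y c')) * ENNReal.ofReal (sh (y c) (y c'')))) ≤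
        ENNReal.ofReal ((1 / 72) * (K * (K * s ^ 2))) * Z := by
    have h1 : ∀ c' ∈ E, ∫⁻ y, ∑ c'' ∈ E.erase c', ENNReal.ofReal (1 / 72) * (WS L E y *
        (ENNReal.ofReal (sh (y c) (y c')) * ENNReal.ofReal (sh (y c) (y c'')))) ≤
        ENNReal.ofReal ((1 / 72) * (K * s ^ 2)) * Z := by
      intro c' hc'
      rw [lintegral_finset_sum _ (fun c'' _ => (hm3 c' c'').const_mul _)]
      have h2 : ∀ c'' ∈ E.erase c', ∫⁻ y, ENNReal.ofReal (1 / 72) * (WS L E y *
        (ENNReal.ofReal (sh (y c) (y c')) * ENNReal.ofReal (sh (y c) (y c'')))) ≤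
        ENNReal.ofReal ((1 / 72) * s ^ 2) * Z := by
        intro c'' hc''
        rw [lintegral_const_mul _ (hm3 c' c''),
          ENNReal.ofReal_mul (by norm_num), mul_assoc]
        have h3 := Finset.mem_erase.1 hc''
        have := bound_shell2 hL hD (Finset.mem_erase.1 hc').1 (Finset.mem_erase.1 h3.2).1 h3.1
        gcongr
      refine (Finset.sum_le_sum h2).trans ?_
      rw [Finset.sum_const, nsmul_eq_mul, ← mul_assoc, ← ENNReal.ofReal_natCast,
        ← ENNReal.ofReal_mul (by positivity)]
      have h4 : (((E.erase c').card : ℕ) : ℝ) ≤ K := by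
        refine le_trans ?_ hEK
        exact_mod_cast Finset.card_le_card (Finset.erase_subset _ _)
      refine mul_le_mul' (ENNReal.ofReal_le_ofReal ?_) le_rfl
      nlinarith [sq_nonneg s]
    refine (Finset.sum_le_sum h1).trans ?_
    rw [Finset.sum_const, nsmul_eq_mul, ← mul_assoc, ← ENNReal.ofReal_natCast,
      ← ENNReal.ofReal_mul (by positivity)]
    refine mul_le_mul' (ENNReal.ofReal_le_ofReal ?_) le_rfl
    have h5 : (0 : ℝ) ≤ K * s ^ 2 := by positivity
    nlinarith
  refine (add_le_add hA (add_le_add hB hC)).trans (le_of_eq ?_)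
  rw [← add_mul, ← add_mul, ← ENNReal.ofReal_add (by positivity) (by positivity),
    ← ENNReal.ofReal_add (by positivity) (by positivity)]
  congr 2
  unfold jconst
  rw [← hs, ← hl]
  ring

/-- The kinetic energy of the Jastrow function. -/
theorem jastrow_bound :
    ∫ y, kinOn Finset.univ (GS L (Finset.univ : Finset (Fin K))) y ≤
      (K * jconst K L) * ∫ y, GS L (Finset.univ : Finset (Fin K)) y ^ 2 := by
  obtain ⟨C, hC⟩ := GS_lipschitz L (Finset.univ : Finset (Fin K))
  have hcomp := GS_compact (K := K) L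
  have hj := jconst_nonneg hL hD
  have hint2 : Integrable (fun y => GS L (Finset.univ : Finset (Fin K)) y ^ 2) := by
    have := integrable_norm_sq (ν := (volume : Measure (Fin K → Space))) hC.continuous hcomp
    simpa [Real.norm_eq_abs, sq_abs] using this
  have hone : ∀ c : Fin K, ∫ y, ∑ k, ‖lineDeriv ℝ (GS L Finset.univ) y (dirG c k)‖ ^ 2 ≤
      jconst K L * ∫ y, GS L (Finset.univ : Finset (Fin K)) y ^ 2 := by
    intro c
    have hint1 : Integrable (fun y => ∑ k, ‖lineDeriv ℝ (GS L Finset.univ) y (dirG c k)‖ ^ 2) :=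
      integrable_finsetSum _ fun k _ => integrable_lineDeriv_sq hC hcomp _
    rw [← ENNReal.ofReal_le_ofReal_iff (mul_nonneg hj (integral_nonneg fun y => by positivity)),
      ENNReal.ofReal_mul hj, ofReal_integral_eq_lintegral_ofReal hint1
        (Eventually.of_forall fun y => Finset.sum_nonneg fun k _ => by positivity),
      ofReal_integral_eq_lintegral_ofReal hint2 (Eventually.of_forall fun y => by positivity)]
    refine le_trans (lintegral_mono_ae ?_) (bound_one hL hD c)
    filter_upwards [grad_GS_le L c] with y hy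
    exact ENNReal.ofReal_le_ofReal hy
  have hsum : ∫ y, kinOn Finset.univ (GS L (Finset.univ : Finset (Fin K))) y =
      ∑ c : Fin K, ∫ y, ∑ k, ‖lineDeriv ℝ (GS L Finset.univ) y (dirG c k)‖ ^ 2 := by
    unfold kinOn
    exact integral_finsetSum _ fun c _ => integrable_finsetSum _ fun k _ =>
      integrable_lineDeriv_sq hC hcomp _
  rw [hsum]
  refine (Finset.sum_le_sum fun c _ => hone c).trans (le_of_eq ?_)
  rw [Finset.sum_const, Finset.card_univ, Fintype.card_fin, nsmul_eq_mul]
  ring

end

end Pool.Agent.helper84.Bose
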