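import Pool.Agent.helper84.BoseCrit

/-!
# The lower bound `H_N ≥ 0`
-/

open MeasureTheory Set Filter Topology
open scoped NNReal ENNReal

namespace Pool.Agent.helper84.Bose

section Fubini

variable {ι : Type*} [Fintype ι] [DecidableEq ι]

/-- Gluing configurations of the particles in `C` and outside `C`. -/
noncomputable def glue (C : Finset ι) :
    (({i // i ∈ C} → Space) × ({i // i ∉ C} → Space)) ≃ᵐ (ι → Space) :=
  (MeasurableEquiv.piEquivPiSubtypeProd (fun _ : ι => Space) (fun i => i ∈ C)).symm

theorem glue_in (C : Finset ι) (x : {i // i ∈ C} → Space) (y : {i // i ∉ C} → Space) {i : ι}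
    (hi : i ∈ C) : glue C (x, y) i = x ⟨i, hi⟩ := by
  change (Equiv.piEquivPiSubtypeProd (fun i => i ∈ C) (fun _ : ι => Space)).symm (x, y) i = _
  rw [Equiv.piEquivPiSubtypeProd_symm_apply]
  simp [hi]

theorem glue_out (C : Finset ι) (x : {i // i ∈ C} → Space) (y : {i // i ∉ C} → Space) {i : ι}
    (hi : i ∉ C) : glue C (x, y) i = y ⟨i, hi⟩ := by
  change (Equiv.piEquivPiSubtypeProd (fun i => i ∈ C) (fun _ : ι => Space)).symm (x, y) i = _
  rw [Equiv.piEquivPiSubtypeProd_symm_apply]
  simp [hi]

theorem volume_fintype_congr {κ : Type*} (I₁ I₂ : Fintype κ) :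
    (@volume (κ → Space) (@MeasureSpace.pi κ I₁ (fun _ => Space) _) : Measure (κ → Space)) =
      @volume (κ → Space) (@MeasureSpace.pi κ I₂ (fun _ => Space) _) := by
  have h : I₁ = I₂ := Subsingleton.elim _ _
  subst h
  rfl

theorem glue_measurePreserving (C : Finset ι) :
    MeasurePreserving (glue C) (volume.prod volume) (volume : Measure (ι → Space)) := by
  have h := (volume_preserving_piEquivPiSubtypeProd (fun _ : ι => Space) (fun i => i ∈ C)).symm
  have h2 := h.map_eq
  rw [Measure.volume_eq_prod] at h2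
  refine ⟨(glue C).measurable, ?_⟩
  have e := volume_fintype_congr (κ := {i // i ∈ C}) inferInstance
    (Subtype.fintype fun i => i ∈ C)
  rw [e]
  exact h2

theorem glue_lipschitz (C : Finset ι) (y : {i // i ∉ C} → Space) :
    LipschitzWith 1 (fun x : {i // i ∈ C} → Space => glue C (x, y)) := by
  refine LipschitzWith.of_dist_le_mul fun X Y => ?_
  rw [NNReal.coe_one, one_mul, dist_pi_le_iff dist_nonneg]
  intro i
  by_cases hi : i ∈ C
  · rw [glue_in C X y hi, glue_in C Y y hi]
    exact dist_le_pi_dist X Y ⟨i, hi⟩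
  · rw [glue_out C X y hi, glue_out C Y y hi, dist_self]
    exact dist_nonneg

theorem glue_add_smul (C : Finset ι) (x : {i // i ∈ C} → Space) (y : {i // i ∉ C} → Space)
    (t : ℝ) (i : {i // i ∈ C}) (k : Fin 3) :
    glue C (x + t • dirG i k, y) = glue C (x, y) + t • dirG (i : ι) k := by
  ext j l
  by_cases hj : j ∈ C
  · rw [Pi.add_apply, glue_in C _ y hj, glue_in C _ y hj]
    simp only [Pi.add_apply, Pi.smul_apply, dirG]
    by_cases h : (⟨j, hj⟩ : {i // i ∈ C}) = i
    · subst h
      simp
    · have h' : j ≠ (i : ι) := fun h2 => h (Subtype.ext h2)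
      rw [Pi.single_eq_of_ne h, Pi.single_eq_of_ne h']
  · rw [Pi.add_apply, glue_out C _ y hj, glue_out C _ y hj]
    have h' : j ≠ (i : ι) := fun h2 => hj (h2 ▸ i.2)
    simp only [Pi.smul_apply, dirG]
    rw [Pi.single_eq_of_ne h']
    simp

/-- The kinetic energy of the particles in a clique dominates the attraction. -/
theorem lower_clique {μ : ℝ} (hμ : 0 < μ) (C : Finset ι) {F : (ι → Space) → ℂ} {K : ℝ≥0}
    (hF : LipschitzWith K F) (hc : HasCompactSupport F)
    (hs : ∀ X, F X ≠ 0 → IsClique X C) :
    lamc μ * ((C.card : ℝ) * ((C.card : ℝ) - 1) / 2) * ∫ X, ‖F X‖ ^ 2 ≤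
      μ * ∫ X, kinOn C F X := by
  have hadm : ∀ y : {i // i ∉ C} → Space, Adm (fun x => F (glue C (x, y))) := by
    intro y
    refine ⟨⟨K * 1, hF.comp (glue_lipschitz C y)⟩, ?_, ?_⟩
    · have hcont : Continuous (fun (X : ι → Space) (i : {i // i ∈ C}) => X i.1) := by fun_prop
      refine HasCompactSupport.of_support_subset_isCompact (hc.isCompact.image hcont) ?_
      intro x hx
      refine ⟨glue C (x, y), subset_tsupport _ hx, ?_⟩
      funext i
      exact glue_in C x y i.2
    · intro x hx i j hij
      have h := (hs _ hx).1 i.1 i.2 j.1 j.2 (fun h => hij (Subtype.ext h))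
      rwa [glue_in C x y i.2, glue_in C x y j.2] at h
  have hkin : ∀ (y : {i // i ∉ C} → Space) (x : {i // i ∈ C} → Space),
      kinOn Finset.univ (fun x => F (glue C (x, y))) x = kinOn C F (glue C (x, y)) := by
    intro y x
    unfold kinOn
    have h1 : ∀ i : {i // i ∈ C}, ∑ k, ‖lineDeriv ℝ (fun x => F (glue C (x, y))) x
        (dirG i k)‖ ^ 2 = (fun i : ι => ∑ k, ‖lineDeriv ℝ F (glue C (x, y)) (dirG i k)‖ ^ 2) i.1 := by
      intro i
      refine Finset.sum_congr rfl fun k _ => ?_
      rw [lineDeriv_comp_linear (fun x => glue C (x, y)) F x (dirG i k) (dirG i.1 k)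
        (fun t => glue_add_smul C x y t i k)]
    rw [Finset.sum_congr rfl fun i _ => h1 i]
    exact Finset.sum_coe_sort C
      (fun i : ι => ∑ k, ‖lineDeriv ℝ F (glue C (x, y)) (dirG i k)‖ ^ 2)
  have hI1 : Integrable (fun X => ‖F X‖ ^ 2) := integrable_norm_sq hF.continuous hc
  have hI2 : Integrable (kinOn C F) := integrable_kinOn C hF hc
  have hmp := glue_measurePreserving C
  have hI1' : Integrable (fun z => ‖F (glue C z)‖ ^ 2) (volume.prod volume) :=
    hmp.integrable_comp_emb (glue C).measurableEmbedding |>.2 hI1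
  have hI2' : Integrable (fun z => kinOn C F (glue C z)) (volume.prod volume) :=
    hmp.integrable_comp_emb (glue C).measurableEmbedding |>.2 hI2
  rw [← hmp.integral_comp' (fun X => ‖F X‖ ^ 2), ← hmp.integral_comp' (kinOn C F),
    integral_prod_symm _ hI1', integral_prod_symm _ hI2', ← integral_const_mul,
    ← integral_const_mul]
  refine integral_mono (hI1'.integral_prod_right.const_mul _)
    (hI2'.integral_prod_right.const_mul _) fun y => ?_
  have h := crit_gen hμ (hadm y)
  simp only [hkin y] at h
  rw [Fintype.card_coe] at h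
  exact h

end Fubini

section Assemble

open Classical in
/-- `H_N ≥ 0`. -/
theorem noBoundStates {μ : ℝ} (hμ : 0 < μ) (N : ℕ) : NoBoundStates μ (vpot (lamc μ)) N := by
  intro Ψ hΨ
  obtain ⟨⟨K, hK⟩, hc, hint⟩ := hΨ
  have hl : 0 ≤ lamc μ := lamc_nonneg hμ
  rw [integrableOn_univ] at hint
  have hint2 : Integrable (fun X => pot2 (vpot (lamc μ)) X * ‖Ψ X‖ ^ 2) := by
    refine (hint.const_mul 2).congr (Eventually.of_forall fun X => ?_)
    simp only []
    rw [pot2_eq_potential]
    ring
  have hz : WallZero Ψ := by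
    intro X i j hij h
    rcases h with h | h | h
    · exact eq_zero_of_wall hl hK.continuous hc hint2 (isWall_half hl) hij h
    · exact eq_zero_of_wall hl hK.continuous hc hint2 (isWall_one hl) hij h
    · exact eq_zero_of_wall hl hK.continuous hc hint2 (isWall_ten hl) hij h
  unfold energy
  rw [setIntegral_univ, gradSq_eq]
  -- lower bound for each clique
  have hC : ∀ C : Finset (Fin N), 0 ≤ ∫ X, (μ * kinOn C (cut C Ψ) X -
      lamc μ * ((C.card : ℝ) * ((C.card : ℝ) - 1) / 2) * ‖cut C Ψ X‖ ^ 2) := by
    intro C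
    have h1 := lower_clique hμ C (cut_lipschitz hK hz C) (cut_compact hc C) (fun X hX => by
      by_contra h
      exact hX (by rw [cut, if_neg h]))
    rw [integral_sub, integral_const_mul, integral_const_mul]
    · linarith
    · exact (integrable_kinOn C (cut_lipschitz hK hz C) (cut_compact hc C)).const_mul _
    · exact (integrable_norm_sq (cut_lipschitz hK hz C).continuous (cut_compact hc C)).const_mul _
  have hsum : 0 ≤ ∑ C ∈ (Finset.univ : Finset (Fin N)).powerset, ∫ X,
      (μ * kinOn C (cut C Ψ) X -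
      lamc μ * ((C.card : ℝ) * ((C.card : ℝ) - 1) / 2) * ‖cut C Ψ X‖ ^ 2) :=
    Finset.sum_nonneg fun C _ => hC C
  rw [← integral_finsetSum] at hsum
  · refine hsum.trans (integral_mono_ae ?_ ?_ ?_)
    · refine integrable_finsetSum _ fun C _ => Integrable.sub ?_ ?_
      · exact (integrable_kinOn C (cut_lipschitz hK hz C) (cut_compact hc C)).const_mul _
      · exact (integrable_norm_sq (cut_lipschitz hK hz C).continuous (cut_compact hc C)).const_mul _
    · exact ((integrable_kinOn _ hK hc).const_mul _).add hint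
    -- the pointwise bound
    have hdiff : ∀ᵐ X : Fin N → Space, ∀ (i : Fin N) (k : Fin 3),
        LineDifferentiableAt ℝ Ψ X (dirG i k) := by
      rw [ae_all_iff]
      intro i
      rw [ae_all_iff]
      intro k
      exact ae_lineDiff hK _
    filter_upwards [hdiff] with X hX
    -- kinetic part
    have hkin1 : ∀ C : Finset (Fin N), kinOn C (cut C Ψ) X ≤
        if IsClique X C then kinOn C Ψ X else 0 := by
      intro C
      have h1 : ∀ i k, ‖lineDeriv ℝ (cut C Ψ) X (dirG i k)‖ ^ 2 ≤
          if IsClique X C then ‖lineDeriv ℝ Ψ X (dirG i k)‖ ^ 2 else 0 := by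
        intro i k
        have h2 := cut_lineDeriv_le hK hz C X (dirG i k) (hX i k)
        split_ifs at h2 ⊢ with h3
        · exact pow_le_pow_left₀ (norm_nonneg _) h2 2
        · have : ‖lineDeriv ℝ (cut C Ψ) X (dirG i k)‖ = 0 := le_antisymm h2 (norm_nonneg _)
          rw [this]; norm_num
      unfold kinOn
      refine (Finset.sum_le_sum fun i _ => Finset.sum_le_sum fun k _ => h1 i k).trans ?_
      split_ifs
      · exact le_rfl
      · simp
    have hkin2 : ∑ C ∈ (Finset.univ : Finset (Fin N)).powerset,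
        (if IsClique X C then kinOn C Ψ X else 0) ≤ kinOn Finset.univ Ψ X := by
      rw [← Finset.sum_filter]
      unfold kinOn
      have hdisj : ((((Finset.univ : Finset (Fin N)).powerset.filter
          (fun C => IsClique X C)) : Set (Finset (Fin N)))).PairwiseDisjoint id := by
        intro C hC C' hC' hne
        rw [Finset.mem_coe, Finset.mem_filter] at hC hC'
        rw [Function.onFun, id, id, Finset.disjoint_left]
        intro i hi hi'
        exact hne (hC.2.eq hC'.2 hi hi')
      have h3 := Finset.sum_biUnion (f := fun i : Fin N =>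
        ∑ k, ‖lineDeriv ℝ Ψ X (dirG i k)‖ ^ 2) hdisj
      simp only [id] at h3
      rw [← h3]
      exact Finset.sum_le_sum_of_subset_of_nonneg (Finset.subset_univ _)
        fun _ _ _ => by positivity
    -- potential part
    have hpot := pot2_ge hl X
    rw [pot2_eq_potential] at hpot
    have hcut : ∀ C : Finset (Fin N), ‖cut C Ψ X‖ ^ 2 =
        if IsClique X C then ‖Ψ X‖ ^ 2 else 0 := by
      intro C
      unfold cut
      split_ifs
      · rfl
      · simp
    have hpot2 : ∑ C ∈ (Finset.univ : Finset (Fin N)).powerset,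
        lamc μ * ((C.card : ℝ) * ((C.card : ℝ) - 1) / 2) * ‖cut C Ψ X‖ ^ 2 =
        (lamc μ * ∑ C ∈ (Finset.univ : Finset (Fin N)).powerset.filter (IsClique X),
          ((C.card : ℝ) * ((C.card : ℝ) - 1))) / 2 * ‖Ψ X‖ ^ 2 := by
      rw [Finset.mul_sum, Finset.sum_div, Finset.sum_mul, Finset.sum_filter]
      refine Finset.sum_congr rfl fun C _ => ?_
      rw [hcut C]
      split_ifs
      · ring
      · ring
    rw [Finset.sum_sub_distrib, hpot2, ← Finset.mul_sum]
    have h5 : ∑ C ∈ (Finset.univ : Finset (Fin N)).powerset, kinOn C (cut C Ψ) X ≤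
        kinOn Finset.univ Ψ X :=
      (Finset.sum_le_sum fun C _ => hkin1 C).trans hkin2
    have h6 := mul_le_mul_of_nonneg_left h5 hμ.le
    have h7 : -(lamc μ * ∑ C ∈ (Finset.univ : Finset (Fin N)).powerset.filter (IsClique X),
          ((C.card : ℝ) * ((C.card : ℝ) - 1))) / 2 * ‖Ψ X‖ ^ 2 ≤
        potential (vpot (lamc μ)) X * ‖Ψ X‖ ^ 2 :=
      mul_le_mul_of_nonneg_right (by linarith) (by positivity)
    linarith
  · intro C _
    refine Integrable.sub ?_ ?_
    · exact (integrable_kinOn C (cut_lipschitz hK hz C) (cut_compact hc C)).const_mul _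
    · exact (integrable_norm_sq (cut_lipschitz hK hz C).continuous (cut_compact hc C)).const_mul _

end Assemble

end Pool.Agent.helper84.Bose
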