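import Pool.Agent.helper84.BoseNear

/-!
# The critical depth is positive
-/

open MeasureTheory Set Filter Topology
open scoped NNReal ENNReal

namespace Pool.Agent.helper84.Bose

theorem poincare {n : ℕ} (i j : Fin n) (hij : i ≠ j) {φ : (Fin n → Space) → ℝ} {C : ℝ≥0}
    (hC : LipschitzWith C φ) (hc : HasCompactSupport φ)
    (h01 : ∀ x, 0 ≤ φ x ∧ φ x ≤ 1) (hs : ∀ x, φ x ≠ 0 → ‖x i - x j‖ ≤ 1) :
    ∫ x, φ x ^ 2 ≤ 4 * ∫ x, kinOn Finset.univ φ x := by
  set w : Fin n → Space := dirG i 0 with hw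
  set q : (Fin n → Space) → ℝ := fun x => x i 0 - x j 0 with hq
  have hqlip : LipschitzWith 2 q := by
    refine LipschitzWith.of_dist_le_mul fun x y => ?_
    rw [Real.dist_eq, hq]
    simp only []
    have e : x i 0 - x j 0 - (y i 0 - y j 0) = (x i - y i) 0 - (x j - y j) 0 := by
      rw [PiLp.sub_apply, PiLp.sub_apply]; ring
    rw [e]
    have h1 : |(x i - y i) 0| ≤ dist x y := (abs_coord_le _ 0).trans (by
      rw [← dist_eq_norm]; exact dist_le_pi_dist x y i)
    have h2 : |(x j - y j) 0| ≤ dist x y := (abs_coord_le _ 0).trans (by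
      rw [← dist_eq_norm]; exact dist_le_pi_dist x y j)
    have h3 := abs_sub ((x i - y i) 0) ((x j - y j) 0)
    have h4 : ((2 : ℝ≥0) : ℝ) = 2 := rfl
    rw [h4]
    linarith
  have hqd : ∀ x, lineDeriv ℝ q x w = 1 := by
    intro x
    unfold lineDeriv
    have h1 : (fun t : ℝ => q (x + t • w)) = fun t => t + q x := by
      ext t
      simp only [hq, hw, dirG, Pi.add_apply, Pi.smul_apply, PiLp.add_apply, PiLp.smul_apply,
        Pi.single_eq_same, Pi.single_eq_of_ne hij.symm]
      simp
      ring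
    rw [h1]
    simp
  set g : (Fin n → Space) → ℝ := fun x => φ x ^ 2 with hg
  have hglip : LipschitzWith (2 * C) g := by
    refine LipschitzWith.of_dist_le_mul fun x y => ?_
    rw [Real.dist_eq, hg]
    simp only []
    have e : φ x ^ 2 - φ y ^ 2 = (φ x + φ y) * (φ x - φ y) := by ring
    rw [e, abs_mul, abs_of_nonneg (add_nonneg (h01 x).1 (h01 y).1)]
    have h1 : |φ x - φ y| ≤ C * dist x y := by rw [← Real.dist_eq]; exact hC.dist_le_mul x y
    have h2 : φ x + φ y ≤ 2 := by linarith [(h01 x).2, (h01 y).2]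
    have h3 : ((2 * C : ℝ≥0) : ℝ) = 2 * C := by push_cast; rfl
    rw [h3, mul_assoc]
    exact mul_le_mul h2 h1 (abs_nonneg _) (by norm_num)
  have hgc : HasCompactSupport g := by
    refine hc.mono fun x hx => ?_
    intro h
    exact hx (by simp [hg, h])
  have hparts := hqlip.integral_lineDeriv_mul_eq (μ := (volume : Measure (Fin n → Space)))
    hglip hgc w
  have h1 : ∫ x, lineDeriv ℝ q x w * g x = ∫ x, φ x ^ 2 := by
    simp only [hqd, one_mul, hg]
  rw [h1] at hparts
  have hder : ∀ᵐ x : Fin n → Space, lineDeriv ℝ g x (-w) * q x =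
      -(2 * (φ x * lineDeriv ℝ φ x w) * q x) := by
    filter_upwards [ae_lineDiff (ν := (volume : Measure (Fin n → Space))) hC w] with x hx
    have h2 : HasDerivAt (fun t : ℝ => φ (x + t • w)) (lineDeriv ℝ φ x w) 0 := hx.hasLineDerivAt
    have h3 : lineDeriv ℝ g x w = 2 * (φ x * lineDeriv ℝ φ x w) := by
      have h4 := h2.mul h2
      have h5 : HasLineDerivAt ℝ g (2 * (φ x * lineDeriv ℝ φ x w)) x w := by
        unfold HasLineDerivAt
        have e : (fun t : ℝ => g (x + t • w)) =
            (fun t : ℝ => φ (x + t • w)) * fun t : ℝ => φ (x + t • w) := by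
          ext t
          simp only [hg, Pi.mul_apply, pow_two]
        rw [e]
        refine h4.congr_deriv ?_
        rw [zero_smul, add_zero]
        ring
      exact h5.lineDeriv
    rw [lineDeriv_neg, h3]
    ring
  rw [integral_congr_ae hder] at hparts
  have iφ : Integrable (fun x => φ x ^ 2) := by
    simpa [Real.norm_eq_abs, sq_abs] using
      integrable_norm_sq (ν := (volume : Measure (Fin n → Space))) hC.continuous hc
  have id : Integrable (fun x => ‖lineDeriv ℝ φ x w‖ ^ 2) := integrable_lineDeriv_sq hC hc w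
  have hbound : ∫ x, φ x ^ 2 ≤ ∫ x, ((1 / 2) * φ x ^ 2 + 2 * ‖lineDeriv ℝ φ x w‖ ^ 2) := by
    refine le_trans (le_of_eq hparts) ?_
    by_cases hI : Integrable (fun x => -(2 * (φ x * lineDeriv ℝ φ x w) * q x))
    · refine integral_mono hI ((iφ.const_mul _).add (id.const_mul _)) fun x => ?_
      simp only []
      rw [Real.norm_eq_abs, sq_abs]
      by_cases h0 : φ x = 0
      · rw [h0]
        simp
        positivity
      · have h2 : |q x| ≤ 1 := by
          have := (abs_coord_le (x i - x j) 0).trans (hs x h0)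
          rwa [PiLp.sub_apply] at this
        have h3 : -(2 * (φ x * lineDeriv ℝ φ x w) * q x) ≤ 2 * |φ x * lineDeriv ℝ φ x w| := by
          have h4 : -(2 * (φ x * lineDeriv ℝ φ x w) * q x) ≤
              |(2 * (φ x * lineDeriv ℝ φ x w)) * q x| := neg_le_abs _
          rw [abs_mul, abs_mul, abs_of_pos (by norm_num : (0:ℝ) < 2)] at h4
          have h5 : 0 ≤ 2 * |φ x * lineDeriv ℝ φ x w| := by positivity
          have h6 := mul_le_mul_of_nonneg_left h2 h5
          linarith
        refine h3.trans ?_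
        rw [abs_mul]
        nlinarith [sq_nonneg (|φ x| - 2 * |lineDeriv ℝ φ x w|), sq_abs (φ x),
          sq_abs (lineDeriv ℝ φ x w)]
    · rw [integral_undef hI]
      exact integral_nonneg fun x => by positivity
  rw [integral_add (iφ.const_mul _) (id.const_mul _), integral_const_mul,
    integral_const_mul] at hbound
  have hk : ∫ x, ‖lineDeriv ℝ φ x w‖ ^ 2 ≤ ∫ x, kinOn Finset.univ φ x := by
    refine integral_mono id (integrable_kinOn _ hC hc) fun x => ?_
    unfold kinOn
    have h2 : ‖lineDeriv ℝ φ x (dirG i 0)‖ ^ 2 ≤ ∑ k, ‖lineDeriv ℝ φ x (dirG i k)‖ ^ 2 :=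
      Finset.single_le_sum (f := fun k => ‖lineDeriv ℝ φ x (dirG i k)‖ ^ 2)
        (fun k _ => by positivity) (Finset.mem_univ 0)
    exact h2.trans (Finset.single_le_sum
      (f := fun i => ∑ k, ‖lineDeriv ℝ φ x (dirG i k)‖ ^ 2)
      (fun i _ => Finset.sum_nonneg fun k _ => by positivity) (Finset.mem_univ i))
  linarith

theorem lamc_pos {μ : ℝ} (hμ : 0 < μ) : 0 < lamc μ := by
  have key : ∀ ε > 0, μ / 2000000 ≤ lamc μ + ε := by
    intro ε hε
    obtain ⟨n, hn2, hn729, φ, ⟨C, hC⟩, hc, h01, hs, hpos, hk⟩ := exists_near_of_lt hμ hε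
    have hij : (⟨0, by omega⟩ : Fin n) ≠ ⟨1, by omega⟩ := by
      intro h
      have := congrArg Fin.val h
      simp at this
    have hp := poincare _ _ hij hC hc h01 fun x hx => (hs x hx _ _ hij).2
    have hn' : (2 : ℝ) ≤ n := by exact_mod_cast hn2
    have hn'' : (n : ℝ) ≤ 729 := by exact_mod_cast hn729
    have hq : ((n : ℝ) * ((n : ℝ) - 1) / 2) ≤ 300000 := by nlinarith
    have hq0 : 0 < ((n : ℝ) * ((n : ℝ) - 1) / 2) := by nlinarith
    have hl := lamc_nonneg hμ
    set Z := ∫ x, φ x ^ 2 with hZ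
    set T := ∫ x, kinOn Finset.univ φ x with hT
    have h1 : μ * (Z / 4) ≤ (lamc μ + ε) * 300000 * Z := by
      calc μ * (Z / 4) ≤ μ * T := by
            refine mul_le_mul_of_nonneg_left ?_ hμ.le
            linarith
        _ ≤ (lamc μ + ε) * ((n : ℝ) * ((n : ℝ) - 1) / 2) * Z := hk
        _ ≤ (lamc μ + ε) * 300000 * Z := by gcongr
    have h2 : (μ / 4) * Z ≤ ((lamc μ + ε) * 300000) * Z := by linarith
    have h3 := le_of_mul_le_mul_right h2 hpos
    linarith
  by_contra hcon
  rw [not_lt] at hcon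
  have h1 := key (μ / 4000000) (by positivity)
  linarith

end Pool.Agent.helper84.Bose
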