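import Pool.Agent.helper84.BosePot

/-!
# The scattering length of the potential is 10
-/

open MeasureTheory Set Filter Topology
open scoped NNReal ENNReal

namespace Pool.Agent.helper84.Bose

/-- Functions of finite potential energy vanish at `10`. -/
theorem eq_zero_at_ten {lam : ℝ} (hl : 0 ≤ lam) {f : ℝ → ℝ} (hf : ContinuousAt f 10)
    (hint : IntegrableOn (fun s => vpot lam s * f s ^ 2) (Ioc 0 11)) : f 10 = 0 := by
  by_contra hne
  set c : ℝ := |f 10| / 2 with hcdef
  have habs : 0 < |f 10| := abs_pos.2 hne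
  have hc0 : 0 < c := by positivity
  obtain ⟨δ, hδ, hball⟩ : ∃ δ > 0, ∀ s ∈ Metric.ball (10 : ℝ) δ, c ≤ |f s| := by
    have hcont : ContinuousAt (fun s => |f s|) 10 := hf.abs
    have : ∀ᶠ s in 𝓝 (10 : ℝ), c < |f s| :=
      hcont.eventually (lt_mem_nhds (by rw [hcdef]; linarith))
    obtain ⟨δ, hδ, h⟩ := Metric.eventually_nhds_iff_ball.1 this
    exact ⟨δ, hδ, fun X hX => (h X hX).le⟩
  clear_value c
  set A : ℝ := ∫ s in Ioc 0 11, ‖vpot lam s * f s ^ 2‖ with hA
  have key : ∀ x : ℝ, 1 < x → 1 / x < δ → Real.exp x * c ^ 2 * (1 / x / 2) ≤ A := by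
    intro x hx hxδ
    have hx0 : 0 < x := by linarith
    set t : ℝ := 1 / x with ht
    have ht0 : 0 < t := by positivity
    have ht1 : t < 1 := by rw [ht, div_lt_one hx0]; exact hx
    have htx : 1 / t = x := by rw [ht]; field_simp
    have hsub : Ioo (10 - t) (10 - t / 2) ⊆ Ioc 0 11 := by
      intro s hs
      exact ⟨by linarith [hs.1], by linarith [hs.2]⟩
    have hge : ∀ s ∈ Ioo (10 - t) (10 - t / 2), Real.exp x * c ^ 2 ≤ ‖vpot lam s * f s ^ 2‖ := by
      intro s hs
      have h1 : 1 < s := by linarith [hs.1]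
      have h2 : s < 10 := by linarith [hs.2]
      have h3 : s ∈ Metric.ball (10 : ℝ) δ := by
        rw [Metric.mem_ball, Real.dist_eq, abs_lt]
        exact ⟨by linarith [hs.1], by linarith [hs.2]⟩
      have h4 := hball s h3
      have h5 : Real.exp x ≤ vpot lam s := by
        rw [vpot_mid h1 h2]
        have h6 : Real.exp x ≤ Real.exp (1 / (10 - s)) := by
          rw [← htx]
          apply Real.exp_le_exp.2
          apply one_div_le_one_div_of_le
          · linarith
          · linarith [hs.1]
        have := Real.exp_pos (1 / (s - 1))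
        nlinarith
      have h7 : 0 < Real.exp x := Real.exp_pos x
      have h8 : c ^ 2 ≤ f s ^ 2 := by
        rw [← sq_abs (f s)]
        exact pow_le_pow_left₀ hc0.le h4 2
      rw [Real.norm_eq_abs]
      refine le_trans ?_ (le_abs_self _)
      exact mul_le_mul h5 h8 (by positivity) (h7.le.trans h5)
    have h1 := setIntegral_ge_of_const_le_real measurableSet_Ioo
      (by rw [Real.volume_Ioo]; exact ENNReal.ofReal_ne_top) hge
      (IntegrableOn.mono_set hint.norm hsub)
    rw [Measure.real, Real.volume_Ioo, ENNReal.toReal_ofReal (by linarith)] at h1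
    have h2 : ∫ s in Ioo (10 - t) (10 - t / 2), ‖vpot lam s * f s ^ 2‖ ≤ A :=
      setIntegral_mono_set hint.norm (Eventually.of_forall fun s => norm_nonneg _)
        (LE.le.eventuallyLE hsub)
    have e : 10 - t / 2 - (10 - t) = t / 2 := by ring
    rw [e] at h1
    exact h1.trans h2
  have htend := Real.tendsto_exp_div_pow_atTop 1
  obtain ⟨x, hx1, hx2, hx3⟩ : ∃ x : ℝ, (A / (c ^ 2 / 2) + 1 ≤ Real.exp x / x ^ 1) ∧ 1 < x ∧
      1 / x < δ := by
    have h1 := (htend.eventually_ge_atTop (A / (c ^ 2 / 2) + 1)).and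
      ((eventually_gt_atTop (1 : ℝ)).and (eventually_gt_atTop (1 / δ)))
    obtain ⟨x, hx⟩ := h1.exists
    refine ⟨x, hx.1, hx.2.1, ?_⟩
    have hx0 : 0 < x := by linarith [hx.2.1]
    rw [div_lt_iff₀ hx0]
    have := hx.2.2
    rw [div_lt_iff₀ hδ] at this
    linarith
  have h2 := key x hx2 hx3
  have hx0 : 0 < x := by linarith
  have hK : 0 < c ^ 2 / 2 := by positivity
  have h3 : Real.exp x * c ^ 2 * (1 / x / 2) = (Real.exp x / x ^ 1) * (c ^ 2 / 2) := by
    field_simp
  rw [h3] at h2
  have h4 : A < (Real.exp x / x ^ 1) * (c ^ 2 / 2) := by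
    have h5 : A / (c ^ 2 / 2) < Real.exp x / x ^ 1 := by linarith
    rwa [div_lt_iff₀ hK] at h5
  linarith

/-- The zero-energy solution. -/
noncomputable def uz (r : ℝ) : ℝ := max (r - 10) 0

theorem uz_lip : LipschitzWith 1 uz := by
  refine LipschitzWith.of_dist_le_mul fun x y => ?_
  rw [NNReal.coe_one, one_mul, Real.dist_eq, uz, uz]
  refine (abs_max_sub_max_le_max _ _ _ _).trans ?_
  rw [sub_self, abs_zero, max_eq_left (abs_nonneg _), Real.dist_eq]
  have e : x - 10 - (y - 10) = x - y := by ring
  rw [e]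

theorem deriv_uz_gt {s : ℝ} (hs : 10 < s) : deriv uz s = 1 := by
  have h : uz =ᶠ[𝓝 s] fun s => s - 10 := by
    filter_upwards [Ioi_mem_nhds hs] with t ht
    rw [uz, max_eq_left]
    linarith [mem_Ioi.1 ht]
  rw [h.deriv_eq]
  simp

theorem deriv_uz_lt {s : ℝ} (hs : s < 10) : deriv uz s = 0 := by
  have h : uz =ᶠ[𝓝 s] fun _ => 0 := by
    filter_upwards [Iio_mem_nhds hs] with t ht
    rw [uz, max_eq_right]
    linarith [mem_Iio.1 ht]
  rw [h.deriv_eq]
  simp

theorem vpot_mul_uz (lam s : ℝ) : vpot lam s * uz s = 0 := by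
  rcases le_or_gt 10 s with h | h
  · rw [vpot_far h, zero_mul]
  · rw [uz, max_eq_right (by linarith), mul_zero]

theorem uz_solution {μ lam : ℝ} (hl : 0 ≤ lam) : IsZeroEnergySolution μ (vpot lam) uz where
  zero := by simp [uz]
  ac := fun r _ => uz_lip.lipschitzOnWith.absolutelyContinuousOnInterval
  deriv_sq := fun r hr => by
    refine Measure.integrableOn_of_bounded (M := 1) (by rw [Real.volume_Ioc]; exact
      ENNReal.ofReal_ne_top) ?_ ?_
    · exact ((measurable_deriv uz).pow_const 2).aestronglyMeasurable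
    · refine Eventually.of_forall fun s => ?_
      rw [norm_pow]
      have h : ‖deriv uz s‖ ≤ 1 := by
        have := norm_deriv_le_of_lipschitz (x₀ := s) uz_lip
        simpa using this
      exact pow_le_one₀ (norm_nonneg _) h
  pot := fun r hr => by
    have h : (fun s => vpot lam s * uz s ^ 2) = fun _ => 0 := by
      ext s
      rw [pow_two, ← mul_assoc, vpot_mul_uz, zero_mul]
    rw [h]
    exact integrableOn_zero
  weak := fun η ⟨K, hK⟩ hc _ hint => by
    have h10 : η 10 = 0 :=
      eq_zero_at_ten hl hK.continuous.continuousAt hint.integrableOn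
    obtain ⟨R, hR⟩ := hc.isCompact.isBounded.subset_closedBall (0 : ℝ)
    set R' : ℝ := max (R + 1) 11 with hR'
    have hη0 : ∀ s, R' ≤ s → η s = 0 := by
      intro s hs
      by_contra hne
      have h1 := hR (subset_tsupport _ hne)
      rw [Metric.mem_closedBall, dist_zero_right, Real.norm_eq_abs] at h1
      have h2 := le_abs_self s
      have h3 : R + 1 ≤ R' := le_max_left _ _
      linarith
    have hfun : ∀ᵐ s ∂(volume.restrict (Ioi (0 : ℝ))),
        2 * μ * (deriv uz s * deriv η s) + vpot lam s * uz s * η s =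
        (Ioc 10 R').indicator (fun s => 2 * μ * deriv η s) s := by
      have hne : ∀ᵐ s ∂(volume : Measure ℝ), s ≠ 10 ∧ s ≠ R' := by
        have h1 : ∀ᵐ s ∂(volume : Measure ℝ), s ≠ 10 := by
          rw [ae_iff]; simp
        have h2 : ∀ᵐ s ∂(volume : Measure ℝ), s ≠ R' := by
          rw [ae_iff]; simp
        exact h1.and h2
      filter_upwards [ae_restrict_of_ae hne] with s hs
      rw [vpot_mul_uz, zero_mul, add_zero]
      rcases lt_or_gt_of_ne hs.1 with h | h
      · rw [deriv_uz_lt h, indicator_of_notMem (fun h' => by linarith [h'.1])]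
        ring
      · rcases lt_or_gt_of_ne hs.2 with h' | h'
        · rw [deriv_uz_gt h, indicator_of_mem (mem_Ioc.2 ⟨h, h'.le⟩)]
          ring
        · rw [indicator_of_notMem (fun h'' => by linarith [h''.2])]
          have h3 : η =ᶠ[𝓝 s] fun _ => 0 := by
            filter_upwards [Ioi_mem_nhds h'] with t ht
            exact hη0 t (le_of_lt ht)
          rw [h3.deriv_eq]
          simp
    rw [integral_congr_ae hfun, setIntegral_indicator measurableSet_Ioc]
    have hinter : Ioi (0 : ℝ) ∩ Ioc 10 R' = Ioc 10 R' := by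
      ext s
      simp only [mem_inter_iff, mem_Ioi, mem_Ioc]
      constructor
      · exact fun h => h.2
      · exact fun h => ⟨by linarith [h.1], h⟩
    have hR10 : (10 : ℝ) ≤ R' := by
      have : (11 : ℝ) ≤ R' := le_max_right _ _
      linarith
    rw [hinter, integral_const_mul, ← intervalIntegral.integral_of_le hR10,
      (hK.lipschitzOnWith.absolutelyContinuousOnInterval).integral_deriv_eq_sub, h10,
      hη0 R' le_rfl]
    simp

/-- A tent function. -/
noncomputable def tent (r s : ℝ) : ℝ := max 0 (min (s - 10) ((r - s) / (r - 11)))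

theorem solution_affine {μ lam : ℝ} (hμ : 0 < μ) (hl : 0 ≤ lam) {u : ℝ → ℝ}
    (hu : IsZeroEnergySolution μ (vpot lam) u) {r : ℝ} (hr : 11 < r) :
    u r = u 11 * (r - 10) := by
  have hr0 : 0 < r - 11 := by linarith
  -- `u` vanishes at 10
  have hac := hu.ac r (by linarith)
  have hucont : ContinuousAt u 10 := by
    have h1 := hac.continuousOn
    rw [uIcc_of_le (by linarith)] at h1
    exact h1.continuousAt (Icc_mem_nhds (by norm_num) (by linarith))
  have hu10 : u 10 = 0 := eq_zero_at_ten hl hucont (hu.pot 11 (by norm_num))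
  -- the tent function
  have ht0 : ∀ s, s ≤ 10 → tent r s = 0 := by
    intro s hs
    exact max_eq_left ((min_le_left _ _).trans (by linarith))
  have ht1 : ∀ s, 10 ≤ s → s ≤ 11 → tent r s = s - 10 := by
    intro s h1 h2
    have h3 : 1 ≤ (r - s) / (r - 11) := by rw [le_div_iff₀ hr0]; linarith
    rw [tent, min_eq_left (by linarith), max_eq_right (by linarith)]
  have ht2 : ∀ s, 11 ≤ s → s ≤ r → tent r s = (r - s) / (r - 11) := by
    intro s h1 h2
    have h3 : (r - s) / (r - 11) ≤ 1 := by rw [div_le_iff₀ hr0]; linarith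
    rw [tent, min_eq_right (by linarith), max_eq_right (div_nonneg (by linarith) hr0.le)]
  have ht3 : ∀ s, r ≤ s → tent r s = 0 := by
    intro s hs
    refine max_eq_left ((min_le_right _ _).trans ?_)
    exact div_nonpos_of_nonpos_of_nonneg (by linarith) hr0.le
  have hlip : LipschitzWith (1 + Real.toNNReal (1 / (r - 11))) (tent r) := by
    refine LipschitzWith.of_dist_le_mul fun x y => ?_
    rw [Real.dist_eq, tent, tent]
    refine (abs_max_sub_max_le_max _ _ _ _).trans ?_
    rw [sub_self, abs_zero, max_eq_right (abs_nonneg _)]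
    refine (abs_min_sub_min_le_max _ _ _ _).trans ?_
    rw [NNReal.coe_add, NNReal.coe_one, Real.coe_toNNReal _ (by positivity), Real.dist_eq]
    have e1 : x - 10 - (y - 10) = x - y := by ring
    have e2 : (r - x) / (r - 11) - (r - y) / (r - 11) = (1 / (r - 11)) * (y - x) := by ring
    rw [e1, e2, abs_mul, abs_of_pos (by positivity : 0 < 1 / (r - 11)), abs_sub_comm y x]
    have h1 : 0 ≤ |x - y| := abs_nonneg _
    have h2 : 0 ≤ 1 / (r - 11) * |x - y| := by positivity
    refine max_le ?_ ?_ <;> nlinarith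
  have hsupp : Function.support (tent r) ⊆ Icc 10 r := by
    intro s hs
    constructor
    · by_contra h; exact hs (ht0 s (by linarith))
    · by_contra h; exact hs (ht3 s (by linarith))
  have htsupp : tsupport (tent r) ⊆ Icc 10 r := closure_minimal hsupp isClosed_Icc
  have hcomp : HasCompactSupport (tent r) :=
    HasCompactSupport.of_support_subset_isCompact isCompact_Icc hsupp
  have hv0 : ∀ s, vpot lam s * tent r s = 0 := by
    intro s
    rcases le_or_gt 10 s with h | h
    · rw [vpot_far h, zero_mul]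
    · rw [ht0 s h.le, mul_zero]
  have hweak := hu.weak (tent r) ⟨_, hlip⟩ hcomp
    (htsupp.trans fun s hs => by have := hs.1; exact mem_Ioi.2 (by linarith)) (by
      have h : (fun s => vpot lam s * tent r s ^ 2) = fun _ => 0 := by
        ext s
        rw [pow_two, ← mul_assoc, hv0, zero_mul]
      rw [h]
      exact integrable_zero _ _ _)
  have hfun : ∀ᵐ s ∂(volume.restrict (Ioi (0 : ℝ))),
      2 * μ * (deriv u s * deriv (tent r) s) + vpot lam s * u s * tent r s =
      (Ioc 10 11).indicator (fun s => 2 * μ * deriv u s) s -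
        (Ioc 11 r).indicator (fun s => 2 * μ * (1 / (r - 11)) * deriv u s) s := by
    have hne : ∀ᵐ s ∂(volume : Measure ℝ), s ≠ 10 ∧ s ≠ 11 ∧ s ≠ r := by
      have h1 : ∀ᵐ s ∂(volume : Measure ℝ), s ≠ 10 := by
        rw [ae_iff]; simp
      have h2 : ∀ᵐ s ∂(volume : Measure ℝ), s ≠ 11 := by
        rw [ae_iff]; simp
      have h3 : ∀ᵐ s ∂(volume : Measure ℝ), s ≠ r := by
        rw [ae_iff]; simp
      exact h1.and (h2.and h3)
    filter_upwards [ae_restrict_of_ae hne] with s hs
    have e : vpot lam s * u s * tent r s = 0 := by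
      have := hv0 s
      calc vpot lam s * u s * tent r s = (vpot lam s * tent r s) * u s := by ring
        _ = 0 := by rw [this, zero_mul]
    rw [e, add_zero]
    rcases lt_or_gt_of_ne hs.1 with h | h
    · have h3 : tent r =ᶠ[𝓝 s] fun _ => 0 := by
        filter_upwards [Iio_mem_nhds h] with t ht
        exact ht0 t (le_of_lt ht)
      rw [h3.deriv_eq, indicator_of_notMem (fun h' => by linarith [h'.1]),
        indicator_of_notMem (fun h' => by linarith [h'.1])]
      simp
    rcases lt_or_gt_of_ne hs.2.1 with h' | h'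
    · have h3 : tent r =ᶠ[𝓝 s] fun s => s - 10 := by
        filter_upwards [Ioo_mem_nhds h h'] with t ht
        exact ht1 t ht.1.le ht.2.le
      rw [h3.deriv_eq, indicator_of_mem (mem_Ioc.2 ⟨h, h'.le⟩),
        indicator_of_notMem (fun h' => by linarith [h'.1])]
      simp
    rcases lt_or_gt_of_ne hs.2.2 with h'' | h''
    · have h3 : tent r =ᶠ[𝓝 s] fun s => (r - s) / (r - 11) := by
        filter_upwards [Ioo_mem_nhds h' h''] with t ht
        exact ht2 t ht.1.le ht.2.le
      have h4 : deriv (fun s => (r - s) / (r - 11)) s = -(1 / (r - 11)) := by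
        rw [deriv_div_const, deriv_const_sub, deriv_id'']
        ring
      rw [h3.deriv_eq, h4, indicator_of_notMem (fun h' => by linarith [h'.2]),
        indicator_of_mem (mem_Ioc.2 ⟨h', h''.le⟩)]
      ring
    · have h3 : tent r =ᶠ[𝓝 s] fun _ => 0 := by
        filter_upwards [Ioi_mem_nhds h''] with t ht
        exact ht3 t (le_of_lt ht)
      rw [h3.deriv_eq, indicator_of_notMem (fun h' => by linarith [h'.2]),
        indicator_of_notMem (fun h' => by linarith [h'.2])]
      simp
  have hii : IntervalIntegrable (deriv u) volume 0 r := hac.intervalIntegrable_deriv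
  have hI : IntegrableOn (deriv u) (Ioc 0 r) := by
    rwa [intervalIntegrable_iff_integrableOn_Ioc_of_le (by linarith)] at hii
  have hI1 : IntegrableOn (deriv u) (Ioc 10 11) :=
    hI.mono_set (Ioc_subset_Ioc (by norm_num) (by linarith))
  have hI2 : IntegrableOn (deriv u) (Ioc 11 r) :=
    hI.mono_set (Ioc_subset_Ioc (by norm_num) le_rfl)
  have hJ1 : Integrable ((Ioc 10 11).indicator (fun s => 2 * μ * deriv u s))
      (volume.restrict (Ioi (0 : ℝ))) :=
    ((integrable_indicator_iff measurableSet_Ioc).2 (hI1.const_mul _)).integrableOn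
  have hJ2 : Integrable ((Ioc 11 r).indicator (fun s => 2 * μ * (1 / (r - 11)) * deriv u s))
      (volume.restrict (Ioi (0 : ℝ))) :=
    ((integrable_indicator_iff measurableSet_Ioc).2 (hI2.const_mul _)).integrableOn
  rw [integral_congr_ae hfun, integral_sub hJ1 hJ2, setIntegral_indicator measurableSet_Ioc,
    setIntegral_indicator measurableSet_Ioc] at hweak
  have hinter : Ioi (0 : ℝ) ∩ Ioc 10 11 = Ioc 10 11 := by
    ext s
    simp only [mem_inter_iff, mem_Ioi, mem_Ioc]
    exact ⟨fun h => h.2, fun h => ⟨by linarith [h.1], h⟩⟩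
  have hinter2 : Ioi (0 : ℝ) ∩ Ioc 11 r = Ioc 11 r := by
    ext s
    simp only [mem_inter_iff, mem_Ioi, mem_Ioc]
    exact ⟨fun h => h.2, fun h => ⟨by linarith [h.1], h⟩⟩
  have hac1 : AbsolutelyContinuousOnInterval u 10 11 :=
    hac.mono (by
      rw [uIcc_of_le (by norm_num), uIcc_of_le (by linarith)]
      exact Icc_subset_Icc (by norm_num) (by linarith))
  have hac2 : AbsolutelyContinuousOnInterval u 11 r :=
    hac.mono (by
      rw [uIcc_of_le (by linarith), uIcc_of_le (by linarith)]
      exact Icc_subset_Icc (by norm_num) le_rfl)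
  rw [hinter, hinter2, integral_const_mul, integral_const_mul,
    ← intervalIntegral.integral_of_le (by norm_num), ← intervalIntegral.integral_of_le hr.le,
    hac1.integral_deriv_eq_sub, hac2.integral_deriv_eq_sub, hu10, sub_zero] at hweak
  have h1 : u 11 = (1 / (r - 11)) * (u r - u 11) := by
    have h2 : 2 * μ * (u 11 - (1 / (r - 11)) * (u r - u 11)) = 0 := by linarith
    have h3 : (2 * μ : ℝ) ≠ 0 := by positivity
    have h4 := (mul_eq_zero.1 h2).resolve_left h3
    linarith
  have h2 : u 11 * (r - 11) = u r - u 11 := by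
    have h3 : (1 / (r - 11)) * (u r - u 11) * (r - 11) = u r - u 11 := by field_simp
    calc u 11 * (r - 11) = (1 / (r - 11)) * (u r - u 11) * (r - 11) := by rw [← h1]
      _ = _ := h3
  linarith

/-- The scattering length of `vpot lam` is `10`. -/
theorem scattering {μ lam : ℝ} (hμ : 0 < μ) (hl : 0 ≤ lam) (a : ℝ) :
    IsScatteringLength μ (vpot lam) a ↔ a = 10 := by
  constructor
  · rintro ⟨u, hu, hne, hlim⟩
    set c := u 11 with hc
    have haff : ∀ r, 11 < r → u r = c * (r - 10) := fun r hr => solution_affine hμ hl hu hr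
    have hder : ∀ r, 11 < r → deriv u r = c := by
      intro r hr
      have h : u =ᶠ[𝓝 r] fun s => c * (s - 10) := by
        filter_upwards [Ioi_mem_nhds hr] with s hs
        exact haff s hs
      rw [h.deriv_eq]
      simp
    have hc0 : c ≠ 0 := by
      obtain ⟨r, hr1, hr2⟩ := (hne.and (eventually_gt_atTop (11 : ℝ))).exists
      rwa [hder r hr2] at hr1
    have h10 : Tendsto (fun r => r - u r / deriv u r) atTop (𝓝 10) := by
      refine tendsto_const_nhds.congr' ?_
      filter_upwards [eventually_gt_atTop (11 : ℝ)] with r hr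
      rw [haff r hr, hder r hr]
      field_simp
      ring
    exact tendsto_nhds_unique hlim h10
  · rintro rfl
    refine ⟨uz, uz_solution hl, ?_, ?_⟩
    · filter_upwards [eventually_gt_atTop (10 : ℝ)] with r hr
      rw [deriv_uz_gt hr]
      norm_num
    · refine tendsto_const_nhds.congr' ?_
      filter_upwards [eventually_gt_atTop (10 : ℝ)] with r hr
      rw [deriv_uz_gt hr, uz, max_eq_left (by linarith)]
      ring

end Pool.Agent.helper84.Bose
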