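import Pool.Agent.helper84.BoseLower
import Pool.Agent.helper84.BoseAsym
import Pool.Agent.helper84.BoseScatt
import Pool.Agent.helper84.BosePos

/-!
# The counterexample
-/

open MeasureTheory Set Filter Topology
open scoped NNReal ENNReal

namespace Pool.Agent.helper84.Bose

theorem ratio_le {μ ρ : ℝ} (hμ : 0 < μ) (hρ : 0 < ρ) {E : ℕ → ℝ → EReal}
    (h : ∀ᶠ L : ℝ in atTop, E ⌊ρ * L ^ 3⌋₊ L ≤
      ((9 / 10 * (4 * Real.pi * μ * ρ * 10) * (ρ * L ^ 3) : ℝ) : EReal)) :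
    energyPerParticle E ρ / ((4 * Real.pi * μ * ρ * 10 : ℝ) : EReal) ≤ ((9 / 10 : ℝ) : EReal) := by
  have h1 : energyPerParticle E ρ ≤ ((9 / 10 * (4 * Real.pi * μ * ρ * 10) : ℝ) : EReal) := by
    unfold energyPerParticle
    refine Filter.limsup_le_of_le (by isBoundedDefault) ?_
    filter_upwards [h, eventually_gt_atTop (0 : ℝ)] with L hL hL0
    have hp : 0 < ρ * L ^ 3 := by positivity
    have h2 := EReal.div_le_div_right_of_nonneg (show (0 : EReal) ≤ ((ρ * L ^ 3 : ℝ) : EReal) by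
      exact_mod_cast hp.le) hL
    refine h2.trans (le_of_eq ?_)
    rw [← EReal.coe_div, mul_div_assoc, div_self hp.ne', mul_one]
  have hp : 0 < 4 * Real.pi * μ * ρ * 10 := by positivity
  have h2 := EReal.div_le_div_right_of_nonneg
    (show (0 : EReal) ≤ ((4 * Real.pi * μ * ρ * 10 : ℝ) : EReal) by exact_mod_cast hp.le) h1
  refine h2.trans (le_of_eq ?_)
  rw [← EReal.coe_div, mul_div_assoc, div_self hp.ne', mul_one]

theorem not_tendsto {μ : ℝ} (hμ : 0 < μ) {E : ℕ → ℝ → EReal}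
    (h : ∀ ρ : ℝ, 0 < ρ → ρ < 1 / 5000000 → ∀ᶠ L : ℝ in atTop, E ⌊ρ * L ^ 3⌋₊ L ≤
      ((9 / 10 * (4 * Real.pi * μ * ρ * 10) * (ρ * L ^ 3) : ℝ) : EReal)) :
    ¬ Tendsto (fun ρ : ℝ => energyPerParticle E ρ / ((4 * Real.pi * μ * ρ * 10 : ℝ) : EReal))
      (𝓝[>] 0) (𝓝 1) := by
  intro ht
  have h1 : ∀ᶠ ρ : ℝ in 𝓝[>] 0, energyPerParticle E ρ /
      ((4 * Real.pi * μ * ρ * 10 : ℝ) : EReal) ≤ ((9 / 10 : ℝ) : EReal) := by
    filter_upwards [Ioo_mem_nhdsGT (show (0 : ℝ) < 1 / 5000000 by norm_num)] with ρ hρ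
    exact ratio_le hμ hρ.1 (h ρ hρ.1 hρ.2)
  have h2 : (1 : EReal) ≤ ((9 / 10 : ℝ) : EReal) := le_of_tendsto ht h1
  have h3 : ((1 : ℝ) : EReal) ≤ ((9 / 10 : ℝ) : EReal) := by simpa using h2
  rw [EReal.coe_le_coe_iff] at h3
  norm_num at h3

/-- The counterexample to the low-density formula. -/
theorem main (μ : ℝ) (hμ : 0 < μ) : ∃ (v : ℝ → ℝ) (a : ℝ),
    Measurable v ∧ (∃ B : ℝ, ∀ r, B ≤ v r) ∧ (∃ R : ℝ, ∀ r, R ≤ r → v r = 0) ∧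
    (∃ S : Finset ℝ, ContinuousOn v (S : Set ℝ)ᶜ) ∧ (∃ r, 0 < r ∧ v r < 0) ∧
    0 < a ∧ (∀ a', IsScatteringLength μ v a' ↔ a' = a) ∧
    (∀ N, NoBoundStates μ v N) ∧
    ∀ E : ℕ → ℝ → EReal, E = dirichletEnergy μ v ∨ E = neumannEnergy μ v →
      (∃ ρ₀ : ℝ, 0 < ρ₀ ∧ ∀ ρ : ℝ, 0 < ρ → ρ < ρ₀ → ∀ᶠ L : ℝ in atTop,
        E ⌊ρ * L ^ 3⌋₊ L ≤
          ((9 / 10 * (4 * Real.pi * μ * ρ * a) * (ρ * L ^ 3) : ℝ) : EReal)) ∧
      ¬ Tendsto (fun ρ : ℝ => energyPerParticle E ρ / ((4 * Real.pi * μ * ρ * a : ℝ) : EReal))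
        (𝓝[>] 0) (𝓝 1) := by
  have hl := lamc_nonneg hμ
  refine ⟨vpot (lamc μ), 10, measurable_vpot _, ⟨-lamc μ, neg_le_vpot hl⟩,
    ⟨10, fun r hr => vpot_far hr⟩, ⟨{1 / 2, 1, 10}, ?_⟩, ⟨1, one_pos, ?_⟩, by norm_num,
    scattering hμ hl, noBoundStates hμ, ?_⟩
  · have h := continuousOn_vpot (lamc μ)
    convert h using 2
    simp
  · rw [vpot_well (by norm_num) le_rfl]
    have := lamc_pos hμ
    linarith
  · intro E hE
    have hbound : ∀ ρ : ℝ, 0 < ρ → ρ < 1 / 5000000 → ∀ᶠ L : ℝ in atTop, E ⌊ρ * L ^ 3⌋₊ L ≤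
        ((9 / 10 * (4 * Real.pi * μ * ρ * 10) * (ρ * L ^ 3) : ℝ) : EReal) := by
      intro ρ hρ hρ0
      filter_upwards [upper_bound hμ hρ hρ0.le] with L hL
      have e : 9 / 10 * (4 * Real.pi * μ * ρ * 10) * (ρ * L ^ 3) =
          36 * Real.pi * μ * ρ ^ 2 * L ^ 3 := by ring
      rw [e]
      rcases hE with rfl | rfl
      · exact hL.1
      · exact hL.2
    exact ⟨⟨1 / 5000000, by norm_num, hbound⟩, not_tendsto hμ hbound⟩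

end Pool.Agent.helper84.Bose
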