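import Pool.Agent.helper84.BoseCrit

/-!
# Near-critical cliques
-/

open MeasureTheory Set Filter Topology
open scoped NNReal ENNReal

namespace Pool.Agent.helper84.Bose

/-- a point configuration of two particles at distance `3/4` -/
noncomputable def p0 : Fin 2 → Space := ![0, EuclideanSpace.single 0 (3 / 4 : ℝ)]

theorem p0_dist : ‖p0 0 - p0 1‖ = 3 / 4 := by
  simp [p0]

/-- a bump function -/
noncomputable def bump0 (x : Fin 2 → Space) : ℂ := ((max 0 (1 / 8 - ‖x - p0‖) : ℝ) : ℂ)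

theorem adm_bump0 : Adm bump0 := by
  refine ⟨⟨1, ?_⟩, ?_, ?_⟩
  · refine LipschitzWith.of_dist_le_mul fun x y => ?_
    rw [NNReal.coe_one, one_mul, dist_eq_norm, bump0, bump0, ← Complex.ofReal_sub,
      Complex.norm_real, Real.norm_eq_abs]
    refine (abs_max_sub_max_le_max _ _ _ _).trans ?_
    rw [sub_self, abs_zero, max_eq_right (abs_nonneg _)]
    have e : 1 / 8 - ‖x - p0‖ - (1 / 8 - ‖y - p0‖) = ‖y - p0‖ - ‖x - p0‖ := by ring
    rw [e]
    refine (abs_norm_sub_norm_le _ _).trans ?_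
    rw [dist_comm, dist_eq_norm]
    simp
  · refine HasCompactSupport.of_support_subset_isCompact
      (isCompact_closedBall p0 (1 / 8)) ?_
    intro x hx
    by_contra h
    apply hx
    rw [Metric.mem_closedBall, not_le, dist_eq_norm] at h
    rw [bump0, max_eq_left (by linarith), Complex.ofReal_zero]
  · intro x hx i j hij
    have h : ‖x - p0‖ < 1 / 8 := by
      by_contra h
      rw [not_lt] at h
      apply hx
      rw [bump0, max_eq_left (by linarith), Complex.ofReal_zero]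
    have hk : ∀ k, ‖x k - p0 k‖ ≤ 1 / 8 := fun k =>
      (norm_le_pi_norm (x - p0) k).trans h.le
    have key : 1 / 2 ≤ ‖x 0 - x 1‖ ∧ ‖x 0 - x 1‖ ≤ 1 := by
      have h0 := hk 0
      have h1 := hk 1
      have e : x 0 - x 1 - (p0 0 - p0 1) = (x 0 - p0 0) - (x 1 - p0 1) := by abel
      have h2 : ‖x 0 - x 1 - (p0 0 - p0 1)‖ ≤ 1 / 4 := by
        rw [e]
        refine (norm_sub_le _ _).trans ?_
        linarith
      have h3 := abs_norm_sub_norm_le (x 0 - x 1) (p0 0 - p0 1)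
      rw [p0_dist] at h3
      have h4 := abs_le.1 (h3.trans h2)
      constructor <;> linarith [h4.1, h4.2]
    fin_cases i <;> fin_cases j
    · exact absurd rfl hij
    · exact key
    · change 1 / 2 ≤ ‖x 1 - x 0‖ ∧ ‖x 1 - x 0‖ ≤ 1
      rw [norm_sub_rev]
      exact key
    · exact absurd rfl hij

theorem bump0_pos : 0 < ∫ x, ‖bump0 x‖ ^ 2 := by
  obtain ⟨K, hK⟩ := adm_bump0.lip
  have hcont : Continuous fun x => ‖bump0 x‖ ^ 2 := by
    have := hK.continuous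
    fun_prop
  have hcomp : HasCompactSupport fun x => ‖bump0 x‖ ^ 2 := by
    refine adm_bump0.comp.mono fun x hx => ?_
    intro h
    exact hx (by simp [h])
  refine hcont.integral_pos_of_hasCompactSupport_nonneg_nonzero hcomp (fun x => by positivity)
    (x := p0) ?_
  simp [bump0]

theorem critSet_nonempty (μ : ℝ) : (critSet μ).Nonempty := by
  refine ⟨(μ * ∫ x, kinOn Finset.univ bump0 x) / ∫ x, ‖bump0 x‖ ^ 2, 2, le_rfl, bump0,
    adm_bump0, bump0_pos, ?_⟩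
  have h := bump0_pos.ne'
  norm_num
  field_simp

/-- There are cliques of size `n` at almost critical depth. -/
def NearCrit (μ : ℝ) (n : ℕ) (ε : ℝ) : Prop :=
  ∃ φ : (Fin n → Space) → ℝ, (∃ C : ℝ≥0, LipschitzWith C φ) ∧ HasCompactSupport φ ∧
    (∀ x, 0 ≤ φ x ∧ φ x ≤ 1) ∧
    (∀ x, φ x ≠ 0 → ∀ i j, i ≠ j → 1 / 2 ≤ ‖x i - x j‖ ∧ ‖x i - x j‖ ≤ 1) ∧
    0 < ∫ x, φ x ^ 2 ∧
    μ * ∫ x, kinOn Finset.univ φ x ≤ (lamc μ + ε) * ((n : ℝ) * ((n : ℝ) - 1) / 2) * ∫ x, φ x ^ 2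

theorem exists_near_of_lt {μ : ℝ} (hμ : 0 < μ) {ε : ℝ} (hε : 0 < ε) :
    ∃ n : ℕ, 2 ≤ n ∧ n ≤ 729 ∧ NearCrit μ n ε := by
  obtain ⟨t, ht, htlt⟩ := exists_lt_of_csInf_lt (critSet_nonempty μ)
    (show sInf (critSet μ) < lamc μ + ε by unfold lamc; linarith)
  obtain ⟨n, hn, φ, hφ, hpos, heq⟩ := ht
  obtain ⟨K, hK⟩ := hφ.lip
  -- the clique size is bounded
  have hne : ∃ x, φ x ≠ 0 := by
    by_contra h
    push Not at h
    simp [h] at hpos
  have hn729 : n ≤ 729 := by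
    obtain ⟨x, hx⟩ := hne
    have h1 := IsClique.card_le (x := x) (C := (Finset.univ : Finset (Fin n)))
      (fun i _ j _ hij => hφ.supp x hx i j hij)
    simpa using h1
  refine ⟨n, hn, hn729, ?_⟩
  -- boundedness
  obtain ⟨B, hB⟩ : ∃ B, ∀ x, ‖φ x‖ ≤ B := hφ.comp.exists_bound_of_continuous hK.continuous
  have hB1 : ∀ x, ‖φ x‖ ≤ |B| + 1 := fun x => by
    have := hB x
    linarith [le_abs_self B]
  set b : ℝ := |B| + 1 with hb
  have hb0 : 0 < b := by positivity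
  have hn' : (2 : ℝ) ≤ n := by exact_mod_cast hn
  have hLip : LipschitzWith (K * Real.toNNReal b⁻¹) fun x => ‖φ x‖ / b := by
    refine LipschitzWith.of_dist_le_mul fun x y => ?_
    rw [Real.dist_eq, ← sub_div, abs_div, abs_of_pos hb0]
    have h1 : |‖φ x‖ - ‖φ y‖| ≤ K * dist x y :=
      (abs_norm_sub_norm_le _ _).trans (by rw [← dist_eq_norm]; exact hK.dist_le_mul x y)
    rw [NNReal.coe_mul, Real.coe_toNNReal _ (by positivity), div_le_iff₀ hb0]
    calc |‖φ x‖ - ‖φ y‖| ≤ K * dist x y := h1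
      _ = K * b⁻¹ * dist x y * b := by field_simp
  have hcomp : HasCompactSupport fun x => ‖φ x‖ / b := by
    refine hφ.comp.mono fun x hx => ?_
    intro h
    exact hx (by simp [h])
  have hsq : ∫ x, (‖φ x‖ / b) ^ 2 = (∫ x, ‖φ x‖ ^ 2) / b ^ 2 := by
    rw [← integral_div]
    refine integral_congr_ae (Eventually.of_forall fun x => ?_)
    simp only [div_pow]
  refine ⟨fun x => ‖φ x‖ / b, ⟨_, hLip⟩, hcomp, fun x => ⟨by positivity, ?_⟩, ?_, ?_, ?_⟩
  · rw [div_le_one hb0]; exact hB1 x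
  · intro x hx
    refine hφ.supp x fun h => hx (by simp [h])
  · rw [hsq]; positivity
  · rw [hsq]
    have hkin : ∫ x, kinOn Finset.univ (fun x => ‖φ x‖ / b) x ≤
        (∫ x, kinOn Finset.univ φ x) / b ^ 2 := by
      rw [← integral_div]
      refine integral_mono_ae (integrable_kinOn _ hLip hcomp)
        ((integrable_kinOn _ hK hφ.comp).div_const _) ?_
      have hdiff : ∀ᵐ x : Fin n → Space, ∀ (i : Fin n) (k : Fin 3),
          LineDifferentiableAt ℝ φ x (dirG i k) := by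
        rw [ae_all_iff]; intro i; rw [ae_all_iff]; intro k
        exact ae_lineDiff hK _
      filter_upwards [hdiff] with x hx
      unfold kinOn
      rw [Finset.sum_div]
      refine Finset.sum_le_sum fun i _ => ?_
      rw [Finset.sum_div]
      refine Finset.sum_le_sum fun k _ => ?_
      have hd : LineDifferentiableAt ℝ (fun x => (b⁻¹ : ℂ) * φ x) x (dirG i k) := by
        have := (hx i k).hasLineDerivAt
        exact (HasDerivAt.const_mul (b⁻¹ : ℂ) this).differentiableAt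
      have h1 : ‖lineDeriv ℝ (fun x => ‖φ x‖ / b) x (dirG i k)‖ ≤
          ‖lineDeriv ℝ (fun x => (b⁻¹ : ℂ) * φ x) x (dirG i k)‖ := by
        refine norm_lineDeriv_le_of_le hd fun t => ?_
        rw [← mul_sub, norm_mul, ← sub_div, norm_div, norm_inv, Complex.norm_real,
          Real.norm_eq_abs, Real.norm_eq_abs, div_eq_inv_mul]
        exact mul_le_mul_of_nonneg_left (abs_norm_sub_norm_le _ _) (by positivity)
      have h2 : lineDeriv ℝ (fun x => (b⁻¹ : ℂ) * φ x) x (dirG i k) =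
          (b⁻¹ : ℂ) * lineDeriv ℝ φ x (dirG i k) :=
        (HasDerivAt.const_mul (b⁻¹ : ℂ) (hx i k).hasLineDerivAt).deriv
      rw [h2, norm_mul, norm_inv, Complex.norm_real, Real.norm_of_nonneg hb0.le] at h1
      have h3 := pow_le_pow_left₀ (norm_nonneg _) h1 2
      refine h3.trans (le_of_eq ?_)
      rw [mul_pow, inv_pow, div_eq_inv_mul]
    have hpos' : 0 < ((n : ℝ) * ((n : ℝ) - 1) / 2) := by nlinarith
    calc μ * ∫ x, kinOn Finset.univ (fun x => ‖φ x‖ / b) x ≤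
          μ * ((∫ x, kinOn Finset.univ φ x) / b ^ 2) := mul_le_mul_of_nonneg_left hkin hμ.le
      _ = (t * ((n : ℝ) * ((n : ℝ) - 1) / 2) * ∫ x, ‖φ x‖ ^ 2) / b ^ 2 := by
          rw [← heq]; ring
      _ ≤ ((lamc μ + ε) * ((n : ℝ) * ((n : ℝ) - 1) / 2) * ∫ x, ‖φ x‖ ^ 2) / b ^ 2 := by
          gcongr
      _ = _ := by ring

theorem NearCrit.mono {μ : ℝ} {n : ℕ} {ε ε' : ℝ} (hn : 2 ≤ n) (h : NearCrit μ n ε)
    (hε : ε ≤ ε') : NearCrit μ n ε' := by
  obtain ⟨φ, h1, h2, h3, h4, h5, h6⟩ := h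
  refine ⟨φ, h1, h2, h3, h4, h5, h6.trans ?_⟩
  have hn' : (2 : ℝ) ≤ n := by exact_mod_cast hn
  have hpos' : 0 < ((n : ℝ) * ((n : ℝ) - 1) / 2) := by nlinarith
  gcongr

/-- The critical clique size. -/
theorem exists_critical {μ : ℝ} (hμ : 0 < μ) :
    ∃ n : ℕ, 2 ≤ n ∧ n ≤ 729 ∧ ∀ ε > 0, NearCrit μ n ε := by
  by_contra hcon
  push Not at hcon
  have h1 : ∀ n ∈ Finset.Icc 2 729, ∀ᶠ ε : ℝ in 𝓝[>] 0, ¬ NearCrit μ n ε := by
    intro n hn
    rw [Finset.mem_Icc] at hn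
    obtain ⟨ε, hε, hne⟩ := hcon n hn.1 hn.2
    filter_upwards [Ioc_mem_nhdsGT hε] with δ hδ h
    exact hne (h.mono hn.1 hδ.2)
  have h2 : ∀ᶠ ε : ℝ in 𝓝[>] 0, ∀ n ∈ Finset.Icc 2 729, ¬ NearCrit μ n ε := by
    rw [Filter.eventually_all_finset]
    exact h1
  obtain ⟨ε, hε, hpos⟩ := (h2.and self_mem_nhdsWithin).exists
  obtain ⟨n, hn2, hn729, hN⟩ := exists_near_of_lt hμ (mem_Ioi.1 hpos)
  exact hε n (Finset.mem_Icc.2 ⟨hn2, hn729⟩) hN

end Pool.Agent.helper84.Bose
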