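import Pool.Agent.helper84.BoseComb

/-!
# The potential of the counterexample and its elementary bounds
-/

open MeasureTheory Set Filter Topology
open scoped NNReal ENNReal

namespace Pool.Agent.helper84.Bose

/-- The pair potential of the counterexample: strongly repulsive for `r < 1/2` and `1 < r < 10`,
with walls at `r = 1/2`, `r = 1`, `r = 10`, an attractive well of depth `lam` on `[1/2,1]`, and zero
for `r ≥ 10`. -/
noncomputable def vpot (lam : ℝ) (r : ℝ) : ℝ :=
  if r < 1 / 2 then 729 * 731 * lam + Real.exp (1 / (1 / 2 - r))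
  else if r ≤ 1 then -lam
  else if r < 10 then 729 * 731 * lam + Real.exp (1 / (r - 1)) + Real.exp (1 / (10 - r))
  else 0

theorem vpot_well {lam r : ℝ} (h1 : 1 / 2 ≤ r) (h2 : r ≤ 1) : vpot lam r = -lam := by
  rw [vpot, if_neg (not_lt.2 h1), if_pos h2]

theorem vpot_far {lam r : ℝ} (h : 10 ≤ r) : vpot lam r = 0 := by
  rw [vpot, if_neg (by linarith), if_neg (by linarith), if_neg (by linarith)]

theorem vpot_core {lam r : ℝ} (h : r < 1 / 2) :
    vpot lam r = 729 * 731 * lam + Real.exp (1 / (1 / 2 - r)) := by
  rw [vpot, if_pos h]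

theorem vpot_mid {lam r : ℝ} (h1 : 1 < r) (h2 : r < 10) :
    vpot lam r = 729 * 731 * lam + Real.exp (1 / (r - 1)) + Real.exp (1 / (10 - r)) := by
  rw [vpot, if_neg (by linarith), if_neg (by linarith), if_pos h2]

theorem neg_le_vpot {lam : ℝ} (hl : 0 ≤ lam) (r : ℝ) : -lam ≤ vpot lam r := by
  unfold vpot
  split_ifs with h1 h2 h3
  · have := Real.exp_pos (1 / (1 / 2 - r)); nlinarith
  · exact le_rfl
  · have := Real.exp_pos (1 / (r - 1)); have := Real.exp_pos (1 / (10 - r)); nlinarith
  · linarith

theorem vpot_ge_forb {lam : ℝ} {r : ℝ} (h : r < 1 / 2 ∨ (1 < r ∧ r < 10)) :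
    729 * 731 * lam ≤ vpot lam r := by
  rcases h with h | ⟨h1, h2⟩
  · rw [vpot_core h]
    have := Real.exp_pos (1 / (1 / 2 - r)); linarith
  · rw [vpot_mid h1 h2]
    have := Real.exp_pos (1 / (r - 1)); have := Real.exp_pos (1 / (10 - r)); linarith

theorem measurable_vpot (lam : ℝ) : Measurable (vpot lam) := by
  unfold vpot
  refine Measurable.ite measurableSet_Iio (by fun_prop) ?_
  refine Measurable.ite measurableSet_Iic (by fun_prop) ?_
  exact Measurable.ite measurableSet_Iio (by fun_prop) (by fun_prop)

theorem continuousOn_vpot (lam : ℝ) : ContinuousOn (vpot lam) ({1 / 2, 1, 10} : Set ℝ)ᶜ := by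
  intro r hr
  simp only [mem_compl_iff, mem_insert_iff, mem_singleton_iff, not_or] at hr
  obtain ⟨h1, h2, h3⟩ := hr
  refine ContinuousAt.continuousWithinAt ?_
  rcases lt_or_gt_of_ne h1 with h | h
  · have he : vpot lam =ᶠ[𝓝 r] fun r => 729 * 731 * lam + Real.exp (1 / (1 / 2 - r)) := by
      filter_upwards [Iio_mem_nhds h] with s hs
      exact vpot_core hs
    refine ContinuousAt.congr ?_ he.symm
    refine continuousAt_const.add (Real.continuous_exp.continuousAt.comp ?_)
    exact continuousAt_const.div (continuousAt_const.sub continuousAt_id)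
      (sub_ne_zero.2 (ne_of_gt h))
  rcases lt_or_gt_of_ne h2 with h' | h'
  · have he : vpot lam =ᶠ[𝓝 r] fun _ => -lam := by
      filter_upwards [Ioo_mem_nhds h h'] with s hs
      exact vpot_well hs.1.le hs.2.le
    exact ContinuousAt.congr continuousAt_const he.symm
  rcases lt_or_gt_of_ne h3 with h'' | h''
  · have he : vpot lam =ᶠ[𝓝 r] fun r => 729 * 731 * lam + Real.exp (1 / (r - 1)) +
        Real.exp (1 / (10 - r)) := by
      filter_upwards [Ioo_mem_nhds h' h''] with s hs
      exact vpot_mid hs.1 hs.2
    refine ContinuousAt.congr ?_ he.symm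
    refine (continuousAt_const.add (Real.continuous_exp.continuousAt.comp ?_)).add
      (Real.continuous_exp.continuousAt.comp ?_)
    · exact continuousAt_const.div (continuousAt_id.sub continuousAt_const)
        (sub_ne_zero.2 (ne_of_gt h'))
    · exact continuousAt_const.div (continuousAt_const.sub continuousAt_id)
        (sub_ne_zero.2 (ne_of_gt h''))
  · have he : vpot lam =ᶠ[𝓝 r] fun _ => 0 := by
      filter_upwards [Ioi_mem_nhds h''] with s hs
      exact vpot_far (le_of_lt hs)
    exact ContinuousAt.congr continuousAt_const he.symm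

section

variable {ι : Type*} [Fintype ι]

open Classical in
/-- The sum of the pair potential over ordered pairs: twice the potential energy. -/
noncomputable def pot2 (v : ℝ → ℝ) (X : ι → Space) : ℝ :=
  ∑ p ∈ (Finset.univ : Finset ι).offDiag, v ‖X p.1 - X p.2‖

open Classical in
theorem pot2_eq_potential (v : ℝ → ℝ) {N : ℕ} (X : Fin N → Space) :
    pot2 v X = 2 * potential v X := by
  unfold pot2 potential
  have h1 : (Finset.univ : Finset (Fin N)).offDiag =
      (Finset.univ.filter fun p : Fin N × Fin N => p.1 < p.2) ∪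
        (Finset.univ.filter fun p : Fin N × Fin N => p.2 < p.1) := by
    ext p
    simp only [Finset.mem_offDiag, Finset.mem_univ, true_and, Finset.mem_union, Finset.mem_filter]
    exact ne_iff_lt_or_gt
  rw [h1, Finset.sum_union]
  · have h2 : ∑ p ∈ (Finset.univ.filter fun p : Fin N × Fin N => p.1 < p.2), v ‖X p.1 - X p.2‖ =
        ∑ i, ∑ j ∈ Finset.univ.filter (fun j => i < j), v ‖X i - X j‖ := by
      rw [Finset.sum_filter, ← Finset.univ_product_univ, Finset.sum_product]
      refine Finset.sum_congr rfl fun i _ => ?_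
      rw [Finset.sum_filter]
    have h3 : ∑ p ∈ (Finset.univ.filter fun p : Fin N × Fin N => p.2 < p.1), v ‖X p.1 - X p.2‖ =
        ∑ p ∈ (Finset.univ.filter fun p : Fin N × Fin N => p.1 < p.2), v ‖X p.1 - X p.2‖ := by
      refine Finset.sum_bij' (fun p _ => p.swap) (fun p _ => p.swap) ?_ ?_ ?_ ?_ ?_
      · intro p hp; simpa using hp
      · intro p hp; simpa using hp
      · intro p _; simp
      · intro p _; simp
      · intro p _
        simp only [Prod.fst_swap, Prod.snd_swap]
        rw [norm_sub_rev]
    rw [h3, h2]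
    ring
  · rw [Finset.disjoint_left]
    intro p hp hp'
    rw [Finset.mem_filter] at hp hp'
    exact absurd hp.2 (not_lt.2 hp'.2.le)

open Classical in
/-- Stability: the attraction outside isolated cliques is compensated by the repulsion. -/
theorem pot2_ge {lam : ℝ} (hl : 0 ≤ lam) (X : ι → Space) :
    -(lam * ∑ C ∈ (Finset.univ : Finset ι).powerset.filter (IsClique X),
      ((C.card : ℝ) * ((C.card : ℝ) - 1))) ≤ pot2 (vpot lam) X := by
  have hc := comb X
  have h1 : ∀ p ∈ (Finset.univ : Finset ι).offDiag,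
      lam * ((if Forb X p then (729 * 731 : ℝ) else 0) - (if Bonded X p then 1 else 0)) ≤
        vpot lam ‖X p.1 - X p.2‖ := by
    intro p hp
    rw [Finset.mem_offDiag] at hp
    by_cases hF : Forb X p
    · have hB : ¬ Bonded X p := by
        rintro ⟨_, hb1, hb2⟩
        rcases hF.2 with h | ⟨h, _⟩ <;> linarith
      rw [if_pos hF, if_neg hB]
      have := vpot_ge_forb (lam := lam) hF.2
      linarith
    · rw [if_neg hF]
      by_cases hB : Bonded X p
      · rw [if_pos hB, vpot_well hB.2.1 hB.2.2]
        linarith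
      · rw [if_neg hB]
        have : 10 ≤ ‖X p.1 - X p.2‖ := by
          by_contra hlt
          push Not at hlt
          exact hB (bonded_of_not_forb hp.2.2 hF hlt)
        rw [vpot_far this]
        linarith
  have h2 := Finset.sum_le_sum h1
  rw [← Finset.mul_sum, Finset.sum_sub_distrib] at h2
  have h3 : ∑ p ∈ (Finset.univ : Finset ι).offDiag, (if Forb X p then (729 * 731 : ℝ) else 0) =
      729 * 731 * ((Finset.univ.filter (Forb X)).card : ℝ) := by
    rw [← Finset.sum_filter, Finset.sum_const, nsmul_eq_mul, mul_comm]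
    congr 3
    ext p
    simp only [Finset.mem_filter, Finset.mem_offDiag, Finset.mem_univ, true_and]
    exact ⟨fun h => h.2, fun h => ⟨h.1, h⟩⟩
  have h4 : ∑ p ∈ (Finset.univ : Finset ι).offDiag, (if Bonded X p then (1 : ℝ) else 0) =
      ((Finset.univ.filter (Bonded X)).card : ℝ) := by
    rw [← Finset.sum_filter, Finset.sum_const, nsmul_eq_mul, mul_one]
    congr 2
    ext p
    simp only [Finset.mem_filter, Finset.mem_offDiag, Finset.mem_univ, true_and]
    exact ⟨fun h => h.2, fun h => ⟨h.1, h⟩⟩
  rw [h3, h4] at h2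
  have h5 : ((Finset.univ.filter (Bonded X)).card : ℝ) ≤
      ∑ C ∈ (Finset.univ : Finset ι).powerset.filter (IsClique X),
        ((C.card : ℝ) * ((C.card : ℝ) - 1)) +
      729 * 731 * ((Finset.univ.filter (Forb X)).card : ℝ) := by
    have h6 : ((Finset.univ.filter (Bonded X)).card : ℝ) ≤
      ((∑ C ∈ (Finset.univ : Finset ι).powerset.filter (IsClique X), C.card * (C.card - 1) +
        729 * 731 * (Finset.univ.filter (Forb X)).card : ℕ) : ℝ) := by
      exact_mod_cast hc
    refine h6.trans ?_
    rw [Nat.cast_add, Nat.cast_sum, Nat.cast_mul]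
    refine add_le_add (Finset.sum_le_sum fun C _ => ?_) ?_
    · rcases Nat.eq_zero_or_pos C.card with h0 | h0
      · rw [h0]; simp
      · rw [Nat.cast_mul, Nat.cast_sub h0]; simp
    · norm_num
  unfold pot2
  nlinarith [h2, h5, hl]

end

end Pool.Agent.helper84.Bose
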