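import Pool.Agent.helper84.BoseTrial
import Pool.Agent.helper84.BoseNear

/-!
# The trial state: a gas of cliques
-/

open MeasureTheory Set Filter Topology
open scoped NNReal ENNReal

namespace Pool.Agent.helper84.Bose

variable {K n : ℕ}

/-- Uncurrying configurations. -/
def unc (W : Fin K → Fin n → Space) : Fin K × Fin n → Space := fun p => W p.1 p.2

theorem unc_measurePreserving :
    MeasurePreserving (unc : (Fin K → Fin n → Space) → (Fin K × Fin n → Space)) := by
  have hm : Measurable (unc : (Fin K → Fin n → Space) → (Fin K × Fin n → Space)) := by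
    unfold unc; fun_prop
  refine ⟨hm, ?_⟩
  symm
  refine Measure.pi_eq fun s hs => ?_
  rw [Measure.map_apply hm (MeasurableSet.univ_pi hs)]
  have h1 : unc ⁻¹' (Set.pi univ s) =
      Set.pi univ (fun c : Fin K => Set.pi univ (fun j : Fin n => s (c, j))) := by
    ext W
    simp only [mem_preimage, mem_univ_pi, unc, Prod.forall]
  rw [h1]
  rw [volume_pi_pi]
  simp only [volume_pi_pi]
  rw [Fintype.prod_prod_type]

theorem unc_measurableEmbedding :
    MeasurableEmbedding (unc : (Fin K → Fin n → Space) → (Fin K × Fin n → Space)) := by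
  have h : (unc : (Fin K → Fin n → Space) → (Fin K × Fin n → Space)) =
      (MeasurableEquiv.curry (Fin K) (Fin n) Space).symm := by
    ext W p
    rfl
  rw [h]
  exact MeasurableEquiv.measurableEmbedding _

/-- The configuration of cluster `c`. -/
def cl (X : Fin K × Fin n → Space) (c : Fin K) : Fin n → Space := fun j => X (c, j)

/-- The product state. -/
noncomputable def prodState (φ : (Fin n → Space) → ℝ) (X : Fin K × Fin n → Space) : ℝ :=
  ∏ c, φ (cl X c)

theorem integral_unc (f : (Fin K × Fin n → Space) → ℝ) : ∫ X, f X = ∫ W, f (unc W) :=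
  (unc_measurePreserving.integral_comp unc_measurableEmbedding f).symm

theorem integral_prodState_sq (φ : (Fin n → Space) → ℝ) :
    ∫ X : Fin K × Fin n → Space, prodState φ X ^ 2 = (∫ x, φ x ^ 2) ^ K := by
  rw [integral_unc]
  have h1 : ∀ W : Fin K → Fin n → Space, prodState φ (unc W) ^ 2 = ∏ c, (φ (W c) ^ 2) := by
    intro W
    rw [prodState, Finset.prod_pow]
    rfl
  simp only [h1]
  rw [integral_fintype_prod_volume_eq_prod (fun _ : Fin K => fun x : Fin n → Space => φ x ^ 2)]
  simp

theorem cl_add_smul_same (X : Fin K × Fin n → Space) (t : ℝ) (c : Fin K) (j : Fin n) (k : Fin 3) :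
    cl (X + t • dirG (c, j) k) c = cl X c + t • dirG j k := by
  ext i l
  simp only [cl, Pi.add_apply, Pi.smul_apply, dirG]
  by_cases h : i = j
  · subst h; simp
  · rw [Pi.single_eq_of_ne h, Pi.single_eq_of_ne]
    intro h'
    exact h (Prod.ext_iff.1 h').2

theorem cl_add_smul_ne (X : Fin K × Fin n → Space) (t : ℝ) {c c' : Fin K} (hc : c' ≠ c)
    (j : Fin n) (k : Fin 3) : cl (X + t • dirG (c, j) k) c' = cl X c' := by
  ext i l
  simp only [cl, Pi.add_apply, Pi.smul_apply, dirG]
  rw [Pi.single_eq_of_ne]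
  · simp
  · intro h'
    exact hc (Prod.ext_iff.1 h').1

theorem lineDeriv_prodState (φ : (Fin n → Space) → ℝ) (X : Fin K × Fin n → Space) (c : Fin K)
    (j : Fin n) (k : Fin 3) :
    lineDeriv ℝ (prodState φ) X (dirG (c, j) k) =
      lineDeriv ℝ φ (cl X c) (dirG j k) * ∏ c' ∈ Finset.univ.erase c, φ (cl X c') := by
  unfold lineDeriv
  rw [← deriv_mul_const_field]
  congr 1
  ext t
  rw [prodState, ← Finset.mul_prod_erase _ _ (Finset.mem_univ c), cl_add_smul_same]
  congr 1
  refine Finset.prod_congr rfl fun c' hc' => ?_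
  rw [cl_add_smul_ne X t (Finset.mem_erase.1 hc').1]

theorem kinOn_prodState (φ : (Fin n → Space) → ℝ) (X : Fin K × Fin n → Space) :
    kinOn Finset.univ (prodState φ) X =
      ∑ c : Fin K, ∏ c' : Fin K, (if c' = c then kinOn Finset.univ φ (cl X c')
        else φ (cl X c') ^ 2) := by
  unfold kinOn
  rw [Fintype.sum_prod_type]
  refine Finset.sum_congr rfl fun c _ => ?_
  rw [← Finset.mul_prod_erase _ _ (Finset.mem_univ c), if_pos rfl, Finset.sum_mul]
  refine Finset.sum_congr rfl fun j _ => ?_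
  rw [Finset.sum_mul]
  refine Finset.sum_congr rfl fun k _ => ?_
  rw [lineDeriv_prodState, norm_mul, mul_pow]
  congr 1
  rw [Real.norm_eq_abs, sq_abs, ← Finset.prod_pow]
  refine Finset.prod_congr rfl fun c' hc' => ?_
  rw [if_neg (Finset.mem_erase.1 hc').1]

theorem integral_kinOn_prodState {φ : (Fin n → Space) → ℝ} {C : ℝ≥0} (hφ : LipschitzWith C φ)
    (hc : HasCompactSupport φ) :
    ∫ X : Fin K × Fin n → Space, kinOn Finset.univ (prodState φ) X =
      K * ((∫ x, kinOn Finset.univ φ x) * (∫ x, φ x ^ 2) ^ (K - 1)) := by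
  rw [integral_unc]
  have hcl : ∀ (W : Fin K → Fin n → Space) (c : Fin K), cl (unc W) c = W c := fun W c => rfl
  simp only [kinOn_prodState, hcl]
  have hprod : ∀ c : Fin K, ∫ W : Fin K → Fin n → Space, ∏ c' : Fin K,
      (if c' = c then kinOn Finset.univ φ (W c') else φ (W c') ^ 2) =
      (∫ x, kinOn Finset.univ φ x) * (∫ x, φ x ^ 2) ^ (K - 1) := by
    intro c
    have h1 := integral_fintype_prod_volume_eq_prod (𝕜 := ℝ) (fun c' : Fin K =>
      fun x : Fin n → Space => if c' = c then kinOn Finset.univ φ x else φ x ^ 2)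
    rw [h1, ← Finset.mul_prod_erase _ _ (Finset.mem_univ c)]
    simp only [if_true]
    congr 1
    have h2 : ∀ c' ∈ Finset.univ.erase c, ∫ x : Fin n → Space,
        (if c' = c then kinOn Finset.univ φ x else φ x ^ 2) = ∫ x, φ x ^ 2 := by
      intro c' hc'
      simp only [if_neg (Finset.mem_erase.1 hc').1]
    rw [Finset.prod_congr rfl h2, Finset.prod_const, Finset.card_erase_of_mem (Finset.mem_univ c),
      Finset.card_univ, Fintype.card_fin]
  rw [integral_finsetSum, Finset.sum_congr rfl fun c _ => hprod c]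
  · simp
  · intro c _
    have iφ : Integrable (fun x => φ x ^ 2) := by
      simpa [Real.norm_eq_abs, sq_abs] using
        integrable_norm_sq (ν := (volume : Measure (Fin n → Space))) hφ.continuous hc
    refine Integrable.fintype_prod (𝕜 := ℝ) (f := fun c' : Fin K =>
      fun x : Fin n → Space => if c' = c then kinOn Finset.univ φ x else φ x ^ 2) fun c' => ?_
    by_cases h : c' = c
    · simp only [h, if_true]
      exact integrable_kinOn _ hφ hc
    · simp only [h, if_false]
      exact iφ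

theorem prodState_mem {φ : (Fin n → Space) → ℝ} (h01 : ∀ x, 0 ≤ φ x ∧ φ x ≤ 1)
    (X : Fin K × Fin n → Space) : 0 ≤ prodState φ X ∧ prodState φ X ≤ 1 :=
  ⟨Finset.prod_nonneg fun c _ => (h01 _).1,
    Finset.prod_le_one (fun c _ => (h01 _).1) fun c _ => (h01 _).2⟩

theorem cl_lip (X Y : Fin K × Fin n → Space) (c : Fin K) : dist (cl X c) (cl Y c) ≤ dist X Y := by
  rw [dist_pi_le_iff dist_nonneg]
  intro j
  exact dist_le_pi_dist X Y (c, j)

theorem prodState_lip {φ : (Fin n → Space) → ℝ} {C : ℝ≥0} (hφ : LipschitzWith C φ)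
    (h01 : ∀ x, 0 ≤ φ x ∧ φ x ≤ 1) :
    LipschitzWith (K * C) (prodState φ : (Fin K × Fin n → Space) → ℝ) := by
  refine LipschitzWith.of_dist_le_mul fun X Y => ?_
  rw [Real.dist_eq]
  refine (abs_prod_sub_prod_le _ _ _ (fun c _ => h01 _) (fun c _ => h01 _)).trans ?_
  have h1 : ∀ c ∈ (Finset.univ : Finset (Fin K)), |φ (cl X c) - φ (cl Y c)| ≤ C * dist X Y := by
    intro c _
    rw [← Real.dist_eq]
    exact (hφ.dist_le_mul _ _).trans (mul_le_mul_of_nonneg_left (cl_lip X Y c) C.2)
  refine (Finset.sum_le_sum h1).trans (le_of_eq ?_)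
  rw [Finset.sum_const, Finset.card_univ, Fintype.card_fin, nsmul_eq_mul]
  push_cast
  ring

theorem prodState_compact {φ : (Fin n → Space) → ℝ} (hc : HasCompactSupport φ) :
    HasCompactSupport (prodState φ : (Fin K × Fin n → Space) → ℝ) := by
  obtain ⟨R, hR⟩ := hc.isCompact.isBounded.subset_closedBall (0 : Fin n → Space)
  refine HasCompactSupport.of_support_subset_isCompact
    (isCompact_closedBall (0 : Fin K × Fin n → Space) (|R|)) ?_
  intro X hX
  rw [Metric.mem_closedBall, dist_zero_right, pi_norm_le_iff_of_nonneg (abs_nonneg _)]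
  rintro ⟨c, j⟩
  have h1 : φ (cl X c) ≠ 0 := by
    intro h
    exact hX (Finset.prod_eq_zero (Finset.mem_univ c) h)
  have h2 := hR (subset_tsupport _ h1)
  rw [Metric.mem_closedBall, dist_zero_right] at h2
  exact ((norm_le_pi_norm (cl X c) j).trans h2).trans (le_abs_self R)

theorem cm_lip (hn : 0 < n) (X Y : Fin K × Fin n → Space) : dist (cm X) (cm Y) ≤ dist X Y := by
  rw [dist_pi_le_iff dist_nonneg]
  intro c
  have hn' : (0 : ℝ) < n := by exact_mod_cast hn
  rw [dist_eq_norm]
  simp only [cm]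
  rw [← smul_sub, ← Finset.sum_sub_distrib, norm_smul, Real.norm_eq_abs,
    abs_of_pos (by positivity)]
  have h1 : ‖∑ j : Fin n, (X (c, j) - Y (c, j))‖ ≤ n * dist X Y := by
    refine (norm_sum_le _ _).trans ?_
    have h2 : ∀ j ∈ (Finset.univ : Finset (Fin n)), ‖X (c, j) - Y (c, j)‖ ≤ dist X Y := by
      intro j _
      rw [← dist_eq_norm]
      exact dist_le_pi_dist X Y (c, j)
    refine (Finset.sum_le_sum h2).trans (le_of_eq ?_)
    simp
  calc 1 / (n : ℝ) * ‖∑ j : Fin n, (X (c, j) - Y (c, j))‖ ≤ 1 / (n : ℝ) * (n * dist X Y) := by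
        gcongr
    _ = dist X Y := by field_simp

/-- In a clique all particles are at distance at most one from the centre of mass. -/
theorem norm_sub_cm_le (hn : 0 < n) {X : Fin K × Fin n → Space} {c : Fin K}
    (h : ∀ i j : Fin n, i ≠ j → ‖X (c, i) - X (c, j)‖ ≤ 1) (j : Fin n) :
    ‖X (c, j) - cm X c‖ ≤ 1 := by
  have hn' : (0 : ℝ) < n := by exact_mod_cast hn
  have e : X (c, j) - cm X c = (1 / (n : ℝ)) • ∑ i, (X (c, j) - X (c, i)) := by
    simp only [cm]
    rw [Finset.sum_sub_distrib, Finset.sum_const, Finset.card_univ, Fintype.card_fin, smul_sub,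
      ← Nat.cast_smul_eq_nsmul ℝ, smul_smul, one_div, inv_mul_cancel₀ hn'.ne', one_smul]
  rw [e, norm_smul, Real.norm_eq_abs, abs_of_pos (by positivity)]
  have h1 : ‖∑ i, (X (c, j) - X (c, i))‖ ≤ n := by
    refine (norm_sum_le _ _).trans ?_
    have h2 : ∀ i ∈ (Finset.univ : Finset (Fin n)), ‖X (c, j) - X (c, i)‖ ≤ 1 := by
      intro i _
      by_cases hij : j = i
      · subst hij; simp
      · exact h j i hij
    refine (Finset.sum_le_sum h2).trans (le_of_eq ?_)
    simp
  calc 1 / (n : ℝ) * ‖∑ i, (X (c, j) - X (c, i))‖ ≤ 1 / (n : ℝ) * n := by gcongr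
    _ = 1 := by field_simp

theorem GS_univ_far {L : ℝ} {y : Fin K → Space} (h : GS L Finset.univ y ≠ 0) {c c' : Fin K}
    (hcc : c ≠ c') : 12 < ‖y c - y c'‖ := by
  have key : ∀ c c' : Fin K, c < c' → 12 < ‖y c - y c'‖ := by
    intro c c' hlt
    by_contra hle
    rw [not_lt] at hle
    apply h
    unfold GS
    have : ∏ p ∈ (Finset.univ : Finset (Fin K)).offDiag, pf p y = 0 := by
      refine Finset.prod_eq_zero (i := (c, c')) ?_ ?_
      · rw [Finset.mem_offDiag]; exact ⟨Finset.mem_univ _, Finset.mem_univ _, hlt.ne⟩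
      · rw [pf, if_pos hlt]; exact fcut_eq_zero hle
    rw [this, mul_zero]
  rcases lt_or_gt_of_ne hcc with hlt | hlt
  · exact key c c' hlt
  · rw [norm_sub_rev]; exact key c' c hlt

end Pool.Agent.helper84.Bose
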