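import Pool.Agent.helper84.BoseAdd

/-!
# Symmetrisation of trial functions
-/

open MeasureTheory Set Filter Topology
open scoped NNReal ENNReal

namespace Pool.Agent.helper84.Bose

variable {N : ℕ}

/-- The symmetrised function. -/
noncomputable def symF (Ψ : (Fin N → Space) → ℝ) (X : Fin N → Space) : ℝ :=
  √(∑ σ : Equiv.Perm (Fin N), Ψ (re σ X) ^ 2)

theorem symF_sq (Ψ : (Fin N → Space) → ℝ) (X : Fin N → Space) :
    symF Ψ X ^ 2 = ∑ σ : Equiv.Perm (Fin N), Ψ (re σ X) ^ 2 :=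
  Real.sq_sqrt (Finset.sum_nonneg fun _ _ => by positivity)

theorem symF_sub_sq (Ψ : (Fin N → Space) → ℝ) (X Y : Fin N → Space) :
    (symF Ψ X - symF Ψ Y) ^ 2 ≤ ∑ σ : Equiv.Perm (Fin N), (Ψ (re σ X) - Ψ (re σ Y)) ^ 2 := by
  set a : EuclideanSpace ℝ (Equiv.Perm (Fin N)) := WithLp.toLp 2 (fun σ => Ψ (re σ X)) with ha
  set b : EuclideanSpace ℝ (Equiv.Perm (Fin N)) := WithLp.toLp 2 (fun σ => Ψ (re σ Y)) with hb
  have h1 : symF Ψ X = ‖a‖ := by
    rw [EuclideanSpace.norm_eq, symF]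
    congr 1
    refine Finset.sum_congr rfl fun σ _ => ?_
    rw [Real.norm_eq_abs, sq_abs]
  have h2 : symF Ψ Y = ‖b‖ := by
    rw [EuclideanSpace.norm_eq, symF]
    congr 1
    refine Finset.sum_congr rfl fun σ _ => ?_
    rw [Real.norm_eq_abs, sq_abs]
  have h3 : |‖a‖ - ‖b‖| ≤ ‖a - b‖ := abs_norm_sub_norm_le a b
  have h4 : ‖a - b‖ ^ 2 = ∑ σ : Equiv.Perm (Fin N), (Ψ (re σ X) - Ψ (re σ Y)) ^ 2 := by
    rw [EuclideanSpace.norm_sq_eq]
    refine Finset.sum_congr rfl fun σ _ => ?_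
    rw [Real.norm_eq_abs, sq_abs]
    rfl
  rw [h1, h2, ← h4, ← sq_abs (‖a‖ - ‖b‖)]
  exact pow_le_pow_left₀ (abs_nonneg _) h3 2

theorem symF_symm (Ψ : (Fin N → Space) → ℝ) (τ : Equiv.Perm (Fin N)) (X : Fin N → Space) :
    symF Ψ (fun i => X (τ i)) = symF Ψ X := by
  unfold symF
  congr 1
  rw [← Equiv.sum_comp (Equiv.mulLeft τ) (fun σ => Ψ (re σ X) ^ 2)]
  rfl

theorem ub_energy {μ : ℝ} (hμ : 0 < μ) {v : ℝ → ℝ} {L E : ℝ} (h : UB μ v (Fin N) L E) :
    dirichletEnergy μ v N L ≤ (E : EReal) ∧ neumannEnergy μ v N L ≤ (E : EReal) := by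
  obtain ⟨Ψ, p, ⟨C, hC⟩, hc, hs, hpos, hE⟩ := h
  set F : (Fin N → Space) → ℂ := fun X => ((symF Ψ X : ℝ) : ℂ) with hF
  have hnorm : ∀ X, ‖F X‖ ^ 2 = ∑ σ : Equiv.Perm (Fin N), Ψ (re σ X) ^ 2 := by
    intro X
    rw [hF]
    simp only []
    rw [Complex.norm_real, Real.norm_eq_abs, sq_abs, symF_sq]
  have hsub : ∀ X Y, ‖F X - F Y‖ ^ 2 ≤
      ∑ σ : Equiv.Perm (Fin N), ‖Ψ (re σ X) - Ψ (re σ Y)‖ ^ 2 := by
    intro X Y
    rw [hF]
    simp only []
    rw [← Complex.ofReal_sub, Complex.norm_real, Real.norm_eq_abs, sq_abs]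
    refine (symF_sub_sq Ψ X Y).trans (le_of_eq ?_)
    refine Finset.sum_congr rfl fun σ _ => ?_
    rw [Real.norm_eq_abs, sq_abs]
  set f : ℕ := Fintype.card (Equiv.Perm (Fin N)) with hf
  have hf0 : (0 : ℝ) < f := by
    have : 0 < f := Fintype.card_pos
    exact_mod_cast this
  have hFlip : LipschitzWith (Real.toNNReal (√f * C)) F := by
    refine LipschitzWith.of_dist_le_mul fun X Y => ?_
    rw [dist_eq_norm, Real.coe_toNNReal _ (by positivity)]
    have h1 : ‖F X - F Y‖ ^ 2 ≤ (√f * C * dist X Y) ^ 2 := by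
      refine (hsub X Y).trans ?_
      have h2 : ∀ σ ∈ (Finset.univ : Finset (Equiv.Perm (Fin N))),
          ‖Ψ (re σ X) - Ψ (re σ Y)‖ ^ 2 ≤ (C * dist X Y) ^ 2 := by
        intro σ _
        refine pow_le_pow_left₀ (norm_nonneg _) ?_ 2
        rw [← dist_eq_norm]
        refine (hC.dist_le_mul _ _).trans (mul_le_mul_of_nonneg_left ?_ C.2)
        have := (re_lipschitz σ).dist_le_mul X Y
        rwa [NNReal.coe_one, one_mul] at this
      refine (Finset.sum_le_sum h2).trans (le_of_eq ?_)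
      rw [Finset.sum_const, Finset.card_univ, nsmul_eq_mul, ← hf, mul_assoc, mul_pow (√(f : ℝ)),
        Real.sq_sqrt hf0.le]
    exact (pow_le_pow_iff_left₀ (norm_nonneg _) (by positivity) (by norm_num)).1 h1
  have hzero : ∀ X, F X ≠ 0 → ∃ σ : Equiv.Perm (Fin N), Ψ (re σ X) ≠ 0 := by
    intro X hX
    by_contra hcon
    push Not at hcon
    apply hX
    have h1 := hnorm X
    simp only [hcon] at h1
    have h2 : ‖F X‖ ^ 2 = 0 := by rw [h1]; simp
    exact norm_eq_zero.1 (pow_eq_zero_iff (by norm_num) |>.1 h2)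
  have hFc : HasCompactSupport F := by
    obtain ⟨R, hR⟩ := hc.isCompact.isBounded.subset_closedBall (0 : Fin N → Space)
    refine HasCompactSupport.of_support_subset_isCompact
      (isCompact_closedBall (0 : Fin N → Space) |R|) ?_
    intro X hX
    obtain ⟨σ, hσ⟩ := hzero X hX
    have h1 := hR (subset_tsupport _ hσ)
    rw [Metric.mem_closedBall, dist_zero_right] at h1 ⊢
    rw [pi_norm_le_iff_of_nonneg (abs_nonneg _)]
    intro i
    have h2 := norm_le_pi_norm (re σ X) (σ.symm i)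
    have h3 : re σ X (σ.symm i) = X i := by simp [re]
    rw [h3] at h2
    exact (h2.trans h1).trans (le_abs_self R)
  have hsupp : ∀ X, F X ≠ 0 → X ∈ box N L ∧ potential v X = p := by
    intro X hX
    obtain ⟨σ, hσ⟩ := hzero X hX
    obtain ⟨h1, h2⟩ := hs _ hσ
    constructor
    · intro i
      have h3 := h1 (σ.symm i)
      have h4 : re σ X (σ.symm i) = X i := by simp [re]
      rw [h4] at h3
      exact h3
    · rw [pot2_re, pot2_eq_potential] at h2
      linarith
  have hbox0 : ∀ X, X ∉ box N L → F X = 0 := by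
    intro X hX
    by_contra h
    exact hX (hsupp X h).1
  have hpotF : ∀ X, potential v X * ‖F X‖ ^ 2 = p * ‖F X‖ ^ 2 := by
    intro X
    by_cases h : F X = 0
    · rw [h]; simp
    · rw [(hsupp X h).2]
  have hsymm : IsSymmetric F := by
    intro σ X
    rw [hF]
    simp only []
    rw [symF_symm]
  have iF : Integrable (fun X => ‖F X‖ ^ 2) := integrable_norm_sq hFlip.continuous hFc
  have hwave : IsWave v (box N L) F := by
    refine ⟨⟨_, hFlip⟩, hFc, ?_⟩
    simp only [hpotF]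
    exact (iF.const_mul p).integrableOn
  -- the integrals
  have iΨ : ∀ σ : Equiv.Perm (Fin N), Integrable (fun X => Ψ (re σ X) ^ 2) := by
    intro σ
    simpa [Real.norm_eq_abs, sq_abs] using
      integrable_norm_sq (ν := (volume : Measure (Fin N → Space)))
        (hC.comp (re_lipschitz σ)).continuous (re_compact σ hc)
  have hnF : ∫ X, ‖F X‖ ^ 2 = f * ∫ X, Ψ X ^ 2 := by
    simp only [hnorm]
    rw [integral_finsetSum _ fun σ _ => iΨ σ]
    have h1 : ∀ σ ∈ (Finset.univ : Finset (Equiv.Perm (Fin N))),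
        ∫ X, Ψ (re σ X) ^ 2 = ∫ X, Ψ X ^ 2 := fun σ _ => integral_re σ (fun X => Ψ X ^ 2)
    rw [Finset.sum_congr rfl h1, Finset.sum_const, Finset.card_univ, nsmul_eq_mul]
  have hkin : ∫ X, kinOn Finset.univ F X ≤ f * ∫ X, kinOn Finset.univ Ψ X := by
    have h1 : ∀ σ : Equiv.Perm (Fin N), Integrable (kinOn Finset.univ fun X => Ψ (re σ X)) :=
      fun σ => integrable_kinOn Finset.univ (hC.comp (re_lipschitz σ)) (re_compact σ hc)
    have h2 : ∫ X, kinOn Finset.univ F X ≤ ∫ X, ∑ σ : Equiv.Perm (Fin N),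
        kinOn Finset.univ (fun X => Ψ (re σ X)) X := by
      refine integral_mono_ae (integrable_kinOn _ hFlip hFc)
        (integrable_finsetSum _ fun σ _ => h1 σ) ?_
      have hdiff : ∀ᵐ X : Fin N → Space, ∀ (σ : Equiv.Perm (Fin N)) (i : Fin N) (k : Fin 3),
          LineDifferentiableAt ℝ (fun X => Ψ (re σ X)) X (dirG i k) := by
        rw [ae_all_iff]; intro σ; rw [ae_all_iff]; intro i; rw [ae_all_iff]; intro k
        exact ae_lineDiff (hC.comp (re_lipschitz σ)) _
      filter_upwards [hdiff] with X hX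
      unfold kinOn
      have e : ∑ σ : Equiv.Perm (Fin N), ∑ i : Fin N, ∑ k : Fin 3,
          ‖lineDeriv ℝ (fun X => Ψ (re σ X)) X (dirG i k)‖ ^ 2 =
          ∑ i : Fin N, ∑ k : Fin 3, ∑ σ : Equiv.Perm (Fin N),
          ‖lineDeriv ℝ (fun X => Ψ (re σ X)) X (dirG i k)‖ ^ 2 := by
        rw [Finset.sum_comm]
        exact Finset.sum_congr rfl fun i _ => Finset.sum_comm
      rw [e]
      refine Finset.sum_le_sum fun i _ => Finset.sum_le_sum fun k _ => ?_
      exact norm_lineDeriv_sq_le_sum (Finset.univ : Finset (Equiv.Perm (Fin N)))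
        (f := F) (g := fun σ X => Ψ (re σ X)) (fun σ _ => hX σ i k) (fun t => hsub _ _)
    refine h2.trans (le_of_eq ?_)
    rw [integral_finsetSum _ fun σ _ => h1 σ]
    have h3 : ∀ σ ∈ (Finset.univ : Finset (Equiv.Perm (Fin N))),
        ∫ X, kinOn Finset.univ (fun X => Ψ (re σ X)) X = ∫ X, kinOn Finset.univ Ψ X := by
      intro σ _
      simp_rw [kinOn_re σ Ψ]
      exact integral_re σ (fun X => kinOn Finset.univ Ψ X)
    rw [Finset.sum_congr rfl h3, Finset.sum_const, Finset.card_univ, nsmul_eq_mul]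
  have hnbox : normSq (box N L) F = f * ∫ X, Ψ X ^ 2 := by
    unfold normSq
    rw [setIntegral_eq_integral_of_forall_compl_eq_zero, hnF]
    intro X hX
    rw [hbox0 X hX]; simp
  have hnpos : 0 < normSq (box N L) F := by rw [hnbox]; positivity
  have hen : energy μ v (box N L) F ≤ E * normSq (box N L) F := by
    unfold energy
    simp only [hpotF]
    have ik : Integrable (fun X => kinOn Finset.univ F X) := integrable_kinOn _ hFlip hFc
    rw [gradSq_eq, integral_add (ik.const_mul μ).integrableOn (iF.const_mul p).integrableOn,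
      integral_const_mul, integral_const_mul]
    have h1 : ∫ X in box N L, kinOn Finset.univ F X ≤ ∫ X, kinOn Finset.univ F X :=
      setIntegral_le_integral ik (Eventually.of_forall fun X => kinOn_nonneg _ _ _)
    have h2 : ∫ X in box N L, ‖F X‖ ^ 2 = f * ∫ X, Ψ X ^ 2 := hnbox
    rw [h2, hnbox]
    have h3 := mul_le_mul_of_nonneg_left (h1.trans hkin) hμ.le
    have h4 := mul_le_mul_of_nonneg_left hE hf0.le
    nlinarith
  have hratio : energy μ v (box N L) F / normSq (box N L) F ≤ E := by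
    rw [div_le_iff₀ hnpos]; exact hen
  constructor
  · unfold dirichletEnergy
    refine (iInf_le _ ⟨F, hwave, hsymm, hbox0, hnpos⟩).trans ?_
    exact_mod_cast hratio
  · unfold neumannEnergy
    refine (iInf_le _ ⟨F, hwave, hsymm, hnpos⟩).trans ?_
    exact_mod_cast hratio

end Pool.Agent.helper84.Bose
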