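import Pool.Agent.helper84.BoseJastrow3

/-!
# Averaging over translations of the clusters
-/

open MeasureTheory Set Filter Topology
open scoped NNReal ENNReal

namespace Pool.Agent.helper84.Bose

variable {K n : ℕ}

/-- translate the clusters -/
def hatz (z : Fin K → Space) : Fin K × Fin n → Space := fun p => z p.1

/-- centres of the clusters -/
noncomputable def cm (X : Fin K × Fin n → Space) : Fin K → Space :=
  fun c => (1 / (n : ℝ)) • ∑ j, X (c, j)

theorem cm_add (X X' : Fin K × Fin n → Space) : cm (X + X') = cm X + cm X' := by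
  ext c l
  simp only [cm, Pi.add_apply, Finset.sum_add_distrib, smul_add]

theorem cm_smul (t : ℝ) (X : Fin K × Fin n → Space) : cm (t • X) = t • cm X := by
  ext c l
  simp only [cm, Pi.smul_apply, ← Finset.smul_sum]
  rw [smul_comm]

theorem cm_hatz (hn : 0 < n) (z : Fin K → Space) : cm (hatz z : Fin K × Fin n → Space) = z := by
  ext c l
  simp only [cm, hatz, Finset.sum_const, Finset.card_univ, Fintype.card_fin]
  rw [← Nat.cast_smul_eq_nsmul ℝ, smul_smul, one_div, inv_mul_cancel₀, one_smul]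
  positivity

theorem cm_dirG (c : Fin K) (j : Fin n) (k : Fin 3) :
    cm (dirG (c, j) k) = (1 / (n : ℝ)) • dirG c k := by
  ext c' l
  simp only [cm, Pi.smul_apply, dirG]
  by_cases h : c' = c
  · subst h
    rw [Finset.sum_eq_single j]
    · simp
    · intro b _ hb
      rw [Pi.single_eq_of_ne]
      intro h
      exact hb (Prod.ext_iff.1 h).2
    · intro h
      exact absurd (Finset.mem_univ _) h
  · rw [Pi.single_eq_of_ne h, Finset.sum_eq_zero]
    intro b _
    rw [Pi.single_eq_of_ne]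
    intro h'
    exact h (Prod.ext_iff.1 h').1

theorem continuous_hatz : Continuous (hatz : (Fin K → Space) → (Fin K × Fin n → Space)) := by
  unfold hatz; fun_prop

theorem continuous_cm : Continuous (cm : (Fin K × Fin n → Space) → (Fin K → Space)) := by
  unfold cm; fun_prop

/-- the change of variables -/
noncomputable def shear (w : (Fin K × Fin n → Space) × (Fin K → Space)) :
    (Fin K × Fin n → Space) × (Fin K → Space) := (w.1 + hatz w.2, cm w.1)

theorem shear_measurePreserving (hn : 0 < n) :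
    MeasurePreserving (shear : (Fin K × Fin n → Space) × (Fin K → Space) → _)
      (volume.prod volume) (volume.prod volume) := by
  have h1 : MeasurePreserving (fun w : (Fin K → Space) × (Fin K × Fin n → Space) =>
      (w.1, w.2 + hatz w.1)) (volume.prod volume) (volume.prod volume) := by
    refine MeasurePreserving.skew_product (f := id) (MeasurePreserving.id _)
      (g := fun z X => X + hatz z) ?_ ?_
    · exact (continuous_snd.add (continuous_hatz.comp continuous_fst)).measurable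
    · exact Eventually.of_forall fun z => (measurePreserving_add_right volume (hatz z)).map_eq
  have h2 : MeasurePreserving (fun w : (Fin K × Fin n → Space) × (Fin K → Space) =>
      (w.1, cm w.1 - w.2)) (volume.prod volume) (volume.prod volume) := by
    refine MeasurePreserving.skew_product (f := id) (MeasurePreserving.id _)
      (g := fun X z => cm X - z) ?_ ?_
    · exact ((continuous_cm.comp continuous_fst).sub continuous_snd).measurable
    · exact Eventually.of_forall fun X => (volume_preserving_pi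
        (f := fun c : Fin K => fun x : Space => cm X c - x)
        (fun c => Measure.measurePreserving_sub_left volume (cm X c))).map_eq
  have h3 := h2.comp ((Measure.measurePreserving_swap).comp
    (h1.comp (Measure.measurePreserving_swap)))
  have h4 : (shear : (Fin K × Fin n → Space) × (Fin K → Space) → _) =
      (fun w : (Fin K × Fin n → Space) × (Fin K → Space) => (w.1, cm w.1 - w.2)) ∘
        (Prod.swap ∘ ((fun w : (Fin K → Space) × (Fin K × Fin n → Space) =>
          (w.1, w.2 + hatz w.1)) ∘ Prod.swap)) := by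
    funext w
    simp only [shear, Function.comp_apply, Prod.swap, cm_add, cm_hatz hn, add_sub_cancel_right]
  rw [h4]
  exact h3

/-- The trial function. -/
noncomputable def trial (Φ : (Fin K × Fin n → Space) → ℝ) (G : (Fin K → Space) → ℝ)
    (z : Fin K → Space) (X : Fin K × Fin n → Space) : ℝ := Φ (X + hatz z) * G (cm X)

theorem lineDeriv_trial {Φ : (Fin K × Fin n → Space) → ℝ} {G : (Fin K → Space) → ℝ}
    {z : Fin K → Space} {X : Fin K × Fin n → Space} {c : Fin K} {j : Fin n} {k : Fin 3}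
    (hΦ : LineDifferentiableAt ℝ Φ (X + hatz z) (dirG (c, j) k))
    (hG : LineDifferentiableAt ℝ G (cm X) (dirG c k)) :
    lineDeriv ℝ (trial Φ G z) X (dirG (c, j) k) =
      lineDeriv ℝ Φ (X + hatz z) (dirG (c, j) k) * G (cm X) +
        Φ (X + hatz z) * (lineDeriv ℝ G (cm X) (dirG c k) * (1 / (n : ℝ))) := by
  have h1 : HasDerivAt (fun t : ℝ => Φ (X + hatz z + t • dirG (c, j) k))
      (lineDeriv ℝ Φ (X + hatz z) (dirG (c, j) k)) 0 := hΦ.hasLineDerivAt
  have h2 : HasDerivAt (fun t : ℝ => G (cm X + t • dirG c k))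
      (lineDeriv ℝ G (cm X) (dirG c k)) (0 * (1 / (n : ℝ))) := by
    rw [zero_mul]; exact hG.hasLineDerivAt
  have h3 : HasDerivAt (fun t : ℝ => t * (1 / (n : ℝ))) (1 * (1 / (n : ℝ))) 0 :=
    (hasDerivAt_id 0).mul_const _
  have h4 : HasDerivAt (fun t : ℝ => G (cm X + (t * (1 / (n : ℝ))) • dirG c k))
      (lineDeriv ℝ G (cm X) (dirG c k) * (1 * (1 / (n : ℝ)))) 0 :=
    HasDerivAt.comp (h₂ := fun t : ℝ => G (cm X + t • dirG c k)) (0 : ℝ) h2 h3
  have h5 := h1.mul h4
  have h6 : (fun t : ℝ => trial Φ G z (X + t • dirG (c, j) k)) =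
      (fun t : ℝ => Φ (X + hatz z + t • dirG (c, j) k)) *
        fun t : ℝ => G (cm X + (t * (1 / (n : ℝ))) • dirG c k) := by
    ext t
    simp only [trial, Pi.mul_apply, cm_add, cm_smul, cm_dirG, smul_smul]
    congr 2
    abel
  have h7 : HasLineDerivAt ℝ (trial Φ G z) (lineDeriv ℝ Φ (X + hatz z) (dirG (c, j) k) *
      G (cm X + ((0 : ℝ) * (1 / (n : ℝ))) • dirG c k) +
      Φ (X + hatz z + (0 : ℝ) • dirG (c, j) k) *
        (lineDeriv ℝ G (cm X) (dirG c k) * (1 * (1 / (n : ℝ))))) X (dirG (c, j) k) := by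
    unfold HasLineDerivAt
    rw [h6]
    exact h5
  rw [h7.lineDeriv]
  simp

theorem integral_mul_lineDeriv_self {V : Type*} [NormedAddCommGroup V] [NormedSpace ℝ V]
    [FiniteDimensional ℝ V] [MeasurableSpace V] [BorelSpace V] {ν : Measure V}
    [Measure.IsAddHaarMeasure ν] {C : ℝ≥0} {g : V → ℝ} (hg : LipschitzWith C g)
    (hc : HasCompactSupport g) (w : V) : ∫ x, g x * lineDeriv ℝ g x w ∂ν = 0 := by
  have h := hg.integral_lineDeriv_mul_eq (μ := ν) hg hc w
  have h2 : ∫ x, lineDeriv ℝ g x (-w) * g x ∂ν = -∫ x, lineDeriv ℝ g x w * g x ∂ν := by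
    rw [← integral_neg]
    refine integral_congr_ae (Eventually.of_forall fun x => ?_)
    simp only [lineDeriv_neg]
    ring
  rw [h2] at h
  have h3 : ∫ x, g x * lineDeriv ℝ g x w ∂ν = ∫ x, lineDeriv ℝ g x w * g x ∂ν :=
    integral_congr_ae (Eventually.of_forall fun x => mul_comm _ _)
  rw [h3]
  linarith

theorem integrable_mul_lineDeriv {V : Type*} [NormedAddCommGroup V] [NormedSpace ℝ V]
    [FiniteDimensional ℝ V] [MeasurableSpace V] [BorelSpace V] {ν : Measure V}
    [Measure.IsAddHaarMeasure ν] {C : ℝ≥0} {g : V → ℝ} (hg : LipschitzWith C g)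
    (hc : HasCompactSupport g) (w : V) : Integrable (fun x => g x * lineDeriv ℝ g x w) ν := by
  have h1 : Integrable g ν := hg.continuous.integrable_of_hasCompactSupport hc
  have h2 : Integrable (fun x => lineDeriv ℝ g x w * g x) ν := by
    refine Integrable.bdd_mul (c := C * ‖w‖) h1 ?_ ?_
    · exact aestronglyMeasurable_lineDeriv hg.continuous ν
    · exact Eventually.of_forall fun x => norm_lineDeriv_le_of_lipschitz ℝ hg
  exact h2.congr (Eventually.of_forall fun x => mul_comm _ _)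

section Main

variable {Φ : (Fin K × Fin n → Space) → ℝ} {G : (Fin K → Space) → ℝ} {CΦ CG : ℝ≥0}

/-- The energy density in the new variables. -/
noncomputable def dens (μ E' : ℝ) (Φ : (Fin K × Fin n → Space) → ℝ) (G : (Fin K → Space) → ℝ)
    (w : (Fin K × Fin n → Space) × (Fin K → Space)) : ℝ :=
  μ * (∑ p : Fin K × Fin n, ∑ k : Fin 3,
    (lineDeriv ℝ Φ w.1 (dirG p k) * G w.2 +
      Φ w.1 * (lineDeriv ℝ G w.2 (dirG p.1 k) * (1 / (n : ℝ)))) ^ 2) -
    E' * (Φ w.1 ^ 2 * G w.2 ^ 2)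

theorem dens_expand (μ E' : ℝ) (w : (Fin K × Fin n → Space) × (Fin K → Space)) :
    dens μ E' Φ G w =
    μ * (∑ p : Fin K × Fin n, ∑ k : Fin 3,
      (‖lineDeriv ℝ Φ w.1 (dirG p k)‖ ^ 2 * G w.2 ^ 2 +
        ((2 / (n : ℝ)) * ((Φ w.1 * lineDeriv ℝ Φ w.1 (dirG p k)) *
          (G w.2 * lineDeriv ℝ G w.2 (dirG p.1 k))) +
        (1 / (n : ℝ) ^ 2) * (Φ w.1 ^ 2 * ‖lineDeriv ℝ G w.2 (dirG p.1 k)‖ ^ 2)))) -
    E' * (Φ w.1 ^ 2 * G w.2 ^ 2) := by
  unfold dens
  congr 2
  refine Finset.sum_congr rfl fun p _ => Finset.sum_congr rfl fun k _ => ?_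
  rw [Real.norm_eq_abs, sq_abs, Real.norm_eq_abs, sq_abs]
  ring

variable (hΦ : LipschitzWith CΦ Φ) (hΦc : HasCompactSupport Φ)
  (hG : LipschitzWith CG G) (hGc : HasCompactSupport G)
include hΦ hΦc hG hGc

theorem integrable_dens (μ E' : ℝ) :
    Integrable (dens μ E' Φ G) (volume.prod volume) ∧
    ∫ w, dens μ E' Φ G w ∂(volume.prod volume) =
      μ * ((∫ X, kinOn Finset.univ Φ X) * ∫ y, G y ^ 2) +
      μ * ((1 / (n : ℝ)) * ((∫ X, Φ X ^ 2) * ∫ y, kinOn Finset.univ G y)) -
      E' * ((∫ X, Φ X ^ 2) * ∫ y, G y ^ 2) := by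
  have iΦ : Integrable (fun X => Φ X ^ 2) := by
    simpa [Real.norm_eq_abs, sq_abs] using
      integrable_norm_sq (ν := (volume : Measure (Fin K × Fin n → Space))) hΦ.continuous hΦc
  have iG : Integrable (fun y => G y ^ 2) := by
    simpa [Real.norm_eq_abs, sq_abs] using
      integrable_norm_sq (ν := (volume : Measure (Fin K → Space))) hG.continuous hGc
  have i1 : ∀ (p : Fin K × Fin n) (k : Fin 3), Integrable (fun w : (Fin K × Fin n → Space) ×
      (Fin K → Space) => ‖lineDeriv ℝ Φ w.1 (dirG p k)‖ ^ 2 * G w.2 ^ 2) (volume.prod volume) :=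
    fun p k => (integrable_lineDeriv_sq hΦ hΦc (dirG p k)).mul_prod iG
  have i2 : ∀ (p : Fin K × Fin n) (k : Fin 3), Integrable (fun w : (Fin K × Fin n → Space) ×
      (Fin K → Space) => (2 / (n : ℝ)) * ((Φ w.1 * lineDeriv ℝ Φ w.1 (dirG p k)) *
          (G w.2 * lineDeriv ℝ G w.2 (dirG p.1 k)))) (volume.prod volume) :=
    fun p k => ((integrable_mul_lineDeriv hΦ hΦc (dirG p k)).mul_prod
      (integrable_mul_lineDeriv hG hGc (dirG p.1 k))).const_mul _
  have i3 : ∀ (p : Fin K × Fin n) (k : Fin 3), Integrable (fun w : (Fin K × Fin n → Space) ×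
      (Fin K → Space) => (1 / (n : ℝ) ^ 2) * (Φ w.1 ^ 2 *
        ‖lineDeriv ℝ G w.2 (dirG p.1 k)‖ ^ 2)) (volume.prod volume) :=
    fun p k => (iΦ.mul_prod (integrable_lineDeriv_sq hG hGc (dirG p.1 k))).const_mul _
  have i4 : Integrable (fun w : (Fin K × Fin n → Space) × (Fin K → Space) =>
      E' * (Φ w.1 ^ 2 * G w.2 ^ 2)) (volume.prod volume) := (iΦ.mul_prod iG).const_mul _
  have i23 : ∀ (p : Fin K × Fin n) (k : Fin 3), Integrable (fun w : (Fin K × Fin n → Space) ×
      (Fin K → Space) => (2 / (n : ℝ)) * ((Φ w.1 * lineDeriv ℝ Φ w.1 (dirG p k)) *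
          (G w.2 * lineDeriv ℝ G w.2 (dirG p.1 k))) + (1 / (n : ℝ) ^ 2) * (Φ w.1 ^ 2 *
        ‖lineDeriv ℝ G w.2 (dirG p.1 k)‖ ^ 2)) (volume.prod volume) :=
    fun p k => (i2 p k).add (i3 p k)
  have i123 : ∀ (p : Fin K × Fin n) (k : Fin 3), Integrable (fun w : (Fin K × Fin n → Space) ×
      (Fin K → Space) => ‖lineDeriv ℝ Φ w.1 (dirG p k)‖ ^ 2 * G w.2 ^ 2 +
        ((2 / (n : ℝ)) * ((Φ w.1 * lineDeriv ℝ Φ w.1 (dirG p k)) *
          (G w.2 * lineDeriv ℝ G w.2 (dirG p.1 k))) + (1 / (n : ℝ) ^ 2) * (Φ w.1 ^ 2 *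
        ‖lineDeriv ℝ G w.2 (dirG p.1 k)‖ ^ 2))) (volume.prod volume) :=
    fun p k => (i1 p k).add (i23 p k)
  have iS : Integrable (fun w : (Fin K × Fin n → Space) × (Fin K → Space) =>
      μ * (∑ p : Fin K × Fin n, ∑ k : Fin 3,
      (‖lineDeriv ℝ Φ w.1 (dirG p k)‖ ^ 2 * G w.2 ^ 2 +
        ((2 / (n : ℝ)) * ((Φ w.1 * lineDeriv ℝ Φ w.1 (dirG p k)) *
          (G w.2 * lineDeriv ℝ G w.2 (dirG p.1 k))) +
        (1 / (n : ℝ) ^ 2) * (Φ w.1 ^ 2 * ‖lineDeriv ℝ G w.2 (dirG p.1 k)‖ ^ 2)))))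
      (volume.prod volume) :=
    (integrable_finsetSum _ fun p _ => integrable_finsetSum _ fun k _ => i123 p k).const_mul μ
  have hfun : dens μ E' Φ G = fun w => μ * (∑ p : Fin K × Fin n, ∑ k : Fin 3,
      (‖lineDeriv ℝ Φ w.1 (dirG p k)‖ ^ 2 * G w.2 ^ 2 +
        ((2 / (n : ℝ)) * ((Φ w.1 * lineDeriv ℝ Φ w.1 (dirG p k)) *
          (G w.2 * lineDeriv ℝ G w.2 (dirG p.1 k))) +
        (1 / (n : ℝ) ^ 2) * (Φ w.1 ^ 2 * ‖lineDeriv ℝ G w.2 (dirG p.1 k)‖ ^ 2)))) -
    E' * (Φ w.1 ^ 2 * G w.2 ^ 2) := by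
    ext w
    exact dens_expand μ E' w
  rw [hfun]
  refine ⟨iS.sub i4, ?_⟩
  rw [integral_sub iS i4, integral_const_mul, integral_const_mul, integral_prod_mul
    (fun X => Φ X ^ 2) (fun y => G y ^ 2)]
  congr 1
  rw [← mul_add]
  congr 1
  rw [integral_finsetSum _ (fun p _ => integrable_finsetSum _ fun k _ => i123 p k)]
  have hterm : ∀ (p : Fin K × Fin n), ∫ w : (Fin K × Fin n → Space) × (Fin K → Space),
      ∑ k : Fin 3, (‖lineDeriv ℝ Φ w.1 (dirG p k)‖ ^ 2 * G w.2 ^ 2 +
        ((2 / (n : ℝ)) * ((Φ w.1 * lineDeriv ℝ Φ w.1 (dirG p k)) *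
          (G w.2 * lineDeriv ℝ G w.2 (dirG p.1 k))) +
        (1 / (n : ℝ) ^ 2) * (Φ w.1 ^ 2 * ‖lineDeriv ℝ G w.2 (dirG p.1 k)‖ ^ 2)))
        ∂(volume.prod volume) =
      (∫ X, ∑ k : Fin 3, ‖lineDeriv ℝ Φ X (dirG p k)‖ ^ 2) * (∫ y, G y ^ 2) +
      (1 / (n : ℝ) ^ 2) * ((∫ X, Φ X ^ 2) *
        ∫ y, ∑ k : Fin 3, ‖lineDeriv ℝ G y (dirG p.1 k)‖ ^ 2) := by
    intro p
    rw [integral_finsetSum _ (fun k _ => i123 p k),
      integral_finsetSum _ (fun k _ => integrable_lineDeriv_sq hΦ hΦc _),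
      integral_finsetSum _ (fun k _ => integrable_lineDeriv_sq hG hGc _),
      Finset.sum_mul, Finset.mul_sum, Finset.mul_sum, ← Finset.sum_add_distrib]
    refine Finset.sum_congr rfl fun k _ => ?_
    rw [integral_add (i1 p k) (i23 p k), integral_add (i2 p k) (i3 p k), integral_const_mul,
      integral_const_mul, integral_prod_mul (fun X => ‖lineDeriv ℝ Φ X (dirG p k)‖ ^ 2)
      (fun y => G y ^ 2), integral_prod_mul (fun X => Φ X * lineDeriv ℝ Φ X (dirG p k))
      (fun y => G y * lineDeriv ℝ G y (dirG p.1 k)), integral_prod_mul (fun X => Φ X ^ 2)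
      (fun y => ‖lineDeriv ℝ G y (dirG p.1 k)‖ ^ 2),
      integral_mul_lineDeriv_self hG hGc]
    ring
  rw [Finset.sum_congr rfl fun p _ => hterm p, Finset.sum_add_distrib, ← Finset.sum_mul]
  congr 1
  · congr 1
    unfold kinOn
    rw [integral_finsetSum]
    intro p _
    exact integrable_finsetSum _ fun k _ => integrable_lineDeriv_sq hΦ hΦc _
  · have hK : ∫ y, kinOn Finset.univ G y =
        ∑ c : Fin K, ∫ y, ∑ k : Fin 3, ‖lineDeriv ℝ G y (dirG c k)‖ ^ 2 := by
      unfold kinOn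
      rw [integral_finsetSum]
      intro p _
      exact integrable_finsetSum _ fun k _ => integrable_lineDeriv_sq hG hGc _
    rw [hK, Fintype.sum_prod_type]
    simp only [Finset.sum_const, Finset.card_univ, Fintype.card_fin, nsmul_eq_mul]
    rw [Finset.mul_sum, Finset.mul_sum]
    refine Finset.sum_congr rfl fun c _ => ?_
    rcases Nat.eq_zero_or_pos n with h0 | h0
    · subst h0; simp
    · have : (n : ℝ) ≠ 0 := by positivity
      field_simp

theorem exists_trial (hn : 0 < n) {μ E' : ℝ}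
    (h : μ * ((∫ X, kinOn Finset.univ Φ X) * ∫ y, G y ^ 2) +
      μ * ((1 / (n : ℝ)) * ((∫ X, Φ X ^ 2) * ∫ y, kinOn Finset.univ G y)) <
      E' * ((∫ X, Φ X ^ 2) * ∫ y, G y ^ 2))
    (hTL : ∀ z, ∃ C : ℝ≥0, LipschitzWith C (trial Φ G z))
    (hTc : ∀ z, HasCompactSupport (trial Φ G z)) :
    ∃ z, μ * (∫ X, kinOn Finset.univ (trial Φ G z) X) < E' * ∫ X, trial Φ G z X ^ 2 := by
  obtain ⟨hI, hval⟩ := integrable_dens hΦ hΦc hG hGc μ E'
  have hmp := shear_measurePreserving (K := K) hn
  have hneg : ∫ w, dens μ E' Φ G w ∂(volume.prod volume) < 0 := by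
    rw [hval]; linarith
  by_contra hcon
  push Not at hcon
  have hIs : Integrable (fun w => dens μ E' Φ G (shear w)) (volume.prod volume) :=
    (hmp.integrable_comp hI.aestronglyMeasurable).2 hI
  have hval2 : ∫ w, dens μ E' Φ G (shear w) ∂(volume.prod volume) =
      ∫ w, dens μ E' Φ G w ∂(volume.prod volume) := by
    have h1 := integral_map (μ := (volume : Measure (Fin K × Fin n → Space)).prod
      (volume : Measure (Fin K → Space))) (φ := shear) hmp.measurable.aemeasurable
      (f := dens μ E' Φ G) (by rw [hmp.map_eq]; exact hI.aestronglyMeasurable)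
    rw [hmp.map_eq] at h1
    exact h1.symm
  -- almost everywhere identification
  have hdiffΦ : ∀ᵐ X : Fin K × Fin n → Space, ∀ p k, LineDifferentiableAt ℝ Φ X (dirG p k) := by
    rw [ae_all_iff]; intro p; rw [ae_all_iff]; intro k
    exact ae_lineDiff hΦ _
  have hdiffG : ∀ᵐ y : Fin K → Space, ∀ c k, LineDifferentiableAt ℝ G y (dirG c k) := by
    rw [ae_all_iff]; intro p; rw [ae_all_iff]; intro k
    exact ae_lineDiff hG _
  have hdiff : ∀ᵐ w ∂((volume : Measure (Fin K × Fin n → Space)).prod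
      (volume : Measure (Fin K → Space))),
      (∀ p k, LineDifferentiableAt ℝ Φ w.1 (dirG p k)) ∧
      ∀ c k, LineDifferentiableAt ℝ G w.2 (dirG c k) := by
    have h1 := (Measure.quasiMeasurePreserving_fst (μ := (volume : Measure (Fin K × Fin n →
      Space))) (ν := (volume : Measure (Fin K → Space)))).ae hdiffΦ
    have h2 := (Measure.quasiMeasurePreserving_snd (μ := (volume : Measure (Fin K × Fin n →
      Space))) (ν := (volume : Measure (Fin K → Space)))).ae hdiffG
    exact h1.and h2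
  have hdiff2 := hmp.quasiMeasurePreserving.ae hdiff
  have hpt : ∀ᵐ w ∂((volume : Measure (Fin K × Fin n → Space)).prod
      (volume : Measure (Fin K → Space))), dens μ E' Φ G (shear w) =
      μ * kinOn Finset.univ (trial Φ G w.2) w.1 - E' * trial Φ G w.2 w.1 ^ 2 := by
    filter_upwards [hdiff2] with w hw
    unfold dens kinOn
    congr 2
    · refine Finset.sum_congr rfl fun p _ => Finset.sum_congr rfl fun k _ => ?_
      rw [Real.norm_eq_abs, sq_abs, lineDeriv_trial (c := p.1) (j := p.2) (hw.1 p k)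
        (hw.2 p.1 k)]
      rfl
    · simp only [trial, shear]
      ring
  have hpt2 : ∀ᵐ z : Fin K → Space, ∀ᵐ X : Fin K × Fin n → Space, dens μ E' Φ G (shear (X, z)) =
      μ * kinOn Finset.univ (trial Φ G z) X - E' * trial Φ G z X ^ 2 := by
    have h1 := (Measure.measurePreserving_swap (μ := (volume : Measure (Fin K → Space)))
      (ν := (volume : Measure (Fin K × Fin n → Space)))).quasiMeasurePreserving.ae hpt
    exact Measure.ae_ae_of_ae_prod h1
  rw [← hval2, integral_prod_symm _ hIs] at hneg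
  have hnonneg : 0 ≤ ∫ z : Fin K → Space, ∫ X : Fin K × Fin n → Space,
      dens μ E' Φ G (shear (X, z)) := by
    refine integral_nonneg_of_ae ?_
    filter_upwards [hpt2] with z hz
    rw [integral_congr_ae hz]
    obtain ⟨C, hC⟩ := hTL z
    have i1 : Integrable (fun X => μ * kinOn Finset.univ (trial Φ G z) X) :=
      (integrable_kinOn _ hC (hTc z)).const_mul _
    have i2 : Integrable (fun X => E' * trial Φ G z X ^ 2) := by
      have := (integrable_norm_sq (ν := (volume : Measure (Fin K × Fin n → Space)))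
        hC.continuous (hTc z)).const_mul E'
      simpa [Real.norm_eq_abs, sq_abs] using this
    rw [integral_sub i1 i2, integral_const_mul, integral_const_mul]
    have := hcon z
    simp only [Pi.zero_apply]
    linarith
  linarith

end Main

end Pool.Agent.helper84.Bose
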