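import Pool.Agent.helper84.BoseProd

/-!
# Upper bound for the gas of cliques
-/

open MeasureTheory Set Filter Topology
open scoped NNReal ENNReal

namespace Pool.Agent.helper84.Bose

/-- An upper bound `E` for the Dirichlet energy in `(0,L)³`, by a real trial function (not
necessarily symmetric) on whose support the potential energy is constant. -/
def UB (μ : ℝ) (v : ℝ → ℝ) (ι : Type) [Fintype ι] [DecidableEq ι] (L E : ℝ) : Prop :=
  ∃ (Ψ : (ι → Space) → ℝ) (p : ℝ), (∃ C : ℝ≥0, LipschitzWith C Ψ) ∧ HasCompactSupport Ψ ∧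
    (∀ X, Ψ X ≠ 0 → (∀ i, X i ∈ cube 0 L) ∧ pot2 v X = 2 * p) ∧ 0 < ∫ X, Ψ X ^ 2 ∧
    μ * (∫ X, kinOn Finset.univ Ψ X) + p * ∫ X, Ψ X ^ 2 ≤ E * ∫ X, Ψ X ^ 2

section Clusters

variable {K n : ℕ}

theorem GS_pos {L : ℝ} (hL : 4 ≤ L) (hD : 0 < freeVol K L) (S : Finset (Fin K)) :
    ∃ y : Fin K → Space, GS L S y ≠ 0 := by
  induction S using Finset.induction_on with
  | empty => exact ⟨0, by simp [GS]⟩
  | insert c S hc ih =>
    obtain ⟨y, hy⟩ := ih
    have h1 := lintegral_BS_ge hL hc y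
    have h2 : ∫⁻ x, ENNReal.ofReal (BS L c S (Function.update y c x) ^ 2) ≠ 0 := by
      intro h
      rw [h] at h1
      have : ENNReal.ofReal (freeVol K L) = 0 := le_antisymm h1 zero_le
      rw [ENNReal.ofReal_eq_zero] at this
      linarith
    obtain ⟨x, hx⟩ : ∃ x, BS L c S (Function.update y c x) ≠ 0 := by
      by_contra hcon
      push Not at hcon
      apply h2
      simp [hcon]
    refine ⟨Function.update y c x, ?_⟩
    rw [GS_insert L hc, GS_update L hc]
    exact mul_ne_zero hy hx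

theorem integral_GS_pos {L : ℝ} (hL : 4 ≤ L) (hD : 0 < freeVol K L) :
    0 < ∫ y, GS L (Finset.univ : Finset (Fin K)) y ^ 2 := by
  obtain ⟨y, hy⟩ := GS_pos hL hD Finset.univ
  have hcomp : HasCompactSupport fun y => GS L (Finset.univ : Finset (Fin K)) y ^ 2 := by
    refine (GS_compact (K := K) L).mono fun x hx => ?_
    intro h
    exact hx (by simp [h])
  exact ((continuous_GS L Finset.univ).pow 2).integral_pos_of_hasCompactSupport_nonneg_nonzero
    hcomp (fun y => by positivity) (x := y) (by positivity)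

theorem trial_lip (hn : 0 < n) {Φ : (Fin K × Fin n → Space) → ℝ} {G : (Fin K → Space) → ℝ}
    {CΦ CG : ℝ≥0} (hΦ : LipschitzWith CΦ Φ) (hG : LipschitzWith CG G)
    (h0Φ : ∀ X, 0 ≤ Φ X ∧ Φ X ≤ 1) (h0G : ∀ y, 0 ≤ G y ∧ G y ≤ 1) (z : Fin K → Space) :
    LipschitzWith (CΦ + CG) (trial Φ G z) := by
  refine LipschitzWith.of_dist_le_mul fun X Y => ?_
  rw [Real.dist_eq]
  unfold trial
  have h1 : |Φ (X + hatz z) - Φ (Y + hatz z)| ≤ CΦ * dist X Y := by
    rw [← Real.dist_eq]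
    refine (hΦ.dist_le_mul _ _).trans ?_
    rw [dist_add_right]
  have h2 : |G (cm X) - G (cm Y)| ≤ CG * dist X Y := by
    rw [← Real.dist_eq]
    exact (hG.dist_le_mul _ _).trans (mul_le_mul_of_nonneg_left (cm_lip hn X Y) CG.2)
  have e : Φ (X + hatz z) * G (cm X) - Φ (Y + hatz z) * G (cm Y) =
      (Φ (X + hatz z) - Φ (Y + hatz z)) * G (cm X) + Φ (Y + hatz z) * (G (cm X) - G (cm Y)) := by
    ring
  rw [e]
  refine (abs_add_le _ _).trans ?_
  rw [abs_mul, abs_mul, abs_of_nonneg (h0G _).1, abs_of_nonneg (h0Φ _).1, NNReal.coe_add, add_mul]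
  refine add_le_add ?_ ?_
  · exact (mul_le_of_le_one_right (abs_nonneg _) (h0G _).2).trans h1
  · exact (mul_le_of_le_one_left (abs_nonneg _) (h0Φ _).2).trans h2

theorem trial_compact {Φ : (Fin K × Fin n → Space) → ℝ} {G : (Fin K → Space) → ℝ}
    (hΦ : HasCompactSupport Φ) (z : Fin K → Space) : HasCompactSupport (trial Φ G z) := by
  have h1 : HasCompactSupport (fun X => Φ (X + hatz z)) :=
    hΦ.comp_homeomorph (Homeomorph.addRight (hatz z))
  exact h1.mul_right

theorem pot2_clusters {lam : ℝ} {X : Fin K × Fin n → Space}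
    (h1 : ∀ c i j, i ≠ j → 1 / 2 ≤ ‖X (c, i) - X (c, j)‖ ∧ ‖X (c, i) - X (c, j)‖ ≤ 1)
    (h2 : ∀ c c' i j, c ≠ c' → 10 ≤ ‖X (c, i) - X (c', j)‖) :
    pot2 (vpot lam) X = 2 * (-(lam * (K * ((n : ℝ) * ((n : ℝ) - 1) / 2)))) := by
  classical
  have hval : ∀ p ∈ (Finset.univ : Finset (Fin K × Fin n)).offDiag,
      vpot lam ‖X p.1 - X p.2‖ = if p.1.1 = p.2.1 then -lam else 0 := by
    rintro ⟨⟨c, i⟩, ⟨c', j⟩⟩ hp
    rw [Finset.mem_offDiag] at hp
    by_cases hc : c = c'
    · subst hc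
      have hij : i ≠ j := fun e => hp.2.2 (by rw [e])
      simp only [if_true]
      exact vpot_well (h1 c i j hij).1 (h1 c i j hij).2
    · simp only [hc, if_false]
      exact vpot_far (h2 c c' i j hc)
  have e0 : pot2 (vpot lam) X = ∑ p ∈ (Finset.univ : Finset (Fin K × Fin n)).offDiag,
      vpot lam ‖X p.1 - X p.2‖ := by
    unfold pot2
    congr!
  rw [e0, Finset.sum_congr rfl hval]
  have e1 : (Finset.univ : Finset (Fin K × Fin n)).offDiag =
      ((Finset.univ : Finset (Fin K × Fin n)) ×ˢ (Finset.univ : Finset (Fin K × Fin n))).filter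
        (fun p => p.1 ≠ p.2) := by
    ext p
    simp [Finset.mem_offDiag]
  rw [e1, Finset.sum_filter, Finset.sum_product]
  have e2 : ∀ a : Fin K × Fin n, ∑ b : Fin K × Fin n,
      (if a ≠ b then (if a.1 = b.1 then -lam else 0) else 0) = -lam * ((n : ℝ) - 1) := by
    rintro ⟨c, i⟩
    rw [Fintype.sum_prod_type, Finset.sum_eq_single c]
    · have e3 : ∀ j : Fin n, (if ((c, i) : Fin K × Fin n) ≠ (c, j) then
          (if (c : Fin K) = c then -lam else 0) else 0) = -lam - (if i = j then -lam else 0) := by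
        intro j
        by_cases hij : i = j
        · subst hij; simp
        · have : ((c, i) : Fin K × Fin n) ≠ (c, j) := fun e => hij (Prod.ext_iff.1 e).2
          rw [if_pos this, if_pos rfl, if_neg hij, sub_zero]
      rw [Finset.sum_congr rfl fun j _ => e3 j, Finset.sum_sub_distrib, Finset.sum_const, Finset.card_univ, Fintype.card_fin,
        nsmul_eq_mul, Finset.sum_ite_eq]
      simp only [Finset.mem_univ, if_true]
      ring
    · intro c' _ hc'
      refine Finset.sum_eq_zero fun j _ => ?_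
      rw [if_neg (Ne.symm hc')]
      simp
    · intro h
      exact absurd (Finset.mem_univ _) h
  simp only [e2]
  rw [Finset.sum_const, Finset.card_univ, Fintype.card_prod, Fintype.card_fin, Fintype.card_fin,
    nsmul_eq_mul]
  push_cast
  ring

theorem ub_clusters {μ : ℝ} (hμ : 0 < μ) (hn : 2 ≤ n) (hcrit : ∀ ε > 0, NearCrit μ n ε) {L : ℝ}
    (hL : 4 ≤ L) (hD : 0 < freeVol K L) {E : ℝ} (hE : μ / n * (K * jconst K L) < E) :
    UB μ (vpot (lamc μ)) (Fin K × Fin n) L E := by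
  have hn0 : 0 < n := by omega
  have hn' : (2 : ℝ) ≤ n := by exact_mod_cast hn
  set q : ℝ := (n : ℝ) * ((n : ℝ) - 1) / 2 with hq
  have hq0 : 0 < q := by rw [hq]; nlinarith
  set J : ℝ := K * jconst K L with hJ
  set ε : ℝ := (E - μ / n * J) / (2 * (K * q + 1)) with hε
  have hKq : 0 < K * q + 1 := by positivity
  have hε0 : 0 < ε := by rw [hε]; apply div_pos <;> linarith
  have hεK : K * (ε * q) < E - μ / n * J := by
    have h1 : ε * (2 * (K * q + 1)) = E - μ / n * J := by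
      rw [hε]; field_simp
    have h2 : 0 ≤ ε * (K * q) := by positivity
    nlinarith
  obtain ⟨φ, ⟨C, hC⟩, hc, h01, hsupp, hpos, hkin⟩ := hcrit ε hε0
  set Φ : (Fin K × Fin n → Space) → ℝ := prodState φ with hΦdef
  set G : (Fin K → Space) → ℝ := GS L Finset.univ with hGdef
  obtain ⟨CG, hCG⟩ := GS_lipschitz L (Finset.univ : Finset (Fin K))
  have hΦlip := prodState_lip (K := K) hC h01
  have hΦc := prodState_compact (K := K) hc
  have hGc := GS_compact (K := K) L
  have hZG : 0 < ∫ y, G y ^ 2 := integral_GS_pos hL hD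
  have hZΦ : ∫ X, Φ X ^ 2 = (∫ x, φ x ^ 2) ^ K := integral_prodState_sq φ
  have hZΦ0 : 0 < ∫ X, Φ X ^ 2 := by rw [hZΦ]; positivity
  have hkinΦ : μ * (∫ X, kinOn Finset.univ Φ X) ≤ K * ((lamc μ + ε) * q) * ∫ X, Φ X ^ 2 := by
    rw [hΦdef, integral_kinOn_prodState hC hc, ← hΦdef, hZΦ]
    rcases Nat.eq_zero_or_pos K with h0 | h0
    · subst h0; simp
    · have e : (∫ x, φ x ^ 2) ^ K = (∫ x, φ x ^ 2) * (∫ x, φ x ^ 2) ^ (K - 1) := by
        rw [← pow_succ']; congr 1; omega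
      rw [e]
      have h3 : 0 ≤ (∫ x, φ x ^ 2) ^ (K - 1) := by positivity
      have h4 := mul_le_mul_of_nonneg_right hkin h3
      have h5 : (0 : ℝ) ≤ K := by positivity
      have h6 := mul_le_mul_of_nonneg_left h4 h5
      rw [← hq] at h6
      calc μ * (K * ((∫ x, kinOn Finset.univ φ x) * (∫ x, φ x ^ 2) ^ (K - 1))) =
            K * (μ * (∫ x, kinOn Finset.univ φ x) * (∫ x, φ x ^ 2) ^ (K - 1)) := by ring
        _ ≤ _ := h6
        _ = _ := by ring
  have hkinG : ∫ y, kinOn Finset.univ G y ≤ J * ∫ y, G y ^ 2 := jastrow_bound hL hD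
  set E' : ℝ := K * (lamc μ * q) + E with hE'
  have hmain : μ * ((∫ X, kinOn Finset.univ Φ X) * ∫ y, G y ^ 2) +
      μ * ((1 / (n : ℝ)) * ((∫ X, Φ X ^ 2) * ∫ y, kinOn Finset.univ G y)) <
      E' * ((∫ X, Φ X ^ 2) * ∫ y, G y ^ 2) := by
    have h1 : μ * ((∫ X, kinOn Finset.univ Φ X) * ∫ y, G y ^ 2) ≤
        K * ((lamc μ + ε) * q) * ((∫ X, Φ X ^ 2) * ∫ y, G y ^ 2) := by
      have := mul_le_mul_of_nonneg_right hkinΦ hZG.le
      linarith
    have h2 : μ * ((1 / (n : ℝ)) * ((∫ X, Φ X ^ 2) * ∫ y, kinOn Finset.univ G y)) ≤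
        μ / n * J * ((∫ X, Φ X ^ 2) * ∫ y, G y ^ 2) := by
      have h3 : 0 ≤ μ * (1 / (n : ℝ)) * ∫ X, Φ X ^ 2 := by positivity
      have h4 := mul_le_mul_of_nonneg_left hkinG h3
      calc μ * ((1 / (n : ℝ)) * ((∫ X, Φ X ^ 2) * ∫ y, kinOn Finset.univ G y)) =
            μ * (1 / (n : ℝ)) * (∫ X, Φ X ^ 2) * ∫ y, kinOn Finset.univ G y := by ring
        _ ≤ _ := h4
        _ = _ := by ring
    have h5 : 0 < (∫ X, Φ X ^ 2) * ∫ y, G y ^ 2 := mul_pos hZΦ0 hZG
    have h6 : K * ((lamc μ + ε) * q) + μ / n * J < E' := by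
      rw [hE']; nlinarith
    nlinarith [mul_lt_mul_of_pos_right h6 h5]
  have h0Φ := prodState_mem (K := K) h01
  have h0G : ∀ y, 0 ≤ G y ∧ G y ≤ 1 := fun y => ⟨GS_nonneg _ _ _, GS_le_one _ _ _⟩
  obtain ⟨z, hz⟩ := exists_trial hΦlip hΦc hCG hGc hn0 hmain
    (fun z => ⟨_, trial_lip hn0 hΦlip hCG h0Φ h0G z⟩) (fun z => trial_compact hΦc z)
  refine ⟨trial Φ G z, -(lamc μ * (K * q)), ⟨_, trial_lip hn0 hΦlip hCG h0Φ h0G z⟩,
    trial_compact hΦc z, ?_, ?_, ?_⟩
  · intro X hX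
    have hXΦ : Φ (X + hatz z) ≠ 0 := fun h => hX (by rw [trial, h, zero_mul])
    have hXG : G (cm X) ≠ 0 := fun h => hX (by rw [trial, h, mul_zero])
    have h1 : ∀ c i j, i ≠ j → 1 / 2 ≤ ‖X (c, i) - X (c, j)‖ ∧ ‖X (c, i) - X (c, j)‖ ≤ 1 := by
      intro c i j hij
      have h2 : φ (cl (X + hatz z) c) ≠ 0 := by
        intro h
        exact hXΦ (Finset.prod_eq_zero (Finset.mem_univ c) h)
      have h3 := hsupp _ h2 i j hij
      have e : cl (X + hatz z) c i - cl (X + hatz z) c j = X (c, i) - X (c, j) := by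
        simp only [cl, Pi.add_apply, hatz]
        abel
      rwa [e] at h3
    have hcm : ∀ c j, ‖X (c, j) - cm X c‖ ≤ 1 := fun c j =>
      norm_sub_cm_le hn0 (fun i j hij => (h1 c i j hij).2) j
    have h2 : ∀ c c' i j, c ≠ c' → 10 ≤ ‖X (c, i) - X (c', j)‖ := by
      intro c c' i j hcc
      have h3 := GS_univ_far hXG hcc
      have e : cm X c - cm X c' = (X (c, i) - X (c', j)) - (X (c, i) - cm X c) +
          (X (c', j) - cm X c') := by abel
      have h4 : ‖cm X c - cm X c'‖ ≤ ‖X (c, i) - X (c', j)‖ + 1 + 1 := by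
        rw [e]
        refine (norm_add_le _ _).trans ?_
        have h5 := norm_sub_le (X (c, i) - X (c', j)) (X (c, i) - cm X c)
        linarith [hcm c i, hcm c' j]
      linarith
    constructor
    · rintro ⟨c, j⟩ k
      have h3 := GS_univ_mem hXG c k
      have h4 := (abs_coord_le (X (c, j) - cm X c) k).trans (hcm c j)
      rw [PiLp.sub_apply, abs_le] at h4
      constructor
      · linarith [h3.1, h4.1]
      · linarith [h3.2, h4.2]
    · rw [pot2_clusters h1 h2]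
  · by_contra hcon
    rw [not_lt] at hcon
    have h1 : 0 ≤ ∫ X, trial Φ G z X ^ 2 := integral_nonneg fun X => by positivity
    have h2 : ∫ X, trial Φ G z X ^ 2 = 0 := le_antisymm hcon h1
    rw [h2, mul_zero] at hz
    have h3 : 0 ≤ μ * ∫ X, kinOn Finset.univ (trial Φ G z) X :=
      mul_nonneg hμ.le (integral_nonneg fun X => kinOn_nonneg _ _ _)
    linarith
  · have h1 : E' * ∫ X, trial Φ G z X ^ 2 = (lamc μ * (K * q)) * (∫ X, trial Φ G z X ^ 2) +
        E * ∫ X, trial Φ G z X ^ 2 := by rw [hE']; ring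
    linarith

end Clusters

end Pool.Agent.helper84.Bose
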