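import Pool.Agent.helper84.BosePot
import Pool.Agent.helper84.BoseCalc

/-!
# Wave functions of finite energy vanish on the walls
-/

open MeasureTheory Set Filter Topology
open scoped NNReal ENNReal

namespace Pool.Agent.helper84.Bose

variable {ι : Type*} [Fintype ι]

theorem pot2_add_nonneg {lam : ℝ} (hl : 0 ≤ lam) (X : ι → Space) :
    0 ≤ pot2 (vpot lam) X + lam * (Fintype.card ι : ℝ) ^ 2 := by
  classical
  unfold pot2
  have h1 : ∑ _p ∈ (Finset.univ : Finset ι).offDiag, (-lam) ≤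
      ∑ p ∈ (Finset.univ : Finset ι).offDiag, vpot lam ‖X p.1 - X p.2‖ :=
    Finset.sum_le_sum fun p _ => neg_le_vpot hl _
  rw [Finset.sum_const, nsmul_eq_mul] at h1
  have h2 : (((Finset.univ : Finset ι).offDiag.card : ℕ) : ℝ) ≤ (Fintype.card ι : ℝ) ^ 2 := by
    rw [Finset.offDiag_card, Finset.card_univ]
    have : ((Fintype.card ι * Fintype.card ι - Fintype.card ι : ℕ) : ℝ) ≤
        ((Fintype.card ι * Fintype.card ι : ℕ) : ℝ) := by
      exact_mod_cast Nat.sub_le _ _
    rw [pow_two]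
    push_cast at this
    exact this
  have h3 : (∑ p ∈ (Finset.univ : Finset ι).offDiag, vpot lam ‖X p.1 - X p.2‖) =
      ∑ p ∈ (Finset.univ : Finset ι).offDiag, vpot lam ‖X p.1 - X p.2‖ := rfl
  have h4 : lam * (((Finset.univ : Finset ι).offDiag.card : ℕ) : ℝ) ≤
      lam * (Fintype.card ι : ℝ) ^ 2 := mul_le_mul_of_nonneg_left h2 hl
  convert_to 0 ≤ ∑ p ∈ (Finset.univ : Finset ι).offDiag, vpot lam ‖X p.1 - X p.2‖ +
    lam * (Fintype.card ι : ℝ) ^ 2
  nlinarith [h1, h4]

theorem pot2_add_ge {lam : ℝ} (hl : 0 ≤ lam) (X : ι → Space) {i j : ι} (hij : i ≠ j) :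
    vpot lam ‖X i - X j‖ ≤ pot2 (vpot lam) X + lam * (Fintype.card ι : ℝ) ^ 2 := by
  classical
  unfold pot2
  have hmem : (i, j) ∈ (Finset.univ : Finset ι).offDiag := by
    rw [Finset.mem_offDiag]; exact ⟨Finset.mem_univ _, Finset.mem_univ _, hij⟩
  have h1 : ∑ _p ∈ ((Finset.univ : Finset ι).offDiag.erase (i, j)), (-lam) ≤
      ∑ p ∈ ((Finset.univ : Finset ι).offDiag.erase (i, j)), vpot lam ‖X p.1 - X p.2‖ :=
    Finset.sum_le_sum fun p _ => neg_le_vpot hl _
  have h5 := Finset.add_sum_erase _ (fun p : ι × ι => vpot lam ‖X p.1 - X p.2‖) hmem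
  rw [Finset.sum_const, nsmul_eq_mul] at h1
  have h2 : ((((Finset.univ : Finset ι).offDiag.erase (i, j)).card : ℕ) : ℝ) ≤
      (Fintype.card ι : ℝ) ^ 2 := by
    have h6 : ((Finset.univ : Finset ι).offDiag.erase (i, j)).card ≤
        Fintype.card ι * Fintype.card ι := by
      refine (Finset.card_erase_le).trans ?_
      rw [Finset.offDiag_card, Finset.card_univ]
      exact Nat.sub_le _ _
    rw [pow_two]
    exact_mod_cast h6
  have h4 := mul_le_mul_of_nonneg_left h2 hl
  convert_to vpot lam ‖X i - X j‖ ≤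
    ∑ p ∈ (Finset.univ : Finset ι).offDiag, vpot lam ‖X p.1 - X p.2‖ +
    lam * (Fintype.card ι : ℝ) ^ 2
  rw [← h5]
  nlinarith [h1, h4]

/-- A wall at `R` with the repulsion on the side `ε = ±1`. -/
def IsWall (lam R ε : ℝ) : Prop :=
  1 / 2 ≤ R ∧ |ε| ≤ 1 ∧ ∀ s r : ℝ, 0 < s → s < 1 → |r - (R + ε * (s / 2))| ≤ s / 4 →
    Real.exp (1 / s) ≤ vpot lam r

theorem isWall_half {lam : ℝ} (hl : 0 ≤ lam) : IsWall lam (1 / 2) (-1) := by
  refine ⟨by norm_num, by norm_num, fun s r hs hs1 h => ?_⟩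
  rw [abs_le] at h
  have h1 : r < 1 / 2 := by linarith [h.2]
  rw [vpot_core h1]
  have h2 : Real.exp (1 / s) ≤ Real.exp (1 / (1 / 2 - r)) := by
    apply Real.exp_le_exp.2
    apply one_div_le_one_div_of_le
    · linarith
    · linarith [h.1]
  nlinarith

theorem isWall_one {lam : ℝ} (hl : 0 ≤ lam) : IsWall lam 1 1 := by
  refine ⟨by norm_num, by norm_num, fun s r hs hs1 h => ?_⟩
  rw [abs_le] at h
  have h1 : 1 < r := by linarith [h.1]
  have h1' : r < 10 := by linarith [h.2]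
  rw [vpot_mid h1 h1']
  have h2 : Real.exp (1 / s) ≤ Real.exp (1 / (r - 1)) := by
    apply Real.exp_le_exp.2
    apply one_div_le_one_div_of_le
    · linarith
    · linarith [h.2]
  have := Real.exp_pos (1 / (10 - r))
  nlinarith

theorem isWall_ten {lam : ℝ} (hl : 0 ≤ lam) : IsWall lam 10 (-1) := by
  refine ⟨by norm_num, by norm_num, fun s r hs hs1 h => ?_⟩
  rw [abs_le] at h
  have h1 : 1 < r := by linarith [h.1]
  have h1' : r < 10 := by linarith [h.2]
  rw [vpot_mid h1 h1']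
  have h2 : Real.exp (1 / s) ≤ Real.exp (1 / (10 - r)) := by
    apply Real.exp_le_exp.2
    apply one_div_le_one_div_of_le
    · linarith
    · linarith [h.1]
  have := Real.exp_pos (1 / (r - 1))
  nlinarith

theorem eq_zero_of_wall {lam : ℝ} (hl : 0 ≤ lam) {Ψ : (ι → Space) → ℂ} (hΨ : Continuous Ψ)
    (hc : HasCompactSupport Ψ)
    (hint : Integrable (fun X => pot2 (vpot lam) X * ‖Ψ X‖ ^ 2)) {R ε : ℝ} (hR : IsWall lam R ε)
    {i j : ι} (hij : i ≠ j) {X₀ : ι → Space} (hX₀ : ‖X₀ i - X₀ j‖ = R) : Ψ X₀ = 0 := by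
  classical
  by_contra hne
  obtain ⟨hRh, hε, hw⟩ := hR
  have hR0 : 0 < R := by linarith
  set c : ℝ := ‖Ψ X₀‖ / 2 with hcdef
  have hnorm : 0 < ‖Ψ X₀‖ := norm_pos_iff.2 hne
  have hc0 : 0 < c := by positivity
  obtain ⟨δ, hδ, hball⟩ : ∃ δ > 0, ∀ X ∈ Metric.ball X₀ δ, c ≤ ‖Ψ X‖ := by
    have hcont : ContinuousAt (fun X => ‖Ψ X‖) X₀ := hΨ.norm.continuousAt
    have : ∀ᶠ X in 𝓝 X₀, c < ‖Ψ X‖ :=
      hcont.eventually (lt_mem_nhds (by rw [hcdef]; linarith))
    obtain ⟨δ, hδ, h⟩ := Metric.eventually_nhds_iff_ball.1 this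
    exact ⟨δ, hδ, fun X hX => (h X hX).le⟩
  clear_value c
  set D : ℝ := lam * (Fintype.card ι : ℝ) ^ 2 with hD
  set h : (ι → Space) → ℝ := fun X => (pot2 (vpot lam) X + D) * ‖Ψ X‖ ^ 2 with hh
  have hhint : Integrable h := by
    have h1 : Integrable (fun X => D * ‖Ψ X‖ ^ 2) := (integrable_norm_sq hΨ hc).const_mul D
    have h2 := hint.add h1
    refine h2.congr (Eventually.of_forall fun X => ?_)
    simp only [hh, Pi.add_apply]
    ring
  have hnn : ∀ X, 0 ≤ h X := fun X => mul_nonneg (pot2_add_nonneg hl X) (by positivity)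
  set A : ℝ := ∫ X, h X with hA
  set d : ℕ := Module.finrank ℝ (ι → Space) with hd
  set ω : ℝ := (volume : Measure (ι → Space)).real (Metric.ball 0 1) with hω
  have hω0 : 0 < ω := by
    rw [hω, Measure.real, ENNReal.toReal_pos_iff]
    exact ⟨Metric.measure_ball_pos _ _ one_pos, measure_ball_lt_top⟩
  -- the key lower bound
  have key : ∀ x : ℝ, 1 < x → 1 / x < δ → Real.exp x * c ^ 2 * ((1 / x / 8) ^ d * ω) ≤ A := by
    intro x hx hxδ
    set s : ℝ := 1 / x with hs
    have hx0 : 0 < x := by linarith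
    have hs0 : 0 < s := by positivity
    have hs1 : s < 1 := by rw [hs, div_lt_one hx0]; exact hx
    have hsx : 1 / s = x := by rw [hs]; field_simp
    set w : Space := (1 / R) • (X₀ i - X₀ j) with hwdef
    have hw1 : ‖w‖ = 1 := by
      rw [hwdef, norm_smul, hX₀, Real.norm_eq_abs, abs_of_pos (by positivity)]
      field_simp
    set X₁ : ι → Space := Function.update X₀ i (X₀ i + (ε * (s / 2)) • w) with hX₁
    have hX₁i : X₁ i = X₀ i + (ε * (s / 2)) • w := by rw [hX₁]; simp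
    have hX₁j : X₁ j = X₀ j := by rw [hX₁, Function.update_of_ne hij.symm]
    have hεs : |ε * (s / 2)| ≤ s / 2 := by
      rw [abs_mul, abs_of_pos (by positivity : 0 < s / 2)]
      nlinarith [abs_nonneg ε]
    have hdist : dist X₁ X₀ ≤ s / 2 := by
      rw [dist_pi_le_iff (by positivity)]
      intro k
      by_cases hk : k = i
      · subst hk
        rw [hX₁i, dist_eq_norm, add_sub_cancel_left, norm_smul, hw1, mul_one, Real.norm_eq_abs]
        exact hεs
      · rw [hX₁, Function.update_of_ne hk, dist_self]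
        positivity
    have hr1 : ‖X₁ i - X₁ j‖ = |R + ε * (s / 2)| := by
      rw [hX₁i, hX₁j]
      have e : X₀ i + (ε * (s / 2)) • w - X₀ j = (R + ε * (s / 2)) • w := by
        have e2 : X₀ i - X₀ j = R • w := by
          rw [hwdef, smul_smul]
          rw [mul_one_div_cancel hR0.ne', one_smul]
        rw [add_smul, ← e2]
        abel
      rw [e, norm_smul, hw1, mul_one, Real.norm_eq_abs]
    have hsub : Metric.ball X₁ (s / 8) ⊆ Metric.ball X₀ δ := by
      intro X hX
      rw [Metric.mem_ball] at hX ⊢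
      calc dist X X₀ ≤ dist X X₁ + dist X₁ X₀ := dist_triangle _ _ _
        _ < s / 8 + s / 2 := by linarith
        _ < δ := by linarith
    have hge : ∀ X ∈ Metric.ball X₁ (s / 8), Real.exp x * c ^ 2 ≤ h X := by
      intro X hX
      have h1 : c ≤ ‖Ψ X‖ := hball X (hsub hX)
      have hXi : ‖X i - X₁ i‖ ≤ s / 8 := by
        rw [← dist_eq_norm]
        exact (dist_le_pi_dist X X₁ i).trans (Metric.mem_ball.1 hX).le
      have hXj : ‖X j - X₁ j‖ ≤ s / 8 := by
        rw [← dist_eq_norm]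
        exact (dist_le_pi_dist X X₁ j).trans (Metric.mem_ball.1 hX).le
      have hpos : 0 ≤ R + ε * (s / 2) := by
        have h7 := (abs_le.1 hεs).1
        linarith
      have h2 : Real.exp x ≤ vpot lam ‖X i - X j‖ := by
        rw [← hsx]
        refine hw s _ hs0 hs1 ?_
        have h3 : |‖X i - X j‖ - ‖X₁ i - X₁ j‖| ≤ ‖(X i - X j) - (X₁ i - X₁ j)‖ :=
          abs_norm_sub_norm_le _ _
        rw [hr1, abs_of_nonneg hpos] at h3
        refine h3.trans ?_
        have e : (X i - X j) - (X₁ i - X₁ j) = (X i - X₁ i) - (X j - X₁ j) := by abel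
        rw [e]
        refine (norm_sub_le _ _).trans ?_
        linarith
      have h4 := pot2_add_ge hl X hij
      rw [← hD] at h4
      simp only [hh]
      have h5 : 0 < Real.exp x := Real.exp_pos x
      exact mul_le_mul (h2.trans h4) (pow_le_pow_left₀ hc0.le h1 2) (by positivity)
        (h5.le.trans (h2.trans h4))
    have hvol : (volume : Measure (ι → Space)).real (Metric.ball X₁ (s / 8)) = (s / 8) ^ d * ω := by
      rw [Measure.real, Measure.addHaar_ball_of_pos _ _ (by positivity), ENNReal.toReal_mul,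
        ENNReal.toReal_ofReal (by positivity), hω, Measure.real]
    have h1 : Real.exp x * c ^ 2 * (volume : Measure (ι → Space)).real (Metric.ball X₁ (s / 8)) ≤
        ∫ X in Metric.ball X₁ (s / 8), h X :=
      setIntegral_ge_of_const_le_real measurableSet_ball measure_ball_lt_top.ne hge
        hhint.integrableOn
    rw [hvol] at h1
    refine h1.trans ?_
    exact setIntegral_le_integral hhint (Eventually.of_forall hnn)
  have htend := Real.tendsto_exp_div_pow_atTop d
  have hK : 0 < c ^ 2 * ω / 8 ^ d := by positivity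
  obtain ⟨x, hx1, hx2, hx3⟩ : ∃ x : ℝ, (A / (c ^ 2 * ω / 8 ^ d) + 1 ≤ Real.exp x / x ^ d) ∧ 1 < x ∧
      1 / x < δ := by
    have h1 := (htend.eventually_ge_atTop (A / (c ^ 2 * ω / 8 ^ d) + 1)).and
      ((eventually_gt_atTop (1 : ℝ)).and (eventually_gt_atTop (1 / δ)))
    obtain ⟨x, hx⟩ := h1.exists
    refine ⟨x, hx.1, hx.2.1, ?_⟩
    have hx0 : 0 < x := by linarith [hx.2.1]
    rw [div_lt_iff₀ hx0]
    have := hx.2.2
    rw [div_lt_iff₀ hδ] at this
    linarith
  have h2 := key x hx2 hx3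
  have hx0 : 0 < x := by linarith
  have h3 : Real.exp x * c ^ 2 * ((1 / x / 8) ^ d * ω) =
      (Real.exp x / x ^ d) * (c ^ 2 * ω / 8 ^ d) := by
    have h5 : (1 / x / 8) ^ d = 1 / (x ^ d * 8 ^ d) := by
      rw [div_div, div_pow, one_pow, mul_pow]
    rw [h5]
    field_simp
  rw [h3] at h2
  have h4 : A < (Real.exp x / x ^ d) * (c ^ 2 * ω / 8 ^ d) := by
    have h5 : A / (c ^ 2 * ω / 8 ^ d) < Real.exp x / x ^ d := by linarith
    rwa [div_lt_iff₀ hK] at h5
  linarith

end Pool.Agent.helper84.Bose
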