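import Mathlib

/-!
# Adaptive simulation of channels with one ancilla qubit: definitions
-/

open Matrix MeasureTheory
open scoped ComplexOrder BigOperators

namespace Pool.Agent.helper84.ChanSim

/-- Index set of the computational basis of `ℂ^d ⊗ ℂ^2` (system and one ancilla qubit). -/
abbrev Idx (d : ℕ) : Type := Fin d × Fin 2

/-- A projective measurement on `ℂ^d ⊗ ℂ^2` with outcomes `Fin m`: orthogonal projections
`P 0, ..., P (m-1)` summing to the identity. -/
structure ProjMeas (d m : ℕ) where
  /-- the projection of each outcome -/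
  P : Fin m → Matrix (Idx d) (Idx d) ℂ
  hermitian : ∀ i, (P i)ᴴ = P i
  idempotent : ∀ i, P i * P i = P i
  sum_eq_one : ∑ i, P i = 1

/-- Adaptive protocols on `ℂ^d ⊗ ℂ^2` with at most `R` rounds (measurements on any run).
* `stop U success`: apply the unitary `U`, discard the ancilla, declare success iff `success`.
* `measure U m M next`: apply the unitary `U`, perform the projective measurement `M`, and go on
  with the protocol `next i` chosen from the outcome `i`; this uses up one round.
* `toss k w _ _ next`: choose `i` at random with probability `w i` and go on with `next i`; this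
  uses up no round. -/
inductive Protocol (d : ℕ) : ℕ → Type
  | stop {R : ℕ} (U : Matrix.unitaryGroup (Idx d) ℂ) (success : Bool) : Protocol d R
  | measure {R : ℕ} (U : Matrix.unitaryGroup (Idx d) ℂ) (m : ℕ) (M : ProjMeas d m)
      (next : Fin m → Protocol d R) : Protocol d (R + 1)
  | toss {R : ℕ} (k : ℕ) (w : Fin k → ℝ) (nonneg : ∀ i, 0 ≤ w i) (sum_eq_one : ∑ i, w i = 1)
      (next : Fin k → Protocol d R) : Protocol d R

/-- The unnormalised joint state of system and ancilla after the successful runs of the protocol,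
when the initial joint state is `X` (sum over the successful branches of probability times
state). -/
noncomputable def Protocol.run {d : ℕ} : {R : ℕ} → Protocol d R →
    Matrix (Idx d) (Idx d) ℂ → Matrix (Idx d) (Idx d) ℂ
  | _, .stop U success, X =>
      if success then (U : Matrix (Idx d) (Idx d) ℂ) * X * (U : Matrix (Idx d) (Idx d) ℂ)ᴴ else 0
  | _, .measure U _ M next, X =>
      ∑ i, (next i).run
        (M.P i * ((U : Matrix (Idx d) (Idx d) ℂ) * X * (U : Matrix (Idx d) (Idx d) ℂ)ᴴ) * M.P i)
  | _, .toss _ w _ _ next, X => ∑ i, w i • (next i).run X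

/-- `ρ ⊗ |0⟩⟨0|`. -/
def prepare {d : ℕ} (ρ : Matrix (Fin d) (Fin d) ℂ) : Matrix (Idx d) (Idx d) ℂ :=
  Matrix.of fun a b => if a.2 = 0 ∧ b.2 = 0 then ρ a.1 b.1 else 0

/-- Discarding the ancilla: trace over the second tensor factor. -/
def discard {d : ℕ} (X : Matrix (Idx d) (Idx d) ℂ) : Matrix (Fin d) (Fin d) ℂ :=
  Matrix.of fun i j => ∑ a : Fin 2, X (i, a) (j, a)

/-- The unnormalised output state of the system on success, for the input `ρ`; its trace is the
success probability. -/
noncomputable def Protocol.out {d R : ℕ} (T : Protocol d R) (ρ : Matrix (Fin d) (Fin d) ℂ) :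
    Matrix (Fin d) (Fin d) ℂ := discard (T.run (prepare ρ))

/-- A density matrix. -/
def IsState {d : ℕ} (ρ : Matrix (Fin d) (Fin d) ℂ) : Prop := ρ.PosSemidef ∧ ρ.trace = 1

/-- A channel on `ℂ^d`: a completely positive (all `id_n ⊗ Φ` preserve positive semidefiniteness)
and trace preserving linear map. -/
structure IsChannel {d : ℕ}
    (Φ : Matrix (Fin d) (Fin d) ℂ →ₗ[ℂ] Matrix (Fin d) (Fin d) ℂ) : Prop where
  completely_positive : ∀ (n : ℕ) (X : Matrix (Fin n × Fin d) (Fin n × Fin d) ℂ), X.PosSemidef →
    (Matrix.of fun a b : Fin n × Fin d =>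
      Φ (Matrix.of fun i j => X (a.1, i) (b.1, j)) a.2 b.2).PosSemidef
  trace_preserving : ∀ X, (Φ X).trace = X.trace

/-- The randomised protocol that draws `ω` from the probability measure `P` and then runs `T ω`
simulates `Φ` with success probability `q > 0`: for every input state `ρ`, success occurs with
probability exactly `q`, and conditioned on success the output state is exactly `Φ ρ`. -/
structure Simulates {d R : ℕ} {Ω : Type} [MeasurableSpace Ω] (P : Measure Ω)
    (T : Ω → Protocol d R)
    (Φ : Matrix (Fin d) (Fin d) ℂ →ₗ[ℂ] Matrix (Fin d) (Fin d) ℂ) (q : ℝ) : Prop where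
  integrable : ∀ ρ, IsState ρ → ∀ i j, Integrable (fun ω => (T ω).out ρ i j) P
  prob_pos : 0 < q
  prob : ∀ ρ, IsState ρ → ∫ ω, ((T ω).out ρ).trace ∂P = q
  output : ∀ ρ, IsState ρ → ∀ i j, (∫ ω, (T ω).out ρ i j ∂P) / q = Φ ρ i j

end Pool.Agent.helper84.ChanSim
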