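import Pool.Agent.helper84.ChanSimDefs

/-!
# No constant-round simulation of all channels with one ancilla qubit

We show that the Schur multiplier channel `X ↦ (⟨v_x, v_y⟩ X_{xy})` on `ℂ^(3^N)`, where
`v_x = (1, x) / ‖(1, x)‖` for `x ∈ {0, 1, -1}^N`, cannot be simulated with at most `R` rounds and
success probability more than `3^R * 6 * √(N+1) / N`.

Every successful Kraus operator of a simulating protocol is diagonal with entries
`⟨c, v_x⟩`. If `c` is nonzero outside the constant coordinate, at least two thirds of these entries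
are nonzero, so the projections of a measurement on `ℂ^d ⊗ ℂ^2` (of total rank `2 d`) leave room for
at most three outcomes leading to such operators. Hence at most `3^R` relevant leaves, and
each of them carries a total weight of order `√N`, whereas the weight of `q Φ` is `q N`.
-/

open Matrix MeasureTheory
open scoped ComplexOrder BigOperators

namespace Pool.Agent.helper84.ChanSim

/-! ### Sums over the successful leaves -/

/-- Weighted sum over the successful leaves. -/
noncomputable def Protocol.fold {d : ℕ} {β : Type} [AddCommMonoid β] [Module ℝ β]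
    (f : Matrix (Idx d) (Fin d) ℂ → β) : {R : ℕ} → Protocol d R → Matrix (Idx d) (Fin d) ℂ → β
  | _, .stop U s, A => if s then f ((U : Matrix (Idx d) (Idx d) ℂ) * A) else 0
  | _, .measure U _ M next, A => ∑ i, (next i).fold f (M.P i * (U : Matrix (Idx d) (Idx d) ℂ) * A)
  | _, .toss _ w _ _ next, A => ∑ i, w i • (next i).fold f A

/-- A predicate holds at all successful leaves of positive weight. -/
def Protocol.All {d : ℕ}
    (p : Matrix (Idx d) (Fin d) ℂ → Prop) : {R : ℕ} → Protocol d R → Matrix (Idx d) (Fin d) ℂ → Prop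
  | _, .stop U s, A => s = true → p ((U : Matrix (Idx d) (Idx d) ℂ) * A)
  | _, .measure U _ M next, A => ∀ i, (next i).All p (M.P i * (U : Matrix (Idx d) (Idx d) ℂ) * A)
  | _, .toss _ w _ _ next, A => ∀ i, w i ≠ 0 → (next i).All p A

variable {d : ℕ}

theorem Protocol.All.mono {p q : Matrix (Idx d) (Fin d) ℂ → Prop} (h : ∀ B, p B → q B) :
    ∀ {R : ℕ} (T : Protocol d R) (A : Matrix (Idx d) (Fin d) ℂ), T.All p A → T.All q A := by
  intro R T
  induction T with
  | stop U s => intro A hA hs; exact h _ (hA hs)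
  | measure U m M next ih => intro A hA i; exact ih i _ (hA i)
  | toss k w h0 h1 next ih => intro A hA i hi; exact ih i _ (hA i hi)

theorem Protocol.All.and {p q : Matrix (Idx d) (Fin d) ℂ → Prop} :
    ∀ {R : ℕ} (T : Protocol d R) (A : Matrix (Idx d) (Fin d) ℂ), T.All p A → T.All q A →
      T.All (fun B => p B ∧ q B) A := by
  intro R T
  induction T with
  | stop U s => intro A hA hB hs; exact ⟨hA hs, hB hs⟩
  | measure U m M next ih => intro A hA hB i; exact ih i _ (hA i) (hB i)
  | toss k w h0 h1 next ih => intro A hA hB i hi; exact ih i _ (hA i hi) (hB i hi)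

theorem Protocol.All.forall {ι : Sort*} {p : ι → Matrix (Idx d) (Fin d) ℂ → Prop} :
    ∀ {R : ℕ} (T : Protocol d R) (A : Matrix (Idx d) (Fin d) ℂ), (∀ i, T.All (p i) A) → 
      T.All (fun B => ∀ i, p i B) A := by
  intro R T
  induction T with
  | stop U s => intro A hA hs i; exact hA i hs
  | measure U m M next ih => intro A hA i; exact ih i _ (fun j => hA j i)
  | toss k w h0 h1 next ih => intro A hA i hi; exact ih i _ (fun j => hA j i hi)

theorem Protocol.fold_congr {β : Type} [AddCommMonoid β] [Module ℝ β] {f g : Matrix (Idx d) (Fin d) ℂ → β} :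
    ∀ {R : ℕ} (T : Protocol d R) (A : Matrix (Idx d) (Fin d) ℂ), T.All (fun B => f B = g B) A →
      T.fold f A = T.fold g A := by
  intro R T
  induction T with
  | stop U s =>
    intro A hA
    cases s
    · simp [Protocol.fold]
    · simpa [Protocol.fold] using hA rfl
  | measure U m M next ih =>
    intro A hA
    simp only [Protocol.fold]
    exact Finset.sum_congr rfl fun i _ => ih i _ (hA i)
  | toss k w h0 h1 next ih =>
    intro A hA
    simp only [Protocol.fold]
    refine Finset.sum_congr rfl fun i _ => ?_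
    by_cases hi : w i = 0
    · simp [hi]
    · rw [ih i _ (hA i hi)]

theorem Protocol.fold_mono {f g : Matrix (Idx d) (Fin d) ℂ → ℝ} :
    ∀ {R : ℕ} (T : Protocol d R) (A : Matrix (Idx d) (Fin d) ℂ), T.All (fun B => f B ≤ g B) A →
      T.fold f A ≤ T.fold g A := by
  intro R T
  induction T with
  | stop U s =>
    intro A hA
    cases s
    · simp [Protocol.fold]
    · simpa [Protocol.fold] using hA rfl
  | measure U m M next ih =>
    intro A hA
    simp only [Protocol.fold]
    exact Finset.sum_le_sum fun i _ => ih i _ (hA i)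
  | toss k w h0 h1 next ih =>
    intro A hA
    simp only [Protocol.fold, smul_eq_mul]
    refine Finset.sum_le_sum fun i _ => ?_
    by_cases hi : w i = 0
    · simp [hi]
    · exact mul_le_mul_of_nonneg_left (ih i _ (hA i hi)) (h0 i)

theorem Protocol.fold_nonneg {f : Matrix (Idx d) (Fin d) ℂ → ℝ} (hf : ∀ B, 0 ≤ f B) :
    ∀ {R : ℕ} (T : Protocol d R) (A : Matrix (Idx d) (Fin d) ℂ), 0 ≤ T.fold f A := by
  intro R T
  induction T with
  | stop U s =>
    intro A
    cases s
    · simp [Protocol.fold]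
    · simpa [Protocol.fold] using hf _
  | measure U m M next ih =>
    intro A
    simp only [Protocol.fold]
    exact Finset.sum_nonneg fun i _ => ih i _
  | toss k w h0 h1 next ih =>
    intro A
    simp only [Protocol.fold, smul_eq_mul]
    exact Finset.sum_nonneg fun i _ => mul_nonneg (h0 i) (ih i _)

theorem Protocol.All_of_fold_eq_zero {f : Matrix (Idx d) (Fin d) ℂ → ℝ} (hf : ∀ B, 0 ≤ f B) :
    ∀ {R : ℕ} (T : Protocol d R) (A : Matrix (Idx d) (Fin d) ℂ), T.fold f A = 0 →
      T.All (fun B => f B = 0) A := by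
  intro R T
  induction T with
  | stop U s =>
    intro A h hs
    subst hs
    simpa [Protocol.fold] using h
  | measure U m M next ih =>
    intro A h i
    simp only [Protocol.fold] at h
    rw [Finset.sum_eq_zero_iff_of_nonneg (fun i _ => Protocol.fold_nonneg hf _ _)] at h
    exact ih i _ (h i (Finset.mem_univ i))
  | toss k w h0 h1 next ih =>
    intro A h i hi
    simp only [Protocol.fold, smul_eq_mul] at h
    rw [Finset.sum_eq_zero_iff_of_nonneg
      (fun i _ => mul_nonneg (h0 i) (Protocol.fold_nonneg hf _ _))] at h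
    rcases mul_eq_zero.mp (h i (Finset.mem_univ i)) with h2 | h2
    · exact absurd h2 hi
    · exact ih i _ h2

theorem Protocol.fold_add {β : Type} [AddCommMonoid β] [Module ℝ β] (f g : Matrix (Idx d) (Fin d) ℂ → β) :
    ∀ {R : ℕ} (T : Protocol d R) (A : Matrix (Idx d) (Fin d) ℂ), 
      T.fold (fun B => f B + g B) A = T.fold f A + T.fold g A := by
  intro R T
  induction T with
  | stop U s =>
    intro A
    cases s <;> simp [Protocol.fold]
  | measure U m M next ih =>
    intro A
    simp only [Protocol.fold]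
    rw [← Finset.sum_add_distrib]
    exact Finset.sum_congr rfl fun i _ => ih i _
  | toss k w h0 h1 next ih =>
    intro A
    simp only [Protocol.fold]
    rw [← Finset.sum_add_distrib]
    refine Finset.sum_congr rfl fun i _ => ?_
    rw [ih i, smul_add]

/-- Linear maps commute with folds. -/
theorem Protocol.map_fold {β γ : Type} [AddCommMonoid β] [Module ℝ β] [AddCommMonoid γ]
    [Module ℝ γ] (φ : β →ₗ[ℝ] γ)
    (f : Matrix (Idx d) (Fin d) ℂ → β) :
    ∀ {R : ℕ} (T : Protocol d R) (A : Matrix (Idx d) (Fin d) ℂ), 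
      φ (T.fold f A) = T.fold (fun B => φ (f B)) A := by
  intro R T
  induction T with
  | stop U s =>
    intro A
    cases s <;> simp [Protocol.fold]
  | measure U m M next ih =>
    intro A
    simp only [Protocol.fold]
    rw [map_sum]
    exact Finset.sum_congr rfl fun i _ => ih i _
  | toss k w h0 h1 next ih =>
    intro A
    simp only [Protocol.fold]
    rw [map_sum]
    refine Finset.sum_congr rfl fun i _ => ?_
    rw [map_smul, ih i]

theorem Protocol.fold_zero {β : Type} [AddCommMonoid β] [Module ℝ β] :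
    ∀ {R : ℕ} (T : Protocol d R) (A : Matrix (Idx d) (Fin d) ℂ), T.fold (fun _ => (0:β)) A = 0 := by
  intro R T
  induction T with
  | stop U s => intro A; cases s <;> simp [Protocol.fold]
  | measure U m M next ih => intro A; simp [Protocol.fold, ih]
  | toss k w h0 h1 next ih => intro A; simp [Protocol.fold, ih]

theorem Protocol.fold_sum {β ι : Type} [AddCommMonoid β] [Module ℝ β] (s : Finset ι) (f : ι → Matrix (Idx d) (Fin d) ℂ → β)
    {R : ℕ} (T : Protocol d R) (A : Matrix (Idx d) (Fin d) ℂ) :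
      T.fold (fun B => ∑ i ∈ s, f i B) A = ∑ i ∈ s, T.fold (f i) A := by
  classical
  induction s using Finset.induction_on with
  | empty =>
    simp only [Finset.sum_empty]
    exact Protocol.fold_zero T A
  | insert a s ha ih =>
    simp only [Finset.sum_insert ha]
    rw [Protocol.fold_add, ih]

/-- column norms -/
noncomputable def cn (B : Matrix (Idx d) (Fin d) ℂ) (x : Fin d) : ℝ := ∑ h, ‖B h x‖ ^ 2

theorem cn_eq (B : Matrix (Idx d) (Fin d) ℂ) (x : Fin d) : ((cn B x : ℝ) : ℂ) = (Bᴴ * B) x x := by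
  simp only [cn, Matrix.mul_apply, Matrix.conjTranspose_apply]
  push_cast
  refine Finset.sum_congr rfl fun h _ => ?_
  rw [← Complex.conj_mul']
  rfl

theorem cn_unitary (U : Matrix.unitaryGroup (Idx d) ℂ) (A : Matrix (Idx d) (Fin d) ℂ) (x : Fin d) :
    cn ((U : Matrix (Idx d) (Idx d) ℂ) * A) x = cn A x := by
  have h : ((cn ((U : Matrix (Idx d) (Idx d) ℂ) * A) x : ℝ) : ℂ) = ((cn A x : ℝ) : ℂ) := by
    rw [cn_eq, cn_eq, Matrix.conjTranspose_mul, Matrix.mul_assoc]
    rw [← Matrix.mul_assoc _ _ A]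
    have : (U : Matrix (Idx d) (Idx d) ℂ)ᴴ * (U : Matrix (Idx d) (Idx d) ℂ) = 1 := by
      have := Matrix.UnitaryGroup.star_mul_self U
      simpa [Matrix.star_eq_conjTranspose] using this
    rw [this, Matrix.one_mul]
  exact_mod_cast h

theorem cn_meas {m : ℕ} (M : ProjMeas d m) (A : Matrix (Idx d) (Fin d) ℂ) (x : Fin d) :
    ∑ i, cn (M.P i * A) x = cn A x := by
  have h : ((∑ i, cn (M.P i * A) x : ℝ) : ℂ) = ((cn A x : ℝ) : ℂ) := by
    push_cast
    simp only [cn_eq, Matrix.conjTranspose_mul, M.hermitian]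
    have : ∀ i, Aᴴ * M.P i * (M.P i * A) = Aᴴ * M.P i * A := by
      intro i
      rw [Matrix.mul_assoc, ← Matrix.mul_assoc (M.P i) (M.P i) A, M.idempotent, Matrix.mul_assoc]
    simp only [this]
    rw [← Matrix.sum_apply, ← Matrix.sum_mul, ← Matrix.mul_sum, M.sum_eq_one, Matrix.mul_one]
  exact_mod_cast h

theorem Protocol.fold_cn_le (x : Fin d) : 
    ∀ {R : ℕ} (T : Protocol d R) (A : Matrix (Idx d) (Fin d) ℂ), T.fold (fun B => cn B x) A ≤ cn A x := by
  intro R T
  induction T with
  | stop U s =>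
    intro A
    cases s
    · simp only [Protocol.fold]
      exact Finset.sum_nonneg fun _ _ => by positivity
    · simp only [Protocol.fold, if_true, cn_unitary]
      exact le_refl _
  | measure U m M next ih =>
    intro A
    simp only [Protocol.fold]
    calc ∑ i, (next i).fold (fun B => cn B x) (M.P i * (U : Matrix (Idx d) (Idx d) ℂ) * A)
        ≤ ∑ i, cn (M.P i * (U : Matrix (Idx d) (Idx d) ℂ) * A) x := Finset.sum_le_sum fun i _ => ih i _
      _ = ∑ i, cn (M.P i * ((U : Matrix (Idx d) (Idx d) ℂ) * A)) x := by simp only [Matrix.mul_assoc]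
      _ = cn A x := by rw [cn_meas, cn_unitary]
  | toss k w h0 h1 next ih =>
    intro A
    simp only [Protocol.fold, smul_eq_mul]
    calc ∑ i, w i * (next i).fold (fun B => cn B x) A ≤ ∑ i, w i * cn A x :=
          Finset.sum_le_sum fun i _ => mul_le_mul_of_nonneg_left (ih i _) (h0 i)
      _ = cn A x := by rw [← Finset.sum_mul, h1, one_mul]


theorem Protocol.run_eq_fold (X : Matrix (Fin d) (Fin d) ℂ) :
    ∀ {R : ℕ} (T : Protocol d R) (A : Matrix (Idx d) (Fin d) ℂ),
      T.run (A * X * Aᴴ) = T.fold (fun B => B * X * Bᴴ) A := by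
  intro R T
  induction T with
  | stop U s =>
    intro A
    cases s
    · simp [Protocol.run, Protocol.fold]
    · simp [Protocol.run, Protocol.fold, Matrix.conjTranspose_mul, Matrix.mul_assoc]
  | measure U m M next ih =>
    intro A
    simp only [Protocol.run, Protocol.fold]
    refine Finset.sum_congr rfl fun i _ => ?_
    rw [← ih i]
    congr 1
    simp [Matrix.conjTranspose_mul, Matrix.mul_assoc, M.hermitian]
  | toss k w h0 h1 next ih =>
    intro A
    simp only [Protocol.run, Protocol.fold]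
    refine Finset.sum_congr rfl fun i _ => ?_
    rw [ih i]

/-- The isometry `|ψ⟩ ↦ |ψ⟩ ⊗ |0⟩`. -/
def V0 (d : ℕ) : Matrix (Idx d) (Fin d) ℂ := Matrix.of fun h x => if h = (x, 0) then 1 else 0

theorem prepare_eq (X : Matrix (Fin d) (Fin d) ℂ) : prepare X = V0 d * X * (V0 d)ᴴ := by
  ext ⟨i, a⟩ ⟨j, b⟩
  simp only [prepare, Matrix.of_apply, V0, Matrix.mul_apply, Matrix.conjTranspose_apply, Prod.mk.injEq,
    apply_ite star, star_one, star_zero, mul_ite, mul_one, mul_zero, ite_mul, one_mul, zero_mul]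
  by_cases ha : a = 0
  · by_cases hb : b = 0
    · simp [ha, hb]
    · simp [ha, hb]
  · simp [ha]

theorem cn_V0 (x : Fin d) : cn (V0 d) x = 1 := by
  simp only [cn, V0, Matrix.of_apply]
  rw [Finset.sum_eq_single (x, 0)]
  · simp
  · intro b _ hb
    simp [hb]
  · simp

theorem Protocol.out_apply {R : ℕ} (T : Protocol d R) (X : Matrix (Fin d) (Fin d) ℂ) (i j : Fin d) :
    T.out X i j = T.fold (fun B => ∑ a : Fin 2, (B * X * Bᴴ) (i, a) (j, a)) (V0 d) := by
  unfold Protocol.out discard
  rw [prepare_eq, Protocol.run_eq_fold, Matrix.of_apply]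
  rw [Protocol.fold_sum]
  refine Finset.sum_congr rfl fun a _ => ?_
  exact Protocol.map_fold
    (⟨⟨fun M : Matrix (Idx d) (Idx d) ℂ => M (i,a) (j,a), fun _ _ => rfl⟩, fun _ _ => rfl⟩ :
      Matrix (Idx d) (Idx d) ℂ →ₗ[ℝ] ℂ) _ T _

/-- linear functional on diagonals -/
theorem Protocol.out_single {R : ℕ} (T : Protocol d R) (x y i j : Fin d) :
    T.out (Matrix.single x y 1) i j = T.fold (fun B => ∑ a : Fin 2, B (i, a) x * star (B (j, a) y)) (V0 d) := by
  rw [Protocol.out_apply]
  apply Protocol.fold_congr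
  apply Protocol.All.mono (p := fun _ => True) (fun B _ => ?_)
  · have : ∀ {R : ℕ} (T : Protocol d R) (A : Matrix (Idx d) (Fin d) ℂ), T.All (fun _ => True) A := by
      intro R T
      induction T with
      | stop U s => intro A _; trivial
      | measure U m M next ih => intro A i; exact ih i _
      | toss k w h0 h1 next ih => intro A i _; exact ih i _
    exact this T _
  · refine Finset.sum_congr rfl fun a _ => ?_
    simp [Matrix.mul_apply, Matrix.single_apply, Finset.sum_ite_eq, ite_and]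

theorem Protocol.fold_diag {R : ℕ} (T : Protocol d R) (α : Fin d → ℂ) :
    ((T.fold (fun B => ∑ a : Fin 2, ‖∑ x, α x * B (x, a) x‖ ^ 2) (V0 d) : ℝ) : ℂ) =
      ∑ x, ∑ y, α x * star (α y) * T.out (Matrix.single x y 1) x y := by
  have h1 : ((T.fold (fun B => ∑ a : Fin 2, ‖∑ x, α x * B (x, a) x‖ ^ 2) (V0 d) : ℝ) : ℂ) =
    T.fold (fun B => ((∑ a : Fin 2, ‖∑ x, α x * B (x, a) x‖ ^ 2 : ℝ) : ℂ)) (V0 d) :=
    Protocol.map_fold Complex.ofRealCLM.toLinearMap _ T _
  rw [h1]
  have h2 : ∀ x y, α x * star (α y) * T.out (Matrix.single x y 1) x y =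
      T.fold (fun B => α x * star (α y) * ∑ a : Fin 2, B (x, a) x * star (B (y, a) y)) (V0 d) := by
    intro x y
    rw [Protocol.out_single]
    exact Protocol.map_fold (LinearMap.mulLeft ℝ (α x * star (α y))) _ T _
  simp only [h2]
  simp only [← Protocol.fold_sum]
  congr 1
  ext B
  push_cast
  have h3 : ∀ a : Fin 2, ((‖∑ x, α x * B (x, a) x‖ : ℝ) : ℂ) ^ 2 = 
      ∑ x, ∑ y, α x * star (α y) * (B (x, a) x * star (B (y, a) y)) := by
    intro a
    rw [← Complex.mul_conj']
    rw [map_sum, Finset.sum_mul_sum]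
    refine Finset.sum_congr rfl fun x _ => Finset.sum_congr rfl fun y _ => ?_
    simp only [map_mul, Complex.star_def]
    ring
  simp only [h3]
  rw [Finset.sum_comm]
  refine Finset.sum_congr rfl fun x _ => ?_
  rw [Finset.sum_comm]
  refine Finset.sum_congr rfl fun y _ => ?_
  rw [Finset.mul_sum]


/-! ### Ranks -/

theorem rank_eq_trace (Q : Matrix (Idx d) (Idx d) ℂ) (hQ : Q * Q = Q) : ((Q.rank : ℕ) : ℂ) = Q.trace := by
  have h1 : IsIdempotentElem (Matrix.toLin' Q) := by
    unfold IsIdempotentElem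
    rw [Module.End.mul_eq_comp, ← Matrix.toLin'_mul, hQ]
  have h2 := (LinearMap.IsIdempotentElem.isProj_range _ h1).trace
  rw [Matrix.trace_toLin'_eq] at h2
  rw [h2]
  rfl

theorem rank_sum {m : ℕ} (M : ProjMeas d m) : ∑ i, (M.P i).rank = 2 * d := by
  have h : ((∑ i, (M.P i).rank : ℕ) : ℂ) = ((2 * d : ℕ) : ℂ) := by
    push_cast
    simp only [rank_eq_trace _ (M.idempotent _)]
    rw [← Matrix.trace_sum, M.sum_eq_one, Matrix.trace_one]
    simp [mul_comm]
  exact_mod_cast h

theorem card_le_rank (A : Matrix (Idx d) (Fin d) ℂ) (X : Finset (Fin d))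
    (h : ∀ α : Fin d → ℂ, (∀ x, x ∉ X → α x = 0) → A *ᵥ α = 0 → α = 0) : X.card ≤ A.rank := by
  classical
  let ext : (X → ℂ) →ₗ[ℂ] (Fin d → ℂ) :=
    { toFun := fun β x => if hx : x ∈ X then β ⟨x, hx⟩ else 0
      map_add' := by
        intro β γ
        funext x
        by_cases hx : x ∈ X <;> simp [hx]
      map_smul' := by
        intro c β
        funext x
        by_cases hx : x ∈ X <;> simp [hx] }
  let L : (X → ℂ) →ₗ[ℂ] (Idx d → ℂ) := A.mulVecLin ∘ₗ ext
  have hinj : Function.Injective L := by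
    rw [← LinearMap.ker_eq_bot, LinearMap.ker_eq_bot']
    intro β hβ
    have h0 : ext β = 0 := by
      apply h
      · intro x hx
        simp [ext, hx]
      · simpa [L] using hβ
    funext x
    have := congrFun h0 x
    simpa [ext] using this
  have h1 := LinearMap.finrank_range_of_inj hinj
  have h2 : Module.finrank ℂ (LinearMap.range L) ≤ Module.finrank ℂ (LinearMap.range A.mulVecLin) :=
    Submodule.finrank_mono (LinearMap.range_comp_le_range _ _)
  rw [h1] at h2
  simpa [Matrix.rank] using h2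

theorem Protocol.All_mulVec (α : Fin d → ℂ) :
    ∀ {R : ℕ} (T : Protocol d R) (A : Matrix (Idx d) (Fin d) ℂ), A *ᵥ α = 0 →
      T.All (fun B => B *ᵥ α = 0) A := by
  intro R T
  induction T with
  | stop U s =>
    intro A hA hs
    rw [← Matrix.mulVec_mulVec, hA, Matrix.mulVec_zero]
  | measure U m M next ih =>
    intro A hA i
    apply ih
    rw [← Matrix.mulVec_mulVec, hA, Matrix.mulVec_zero]
  | toss k w h0 h1 next ih =>
    intro A hA i _
    exact ih i A hA

/-! ### The index set -/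

/-- The sign attached to an element of `Fin 3`. -/
def sg : Fin 3 → ℝ := ![0, 1, -1]

theorem sg_inj : Function.Injective sg := by
  intro a b h
  fin_cases a <;> fin_cases b <;> simp [sg] at h ⊢ <;> norm_num at h

variable {N : ℕ}

/-- The point of `{0,1,2}^N` with number `x`. -/
def pt (x : Fin (3 ^ N)) : Fin N → Fin 3 := finFunctionFinEquiv.symm x

def ofPt (s : Fin N → Fin 3) : Fin (3 ^ N) := finFunctionFinEquiv s

@[simp] theorem pt_ofPt (s : Fin N → Fin 3) : pt (ofPt s) = s := by simp [pt, ofPt]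
@[simp] theorem ofPt_pt (x : Fin (3 ^ N)) : ofPt (pt x) = x := by simp [pt, ofPt]

theorem pt_inj {x y : Fin (3 ^ N)} (h : pt x = pt y) : x = y := by
  rw [← ofPt_pt x, h, ofPt_pt]

/-- Squared length. -/
noncomputable def nrm (x : Fin (3 ^ N)) : ℝ := 1 + ∑ j, sg (pt x j) ^ 2

theorem nrm_pos (x : Fin (3 ^ N)) : 0 < nrm x := by
  unfold nrm
  have : 0 ≤ ∑ j, sg (pt x j) ^ 2 := Finset.sum_nonneg fun _ _ => sq_nonneg _
  linarith

/-- The unit vectors `v_x = (1, sg x_1, ..., sg x_N) / ‖·‖`. -/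
noncomputable def vec (x : Fin (3 ^ N)) (o : Option (Fin N)) : ℝ :=
  (o.elim 1 (fun j => sg (pt x j))) / √(nrm x)

theorem vec_none (x : Fin (3 ^ N)) : vec x none = 1 / √(nrm x) := rfl
theorem vec_some (x : Fin (3 ^ N)) (j : Fin N) : vec x (some j) = sg (pt x j) / √(nrm x) := rfl

theorem vec_unit (x : Fin (3 ^ N)) : ∑ o, vec x o * vec x o = 1 := by
  rw [Fintype.sum_option, vec_none]
  simp only [vec_some]
  have h := nrm_pos x
  have h2 : √(nrm x) * √(nrm x) = nrm x := Real.mul_self_sqrt h.le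
  have h3 : ∀ j, sg (pt x j) / √(nrm x) * (sg (pt x j) / √(nrm x)) = sg (pt x j) ^ 2 / nrm x := by
    intro j
    rw [div_mul_div_comm, h2]
    ring
  simp only [h3]
  rw [← Finset.sum_div, div_mul_div_comm, h2, ← add_div, one_mul]
  exact div_self h.ne'

/-- The correlation matrix. -/
noncomputable def corr (x y : Fin (3 ^ N)) : ℝ := ∑ o, vec x o * vec y o

/-- The point with a single plus sign at `j`. -/
def pl (j : Fin N) : Fin (3 ^ N) := ofPt (Function.update (fun _ => 0) j 1)
/-- The point with a single minus sign at `j`. -/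
def mi (j : Fin N) : Fin (3 ^ N) := ofPt (Function.update (fun _ => 0) j 2)
/-- The zero point. -/
def ze (N : ℕ) : Fin (3 ^ N) := ofPt (fun _ => 0)

theorem sg_pl (i j : Fin N) : sg (pt (pl j) i) = if i = j then 1 else 0 := by
  simp only [pl, pt_ofPt, Function.update_apply]
  split_ifs <;> simp [sg]

theorem sg_mi (i j : Fin N) : sg (pt (mi j) i) = if i = j then -1 else 0 := by
  simp only [mi, pt_ofPt, Function.update_apply]
  split_ifs <;> simp [sg]

theorem sg_ze (i : Fin N) : sg (pt (ze N) i) = 0 := by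
  simp [ze, pt_ofPt, sg]

theorem nrm_pl (j : Fin N) : nrm (pl j) = 2 := by
  simp only [nrm, sg_pl]
  simp
  norm_num

theorem nrm_mi (j : Fin N) : nrm (mi j) = 2 := by
  simp only [nrm, sg_mi]
  simp
  norm_num

theorem nrm_ze : nrm (ze N) = 1 := by
  simp only [nrm, sg_ze]
  simp


/-- Extracted coefficients. -/
noncomputable def cf (B : Matrix (Idx (3 ^ N)) (Fin (3 ^ N)) ℂ) (a : Fin 2) (j : Fin N) : ℂ :=
  (B (pl j, a) (pl j) - B (mi j, a) (mi j)) / (√2 : ℝ)

noncomputable def cf0 (B : Matrix (Idx (3 ^ N)) (Fin (3 ^ N)) ℂ) (a : Fin 2) : ℂ :=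
  B (ze N, a) (ze N)

/-- Leaves in the operator space of the channel. -/
structure Good (B : Matrix (Idx (3 ^ N)) (Fin (3 ^ N)) ℂ) : Prop where
  offdiag : ∀ x y a, y ≠ x → B (y, a) x = 0
  diag : ∀ x a, B (x, a) x = (∑ j, (sg (pt x j) : ℂ) * cf B a j + cf0 B a) / (√(nrm x) : ℝ)

/-- the weight functional -/
noncomputable def wt (B : Matrix (Idx (3 ^ N)) (Fin (3 ^ N)) ℂ) : ℝ := ∑ a : Fin 2, ∑ j, ‖cf B a j‖ ^ 2

theorem wt_nonneg (B : Matrix (Idx (3 ^ N)) (Fin (3 ^ N)) ℂ) : 0 ≤ wt B :=
  Finset.sum_nonneg fun _ _ => Finset.sum_nonneg fun _ _ => sq_nonneg _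

theorem norm_diag_le {B : Matrix (Idx (3 ^ N)) (Fin (3 ^ N)) ℂ} (h : ∀ x, cn B x ≤ 1) (x : Fin (3 ^ N))
    (a : Fin 2) : ‖B (x, a) x‖ ≤ 1 := by
  have h1 : ‖B (x, a) x‖ ^ 2 ≤ cn B x :=
    Finset.single_le_sum (f := fun h => ‖B h x‖ ^ 2) (fun _ _ => sq_nonneg _) (Finset.mem_univ (x, a))
  have h2 := h1.trans (h x)
  have h3 := norm_nonneg (B (x, a) x)
  nlinarith

theorem Good.num_le {B : Matrix (Idx (3 ^ N)) (Fin (3 ^ N)) ℂ} (hB : Good B) (h : ∀ x, cn B x ≤ 1)
    (x : Fin (3 ^ N)) (a : Fin 2) :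
    ‖∑ j, (sg (pt x j) : ℂ) * cf B a j + cf0 B a‖ ≤ √(nrm x) := by
  have h1 := norm_diag_le h x a
  rw [hB.diag, norm_div] at h1
  have h2 : 0 < √(nrm x) := Real.sqrt_pos.mpr (nrm_pos x)
  have h3 : ‖((√(nrm x) : ℝ) : ℂ)‖ = √(nrm x) := by
    rw [Complex.norm_real, Real.norm_of_nonneg h2.le]
  rw [h3, div_le_one h2] at h1
  exact h1

theorem Good.cf_le {B : Matrix (Idx (3 ^ N)) (Fin (3 ^ N)) ℂ} (_ : Good B) (h : ∀ x, cn B x ≤ 1)
    (a : Fin 2) (j : Fin N) : ‖cf B a j‖ ≤ √2 := by
  have h1 := norm_diag_le h (pl j) a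
  have h2 := norm_diag_le h (mi j) a
  unfold cf
  rw [norm_div]
  have h3 : ‖((√2 : ℝ) : ℂ)‖ = √2 := by
    rw [Complex.norm_real, Real.norm_of_nonneg (Real.sqrt_nonneg _)]
  rw [h3, div_le_iff₀ (by positivity)]
  have h4 : √2 * √2 = 2 := Real.mul_self_sqrt (by norm_num)
  rw [h4]
  calc ‖B (pl j, a) (pl j) - B (mi j, a) (mi j)‖ ≤ ‖B (pl j, a) (pl j)‖ + ‖B (mi j, a) (mi j)‖ := norm_sub_le _ _
    _ ≤ 2 := by linarith

/-- full-support sign vectors -/
theorem full_sign (t : Fin N → Bool) : ∃ x : Fin (3 ^ N), nrm x = N + 1 ∧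
    ∀ j, sg (pt x j) = if t j then 1 else -1 := by
  refine ⟨ofPt (fun j => if t j then 1 else 2), ?_, ?_⟩
  · simp only [nrm, pt_ofPt]
    have : ∀ j, sg (if t j = true then 1 else 2) ^ 2 = 1 := by
      intro j
      split_ifs <;> simp [sg]
    simp only [this]
    simp
    ring
  · intro j
    rw [pt_ofPt]
    split_ifs <;> simp [sg]

theorem Good.sum_sign_le {B : Matrix (Idx (3 ^ N)) (Fin (3 ^ N)) ℂ} (hB : Good B) (h : ∀ x, cn B x ≤ 1)
    (a : Fin 2) (t : Fin N → Bool) : ‖∑ j, (if t j then (1:ℂ) else -1) * cf B a j‖ ≤ √(N + 1) := by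
  obtain ⟨x, hx1, hx2⟩ := full_sign t
  obtain ⟨y, hy1, hy2⟩ := full_sign (fun j => !(t j))
  have h1 := hB.num_le h x a
  have h2 := hB.num_le h y a
  rw [hx1] at h1
  rw [hy1] at h2
  have e1 : ∑ j, (sg (pt x j) : ℂ) * cf B a j = ∑ j, (if t j then (1:ℂ) else -1) * cf B a j := by
    refine Finset.sum_congr rfl fun j _ => ?_
    rw [hx2]
    split_ifs <;> simp
  have e2 : ∑ j, (sg (pt y j) : ℂ) * cf B a j = - ∑ j, (if t j then (1:ℂ) else -1) * cf B a j := by
    rw [← Finset.sum_neg_distrib]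
    refine Finset.sum_congr rfl fun j _ => ?_
    rw [hy2]
    cases t j <;> simp
  rw [e1] at h1
  rw [e2] at h2
  set S := ∑ j, (if t j then (1:ℂ) else -1) * cf B a j
  have h3 : (2:ℂ) * S = (S + cf0 B a) - (-S + cf0 B a) := by ring
  have h4 : ‖(2:ℂ) * S‖ ≤ 2 * √(N + 1) := by
    rw [h3]
    refine (norm_sub_le _ _).trans ?_
    linarith
  rw [norm_mul] at h4
  simp at h4
  linarith

theorem Good.sum_norm_le {B : Matrix (Idx (3 ^ N)) (Fin (3 ^ N)) ℂ} (hB : Good B) (h : ∀ x, cn B x ≤ 1)
    (a : Fin 2) : ∑ j, ‖cf B a j‖ ≤ 2 * √(N + 1) := by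
  classical
  have h1 := hB.sum_sign_le h a (fun j => decide (0 ≤ (cf B a j).re))
  have h2 := hB.sum_sign_le h a (fun j => decide (0 ≤ (cf B a j).im))
  have e1 : ∑ j, |(cf B a j).re| ≤ √(N + 1) := by
    refine le_trans (le_of_eq ?_) ((Complex.re_le_norm _).trans h1)
    rw [Complex.re_sum]
    refine Finset.sum_congr rfl fun j _ => ?_
    by_cases hj : 0 ≤ (cf B a j).re
    · simp [hj, abs_of_nonneg hj]
    · have hj' : (cf B a j).re < 0 := not_le.mp hj
      simp [hj, abs_of_neg hj']
  have e2 : ∑ j, |(cf B a j).im| ≤ √(N + 1) := by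
    refine le_trans (le_of_eq ?_) ((Complex.im_le_norm _).trans h2)
    rw [Complex.im_sum]
    refine Finset.sum_congr rfl fun j _ => ?_
    by_cases hj : 0 ≤ (cf B a j).im
    · simp [hj, abs_of_nonneg hj]
    · have hj' : (cf B a j).im < 0 := not_le.mp hj
      simp [hj, abs_of_neg hj']
  calc ∑ j, ‖cf B a j‖ ≤ ∑ j, (|(cf B a j).re| + |(cf B a j).im|) :=
        Finset.sum_le_sum fun j _ => Complex.norm_le_abs_re_add_abs_im _
    _ = ∑ j, |(cf B a j).re| + ∑ j, |(cf B a j).im| := Finset.sum_add_distrib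
    _ ≤ 2 * √(N + 1) := by linarith

theorem Good.wt_le {B : Matrix (Idx (3 ^ N)) (Fin (3 ^ N)) ℂ} (hB : Good B) (h : ∀ x, cn B x ≤ 1) :
    wt B ≤ 6 * √(N + 1) := by
  have h2 : √2 ≤ 3 / 2 := by
    rw [Real.sqrt_le_left (by norm_num)]
    norm_num
  have h1 : ∀ a : Fin 2, ∑ j, ‖cf B a j‖ ^ 2 ≤ 3 * √(N + 1) := by
    intro a
    calc ∑ j, ‖cf B a j‖ ^ 2 ≤ ∑ j, (3 / 2) * ‖cf B a j‖ := by
          refine Finset.sum_le_sum fun j _ => ?_
          rw [sq]
          exact mul_le_mul_of_nonneg_right ((hB.cf_le h a j).trans h2) (norm_nonneg _)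
      _ = (3 / 2) * ∑ j, ‖cf B a j‖ := by rw [Finset.mul_sum]
      _ ≤ (3 / 2) * (2 * √(N + 1)) := mul_le_mul_of_nonneg_left (hB.sum_norm_le h a) (by norm_num)
      _ = 3 * √(N + 1) := by ring
  unfold wt
  rw [Fin.sum_univ_two]
  linarith [h1 0, h1 1]

/-- A good leaf with a nonzero coefficient has many nonzero diagonal entries. -/
theorem Good.card_ne {B : Matrix (Idx (3 ^ N)) (Fin (3 ^ N)) ℂ} (hB : Good B) (a : Fin 2) (j : Fin N)
    (hj : cf B a j ≠ 0) :
    2 * 3 ^ N ≤ 3 * (Finset.univ.filter fun x : Fin (3 ^ N) => B (x, a) x ≠ 0).card := by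
  classical
  set Z := Finset.univ.filter fun x : Fin (3 ^ N) => B (x, a) x = 0 with hZ
  have hcard : Z.card + (Finset.univ.filter fun x : Fin (3 ^ N) => B (x, a) x ≠ 0).card = 3 ^ N := by
    rw [hZ, Finset.card_filter_add_card_filter_not]
    simp
  have hZ3 : 3 * Z.card ≤ 3 ^ N := by
    have hinj : Set.InjOn (fun p : Fin 3 × Fin (3 ^ N) => ofPt (Function.update (pt p.2) j p.1))
        ((Finset.univ ×ˢ Z : Finset (Fin 3 × Fin (3 ^ N))) : Set (Fin 3 × Fin (3 ^ N))) := by
      rintro ⟨t, x⟩ hx ⟨t', x'⟩ hx' heq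
      simp only [Finset.coe_product, Set.mem_prod, Finset.mem_coe] at hx hx'
      have hxZ : B (x, a) x = 0 := by
        have := hx.2
        rw [hZ, Finset.mem_filter] at this
        exact this.2
      have hxZ' : B (x', a) x' = 0 := by
        have := hx'.2
        rw [hZ, Finset.mem_filter] at this
        exact this.2
      simp only at heq
      have h1 : Function.update (pt x) j t = Function.update (pt x') j t' := by
        have := congrArg pt heq
        simpa using this
      have htt : t = t' := by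
        have := congrFun h1 j
        simpa using this
      have hoff : ∀ i, i ≠ j → pt x i = pt x' i := by
        intro i hi
        have := congrFun h1 i
        simpa [Function.update_of_ne hi] using this
      have hnum : ∀ y : Fin (3 ^ N), B (y, a) y = 0 →
          ∑ j, (sg (pt y j) : ℂ) * cf B a j + cf0 B a = 0 := by
        intro y hy
        rw [hB.diag, div_eq_zero_iff] at hy
        rcases hy with hy | hy
        · exact hy
        · exfalso
          have := Real.sqrt_pos.mpr (nrm_pos y)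
          exact this.ne' (by exact_mod_cast hy)
      have h2 := hnum x hxZ
      have h3 := hnum x' hxZ'
      rw [← Finset.add_sum_erase _ _ (Finset.mem_univ j)] at h2 h3
      have h4 : ∑ i ∈ Finset.univ.erase j, (sg (pt x i) : ℂ) * cf B a i =
          ∑ i ∈ Finset.univ.erase j, (sg (pt x' i) : ℂ) * cf B a i := by
        refine Finset.sum_congr rfl fun i hi => ?_
        rw [hoff i (Finset.ne_of_mem_erase hi)]
      have h5 : ((sg (pt x j) : ℂ) - sg (pt x' j)) * cf B a j = 0 := by
        rw [h4] at h2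
        linear_combination h2 - h3
      have h6 : (sg (pt x j) : ℂ) = sg (pt x' j) := by
        rcases mul_eq_zero.mp h5 with h | h
        · exact sub_eq_zero.mp h
        · exact absurd h hj
      have h7 : pt x j = pt x' j := sg_inj (by exact_mod_cast h6)
      have h8 : x = x' := by
        apply pt_inj
        funext i
        by_cases hi : i = j
        · rw [hi, h7]
        · exact hoff i hi
      rw [htt, h8]
    have := Finset.card_le_card_of_injOn _ (fun p _ => Finset.mem_univ _) hinj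
    simpa [Finset.card_product] using this
  omega


/-- If some leaf below is nonzero on coefficients then the weight is nonzero; contrapositive. -/
theorem Protocol.wt_eq_zero_or {R : ℕ} (T : Protocol (3 ^ N) R) (A : Matrix (Idx (3 ^ N)) (Fin (3 ^ N)) ℂ)
    (hgood : T.All Good A) (Q : Matrix (Idx (3 ^ N)) (Idx (3 ^ N)) ℂ)
    (hA : ∃ A', A = Q * A') : T.fold wt A = 0 ∨ 2 * 3 ^ N ≤ 3 * Q.rank := by
  classical
  by_cases hall : T.All (fun B => wt B = 0) A
  · left
    rw [Protocol.fold_congr (g := fun _ => (0:ℝ)) T A hall]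
    exact Protocol.fold_zero T A
  · right
    by_contra hcon
    push Not at hcon
    apply hall
    obtain ⟨A', hA'⟩ := hA
    have hrank : A.rank ≤ Q.rank := by
      rw [hA']
      exact Matrix.rank_mul_le_left _ _
    -- every good leaf has zero weight
    have key : T.All (fun B => ∀ α : {α : Fin (3 ^ N) → ℂ // A *ᵥ α = 0}, B *ᵥ α.1 = 0) A :=
      Protocol.All.forall T A (fun α => Protocol.All_mulVec α.1 T A α.2)
    refine Protocol.All.mono ?_ T A (Protocol.All.and T A hgood key)
    rintro B ⟨hB, hker⟩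
    unfold wt
    refine Finset.sum_eq_zero fun a _ => Finset.sum_eq_zero fun j _ => ?_
    by_contra hne
    have hcf : cf B a j ≠ 0 := by
      intro h0
      apply hne
      simp [h0]
    have h1 := hB.card_ne a j hcf
    have h2 : (Finset.univ.filter fun x : Fin (3 ^ N) => B (x, a) x ≠ 0).card ≤ A.rank := by
      apply card_le_rank
      intro α hα hAα
      have hBα := hker ⟨α, hAα⟩
      funext x
      by_cases hx : B (x, a) x = 0
      · apply hα
        simp [hx]
      · have h3 := congrFun hBα (x, a)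
        simp only [Matrix.mulVec, dotProduct, Pi.zero_apply] at h3
        rw [Finset.sum_eq_single x] at h3
        · rcases mul_eq_zero.mp h3 with h | h
          · exact absurd h hx
          · simpa using h
        · intro y _ hy
          rw [hB.offdiag y x a (Ne.symm hy), zero_mul]
        · intro h
          exact absurd (Finset.mem_univ x) h
    omega

theorem Protocol.tree_bound : ∀ {R : ℕ} (T : Protocol (3 ^ N) R)
    (A : Matrix (Idx (3 ^ N)) (Fin (3 ^ N)) ℂ), (∀ x, cn A x ≤ 1) → T.All Good A →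
    T.fold wt A ≤ 3 ^ R * (6 * √(N + 1)) := by
  classical
  intro R T
  induction T with
  | @stop R U s =>
    intro A hA hg
    have h0 : (0:ℝ) ≤ 6 * √(N + 1) := by positivity
    have h1 : (1:ℝ) ≤ 3 ^ R := one_le_pow₀ (by norm_num)
    cases s
    · simp only [Protocol.fold]
      simp only [Bool.false_eq_true, if_false]
      positivity
    · simp only [Protocol.fold, if_true]
      have hB : Good ((U : Matrix (Idx (3 ^ N)) (Idx (3 ^ N)) ℂ) * A) := hg rfl
      have h2 := hB.wt_le (fun x => by rw [cn_unitary]; exact hA x)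
      nlinarith
  | @measure R U m M next ih =>
    intro A hA hg
    simp only [Protocol.fold]
    set S : Finset (Fin m) := Finset.univ.filter fun i =>
      (next i).fold wt (M.P i * (U : Matrix (Idx (3 ^ N)) (Idx (3 ^ N)) ℂ) * A) ≠ 0 with hS
    have hsum : ∑ i, (next i).fold wt (M.P i * (U : Matrix (Idx (3 ^ N)) (Idx (3 ^ N)) ℂ) * A) =
        ∑ i ∈ S, (next i).fold wt (M.P i * (U : Matrix (Idx (3 ^ N)) (Idx (3 ^ N)) ℂ) * A) := by
      rw [hS, Finset.sum_filter_ne_zero]
    have hrank : ∀ i ∈ S, 2 * 3 ^ N ≤ 3 * (M.P i).rank := by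
      intro i hi
      rw [hS, Finset.mem_filter] at hi
      rcases Protocol.wt_eq_zero_or (next i) _ (hg i) (M.P i)
        ⟨(U : Matrix (Idx (3 ^ N)) (Idx (3 ^ N)) ℂ) * A, Matrix.mul_assoc _ _ _⟩ with h | h
      · exact absurd h hi.2
      · exact h
    have hcard : S.card ≤ 3 := by
      have h1 : S.card * (2 * 3 ^ N) ≤ 3 * ∑ i ∈ S, (M.P i).rank := by
        rw [Finset.mul_sum]
        calc S.card * (2 * 3 ^ N) = ∑ _i ∈ S, 2 * 3 ^ N := by simp
          _ ≤ ∑ i ∈ S, 3 * (M.P i).rank := Finset.sum_le_sum hrank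
      have h2 : ∑ i ∈ S, (M.P i).rank ≤ 2 * 3 ^ N := by
        rw [← rank_sum M]
        exact Finset.sum_le_sum_of_subset (Finset.subset_univ _)
      have h3 : S.card * (2 * 3 ^ N) ≤ 3 * (2 * 3 ^ N) := h1.trans (by omega)
      exact Nat.le_of_mul_le_mul_right h3 (by positivity)
    have hcn : ∀ i x, cn (M.P i * (U : Matrix (Idx (3 ^ N)) (Idx (3 ^ N)) ℂ) * A) x ≤ 1 := by
      intro i x
      rw [Matrix.mul_assoc]
      calc cn (M.P i * ((U : Matrix (Idx (3 ^ N)) (Idx (3 ^ N)) ℂ) * A)) x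
          ≤ ∑ i, cn (M.P i * ((U : Matrix (Idx (3 ^ N)) (Idx (3 ^ N)) ℂ) * A)) x :=
            Finset.single_le_sum (f := fun i => cn (M.P i * ((U : Matrix (Idx (3 ^ N)) (Idx (3 ^ N)) ℂ) * A)) x)
              (fun i _ => Finset.sum_nonneg fun _ _ => sq_nonneg _) (Finset.mem_univ i)
        _ = cn A x := by rw [cn_meas, cn_unitary]
        _ ≤ 1 := hA x
    rw [hsum]
    calc ∑ i ∈ S, (next i).fold wt (M.P i * (U : Matrix (Idx (3 ^ N)) (Idx (3 ^ N)) ℂ) * A)
        ≤ ∑ _i ∈ S, 3 ^ R * (6 * √(N + 1)) :=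
          Finset.sum_le_sum fun i _ => ih i _ (hcn i) (hg i)
      _ = S.card * (3 ^ R * (6 * √(N + 1))) := by simp
      _ ≤ 3 * (3 ^ R * (6 * √(N + 1))) := by
          apply mul_le_mul_of_nonneg_right _ (by positivity)
          exact_mod_cast hcard
      _ = 3 ^ (R + 1) * (6 * √(N + 1)) := by ring
  | @toss R k w h0 h1 next ih =>
    intro A hA hg
    simp only [Protocol.fold, smul_eq_mul]
    calc ∑ i, w i * (next i).fold wt A ≤ ∑ i, w i * (3 ^ R * (6 * √(N + 1))) := by
          refine Finset.sum_le_sum fun i _ => ?_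
          by_cases hi : w i = 0
          · simp [hi]
          · exact mul_le_mul_of_nonneg_left (ih i A hA (hg i hi)) (h0 i)
      _ = 3 ^ R * (6 * √(N + 1)) := by rw [← Finset.sum_mul, h1, one_mul]


/-! ### Linearity of the output -/

theorem Protocol.run_add : ∀ {R : ℕ} (T : Protocol d R) (X Y : Matrix (Idx d) (Idx d) ℂ),
    T.run (X + Y) = T.run X + T.run Y := by
  intro R T
  induction T with
  | stop U s =>
    intro X Y
    cases s
    · simp [Protocol.run]
    · simp [Protocol.run, Matrix.mul_add, Matrix.add_mul]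
  | measure U m M next ih =>
    intro X Y
    simp only [Protocol.run, Matrix.mul_add, Matrix.add_mul]
    simp only [ih]
    rw [Finset.sum_add_distrib]
  | toss k w h0 h1 next ih =>
    intro X Y
    simp only [Protocol.run]
    simp only [ih, smul_add]
    rw [Finset.sum_add_distrib]

theorem Protocol.run_smul (c : ℂ) : ∀ {R : ℕ} (T : Protocol d R) (X : Matrix (Idx d) (Idx d) ℂ),
    T.run (c • X) = c • T.run X := by
  intro R T
  induction T with
  | stop U s =>
    intro X
    cases s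
    · simp [Protocol.run]
    · simp only [Protocol.run, if_true, Matrix.mul_smul, Matrix.smul_mul]
  | measure U m M next ih =>
    intro X
    simp only [Protocol.run, Matrix.mul_smul, Matrix.smul_mul]
    simp only [ih]
    rw [Finset.smul_sum]
  | toss k w h0 h1 next ih =>
    intro X
    simp only [Protocol.run]
    simp only [ih]
    rw [Finset.smul_sum]
    refine Finset.sum_congr rfl fun i _ => ?_
    rw [smul_comm]

/-- The output map as a linear map. -/
noncomputable def Protocol.outL {R : ℕ} (T : Protocol d R) :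
    Matrix (Fin d) (Fin d) ℂ →ₗ[ℂ] Matrix (Fin d) (Fin d) ℂ where
  toFun := T.out
  map_add' X Y := by
    have h : prepare (X + Y) = prepare X + prepare Y := by
      ext a b
      simp only [prepare, Matrix.of_apply, Matrix.add_apply]
      split_ifs <;> simp
    unfold Protocol.out
    rw [h, Protocol.run_add]
    ext i j
    simp only [discard, Matrix.of_apply, Matrix.add_apply, Finset.sum_add_distrib]
  map_smul' c X := by
    have h : prepare (c • X) = c • prepare X := by
      ext a b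
      simp only [prepare, Matrix.of_apply, Matrix.smul_apply]
      split_ifs <;> simp
    unfold Protocol.out
    rw [h, Protocol.run_smul]
    ext i j
    simp only [discard, Matrix.of_apply, Matrix.smul_apply, RingHom.id_apply, Finset.smul_sum]

theorem isState_vec (u : Fin d → ℂ) (hu : u ⬝ᵥ star u = 1) : IsState (Matrix.vecMulVec u (star u)) := by
  refine ⟨Matrix.posSemidef_vecMulVec_self_star u, ?_⟩
  rw [Matrix.trace_vecMulVec]
  exact hu

/-- the property that integrals of the output match `q Φ`. -/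
def Match {d R : ℕ} {Ω : Type} [MeasurableSpace Ω] (P : Measure Ω) (T : Ω → Protocol d R)
    (Φ : Matrix (Fin d) (Fin d) ℂ →ₗ[ℂ] Matrix (Fin d) (Fin d) ℂ) (q : ℝ) (X : Matrix (Fin d) (Fin d) ℂ) : Prop :=
  ∀ i j, Integrable (fun ω => (T ω).outL X i j) P ∧ ∫ ω, (T ω).outL X i j ∂P = q * Φ X i j

section
variable {R : ℕ} {Ω : Type} [MeasurableSpace Ω] {P : Measure Ω} {T : Ω → Protocol d R}
  {Φ : Matrix (Fin d) (Fin d) ℂ →ₗ[ℂ] Matrix (Fin d) (Fin d) ℂ} {q : ℝ}

theorem Match.add {X Y : Matrix (Fin d) (Fin d) ℂ} (hX : Match P T Φ q X) (hY : Match P T Φ q Y) :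
    Match P T Φ q (X + Y) := by
  intro i j
  have e : (fun ω => (T ω).outL (X + Y) i j) = fun ω => (T ω).outL X i j + (T ω).outL Y i j := by
    funext ω
    rw [map_add, Matrix.add_apply]
  rw [e]
  refine ⟨(hX i j).1.add (hY i j).1, ?_⟩
  rw [integral_add (hX i j).1 (hY i j).1, (hX i j).2, (hY i j).2, map_add, Matrix.add_apply, mul_add]

theorem Match.smul {X : Matrix (Fin d) (Fin d) ℂ} (c : ℂ) (hX : Match P T Φ q X) :
    Match P T Φ q (c • X) := by
  intro i j
  have e : (fun ω => (T ω).outL (c • X) i j) = fun ω => c * (T ω).outL X i j := by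
    funext ω
    rw [map_smul, Matrix.smul_apply, smul_eq_mul]
  rw [e]
  refine ⟨(hX i j).1.const_mul c, ?_⟩
  rw [integral_const_mul, (hX i j).2, map_smul, Matrix.smul_apply, smul_eq_mul]
  ring

theorem Simulates.match_state (h : Simulates P T Φ q) {ρ : Matrix (Fin d) (Fin d) ℂ} (hρ : IsState ρ) :
    Match P T Φ q ρ := by
  intro i j
  refine ⟨h.integrable ρ hρ i j, ?_⟩
  have h1 := h.output ρ hρ i j
  have hq : (q : ℂ) ≠ 0 := by exact_mod_cast h.prob_pos.ne'
  rw [div_eq_iff hq] at h1
  rw [mul_comm]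
  exact h1

theorem Simulates.match_vec (h : Simulates P T Φ q) (u : Fin d → ℂ) (hu : u ⬝ᵥ star u ≠ 0) :
    Match P T Φ q (Matrix.vecMulVec u (star u)) := by
  set r : ℝ := ∑ i, ‖u i‖ ^ 2 with hr
  have hur : u ⬝ᵥ star u = (r : ℂ) := by
    simp only [dotProduct, hr, Pi.star_apply]
    push_cast
    refine Finset.sum_congr rfl fun i _ => ?_
    rw [← Complex.mul_conj']
    rfl
  have hr0 : 0 ≤ r := Finset.sum_nonneg fun _ _ => sq_nonneg _
  have hrne : r ≠ 0 := by
    intro h0
    apply hu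
    rw [hur, h0]
    simp
  have hrpos : 0 < r := lt_of_le_of_ne hr0 (Ne.symm hrne)
  set c : ℂ := ((√r : ℝ) : ℂ)⁻¹ with hc
  have hsr : (√r : ℝ) * √r = r := Real.mul_self_sqrt hr0
  have hcc : c * star c = (r : ℂ)⁻¹ := by
    rw [hc, Complex.star_def, map_inv₀, Complex.conj_ofReal, ← mul_inv]
    rw [← Complex.ofReal_mul, hsr]
  have hst : IsState (Matrix.vecMulVec (c • u) (star (c • u))) := by
    apply isState_vec
    rw [star_smul, smul_dotProduct, dotProduct_smul, hur]
    simp only [smul_eq_mul]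
    rw [← mul_assoc, hcc, inv_mul_cancel₀]
    exact_mod_cast hrne
  have h1 := (h.match_state hst).smul (r : ℂ)
  have e : (r : ℂ) • Matrix.vecMulVec (c • u) (star (c • u)) = Matrix.vecMulVec u (star u) := by
    ext i j
    simp only [Matrix.smul_apply, Matrix.vecMulVec_apply, Pi.smul_apply, Pi.star_apply, smul_eq_mul, star_mul']
    have : (r : ℂ) * (c * u i * (star c * star (u j))) = ((r : ℂ) * (c * star c)) * (u i * star (u j)) := by ring
    rw [this, hcc, mul_inv_cancel₀, one_mul]
    exact_mod_cast hrne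
  rw [e] at h1
  exact h1

theorem Simulates.match_single (h : Simulates P T Φ q) (x y : Fin d) :
    Match P T Φ q (Matrix.single x y 1) := by
  by_cases hxy : x = y
  · subst hxy
    have h1 := h.match_vec (Pi.single x 1) (by simp)
    have e : Matrix.vecMulVec (Pi.single x (1:ℂ)) (star (Pi.single x (1:ℂ))) = Matrix.single x x 1 := by
      ext i j
      simp only [Matrix.vecMulVec_apply, Pi.star_apply, Matrix.single_apply, Pi.single_apply]
      by_cases hi : i = x
      · by_cases hj : j = x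
        · simp [hi, hj]
        · have hj' : ¬ (x = j) := fun h => hj h.symm
          simp [hi, hj, hj']
      · have hi' : ¬ (x = i) := fun h => hi h.symm
        simp [hi, hi']
    rw [e] at h1
    exact h1
  · have hx := h.match_vec (Pi.single x 1) (by simp)
    have hy := h.match_vec (Pi.single y 1) (by simp)
    have h1 := h.match_vec (Pi.single x 1 + Pi.single y 1) (by
      simp [dotProduct_add, add_dotProduct, hxy, Ne.symm hxy])
    have h2 := h.match_vec (Pi.single x 1 + Complex.I • Pi.single y 1) (by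
      simp [dotProduct_add, add_dotProduct, hxy, Ne.symm hxy])
    have h3 := ((h1.smul (1/2)).add (h2.smul (Complex.I/2))).add ((hx.add hy).smul (-((1 + Complex.I)/2)))
    have e : ((1/2 : ℂ) • Matrix.vecMulVec (Pi.single x (1:ℂ) + Pi.single y 1) (star (Pi.single x (1:ℂ) + Pi.single y 1)) +
      (Complex.I/2) • Matrix.vecMulVec (Pi.single x (1:ℂ) + Complex.I • Pi.single y 1) (star (Pi.single x (1:ℂ) + Complex.I • Pi.single y 1))) +
      (-((1 + Complex.I)/2)) • (Matrix.vecMulVec (Pi.single x (1:ℂ)) (star (Pi.single x (1:ℂ))) + 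
        Matrix.vecMulVec (Pi.single y (1:ℂ)) (star (Pi.single y (1:ℂ)))) = Matrix.single x y 1 := by
      ext i j
      simp only [Matrix.add_apply, Matrix.smul_apply, Matrix.vecMulVec_apply, Pi.add_apply, Pi.star_apply, Pi.smul_apply, 
        Matrix.single_apply, Pi.single_apply, smul_eq_mul]
      have hI : Complex.I * Complex.I = -1 := Complex.I_mul_I
      by_cases hi : i = x
      · have hiy : i ≠ y := fun h => hxy (hi ▸ h)
        by_cases hj : j = y
        · have hjx : j ≠ x := fun h => hxy (h ▸ hj)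
          subst hi; subst hj
          simp [hxy, Ne.symm hxy]
          linear_combination (-1/2) * hI
        · by_cases hjx : j = x
          · subst hi; subst hjx
            simp [hxy, Ne.symm hxy]
            ring
          · have hj' : ¬ (y = j) := fun h => hj h.symm
            simp [hi, hj, hjx, hj']
      · by_cases hiy : i = y
        · by_cases hj : j = y
          · subst hiy; subst hj
            simp [hxy, Ne.symm hxy]
            ring
          · by_cases hjx : j = x
            · subst hiy; subst hjx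
              simp [hxy, Ne.symm hxy]
              linear_combination (1/2) * hI
            · have hj' : ¬ (y = j) := fun h => hj h.symm
              simp [hi, hj, hjx, hj']
        · have hi' : ¬ (x = i) := fun h => hi h.symm
          simp [hi, hiy, hi']
    rw [e] at h3
    exact h3

end


/-! ### The channel -/

/-- The Schur multiplier channel. -/
noncomputable def chan (N : ℕ) : Matrix (Fin (3 ^ N)) (Fin (3 ^ N)) ℂ →ₗ[ℂ] Matrix (Fin (3 ^ N)) (Fin (3 ^ N)) ℂ where
  toFun X := Matrix.of fun x y => (corr x y : ℂ) * X x y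
  map_add' X Y := by
    ext x y
    simp [mul_add]
  map_smul' c X := by
    ext x y
    simp only [Matrix.of_apply, Matrix.smul_apply, smul_eq_mul, RingHom.id_apply]
    ring

theorem chan_apply (X : Matrix (Fin (3 ^ N)) (Fin (3 ^ N)) ℂ) (x y : Fin (3 ^ N)) :
    chan N X x y = (corr x y : ℂ) * X x y := rfl

theorem isChannel_chan (N : ℕ) : IsChannel (chan N) := by
  classical
  refine ⟨?_, ?_⟩
  · intro n X hX
    have e : (Matrix.of fun a b : Fin n × Fin (3 ^ N) =>
        chan N (Matrix.of fun i j => X (a.1, i) (b.1, j)) a.2 b.2) =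
        ∑ o : Option (Fin N), Matrix.diagonal (fun a : Fin n × Fin (3 ^ N) => (vec a.2 o : ℂ)) * X *
          (Matrix.diagonal (fun a : Fin n × Fin (3 ^ N) => (vec a.2 o : ℂ)))ᴴ := by
      ext a b
      rw [Matrix.sum_apply]
      simp only [Matrix.of_apply, chan_apply, corr, Matrix.diagonal_conjTranspose, Matrix.mul_diagonal,
        Matrix.diagonal_mul, Pi.star_apply, Complex.star_def, Complex.conj_ofReal]
      push_cast
      rw [Finset.sum_mul]
      refine Finset.sum_congr rfl fun o _ => ?_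
      ring
    rw [e]
    exact Matrix.posSemidef_sum _ fun o _ => hX.mul_mul_conjTranspose_same _
  · intro X
    simp only [Matrix.trace, Matrix.diag_apply, chan_apply]
    refine Finset.sum_congr rfl fun x _ => ?_
    have : corr x x = 1 := vec_unit x
    rw [this]
    simp

/-- The diagonal functional. -/
noncomputable def qf (α : Fin (3 ^ N) → ℂ) (B : Matrix (Idx (3 ^ N)) (Fin (3 ^ N)) ℂ) : ℝ :=
  ∑ a : Fin 2, ‖∑ x, α x * B (x, a) x‖ ^ 2

theorem qf_nonneg (α : Fin (3 ^ N) → ℂ) (B : Matrix (Idx (3 ^ N)) (Fin (3 ^ N)) ℂ) : 0 ≤ qf α B :=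
  Finset.sum_nonneg fun _ _ => sq_nonneg _

section
variable {R : ℕ} {Ω : Type} [MeasurableSpace Ω] {P : Measure Ω} {T : Ω → Protocol (3 ^ N) R} {q : ℝ}

theorem Simulates.integral_qf (h : Simulates P T (chan N) q) (α : Fin (3 ^ N) → ℂ) :
    Integrable (fun ω => (T ω).fold (qf α) (V0 (3 ^ N))) P ∧
    ∫ ω, (T ω).fold (qf α) (V0 (3 ^ N)) ∂P = q * ∑ o, ‖∑ x, α x * (vec x o : ℂ)‖ ^ 2 := by
  have hm := h.match_single
  have e : ∀ ω, (((T ω).fold (qf α) (V0 (3 ^ N)) : ℝ) : ℂ) =
      ∑ x, ∑ y, α x * star (α y) * (T ω).outL (Matrix.single x y 1) x y := by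
    intro ω
    exact Protocol.fold_diag (T ω) α
  have hint : Integrable (fun ω => (((T ω).fold (qf α) (V0 (3 ^ N)) : ℝ) : ℂ)) P := by
    simp only [e]
    exact integrable_finsetSum _ fun x _ => integrable_finsetSum _ fun y _ => (hm x y x y).1.const_mul _
  have hintR : Integrable (fun ω => (T ω).fold (qf α) (V0 (3 ^ N))) P := by
    have := hint.re
    simpa using this
  refine ⟨hintR, ?_⟩
  have h1 : ((∫ ω, (T ω).fold (qf α) (V0 (3 ^ N)) ∂P : ℝ) : ℂ) =
      ((q * ∑ o, ‖∑ x, α x * (vec x o : ℂ)‖ ^ 2 : ℝ) : ℂ) := by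
    have h3 : ∀ o : Option (Fin N), ((‖∑ x, α x * (vec x o : ℂ)‖ : ℝ) : ℂ) ^ 2 =
        ∑ x, ∑ y, α x * star (α y) * ((vec x o : ℂ) * (vec y o : ℂ)) := by
      intro o
      rw [← Complex.mul_conj']
      rw [map_sum, Finset.sum_mul_sum]
      refine Finset.sum_congr rfl fun x _ => Finset.sum_congr rfl fun y _ => ?_
      simp only [map_mul, Complex.star_def, Complex.conj_ofReal]
      ring
    have h4 : (∑ o : Option (Fin N), ∑ x, ∑ y, α x * star (α y) * ((vec x o : ℂ) * (vec y o : ℂ))) =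
        ∑ x, ∑ y, α x * star (α y) * (corr x y : ℂ) := by
      rw [Finset.sum_comm]
      refine Finset.sum_congr rfl fun x _ => ?_
      rw [Finset.sum_comm]
      refine Finset.sum_congr rfl fun y _ => ?_
      rw [← Finset.mul_sum]
      unfold corr
      push_cast
      rfl
    rw [← integral_complex_ofReal]
    have h2 : ∫ ω, (((T ω).fold (qf α) (V0 (3 ^ N)) : ℝ) : ℂ) ∂P =
        ∑ x, ∑ y, α x * star (α y) * (q * (corr x y : ℂ)) := by
      simp only [e]
      rw [integral_finsetSum _ fun x _ => integrable_finsetSum _ fun y _ => (hm x y x y).1.const_mul _]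
      refine Finset.sum_congr rfl fun x _ => ?_
      rw [integral_finsetSum _ fun y _ => (hm x y x y).1.const_mul _]
      refine Finset.sum_congr rfl fun y _ => ?_
      rw [integral_const_mul, (hm x y x y).2, chan_apply]
      simp
    rw [h2]
    push_cast
    simp only [h3]
    rw [h4, Finset.mul_sum]
    refine Finset.sum_congr rfl fun x _ => ?_
    rw [Finset.mul_sum]
    refine Finset.sum_congr rfl fun y _ => ?_
    ring
  exact_mod_cast h1

end


/-- Coefficients extracting `cf`. -/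
noncomputable def co (j : Fin N) : Fin (3 ^ N) → ℂ :=
  ((√2 : ℝ) : ℂ)⁻¹ • (Pi.single (pl j) 1 - Pi.single (mi j) 1)

/-- Linear relations satisfied by the vectors `vec x`. -/
noncomputable def rel (x : Fin (3 ^ N)) : Fin (3 ^ N) → ℂ :=
  Pi.single x 1 - ((√(nrm x) : ℝ) : ℂ)⁻¹ • ((∑ j, (sg (pt x j) : ℂ) • co j) + Pi.single (ze N) 1)

theorem co_dot (j : Fin N) (F : Fin (3 ^ N) → ℂ) :
    ∑ x, co j x * F x = (F (pl j) - F (mi j)) / (√2 : ℝ) := by
  have h : co j ⬝ᵥ F = (F (pl j) - F (mi j)) / (√2 : ℝ) := by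
    unfold co
    rw [smul_dotProduct, sub_dotProduct, single_one_dotProduct, single_one_dotProduct, smul_eq_mul]
    ring
  exact h

theorem rel_dot (x : Fin (3 ^ N)) (F : Fin (3 ^ N) → ℂ) :
    ∑ y, rel x y * F y = F x -
      (∑ j, (sg (pt x j) : ℂ) * ((F (pl j) - F (mi j)) / (√2 : ℝ)) + F (ze N)) / (√(nrm x) : ℝ) := by
  have h : rel x ⬝ᵥ F = F x -
      (∑ j, (sg (pt x j) : ℂ) * ((F (pl j) - F (mi j)) / (√2 : ℝ)) + F (ze N)) / (√(nrm x) : ℝ) := by
    unfold rel
    rw [sub_dotProduct, smul_dotProduct, add_dotProduct, sum_dotProduct, single_one_dotProduct,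
      single_one_dotProduct, smul_eq_mul]
    have : ∀ j, ((sg (pt x j) : ℂ) • co j) ⬝ᵥ F = (sg (pt x j) : ℂ) * ((F (pl j) - F (mi j)) / (√2 : ℝ)) := by
      intro j
      rw [smul_dotProduct, smul_eq_mul]
      congr 1
      exact co_dot j F
    simp only [this]
    ring
  exact h

theorem vec_pl_sub (j : Fin N) (o : Option (Fin N)) :
    ((vec (pl j) o : ℂ) - (vec (mi j) o : ℂ)) / (√2 : ℝ) = if o = some j then 1 else 0 := by
  have h2 : (√2 : ℝ) * √2 = 2 := Real.mul_self_sqrt (by norm_num)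
  have h2' : (√2 : ℝ) ≠ 0 := by positivity
  have h : (vec (pl j) o - vec (mi j) o) / √2 = if o = some j then 1 else 0 := by
    rcases o with _ | i
    · simp [vec_none, nrm_pl, nrm_mi]
    · rw [vec_some, vec_some, nrm_pl, nrm_mi, sg_pl, sg_mi]
      by_cases hij : i = j
      · simp only [hij, if_true]
        rw [← sub_div, div_div, h2]
        norm_num
      · have : ¬ (some i = some j) := fun h => hij (Option.some.inj h)
        simp [hij]
  have h3 := congrArg (fun r : ℝ => (r : ℂ)) h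
  rw [apply_ite (fun r : ℝ => (r : ℂ))] at h3
  push_cast at h3
  exact h3

theorem sum_co (j : Fin N) : ∑ o, ‖∑ x, co j x * (vec x o : ℂ)‖ ^ 2 = 1 := by
  simp only [co_dot j (fun x => (vec x _ : ℂ)), vec_pl_sub]
  rw [Finset.sum_eq_single (some j)]
  · simp
  · intro o _ ho
    simp [ho]
  · intro h
    exact absurd (Finset.mem_univ _) h

theorem sum_rel (x : Fin (3 ^ N)) : ∑ o, ‖∑ y, rel x y * (vec y o : ℂ)‖ ^ 2 = 0 := by
  refine Finset.sum_eq_zero fun o _ => ?_
  rw [rel_dot x (fun y => (vec y o : ℂ))]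
  simp only [vec_pl_sub]
  have hx : (√(nrm x) : ℝ) ≠ 0 := (Real.sqrt_pos.mpr (nrm_pos x)).ne'
  rcases o with _ | i
  · simp [vec_none, nrm_ze]
  · have h1 : ∑ j, (sg (pt x j) : ℂ) * (if (some i : Option (Fin N)) = some j then 1 else 0) = sg (pt x i) := by
      rw [Finset.sum_eq_single i]
      · simp
      · intro j _ hj
        have : ¬ (some i = some j) := fun h => hj (Option.some.inj h).symm
        simp [Ne.symm hj]
      · intro h
        exact absurd (Finset.mem_univ _) h
    rw [h1]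
    simp [vec_some, sg_ze]

section
variable {R : ℕ} {Ω : Type} [MeasurableSpace Ω] {P : Measure Ω} {T : Ω → Protocol (3 ^ N) R} {q : ℝ}

theorem Simulates.ae_good (h : Simulates P T (chan N) q) :
    ∀ᵐ ω ∂P, (T ω).All Good (V0 (3 ^ N)) := by
  -- off-diagonal entries
  have hoff : ∀ x y : Fin (3 ^ N), y ≠ x → ∀ᵐ ω ∂P,
      (T ω).All (fun B => ∀ a, B (y, a) x = 0) (V0 (3 ^ N)) := by
    intro x y hxy
    have hm := h.match_single x x y y
    have e : ∀ ω, (((T ω).fold (fun B => ∑ a : Fin 2, ‖B (y, a) x‖ ^ 2) (V0 (3 ^ N)) : ℝ) : ℂ) =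
        (T ω).outL (Matrix.single x x 1) y y := by
      intro ω
      have h1 : (T ω).outL (Matrix.single x x 1) y y =
        (T ω).fold (fun B => ∑ a : Fin 2, B (y, a) x * star (B (y, a) x)) (V0 (3 ^ N)) :=
        Protocol.out_single (T ω) x x y y
      rw [h1]
      have h2 : (((T ω).fold (fun B => ∑ a : Fin 2, ‖B (y, a) x‖ ^ 2) (V0 (3 ^ N)) : ℝ) : ℂ) =
        (T ω).fold (fun B => ((∑ a : Fin 2, ‖B (y, a) x‖ ^ 2 : ℝ) : ℂ)) (V0 (3 ^ N)) :=
        Protocol.map_fold Complex.ofRealCLM.toLinearMap _ (T ω) _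
      rw [h2]
      congr 1
      ext B
      push_cast
      refine Finset.sum_congr rfl fun a _ => ?_
      rw [← Complex.mul_conj']
      rfl
    have hint : Integrable (fun ω => (T ω).fold (fun B => ∑ a : Fin 2, ‖B (y, a) x‖ ^ 2) (V0 (3 ^ N))) P := by
      have h1 : Integrable (fun ω => (((T ω).fold (fun B => ∑ a : Fin 2, ‖B (y, a) x‖ ^ 2) (V0 (3 ^ N)) : ℝ) : ℂ)) P := by
        simp only [e]
        exact hm.1
      have := h1.re
      simpa using this
    have h0 : ∫ ω, (T ω).fold (fun B => ∑ a : Fin 2, ‖B (y, a) x‖ ^ 2) (V0 (3 ^ N)) ∂P = 0 := by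
      have h1 : ((∫ ω, (T ω).fold (fun B => ∑ a : Fin 2, ‖B (y, a) x‖ ^ 2) (V0 (3 ^ N)) ∂P : ℝ) : ℂ) = 0 := by
        rw [← integral_complex_ofReal]
        have h2 : ∫ ω, (((T ω).fold (fun B => ∑ a : Fin 2, ‖B (y, a) x‖ ^ 2) (V0 (3 ^ N)) : ℝ) : ℂ) ∂P = 0 := by
          simp only [e]
          rw [hm.2, chan_apply, Matrix.single_apply]
          simp [Ne.symm hxy]
        exact h2
      exact_mod_cast h1
    have hnn : ∀ B : Matrix (Idx (3 ^ N)) (Fin (3 ^ N)) ℂ, 0 ≤ ∑ a : Fin 2, ‖B (y, a) x‖ ^ 2 :=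
      fun B => Finset.sum_nonneg fun _ _ => sq_nonneg _
    rw [integral_eq_zero_iff_of_nonneg (fun ω => Protocol.fold_nonneg hnn _ _) hint] at h0
    filter_upwards [h0] with ω hω
    have h1 := Protocol.All_of_fold_eq_zero hnn (T ω) _ hω
    refine Protocol.All.mono ?_ _ _ h1
    intro B hB a
    rw [Finset.sum_eq_zero_iff_of_nonneg (fun _ _ => sq_nonneg _)] at hB
    have := hB a (Finset.mem_univ a)
    simpa using this
  have hrel : ∀ x : Fin (3 ^ N), ∀ᵐ ω ∂P,
      (T ω).All (fun B => ∀ a, ∑ y, rel x y * B (y, a) y = 0) (V0 (3 ^ N)) := by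
    intro x
    obtain ⟨hint, h0⟩ := h.integral_qf (rel x)
    rw [sum_rel, mul_zero] at h0
    rw [integral_eq_zero_iff_of_nonneg (fun ω => Protocol.fold_nonneg (qf_nonneg _) _ _) hint] at h0
    filter_upwards [h0] with ω hω
    have h1 := Protocol.All_of_fold_eq_zero (qf_nonneg _) (T ω) _ hω
    refine Protocol.All.mono ?_ _ _ h1
    intro B hB a
    unfold qf at hB
    rw [Finset.sum_eq_zero_iff_of_nonneg (fun _ _ => sq_nonneg _)] at hB
    have := hB a (Finset.mem_univ a)
    simpa using this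
  have hoff' : ∀ᵐ ω ∂P, ∀ x y : Fin (3 ^ N), y ≠ x →
      (T ω).All (fun B => ∀ a, B (y, a) x = 0) (V0 (3 ^ N)) := by
    rw [ae_all_iff]
    intro x
    rw [ae_all_iff]
    intro y
    by_cases hxy : y ≠ x
    · filter_upwards [hoff x y hxy] with ω hω _
      exact hω
    · filter_upwards with ω hω
      exact absurd hω hxy
  have hrel' : ∀ᵐ ω ∂P, ∀ x : Fin (3 ^ N),
      (T ω).All (fun B => ∀ a, ∑ y, rel x y * B (y, a) y = 0) (V0 (3 ^ N)) := by
    rw [ae_all_iff]
    exact hrel
  filter_upwards [hoff', hrel'] with ω h1 h2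
  have h3 : (T ω).All (fun B => ∀ x : Fin (3 ^ N), ∀ a, ∑ y, rel x y * B (y, a) y = 0) (V0 (3 ^ N)) :=
    Protocol.All.forall _ _ h2
  have h4 : (T ω).All (fun B => ∀ p : {p : Fin (3 ^ N) × Fin (3 ^ N) // p.2 ≠ p.1}, 
      ∀ a, B (p.1.2, a) p.1.1 = 0) (V0 (3 ^ N)) :=
    Protocol.All.forall _ _ (fun p => h1 p.1.1 p.1.2 p.2)
  refine Protocol.All.mono ?_ _ _ (Protocol.All.and _ _ h3 h4)
  rintro B ⟨hB1, hB2⟩
  refine ⟨fun x y a hxy => hB2 ⟨(x, y), hxy⟩ a, fun x a => ?_⟩
  have h5 := hB1 x a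
  rw [rel_dot x (fun y => B (y, a) y)] at h5
  exact sub_eq_zero.mp h5

theorem Simulates.bound [IsProbabilityMeasure P] (h : Simulates P T (chan N) q) :
    q * N ≤ 3 ^ R * (6 * √(N + 1)) := by
  have hwt : ∀ B : Matrix (Idx (3 ^ N)) (Fin (3 ^ N)) ℂ, wt B = ∑ j, qf (co j) B := by
    intro B
    unfold wt qf
    rw [Finset.sum_comm]
    refine Finset.sum_congr rfl fun j _ => Finset.sum_congr rfl fun a _ => ?_
    rw [co_dot j (fun x => B (x, a) x)]
    rfl
  have hfold : ∀ ω, (T ω).fold wt (V0 (3 ^ N)) = ∑ j, (T ω).fold (qf (co j)) (V0 (3 ^ N)) := by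
    intro ω
    rw [← Protocol.fold_sum]
    congr 1
    ext B
    exact hwt B
  have hint : Integrable (fun ω => (T ω).fold wt (V0 (3 ^ N))) P := by
    simp only [hfold]
    exact integrable_finsetSum _ fun j _ => (h.integral_qf (co j)).1
  have h1 : ∫ ω, (T ω).fold wt (V0 (3 ^ N)) ∂P = q * N := by
    simp only [hfold]
    rw [integral_finsetSum _ fun j _ => (h.integral_qf (co j)).1]
    simp only [(h.integral_qf (co _)).2, sum_co]
    simp
    ring
  rw [← h1]
  have h2 : ∀ᵐ ω ∂P, (T ω).fold wt (V0 (3 ^ N)) ≤ 3 ^ R * (6 * √(N + 1)) := by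
    filter_upwards [h.ae_good] with ω hω
    exact Protocol.tree_bound (T ω) _ (fun x => (cn_V0 x).le) hω
  calc ∫ ω, (T ω).fold wt (V0 (3 ^ N)) ∂P ≤ ∫ _ω, 3 ^ R * (6 * √(N + 1)) ∂P :=
        integral_mono_ae hint (integrable_const _) h2
    _ = 3 ^ R * (6 * √(N + 1)) := by simp

end

/-- Negative answer to the question: for every `c > 0` and every number of rounds `R` there are a
dimension `d ≥ 2` and a channel `Φ` on `ℂ^d` which no protocol with one ancilla qubit and at most
`R` rounds simulates with success probability at least `c`. -/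
theorem main : ∀ c : ℝ, 0 < c → ∀ R : ℕ, ∃ d : ℕ, 2 ≤ d ∧
    ∃ Φ : Matrix (Fin d) (Fin d) ℂ →ₗ[ℂ] Matrix (Fin d) (Fin d) ℂ, IsChannel Φ ∧
      ¬ ∃ (Ω : Type) (_ : MeasurableSpace Ω) (P : Measure Ω) (_ : IsProbabilityMeasure P)
          (T : Ω → Protocol d R) (q : ℝ), c ≤ q ∧ Simulates P T Φ q := by
  intro c hc R
  obtain ⟨N, hN⟩ := exists_nat_gt ((12 * 3 ^ R / c) ^ 2)
  have hx : 0 ≤ 12 * 3 ^ R / c := by positivity
  have hN0 : (0 : ℝ) < N := lt_of_le_of_lt (sq_nonneg _) hN
  have hN1 : 1 ≤ N := by exact_mod_cast hN0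
  refine ⟨3 ^ N, ?_, chan N, isChannel_chan N, ?_⟩
  · calc 2 ≤ 3 ^ 1 := by norm_num
      _ ≤ 3 ^ N := Nat.pow_le_pow_right (by norm_num) hN1
  · rintro ⟨Ω, _, P, _, T, q, hcq, hsim⟩
    have h1 := hsim.bound
    have hsN : √(N : ℝ) * √N = N := Real.mul_self_sqrt hN0.le
    have h2 : √((N : ℝ) + 1) ≤ 2 * √N := by
      rw [Real.sqrt_le_left (by positivity)]
      have : (1:ℝ) ≤ N := by exact_mod_cast hN1
      nlinarith
    have h3 : 12 * 3 ^ R / c < √N := by
      rw [Real.lt_sqrt hx]
      exact hN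
    rw [div_lt_iff₀ hc] at h3
    have h4 : (0:ℝ) < √N := Real.sqrt_pos.mpr hN0
    have h5 : c * N ≤ 3 ^ R * (6 * (2 * √N)) := by
      calc c * N ≤ q * N := mul_le_mul_of_nonneg_right hcq hN0.le
        _ ≤ 3 ^ R * (6 * √(N + 1)) := h1
        _ ≤ 3 ^ R * (6 * (2 * √N)) := by
          apply mul_le_mul_of_nonneg_left _ (by positivity)
          linarith
    have h6 : c * (√N * √N) ≤ 12 * 3 ^ R * √N := by
      rw [hsN]
      linarith
    have h7 : (c * √N) * √N ≤ (12 * 3 ^ R) * √N := by linarith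
    have h8 := le_of_mul_le_mul_right h7 h4
    linarith

end Pool.Agent.helper84.ChanSim
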