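import Mathlib

open MeasureTheory Set Filter Topology
open scoped NNReal

namespace Pool.Agent.helper84.Dir

/-- `f` is absolutely continuous on `[a,b]` and has derivative `f'` almost everywhere there. -/
structure ACD (f f' : ℝ → ℝ) (a b : ℝ) : Prop where
  ac : AbsolutelyContinuousOnInterval f a b
  der : ∀ᵐ x : ℝ, x ∈ uIcc a b → HasDerivAt f (f' x) x

namespace ACD

variable {f f' g g' : ℝ → ℝ} {a b : ℝ}

lemma mono (h : ACD f f' a b) {c d : ℝ} (hcd : uIcc c d ⊆ uIcc a b) : ACD f f' c d :=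
  ⟨h.ac.mono hcd, by filter_upwards [h.der] with x hx hxc using hx (hcd hxc)⟩

lemma deriv_ae (h : ACD f f' a b) : ∀ᵐ x : ℝ, x ∈ uIoc a b → deriv f x = f' x := by
  filter_upwards [h.der] with x hx hxc using (hx (uIoc_subset_uIcc hxc)).deriv

lemma intervalIntegrable (h : ACD f f' a b) : IntervalIntegrable f' volume a b := by
  refine h.ac.intervalIntegrable_deriv.congr_ae ?_
  rw [EventuallyEq, ae_restrict_iff' measurableSet_uIoc]
  exact h.deriv_ae

lemma integral (h : ACD f f' a b) : ∫ x in a..b, f' x = f b - f a := by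
  rw [← h.ac.integral_deriv_eq_sub]
  refine intervalIntegral.integral_congr_ae ?_
  filter_upwards [h.deriv_ae] with x hx hxc using (hx hxc).symm

lemma continuousOn (h : ACD f f' a b) : ContinuousOn f (uIcc a b) := h.ac.continuousOn

lemma add (hf : ACD f f' a b) (hg : ACD g g' a b) :
    ACD (fun x => f x + g x) (fun x => f' x + g' x) a b :=
  ⟨hf.ac.fun_add hg.ac, by
    filter_upwards [hf.der, hg.der] with x h1 h2 hx using (h1 hx).add (h2 hx)⟩

lemma sub (hf : ACD f f' a b) (hg : ACD g g' a b) :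
    ACD (fun x => f x - g x) (fun x => f' x - g' x) a b :=
  ⟨hf.ac.fun_sub hg.ac, by
    filter_upwards [hf.der, hg.der] with x h1 h2 hx using (h1 hx).sub (h2 hx)⟩

lemma mul (hf : ACD f f' a b) (hg : ACD g g' a b) :
    ACD (fun x => f x * g x) (fun x => f' x * g x + f x * g' x) a b :=
  ⟨hf.ac.fun_mul hg.ac, by
    filter_upwards [hf.der, hg.der] with x h1 h2 hx using (h1 hx).mul (h2 hx)⟩

lemma neg (hf : ACD f f' a b) : ACD (fun x => - f x) (fun x => - f' x) a b :=
  ⟨hf.ac.fun_neg, by filter_upwards [hf.der] with x h1 hx using (h1 hx).neg⟩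

lemma const_mul (c : ℝ) (hf : ACD f f' a b) :
    ACD (fun x => c * f x) (fun x => c * f' x) a b :=
  ⟨hf.ac.const_mul c, by
    filter_upwards [hf.der] with x h1 hx using (h1 hx).const_mul c⟩

lemma congr_der {f'' : ℝ → ℝ} (hf : ACD f f' a b)
    (h : ∀ᵐ x : ℝ, x ∈ uIcc a b → f' x = f'' x) : ACD f f'' a b :=
  ⟨hf.ac, by filter_upwards [hf.der, h] with x h1 h2 hx using h2 hx ▸ h1 hx⟩

lemma congr_der' {f'' : ℝ → ℝ} (hf : ACD f f' a b)
    (h : ∀ x ∈ uIcc a b, f' x = f'' x) : ACD f f'' a b :=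
  hf.congr_der (ae_of_all _ h)

/-- Composition with a function which is Lipschitz on a set containing the values. -/
lemma comp {φ φ' : ℝ → ℝ} {K : ℝ≥0} {s : Set ℝ} (hφ : LipschitzOnWith K φ s)
    (hf : ACD f f' a b) (hs : ∀ x ∈ uIcc a b, f x ∈ s)
    (hd : ∀ x ∈ uIcc a b, HasDerivAt φ (φ' (f x)) (f x)) :
    ACD (fun x => φ (f x)) (fun x => φ' (f x) * f' x) a b := by
  refine ⟨?_, ?_⟩
  · have h0 := hf.ac
    rw [absolutelyContinuousOnInterval_iff] at h0 ⊢
    intro ε hε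
    obtain ⟨δ, hδ, h1⟩ := h0 (ε / (K + 1)) (by positivity)
    refine ⟨δ, hδ, fun E hE hE' => ?_⟩
    have h2 := h1 E hE hE'
    have h3 : ∑ i ∈ Finset.range E.1, dist (φ (f (E.2 i).1)) (φ (f (E.2 i).2)) ≤
        ∑ i ∈ Finset.range E.1, K * dist (f (E.2 i).1) (f (E.2 i).2) := by
      refine Finset.sum_le_sum fun i hi => ?_
      have hm := hE.1 i (Finset.mem_range.1 hi |> fun h => by simpa using h)
      exact hφ.dist_le_mul _ (hs _ hm.1) _ (hs _ hm.2)
    rw [← Finset.mul_sum] at h3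
    calc _ ≤ (K : ℝ) * ∑ i ∈ Finset.range E.1, dist (f (E.2 i).1) (f (E.2 i).2) := h3
      _ ≤ (K + 1) * ∑ i ∈ Finset.range E.1, dist (f (E.2 i).1) (f (E.2 i).2) := by
          refine mul_le_mul_of_nonneg_right (by simp) (Finset.sum_nonneg fun i _ => dist_nonneg)
      _ < (K + 1) * (ε / (K + 1)) := by
          refine mul_lt_mul_of_pos_left h2 (by positivity)
      _ = ε := by field_simp
  · filter_upwards [hf.der] with x h1 hx using (hd x hx).comp x (h1 hx)

/-- A primitive of an integrable function. -/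
lemma of_integral {w : ℝ → ℝ} {c x₀ : ℝ} (hw : IntervalIntegrable w volume a b)
    (hx₀ : x₀ ∈ uIcc a b) (hf : ∀ x ∈ uIcc a b, f x = c + ∫ t in x₀..x, w t)
    (hab : a < b) : ACD f w a b := by
  have h1 := hw.absolutelyContinuousOnInterval_intervalIntegral hx₀
  have h2 := hw.ae_hasDerivAt_integral
  have hia : ∀ᵐ x : ℝ, x ≠ a := by simp [ae_iff, measure_singleton]
  have hib : ∀ᵐ x : ℝ, x ≠ b := by simp [ae_iff, measure_singleton]
  refine ⟨?_, ?_⟩
  · rw [absolutelyContinuousOnInterval_iff] at h1 ⊢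
    intro ε hε
    obtain ⟨δ, hδ, h3⟩ := h1 ε hε
    refine ⟨δ, hδ, fun E hE hE' => ?_⟩
    refine lt_of_le_of_lt (le_of_eq ?_) (h3 E hE hE')
    refine Finset.sum_congr rfl fun i hi => ?_
    have hm := hE.1 i (Finset.mem_range.1 hi |> fun h => by simpa using h)
    rw [hf _ hm.1, hf _ hm.2, dist_add_left]
  · filter_upwards [h2, hia, hib] with x hx ha hb hxm
    have h4 := (hx hxm x₀ hx₀).const_add c
    refine h4.congr_of_eventuallyEq ?_
    rw [uIcc_of_le hab.le] at hxm hf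
    have : Ioo a b ∈ 𝓝 x := Ioo_mem_nhds (lt_of_le_of_ne hxm.1 (Ne.symm ha))
      (lt_of_le_of_ne hxm.2 hb)
    filter_upwards [this] with y hy using hf y ⟨hy.1.le, hy.2.le⟩

lemma of_hasDerivAt (h : ∀ x ∈ uIcc a b, HasDerivAt f (f' x) x)
    (hc : ContinuousOn f' (uIcc a b)) : ACD f f' a b := by
  refine ⟨?_, ae_of_all _ h⟩
  obtain ⟨C, hC⟩ := isCompact_uIcc.exists_bound_of_continuousOn hc
  have hC' : ∀ x ∈ uIcc a b, ‖f' x‖₊ ≤ Real.toNNReal C := by
    intro x hx
    have := hC x hx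
    rw [← NNReal.coe_le_coe, coe_nnnorm, Real.coe_toNNReal _ (le_trans (norm_nonneg _) this)]
    exact this
  exact (Convex.lipschitzOnWith_of_nnnorm_hasDerivWithin_le (convex_uIcc a b)
    (fun x hx => (h x hx).hasDerivWithinAt) hC').absolutelyContinuousOnInterval

lemma const (c : ℝ) : ACD (fun _ => c) (fun _ => 0) a b :=
  of_hasDerivAt (fun x _ => hasDerivAt_const x c) continuousOn_const

lemma exp (hf : ACD f f' a b) : ACD (fun x => Real.exp (f x)) (fun x => Real.exp (f x) * f' x) a b := by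
  obtain ⟨C, hC⟩ := hf.ac.exists_bound
  have h1 : ∀ x ∈ uIcc a b, f x ∈ Icc (-C) C := fun x hx => abs_le.1 (hC x hx)
  have h2 : LipschitzOnWith (Real.toNNReal (Real.exp C)) Real.exp (Icc (-C) C) := by
    refine Convex.lipschitzOnWith_of_nnnorm_hasDerivWithin_le (convex_Icc _ _)
      (fun x _ => (Real.hasDerivAt_exp x).hasDerivWithinAt) ?_
    intro x hx
    rw [← NNReal.coe_le_coe, coe_nnnorm, Real.coe_toNNReal _ (Real.exp_pos _).le,
      Real.norm_eq_abs, abs_of_pos (Real.exp_pos _)]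
    exact Real.exp_le_exp.2 hx.2
  exact hf.comp h2 h1 (fun x _ => Real.hasDerivAt_exp _)

lemma inv (hf : ACD f f' a b) (hpos : ∀ x ∈ uIcc a b, 0 < f x) :
    ACD (fun x => (f x)⁻¹) (fun x => -((f x)^2)⁻¹ * f' x) a b := by
  obtain ⟨x₀, hx₀, hmin⟩ := isCompact_uIcc.exists_isMinOn (nonempty_uIcc (a := a) (b := b)) hf.continuousOn
  have hc : 0 < f x₀ := hpos x₀ hx₀
  have h1 : ∀ x ∈ uIcc a b, f x ∈ Ici (f x₀) := fun x hx => hmin hx
  have h2 : LipschitzOnWith (Real.toNNReal (((f x₀)^2)⁻¹)) (fun y : ℝ => y⁻¹) (Ici (f x₀)) := by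
    refine Convex.lipschitzOnWith_of_nnnorm_hasDerivWithin_le (f' := fun y => -(y^2)⁻¹)
      (convex_Ici _) (fun x hx => ?_) ?_
    · have : x ≠ 0 := (lt_of_lt_of_le hc hx).ne'
      exact (hasDerivAt_inv this).hasDerivWithinAt
    · intro x hx
      have hx0 : 0 < x := lt_of_lt_of_le hc hx
      rw [← NNReal.coe_le_coe, coe_nnnorm, Real.coe_toNNReal _ (by positivity), norm_neg,
        Real.norm_eq_abs, abs_of_pos (by positivity)]
      gcongr
      exact hx
  refine hf.comp (φ' := fun y => -(y^2)⁻¹) h2 h1 (fun x hx => hasDerivAt_inv (hpos x hx).ne')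

lemma le_of_nonneg (hf : ACD f f' a b) (hab : a ≤ b)
    (h : ∀ᵐ x : ℝ, x ∈ Ioc a b → 0 ≤ f' x) : f a ≤ f b := by
  have h1 := hf.integral
  have h2 : 0 ≤ ∫ x in a..b, f' x := by
    rw [intervalIntegral.integral_of_le hab]
    refine integral_nonneg_of_ae ?_
    rw [EventuallyLE, ae_restrict_iff' measurableSet_Ioc]
    exact h
  linarith

lemma integral_mono_le {u : ℝ → ℝ} (hf : ACD f f' a b) (hab : a ≤ b)
    (hu : IntervalIntegrable u volume a b)
    (h : ∀ᵐ x : ℝ, x ∈ Ioc a b → f' x ≤ u x) : f b - f a ≤ ∫ x in a..b, u x := by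
  rw [← hf.integral]
  refine intervalIntegral.integral_mono_ae_restrict hab hf.intervalIntegrable hu ?_
  rw [EventuallyLE, ae_restrict_iff' measurableSet_Icc]
  filter_upwards [h, show ∀ᵐ x : ℝ, x ≠ a by simp [ae_iff, measure_singleton]] with x hx hxa hxm
  exact hx ⟨lt_of_le_of_ne hxm.1 (Ne.symm hxa), hxm.2⟩

end ACD

end Pool.Agent.helper84.Dir
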