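import Pool.Agent.helper84.DirTest

open MeasureTheory Set Filter Topology
open scoped NNReal ENNReal ContDiff Real ComplexConjugate

namespace Pool.Agent.helper84.Dir

noncomputable section

variable {ζ : ℝ → ℝ} {k : ℤ}

lemma mul_test_int {A φ : ℂ → ℂ} (hA : LocallyIntegrable A) (hφ : Continuous φ)
    (hc : HasCompactSupport φ) : Integrable (fun z => A z * φ z) := by
  have := hA.integrable_smul_left_of_hasCompactSupport hφ hc
  refine this.congr (ae_of_all _ fun z => ?_)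
  simp [mul_comm]

lemma fderiv_apply_cont {φ : ℂ → ℂ} (hφ : ContDiff ℝ ∞ φ) (w : ℂ) :
    Continuous (fun z => fderiv ℝ φ z w) :=
  (hφ.continuous_fderiv (by simp)).clm_apply continuous_const

lemma fderiv_apply_cs {φ : ℂ → ℂ} (hc : HasCompactSupport φ) (w : ℂ) :
    HasCompactSupport (fun z => fderiv ℝ φ z w) := hc.fderiv_apply ℝ w

/-- weak form on channels, first equation -/
lemma weak_ang1 {A ψ : ℂ → ℂ} (hA : LocallyIntegrable A) (hψ : LocallyIntegrable ψ)
    (heq : ∀ φ : ℂ → ℂ, ContDiff ℝ ∞ φ → HasCompactSupport φ →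
      ∫ z, (A z * φ z + Complex.I * ψ z *
        (fderiv ℝ φ z 1 - Complex.I * fderiv ℝ φ z Complex.I)) = 0)
    (k : ℤ) (hζ : ContDiff ℝ ∞ ζ) (hc : HasCompactSupport ζ) (hs : tsupport ζ ⊆ Ioi 0) :
    Integrable (fun r => ang k A r * (ζ r : ℂ) + Complex.I * ang (k + 1) ψ r *
      ((deriv ζ r - (k + 1) / r * ζ r : ℝ) : ℂ)) μR ∧
    ∫ r, (ang k A r * (ζ r : ℂ) + Complex.I * ang (k + 1) ψ r *
      ((deriv ζ r - (k + 1) / r * ζ r : ℝ) : ℂ)) ∂μR = 0 := by
  have hφ := tf_contDiff (k := k) hζ hs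
  have hφc := tf_compact (k := k) hc
  have hI := heq _ hφ hφc
  set φ := tf k ζ with hφd
  set G : ℂ → ℂ := fun z => A z * φ z + Complex.I * ψ z *
    (fderiv ℝ φ z 1 - Complex.I * fderiv ℝ φ z Complex.I) with hG
  have hGi : Integrable G := by
    refine (mul_test_int hA hφ.continuous hφc).add ?_
    have h1 : Continuous fun z => Complex.I * (fderiv ℝ φ z 1 - Complex.I * fderiv ℝ φ z Complex.I) :=
      continuous_const.mul ((fderiv_apply_cont hφ _).sub
        (continuous_const.mul (fderiv_apply_cont hφ _)))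
    have h2 : HasCompactSupport fun z => Complex.I *
        (fderiv ℝ φ z 1 - Complex.I * fderiv ℝ φ z Complex.I) :=
      ((fderiv_apply_cs hφc 1).sub ((fderiv_apply_cs hφc Complex.I).mul_left)).mul_left
    refine (mul_test_int hψ h1 h2).congr (ae_of_all _ fun z => ?_)
    ring
  have h1 := integrable_polar hGi
  have h2 : ∫ p, (p.1 : ℂ) * G (pt p.1 p.2) ∂μP = 0 := by rw [int_polar]; exact hI
  have h3 := h1.integral_prod_left
  have h4 : ∫ r : ℝ, ∫ θ, ((r : ℂ) * G (pt r θ)) ∂μT ∂μR = 0 := by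
    rw [← h2]; exact (integral_prod _ h1).symm
  have h5 : ∀ᵐ r : ℝ ∂μR, ∫ θ, ((r : ℂ) * G (pt r θ)) ∂μT = ang k A r * (ζ r : ℂ) +
      Complex.I * ang (k + 1) ψ r * ((deriv ζ r - (k + 1) / r * ζ r : ℝ) : ℂ) := by
    filter_upwards [circ_int hA, circ_int hψ, ae_μR.2 (ae_of_all _ fun r (hr : 0 < r) => hr)]
      with r hA' hψ' hr
    have e : ∀ θ : ℝ, (r : ℂ) * G (pt r θ) =
        (A (pt r θ) * Complex.exp (-(k * θ) * Complex.I)) * (ζ r : ℂ) +
        (ψ (pt r θ) * Complex.exp (-((k + 1 : ℤ) * θ) * Complex.I)) *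
          (Complex.I * ((deriv ζ r - (k + 1) / r * ζ r : ℝ) : ℂ)) := by
      intro θ
      have h6 := tf_dbar1 (k := k) hζ hs hr θ
      have h7 := tf_pt (ζ := ζ) (k := k) hr θ
      have hr' : ((r : ℝ) : ℂ) ≠ 0 := by exact_mod_cast hr.ne'
      simp only [hG, hφd]
      rw [mul_add, show (r : ℂ) * (Complex.I * ψ (pt r θ) * (fderiv ℝ (tf k ζ) (pt r θ) 1 -
        Complex.I * fderiv ℝ (tf k ζ) (pt r θ) Complex.I)) = Complex.I * ψ (pt r θ) *
        ((r : ℂ) * (fderiv ℝ (tf k ζ) (pt r θ) 1 -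
        Complex.I * fderiv ℝ (tf k ζ) (pt r θ) Complex.I)) by ring, h6, h7]
      have h8 : (r : ℂ) * (A (pt r θ) * (((ζ r / r : ℝ) : ℂ) * Complex.exp (-(k * θ) * Complex.I))) =
          (A (pt r θ) * Complex.exp (-(k * θ) * Complex.I)) * (ζ r : ℂ) := by
        push_cast
        field_simp
      rw [h8]
      ring
    simp only [e]
    have i1 := (circ_int_exp (k := k) hA').mul_const (ζ r : ℂ)
    have i2 := (circ_int_exp (k := k + 1) hψ').mul_const
      (Complex.I * ((deriv ζ r - (k + 1) / r * ζ r : ℝ) : ℂ))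
    rw [integral_add i1 i2, integral_mul_const, integral_mul_const]
    unfold ang
    ring
  refine ⟨h3.congr h5, ?_⟩
  rw [← h4]
  exact (integral_congr_ae h5).symm

/-- weak form on channels, second equation -/
lemma weak_ang2 {A ψ : ℂ → ℂ} (hA : LocallyIntegrable A) (hψ : LocallyIntegrable ψ)
    (heq : ∀ φ : ℂ → ℂ, ContDiff ℝ ∞ φ → HasCompactSupport φ →
      ∫ z, (A z * φ z + Complex.I * ψ z *
        (fderiv ℝ φ z 1 + Complex.I * fderiv ℝ φ z Complex.I)) = 0)
    (k : ℤ) (hζ : ContDiff ℝ ∞ ζ) (hc : HasCompactSupport ζ) (hs : tsupport ζ ⊆ Ioi 0) :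
    Integrable (fun r => ang (k + 1) A r * (ζ r : ℂ) + Complex.I * ang k ψ r *
      ((deriv ζ r + k / r * ζ r : ℝ) : ℂ)) μR ∧
    ∫ r, (ang (k + 1) A r * (ζ r : ℂ) + Complex.I * ang k ψ r *
      ((deriv ζ r + k / r * ζ r : ℝ) : ℂ)) ∂μR = 0 := by
  have hφ := tf_contDiff (k := k + 1) hζ hs
  have hφc := tf_compact (k := k + 1) hc
  have hI := heq _ hφ hφc
  set φ := tf (k + 1) ζ with hφd
  set G : ℂ → ℂ := fun z => A z * φ z + Complex.I * ψ z *
    (fderiv ℝ φ z 1 + Complex.I * fderiv ℝ φ z Complex.I) with hG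
  have hGi : Integrable G := by
    refine (mul_test_int hA hφ.continuous hφc).add ?_
    have h1 : Continuous fun z => Complex.I * (fderiv ℝ φ z 1 + Complex.I * fderiv ℝ φ z Complex.I) :=
      continuous_const.mul ((fderiv_apply_cont hφ _).add
        (continuous_const.mul (fderiv_apply_cont hφ _)))
    have h2 : HasCompactSupport fun z => Complex.I *
        (fderiv ℝ φ z 1 + Complex.I * fderiv ℝ φ z Complex.I) :=
      ((fderiv_apply_cs hφc 1).add ((fderiv_apply_cs hφc Complex.I).mul_left)).mul_left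
    refine (mul_test_int hψ h1 h2).congr (ae_of_all _ fun z => ?_)
    ring
  have h1 := integrable_polar hGi
  have h2 : ∫ p, (p.1 : ℂ) * G (pt p.1 p.2) ∂μP = 0 := by rw [int_polar]; exact hI
  have h3 := h1.integral_prod_left
  have h4 : ∫ r : ℝ, ∫ θ, ((r : ℂ) * G (pt r θ)) ∂μT ∂μR = 0 := by
    rw [← h2]; exact (integral_prod _ h1).symm
  have h5 : ∀ᵐ r : ℝ ∂μR, ∫ θ, ((r : ℂ) * G (pt r θ)) ∂μT = ang (k + 1) A r * (ζ r : ℂ) +
      Complex.I * ang k ψ r * ((deriv ζ r + k / r * ζ r : ℝ) : ℂ) := by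
    filter_upwards [circ_int hA, circ_int hψ, ae_μR.2 (ae_of_all _ fun r (hr : 0 < r) => hr)]
      with r hA' hψ' hr
    have e : ∀ θ : ℝ, (r : ℂ) * G (pt r θ) =
        (A (pt r θ) * Complex.exp (-((k + 1 : ℤ) * θ) * Complex.I)) * (ζ r : ℂ) +
        (ψ (pt r θ) * Complex.exp (-(k * θ) * Complex.I)) *
          (Complex.I * ((deriv ζ r + k / r * ζ r : ℝ) : ℂ)) := by
      intro θ
      have h6 := tf_dbar2 (k := k) hζ hs hr θ
      have h7 := tf_pt (ζ := ζ) (k := k + 1) hr θ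
      have hr' : ((r : ℝ) : ℂ) ≠ 0 := by exact_mod_cast hr.ne'
      simp only [hG, hφd]
      rw [mul_add, show (r : ℂ) * (Complex.I * ψ (pt r θ) * (fderiv ℝ (tf (k + 1) ζ) (pt r θ) 1 +
        Complex.I * fderiv ℝ (tf (k + 1) ζ) (pt r θ) Complex.I)) = Complex.I * ψ (pt r θ) *
        ((r : ℂ) * (fderiv ℝ (tf (k + 1) ζ) (pt r θ) 1 +
        Complex.I * fderiv ℝ (tf (k + 1) ζ) (pt r θ) Complex.I)) by ring, h6, h7]
      have h8 : (r : ℂ) * (A (pt r θ) * (((ζ r / r : ℝ) : ℂ) *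
          Complex.exp (-((k + 1 : ℤ) * θ) * Complex.I))) =
          (A (pt r θ) * Complex.exp (-((k + 1 : ℤ) * θ) * Complex.I)) * (ζ r : ℂ) := by
        push_cast
        field_simp
      rw [h8]
      ring
    simp only [e]
    have i1 := (circ_int_exp (k := k + 1) hA').mul_const (ζ r : ℂ)
    have i2 := (circ_int_exp (k := k) hψ').mul_const
      (Complex.I * ((deriv ζ r + k / r * ζ r : ℝ) : ℂ))
    rw [integral_add i1 i2, integral_mul_const, integral_mul_const]
    unfold ang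
    ring
  refine ⟨h3.congr h5, ?_⟩
  rw [← h4]
  exact (integral_congr_ae h5).symm

/-- from a weak equation on the half line to an absolutely continuous representative -/
lemma weak_ode {u w : ℝ → ℝ} (hu : LocallyIntegrableOn u (Ioi 0))
    (hw : LocallyIntegrableOn w (Ioi 0))
    (h : ∀ ζ : ℝ → ℝ, ContDiff ℝ ∞ ζ → HasCompactSupport ζ → tsupport ζ ⊆ Ioi 0 →
      ∫ r, (u r * deriv ζ r + w r * ζ r) ∂μR = 0) :
    ∃ u' : ℝ → ℝ, (∀ᵐ r ∂μR, u r = u' r) ∧ ∀ a b, 0 < a → a < b → ACD u' w a b := by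
  obtain ⟨c, hc⟩ := dbr isOpen_Ioi ordConnected_Ioi (mem_Ioi.2 (one_pos (α := ℝ))) hu hw (by
    intro φ hφ hφc hφU
    rw [← h φ hφ hφc hφU]
    unfold μR
    rw [setIntegral_eq_integral_of_forall_compl_eq_zero]
    intro x hx
    have h1 : φ x = 0 := image_eq_zero_of_notMem_tsupport fun h => hx (hφU h)
    have h2 : deriv φ x = 0 := image_eq_zero_of_notMem_tsupport fun h =>
      hx (hφU (tsupport_deriv_subset (𝕜 := ℝ) h))
    rw [h1, h2]; ring)
  refine ⟨fun x => c + ∫ t in (1:ℝ)..x, w t, ae_μR.2 hc, fun a b ha hab => ?_⟩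
  have hb : 0 < b := ha.trans hab
  set a' := min a 1 with ha'
  set b' := max b 1 with hb'
  have ha'0 : 0 < a' := by positivity
  have hb'0 : 0 < b' := by positivity
  have hab' : a' < b' := lt_of_le_of_lt (min_le_left _ _) (hab.trans_le (le_max_left _ _))
  have h1 : ACD (fun x => c + ∫ t in (1:ℝ)..x, w t) w a' b' :=
    ACD.of_integral (ii_of_loc ordConnected_Ioi hw ha'0 hb'0)
      (by rw [uIcc_of_le hab'.le]; exact ⟨min_le_right _ _, le_max_right _ _⟩)
      (fun x _ => rfl) hab'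
  refine h1.mono ?_
  rw [uIcc_of_le hab.le, uIcc_of_le hab'.le]
  exact Icc_subset_Icc (min_le_left _ _) (le_max_left _ _)

end

end Pool.Agent.helper84.Dir
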