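import Pool.Agent.helper84.DirReg2

open MeasureTheory Set Filter Topology
open scoped NNReal

namespace Pool.Agent.helper84.Dir

/-- A channel solution with good behaviour along sequences at both ends. -/
structure ChanReg (k m l : ℝ) (v f g : ℝ → ℝ) : Prop where
  ch : Chan k m l v f g
  inf : ∀ ε : ℝ, 0 < ε → ∀ R : ℝ, ∃ t, R ≤ t ∧ t * (t * (f t ^ 2 + g t ^ 2)) < ε
  zero : ∀ ε : ℝ, 0 < ε → ∀ δ : ℝ, 0 < δ → ∃ s, 0 < s ∧ s < δ ∧ f s ^ 2 < ε ∧
    s * |f s * g s| < ε ∧ (k ≠ -1 → g s ^ 2 < ε)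

section
variable {k m l : ℝ} {v f g : ℝ → ℝ}

lemma mem_bounds_inf {t ε : ℝ} (ht : 1 ≤ t) {a b : ℝ} (h : t * (t * (a ^ 2 + b ^ 2)) < ε) :
    a ^ 2 < ε ∧ b ^ 2 < ε ∧ t * a ^ 2 < ε ∧ t * |a * b| < ε := by
  have h1 : 1 ≤ t * t := by nlinarith
  have h2 : t ≤ t * t := by nlinarith
  have h3 : t * t * (a ^ 2 + b ^ 2) < ε := by linarith
  have ha : 0 ≤ a ^ 2 := sq_nonneg a
  have hb : 0 ≤ b ^ 2 := sq_nonneg b
  have hab := abs_mul_le_half a b
  have h4 : t * (a ^ 2 + b ^ 2) ≤ t * t * (a ^ 2 + b ^ 2) := by nlinarith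
  have h5 : (a ^ 2 + b ^ 2) ≤ t * t * (a ^ 2 + b ^ 2) := by nlinarith
  refine ⟨by linarith, by linarith, ?_, ?_⟩
  · nlinarith
  · nlinarith

/-- **(E1)** eigenvalues of channels `k ≠ 0` are close to `m`. -/
theorem l_close (hv : Pot 1 v) (h : ChanReg k m l v f g) (hl : |l| < m) {η : ℝ} (hη : 0 < η)
    (hη4 : η ≤ 1 / 4) (hsm : ∀ s t, 0 < s → s ≤ t →
      ∫ x in s..t, x ^ 1 * pd v η x ^ (1 + 1) ≤ η ^ 2)
    (hk : 1 ≤ k ∨ k ≤ -1) (hne : ∃ x, 0 < x ∧ f x ≠ 0) : m - l ≤ (3 + 3 * m) * η := by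
  obtain ⟨x₀, hx₀, hfx₀⟩ := hne
  by_contra hcon
  push Not at hcon
  set c := m - l - (3 + 3 * m) * η with hc
  have hc0 : 0 < c := by simp only [hc]; linarith
  have hch := h.ch
  have hab : x₀ / 2 < 2 * x₀ := by linarith
  have hN0 : 0 < ∫ x in (x₀/2)..(2*x₀), x * f x ^ 2 := by
    refine intervalIntegral.integral_pos hab ?_ ?_ ⟨x₀, ⟨by linarith, by linarith⟩, by positivity⟩
    · exact continuousOn_id.mul ((hch.fc (by linarith) hab).pow 2)
    · intro x hx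
      have : 0 < x := lt_trans (by linarith) hx.1
      positivity
  set N₀ := ∫ x in (x₀/2)..(2*x₀), x * f x ^ 2 with hN₀
  set ε := c * N₀ / 4 with hε
  have hε0 : 0 < ε := by positivity
  obtain ⟨s, hs, hsδ, hs1, hs2, -⟩ := h.zero ε hε0 (min (x₀ / 2) 1) (by positivity)
  obtain ⟨t, ht, ht1⟩ := h.inf ε hε0 (max (2 * x₀) 1)
  have ht1' : 1 ≤ t := (le_max_right _ _).trans ht
  have ht2 : 2 * x₀ ≤ t := (le_max_left _ _).trans ht
  have hs1' : s < 1 := lt_of_lt_of_le hsδ (min_le_right _ _)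
  have hs2' : s < x₀ / 2 := lt_of_lt_of_le hsδ (min_le_left _ _)
  have hst : s < t := by linarith
  obtain ⟨b1, b2, b3, b4⟩ := mem_bounds_inf ht1' ht1
  have hmain := e1 hv hch hη hη4 hl hs hst (hsm s t hs hst.le)
    (hk.elim (fun h => Or.inl (by linarith)) Or.inr)
  have hNle : N₀ ≤ ∫ x in s..t, x * f x ^ 2 := by
    refine intervalIntegral.integral_mono_interval hs2'.le hab.le ht2 ?_ ?_
    · refine (ae_restrict_iff' measurableSet_Ioc).2 (ae_of_all _ fun x hx => ?_)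
      have : 0 < x := hs.trans hx.1
      show 0 ≤ x * f x ^ 2
      positivity
    · exact ii_of_cont hst.le (continuousOn_id.mul ((hch.fc hs hst).pow 2))
  have h1 : c * N₀ ≤ c * ∫ x in s..t, x * f x ^ 2 := mul_le_mul_of_nonneg_left hNle hc0.le
  have h2 : |s * (f s * g s)| < ε := by rw [abs_mul, abs_of_pos hs]; exact hs2
  have h3 : |t * (f t * g t)| < ε := by rw [abs_mul, abs_of_pos (by linarith)]; exact b4
  have h4 : (if 0 ≤ k then t * f t ^ 2 else s * f s ^ 2) < ε := by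
    split_ifs
    · exact b3
    · nlinarith [sq_nonneg (f s)]
  have h5 : c * N₀ < 3 * ε := by linarith
  simp only [hε] at h5
  nlinarith [mul_pos hc0 hN0]

/-- Lower bound for `H/F` at infinity when `F > 0`. -/
lemma lower_inf (hv : Pot 1 v) (hm : 0 < m) (hl0 : 0 ≤ l) (hlm : l < m)
    (hF : ∀ r, 0 ≤ r → 0 < FF 1 m l v r) :
    ∃ R, 1 ≤ R ∧ ∀ r, R ≤ r → -(2 * r) * FF 1 m l v r ≤ HH 1 m l v r := by
  obtain ⟨R₀, hR₀, hcone⟩ := cone_unif (ν := 1) hv hm hlm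
  have hl : |l| ≤ m := by rw [abs_of_nonneg hl0]; exact hlm.le
  have hsys := FF_sys (ν := 1) hv hm hl
  by_cases hex : ∃ r₁, R₀ ≤ r₁ ∧ 0 < HH 1 m l v r₁
  · obtain ⟨r₁, hr₁, hH⟩ := hex
    refine ⟨r₁, by linarith, fun r hr => ?_⟩
    have h1 := (hcone l hl0 le_rfl _ _ r₁ hr₁ (hsys.mono (by linarith))
      (hF r₁ (by linarith)) hH.le r hr)
    have h2 := h1.1
    have h3 := h1.2
    rw [pow_one] at h3
    have : 0 ≤ r * FF 1 m l v r := by
      have : 0 ≤ r := by linarith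
      positivity
    nlinarith
  · push Not at hex
    obtain ⟨R₁, hR₁, h1, -, -⟩ := decay hv hm hl0 hlm (R₀ := R₀) (by linarith)
      (hsys.mono (by linarith)) (fun r hr => hF r (by linarith)) hex
    refine ⟨R₁, by linarith, fun r hr => ?_⟩
    have := h1 r hr
    rwa [pow_one] at this

/-- Smallness conditions on the coupling. -/
structure EtaOK (m η : ℝ) : Prop where
  pos : 0 < η
  c0 : η ≤ 1 / 4
  c1 : 600 * η ≤ m
  c2 : 400 * η * ((2 * m + 1) * (100 / m) + 2) ≤ 2 * (100 / m) ^ 2 * m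
  c3 : 400 * ((3 + 3 * m) * η * (100 / m)) ≤ 1
  c3' : 400 * η ≤ 1
  c4 : η ≤ (100 / m) ^ 2
  c5 : (3 + 3 * m) * η ≤ m / 2

lemma exists_eta {m : ℝ} (hm : 0 < m) : ∃ η, EtaOK m η ∧ η ≤ 2 / 5 ∧ η ≤ 3 * m / 10 := by
  have h : ∀ c : ℝ, 0 < c → ∀ᶠ η : ℝ in 𝓝[>] 0, η < c := fun c hc =>
    (eventually_lt_nhds hc).filter_mono nhdsWithin_le_nhds
  have hpos : ∀ᶠ η : ℝ in 𝓝[>] 0, 0 < η := self_mem_nhdsWithin
  have hall := (((hpos.and (h (1/4) (by norm_num))).and (h (m / 600) (by positivity))).and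
    (((h (2 * (100 / m) ^ 2 * m / (400 * ((2 * m + 1) * (100 / m) + 2))) (by positivity)).and
    (h (1 / (400 * ((3 + 3 * m) * (100 / m)))) (by positivity))))).and
    (((h (1 / 400) (by norm_num)).and (h ((100 / m) ^ 2) (by positivity))).and
    ((h (m / 2 / (3 + 3 * m)) (by positivity)).and (h (3 * m / 10) (by positivity))))
  obtain ⟨η, ⟨⟨⟨h1, h2⟩, h3⟩, h4, h5⟩, ⟨h6, h7⟩, h8, h9⟩ := hall.exists
  refine ⟨η, ⟨h1, h2.le, ?_, ?_, ?_, ?_, h7.le, ?_⟩, by linarith, h9.le⟩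
  · rw [lt_div_iff₀ (by norm_num)] at h3; linarith
  · rw [lt_div_iff₀ (by positivity)] at h4
    nlinarith
  · rw [lt_div_iff₀ (by positivity)] at h5
    nlinarith
  · rw [lt_div_iff₀ (by norm_num)] at h6; linarith
  · rw [lt_div_iff₀ (by positivity)] at h8; linarith

/-- Smallness of the lower component on `[s,t]`, up to boundary terms. -/
lemma chan_est (hv : Pot 1 v) (hch : Chan k m l v f g) (hm : 0 < m) (hl0 : 0 ≤ l) (hlm : l < m) {η : ℝ}
    (hη : EtaOK m η) (hclose : m - l ≤ (3 + 3 * m) * η) {s t : ℝ} (hs : 0 < s) (hst : s < t)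
    (hsmst : ∫ x in s..t, x ^ 1 * pd v η x ^ (1 + 1) ≤ η ^ 2)
    (hk : 1 ≤ k ∨ k ≤ -2 ∨ k = -1) {e : ℝ} (he0 : 0 ≤ e)
    (g1e : |rho (100 / m) s * (f s * g s)| + |rho (100 / m) t * (f t * g t)| ≤ e)
    (hft : f t ^ 2 ≤ e) (hfs : f s ^ 2 ≤ e) (hgt : g t ^ 2 ≤ e) (hgs : k ≠ -1 → g s ^ 2 ≤ e) :
    (s ≤ 100 / m → g s ^ 2 ≤ 2 * ((20 + 20 / m) * e + II f s t / 20)) ∧
    (k ≠ -1 → II g s t ≤ (20 + 20 / m) * e + II f s t / 20) := by
  have hk1 : 1 ≤ k ∨ k ≤ -1 := by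
    rcases hk with h | h | h
    · exact Or.inl h
    · exact Or.inr (by linarith)
    · exact Or.inr (by linarith)
  set L := 100 / m with hL
  have hL0 : 0 < L := by positivity
  set η' := (3 + 3 * m) * η with hη'
  have hη0 := hη.pos
  have hηη' : η ≤ η' := by simp only [hη']; nlinarith
  have hfc := hch.fc hs hst
  have hgc := hch.gc hs hst
  have hne' : (Icc s t).Nonempty := ⟨s, le_rfl, hst.le⟩
  obtain ⟨xf, hxf, hmaxf⟩ := isCompact_Icc.exists_isMaxOn hne'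
    ((sig_cont hL0).continuousOn.mul (hfc.pow 2))
  obtain ⟨xg, hxg, hmaxg⟩ := isCompact_Icc.exists_isMaxOn hne'
    ((sig_cont hL0).continuousOn.mul (hgc.pow 2))
  set Sf := sig L xf * f xf ^ 2 with hSf
  set Sg := sig L xg * g xg ^ 2 with hSg
  have hSfle : ∀ x ∈ Icc s t, sig L x * f x ^ 2 ≤ Sf := fun x hx => hmaxf hx
  have hSgle : ∀ x ∈ Icc s t, sig L x * g x ^ 2 ≤ Sg := fun x hx => hmaxg hx
  have hSf0 : 0 ≤ Sf := mul_nonneg sig_nonneg (sq_nonneg _)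
  have hSg0 : 0 ≤ Sg := mul_nonneg sig_nonneg (sq_nonneg _)
  have hIn := II_nonneg (f := f) hs hst
  have hJn := JJ_nonneg (g := g) (L := L) hs hst
  have g1 := est1 hv hch hη0 hL0 hl0 hlm.le hs hst
  have g2 := est2 hv hch hη0 hL0 hs hst hsmst hSf0 hSfle
  have g2' := est2' hv hch hη0 hL0 hs hst hsmst hSg0 hSgle
  have hsigle : ∀ x a, sig L x * a ^ 2 ≤ a ^ 2 := fun x a =>
    mul_le_of_le_one_left (sq_nonneg a) sig_le_one
  have g3 : Sf ≤ e + (1 / 2 * II f s t + ((2 * m + η) * L * II f s t +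
      (2 * m + η) * L * JJ L g s t) + 2 * PS η L v f g s t) := by
    rcases hk1 with hk' | hk'
    · have := est3_right hv hch hm hη0 hL0 hl0 hlm.le hs hst (by linarith) xf hxf
      have h2 := hsigle t (f t)
      linarith
    · have := est3_left hv hch hm hη0 hL0 hl0 hlm.le hs hst (by linarith) xf hxf
      have h2 := hsigle s (f s)
      linarith
  have g4 : Sg ≤ e + (2 * JJ L g s t + (η' * L * II f s t + η' * L * JJ L g s t) +
      2 * PS η L v f g s t) := by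
    rcases hk1 with hk' | hk'
    · have := est4_left hv hch hη0 hL0 hlm.le hclose hηη' hs hst (by linarith) xg hxg
      have h2 := hsigle s (g s)
      have h3 := hgs (by linarith)
      linarith
    · have := est4_right hv hch hη0 hL0 hlm.le hclose hηη' hs hst hk' xg hxg
      have h2 := hsigle t (g t)
      linarith
  constructor
  · intro hsL
    have g5 : 2 * (0:ℝ) ≤ e + (2 * JJ L g s t + (η' * L * II f s t + η' * L * JJ L g s t) +
      2 * PS η L v f g s t) := by linarith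
    have halg := (algebra hm hL hη0 hη.c1 hη.c2 hη.c3 hη.c3' hη.c4
      hIn hJn hSg0 he0 (g1.trans (by linarith)) g2 g2' g3 g4 g5).1
    have h1 := hSgle s ⟨le_rfl, hst.le⟩
    have h2 : 1 / 2 ≤ sig L s := by
      unfold sig
      rw [div_le_div_iff₀ (by norm_num) (by positivity)]
      nlinarith
    nlinarith [sq_nonneg (g s)]
  · intro hkm
    have hk2 : 0 ≤ k ∨ k ≤ -2 := by
      rcases hk with h | h | h
      · exact Or.inl (by linarith)
      · exact Or.inr h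
      · exact absurd h hkm
    have hgs := hgs hkm
    have g5 := est5 hv hch hη0 hL0 hlm.le hclose hηη' hs hst hk2
    have g5' : 2 * (∫ x in s..t, sig L x * (g x ^ 2 / x)) ≤ e + (2 * JJ L g s t +
        (η' * L * II f s t + η' * L * JJ L g s t) + 2 * PS η L v f g s t) := by
      have : (if 0 ≤ k then sig L s * g s ^ 2 else sig L t * g t ^ 2) ≤ e := by
        split_ifs
        · exact (hsigle s (g s)).trans hgs
        · exact (hsigle t (g t)).trans hgt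
      linarith
    have halg := (algebra hm hL hη0 hη.c1 hη.c2 hη.c3 hη.c3' hη.c4
      hIn hJn hSg0 he0 (g1.trans (by linarith)) g2 g2' g3 g4 g5').2
    rw [II_split (g := g) hL0 hgc hs hst]
    exact halg

/-- final step, `k = -1` -/
lemma fin_m1 {m l ε e I Is P₁ P₂ a₁ a₂ fs gs ft gt I₀ C : ℝ} (hm : 0 < m) (hl : m / 2 ≤ l)
    (hlm : l < m) (hI : 0 ≤ I)
    (hpic : (-1:ℝ) ^ 2 * l / (m * (m + l)) * I ≤
      (P₁ - a₁ - (-1) / (2 * m) * (fs + gs)) - (P₂ - a₂ - (-1) / (2 * m) * (ft + gt)) +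
      (-1:ℝ) * (-1 + 1) / m * Is)
    (h1 : P₁ ≤ ε) (h2 : -(2 * ε) ≤ P₂) (h3 : -a₁ ≤ ε) (h4 : a₂ ≤ ε) (h5 : fs ≤ ε)
    (h6 : gs ≤ 2 * (C * e + I / 20)) (h7 : 0 ≤ ft) (h8 : 0 ≤ gt) (hI₀ : I₀ ≤ I)
    (hsm : 5 * ε + (1 / (2 * m) * ε + C * e / m) < 1 / (30 * m) * I₀) : False := by
  have hl3 : 1 / 3 ≤ l / (m + l) := by
    rw [div_le_div_iff₀ (by norm_num) (by linarith)]; linarith
  have hcoef : 1 / (3 * m) * I ≤ (-1:ℝ) ^ 2 * l / (m * (m + l)) * I := by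
    refine mul_le_mul_of_nonneg_right ?_ hI
    have : (-1:ℝ) ^ 2 * l / (m * (m + l)) = 1 / m * (l / (m + l)) := by
      rw [div_mul_div_comm]; ring
    rw [this]
    calc 1 / (3 * m) = 1 / m * (1 / 3) := by rw [div_mul_div_comm, mul_one]; ring
      _ ≤ _ := by gcongr
  have e1 : (-1:ℝ) / (2 * m) * (fs + gs) = -(1 / (2 * m) * (fs + gs)) := by ring
  have e2 : (-1:ℝ) / (2 * m) * (ft + gt) = -(1 / (2 * m) * (ft + gt)) := by ring
  have e3 : (-1:ℝ) * (-1 + 1) / m * Is = 0 := by ring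
  have e4 : 0 ≤ 1 / (2 * m) * (ft + gt) := by positivity
  have e5 : 1 / (2 * m) * (fs + gs) ≤ 1 / (2 * m) * (ε + 2 * (C * e + I / 20)) :=
    mul_le_mul_of_nonneg_left (by linarith) (by positivity)
  have e6 : 1 / (2 * m) * (ε + 2 * (C * e + I / 20)) =
      1 / (2 * m) * ε + C * e / m + 1 / (20 * m) * I := by field_simp; ring
  have e7 : 1 / (3 * m) * I - 1 / (20 * m) * I = 17 / 2 * (1 / (30 * m) * I) := by field_simp; ring
  have e8 : 1 / (30 * m) * I₀ ≤ 1 / (30 * m) * I := mul_le_mul_of_nonneg_left hI₀ (by positivity)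
  have e9 : 0 ≤ 1 / (30 * m) * I := by positivity
  rw [e1, e2, e3] at hpic
  linarith

/-- final step, `k ∉ {0,-1}` -/
lemma fin_gen {k m l ε e I Is P₁ P₂ a₁ a₂ fs gs ft gt I₀ C : ℝ} (hm : 0 < m) (hl : m / 2 ≤ l)
    (hlm : l < m) (hk : 1 ≤ k ∨ k ≤ -2) (hI : 0 ≤ I) (hIs : 0 ≤ Is)
    (hpic : k ^ 2 * l / (m * (m + l)) * I ≤
      (P₁ - a₁ - k / (2 * m) * (fs + gs)) - (P₂ - a₂ - k / (2 * m) * (ft + gt)) +
      k * (k + 1) / m * Is)
    (h1 : P₁ ≤ ε) (h2 : -(2 * ε) ≤ P₂) (h3 : -a₁ ≤ ε) (h4 : a₂ ≤ ε) (h5 : fs ≤ ε) (h5' : gs ≤ ε)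
    (h5a : 0 ≤ fs) (h5b : 0 ≤ gs)
    (h6 : Is ≤ C * e + I / 20) (h7 : 0 ≤ ft) (h8 : 0 ≤ gt) (h7' : ft ≤ ε) (h8' : gt ≤ ε)
    (hI₀0 : 0 ≤ I₀) (hI₀ : I₀ ≤ I)
    (hsm : 5 * ε + |k| / m * ε + 2 * k ^ 2 / m * (C * e) < 1 / (30 * m) * I₀) : False := by
  have hl3 : 1 / 3 ≤ l / (m + l) := by
    rw [div_le_div_iff₀ (by norm_num) (by linarith)]; linarith
  have hcoef : k ^ 2 / (3 * m) * I ≤ k ^ 2 * l / (m * (m + l)) * I := by
    refine mul_le_mul_of_nonneg_right ?_ hI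
    have : k ^ 2 * l / (m * (m + l)) = k ^ 2 / m * (l / (m + l)) := by
      rw [div_mul_div_comm]
    rw [this]
    calc k ^ 2 / (3 * m) = k ^ 2 / m * (1 / 3) := by rw [div_mul_div_comm, mul_one]; ring
      _ ≤ _ := by gcongr
  have hkk : k * (k + 1) ≤ 2 * k ^ 2 := by rcases hk with h | h <;> nlinarith
  have hkk2 : 1 ≤ k ^ 2 := by rcases hk with h | h <;> nlinarith
  have e5 : k * (k + 1) / m * Is ≤ 2 * k ^ 2 / m * (C * e + I / 20) := by
    calc k * (k + 1) / m * Is ≤ 2 * k ^ 2 / m * Is :=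
          mul_le_mul_of_nonneg_right (div_le_div_of_nonneg_right hkk hm.le) hIs
      _ ≤ _ := mul_le_mul_of_nonneg_left h6 (by positivity)
  have e6 : -(k / (2 * m) * (fs + gs)) + k / (2 * m) * (ft + gt) ≤ |k| / m * ε := by
    rcases hk with h' | h'
    · rw [abs_of_nonneg (by linarith)]
      have a1 : 0 ≤ k / (2 * m) * (fs + gs) := by positivity
      have a2 : k / (2 * m) * (ft + gt) ≤ k / (2 * m) * (2 * ε) :=
        mul_le_mul_of_nonneg_left (by linarith) (by positivity)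
      have a3 : k / (2 * m) * (2 * ε) = k / m * ε := by field_simp
      linarith
    · rw [abs_of_nonpos (by linarith)]
      have hk0 : 0 ≤ -k / (2 * m) := by
        have : 0 ≤ -k := by linarith
        positivity
      have a1 : 0 ≤ -k / (2 * m) * (ft + gt) := by positivity
      have a2 : -k / (2 * m) * (fs + gs) ≤ -k / (2 * m) * (2 * ε) :=
        mul_le_mul_of_nonneg_left (by linarith) hk0
      have a3 : -k / (2 * m) * (2 * ε) = -k / m * ε := by field_simp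
      have a4 : -(k / (2 * m) * (fs + gs)) = -k / (2 * m) * (fs + gs) := by ring
      have a5 : k / (2 * m) * (ft + gt) = -(-k / (2 * m) * (ft + gt)) := by ring
      linarith
  have e8 : 2 * k ^ 2 / m * (C * e + I / 20) = 2 * k ^ 2 / m * (C * e) + k ^ 2 / (10 * m) * I := by
    field_simp; ring
  have e9 : k ^ 2 / (3 * m) * I - k ^ 2 / (10 * m) * I = 7 * (k ^ 2 * (1 / (30 * m) * I)) := by
    field_simp; ring
  have e10 : 1 / (30 * m) * I₀ ≤ 1 / (30 * m) * I := mul_le_mul_of_nonneg_left hI₀ (by positivity)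
  have e11 : 0 ≤ 1 / (30 * m) * I := by positivity
  have e12 : 1 / (30 * m) * I ≤ k ^ 2 * (1 / (30 * m) * I) := le_mul_of_one_le_left e11 hkk2
  linarith

/-- **Main contradiction**: a nontrivial `k ≠ 0` channel solution forces the regular `k = 0`
solution to change sign. -/
theorem chan_contra (hv : Pot 1 v) (h : ChanReg k m l v f g) (hl : |l| < m) {η : ℝ}
    (hη : EtaOK m η) (hsm : ∀ s t, 0 < s → s ≤ t →
      ∫ x in s..t, x ^ 1 * pd v η x ^ (1 + 1) ≤ η ^ 2)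
    (hk : 1 ≤ k ∨ k ≤ -2 ∨ k = -1) (hne : ∃ x, 0 < x ∧ f x ≠ 0)
    (hF : ∀ r, 0 ≤ r → 0 < FF 1 m l v r) : False := by
  have hm : 0 < m := lt_of_le_of_lt (abs_nonneg l) hl
  have hk1 : 1 ≤ k ∨ k ≤ -1 := by
    rcases hk with h | h | h
    · exact Or.inl h
    · exact Or.inr (by linarith)
    · exact Or.inr (by linarith)
  have hclose := l_close hv h hl hη.pos hη.c0 hsm hk1 hne
  obtain ⟨-, hlm⟩ := abs_lt.1 hl
  have hlhalf : m / 2 ≤ l := by linarith [hη.c5]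
  have hl0 : 0 ≤ l := by linarith
  obtain ⟨x₀, hx₀, hfx₀⟩ := hne
  have hch := h.ch
  have hab : x₀ / 2 < 2 * x₀ := by linarith
  have hI0 : 0 < II f (x₀/2) (2*x₀) := by
    refine intervalIntegral.integral_pos hab (cI (by linarith) (hch.fc (by linarith) hab)) ?_
      ⟨x₀, ⟨by linarith, by linarith⟩, by positivity⟩
    intro x hx
    have : 0 < x := lt_trans (by linarith) hx.1
    positivity
  obtain ⟨Rinf, hRinf, hlow⟩ := lower_inf hv hm hl0 hlm hF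
  have hsys := FF_sys (ν := 1) hv hm hl.le
  -- near zero, H/F ≤ 1
  obtain ⟨δ₀, hδ₀, hPzero⟩ : ∃ δ₀, 0 < δ₀ ∧ ∀ s, 0 < s → s < δ₀ →
      HH 1 m l v s * (FF 1 m l v s)⁻¹ ≤ 1 := by
    have h1 := (hsys.hF 1 one_pos).continuousOn
    have h2 := (hsys.hH 1 one_pos).continuousOn
    rw [uIcc_of_le zero_le_one] at h1 h2
    have h3 : ContinuousWithinAt (fun r => HH 1 m l v r * (FF 1 m l v r)⁻¹) (Icc 0 1) 0 :=
      (h2 0 (left_mem_Icc.2 zero_le_one)).mul ((h1 0 (left_mem_Icc.2 zero_le_one)).inv₀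
        (hF 0 le_rfl).ne')
    obtain ⟨d, hd, h4⟩ := (Metric.continuousWithinAt_iff.1 h3) 1 one_pos
    refine ⟨min d 1, by positivity, fun s hs hsd => ?_⟩
    have h5 := @h4 s ⟨hs.le, (hsd.trans_le (min_le_right _ _)).le⟩ (by
      rw [Real.dist_eq, sub_zero, abs_of_pos hs]; exact hsd.trans_le (min_le_left _ _))
    rw [HH_zero hv hm hl.le, zero_mul, Real.dist_eq, sub_zero, abs_lt] at h5
    exact h5.2.le
  -- total constant
  obtain ⟨Cm, hCm⟩ : ∃ Cm, Cm = 20 + 20 / m := ⟨_, rfl⟩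
  have hCm0 : 0 < Cm := by rw [hCm]; positivity
  obtain ⟨K₁, hK₁⟩ : ∃ K₁, K₁ = 2 + 1 / (100 / m) ^ 2 := ⟨_, rfl⟩
  have hK₁0 : 0 < K₁ := by rw [hK₁]; positivity
  obtain ⟨K₂, hK₂⟩ : ∃ K₂, K₂ = 5 + |k| / m + 2 * k ^ 2 / m * (Cm * K₁) + (1 / (2 * m) + Cm * K₁ / m) :=
    ⟨_, rfl⟩
  have hK₂0 : 0 < K₂ := by rw [hK₂]; positivity
  obtain ⟨I₀, hI₀⟩ : ∃ I₀, I₀ = II f (x₀/2) (2*x₀) := ⟨_, rfl⟩
  rw [← hI₀] at hI0
  obtain ⟨ε, hε⟩ : ∃ ε, ε = 1 / (30 * m) * I₀ / (2 * K₂) := ⟨_, rfl⟩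
  have hε0 : 0 < ε := by rw [hε]; positivity
  have hεK : K₂ * ε < 1 / (30 * m) * I₀ := by
    have h1 : K₂ * ε = 1 / (30 * m) * I₀ / 2 := by rw [hε]; field_simp
    have h2 : 0 < 1 / (30 * m) * I₀ := by positivity
    linarith
  obtain ⟨s, hs, hsδ, hs1, hs2, hs3⟩ := h.zero ε hε0 (min (min (x₀ / 2) 1) (min δ₀ (100 / m)))
    (by positivity)
  obtain ⟨t, ht, ht1⟩ := h.inf ε hε0 (max (max (2 * x₀) 1) Rinf)
  have ht1' : 1 ≤ t := ((le_max_right _ _).trans (le_max_left _ _)).trans ht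
  have ht2 : 2 * x₀ ≤ t := ((le_max_left _ _).trans (le_max_left _ _)).trans ht
  have htR : Rinf ≤ t := (le_max_right _ _).trans ht
  have hs1' : s < 1 := hsδ.trans_le ((min_le_left _ _).trans (min_le_right _ _))
  have hs2' : s < x₀ / 2 := hsδ.trans_le ((min_le_left _ _).trans (min_le_left _ _))
  have hsδ₀ : s < δ₀ := hsδ.trans_le ((min_le_right _ _).trans (min_le_left _ _))
  have hsL : s < 100 / m := hsδ.trans_le ((min_le_right _ _).trans (min_le_right _ _))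
  have hst : s < t := by linarith
  have ht0 : 0 < t := hs.trans hst
  obtain ⟨b1, b2, b3, b4⟩ := mem_bounds_inf ht1' ht1
  have hsmst := hsm s t hs hst.le
  have hIn := II_nonneg (f := f) hs hst
  have hIge : I₀ ≤ II f s t := by
    rw [hI₀]
    refine intervalIntegral.integral_mono_interval hs2'.le hab.le ht2 ?_ ?_
    · refine (ae_restrict_iff' measurableSet_Ioc).2 (ae_of_all _ fun x hx => ?_)
      have : 0 < x := hs.trans hx.1
      show 0 ≤ f x ^ 2 / x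
      positivity
    · exact ii_of_cont hst.le (cI hs (hch.fc hs hst))
  -- boundary terms for the estimates
  have he0 : 0 ≤ K₁ * ε := by positivity
  have hεe : ε ≤ K₁ * ε := by
    refine le_mul_of_one_le_left hε0.le ?_
    have : 0 ≤ 1 / (100 / m) ^ 2 := by positivity
    rw [hK₁]; linarith
  have g1e : |rho (100 / m) s * (f s * g s)| + |rho (100 / m) t * (f t * g t)| ≤ K₁ * ε := by
    have hρs : rho (100 / m) s ≤ s / (100 / m) ^ 2 := by
      unfold rho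
      gcongr
      nlinarith [sq_nonneg s]
    have hρt : rho (100 / m) t ≤ t := (rho_le_inv ht0).trans (by
      rw [div_le_iff₀ ht0]; nlinarith)
    have e1 : |rho (100 / m) s * (f s * g s)| ≤ ε / (100 / m) ^ 2 := by
      rw [abs_mul, abs_of_nonneg (rho_nonneg hs.le)]
      calc rho (100 / m) s * |f s * g s| ≤ s / (100 / m) ^ 2 * |f s * g s| :=
            mul_le_mul_of_nonneg_right hρs (abs_nonneg _)
        _ = s * |f s * g s| / (100 / m) ^ 2 := by ring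
        _ ≤ ε / (100 / m) ^ 2 := div_le_div_of_nonneg_right hs2.le (by positivity)
    have e2 : |rho (100 / m) t * (f t * g t)| ≤ ε := by
      rw [abs_mul, abs_of_nonneg (rho_nonneg ht0.le)]
      exact (mul_le_mul_of_nonneg_right hρt (abs_nonneg _)).trans b4.le
    have e3 : K₁ * ε = 2 * ε + ε / (100 / m) ^ 2 := by rw [hK₁]; ring
    linarith
  obtain ⟨est_a, est_b⟩ := chan_est hv hch hm hl0 hlm hη hclose hs hst hsmst hk he0 g1e
    (b1.le.trans hεe) (hs1.le.trans hεe) (b2.le.trans hεe) (fun h' => (hs3 h').le.trans hεe)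
  rw [← hCm] at est_a est_b
  -- Picone
  have hpic := picone hv hch hl hs hst hsys hF
  have hPs : HH 1 m l v s * (FF 1 m l v s)⁻¹ * f s ^ 2 ≤ ε := by
    have h1 := hPzero s hs hsδ₀
    have h2 : HH 1 m l v s * (FF 1 m l v s)⁻¹ * f s ^ 2 ≤ 1 * f s ^ 2 :=
      mul_le_mul_of_nonneg_right h1 (sq_nonneg _)
    linarith
  have hPt : -(2 * ε) ≤ HH 1 m l v t * (FF 1 m l v t)⁻¹ * f t ^ 2 := by
    have h1 := hlow t htR
    have h2 := hF t ht0.le
    have h3 : -(2 * t) ≤ HH 1 m l v t * (FF 1 m l v t)⁻¹ := by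
      rw [← div_eq_mul_inv, le_div_iff₀ h2]; exact h1
    have h4 : -(2 * t) * f t ^ 2 ≤ HH 1 m l v t * (FF 1 m l v t)⁻¹ * f t ^ 2 :=
      mul_le_mul_of_nonneg_right h3 (sq_nonneg _)
    linarith
  have hfgs : -(s * (f s * g s)) ≤ ε := by
    have h1 := neg_abs_le (f s * g s)
    have h2 : s * (-(f s * g s)) ≤ s * |f s * g s| := mul_le_mul_of_nonneg_left (by linarith) hs.le
    linarith
  have hfgt : t * (f t * g t) ≤ ε :=
    (mul_le_mul_of_nonneg_left (le_abs_self (f t * g t)) ht0.le).trans b4.le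
  have a1 : 0 ≤ Cm * K₁ / m := by positivity
  have a2 : 0 ≤ 2 * k ^ 2 / m * (Cm * K₁) := by positivity
  have a3 : 0 ≤ 1 / (2 * m) := by positivity
  have a4 : 0 ≤ |k| / m := by positivity
  by_cases hkm : k = -1
  · subst hkm
    refine fin_m1 hm hlhalf hlm hIn hpic hPs hPt hfgs hfgt hs1.le (est_a hsL.le) (sq_nonneg _)
      (sq_nonneg _) hIge (lt_of_le_of_lt ?_ hεK)
    have e1 : K₂ * ε = (5 * ε + (1 / (2 * m) * ε + Cm * (K₁ * ε) / m)) +
      (|(-1:ℝ)| / m + 2 * (-1:ℝ) ^ 2 / m * (Cm * K₁)) * ε := by rw [hK₂]; ring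
    rw [e1]
    have : 0 ≤ (|(-1:ℝ)| / m + 2 * (-1:ℝ) ^ 2 / m * (Cm * K₁)) * ε :=
      mul_nonneg (add_nonneg a4 a2) hε0.le
    linarith
  · have hk2 : 1 ≤ k ∨ k ≤ -2 := by
      rcases hk with h | h | h
      · exact Or.inl h
      · exact Or.inr h
      · exact absurd h hkm
    refine fin_gen hm hlhalf hlm hk2 hIn (II_nonneg hs hst) hpic hPs hPt hfgs hfgt hs1.le
      (hs3 hkm).le (sq_nonneg _) (sq_nonneg _) (est_b hkm) (sq_nonneg _)
      (sq_nonneg _) b1.le b2.le hI0.le hIge (lt_of_le_of_lt ?_ hεK)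
    have e1 : K₂ * ε = (5 * ε + |k| / m * ε + 2 * k ^ 2 / m * (Cm * (K₁ * ε))) +
      (1 / (2 * m) + Cm * K₁ / m) * ε := by rw [hK₂]; ring
    rw [e1]
    have : 0 ≤ (1 / (2 * m) + Cm * K₁ / m) * ε := mul_nonneg (add_nonneg a3 a1) hε0.le
    linarith

end

end Pool.Agent.helper84.Dir
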