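import Pool.Agent.helper84.DirShoot2

open MeasureTheory Set Filter Topology
open scoped NNReal

namespace Pool.Agent.helper84.Dir

/-- Real radial Dirac system in the channel of angular momentum `k`. -/
structure Chan (k m l : ℝ) (v f g : ℝ → ℝ) : Prop where
  hf : ∀ a b, 0 < a → a < b → ACD f (fun r => k / r * f r + (m + l + v r) * g r) a b
  hg : ∀ a b, 0 < a → a < b → ACD g (fun r => -((k + 1) / r) * g r + (m - l - v r) * f r) a b

section weights

noncomputable def rho (L x : ℝ) : ℝ := x / (L ^ 2 + x ^ 2)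
noncomputable def sig (L x : ℝ) : ℝ := L ^ 2 / (L ^ 2 + x ^ 2)

variable {L x : ℝ}

lemma rho_nonneg (hx : 0 ≤ x) : 0 ≤ rho L x := by unfold rho; positivity
lemma sig_nonneg : 0 ≤ sig L x := by unfold sig; positivity
lemma sig_pos (hL : 0 < L) : 0 < sig L x := by unfold sig; positivity
lemma sig_le_one : sig L x ≤ 1 := by
  unfold sig
  refine div_le_one_of_le₀ (by nlinarith [sq_nonneg x]) (by positivity)

lemma rho_le_inv (hx : 0 < x) : rho L x ≤ 1 / x := by
  unfold rho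
  rw [div_le_div_iff₀ (by positivity) hx]
  nlinarith [sq_nonneg L]

lemma sig_div_add_rho (hx : 0 < x) : sig L x / x + rho L x = 1 / x := by
  unfold rho sig
  field_simp

lemma w1 (hL : 0 < L) (hx : 0 < x) (f : ℝ) : 2 * rho L x * sig L x * f ^ 2 ≤ 1 / 2 * (f ^ 2 / x) := by
  have h : 2 * rho L x * sig L x ≤ 1 / 2 * (1 / x) := by
    unfold rho sig
    have e : 1 / 2 * (1 / x) - 2 * (x / (L ^ 2 + x ^ 2)) * (L ^ 2 / (L ^ 2 + x ^ 2)) =
      (L ^ 2 - x ^ 2) ^ 2 / (2 * x * (L ^ 2 + x ^ 2) ^ 2) := by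
      field_simp; ring
    have : 0 ≤ (L ^ 2 - x ^ 2) ^ 2 / (2 * x * (L ^ 2 + x ^ 2) ^ 2) := by positivity
    linarith
  calc 2 * rho L x * sig L x * f ^ 2 ≤ 1 / 2 * (1 / x) * f ^ 2 :=
        mul_le_mul_of_nonneg_right h (by positivity)
    _ = _ := by ring

lemma w2 (hL : 0 < L) (hx : 0 < x) (f g : ℝ) :
    sig L x * |f * g| ≤ L / 2 * (f ^ 2 / x + rho L x * g ^ 2) := by
  have e : L / 2 * (f ^ 2 / x + rho L x * g ^ 2) - sig L x * |f * g| =
      L / (2 * x) * ((|f| - sig L x / L * x * |g|) ^ 2 +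
        (x * rho L x - (sig L x / L * x) ^ 2) * g ^ 2) := by
    rw [abs_mul, ← sq_abs f, ← sq_abs g]
    field_simp
    ring
  have h : 0 ≤ x * rho L x - (sig L x / L * x) ^ 2 := by
    have : x * rho L x - (sig L x / L * x) ^ 2 = x ^ 4 / (L ^ 2 + x ^ 2) ^ 2 := by
      unfold rho sig; field_simp; ring
    rw [this]; positivity
  have : 0 ≤ L / (2 * x) * ((|f| - sig L x / L * x * |g|) ^ 2 +
        (x * rho L x - (sig L x / L * x) ^ 2) * g ^ 2) := by positivity
  linarith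

lemma w3 (hL : 0 < L) (hx : 0 < x) (f g : ℝ) :
    2 * x ^ 2 / (L ^ 2 + x ^ 2) ^ 2 * |f * g| ≤ 1 / (2 * L) * (f ^ 2 / x + rho L x * g ^ 2) := by
  have h1 : |f * g| ≤ (f ^ 2 + g ^ 2) / 2 := by
    rw [abs_le]; constructor <;> nlinarith [sq_nonneg (f - g), sq_nonneg (f + g)]
  have h2 : x ^ 2 / (L ^ 2 + x ^ 2) ^ 2 * f ^ 2 ≤ 1 / (2 * L) * (f ^ 2 / x) := by
    have : x ^ 2 / (L ^ 2 + x ^ 2) ^ 2 ≤ 1 / (2 * L) * (1 / x) := by
      have h3 : 2 * L * x ≤ L ^ 2 + x ^ 2 := by nlinarith [sq_nonneg (L - x)]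
      have h4 : x ^ 2 ≤ L ^ 2 + x ^ 2 := by nlinarith [sq_nonneg L]
      rw [one_div, one_div, ← mul_inv, ← one_div, div_le_div_iff₀ (by positivity) (by positivity)]
      nlinarith [mul_le_mul h3 h4 (by positivity) (by positivity)]
    calc _ ≤ 1 / (2 * L) * (1 / x) * f ^ 2 := mul_le_mul_of_nonneg_right this (by positivity)
      _ = _ := by ring
  have h5 : x ^ 2 / (L ^ 2 + x ^ 2) ^ 2 * g ^ 2 ≤ 1 / (2 * L) * (rho L x * g ^ 2) := by
    have : x ^ 2 / (L ^ 2 + x ^ 2) ^ 2 ≤ 1 / (2 * L) * rho L x := by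
      unfold rho
      have h3 : 2 * L * x ≤ L ^ 2 + x ^ 2 := by nlinarith [sq_nonneg (L - x)]
      rw [div_mul_div_comm, one_mul, div_le_div_iff₀ (by positivity) (by positivity)]
      have : 0 < L ^ 2 + x ^ 2 := by positivity
      nlinarith [mul_le_mul_of_nonneg_right h3 (by positivity : 0 ≤ x * (L ^ 2 + x ^ 2))]
    calc _ ≤ 1 / (2 * L) * rho L x * g ^ 2 := mul_le_mul_of_nonneg_right this (by positivity)
      _ = _ := by ring
  calc 2 * x ^ 2 / (L ^ 2 + x ^ 2) ^ 2 * |f * g| ≤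
      2 * x ^ 2 / (L ^ 2 + x ^ 2) ^ 2 * ((f ^ 2 + g ^ 2) / 2) :=
        mul_le_mul_of_nonneg_left h1 (by positivity)
    _ = x ^ 2 / (L ^ 2 + x ^ 2) ^ 2 * f ^ 2 + x ^ 2 / (L ^ 2 + x ^ 2) ^ 2 * g ^ 2 := by ring
    _ ≤ _ := by linarith

lemma w5 (hL : 0 < L) (f : ℝ) : rho L x ^ 2 * f ^ 2 ≤ sig L x * f ^ 2 / L ^ 2 := by
  have : rho L x ^ 2 ≤ sig L x / L ^ 2 := by
    unfold rho sig
    have e : L ^ 2 / (L ^ 2 + x ^ 2) / L ^ 2 - (x / (L ^ 2 + x ^ 2)) ^ 2 =
      L ^ 2 / (L ^ 2 + x ^ 2) ^ 2 := by field_simp; ring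
    have : 0 ≤ L ^ 2 / (L ^ 2 + x ^ 2) ^ 2 := by positivity
    linarith
  calc rho L x ^ 2 * f ^ 2 ≤ sig L x / L ^ 2 * f ^ 2 := mul_le_mul_of_nonneg_right this (by positivity)
    _ = _ := by ring

lemma rho_cont (hL : 0 < L) : Continuous (rho L) := by
  unfold rho
  exact continuous_id.div (by fun_prop) fun x => by positivity

lemma sig_cont (hL : 0 < L) : Continuous (sig L) := by
  unfold sig
  exact continuous_const.div (by fun_prop) fun x => by positivity

lemma rho_acd (hL : 0 < L) (s t : ℝ) :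
    ACD (rho L) (fun x => (L ^ 2 - x ^ 2) / (L ^ 2 + x ^ 2) ^ 2) s t := by
  refine ACD.of_hasDerivAt (fun x _ => ?_) ?_
  · have h1 : HasDerivAt (fun y : ℝ => L ^ 2 + y ^ 2) (2 * x) x := by
      simpa using (hasDerivAt_pow 2 x).const_add (L ^ 2)
    have h2 := (hasDerivAt_id x).div h1 (by positivity)
    have h3 : (1 * (L ^ 2 + x ^ 2) - id x * (2 * x)) / (L ^ 2 + x ^ 2) ^ 2 =
        (L ^ 2 - x ^ 2) / (L ^ 2 + x ^ 2) ^ 2 := by
      simp only [id]; congr 1; ring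
    rw [← h3]
    exact h2
  · refine Continuous.continuousOn (Continuous.div (by fun_prop) (by fun_prop) fun x => by positivity)

lemma sig_acd (hL : 0 < L) (s t : ℝ) :
    ACD (sig L) (fun x => -(2 * rho L x * sig L x)) s t := by
  refine ACD.of_hasDerivAt (fun x _ => ?_) ?_
  · have h1 : HasDerivAt (fun y : ℝ => L ^ 2 + y ^ 2) (2 * x) x := by
      simpa using (hasDerivAt_pow 2 x).const_add (L ^ 2)
    have h2 := (hasDerivAt_const x (L ^ 2)).div h1 (by positivity)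
    have h3 : (0 * (L ^ 2 + x ^ 2) - L ^ 2 * (2 * x)) / (L ^ 2 + x ^ 2) ^ 2 =
        -(2 * rho L x * sig L x) := by
      unfold rho sig
      field_simp
      ring
    rw [← h3]
    exact h2
  · exact ((continuous_const.mul (rho_cont hL)).mul (sig_cont hL)).neg.continuousOn

end weights

lemma up_left {Φ Φ' u : ℝ → ℝ} {s t : ℝ} (hst : s < t) (h : ACD Φ Φ' s t)
    (hui : IntervalIntegrable u volume s t) (hu0 : ∀ x ∈ Icc s t, 0 ≤ u x)
    (hu : ∀ x ∈ Icc s t, Φ' x ≤ u x) : ∀ r ∈ Icc s t, Φ r ≤ Φ s + ∫ x in s..t, u x := by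
  intro r hr
  have hsub : uIcc s r ⊆ uIcc s t := by
    rw [uIcc_of_le hr.1, uIcc_of_le hst.le]; exact Icc_subset_Icc le_rfl hr.2
  have h1 := (h.mono hsub).integral_mono_le hr.1 (hui.mono_set hsub)
    (ae_of_all _ fun x hx => hu x ⟨hx.1.le, hx.2.trans hr.2⟩)
  have h2 : ∫ x in s..r, u x ≤ ∫ x in s..t, u x := by
    refine intervalIntegral.integral_mono_interval le_rfl hr.1 hr.2 ?_ hui
    refine (ae_restrict_iff' measurableSet_Ioc).2 (ae_of_all _ fun x hx => hu0 x ⟨hx.1.le, hx.2⟩)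
  linarith

lemma up_right {Φ Φ' u : ℝ → ℝ} {s t : ℝ} (hst : s < t) (h : ACD Φ Φ' s t)
    (hui : IntervalIntegrable u volume s t) (hu0 : ∀ x ∈ Icc s t, 0 ≤ u x)
    (hu : ∀ x ∈ Icc s t, -Φ' x ≤ u x) : ∀ r ∈ Icc s t, Φ r ≤ Φ t + ∫ x in s..t, u x := by
  intro r hr
  have hsub : uIcc r t ⊆ uIcc s t := by
    rw [uIcc_of_le hr.2, uIcc_of_le hst.le]; exact Icc_subset_Icc hr.1 le_rfl
  have h1 := (h.mono hsub).neg.integral_mono_le hr.2 (hui.mono_set hsub)
    (ae_of_all _ fun x hx => hu x ⟨hr.1.trans hx.1.le, hx.2⟩)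
  have h2 : ∫ x in r..t, u x ≤ ∫ x in s..t, u x := by
    refine intervalIntegral.integral_mono_interval hr.1 hr.2 le_rfl ?_ hui
    refine (ae_restrict_iff' measurableSet_Ioc).2 (ae_of_all _ fun x hx => hu0 x ⟨hx.1.le, hx.2⟩)
  linarith

section
variable {k m l η L s t : ℝ} {v f g : ℝ → ℝ}

lemma Chan.fc (h : Chan k m l v f g) (hs : 0 < s) (hst : s < t) : ContinuousOn f (Icc s t) := by
  have := (h.hf s t hs hst).continuousOn; rwa [uIcc_of_le hst.le] at this

lemma Chan.gc (h : Chan k m l v f g) (hs : 0 < s) (hst : s < t) : ContinuousOn g (Icc s t) := by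
  have := (h.hg s t hs hst).continuousOn; rwa [uIcc_of_le hst.le] at this

lemma Chan.acdfg (h : Chan k m l v f g) (hs : 0 < s) (hst : s < t) :
    ACD (fun r => f r * g r) (fun r => (m + l + v r) * g r ^ 2 + (m - l - v r) * f r ^ 2 -
      f r * g r / r) s t := by
  refine ((h.hf s t hs hst).mul (h.hg s t hs hst)).congr_der' fun x hx => ?_
  rw [uIcc_of_le hst.le] at hx
  have : x ≠ 0 := (hs.trans_le hx.1).ne'
  field_simp
  ring

lemma Chan.acdff (h : Chan k m l v f g) (hs : 0 < s) (hst : s < t) :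
    ACD (fun r => f r ^ 2) (fun r => 2 * k * (f r ^ 2 / r) + 2 * (m + l + v r) * (f r * g r)) s t := by
  have e : (fun r => f r ^ 2) = fun r => f r * f r := by funext r; ring
  rw [e]
  refine ((h.hf s t hs hst).mul (h.hf s t hs hst)).congr_der' fun x _ => ?_
  ring

lemma Chan.acdgg (h : Chan k m l v f g) (hs : 0 < s) (hst : s < t) :
    ACD (fun r => g r ^ 2) (fun r => -(2 * (k + 1) * (g r ^ 2 / r)) +
      2 * (m - l - v r) * (f r * g r)) s t := by
  have e : (fun r => g r ^ 2) = fun r => g r * g r := by funext r; ring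
  rw [e]
  refine ((h.hg s t hs hst).mul (h.hg s t hs hst)).congr_der' fun x _ => ?_
  ring

lemma cI (hs : 0 < s) (hf : ContinuousOn f (Icc s t)) :
    ContinuousOn (fun x => f x ^ 2 / x) (Icc s t) :=
  (hf.pow 2).div continuousOn_id fun x hx => (hs.trans_le hx.1).ne'

lemma ii_of_cont (hst : s ≤ t) {u : ℝ → ℝ} (hu : ContinuousOn u (Icc s t)) :
    IntervalIntegrable u volume s t :=
  ContinuousOn.intervalIntegrable (by rwa [uIcc_of_le hst])

lemma ii_pd' (hv : Pot 1 v) (hη : 0 < η) (hs : 0 < s) (hst : s ≤ t) :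
    IntervalIntegrable (pd v η) volume s t := by
  have h1 := hv.ii_pd hη hs.le hst
  have h2 : IntervalIntegrable (fun r : ℝ => (r ^ 1)⁻¹ * (r ^ 1 * pd v η r)) volume s t := by
    refine h1.continuousOn_mul ?_
    rw [uIcc_of_le hst]
    intro x hx
    have : x ^ 1 ≠ 0 := pow_ne_zero _ (lt_of_lt_of_le hs hx.1).ne'
    exact ((continuousAt_id.pow 1).inv₀ this).continuousWithinAt
  refine h2.congr_ae ?_
  rw [uIoc_of_le hst]
  refine (ae_restrict_iff' measurableSet_Ioc).2 (ae_of_all _ fun t ht => ?_)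
  have : t ≠ 0 := (lt_trans hs ht.1).ne'
  field_simp

lemma ii_pdc (hv : Pot 1 v) (hη : 0 < η) (hs : 0 < s) (hst : s ≤ t) {u : ℝ → ℝ}
    (hu : ContinuousOn u (Icc s t)) :
    IntervalIntegrable (fun x => pd v η x * u x) volume s t :=
  (ii_pd' hv hη hs hst).mul_continuousOn (by rwa [uIcc_of_le hst])

/-- Cauchy-Schwarz with the square integrable part of the potential. -/
lemma cs (hv : Pot 1 v) (hη : 0 < η) {ω : ℝ} (hω : 0 < ω) (hs : 0 < s) (hst : s < t)
    (hsm : ∫ x in s..t, x ^ 1 * pd v η x ^ (1 + 1) ≤ ω ^ 2) {φ i : ℝ → ℝ} {S I : ℝ}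
    (hφ : ContinuousOn φ (Icc s t)) (hi : ContinuousOn i (Icc s t)) (hS : 0 ≤ S)
    (hI : ∫ x in s..t, i x ≤ I) (hI0 : 0 ≤ I)
    (hle : ∀ x ∈ Icc s t, φ x ^ 2 / x ≤ S * i x) :
    ∫ x in s..t, pd v η x * φ x ≤ ω / 2 * (S + I) := by
  have key : ∀ ε > 0, ∫ x in s..t, pd v η x * φ x ≤ ω / 2 * (S + I) + ω / 2 * ε := by
    intro ε hε
    set c := (S + I + ε) / (2 * ω) with hc
    have hc0 : 0 < c := by positivity
    have h1 : ∫ x in s..t, pd v η x * φ x ≤
        ∫ x in s..t, (c / 2 * (x ^ 1 * pd v η x ^ (1 + 1)) + S / (2 * c) * i x) := by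
      refine intervalIntegral.integral_mono_on hst.le (ii_pdc hv hη hs hst.le hφ)
        (((hv.ii_pow hη hs.le hst.le).const_mul _).add ((ii_of_cont hst.le hi).const_mul _)) ?_
      intro x hx
      have hx0 : 0 < x := hs.trans_le hx.1
      have h2 := hle x hx
      have h3 : pd v η x * φ x ≤ c / 2 * (x ^ 1 * pd v η x ^ (1 + 1)) + 1 / (2 * c) * (φ x ^ 2 / x) := by
        have e : c / 2 * (x ^ 1 * pd v η x ^ (1 + 1)) + 1 / (2 * c) * (φ x ^ 2 / x) - pd v η x * φ x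
          = 1 / (2 * c * x) * (c * x * pd v η x - φ x) ^ 2 := by
          field_simp; ring
        have : 0 ≤ 1 / (2 * c * x) * (c * x * pd v η x - φ x) ^ 2 := by positivity
        linarith
      have h4 : 1 / (2 * c) * (φ x ^ 2 / x) ≤ 1 / (2 * c) * (S * i x) :=
        mul_le_mul_of_nonneg_left h2 (by positivity)
      have h5 : 1 / (2 * c) * (S * i x) = S / (2 * c) * i x := by ring
      linarith
    rw [intervalIntegral.integral_add ((hv.ii_pow hη hs.le hst.le).const_mul _)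
      ((ii_of_cont hst.le hi).const_mul _), intervalIntegral.integral_const_mul,
      intervalIntegral.integral_const_mul] at h1
    have h2 : c / 2 * (∫ x in s..t, x ^ 1 * pd v η x ^ (1 + 1)) ≤ c / 2 * ω ^ 2 :=
      mul_le_mul_of_nonneg_left hsm (by positivity)
    have h3 : S / (2 * c) * (∫ x in s..t, i x) ≤ S / (2 * c) * I :=
      mul_le_mul_of_nonneg_left hI (by positivity)
    have h4 : c / 2 * ω ^ 2 = ω / 4 * (S + I + ε) := by
      simp only [hc]; field_simp; ring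
    have h5 : S / (2 * c) * I ≤ ω / 4 * (S + I + ε) := by
      have : S / (2 * c) * I = ω * (S * I) / (S + I + ε) := by
        simp only [hc]; field_simp
      rw [this, div_le_iff₀ (by positivity)]
      have : S * I ≤ (S + I + ε) ^ 2 / 4 := by
        nlinarith [sq_nonneg (S - I), mul_nonneg hS hε.le, mul_nonneg hI0 hε.le, sq_nonneg ε]
      nlinarith
    nlinarith
  refine le_of_forall_pos_le_add fun ε hε => ?_
  have := key (2 * ε / ω) (by positivity)
  have e : ω / 2 * (2 * ε / ω) = ε := by field_simp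
  rw [e] at this
  exact this

end

end Pool.Agent.helper84.Dir
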