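import Pool.Agent.helper84.DirEst

open MeasureTheory Set Filter Topology
open scoped NNReal

namespace Pool.Agent.helper84.Dir

noncomputable def II (f : ℝ → ℝ) (s t : ℝ) : ℝ := ∫ x in s..t, f x ^ 2 / x
noncomputable def JJ (L : ℝ) (g : ℝ → ℝ) (s t : ℝ) : ℝ := ∫ x in s..t, rho L x * g x ^ 2
noncomputable def PR (η L : ℝ) (v f : ℝ → ℝ) (s t : ℝ) : ℝ :=
  ∫ x in s..t, pd v η x * (rho L x * f x ^ 2)
noncomputable def PS (η L : ℝ) (v f g : ℝ → ℝ) (s t : ℝ) : ℝ :=
  ∫ x in s..t, pd v η x * (sig L x * |f x * g x|)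

section
variable {k m l η η' L s t Sf Sg : ℝ} {v f g : ℝ → ℝ}

lemma II_nonneg (hs : 0 < s) (hst : s < t) : 0 ≤ II f s t :=
  intervalIntegral.integral_nonneg hst.le fun x hx => by
    have := hs.trans_le hx.1
    positivity

lemma JJ_nonneg (hs : 0 < s) (hst : s < t) : 0 ≤ JJ L g s t :=
  intervalIntegral.integral_nonneg hst.le fun x hx => by
    have := rho_nonneg (L := L) (hs.trans_le hx.1).le
    positivity

lemma cJ (hL : 0 < L) (hg : ContinuousOn g (Icc s t)) :
    ContinuousOn (fun x => rho L x * g x ^ 2) (Icc s t) :=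
  (rho_cont hL).continuousOn.mul (hg.pow 2)

lemma cS (hL : 0 < L) (hf : ContinuousOn f (Icc s t)) (hg : ContinuousOn g (Icc s t)) :
    ContinuousOn (fun x => sig L x * |f x * g x|) (Icc s t) :=
  (sig_cont hL).continuousOn.mul (hf.mul hg).abs

lemma est1 (hv : Pot 1 v) (hc : Chan k m l v f g) (hη : 0 < η) (hL : 0 < L)
    (hl0 : 0 ≤ l) (hlm : l ≤ m) (hs : 0 < s) (hst : s < t) :
    (m - 1 / (2 * L)) * JJ L g s t ≤ |rho L s * (f s * g s)| + |rho L t * (f t * g t)| +
      (η + 1 / (2 * L)) * II f s t + PR η L v f s t := by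
  have hfc := hc.fc hs hst
  have hgc := hc.gc hs hst
  have h1 := ((rho_acd hL s t).mul (hc.acdfg hs hst)).neg
  have i1 : IntervalIntegrable (fun x => -((m - 1 / (2 * L)) * (rho L x * g x ^ 2))) volume s t :=
    ((ii_of_cont hst.le (cJ hL hgc)).const_mul (m - 1 / (2 * L))).neg
  have i2 := (ii_of_cont hst.le (cI hs hfc)).const_mul (η + 1 / (2 * L))
  have i3 := ii_pdc hv hη hs hst.le (cJ hL hfc)
  have h2 := h1.integral_mono_le (u := fun x => -((m - 1 / (2 * L)) * (rho L x * g x ^ 2)) +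
    ((η + 1 / (2 * L)) * (f x ^ 2 / x) + pd v η x * (rho L x * f x ^ 2))) hst.le
    (i1.add (i2.add i3)) (ae_of_all _ fun x hx => by
      have hx0 : 0 < x := hs.trans hx.1
      have hr := rho_nonneg (L := L) hx0.le
      have hvx := hv.pos x
      have e1 : rho L x * (f x * g x / x) - (L ^ 2 - x ^ 2) / (L ^ 2 + x ^ 2) ^ 2 * (f x * g x) =
          2 * x ^ 2 / (L ^ 2 + x ^ 2) ^ 2 * (f x * g x) := by
        unfold rho; field_simp; ring
      have e2 : 2 * x ^ 2 / (L ^ 2 + x ^ 2) ^ 2 * (f x * g x) ≤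
          1 / (2 * L) * (f x ^ 2 / x + rho L x * g x ^ 2) :=
        le_trans (mul_le_mul_of_nonneg_left (le_abs_self _) (by positivity)) (w3 hL hx0 _ _)
      have e3 : m * (rho L x * g x ^ 2) ≤ (m + l + v x) * (rho L x * g x ^ 2) :=
        mul_le_mul_of_nonneg_right (by linarith) (by positivity)
      have e4 : (v x - (m - l)) * (rho L x * f x ^ 2) ≤ (η + pd v η x) * (rho L x * f x ^ 2) :=
        mul_le_mul_of_nonneg_right (by linarith [sub_pd_le v η x]) (by positivity)
      have e5 : η * (rho L x * f x ^ 2) ≤ η * (f x ^ 2 / x) := by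
        refine mul_le_mul_of_nonneg_left ?_ hη.le
        have := mul_le_mul_of_nonneg_right (rho_le_inv (L := L) hx0) (sq_nonneg (f x))
        calc _ ≤ _ := this
          _ = _ := by ring
      linarith)
  rw [intervalIntegral.integral_add i1 (i2.add i3), intervalIntegral.integral_neg,
    intervalIntegral.integral_add i2 i3, intervalIntegral.integral_const_mul,
    intervalIntegral.integral_const_mul] at h2
  have h3 := le_abs_self (rho L t * (f t * g t))
  have h4 := neg_abs_le (rho L s * (f s * g s))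
  unfold II JJ PR
  linarith

lemma est2 (hv : Pot 1 v) (hc : Chan k m l v f g) (hη : 0 < η) (hL : 0 < L)
    (hs : 0 < s) (hst : s < t) (hsm : ∫ x in s..t, x ^ 1 * pd v η x ^ (1 + 1) ≤ η ^ 2)
    (hSf0 : 0 ≤ Sf) (hSf : ∀ x ∈ Icc s t, sig L x * f x ^ 2 ≤ Sf) :
    PR η L v f s t ≤ η / 2 * (Sf / L ^ 2 + II f s t) := by
  have hfc := hc.fc hs hst
  refine cs hv hη hη hs hst hsm (i := fun x => f x ^ 2 / x) (cJ hL hfc) (cI hs hfc) (by positivity)
    le_rfl (II_nonneg hs hst) ?_
  intro x hx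
  have hx0 : 0 < x := hs.trans_le hx.1
  have h1 := w5 (x := x) hL (f x)
  have h2 := hSf x hx
  have h3 : (rho L x * f x ^ 2) ^ 2 / x = (rho L x ^ 2 * f x ^ 2) * (f x ^ 2 / x) := by ring
  rw [h3]
  refine mul_le_mul_of_nonneg_right (h1.trans ?_) (by positivity)
  gcongr

lemma est2' (hv : Pot 1 v) (hc : Chan k m l v f g) (hη : 0 < η) (hL : 0 < L)
    (hs : 0 < s) (hst : s < t) (hsm : ∫ x in s..t, x ^ 1 * pd v η x ^ (1 + 1) ≤ η ^ 2)
    (hSg0 : 0 ≤ Sg) (hSg : ∀ x ∈ Icc s t, sig L x * g x ^ 2 ≤ Sg) :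
    PS η L v f g s t ≤ η / 2 * (Sg + II f s t) := by
  have hfc := hc.fc hs hst
  have hgc := hc.gc hs hst
  refine cs hv hη hη hs hst hsm (i := fun x => f x ^ 2 / x) (cS hL hfc hgc) (cI hs hfc) hSg0
    le_rfl (II_nonneg hs hst) ?_
  intro x hx
  have hx0 : 0 < x := hs.trans_le hx.1
  have h2 := hSg x hx
  have h4 := sig_nonneg (L := L) (x := x)
  have h5 := sig_le_one (L := L) (x := x)
  have h3 : (sig L x * |f x * g x|) ^ 2 / x = (sig L x * (sig L x * g x ^ 2)) * (f x ^ 2 / x) := by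
    rw [mul_pow, sq_abs]; ring
  rw [h3]
  refine mul_le_mul_of_nonneg_right ?_ (by positivity)
  have : 0 ≤ sig L x * g x ^ 2 := by positivity
  nlinarith

/-- integrand controlling `σ f²` -/
noncomputable def u3 (m η L : ℝ) (v f g : ℝ → ℝ) (x : ℝ) : ℝ :=
  1 / 2 * (f x ^ 2 / x) + ((2 * m + η) * L * (f x ^ 2 / x) + (2 * m + η) * L * (rho L x * g x ^ 2)) +
    2 * (pd v η x * (sig L x * |f x * g x|))

/-- integrand controlling `σ g²` -/
noncomputable def u4 (η' η L : ℝ) (v f g : ℝ → ℝ) (x : ℝ) : ℝ :=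
  2 * (rho L x * g x ^ 2) + (η' * L * (f x ^ 2 / x) + η' * L * (rho L x * g x ^ 2)) +
    2 * (pd v η x * (sig L x * |f x * g x|))

lemma u3_ii (hv : Pot 1 v) (hc : Chan k m l v f g) (hη : 0 < η) (hL : 0 < L)
    (hs : 0 < s) (hst : s < t) : IntervalIntegrable (u3 m η L v f g) volume s t ∧
    ∫ x in s..t, u3 m η L v f g x = 1 / 2 * II f s t +
      ((2 * m + η) * L * II f s t + (2 * m + η) * L * JJ L g s t) + 2 * PS η L v f g s t := by
  have hfc := hc.fc hs hst
  have hgc := hc.gc hs hst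
  have i1 := ii_of_cont hst.le (cI hs hfc)
  have i2 := ii_of_cont hst.le (cJ hL hgc)
  have i3 := ii_pdc hv hη hs hst.le (cS hL hfc hgc)
  refine ⟨((i1.const_mul _).add ((i1.const_mul _).add (i2.const_mul _))).add (i3.const_mul _), ?_⟩
  unfold u3
  rw [intervalIntegral.integral_add ((i1.const_mul _).add ((i1.const_mul _).add (i2.const_mul _)))
    (i3.const_mul _), intervalIntegral.integral_add (i1.const_mul _)
    ((i1.const_mul _).add (i2.const_mul _)), intervalIntegral.integral_add (i1.const_mul _)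
    (i2.const_mul _), intervalIntegral.integral_const_mul, intervalIntegral.integral_const_mul,
    intervalIntegral.integral_const_mul, intervalIntegral.integral_const_mul]
  rfl

lemma u4_ii (hv : Pot 1 v) (hc : Chan k m l v f g) (hη : 0 < η) (hL : 0 < L)
    (hs : 0 < s) (hst : s < t) : IntervalIntegrable (u4 η' η L v f g) volume s t ∧
    ∫ x in s..t, u4 η' η L v f g x = 2 * JJ L g s t +
      (η' * L * II f s t + η' * L * JJ L g s t) + 2 * PS η L v f g s t := by
  have hfc := hc.fc hs hst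
  have hgc := hc.gc hs hst
  have i1 := ii_of_cont hst.le (cI hs hfc)
  have i2 := ii_of_cont hst.le (cJ hL hgc)
  have i3 := ii_pdc hv hη hs hst.le (cS hL hfc hgc)
  refine ⟨((i2.const_mul _).add ((i1.const_mul _).add (i2.const_mul _))).add (i3.const_mul _), ?_⟩
  unfold u4
  rw [intervalIntegral.integral_add ((i2.const_mul _).add ((i1.const_mul _).add (i2.const_mul _)))
    (i3.const_mul _), intervalIntegral.integral_add (i2.const_mul _)
    ((i1.const_mul _).add (i2.const_mul _)), intervalIntegral.integral_add (i1.const_mul _)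
    (i2.const_mul _), intervalIntegral.integral_const_mul, intervalIntegral.integral_const_mul,
    intervalIntegral.integral_const_mul, intervalIntegral.integral_const_mul]
  rfl

lemma u3_nonneg (hm : 0 < m) (hη : 0 < η) (hL : 0 < L) {x : ℝ} (hx : 0 < x) :
    0 ≤ u3 m η L v f g x := by
  have h1 := rho_nonneg (L := L) hx.le
  have h2 := sig_nonneg (L := L) (x := x)
  have h3 := pd_nonneg v η x
  unfold u3; positivity

lemma u4_nonneg (hη' : 0 ≤ η') (hL : 0 < L) {x : ℝ} (hx : 0 < x) :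
    0 ≤ u4 η' η L v f g x := by
  have h1 := rho_nonneg (L := L) hx.le
  have h2 := sig_nonneg (L := L) (x := x)
  have h3 := pd_nonneg v η x
  unfold u4; positivity

/-- the coupling term in the equation for `f²` -/
lemma coup3 (hv : Pot 1 v) (hη : 0 < η) (hL : 0 < L) (hl0 : 0 ≤ l) (hlm : l ≤ m) {x : ℝ} (hx : 0 < x)
    (a b : ℝ) : |sig L x * (2 * (m + l + v x) * (a * b))| ≤
      ((2 * m + η) * L * (a ^ 2 / x) + (2 * m + η) * L * (rho L x * b ^ 2)) +
      2 * (pd v η x * (sig L x * |a * b|)) := by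
  have h1 := w2 hL hx a b
  have hvx := hv.pos x
  have h2 := sub_pd_le v η x
  have hm0 : 0 ≤ m := hl0.trans hlm
  have h3 := sig_nonneg (L := L) (x := x)
  have h4 : |sig L x * (2 * (m + l + v x) * (a * b))| = 2 * (m + l + v x) * (sig L x * |a * b|) := by
    rw [abs_mul, abs_mul, abs_of_nonneg h3, abs_of_nonneg (by positivity : 0 ≤ 2 * (m + l + v x))]
    ring
  rw [h4]
  have h5 : 0 ≤ sig L x * |a * b| := by positivity
  have h6 : 2 * (m + l + v x) * (sig L x * |a * b|) ≤
      2 * (2 * m + η + pd v η x) * (sig L x * |a * b|) :=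
    mul_le_mul_of_nonneg_right (by linarith) h5
  have h7 : 2 * (2 * m + η) * (sig L x * |a * b|) ≤
      2 * (2 * m + η) * (L / 2 * (a ^ 2 / x + rho L x * b ^ 2)) :=
    mul_le_mul_of_nonneg_left h1 (by positivity)
  nlinarith

/-- the coupling term in the equation for `g²` -/
lemma coup4 (hv : Pot 1 v) (hη : 0 < η) (hL : 0 < L) (hlm : l ≤ m)
    (hη1 : m - l ≤ η') (hη2 : η ≤ η') {x : ℝ} (hx : 0 < x)
    (a b : ℝ) : |sig L x * (2 * (m - l - v x) * (a * b))| ≤
      (η' * L * (a ^ 2 / x) + η' * L * (rho L x * b ^ 2)) +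
      2 * (pd v η x * (sig L x * |a * b|)) := by
  have h1 := w2 hL hx a b
  have hvx := hv.pos x
  have h2 := sub_pd_le v η x
  have h2' := sub_pd_nonneg (v := v) (r := x) hη.le (hv.pos x)
  have hp := pd_nonneg v η x
  have h3 := sig_nonneg (L := L) (x := x)
  have hη0 : 0 ≤ η' := hη.le.trans hη2
  have h8 : |m - l - v x| ≤ η' + pd v η x := by
    rw [abs_le]; constructor <;> linarith
  have h4 : |sig L x * (2 * (m - l - v x) * (a * b))| = 2 * |m - l - v x| * (sig L x * |a * b|) := by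
    rw [abs_mul, abs_mul, abs_mul, abs_of_nonneg h3, abs_two]
    ring
  rw [h4]
  have h5 : 0 ≤ sig L x * |a * b| := by positivity
  have h6 : 2 * |m - l - v x| * (sig L x * |a * b|) ≤
      2 * (η' + pd v η x) * (sig L x * |a * b|) :=
    mul_le_mul_of_nonneg_right (by linarith) h5
  have h7 : 2 * η' * (sig L x * |a * b|) ≤
      2 * η' * (L / 2 * (a ^ 2 / x + rho L x * b ^ 2)) :=
    mul_le_mul_of_nonneg_left h1 (by positivity)
  nlinarith

lemma est3_right (hv : Pot 1 v) (hc : Chan k m l v f g) (hm : 0 < m) (hη : 0 < η) (hL : 0 < L)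
    (hl0 : 0 ≤ l) (hlm : l ≤ m) (hs : 0 < s) (hst : s < t) (hk : 0 ≤ k) :
    ∀ r ∈ Icc s t, sig L r * f r ^ 2 ≤ sig L t * f t ^ 2 + (1 / 2 * II f s t +
      ((2 * m + η) * L * II f s t + (2 * m + η) * L * JJ L g s t) + 2 * PS η L v f g s t) := by
  have h1 := (sig_acd hL s t).mul (hc.acdff hs hst)
  obtain ⟨h2, h3⟩ := u3_ii (m := m) hv hc hη hL hs hst
  rw [← h3]
  refine up_right hst h1 h2 (fun x hx => u3_nonneg hm hη hL (hs.trans_le hx.1)) fun x hx => ?_
  have hx0 : 0 < x := hs.trans_le hx.1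
  have e1 := w1 hL hx0 (f x)
  have e2 := coup3 hv hη hL hl0 hlm hx0 (f x) (g x)
  have e3 := neg_abs_le (sig L x * (2 * (m + l + v x) * (f x * g x)))
  have e4 : 0 ≤ sig L x * (2 * k * (f x ^ 2 / x)) := by
    have := sig_nonneg (L := L) (x := x)
    positivity
  unfold u3
  linarith

lemma est3_left (hv : Pot 1 v) (hc : Chan k m l v f g) (hm : 0 < m) (hη : 0 < η) (hL : 0 < L)
    (hl0 : 0 ≤ l) (hlm : l ≤ m) (hs : 0 < s) (hst : s < t) (hk : k ≤ 0) :
    ∀ r ∈ Icc s t, sig L r * f r ^ 2 ≤ sig L s * f s ^ 2 + (1 / 2 * II f s t +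
      ((2 * m + η) * L * II f s t + (2 * m + η) * L * JJ L g s t) + 2 * PS η L v f g s t) := by
  have h1 := (sig_acd hL s t).mul (hc.acdff hs hst)
  obtain ⟨h2, h3⟩ := u3_ii (m := m) hv hc hη hL hs hst
  rw [← h3]
  refine up_left hst h1 h2 (fun x hx => u3_nonneg hm hη hL (hs.trans_le hx.1)) fun x hx => ?_
  have hx0 : 0 < x := hs.trans_le hx.1
  have e1 := w1 hL hx0 (f x)
  have e2 := coup3 hv hη hL hl0 hlm hx0 (f x) (g x)
  have e3 := le_abs_self (sig L x * (2 * (m + l + v x) * (f x * g x)))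
  have hsg := sig_nonneg (L := L) (x := x)
  have hrg := rho_nonneg (L := L) hx0.le
  have e4 : sig L x * (2 * k * (f x ^ 2 / x)) ≤ 0 := by
    have : 0 ≤ sig L x * (f x ^ 2 / x) := by positivity
    nlinarith
  have e5 : 0 ≤ 2 * rho L x * sig L x * f x ^ 2 := by positivity
  have e6 : 0 ≤ 1 / 2 * (f x ^ 2 / x) := by positivity
  unfold u3
  linarith

lemma est4_left (hv : Pot 1 v) (hc : Chan k m l v f g) (hη : 0 < η) (hL : 0 < L)
    (hlm : l ≤ m) (hη1 : m - l ≤ η') (hη2 : η ≤ η') (hs : 0 < s) (hst : s < t) (hk : -1 ≤ k) :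
    ∀ r ∈ Icc s t, sig L r * g r ^ 2 ≤ sig L s * g s ^ 2 + (2 * JJ L g s t +
      (η' * L * II f s t + η' * L * JJ L g s t) + 2 * PS η L v f g s t) := by
  have h1 := (sig_acd hL s t).mul (hc.acdgg hs hst)
  obtain ⟨h2, h3⟩ := u4_ii (η' := η') hv hc hη hL hs hst
  have hη0 : 0 ≤ η' := hη.le.trans hη2
  rw [← h3]
  refine up_left hst h1 h2 (fun x hx => u4_nonneg hη0 hL (hs.trans_le hx.1)) fun x hx => ?_
  have hx0 : 0 < x := hs.trans_le hx.1
  have e2 := coup4 hv hη hL hlm hη1 hη2 hx0 (f x) (g x)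
  have e3 := le_abs_self (sig L x * (2 * (m - l - v x) * (f x * g x)))
  have hsg := sig_nonneg (L := L) (x := x)
  have hrg := rho_nonneg (L := L) hx0.le
  have e4 : 0 ≤ sig L x * (2 * (k + 1) * (g x ^ 2 / x)) := by
    have : 0 ≤ k + 1 := by linarith
    positivity
  have e5 : 0 ≤ 2 * rho L x * sig L x * g x ^ 2 := by positivity
  have e6 : 0 ≤ rho L x * g x ^ 2 := by positivity
  unfold u4
  linarith

lemma est4_right (hv : Pot 1 v) (hc : Chan k m l v f g) (hη : 0 < η) (hL : 0 < L)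
    (hlm : l ≤ m) (hη1 : m - l ≤ η') (hη2 : η ≤ η') (hs : 0 < s) (hst : s < t) (hk : k ≤ -1) :
    ∀ r ∈ Icc s t, sig L r * g r ^ 2 ≤ sig L t * g t ^ 2 + (2 * JJ L g s t +
      (η' * L * II f s t + η' * L * JJ L g s t) + 2 * PS η L v f g s t) := by
  have h1 := (sig_acd hL s t).mul (hc.acdgg hs hst)
  obtain ⟨h2, h3⟩ := u4_ii (η' := η') hv hc hη hL hs hst
  have hη0 : 0 ≤ η' := hη.le.trans hη2
  rw [← h3]
  refine up_right hst h1 h2 (fun x hx => u4_nonneg hη0 hL (hs.trans_le hx.1)) fun x hx => ?_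
  have hx0 : 0 < x := hs.trans_le hx.1
  have e2 := coup4 hv hη hL hlm hη1 hη2 hx0 (f x) (g x)
  have e3 := neg_abs_le (sig L x * (2 * (m - l - v x) * (f x * g x)))
  have hsg := sig_nonneg (L := L) (x := x)
  have hs1 := sig_le_one (L := L) (x := x)
  have hrg := rho_nonneg (L := L) hx0.le
  have e4 : sig L x * (2 * (k + 1) * (g x ^ 2 / x)) ≤ 0 := by
    have : 0 ≤ sig L x * (g x ^ 2 / x) := by positivity
    nlinarith
  have e5 : 2 * rho L x * sig L x * g x ^ 2 ≤ 2 * (rho L x * g x ^ 2) := by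
    have : 0 ≤ rho L x * g x ^ 2 := by positivity
    nlinarith
  unfold u4
  linarith

/-- full mass of `g²/x` -/
lemma II_split (hL : 0 < L) (hgc : ContinuousOn g (Icc s t)) (hs : 0 < s) (hst : s < t) :
    II g s t = (∫ x in s..t, sig L x * (g x ^ 2 / x)) + JJ L g s t := by
  have i1 : IntervalIntegrable (fun x => sig L x * (g x ^ 2 / x)) volume s t :=
    ii_of_cont hst.le ((sig_cont hL).continuousOn.mul (cI hs hgc))
  have i2 := ii_of_cont hst.le (cJ hL hgc)
  unfold II JJ
  rw [← intervalIntegral.integral_add i1 i2]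
  refine intervalIntegral.integral_congr fun x hx => ?_
  rw [uIcc_of_le hst.le] at hx
  have hx0 : 0 < x := hs.trans_le hx.1
  have := sig_div_add_rho (L := L) hx0
  calc g x ^ 2 / x = g x ^ 2 * (1 / x) := by ring
    _ = g x ^ 2 * (sig L x / x + rho L x) := by rw [this]
    _ = _ := by ring

lemma est5 (hv : Pot 1 v) (hc : Chan k m l v f g) (hη : 0 < η) (hL : 0 < L)
    (hlm : l ≤ m) (hη1 : m - l ≤ η') (hη2 : η ≤ η') (hs : 0 < s) (hst : s < t)
    (hk : 0 ≤ k ∨ k ≤ -2) :
    2 * (∫ x in s..t, sig L x * (g x ^ 2 / x)) ≤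
      (if 0 ≤ k then sig L s * g s ^ 2 else sig L t * g t ^ 2) + (2 * JJ L g s t +
      (η' * L * II f s t + η' * L * JJ L g s t) + 2 * PS η L v f g s t) := by
  have hgc := hc.gc hs hst
  have h1 := (sig_acd hL s t).mul (hc.acdgg hs hst)
  obtain ⟨h2, h3⟩ := u4_ii (η' := η') hv hc hη hL hs hst
  have i1 : IntervalIntegrable (fun x => 2 * (sig L x * (g x ^ 2 / x))) volume s t :=
    (ii_of_cont hst.le ((sig_cont hL).continuousOn.mul (cI hs hgc))).const_mul 2
  rw [← h3]
  rcases hk with hk | hk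
  · have h4 := h1.integral_mono_le (u := fun x => u4 η' η L v f g x -
      2 * (sig L x * (g x ^ 2 / x))) hst.le (h2.sub i1) (ae_of_all _ fun x hx => by
        have hx0 : 0 < x := hs.trans hx.1
        have e2 := coup4 hv hη hL hlm hη1 hη2 hx0 (f x) (g x)
        have e3 := le_abs_self (sig L x * (2 * (m - l - v x) * (f x * g x)))
        have hsg := sig_nonneg (L := L) (x := x)
        have hrg := rho_nonneg (L := L) hx0.le
        have e4 : sig L x * (g x ^ 2 / x) ≤ sig L x * ((k + 1) * (g x ^ 2 / x)) := by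
          refine mul_le_mul_of_nonneg_left ?_ hsg
          have : 0 ≤ g x ^ 2 / x := by positivity
          nlinarith
        have e5 : 0 ≤ 2 * rho L x * sig L x * g x ^ 2 := by positivity
        have e6 : 0 ≤ rho L x * g x ^ 2 := by positivity
        unfold u4
        linarith)
    rw [intervalIntegral.integral_sub h2 i1, intervalIntegral.integral_const_mul] at h4
    rw [if_pos hk]
    have h5 : 0 ≤ sig L t * g t ^ 2 := by
      have := sig_nonneg (L := L) (x := t); positivity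
    linarith
  · have h4 := h1.neg.integral_mono_le (u := fun x => u4 η' η L v f g x -
      2 * (sig L x * (g x ^ 2 / x))) hst.le (h2.sub i1) (ae_of_all _ fun x hx => by
        have hx0 : 0 < x := hs.trans hx.1
        have e2 := coup4 hv hη hL hlm hη1 hη2 hx0 (f x) (g x)
        have e3 := neg_abs_le (sig L x * (2 * (m - l - v x) * (f x * g x)))
        have hsg := sig_nonneg (L := L) (x := x)
        have hs1 := sig_le_one (L := L) (x := x)
        have hrg := rho_nonneg (L := L) hx0.le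
        have e4 : sig L x * ((k + 1) * (g x ^ 2 / x)) ≤ -(sig L x * (g x ^ 2 / x)) := by
          have : 0 ≤ sig L x * (g x ^ 2 / x) := by positivity
          nlinarith
        have e5 : 2 * rho L x * sig L x * g x ^ 2 ≤ 2 * (rho L x * g x ^ 2) := by
          have : 0 ≤ rho L x * g x ^ 2 := by positivity
          nlinarith
        unfold u4
        linarith)
    rw [intervalIntegral.integral_sub h2 i1, intervalIntegral.integral_const_mul] at h4
    rw [if_neg (by linarith)]
    have h5 : 0 ≤ sig L s * g s ^ 2 := by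
      have := sig_nonneg (L := L) (x := s); positivity
    linarith

end

end Pool.Agent.helper84.Dir
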