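import Pool.Agent.helper84.DirEst2

open MeasureTheory Set Filter Topology
open scoped NNReal

namespace Pool.Agent.helper84.Dir

section
variable {k m l η η' L s t Sf Sg : ℝ} {v f g : ℝ → ℝ}

lemma ii_vc (hv : Pot 1 v) (hs : 0 < s) (hst : s ≤ t) {u : ℝ → ℝ} (c : ℝ)
    (hu : ContinuousOn u (Icc s t)) :
    IntervalIntegrable (fun x => (c + v x) * u x) volume s t :=
  (IntervalIntegrable.add (by simp) (hv.ii_v' hs hst)).mul_continuousOn (by rwa [uIcc_of_le hst])

/-- Any eigenvalue of a channel `k ≠ 0` is close to `m` when the coupling is small: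
truncated form. -/
lemma e1 (hv : Pot 1 v) (hc : Chan k m l v f g) (hη : 0 < η) (hη4 : η ≤ 1 / 4)
    (hl : |l| < m) (hs : 0 < s) (hst : s < t)
    (hsm : ∫ x in s..t, x ^ 1 * pd v η x ^ (1 + 1) ≤ η ^ 2) (hk : 0 ≤ k ∨ k ≤ -1) :
    (m - l - (3 + 3 * m) * η) * ∫ x in s..t, x * f x ^ 2 ≤
      |s * (f s * g s)| + |t * (f t * g t)| + (if 0 ≤ k then t * f t ^ 2 else s * f s ^ 2) := by
  obtain ⟨hl1, hl2⟩ := abs_lt.1 hl
  have hm : 0 < m := lt_of_le_of_lt (abs_nonneg l) hl
  have hfc := hc.fc hs hst
  have hgc := hc.gc hs hst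
  have hxf : ContinuousOn (fun x => x * f x ^ 2) (Icc s t) := continuousOn_id.mul (hfc.pow 2)
  have hxg : ContinuousOn (fun x => x * g x ^ 2) (Icc s t) := continuousOn_id.mul (hgc.pow 2)
  set N := ∫ x in s..t, x * f x ^ 2 with hN
  set A := ∫ x in s..t, (m + l + v x) * (x * g x ^ 2) with hA
  set B := ∫ x in s..t, (m + l + v x) * (x * f x ^ 2) with hB
  set D := ∫ x in s..t, f x ^ 2 with hD
  set PN := ∫ x in s..t, pd v η x * (x * f x ^ 2) with hPN
  set e₁ := |s * (f s * g s)| + |t * (f t * g t)| with he₁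
  set e₂ := (if 0 ≤ k then t * f t ^ 2 else s * f s ^ 2) with he₂
  have he₂0 : 0 ≤ e₂ := by
    have ht : 0 < t := hs.trans hst
    simp only [he₂]; split_ifs <;> positivity
  have iN := ii_of_cont hst.le hxf
  have iA := ii_vc (u := fun x => x * g x ^ 2) hv hs hst.le (m + l) hxg
  have iB := ii_vc (u := fun x => x * f x ^ 2) hv hs hst.le (m + l) hxf
  have iD : IntervalIntegrable (fun x => f x ^ 2) volume s t := ii_of_cont hst.le (hfc.pow 2)
  have iP := ii_pdc hv hη hs hst.le hxf
  have hN0 : 0 ≤ N := intervalIntegral.integral_nonneg hst.le fun x hx => by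
    have := hs.trans_le hx.1; positivity
  have hA0 : 0 ≤ A := intervalIntegral.integral_nonneg hst.le fun x hx => by
    have h1 := hs.trans_le hx.1
    have h2 := hv.pos x
    have : 0 ≤ m + l + v x := by linarith
    positivity
  have hD0 : 0 ≤ D := intervalIntegral.integral_nonneg hst.le fun x hx => by positivity
  have hPN0 : 0 ≤ PN := intervalIntegral.integral_nonneg hst.le fun x hx => by
    have h1 := hs.trans_le hx.1
    have := pd_nonneg v η x
    positivity
  have hid : ACD (fun x : ℝ => x) (fun _ => 1) s t :=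
    ACD.of_hasDerivAt (fun x _ => hasDerivAt_id x) continuousOn_const
  -- (A)
  have h1 : A + (m - l - η) * N - PN ≤ e₁ := by
    have h2 := (hid.mul (hc.acdfg hs hst)).neg
    have h3 := h2.integral_mono_le (u := fun x => -((m + l + v x) * (x * g x ^ 2)) +
      (-((m - l - η) * (x * f x ^ 2)) + pd v η x * (x * f x ^ 2))) hst.le
      (iA.neg.add ((iN.const_mul _).neg.add iP)) (ae_of_all _ fun x hx => by
        have hx0 : 0 < x := hs.trans hx.1
        have e1 : x * (f x * g x / x) = f x * g x := by field_simp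
        have e2 : (v x - pd v η x) * (x * f x ^ 2) ≤ η * (x * f x ^ 2) :=
          mul_le_mul_of_nonneg_right (sub_pd_le v η x) (by positivity)
        have e3 : x * ((m + l + v x) * g x ^ 2 + (m - l - v x) * f x ^ 2 - f x * g x / x) =
          (m + l + v x) * (x * g x ^ 2) + (m - l - v x) * (x * f x ^ 2) - f x * g x := by
          rw [mul_sub, e1]; ring
        rw [e3]
        linarith)
    have i1 : IntervalIntegrable (fun x => -((m + l + v x) * (x * g x ^ 2))) volume s t := iA.neg
    have i2 : IntervalIntegrable (fun x => -((m - l - η) * (x * f x ^ 2))) volume s t :=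
      (iN.const_mul _).neg
    rw [intervalIntegral.integral_add i1 (i2.add iP), intervalIntegral.integral_add i2 iP,
      intervalIntegral.integral_neg, intervalIntegral.integral_neg,
      intervalIntegral.integral_const_mul] at h3
    have h4 := le_abs_self (t * (f t * g t))
    have h5 := neg_abs_le (s * (f s * g s))
    simp only [he₁]
    linarith
  -- (S), (D)
  have iu : IntervalIntegrable (fun x => (m + l + v x) * (x * g x ^ 2) +
    (m + l + v x) * (x * f x ^ 2)) volume s t := iA.add iB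
  have hu0 : ∀ x ∈ Icc s t, 0 ≤ (m + l + v x) * (x * g x ^ 2) + (m + l + v x) * (x * f x ^ 2) := by
    intro x hx
    have h1 := hs.trans_le hx.1
    have h2 := hv.pos x
    have : 0 ≤ m + l + v x := by linarith
    positivity
  have hΦ := hid.mul (hc.acdff hs hst)
  have hcoup : ∀ x ∈ Icc s t, |x * (2 * (m + l + v x) * (f x * g x))| ≤
      (m + l + v x) * (x * g x ^ 2) + (m + l + v x) * (x * f x ^ 2) := by
    intro x hx
    have h1 := hs.trans_le hx.1
    have h2 := hv.pos x
    have h3 : 0 ≤ m + l + v x := by linarith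
    have h4 : |f x * g x| ≤ (f x ^ 2 + g x ^ 2) / 2 := by
      rw [abs_le]; constructor <;> nlinarith [sq_nonneg (f x - g x), sq_nonneg (f x + g x)]
    rw [abs_mul, abs_mul, abs_of_pos h1, abs_of_nonneg (by positivity : 0 ≤ 2 * (m + l + v x))]
    calc x * (2 * (m + l + v x) * |f x * g x|) ≤
        x * (2 * (m + l + v x) * ((f x ^ 2 + g x ^ 2) / 2)) := by gcongr
      _ = _ := by ring
  have hkey : (∀ x ∈ Icc s t, x * f x ^ 2 ≤ e₂ + (A + B)) ∧ D ≤ e₂ + (A + B) := by
    rcases hk with hk | hk
    · have e : e₂ = t * f t ^ 2 := by simp only [he₂]; rw [if_pos hk]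
      rw [e]
      constructor
      · have h2 := up_right hst hΦ iu hu0 (fun x hx => by
          have hx0 : 0 < x := hs.trans_le hx.1
          have h3 := neg_abs_le (x * (2 * (m + l + v x) * (f x * g x)))
          have h4 := hcoup x hx
          have h5 : x * (2 * k * (f x ^ 2 / x)) = 2 * k * f x ^ 2 := by field_simp
          have h6 : 0 ≤ k * f x ^ 2 := by positivity
          nlinarith [sq_nonneg (f x)])
        rw [intervalIntegral.integral_add iA iB] at h2
        exact h2
      · have h2 := hΦ.neg.integral_mono_le (u := fun x => (m + l + v x) * (x * g x ^ 2) +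
          (m + l + v x) * (x * f x ^ 2) - f x ^ 2) hst.le (iu.sub iD) (ae_of_all _ fun x hx => by
            have hx0 : 0 < x := hs.trans hx.1
            have h3 := neg_abs_le (x * (2 * (m + l + v x) * (f x * g x)))
            have h4 := hcoup x ⟨hx.1.le, hx.2⟩
            have h5 : x * (2 * k * (f x ^ 2 / x)) = 2 * k * f x ^ 2 := by field_simp
            have h6 : 0 ≤ k * f x ^ 2 := by positivity
            nlinarith [sq_nonneg (f x)])
        rw [intervalIntegral.integral_sub iu iD, intervalIntegral.integral_add iA iB] at h2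
        have h3 : 0 ≤ s * f s ^ 2 := by positivity
        linarith
    · have e : e₂ = s * f s ^ 2 := by simp only [he₂]; rw [if_neg (by linarith)]
      rw [e]
      constructor
      · have h2 := up_left hst hΦ iu hu0 (fun x hx => by
          have hx0 : 0 < x := hs.trans_le hx.1
          have h3 := le_abs_self (x * (2 * (m + l + v x) * (f x * g x)))
          have h4 := hcoup x hx
          have h5 : x * (2 * k * (f x ^ 2 / x)) = 2 * k * f x ^ 2 := by field_simp
          have h6 : 0 ≤ (-k - 1) * f x ^ 2 := by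
            have : 0 ≤ -k - 1 := by linarith
            positivity
          nlinarith [sq_nonneg (f x)])
        rw [intervalIntegral.integral_add iA iB] at h2
        exact h2
      · have h2 := hΦ.integral_mono_le (u := fun x => (m + l + v x) * (x * g x ^ 2) +
          (m + l + v x) * (x * f x ^ 2) - f x ^ 2) hst.le (iu.sub iD) (ae_of_all _ fun x hx => by
            have hx0 : 0 < x := hs.trans hx.1
            have h3 := le_abs_self (x * (2 * (m + l + v x) * (f x * g x)))
            have h4 := hcoup x ⟨hx.1.le, hx.2⟩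
            have h5 : x * (2 * k * (f x ^ 2 / x)) = 2 * k * f x ^ 2 := by field_simp
            have h6 : 0 ≤ (-k - 1) * f x ^ 2 := by
              have : 0 ≤ -k - 1 := by linarith
              positivity
            nlinarith [sq_nonneg (f x)])
        rw [intervalIntegral.integral_sub iu iD, intervalIntegral.integral_add iA iB] at h2
        have h3 : 0 ≤ t * f t ^ 2 := by have : 0 < t := hs.trans hst; positivity
        linarith
  have hAB : 0 ≤ e₂ + (A + B) := hD0.trans hkey.2
  -- (B)
  have hPNle : PN ≤ η / 2 * ((e₂ + (A + B)) + (e₂ + (A + B))) := by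
    refine cs hv hη hη hs hst hsm (i := fun x => f x ^ 2) hxf (hfc.pow 2) hAB hkey.2 hAB ?_
    intro x hx
    have hx0 : 0 < x := hs.trans_le hx.1
    have h3 : (x * f x ^ 2) ^ 2 / x = (x * f x ^ 2) * f x ^ 2 := by field_simp
    rw [h3]
    exact mul_le_mul_of_nonneg_right (hkey.1 x hx) (by positivity)
  -- (C)
  have hBle : B ≤ (2 * m + η) * N + PN := by
    rw [hB, hN, hPN, ← intervalIntegral.integral_const_mul,
      ← intervalIntegral.integral_add (iN.const_mul _) iP]
    refine intervalIntegral.integral_mono_on hst.le iB ((iN.const_mul _).add iP) fun x hx => ?_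
    have hx0 : 0 < x := hs.trans_le hx.1
    have h2 := sub_pd_le v η x
    have h3 : (m + l + v x) * (x * f x ^ 2) ≤ (2 * m + η + pd v η x) * (x * f x ^ 2) :=
      mul_le_mul_of_nonneg_right (by linarith) (by positivity)
    linarith
  -- combine
  have h5 : PN ≤ η * (e₂ + A + (2 * m + η) * N + PN) := by
    calc PN ≤ η / 2 * ((e₂ + (A + B)) + (e₂ + (A + B))) := hPNle
      _ = η * (e₂ + A + B) := by ring
      _ ≤ η * (e₂ + A + ((2 * m + η) * N + PN)) := by gcongr
      _ = _ := by ring
  have h6 : PN ≤ 4 / 3 * (η * (e₂ + A + (2 * m + η) * N)) := by nlinarith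
  have h7 : 4 / 3 * (η * (e₂ + A)) ≤ e₂ + A := by nlinarith [add_nonneg he₂0 hA0]
  have h8 : 4 / 3 * (η * ((2 * m + η) * N)) ≤ (8 / 3 * m + 1 / 3) * η * N := by
    have : 4 / 3 * (2 * m + η) ≤ 8 / 3 * m + 1 / 3 := by linarith
    have h9 : 0 ≤ η * N := by positivity
    nlinarith
  have h10 : (m - l - η) * N ≤ e₁ + e₂ + (8 / 3 * m + 1 / 3) * η * N := by
    have : 4 / 3 * (η * (e₂ + A + (2 * m + η) * N)) =
      4 / 3 * (η * (e₂ + A)) + 4 / 3 * (η * ((2 * m + η) * N)) := by ring
    linarith
  have h11 : 0 ≤ m * (η * N) := by positivity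
  have h12 : 0 ≤ η * N := by positivity
  nlinarith

/-- Picone inequality against the regular radial solution. -/
lemma picone (hv : Pot 1 v) (hc : Chan k m l v f g) (hl : |l| < m)
    (hs : 0 < s) (hst : s < t) {F H : ℝ → ℝ} (hsys : LSys (cA 1 m l v) (cB 1 m l v) F H 0)
    (hFpos : ∀ r, 0 ≤ r → 0 < F r) :
    k ^ 2 * l / (m * (m + l)) * II f s t ≤
      (H s * (F s)⁻¹ * f s ^ 2 - s * (f s * g s) - k / (2 * m) * (f s ^ 2 + g s ^ 2)) -
      (H t * (F t)⁻¹ * f t ^ 2 - t * (f t * g t) - k / (2 * m) * (f t ^ 2 + g t ^ 2)) +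
      k * (k + 1) / m * II g s t := by
  obtain ⟨hl1, hl2⟩ := abs_lt.1 hl
  have hm : 0 < m := lt_of_le_of_lt (abs_nonneg l) hl
  have hml : 0 < m + l := by linarith
  have hfc := hc.fc hs hst
  have hgc := hc.gc hs hst
  have hid : ACD (fun x : ℝ => x) (fun _ => 1) s t :=
    ACD.of_hasDerivAt (fun x _ => hasDerivAt_id x) continuousOn_const
  have hsys' := hsys.mono hs.le
  have hP := (hsys'.hH t hst).mul ((hsys'.hF t hst).inv (fun x hx => by
    rw [uIcc_of_le hst.le] at hx; exact hFpos x (hs.le.trans hx.1)))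
  have h1 := ((hP.mul (hc.acdff hs hst)).sub (hid.mul (hc.acdfg hs hst))).sub
    (((hc.acdff hs hst).add (hc.acdgg hs hst)).const_mul (k / (2 * m)))
  have i1 := (ii_of_cont hst.le (cI hs hfc)).const_mul (k ^ 2 * l / (m * (m + l)))
  have i2 := (ii_of_cont hst.le (cI hs hgc)).const_mul (k * (k + 1) / m)
  have i1' : IntervalIntegrable (fun x => -(k ^ 2 * l / (m * (m + l)) * (f x ^ 2 / x))) volume s t :=
    i1.neg
  have h2 := h1.integral_mono_le (u := fun x => -(k ^ 2 * l / (m * (m + l)) * (f x ^ 2 / x)) +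
    k * (k + 1) / m * (g x ^ 2 / x)) hst.le (i1'.add i2) (ae_of_all _ fun x hx => by
      have hx0 : 0 < x := hs.trans hx.1
      have hvx := hv.pos x
      have hα : 0 < m + l + v x := by linarith
      have hF0 := hFpos x hx0.le
      set P := H x * (F x)⁻¹ with hPd
      have e1 : cB 1 m l v x * F x * (F x)⁻¹ + H x * (-(F x ^ 2)⁻¹ * (cA 1 m l v x * H x)) =
          x * (m - l - v x) - (m + l + v x) / x * P ^ 2 := by
        simp only [hPd]; unfold cA cB; field_simp; ring
      have e2 : (x * (m - l - v x) - (m + l + v x) / x * P ^ 2) * f x ^ 2 +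
          P * (2 * k * (f x ^ 2 / x) + 2 * (m + l + v x) * (f x * g x)) =
          k ^ 2 * f x ^ 2 / (x * (m + l + v x)) + 2 * k * (f x * g x) +
            x * (m + l + v x) * g x ^ 2 + x * (m - l - v x) * f x ^ 2 -
            (m + l + v x) / x * (x * (k / x * f x + (m + l + v x) * g x) / (m + l + v x) - P * f x) ^ 2 := by
        field_simp
        ring
      have e3 : 0 ≤ (m + l + v x) / x *
          (x * (k / x * f x + (m + l + v x) * g x) / (m + l + v x) - P * f x) ^ 2 := by positivity
      have e4 : k ^ 2 * f x ^ 2 / (x * (m + l + v x)) ≤ k ^ 2 * f x ^ 2 / (x * (m + l)) := by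
        refine div_le_div_of_nonneg_left (by positivity) (by positivity) ?_
        exact mul_le_mul_of_nonneg_left (by linarith) hx0.le
      have e5 : k ^ 2 * f x ^ 2 / (x * (m + l)) - k ^ 2 / m * (f x ^ 2 / x) =
          -(k ^ 2 * l / (m * (m + l)) * (f x ^ 2 / x)) := by
        field_simp; ring
      have e6 : k / (2 * m) * (2 * k * (f x ^ 2 / x) + 2 * (m + l + v x) * (f x * g x) +
          (-(2 * (k + 1) * (g x ^ 2 / x)) + 2 * (m - l - v x) * (f x * g x))) =
          k ^ 2 / m * (f x ^ 2 / x) - k * (k + 1) / m * (g x ^ 2 / x) + 2 * k * (f x * g x) := by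
        field_simp; ring
      have e7 : 1 * (f x * g x) + x * ((m + l + v x) * g x ^ 2 + (m - l - v x) * f x ^ 2 - f x * g x / x) =
          x * (m + l + v x) * g x ^ 2 + x * (m - l - v x) * f x ^ 2 := by
        field_simp; ring
      rw [e1, e2, e6, e7]
      linarith)
  rw [intervalIntegral.integral_add i1' i2, intervalIntegral.integral_neg,
    intervalIntegral.integral_const_mul, intervalIntegral.integral_const_mul] at h2
  unfold II
  linarith

/-- The algebra behind the smallness of the lower component. -/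
lemma algebra {m η η' L I J Sf Sg PR' PS' G' e : ℝ} (hm : 0 < m) (hL : L = 100 / m) (hη : 0 < η)
    (c1 : 600 * η ≤ m) (c2 : 400 * η * ((2 * m + 1) * L + 2) ≤ 2 * L ^ 2 * m)
    (c3 : 400 * (η' * L) ≤ 1) (c3' : 400 * η ≤ 1) (c4 : η ≤ L ^ 2)
    (hI : 0 ≤ I) (hJ : 0 ≤ J) (hSg : 0 ≤ Sg) (he : 0 ≤ e)
    (h1 : (m - 1 / (2 * L)) * J ≤ e + (η + 1 / (2 * L)) * I + PR')
    (h2 : PR' ≤ η / 2 * (Sf / L ^ 2 + I)) (h2' : PS' ≤ η / 2 * (Sg + I))
    (h3 : Sf ≤ e + (1 / 2 * I + ((2 * m + η) * L * I + (2 * m + η) * L * J) + 2 * PS'))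
    (h4 : Sg ≤ e + (2 * J + (η' * L * I + η' * L * J) + 2 * PS'))
    (h5 : 2 * G' ≤ e + (2 * J + (η' * L * I + η' * L * J) + 2 * PS')) :
    Sg ≤ (20 + 20 / m) * e + I / 20 ∧ G' + J ≤ (20 + 20 / m) * e + I / 20 := by
  have hL0 : 0 < L := by rw [hL]; positivity
  have hLinv : 1 / (2 * L) = m / 200 := by rw [hL]; field_simp; norm_num
  have hIJ : 0 ≤ I + J := by linarith
  -- PS'
  have g1 : 2 * PS' ≤ (Sg + I) / 400 := by
    have : 2 * PS' ≤ η * (Sg + I) := by linarith
    nlinarith
  have g2 : η' * L * I + η' * L * J ≤ (I + J) / 400 := by nlinarith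
  have g3 : Sg ≤ 2 * e + 3 * J + I / 100 := by nlinarith
  have g4 : Sf ≤ 2 * e + ((2 * m + 1) * L + 2) * (I + J) := by
    have : (2 * m + η) * L * I + (2 * m + η) * L * J ≤ (2 * m + 1) * L * (I + J) := by
      have h : (2 * m + η) * L ≤ (2 * m + 1) * L := by
        refine mul_le_mul_of_nonneg_right (by linarith) hL0.le
      nlinarith
    nlinarith
  have g5 : PR' ≤ e + m / 400 * (I + J) + η / 2 * I := by
    have h6 : η / 2 * (Sf / L ^ 2) ≤ η / 2 * ((2 * e + ((2 * m + 1) * L + 2) * (I + J)) / L ^ 2) := by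
      gcongr
    have h7 : η / 2 * ((2 * e + ((2 * m + 1) * L + 2) * (I + J)) / L ^ 2) =
        (η / L ^ 2) * e + (η * ((2 * m + 1) * L + 2) / (2 * L ^ 2)) * (I + J) := by
      field_simp
    have h8 : η / L ^ 2 ≤ 1 := by rw [div_le_one (by positivity)]; exact c4
    have h9 : η * ((2 * m + 1) * L + 2) / (2 * L ^ 2) ≤ m / 400 := by
      rw [div_le_div_iff₀ (by positivity) (by norm_num)]; nlinarith
    have h10 : (η / L ^ 2) * e ≤ 1 * e := mul_le_mul_of_nonneg_right h8 he
    have h11 : (η * ((2 * m + 1) * L + 2) / (2 * L ^ 2)) * (I + J) ≤ m / 400 * (I + J) :=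
      mul_le_mul_of_nonneg_right h9 hIJ
    nlinarith
  rw [hLinv] at h1
  have g6 : m * J ≤ 21 / 10 * e + m * I / 90 := by nlinarith
  have g7 : J ≤ 21 / (10 * m) * e + I / 90 := by
    have : J = (m * J) / m := by field_simp
    rw [this, div_le_iff₀ hm]
    have : (21 / (10 * m) * e + I / 90) * m = 21 / 10 * e + m * I / 90 := by field_simp
    linarith
  have hem : 0 ≤ e / m := by positivity
  have g8 : 21 / (10 * m) * e = 21 / 10 * (e / m) := by field_simp
  have g9 : (20 + 20 / m) * e = 20 * e + 20 * (e / m) := by ring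
  rw [g8] at g7
  rw [g9]
  constructor <;> nlinarith

end

end Pool.Agent.helper84.Dir
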