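import Pool.Agent.helper84.DirGag

open MeasureTheory Set Filter Topology
open scoped NNReal ENNReal ContDiff Real ComplexConjugate

namespace Pool.Agent.helper84.Dir

noncomputable section

lemma μT_Ioc : μT = volume.restrict (Ioc (-π) π) := by
  unfold μT
  exact Measure.restrict_congr_set Ioo_ae_eq_Ioc

lemma coeff_eq (u : ℝ → ℂ) (n : ℤ) (h : -π < π) : fourierCoeffOn h u n =
    (2 * π)⁻¹ * ∫ θ, u θ * Complex.exp (-(n * θ) * Complex.I) ∂μT := by
  rw [fourierCoeffOn_eq_integral, intervalIntegral.integral_of_le h.le, ← μT_Ioc]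
  have e : ∀ x : ℝ, (fourier (-n) (x : AddCircle (π - -π))) • u x =
      u x * Complex.exp (-(n * x) * Complex.I) := by
    intro x
    rw [fourier_coe_apply, smul_eq_mul, mul_comm]
    congr 2
    push_cast
    have : (π : ℂ) ≠ 0 := by exact_mod_cast Real.pi_ne_zero
    field_simp
    ring
  simp only [e]
  rw [Complex.real_smul]
  push_cast
  congr 1
  rw [one_div]
  congr 1
  ring

lemma circ_zero {u : ℝ → ℂ} (hu : MemLp u 2 μT)
    (h : ∀ k : ℤ, ∫ θ, u θ * Complex.exp (-(k * θ) * Complex.I) ∂μT = 0) : ∀ᵐ θ ∂μT, u θ = 0 := by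
  have hπ : -π < π := by linarith [Real.pi_pos]
  have hu' : MemLp u 2 (volume.restrict (Ioc (-π) π)) := by rwa [← μT_Ioc]
  have h1 := hasSum_sq_fourierCoeffOn hπ hu'
  have h2 : (fun i : ℤ => ‖fourierCoeffOn hπ u i‖ ^ 2) = fun _ => 0 := by
    funext i
    rw [coeff_eq, h i]
    simp
  rw [h2] at h1
  have h3 := h1.unique hasSum_zero
  rw [intervalIntegral.integral_of_le hπ.le, ← μT_Ioc, smul_eq_mul] at h3
  have h4 : ∫ θ, ‖u θ‖ ^ 2 ∂μT = 0 := by
    rcases mul_eq_zero.1 h3 with h | h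
    · exfalso
      have : (π - -π)⁻¹ ≠ 0 := inv_ne_zero (by linarith [Real.pi_pos])
      exact this h
    · exact h
  have h5 : Integrable (fun θ => ‖u θ‖ ^ 2) μT := hu.integrable_norm_pow (by norm_num)
  rw [integral_eq_zero_iff_of_nonneg (fun _ => by positivity) h5] at h4
  filter_upwards [h4] with θ hθ
  simpa using hθ

lemma exp_k_add (a b : ℤ) (θ : ℝ) : Complex.exp (a * θ * Complex.I) *
    Complex.exp (-(b * θ) * Complex.I) = Complex.exp (-((b - a : ℤ) * θ) * Complex.I) := by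
  rw [← Complex.exp_add]; congr 1; push_cast; ring

/-- a function on the circle with a single Fourier mode -/
lemma circ_mode {u : ℝ → ℂ} (hu : MemLp u 2 μT) (j : ℤ)
    (h : ∀ k : ℤ, k ≠ j → ∫ θ, u θ * Complex.exp (-(k * θ) * Complex.I) ∂μT = 0) :
    ∀ᵐ θ : ℝ ∂μT, u θ = ((2 * π)⁻¹ * ∫ t, u t * Complex.exp (-(j * t) * Complex.I) ∂μT) *
      Complex.exp (j * θ * Complex.I) := by
  set c := ((2 * π)⁻¹ * ∫ t, u t * Complex.exp (-(j * t) * Complex.I) ∂μT : ℂ) with hc
  have hexp : MemLp (fun θ : ℝ => c * Complex.exp (j * θ * Complex.I)) 2 μT := by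
    refine (memLp_const c).of_le (by fun_prop : Continuous fun θ : ℝ =>
      c * Complex.exp (j * θ * Complex.I)).aestronglyMeasurable (ae_of_all _ fun θ => ?_)
    rw [norm_mul]
    have : (j * θ * Complex.I : ℂ) = ((j * θ : ℝ) : ℂ) * Complex.I := by push_cast; ring
    rw [this, Complex.norm_exp_ofReal_mul_I, mul_one]
  have h1 := circ_zero (hu.sub hexp) (fun k => by
    have e : (fun θ : ℝ => (u - fun θ : ℝ => c * Complex.exp (j * θ * Complex.I)) θ *
        Complex.exp (-(k * θ) * Complex.I)) = fun θ : ℝ => u θ * Complex.exp (-(k * θ) * Complex.I) -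
        c * Complex.exp (-((k - j : ℤ) * θ) * Complex.I) := by
      funext θ
      rw [← exp_k_add j k θ]
      simp only [Pi.sub_apply]
      ring
    rw [e, integral_sub (circ_int_exp (hu.integrable (by norm_num)))
      (circ_int_exp (k := k - j) (integrable_const c)), integral_const_mul]
    by_cases hk : k = j
    · subst hk
      have e2 : (fun θ : ℝ => Complex.exp (-((k - k : ℤ) * θ) * Complex.I)) = fun _ => 1 := by
        funext θ; simp
      obtain ⟨J, hJ⟩ : ∃ J, J = ∫ t, u t * Complex.exp (-(k * t) * Complex.I) ∂μT := ⟨_, rfl⟩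
      rw [e2, integral_const, μT_univ, hc, ← hJ]
      have : (π : ℂ) ≠ 0 := by exact_mod_cast Real.pi_ne_zero
      simp only [Complex.real_smul, mul_one]
      push_cast
      field_simp
      ring
    · rw [h k hk, int_exp_zero (sub_ne_zero.2 hk), mul_zero, sub_zero])
  filter_upwards [h1] with θ hθ
  simp only [Pi.sub_apply] at hθ
  exact sub_eq_zero.1 hθ

lemma ae_prod_zero {E : ℝ × ℝ → ℂ} (hE : AEStronglyMeasurable E μP)
    (h : ∀ᵐ r ∂μR, ∀ᵐ θ ∂μT, E (r, θ) = 0) : ∀ᵐ p ∂μP, E p = 0 := by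
  have h1 : ∫⁻ p, ‖E p‖ₑ ∂μP = 0 := by
    unfold μP
    rw [lintegral_prod _ hE.enorm]
    refine (lintegral_congr_ae ?_).trans lintegral_zero
    filter_upwards [h] with r hr
    refine (lintegral_congr_ae ?_).trans lintegral_zero
    filter_upwards [hr] with θ hθ
    rw [hθ, enorm_zero]
  rw [lintegral_eq_zero_iff' hE.enorm] at h1
  filter_upwards [h1] with p hp
  simpa using hp

lemma ae_eq_of_polar {ψ G : ℂ → ℂ} (hψ : AEStronglyMeasurable ψ volume)
    (hG : AEStronglyMeasurable G volume)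
    (h : ∀ᵐ p ∂μP, ψ (pt p.1 p.2) = G (pt p.1 p.2)) : ψ =ᵐ[volume] G := by
  have h1 := hψ.ae_eq_mk
  have h2 := hG.ae_eq_mk
  have h3 : ∀ᵐ z, hψ.mk ψ z = hG.mk G z := by
    refine ae_of_polar ?_ ?_
    · exact measurableSet_eq_fun hψ.stronglyMeasurable_mk.measurable
        hG.stronglyMeasurable_mk.measurable
    · filter_upwards [h, ae_polar h1, ae_polar h2] with p hp hp1 hp2
      rw [← hp1, ← hp2, hp]
  filter_upwards [h1, h2, h3] with z hz1 hz2 hz3
  rw [hz1, hz2, hz3]

/-- a square integrable function on the plane with a single angular mode -/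
theorem plane_mode {ψ : ℂ → ℂ} (hψ : MemLp ψ 2) (j : ℤ)
    (h : ∀ k : ℤ, k ≠ j → ∀ᵐ r ∂μR, ang k ψ r = 0) :
    ∀ᵐ p ∂μP, ψ (pt p.1 p.2) = (2 * π)⁻¹ * ang j ψ p.1 * Complex.exp (j * p.2 * Complex.I) := by
  have h1 : ∀ᵐ r ∂μR, ∀ k : ℤ, k ≠ j → ang k ψ r = 0 := by
    rw [ae_all_iff]
    intro k
    by_cases hk : k = j
    · exact ae_of_all _ fun r hr => absurd hk hr
    · filter_upwards [h k hk] with r hr _ using hr
  have hE : AEStronglyMeasurable (fun p : ℝ × ℝ => ψ (pt p.1 p.2) - (2 * π)⁻¹ * ang j ψ p.1 *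
      Complex.exp (j * p.2 * Complex.I)) μP := by
    refine (asm_polar hψ.1).sub (AEStronglyMeasurable.mul (AEStronglyMeasurable.mul
      aestronglyMeasurable_const ?_) ?_)
    · exact (ang_asm (k := j) hψ.1).comp_fst
    · exact (by fun_prop : Continuous fun p : ℝ × ℝ =>
        Complex.exp (j * p.2 * Complex.I)).aestronglyMeasurable
  have h2 := ae_prod_zero hE (by
    filter_upwards [h1, circ_sq hψ] with r hr hr2
    have := circ_mode hr2 j (fun k hk => hr k hk)
    filter_upwards [this] with θ hθ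
    rw [sub_eq_zero]
    exact hθ)
  filter_upwards [h2] with p hp
  exact sub_eq_zero.1 hp

end

end Pool.Agent.helper84.Dir
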