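import Pool.Agent.helper84.DirSys

open MeasureTheory Set Filter Topology
open scoped NNReal ENNReal ContDiff Real ComplexConjugate

namespace Pool.Agent.helper84.Dir

noncomputable section

variable {k : ℤ}

lemma int_exp_zero (hk : k ≠ 0) : ∫ θ : ℝ, Complex.exp (-(k * θ) * Complex.I) ∂μT = 0 := by
  unfold μT
  rw [← integral_Ioc_eq_integral_Ioo, ← intervalIntegral.integral_of_le (by linarith [Real.pi_pos])]
  have hc : (-(k : ℂ) * Complex.I) ≠ 0 := by simpa using hk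
  have h1 := integral_exp_mul_complex (a := -π) (b := π) hc
  have h2 : (fun θ : ℝ => Complex.exp (-(k * θ) * Complex.I)) =
      fun θ : ℝ => Complex.exp (-(k : ℂ) * Complex.I * θ) := by
    funext θ; congr 1; ring
  rw [h2, h1]
  have h3 : Complex.exp (-(k : ℂ) * Complex.I * (π : ℝ)) = Complex.exp (-(k : ℂ) * Complex.I * ((-π : ℝ) : ℂ)) := by
    rw [Complex.exp_eq_exp_iff_exists_int]
    refine ⟨-k, ?_⟩
    push_cast
    ring
  rw [h3, sub_self, zero_div]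

lemma ang_sub_const (hk : k ≠ 0) {ψ : ℂ → ℂ} {r : ℝ} (hψ : Integrable (fun θ => ψ (pt r θ)) μT)
    (c : ℂ) : ang k ψ r = ∫ θ, (ψ (pt r θ) - c) * Complex.exp (-(k * θ) * Complex.I) ∂μT := by
  have h1 : ∫ θ, (ψ (pt r θ) - c) * Complex.exp (-(k * θ) * Complex.I) ∂μT =
      (∫ θ, ψ (pt r θ) * Complex.exp (-(k * θ) * Complex.I) ∂μT) -
      ∫ θ : ℝ, c * Complex.exp (-(k * θ) * Complex.I) ∂μT := by
    rw [← integral_sub (circ_int_exp hψ) (circ_int_exp (integrable_const c))]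
    congr 1
    funext θ
    ring
  rw [h1, integral_const_mul, int_exp_zero hk, mul_zero, sub_zero]
  rfl

lemma ang_sq_le' (hk : k ≠ 0) {ψ : ℂ → ℂ} {r : ℝ} (hψ : MemLp (fun θ => ψ (pt r θ)) 2 μT) (c : ℂ) :
    ENNReal.ofReal (‖ang k ψ r‖ ^ 2) ≤
      ENNReal.ofReal (2 * π) * ∫⁻ θ, ENNReal.ofReal (‖ψ (pt r θ) - c‖ ^ 2) ∂μT := by
  rw [ang_sub_const hk (hψ.integrable (by norm_num)) c]
  have hψc : MemLp (fun θ => ψ (pt r θ) - c) 2 μT := hψ.sub (memLp_const c)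
  have h1 : MemLp (fun θ => (ψ (pt r θ) - c) * Complex.exp (-(k * θ) * Complex.I)) 2 μT := by
    refine MemLp.of_le hψc (hψc.1.mul (by fun_prop : Continuous fun θ : ℝ =>
      Complex.exp (-(k * θ) * Complex.I)).aestronglyMeasurable) (ae_of_all _ fun θ => ?_)
    rw [norm_mul, norm_exp_k, mul_one]
  have h2 := sq_norm_integral_le h1
  have h3 : (fun θ => ‖(ψ (pt r θ) - c) * Complex.exp (-(k * θ) * Complex.I)‖ ^ 2) =
      fun θ => ‖ψ (pt r θ) - c‖ ^ 2 := by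
    funext θ
    rw [norm_mul, norm_exp_k, mul_one]
  simp only [h3] at h2
  have h4 : Integrable (fun θ => ‖ψ (pt r θ) - c‖ ^ 2) μT := hψc.integrable_norm_pow (by norm_num)
  calc _ ≤ ENNReal.ofReal (2 * π * ∫ θ, ‖ψ (pt r θ) - c‖ ^ 2 ∂μT) := ENNReal.ofReal_le_ofReal h2
    _ = _ := by
      rw [ENNReal.ofReal_mul (by positivity), ofReal_integral_eq_lintegral_ofReal h4
        (ae_of_all _ fun _ => by positivity)]

/-- Gagliardo kernel -/
def Gk (n : ℕ) {E : Type*} [NormedAddCommGroup E] (ψ : E → ℂ) (x y : E) : ℝ≥0∞ :=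
  ENNReal.ofReal (‖ψ x - ψ y‖ ^ 2 / ‖x - y‖ ^ (n + 1))

lemma Gk_meas {ψ : ℂ → ℂ} (hm : Measurable ψ) :
    Measurable (fun z : ℂ × ℂ => Gk 2 ψ z.1 z.2) := by
  unfold Gk
  fun_prop

theorem gag_meas (hk : k ≠ 0) {ψ : ℂ → ℂ} (hm : Measurable ψ) (hψ : MemLp ψ 2) :
    ∫⁻ r, ENNReal.ofReal (‖ang k ψ r‖ ^ 2) ∂μR ≤ 27 * ∫⁻ x, ∫⁻ y, Gk 2 ψ x y := by
  have hK := Gk_meas hm
  obtain ⟨K, hKd⟩ : ∃ K, K = Gk 2 ψ := ⟨_, rfl⟩
  rw [← hKd] at hK ⊢
  set J : ℂ → ℝ≥0∞ := fun x => ∫⁻ y, K x y with hJ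
  have hJm : Measurable J := Measurable.lintegral_prod_right' (ν := (volume : Measure ℂ))
    (f := fun z : ℂ × ℂ => K z.1 z.2) hK
  have step : ∀ᵐ r ∂μR, ENNReal.ofReal (‖ang k ψ r‖ ^ 2) ≤
      27 * ∫⁻ θ, ENNReal.ofReal r * J (pt r θ) ∂μT := by
    filter_upwards [circ_sq hψ, ae_μR.2 (ae_of_all _ fun r (hr : 0 < r) => hr)] with r hr hr0
    set A := ENNReal.ofReal (‖ang k ψ r‖ ^ 2) with hA
    set Kθ : ℝ × ℝ → ℝ≥0∞ := fun p => ∫⁻ θ, K (pt r θ) (pt p.1 p.2) ∂μT with hKθ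
    have hptr : Measurable fun θ : ℝ => pt r θ := by unfold pt; fun_prop
    have hpt1 : Measurable fun q : (ℝ × ℝ) × ℝ => pt r q.2 := hptr.comp measurable_snd
    have hpt2 : Measurable fun q : (ℝ × ℝ) × ℝ => pt q.1.1 q.1.2 :=
      pt_cont.measurable.comp measurable_fst
    have hmap : Measurable fun q : (ℝ × ℝ) × ℝ => ((pt r q.2, pt q.1.1 q.1.2) : ℂ × ℂ) :=
      hpt1.prodMk hpt2
    have hmeas : Measurable fun q : (ℝ × ℝ) × ℝ => K (pt r q.2) (pt q.1.1 q.1.2) := hK.comp hmap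
    have hKθm : Measurable Kθ := by
      exact Measurable.lintegral_prod_right' (ν := μT)
        (f := fun q : (ℝ × ℝ) × ℝ => K (pt r q.2) (pt q.1.1 q.1.2)) hmeas
    have hb : ∀ p : ℝ × ℝ, r < p.1 → p.1 < 2 * r → A ≤ ENNReal.ofReal (54 * π * r ^ 3) * Kθ p := by
      intro p hp1 hp2
      refine (ang_sq_le' hk hr (ψ (pt p.1 p.2))).trans ?_
      have h1 : ∫⁻ θ, ENNReal.ofReal (‖ψ (pt r θ) - ψ (pt p.1 p.2)‖ ^ 2) ∂μT ≤
          ∫⁻ θ, ENNReal.ofReal (27 * r ^ 3) * K (pt r θ) (pt p.1 p.2) ∂μT := by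
        refine lintegral_mono fun θ => ?_
        rw [hKd]
        unfold Gk
        rw [← ENNReal.ofReal_mul (by positivity)]
        refine ENNReal.ofReal_le_ofReal ?_
        rcases eq_or_ne (pt r θ) (pt p.1 p.2) with h | h
        · rw [h]; simp
        · have h2 : 0 < ‖pt r θ - pt p.1 p.2‖ := norm_pos_iff.2 (sub_ne_zero.2 h)
          have h3 : ‖pt r θ - pt p.1 p.2‖ ≤ 3 * r := by
            refine (norm_sub_le _ _).trans ?_
            rw [norm_pt, norm_pt, abs_of_pos hr0, abs_of_pos (hr0.trans hp1)]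
            linarith
          have h4 : ‖pt r θ - pt p.1 p.2‖ ^ (2 + 1) ≤ 27 * r ^ 3 := by
            calc ‖pt r θ - pt p.1 p.2‖ ^ (2 + 1) ≤ (3 * r) ^ 3 := pow_le_pow_left₀ h2.le h3 3
              _ = 27 * r ^ 3 := by ring
          rw [mul_div_assoc', le_div_iff₀ (by positivity)]
          calc ‖ψ (pt r θ) - ψ (pt p.1 p.2)‖ ^ 2 * ‖pt r θ - pt p.1 p.2‖ ^ (2 + 1) ≤
                ‖ψ (pt r θ) - ψ (pt p.1 p.2)‖ ^ 2 * (27 * r ^ 3) := by gcongr
            _ = _ := by ring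
      rw [lintegral_const_mul' _ _ ENNReal.ofReal_ne_top] at h1
      calc ENNReal.ofReal (2 * π) * ∫⁻ θ, ENNReal.ofReal (‖ψ (pt r θ) - ψ (pt p.1 p.2)‖ ^ 2) ∂μT ≤
            ENNReal.ofReal (2 * π) * (ENNReal.ofReal (27 * r ^ 3) * Kθ p) := by gcongr
        _ = ENNReal.ofReal (54 * π * r ^ 3) * Kθ p := by
            rw [← mul_assoc, ← ENNReal.ofReal_mul (by positivity)]
            congr 2; ring
    set S : Set (ℝ × ℝ) := Ioo r (2 * r) ×ˢ univ with hS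
    have hSm : MeasurableSet S := measurableSet_Ioo.prod MeasurableSet.univ
    have hSμ : μP S = ENNReal.ofReal r * ENNReal.ofReal (2 * π) := by
      simp only [hS, μP]
      rw [Measure.prod_prod]
      congr 1
      · unfold μR
        have hsub : Ioo r (2 * r) ⊆ Ioi 0 := fun x hx => mem_Ioi.2 (hr0.trans hx.1)
        rw [Measure.restrict_apply measurableSet_Ioo, inter_eq_left.2 hsub, Real.volume_Ioo]
        congr 1; ring
      · rw [← μT_univ]
        exact (ofReal_measureReal).symm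
    have hd : ENNReal.ofReal r * A * μP S ≤ ENNReal.ofReal (54 * π * r ^ 3) *
        ∫⁻ p, ENNReal.ofReal p.1 * Kθ p ∂μP := by
      rw [← setLIntegral_const, ← lintegral_const_mul' _ _ ENNReal.ofReal_ne_top]
      refine (setLIntegral_mono' hSm fun p hp => ?_).trans (setLIntegral_le_lintegral _ _)
      have hp1 : r < p.1 := hp.1.1
      have hp2 : p.1 < 2 * r := hp.1.2
      calc ENNReal.ofReal r * A ≤ ENNReal.ofReal p.1 * (ENNReal.ofReal (54 * π * r ^ 3) * Kθ p) :=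
            mul_le_mul' (ENNReal.ofReal_le_ofReal hp1.le) (hb p hp1 hp2)
        _ = _ := by ring
    have hf : ∫⁻ p, ENNReal.ofReal p.1 * Kθ p ∂μP = ∫⁻ θ, J (pt r θ) ∂μT := by
      have h1 : ∀ p : ℝ × ℝ, ENNReal.ofReal p.1 * Kθ p =
          ∫⁻ θ, ENNReal.ofReal p.1 * K (pt r θ) (pt p.1 p.2) ∂μT := fun p => by
        rw [lintegral_const_mul' _ _ ENNReal.ofReal_ne_top]
      simp only [h1]
      rw [lintegral_lintegral_swap]
      · refine lintegral_congr fun θ => ?_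
        exact lint_polar (fun y => K (pt r θ) y)
      · refine Measurable.aemeasurable ?_
        have h9 : Measurable fun q : (ℝ × ℝ) × ℝ => ENNReal.ofReal q.1.1 := by fun_prop
        exact Measurable.mul h9 hmeas
    rw [hf, hSμ] at hd
    rw [lintegral_const_mul' _ _ ENNReal.ofReal_ne_top]
    set X := ∫⁻ θ, J (pt r θ) ∂μT with hX
    -- cancel
    have hc0 : ENNReal.ofReal (2 * π * r ^ 2) ≠ 0 := by
      rw [Ne, ENNReal.ofReal_eq_zero, not_le]; positivity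
    have e1 : ENNReal.ofReal r * A * (ENNReal.ofReal r * ENNReal.ofReal (2 * π)) =
        ENNReal.ofReal (2 * π * r ^ 2) * A := by
      have : ENNReal.ofReal (2 * π * r ^ 2) = ENNReal.ofReal r * ENNReal.ofReal r * ENNReal.ofReal (2 * π) := by
        rw [← ENNReal.ofReal_mul hr0.le, ← ENNReal.ofReal_mul (by positivity)]
        congr 1; ring
      rw [this]; ring
    have e2 : ENNReal.ofReal (54 * π * r ^ 3) * X =
        ENNReal.ofReal (2 * π * r ^ 2) * (27 * (ENNReal.ofReal r * X)) := by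
      have : ENNReal.ofReal (54 * π * r ^ 3) = ENNReal.ofReal (2 * π * r ^ 2) * (27 * ENNReal.ofReal r) := by
        have h27 : (27 : ℝ≥0∞) = ENNReal.ofReal 27 := by simp
        rw [h27, ← ENNReal.ofReal_mul (by norm_num), ← ENNReal.ofReal_mul (by positivity)]
        congr 1; ring
      rw [this]; ring
    rw [e1, e2] at hd
    exact (ENNReal.mul_le_mul_iff_right hc0 ENNReal.ofReal_ne_top).1 hd
  calc ∫⁻ r, ENNReal.ofReal (‖ang k ψ r‖ ^ 2) ∂μR ≤
        ∫⁻ r, 27 * ∫⁻ θ, ENNReal.ofReal r * J (pt r θ) ∂μT ∂μR := lintegral_mono_ae step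
    _ = 27 * ∫⁻ r, ∫⁻ θ, ENNReal.ofReal r * J (pt r θ) ∂μT ∂μR :=
        lintegral_const_mul' _ _ (by simp)
    _ = 27 * ∫⁻ p, ENNReal.ofReal p.1 * J (pt p.1 p.2) ∂μP := by
        congr 1
        have h9 : Measurable fun p : ℝ × ℝ => ENNReal.ofReal p.1 * J (pt p.1 p.2) :=
          (by fun_prop : Measurable fun p : ℝ × ℝ => ENNReal.ofReal p.1).mul
            (hJm.comp pt_cont.measurable)
        exact (lintegral_prod (μ := μR) (ν := μT)
          (fun p : ℝ × ℝ => ENNReal.ofReal p.1 * J (pt p.1 p.2)) h9.aemeasurable).symm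
    _ = _ := by rw [lint_polar]

theorem gag (hk : k ≠ 0) {ψ : ℂ → ℂ} (hψ : MemLp ψ 2)
    (hG : ∫⁻ x, ∫⁻ y, Gk 2 ψ x y < ⊤) : IntegrableOn (fun r => ‖ang k ψ r‖ ^ 2) (Ioi 0) := by
  obtain ⟨ψ', hm, he⟩ : ∃ ψ' : ℂ → ℂ, Measurable ψ' ∧ ψ =ᵐ[volume] ψ' :=
    ⟨hψ.1.mk ψ, hψ.1.stronglyMeasurable_mk.measurable, hψ.1.ae_eq_mk⟩
  have hψ' : MemLp ψ' 2 := (memLp_congr_ae he).1 hψ
  have hG' : ∫⁻ x, ∫⁻ y, Gk 2 ψ' x y = ∫⁻ x, ∫⁻ y, Gk 2 ψ x y := by
    refine lintegral_congr_ae ?_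
    filter_upwards [he] with x hx
    refine lintegral_congr_ae ?_
    filter_upwards [he] with y hy
    simp only [Gk]
    rw [hx, hy]
  have h1 := gag_meas hk hm hψ'
  rw [hG'] at h1
  have h2 : ∫⁻ r, ENNReal.ofReal (‖ang k ψ r‖ ^ 2) ∂μR < ⊤ := by
    refine lt_of_le_of_lt (le_trans (le_of_eq ?_) h1) (ENNReal.mul_lt_top (by simp) hG)
    refine lintegral_congr_ae ?_
    filter_upwards [ang_congr (k := k) he] with r hr
    rw [hr]
  refine ⟨(ang_asm hψ.1).norm.pow 2, ?_⟩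
  rw [hasFiniteIntegral_iff_ofReal (ae_of_all _ fun _ => by positivity)]
  exact h2

end

end Pool.Agent.helper84.Dir
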