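import Pool.Agent.helper84.DirWeak

open MeasureTheory Set Filter Topology
open scoped NNReal ContDiff

namespace Pool.Agent.helper84.Dir

section
variable {ν : ℕ} {v : ℝ → ℝ} {m l : ℝ}

/-- positivity at nonpositive energies -/
lemma FF_pos_of_nonpos (h : Pot ν v) (hm : 0 < m) {η : ℝ} (hη : 0 < η) (h1 : η ≤ 2 / 5)
    (h2 : η ≤ 3 * m / 10) (hs : Small1 ν v η) (hl : |l| < m) (hl0 : l ≤ 0) :
    ∀ r, 0 ≤ r → 0 < FF ν m l v r := by
  obtain ⟨hl1, hl2⟩ := abs_lt.1 hl
  intro r hr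
  refine (cone h hm hl le_rfl (FF_sys h hm hl.le) (δ := η) (κ := η) (bb := 1 / 2) hη
    (by norm_num) (by nlinarith) (by nlinarith) hs ?_ ?_ r hr).1
  · rw [FF_zero h hm hl.le]; norm_num
  · rw [HH_zero h hm hl.le]

/-- `F > 0` at the lowest eigenvalue. -/
lemma FF_pos_of_lowest (h : Pot ν v) (hm : 0 < m) {η : ℝ} (hη : 0 < η) (h1 : η ≤ 2 / 5)
    (h2 : η ≤ 3 * m / 10) (hs : Small1 ν v η) (hl : |l| < m)
    (hno : ∀ l', 0 ≤ l' → l' < l → (∀ r, 0 ≤ r → 0 < FF ν m l' v r) →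
      (∃ R₀, 1 ≤ R₀ ∧ ∀ r, R₀ ≤ r → HH ν m l' v r ≤ 0) → False) :
    ∀ r, 0 ≤ r → 0 < FF ν m l v r := by
  rcases le_or_gt l 0 with hl0 | hl0
  · exact FF_pos_of_nonpos h hm hη h1 h2 hs hl hl0
  by_contra hcon
  push Not at hcon
  obtain ⟨r, hr, hF⟩ := hcon
  have hr0 : 0 < r := by
    rcases eq_or_lt_of_le hr with e | hlt
    · exfalso
      rw [← e, FF_zero h hm hl.le] at hF
      norm_num at hF
    · exact hlt
  obtain ⟨l', h3, h4, h5, h6⟩ := shoot h hm hη h1 h2 hs hl0 (abs_lt.1 hl).2 ⟨r, hr0, hF⟩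
  exact hno l' h3 h4 h5 h6

/-- proportionality of solutions -/
lemma prop_of_wronskian (h : Pot ν v) (hm : 0 < m) (hl : |l| < m)
    (hF : ∀ r, 0 ≤ r → 0 < FF ν m l v r) {f q : ℝ → ℝ}
    (hf : ∀ a b, 0 < a → a < b → ACD f (fun r => cA ν m l v r * q r) a b)
    (hq : ∀ a b, 0 < a → a < b → ACD q (fun r => cB ν m l v r * f r) a b)
    (hlim : ∀ ε : ℝ, 0 < ε → ∃ s, 0 < s ∧ |f s * HH ν m l v s - q s * FF ν m l v s| < ε) :
    ∃ c, ∀ r, 0 < r → f r = c * FF ν m l v r ∧ q r = c * HH ν m l v r := by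
  have hsys := FF_sys (ν := ν) h hm hl.le
  set F := FF ν m l v
  set H := HH ν m l v
  have hW : ∀ a b, 0 < a → a < b → f a * H a - q a * F a = f b * H b - q b * F b := by
    intro a b ha hab
    have h1 := (((hf a b ha hab).mul ((hsys.mono ha.le).hH b hab)).sub
      ((hq a b ha hab).mul ((hsys.mono ha.le).hF b hab))).integral
    have h2 : ∫ x in a..b, (cA ν m l v x * q x * H x + f x * (cB ν m l v x * F x) -
        (cB ν m l v x * f x * F x + q x * (cA ν m l v x * H x))) = 0 := by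
      rw [show (fun x => cA ν m l v x * q x * H x + f x * (cB ν m l v x * F x) -
        (cB ν m l v x * f x * F x + q x * (cA ν m l v x * H x))) = fun _ => (0:ℝ) by
          funext x; ring]
      simp
    rw [h2] at h1
    linarith
  have hW0 : ∀ r, 0 < r → f r * H r - q r * F r = 0 := by
    intro r hr
    have key : ∀ ε : ℝ, 0 < ε → |f r * H r - q r * F r| < ε := by
      intro ε hε
      obtain ⟨s, hs, hse⟩ := hlim ε hε
      rcases lt_trichotomy s r with h1 | h1 | h1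
      · rw [← hW s r hs h1]; exact hse
      · rw [← h1]; exact hse
      · rw [hW r s hr h1]; exact hse
    by_contra hcon
    exact lt_irrefl _ (key _ (abs_pos.2 hcon))
  have hQ : ∀ a b, 0 < a → a < b → f a * (F a)⁻¹ = f b * (F b)⁻¹ := by
    intro a b ha hab
    have hFp : ∀ x ∈ uIcc a b, 0 < F x := fun x hx => by
      rw [uIcc_of_le hab.le] at hx; exact hF x (ha.le.trans hx.1)
    have h1 := ((hf a b ha hab).mul (((hsys.mono ha.le).hF b hab).inv hFp)).integral
    have h2 : ∫ x in a..b, (cA ν m l v x * q x * (F x)⁻¹ +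
        f x * (-(F x ^ 2)⁻¹ * (cA ν m l v x * H x))) = 0 := by
      have : ∫ x in a..b, (cA ν m l v x * q x * (F x)⁻¹ +
        f x * (-(F x ^ 2)⁻¹ * (cA ν m l v x * H x))) = ∫ x in a..b, (0:ℝ) := by
        refine intervalIntegral.integral_congr fun x hx => ?_
        have hFx := hFp x hx
        rw [uIcc_of_le hab.le] at hx
        have h3 := hW0 x (ha.trans_le hx.1)
        have e : cA ν m l v x * q x * (F x)⁻¹ + f x * (-(F x ^ 2)⁻¹ * (cA ν m l v x * H x)) =
          -cA ν m l v x * (F x ^ 2)⁻¹ * (f x * H x - q x * F x) := by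
          field_simp; ring
        beta_reduce
        rw [e, h3, mul_zero]
      rw [this]; simp
    rw [h2] at h1
    linarith
  refine ⟨f 1 * (F 1)⁻¹, fun r hr => ?_⟩
  have hFr := hF r hr.le
  have h1 : f r * (F r)⁻¹ = f 1 * (F 1)⁻¹ := by
    rcases lt_trichotomy r 1 with h2 | h2 | h2
    · exact hQ r 1 hr h2
    · rw [h2]
    · exact (hQ 1 r one_pos h2).symm
  have h2 : f r = f 1 * (F 1)⁻¹ * F r := by
    rw [← h1]; field_simp
  refine ⟨h2, ?_⟩
  have h3 := hW0 r hr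
  have h4 : q r * F r = f 1 * (F 1)⁻¹ * H r * F r := by
    rw [h2] at h3; linarith
  exact mul_right_cancel₀ hFr.ne' h4

/-- `|H| ≤ C r^ν` near the origin, with small constant -/
lemma HH_near_zero (h : Pot ν v) (hm : 0 < m) (hl : |l| < m) {κ : ℝ} (hκ : 0 < κ) :
    ∃ T, 0 < T ∧ ∀ r, 0 ≤ r → r ≤ T → |HH ν m l v r| ≤ κ * r ^ ν := by
  have hsys := FF_sys (ν := ν) h hm hl.le
  set F := FF ν m l v
  set H := HH ν m l v
  have hFc := (hsys.hF 1 one_pos).continuousOn
  rw [uIcc_of_le zero_le_one] at hFc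
  obtain ⟨M, hM⟩ := isCompact_Icc.exists_bound_of_continuousOn hFc
  have hM0 : 0 ≤ M := (norm_nonneg _).trans (hM 0 (left_mem_Icc.2 zero_le_one))
  set κ' := κ / (2 * (M + 1)) with hκ'
  have hκ'0 : 0 < κ' := by positivity
  -- smallness of the integral near zero
  have h0 : IntervalIntegrable (fun r => r ^ ν * (pd v 1 r) ^ (ν + 1)) volume 0 1 :=
    h.ii_pow one_pos le_rfl zero_le_one
  have h2 : ACD (fun r => ∫ x in (0:ℝ)..r, x ^ ν * pd v 1 x ^ (ν + 1))
      (fun r => r ^ ν * (pd v 1 r) ^ (ν + 1)) 0 1 :=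
    ACD.of_integral (c := 0) (x₀ := 0) h0 left_mem_uIcc (by intro x _; simp) one_pos
  have h3 := h2.continuousOn
  rw [uIcc_of_le zero_le_one] at h3
  obtain ⟨d, hd, h6⟩ := (Metric.continuousWithinAt_iff.1 (h3 0 (left_mem_Icc.2 zero_le_one)))
    (κ' ^ (ν + 1)) (by positivity)
  refine ⟨min (d / 2) (min 1 (κ' / (2 * m + 1))), by positivity, fun r hr hrT => ?_⟩
  have hr1 : r ≤ 1 := hrT.trans ((min_le_right _ _).trans (min_le_left _ _))
  have hrκ : r ≤ κ' / (2 * m + 1) := hrT.trans ((min_le_right _ _).trans (min_le_right _ _))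
  rcases eq_or_lt_of_le hr with e | hr0
  · rw [← e]
    have : H 0 = 0 := HH_zero h hm hl.le
    rw [this, abs_zero]
    positivity
  have h7 := @h6 r ⟨hr, hr1⟩ (by
    rw [Real.dist_eq, sub_zero, abs_of_nonneg hr]
    exact lt_of_le_of_lt (hrT.trans (min_le_left _ _)) (by linarith))
  simp only [intervalIntegral.integral_same] at h7
  rw [Real.dist_eq, sub_zero, abs_lt] at h7
  have h8 := pd_moment h (δ := 1) one_pos hκ'0 le_rfl hr h7.2.le
  -- H r = ∫ cB F
  have h9 : H r = ∫ s in (0:ℝ)..r, cB ν m l v s * F s := by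
    rw [(hsys.hH r hr0).integral]
    have : H 0 = 0 := HH_zero h hm hl.le
    rw [this, sub_zero]
  have hpi := h.ii_pd (δ := 1) one_pos le_rfl hr
  have h10 : |H r| ≤ ∫ s in (0:ℝ)..r, M * ((2 * m + 1) * r ^ ν + s ^ ν * pd v 1 s) := by
    rw [h9, ← Real.norm_eq_abs]
    refine intervalIntegral.norm_integral_le_of_norm_le hr (ae_of_all _ fun s hs => ?_)
      ((IntervalIntegrable.add (by simp) hpi).const_mul _)
    have hs0 : 0 < s := hs.1
    have h11 := hM s ⟨hs0.le, hs.2.trans hr1⟩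
    have h12 := (vcoef (ν := ν) h.meas h.pos hl.le).ble s hs0
    have hv := h.pos s
    have hp := pd_nonneg v 1 s
    have h13 := sub_pd_le v 1 s
    rw [Real.norm_eq_abs, abs_mul, mul_comm]
    refine mul_le_mul h11 (h12.trans ?_) (abs_nonneg _) hM0
    unfold wB
    rw [abs_of_pos hs0]
    have h14 : s ^ ν ≤ r ^ ν := pow_le_pow_left₀ hs0.le hs.2 ν
    have h15 : 0 ≤ s ^ ν := by positivity
    calc s ^ ν * (2 * m + v s) ≤ s ^ ν * ((2 * m + 1) + pd v 1 s) :=
          mul_le_mul_of_nonneg_left (by linarith) h15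
      _ = (2 * m + 1) * s ^ ν + s ^ ν * pd v 1 s := by ring
      _ ≤ _ := by
          have := mul_le_mul_of_nonneg_left h14 (by positivity : 0 ≤ 2 * m + 1)
          linarith
  rw [intervalIntegral.integral_const_mul, intervalIntegral.integral_add (by simp) hpi,
    intervalIntegral.integral_const, smul_eq_mul, sub_zero] at h10
  have h16 : r * ((2 * m + 1) * r ^ ν) ≤ κ' * r ^ ν := by
    rw [le_div_iff₀ (by positivity)] at hrκ
    have : 0 ≤ r ^ ν := by positivity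
    nlinarith
  have h17 : M * (r * ((2 * m + 1) * r ^ ν) + ∫ s in (0:ℝ)..r, s ^ ν * pd v 1 s) ≤
      M * (κ' * r ^ ν + κ' * r ^ ν) := mul_le_mul_of_nonneg_left (add_le_add h16 h8) hM0
  have h18 : M * (κ' * r ^ ν + κ' * r ^ ν) = (M / (M + 1)) * (κ * r ^ ν) := by
    simp only [hκ']; field_simp; ring
  have h19 : (M / (M + 1)) * (κ * r ^ ν) ≤ 1 * (κ * r ^ ν) := by
    refine mul_le_mul_of_nonneg_right ?_ (by positivity)
    rw [div_le_one (by positivity)]; linarith
  linarith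

/-- global bounds for the decaying positive regular solution -/
lemma reg_bounds (h : Pot ν v) (hm : 0 < m) (hl0 : 0 ≤ l) (hlm : l < m)
    (hF : ∀ r, 0 ≤ r → 0 < FF ν m l v r)
    (hH : ∃ R₀, 1 ≤ R₀ ∧ ∀ r, R₀ ≤ r → HH ν m l v r ≤ 0) :
    (∃ M, 0 ≤ M ∧ ∀ r, 0 < r → |FF ν m l v r| ≤ M ∧ |(r ^ ν)⁻¹ * HH ν m l v r| ≤ M) ∧
    IntegrableOn (fun r => r ^ ν * FF ν m l v r ^ 2 + (r ^ ν)⁻¹ * HH ν m l v r ^ 2) (Ioi 0) := by
  have hl : |l| < m := by rw [abs_of_nonneg hl0]; exact hlm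
  have hsys := FF_sys (ν := ν) h hm hl.le
  obtain ⟨R₀, hR₀, hH⟩ := hH
  have hR₀0 : 0 < R₀ := by linarith
  obtain ⟨R₁, hR₁, h1, h2, h3⟩ := decay h hm hl0 hlm hR₀0 (hsys.mono hR₀0.le)
    (fun r hr => hF r (hR₀0.le.trans hr)) hH
  obtain ⟨T, hT, hT2⟩ := HH_near_zero (ν := ν) h hm hl one_pos
  set F := FF ν m l v
  set H := HH ν m l v
  have hR₁0 : 0 < R₁ := hR₀0.trans_le hR₁
  have hFc : ContinuousOn F (Icc 0 R₁) := by
    have := (hsys.hF R₁ hR₁0).continuousOn; rwa [uIcc_of_le hR₁0.le] at this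
  have hHc : ContinuousOn H (Icc 0 R₁) := by
    have := (hsys.hH R₁ hR₁0).continuousOn; rwa [uIcc_of_le hR₁0.le] at this
  obtain ⟨M₁, hM₁⟩ := isCompact_Icc.exists_bound_of_continuousOn hFc
  have hGc : ContinuousOn (fun r => (r ^ ν)⁻¹ * H r) (Icc (min T R₁) R₁) := by
    refine ((continuousOn_id.pow ν).inv₀ fun x hx => ?_).mul (hHc.mono (Icc_subset_Icc (by positivity) le_rfl))
    exact pow_ne_zero _ (lt_of_lt_of_le (by positivity) hx.1).ne'
  obtain ⟨M₂, hM₂⟩ := isCompact_Icc.exists_bound_of_continuousOn hGc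
  have hM₁0 : 0 ≤ M₁ := (norm_nonneg _).trans (hM₁ 0 (left_mem_Icc.2 hR₁0.le))
  have hM₂0 : 0 ≤ M₂ := (norm_nonneg _).trans (hM₂ R₁ ⟨min_le_right _ _, le_rfl⟩)
  set M := 2 * M₁ + M₂ + 1 with hM
  have hbF : ∀ r, 0 < r → |F r| ≤ M₁ := by
    intro r hr
    rcases le_total r R₁ with h4 | h4
    · exact hM₁ r ⟨hr.le, h4⟩
    · have h5 := h2 r h4
      have h6 := hM₁ R₁ ⟨hR₁0.le, le_rfl⟩
      rw [abs_of_pos (hF r hr.le)]
      rw [Real.norm_eq_abs] at h6
      exact h5.trans ((le_abs_self _).trans h6)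
  have hbG : ∀ r, 0 < r → |(r ^ ν)⁻¹ * H r| ≤ M := by
    intro r hr
    have hrν : 0 < r ^ ν := by positivity
    rcases le_total r T with h4 | h4
    · have h5 := hT2 r hr.le h4
      rw [abs_mul, abs_of_pos (by positivity : 0 < (r ^ ν)⁻¹)]
      calc (r ^ ν)⁻¹ * |H r| ≤ (r ^ ν)⁻¹ * (1 * r ^ ν) := by gcongr
        _ = 1 := by field_simp
        _ ≤ M := by simp only [hM]; linarith
    · rcases le_total r R₁ with h5 | h5
      · have h6 := hM₂ r ⟨(min_le_left _ _).trans h4, h5⟩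
        rw [Real.norm_eq_abs] at h6
        refine h6.trans ?_
        simp only [hM]; linarith
      · have h6 := h1 r h5
        have h7 := hH r (hR₁.trans h5)
        have h8 := hbF r hr
        rw [abs_mul, abs_of_pos (by positivity : 0 < (r ^ ν)⁻¹), abs_of_nonpos h7]
        have h9 : -H r ≤ 2 * r ^ ν * M₁ := by
          have : F r ≤ M₁ := (le_abs_self _).trans h8
          have h10 : 2 * r ^ ν * F r ≤ 2 * r ^ ν * M₁ := by gcongr
          linarith
        calc (r ^ ν)⁻¹ * -H r ≤ (r ^ ν)⁻¹ * (2 * r ^ ν * M₁) := by gcongr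
          _ = 2 * M₁ := by field_simp
          _ ≤ M := by simp only [hM]; linarith
  refine ⟨⟨M, by positivity, fun r hr => ⟨(hbF r hr).trans ?_, hbG r hr⟩⟩, ?_⟩
  · simp only [hM]; linarith
  · have hunion : Ioi (0:ℝ) = Ioc 0 R₁ ∪ Ioi R₁ := (Ioc_union_Ioi_eq_Ioi hR₁0.le).symm
    rw [hunion]
    refine IntegrableOn.union ?_ h3
    -- bounded on (0,R₁]
    refine Integrable.mono' (g := fun _ => R₁ ^ ν * M₁ ^ 2 + R₁ ^ ν * M ^ 2) (by simp) ?_ ?_
    · refine AEStronglyMeasurable.add ?_ ?_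
      · refine ((measurable_id.pow_const ν).aestronglyMeasurable).mul ?_
        exact ((hFc.mono Ioc_subset_Icc_self).aestronglyMeasurable measurableSet_Ioc).pow 2
      · refine (((measurable_id.pow_const ν).inv).aestronglyMeasurable).mul ?_
        exact ((hHc.mono Ioc_subset_Icc_self).aestronglyMeasurable measurableSet_Ioc).pow 2
    · refine (ae_restrict_iff' measurableSet_Ioc).2 (ae_of_all _ fun r hr => ?_)
      have hr0 := hr.1
      have hrν : 0 < r ^ ν := by positivity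
      have hrR : r ^ ν ≤ R₁ ^ ν := pow_le_pow_left₀ hr0.le hr.2 ν
      rw [Real.norm_eq_abs, abs_of_nonneg (by positivity)]
      have e1 : F r ^ 2 ≤ M₁ ^ 2 := by
        rw [← sq_abs (F r)]
        exact pow_le_pow_left₀ (abs_nonneg _) (hbF r hr0) 2
      have e2 : (r ^ ν)⁻¹ * H r ^ 2 = r ^ ν * ((r ^ ν)⁻¹ * H r) ^ 2 := by field_simp
      have e3 : ((r ^ ν)⁻¹ * H r) ^ 2 ≤ M ^ 2 := by
        rw [← sq_abs ((r ^ ν)⁻¹ * H r)]
        exact pow_le_pow_left₀ (abs_nonneg _) (hbG r hr0) 2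
      rw [e2]
      exact add_le_add (mul_le_mul hrR e1 (by positivity) (by positivity))
        (mul_le_mul hrR e3 (by positivity) (by positivity))

/-- monotonicity of the ground state -/
lemma FF_anti (h : Pot ν v) (hm : 0 < m) (hl : |l| < m) (hanti : AntitoneOn v (Ioi 0))
    (hF : ∀ r, 0 ≤ r → 0 < FF ν m l v r)
    (hint : IntegrableOn (fun r => r ^ ν * FF ν m l v r ^ 2) (Ioi 1)) :
    AntitoneOn (FF ν m l v) (Ici 0) := by
  obtain ⟨hl1, hl2⟩ := abs_lt.1 hl
  have hsys := FF_sys (ν := ν) h hm hl.le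
  set F := FF ν m l v with hFd
  set H := HH ν m l v with hHd
  have hHnp : ∀ r, 0 < r → H r ≤ 0 := by
    intro r₁ hr₁
    by_contra hcon
    push Not at hcon
    -- some r₂ < r₁ with β(r₂) > 0
    have h9 : H r₁ = ∫ s in (0:ℝ)..r₁, cB ν m l v s * F s := by
      rw [(hsys.hH r₁ hr₁).integral]
      have : H 0 = 0 := HH_zero h hm hl.le
      rw [this, sub_zero]
    have hex : ∃ s, 0 < s ∧ s ≤ r₁ ∧ 0 < m - l - v s := by
      by_contra hno
      push Not at hno
      have : ∫ s in (0:ℝ)..r₁, cB ν m l v s * F s ≤ 0 := by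
        rw [intervalIntegral.integral_of_le hr₁.le]
        refine setIntegral_nonpos measurableSet_Ioc fun s hs => ?_
        have h1 := hno s hs.1 hs.2
        have h2 := hF s hs.1.le
        have h3 : 0 < s ^ ν := by have := hs.1; positivity
        have : cB ν m l v s ≤ 0 := by
          unfold cB; exact mul_nonpos_of_nonneg_of_nonpos h3.le h1
        exact mul_nonpos_of_nonpos_of_nonneg this h2.le
      linarith
    obtain ⟨r₂, hr₂, hr₂₁, hβ⟩ := hex
    have hβ' : ∀ r, r₂ ≤ r → 0 < m - l - v r := fun r hr => by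
      have := hanti (mem_Ioi.2 hr₂) (mem_Ioi.2 (hr₂.trans_le hr)) hr
      linarith
    have hHge : ∀ r, r₁ ≤ r → H r₁ ≤ H r := by
      intro r hr
      rcases eq_or_lt_of_le hr with e | hlt
      · rw [e]
      refine ((hsys.mono hr₁.le).hH r hlt).le_of_nonneg hr (ae_of_all _ fun x hx => ?_)
      have hx0 : 0 < x := hr₁.trans hx.1
      have h1 := hβ' x (hr₂₁.trans hx.1.le)
      have h2 := hF x hx0.le
      unfold cB
      positivity
    have hFge : ∀ r, r₁ ≤ r → F r₁ ≤ F r := by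
      intro r hr
      rcases eq_or_lt_of_le hr with e | hlt
      · rw [e]
      refine ((hsys.mono hr₁.le).hF r hlt).le_of_nonneg hr (ae_of_all _ fun x hx => ?_)
      have hx0 : 0 < x := hr₁.trans hx.1
      have h1 := hHge x hx.1.le
      have h2 := cA_pos (ν := ν) (m := m) (l := l) h.pos (by linarith) hx0
      have h3 : 0 < H x := hcon.trans_le h1
      positivity
    obtain ⟨t, ht, ht2⟩ := seq_infty hint (ε := F r₁ ^ 2) (R := max r₁ 1) (by
      have := hF r₁ hr₁.le; positivity)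
    have ht1 : 1 ≤ t := (le_max_right _ _).trans ht
    have h1 := hFge t ((le_max_left _ _).trans ht)
    have h2 := hF r₁ hr₁.le
    have h3 : F r₁ ^ 2 ≤ F t ^ 2 := pow_le_pow_left₀ h2.le h1 2
    have h4 : 1 ≤ t ^ ν := one_le_pow₀ ht1
    have h5 : F t ^ 2 ≤ t * (t ^ ν * F t ^ 2) := by
      have h6 : 0 ≤ F t ^ 2 := sq_nonneg _
      have h7 : 1 ≤ t * t ^ ν := by nlinarith
      nlinarith
    linarith
  intro r hr s _ hrs
  rcases eq_or_lt_of_le hrs with e | hlt
  · rw [e]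
  have hr0 : 0 ≤ r := hr
  have h1 := ((hsys.mono hr0).hF s hlt).neg.le_of_nonneg hrs (ae_of_all _ fun x hx => by
    have hx0 : 0 < x := lt_of_le_of_lt hr0 hx.1
    have h2 := cA_pos (ν := ν) (m := m) (l := l) h.pos (by linarith) hx0
    have h3 := hHnp x hx0
    nlinarith)
  linarith

end

end Pool.Agent.helper84.Dir
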