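import Pool.Agent.helper84.DirOdd

open MeasureTheory Set Filter Topology
open scoped NNReal ContDiff

namespace Pool.Agent.helper84.Dir

section
variable {v : ℝ → ℝ} {m l : ℝ}

lemma locInt_congr {u w : ℝ → ℝ} (h : u =ᵐ[volume] w) (hu : LocallyIntegrable u) :
    LocallyIntegrable w := by
  intro x
  obtain ⟨s, hs, hi⟩ := hu x
  exact ⟨s, hs, hi.congr_fun_ae (ae_restrict_of_ae h)⟩

lemma loc_iff {u : ℝ → ℝ} (hu : LocallyIntegrable u) {a b : ℝ} : IntervalIntegrable u volume a b := by
  rw [intervalIntegrable_iff]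
  exact (hu.integrableOn_isCompact isCompact_uIcc).mono_set uIoc_subset_uIcc

/-- Solutions on the line: only multiples of the even regular solution. -/
theorem line_core (hv : Pot 0 v) (hm : 0 < m) (hl : |l| < m)
    (hF : ∀ r, 0 ≤ r → 0 < FF 0 m l v r) {f g : ℝ → ℝ}
    (hf2 : MemLp f 2) (hg2 : MemLp g 2)
    (hVf : LocallyIntegrable (fun x => v |x| * f x))
    (hVg : LocallyIntegrable (fun x => v |x| * g x))
    (e1 : ∀ φ : ℝ → ℝ, ContDiff ℝ ∞ φ → HasCompactSupport φ →
      ∫ x, (g x * deriv φ x + ((m - l - v |x|) * f x) * φ x) = 0)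
    (e2 : ∀ φ : ℝ → ℝ, ContDiff ℝ ∞ φ → HasCompactSupport φ →
      ∫ x, (f x * deriv φ x + ((m + l + v |x|) * g x) * φ x) = 0) :
    ∃ c : ℝ, (f =ᵐ[volume] fun x => c * FF 0 m l v |x|) ∧
      (g =ᵐ[volume] fun x => c * (x / |x| * HH 0 m l v |x|)) := by
  have hfl : LocallyIntegrable f := hf2.locallyIntegrable (by norm_num)
  have hgl : LocallyIntegrable g := hg2.locallyIntegrable (by norm_num)
  have hwf : LocallyIntegrable (fun x => (m - l - v |x|) * f x) := by
    have : (fun x => (m - l - v |x|) * f x) = fun x => (m - l) * f x - v |x| * f x := by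
      funext x; ring
    rw [this]
    exact (hfl.smul (m - l)).sub hVf
  have hwg : LocallyIntegrable (fun x => (m + l + v |x|) * g x) := by
    have : (fun x => (m + l + v |x|) * g x) = fun x => (m + l) * g x + v |x| * g x := by
      funext x; ring
    rw [this]
    exact (hgl.smul (m + l)).add hVg
  obtain ⟨cg, hcg⟩ := dbr isOpen_univ ordConnected_univ (mem_univ (0:ℝ))
    (hgl.locallyIntegrableOn _) (hwf.locallyIntegrableOn _) (fun φ h1 h2 _ => e1 φ h1 h2)
  obtain ⟨cf, hcf⟩ := dbr isOpen_univ ordConnected_univ (mem_univ (0:ℝ))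
    (hfl.locallyIntegrableOn _) (hwg.locallyIntegrableOn _) (fun φ h1 h2 _ => e2 φ h1 h2)
  set f' : ℝ → ℝ := fun x => cf + ∫ t in (0:ℝ)..x, (m + l + v |t|) * g t with hf'
  set g' : ℝ → ℝ := fun x => cg + ∫ t in (0:ℝ)..x, (m - l - v |t|) * f t with hg'
  have hff' : f =ᵐ[volume] f' := by filter_upwards [hcf] with x hx using hx (mem_univ _)
  have hgg' : g =ᵐ[volume] g' := by filter_upwards [hcg] with x hx using hx (mem_univ _)
  have hwf' : LocallyIntegrable (fun x => (m - l - v |x|) * f' x) :=
    locInt_congr (by filter_upwards [hff'] with x hx; rw [hx]) hwf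
  have hwg' : LocallyIntegrable (fun x => (m + l + v |x|) * g' x) :=
    locInt_congr (by filter_upwards [hgg'] with x hx; rw [hx]) hwg
  have hf'2 : ∀ x, f' x = cf + ∫ t in (0:ℝ)..x, (m + l + v |t|) * g' t := by
    intro x
    simp only [hf']
    congr 1
    refine intervalIntegral.integral_congr_ae ?_
    filter_upwards [hgg'] with t ht _
    rw [ht]
  have hg'2 : ∀ x, g' x = cg + ∫ t in (0:ℝ)..x, (m - l - v |t|) * f' t := by
    intro x
    simp only [hg']
    congr 1
    refine intervalIntegral.integral_congr_ae ?_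
    filter_upwards [hff'] with t ht _
    rw [ht]
  have hf'L : MemLp f' 2 := (memLp_congr_ae hff').1 hf2
  have hg'L : MemLp g' 2 := (memLp_congr_ae hgg').1 hg2
  have hf'i : Integrable (fun x => f' x ^ 2) := hf'L.integrable_sq
  have hg'i : Integrable (fun x => g' x ^ 2) := hg'L.integrable_sq
  -- reflection of the integral
  have hrefl : ∀ (w : ℝ → ℝ) (x : ℝ), ∫ t in (0:ℝ)..(-x), w t = -∫ t in (0:ℝ)..x, w (-t) := by
    intro w x
    rw [intervalIntegral.integral_comp_neg, neg_zero, intervalIntegral.integral_symm]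
  have hiw : ∀ x, IntervalIntegrable (fun t => (m + l + v |t|) * g' t) volume 0 x := fun x => loc_iff hwg'
  have hiw' : ∀ x, IntervalIntegrable (fun t => (m - l - v |t|) * f' t) volume 0 x := fun x => loc_iff hwf'
  have hineg : ∀ (w : ℝ → ℝ), (∀ x, IntervalIntegrable w volume 0 x) →
      ∀ x, IntervalIntegrable (fun t => w (-t)) volume 0 x := by
    intro w hw x
    have := (hw (-x)).comp_sub_left 0
    simpa using this
  -- odd part
  set fo : ℝ → ℝ := fun x => f' x - f' (-x) with hfo
  set go : ℝ → ℝ := fun x => g' x + g' (-x) with hgo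
  have hfoeq : ∀ x, fo x = 0 + ∫ t in (0:ℝ)..x, (m + l + v |t|) * go t := by
    intro x
    simp only [hfo]
    rw [hf'2 x, hf'2 (-x), hrefl]
    have : ∫ t in (0:ℝ)..x, (m + l + v |t|) * go t =
        (∫ t in (0:ℝ)..x, (m + l + v |t|) * g' t) + ∫ t in (0:ℝ)..x, (m + l + v |-t|) * g' (-t) := by
      rw [← intervalIntegral.integral_add (hiw x) (hineg _ hiw x)]
      refine intervalIntegral.integral_congr fun t _ => ?_
      simp only [hgo, abs_neg]
      ring
    rw [this]
    ring
  have hgoeq : ∀ x, go x = 2 * cg + ∫ t in (0:ℝ)..x, (m - l - v |t|) * fo t := by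
    intro x
    simp only [hgo]
    rw [hg'2 x, hg'2 (-x), hrefl]
    have : ∫ t in (0:ℝ)..x, (m - l - v |t|) * fo t =
        (∫ t in (0:ℝ)..x, (m - l - v |t|) * f' t) - ∫ t in (0:ℝ)..x, (m - l - v |-t|) * f' (-t) := by
      rw [← intervalIntegral.integral_sub (hiw' x) (hineg _ hiw' x)]
      refine intervalIntegral.integral_congr fun t _ => ?_
      simp only [hfo, abs_neg]
      ring
    rw [this]
    ring
  have hgoi : ∀ x, IntervalIntegrable (fun t => (m + l + v |t|) * go t) volume 0 x := by
    intro x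
    have := (hiw x).add (hineg _ hiw x)
    refine this.congr fun t _ => ?_
    simp only [hgo, abs_neg]
    ring
  have hfoi : ∀ x, IntervalIntegrable (fun t => (m - l - v |t|) * fo t) volume 0 x := by
    intro x
    have := (hiw' x).sub (hineg _ hiw' x)
    refine this.congr fun t _ => ?_
    simp only [hfo, abs_neg]
    ring
  have hfoacd : ∀ R, 0 < R → ACD fo (fun r => (m + l + v r) * go r) 0 R := by
    intro R hR
    refine (ACD.of_integral (hgoi R) left_mem_uIcc (fun x _ => hfoeq x) hR).congr_der' fun x hx => ?_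
    rw [uIcc_of_le hR.le] at hx
    rw [abs_of_nonneg hx.1]
  have hgoacd : ∀ R, 0 < R → ACD go (fun r => (m - l - v r) * fo r) 0 R := by
    intro R hR
    refine (ACD.of_integral (hfoi R) left_mem_uIcc (fun x _ => hgoeq x) hR).congr_der' fun x hx => ?_
    rw [uIcc_of_le hR.le] at hx
    rw [abs_of_nonneg hx.1]
  have hfo0 : fo 0 = 0 := by simp [hfo]
  have hcont : ∀ u w : ℝ → ℝ, ∀ c : ℝ, (∀ x, IntervalIntegrable w volume 0 x) →
      (∀ x, u x = c + ∫ t in (0:ℝ)..x, w t) → Continuous u := by
    intro u w c hw hu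
    have : u = fun x => c + ∫ t in (0:ℝ)..x, w t := funext hu
    rw [this]
    exact continuous_const.add (intervalIntegral.continuous_primitive
      (fun a b => ((hw a).symm).trans (hw b)) 0)
  have hf'c : Continuous f' := hcont _ _ _ hiw hf'2
  have hg'c : Continuous g' := hcont _ _ _ hiw' hg'2
  have hoL2 : IntegrableOn (fun r => fo r ^ 2 + go r ^ 2) (Ioi 0) := by
    have h1 : Integrable (fun x => 2 * (f' x ^ 2 + f' (-x) ^ 2) + 2 * (g' x ^ 2 + g' (-x) ^ 2)) :=
      ((hf'i.add hf'i.comp_neg).const_mul 2).add ((hg'i.add hg'i.comp_neg).const_mul 2)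
    refine (h1.integrableOn).mono' ?_ (ae_of_all _ fun x => ?_)
    · exact (by fun_prop : Continuous fun r => fo r ^ 2 + go r ^ 2).aestronglyMeasurable
    · rw [Real.norm_eq_abs, abs_of_nonneg (by positivity)]
      simp only [hfo, hgo]
      nlinarith [sq_nonneg (f' x + f' (-x)), sq_nonneg (g' x - g' (-x))]
  have hzero := odd_zero hv hm hl hF hfoacd hgoacd hfo0 hoL2
  have hsymf : ∀ x, 0 ≤ x → f' (-x) = f' x := fun x hx => by
    have := (hzero x hx).1; simp only [hfo] at this; linarith
  have hsymg : ∀ x, 0 ≤ x → g' (-x) = -g' x := fun x hx => by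
    have := (hzero x hx).2; simp only [hgo] at this; linarith
  have hg'0 : g' 0 = 0 := by have := hsymg 0 le_rfl; simp at this; linarith
  have hsys := FF_sys (ν := 0) hv hm hl.le
  -- proportionality
  obtain ⟨c, hc⟩ := prop_of_wronskian (ν := 0) hv hm hl hF (f := f') (q := g')
    (by
      intro a b ha hab
      have h1 : ACD f' (fun r => (m + l + v |r|) * g' r) 0 b :=
        ACD.of_integral (hiw b) left_mem_uIcc (fun x _ => hf'2 x) (ha.trans hab)
      refine (h1.mono ?_).congr_der' fun x hx => ?_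
      · rw [uIcc_of_le hab.le, uIcc_of_le (ha.trans hab).le]; exact Icc_subset_Icc ha.le le_rfl
      · rw [uIcc_of_le hab.le] at hx
        rw [abs_of_nonneg (ha.le.trans hx.1), cA0])
    (by
      intro a b ha hab
      have h1 : ACD g' (fun r => (m - l - v |r|) * f' r) 0 b :=
        ACD.of_integral (hiw' b) left_mem_uIcc (fun x _ => hg'2 x) (ha.trans hab)
      refine (h1.mono ?_).congr_der' fun x hx => ?_
      · rw [uIcc_of_le hab.le, uIcc_of_le (ha.trans hab).le]; exact Icc_subset_Icc ha.le le_rfl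
      · rw [uIcc_of_le hab.le] at hx
        rw [abs_of_nonneg (ha.le.trans hx.1), cB0])
    (by
      intro ε hε
      have h1 := (hsys.hF 1 one_pos).continuousOn
      have h2 := (hsys.hH 1 one_pos).continuousOn
      rw [uIcc_of_le zero_le_one] at h1 h2
      have h3 : ContinuousWithinAt (fun s => f' s * HH 0 m l v s - g' s * FF 0 m l v s) (Icc 0 1) 0 :=
        (hf'c.continuousWithinAt.mul (h2 0 (left_mem_Icc.2 zero_le_one))).sub
          (hg'c.continuousWithinAt.mul (h1 0 (left_mem_Icc.2 zero_le_one)))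
      obtain ⟨d, hd, h4⟩ := (Metric.continuousWithinAt_iff.1 h3) ε hε
      refine ⟨min (d / 2) 1, by positivity, ?_⟩
      have h5 := @h4 (min (d / 2) 1) ⟨by positivity, min_le_right _ _⟩ (by
        rw [Real.dist_eq, sub_zero, abs_of_pos (by positivity)]
        exact lt_of_le_of_lt (min_le_left _ _) (by linarith))
      rw [HH_zero hv hm hl.le, hg'0, Real.dist_eq] at h5
      simpa using h5)
  have hne : ∀ᵐ x : ℝ, x ≠ 0 := by simp [ae_iff, measure_singleton]
  refine ⟨c, ?_, ?_⟩
  · filter_upwards [hff', hne] with x hx hx0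
    rw [hx]
    rcases lt_or_gt_of_ne hx0 with h | h
    · have h1 := hsymf (-x) (by linarith)
      rw [neg_neg] at h1
      rw [h1, (hc (-x) (by linarith)).1, abs_of_neg h]
    · rw [(hc x h).1, abs_of_pos h]
  · filter_upwards [hgg', hne] with x hx hx0
    rw [hx]
    rcases lt_or_gt_of_ne hx0 with h | h
    · have h1 := hsymg (-x) (by linarith)
      rw [neg_neg] at h1
      rw [h1, (hc (-x) (by linarith)).2, abs_of_neg h]
      field_simp
    · rw [(hc x h).2, abs_of_pos h]
      field_simp

end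

end Pool.Agent.helper84.Dir
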