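import Pool.Agent.helper84.DirPair

open MeasureTheory Set Filter Topology
open scoped NNReal ENNReal ContDiff ComplexConjugate

namespace Pool.Agent.helper84.Dir

noncomputable section

/-- upper component of the radial solution on the line -/
def upL (m l : ℝ) (v : ℝ → ℝ) (x : ℝ) : ℂ := (FF 0 m l v |x| : ℂ)
/-- lower component of the radial solution on the line -/
def loL (m l : ℝ) (v : ℝ → ℝ) (x : ℝ) : ℂ := -((x / |x| * HH 0 m l v |x| : ℝ) : ℂ)

lemma even_int {w : ℝ → ℝ} (hw : IntegrableOn w (Ioi 0)) : Integrable (fun x => w |x|) := by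
  have h1 : IntegrableOn (fun x => w |x|) (Ioi 0) := by
    refine hw.congr_fun (fun x hx => ?_) measurableSet_Ioi
    have : (0:ℝ) < x := hx
    rw [abs_of_pos this]
  have h2 : IntegrableOn (fun x ↦ w |x|) (Iic 0) := by
    rw [← Measure.map_neg_eq_self (volume : Measure ℝ)]
    let m : MeasurableEmbedding fun x : ℝ => -x := (Homeomorph.neg ℝ).measurableEmbedding
    rw [m.integrableOn_map_iff]
    simp_rw [Function.comp_def, abs_neg, neg_preimage, neg_Iic, neg_zero]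
    exact Iff.mpr integrableOn_Ici_iff_integrableOn_Ioi h1
  rw [← integrableOn_univ, ← Iic_union_Ioi (a := (0:ℝ))]
  exact h2.union h1

lemma line_split {f : ℝ → ℂ} (hf : Integrable f) :
    ∫ x, f x = ∫ r in Ioi (0:ℝ), (f r + f (-r)) := by
  rw [integral_add hf.integrableOn hf.comp_neg.integrableOn, integral_comp_neg_Ioi, neg_zero,
    add_comm]
  exact (intervalIntegral.integral_Iic_add_Ioi hf.integrableOn hf.integrableOn).symm

section
variable {m l : ℝ} {v : ℝ → ℝ} {V : ℝ → ℝ} {ψ₁ ψ₂ χ₁ χ₂ : ℝ → ℂ}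

lemma upL_asm (hv : Pot 0 v) (hm : 0 < m) (hl : |l| ≤ m) :
    AEStronglyMeasurable (upL m l v) volume := by
  have h1 : Continuous fun z : ℝ => FF 0 m l v |z| :=
    (FF_cont hv hm hl).comp_continuous continuous_abs fun z => abs_nonneg z
  exact (Complex.continuous_ofReal.comp h1).aestronglyMeasurable

lemma loL_asm (hv : Pot 0 v) (hm : 0 < m) (hl : |l| ≤ m) :
    AEStronglyMeasurable (loL m l v) volume := by
  have h1 : Continuous fun z : ℝ => HH 0 m l v |z| :=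
    (HH_cont hv hm hl).comp_continuous continuous_abs fun z => abs_nonneg z
  have h2 : Measurable fun z : ℝ => z / |z| * HH 0 m l v |z| := by
    refine Measurable.mul ?_ h1.measurable
    exact measurable_id.div measurable_abs
  unfold loL
  exact (Complex.measurable_ofReal.comp h2).neg.aestronglyMeasurable

lemma upL_memLp (hv : Pot 0 v) (hm : 0 < m) (hl : |l| ≤ m)
    (hb : IntegrableOn (fun r => r ^ 0 * FF 0 m l v r ^ 2 + (r ^ 0)⁻¹ * HH 0 m l v r ^ 2) (Ioi 0)) :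
    MemLp (upL m l v) 2 := by
  rw [memLp_two_iff_integrable_sq_norm (upL_asm hv hm hl)]
  refine (even_int hb).mono' ((upL_asm hv hm hl).norm.pow 2) (ae_of_all _ fun x => ?_)
  unfold upL
  rw [Real.norm_eq_abs, abs_of_nonneg (by positivity), Complex.norm_real, Real.norm_eq_abs, sq_abs,
    pow_zero, inv_one, one_mul, one_mul]
  have := sq_nonneg (HH 0 m l v |x|)
  linarith

lemma loL_memLp (hv : Pot 0 v) (hm : 0 < m) (hl : |l| ≤ m)
    (hb : IntegrableOn (fun r => r ^ 0 * FF 0 m l v r ^ 2 + (r ^ 0)⁻¹ * HH 0 m l v r ^ 2) (Ioi 0)) :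
    MemLp (loL m l v) 2 := by
  rw [memLp_two_iff_integrable_sq_norm (loL_asm hv hm hl)]
  refine (even_int hb).mono' ((loL_asm hv hm hl).norm.pow 2) (ae_of_all _ fun x => ?_)
  unfold loL
  rw [Real.norm_eq_abs, abs_of_nonneg (by positivity), norm_neg, Complex.norm_real,
    Real.norm_eq_abs, sq_abs, pow_zero, inv_one, one_mul, one_mul, mul_pow, div_pow, sq_abs]
  have h1 : x ^ 2 / x ^ 2 ≤ 1 := div_self_le_one _
  have h2 := sq_nonneg (HH 0 m l v |x|)
  have h3 := sq_nonneg (FF 0 m l v |x|)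
  nlinarith

lemma line_test_int {A φ : ℝ → ℂ} (hA : LocallyIntegrable A) (hφ : Continuous φ)
    (hc : HasCompactSupport φ) : Integrable (fun z => A z * φ z) := by
  have := hA.integrable_smul_left_of_hasCompactSupport hφ hc
  refine this.congr (ae_of_all _ fun z => ?_)
  simp [mul_comm]

lemma ofReal_test {φ : ℝ → ℝ} (hφ : ContDiff ℝ ∞ φ) (hc : HasCompactSupport φ) :
    ContDiff ℝ ∞ (fun x => (φ x : ℂ)) ∧ HasCompactSupport (fun x => (φ x : ℂ)) ∧
    ∀ x, deriv (fun x => (φ x : ℂ)) x = ((deriv φ x : ℝ) : ℂ) := by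
  refine ⟨Complex.ofRealCLM.contDiff.comp hφ, hc.comp_left Complex.ofReal_zero, fun x => ?_⟩
  exact (((hφ.differentiable (by simp)) x).hasDerivAt.ofReal_comp).deriv

lemma line_real1 (hV : V =ᵐ[volume] fun x => v |x|) (h1 : LocallyIntegrable ψ₁)
    (h2 : LocallyIntegrable ψ₂) (h3 : LocallyIntegrable χ₁)
    (hV1 : LocallyIntegrable (fun z => (V z : ℂ) * ψ₁ z))
    (e1 : ∀ φ : ℝ → ℂ, ContDiff ℝ ∞ φ → HasCompactSupport φ →
      ∫ x, ((m - V x) * ψ₁ x * φ x - ψ₂ x * deriv φ x) = ∫ x, χ₁ x * φ x)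
    (P : ℂ →L[ℝ] ℝ) (φ : ℝ → ℝ) (hφ : ContDiff ℝ ∞ φ) (hc : HasCompactSupport φ) :
    ∫ x, (P (-ψ₂ x) * deriv φ x + ((m - v |x|) * P (ψ₁ x) - P (χ₁ x)) * φ x) = 0 := by
  obtain ⟨hφ', hc', hd⟩ := ofReal_test hφ hc
  have he := e1 _ hφ' hc'
  have hA : LocallyIntegrable (fun z => ((m : ℂ) - V z) * ψ₁ z) := by
    have : (fun z => ((m : ℂ) - V z) * ψ₁ z) = fun z => (m : ℂ) • ψ₁ z - (V z : ℂ) * ψ₁ z := by
      funext z; simp only [smul_eq_mul]; ring
    rw [this]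
    exact (h1.smul (m : ℂ)).sub hV1
  have i1 := line_test_int hA hφ'.continuous hc'
  have i2 := line_test_int h2 (hφ'.continuous_deriv (by simp)) hc'.deriv
  have i3 := line_test_int h3 hφ'.continuous hc'
  have i4 := (i1.sub i2).sub i3
  have h4 : ∫ x, (((m - V x) * ψ₁ x * (φ x : ℂ) - ψ₂ x * deriv (fun x => (φ x : ℂ)) x) -
      χ₁ x * (φ x : ℂ)) = 0 := by
    have := integral_sub (i1.sub i2) i3
    simp only [Pi.sub_apply] at this
    rw [this, he, sub_self]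
  have h5 := P.integral_comp_comm i4
  simp only [Pi.sub_apply] at h5
  rw [h4, map_zero] at h5
  rw [← h5]
  refine integral_congr_ae ?_
  filter_upwards [hV] with x hx
  rw [hx, hd, map_sub, map_sub, P_mul_real, P_mul_real, P_mul_real, map_neg]
  have : ((m : ℂ) - (v |x| : ℂ)) * ψ₁ x = ((m - v |x| : ℝ) : ℂ) * ψ₁ x := by push_cast; ring
  rw [this, P_real_mul]
  ring

lemma line_real2 (hV : V =ᵐ[volume] fun x => v |x|) (h1 : LocallyIntegrable ψ₁)
    (h2 : LocallyIntegrable ψ₂) (h4 : LocallyIntegrable χ₂)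
    (hV2 : LocallyIntegrable (fun z => (V z : ℂ) * ψ₂ z))
    (e2 : ∀ φ : ℝ → ℂ, ContDiff ℝ ∞ φ → HasCompactSupport φ →
      ∫ x, (ψ₁ x * deriv φ x + (-m - V x) * ψ₂ x * φ x) = ∫ x, χ₂ x * φ x)
    (P : ℂ →L[ℝ] ℝ) (φ : ℝ → ℝ) (hφ : ContDiff ℝ ∞ φ) (hc : HasCompactSupport φ) :
    ∫ x, (P (ψ₁ x) * deriv φ x + ((m + v |x|) * P (-ψ₂ x) + P (-χ₂ x)) * φ x) = 0 := by
  obtain ⟨hφ', hc', hd⟩ := ofReal_test hφ hc
  have he := e2 _ hφ' hc'
  have hA : LocallyIntegrable (fun z => (-(m : ℂ) - V z) * ψ₂ z) := by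
    have : (fun z => (-(m : ℂ) - V z) * ψ₂ z) = fun z => (-(m : ℂ)) • ψ₂ z - (V z : ℂ) * ψ₂ z := by
      funext z; simp only [smul_eq_mul]; ring
    rw [this]
    exact (h2.smul (-(m : ℂ))).sub hV2
  have i1 := line_test_int hA hφ'.continuous hc'
  have i2 := line_test_int h1 (hφ'.continuous_deriv (by simp)) hc'.deriv
  have i3 := line_test_int h4 hφ'.continuous hc'
  have i4 := (i2.add i1).sub i3
  have h4 : ∫ x, ((ψ₁ x * deriv (fun x => (φ x : ℂ)) x + (-m - V x) * ψ₂ x * (φ x : ℂ)) -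
      χ₂ x * (φ x : ℂ)) = 0 := by
    have := integral_sub (i2.add i1) i3
    simp only [Pi.add_apply] at this
    rw [this, he, sub_self]
  have h5 := P.integral_comp_comm i4
  simp only [Pi.sub_apply, Pi.add_apply] at h5
  rw [h4, map_zero] at h5
  rw [← h5]
  refine integral_congr_ae ?_
  filter_upwards [hV] with x hx
  rw [hx, hd, map_sub, map_add, P_mul_real, P_mul_real, P_mul_real, map_neg, map_neg]
  have : (-(m : ℂ) - (v |x| : ℂ)) * ψ₂ x = ((-m - v |x| : ℝ) : ℂ) * ψ₂ x := by push_cast; ring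
  rw [this, P_real_mul]
  ring

lemma memLp_P (P : ℂ →L[ℝ] ℝ) (h : MemLp ψ₁ 2) : MemLp (fun x => P (ψ₁ x)) 2 :=
  P.comp_memLp' h

/-- eigenfunctions on the line -/
theorem line_eig (hv : Pot 0 v) (hl : |l| < m)
    (hF : ∀ r, 0 ≤ r → 0 < FF 0 m l v r)
    (hV : V =ᵐ[volume] fun x => v |x|) (h1 : MemLp ψ₁ 2) (h2 : MemLp ψ₂ 2)
    (hV1 : LocallyIntegrable (fun z => (V z : ℂ) * ψ₁ z))
    (hV2 : LocallyIntegrable (fun z => (V z : ℂ) * ψ₂ z))
    (e1 : ∀ φ : ℝ → ℂ, ContDiff ℝ ∞ φ → HasCompactSupport φ →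
      ∫ x, ((m - V x) * ψ₁ x * φ x - ψ₂ x * deriv φ x) = ∫ x, (l * ψ₁ x) * φ x)
    (e2 : ∀ φ : ℝ → ℂ, ContDiff ℝ ∞ φ → HasCompactSupport φ →
      ∫ x, (ψ₁ x * deriv φ x + (-m - V x) * ψ₂ x * φ x) = ∫ x, (l * ψ₂ x) * φ x) :
    ∃ c : ℂ, (ψ₁ =ᵐ[volume] fun z => c * upL m l v z) ∧
      (ψ₂ =ᵐ[volume] fun z => c * loL m l v z) := by
  have hm : 0 < m := lt_of_le_of_lt (abs_nonneg l) hl
  have l1 : LocallyIntegrable ψ₁ := h1.locallyIntegrable (by norm_num)
  have l2 : LocallyIntegrable ψ₂ := h2.locallyIntegrable (by norm_num)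
  have key : ∀ P : ℂ →L[ℝ] ℝ, ∃ c : ℝ, ((fun x => P (ψ₁ x)) =ᵐ[volume] fun x => c * FF 0 m l v |x|) ∧
      ((fun x => P (-ψ₂ x)) =ᵐ[volume] fun x => c * (x / |x| * HH 0 m l v |x|)) := by
    intro P
    have hPV : ∀ {ψ : ℝ → ℂ}, LocallyIntegrable (fun z => (V z : ℂ) * ψ z) →
        LocallyIntegrable (fun x => v |x| * P (ψ x)) := by
      intro ψ hψ
      have : LocallyIntegrable (fun x => P ((V x : ℂ) * ψ x)) := by
        intro x
        obtain ⟨s, hs, hi⟩ := hψ x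
        exact ⟨s, hs, P.integrable_comp hi⟩
      refine locInt_congr ?_ this
      filter_upwards [hV] with x hx
      rw [hx, P_real_mul]
    refine line_core hv hm hl hF (memLp_P P h1) (memLp_P P h2.neg) (hPV hV1) (hPV ?_) ?_ ?_
    · refine hV2.neg.congr (ae_of_all _ fun x => ?_)
      simp
    · intro φ hφ hc
      rw [← line_real1 (m := m) hV l1 l2 (l1.smul (l : ℂ)) hV1 e1 P φ hφ hc]
      congr 1
      funext x
      simp only [Pi.smul_apply, smul_eq_mul, P_real_mul]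
      ring
    · intro φ hφ hc
      rw [← line_real2 (m := m) hV l1 l2 (l2.smul (l : ℂ)) hV2 e2 P φ hφ hc]
      congr 1
      funext x
      simp only [Pi.smul_apply, smul_eq_mul, map_neg, P_real_mul]
      ring
  obtain ⟨cr, r1, r2⟩ := key Complex.reCLM
  obtain ⟨ci, i1, i2⟩ := key Complex.imCLM
  refine ⟨⟨cr, ci⟩, ?_, ?_⟩
  · filter_upwards [r1, i1] with x hr hi
    unfold upL
    refine Complex.ext ?_ ?_
    · simp only [Complex.reCLM_apply] at hr
      rw [hr, Complex.re_mul_ofReal]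
    · simp only [Complex.imCLM_apply] at hi
      rw [hi, Complex.im_mul_ofReal]
  · filter_upwards [r2, i2] with x hr hi
    unfold loL
    have h3 : -ψ₂ x = (⟨cr, ci⟩ : ℂ) * ((x / |x| * HH 0 m l v |x| : ℝ) : ℂ) := by
      refine Complex.ext ?_ ?_
      · simp only [Complex.reCLM_apply] at hr
        rw [hr, Complex.re_mul_ofReal]
      · simp only [Complex.imCLM_apply] at hi
        rw [hi, Complex.im_mul_ofReal]
    rw [mul_neg, ← h3, neg_neg]

end

end

end Pool.Agent.helper84.Dir
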