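import Pool.Agent.helper84.DirLine2

open MeasureTheory Set Filter Topology
open scoped NNReal ENNReal ContDiff ComplexConjugate

namespace Pool.Agent.helper84.Dir

noncomputable section

lemma refl_int (w : ℝ → ℝ) (x : ℝ) : ∫ t in (0:ℝ)..(-x), w t = -∫ t in (0:ℝ)..x, w (-t) := by
  rw [intervalIntegral.integral_comp_neg, neg_zero, intervalIntegral.integral_symm]

lemma refl_ae {Q : ℝ → Prop} (h : ∀ᵐ x, Q x) : ∀ᵐ x : ℝ, Q (-x) := by
  have h1 : Measure.QuasiMeasurePreserving (fun x : ℝ => -x) volume volume :=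
    (Measure.measurePreserving_neg volume).quasiMeasurePreserving
  exact h1.ae h

/-- symmetrised continuous representatives on the half line -/
lemma half_rep {m : ℝ} {v u₁ u₂ c₁ c₂ : ℝ → ℝ} (h1 : LocallyIntegrable u₁)
    (h2 : LocallyIntegrable u₂)
    (hw1 : LocallyIntegrable (fun x => (m - v |x|) * u₁ x - c₁ x))
    (hw2 : LocallyIntegrable (fun x => (m + v |x|) * u₂ x + c₂ x))
    (e1 : ∀ φ : ℝ → ℝ, ContDiff ℝ ∞ φ → HasCompactSupport φ →
      ∫ x, (u₂ x * deriv φ x + ((m - v |x|) * u₁ x - c₁ x) * φ x) = 0)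
    (e2 : ∀ φ : ℝ → ℝ, ContDiff ℝ ∞ φ → HasCompactSupport φ →
      ∫ x, (u₁ x * deriv φ x + ((m + v |x|) * u₂ x + c₂ x) * φ x) = 0) :
    ∃ f g : ℝ → ℝ, (∀ᵐ x : ℝ, f x = u₁ x + u₁ (-x)) ∧ (∀ᵐ x : ℝ, g x = u₂ x - u₂ (-x)) ∧ g 0 = 0 ∧
      Continuous f ∧ Continuous g ∧
      (∀ a b, 0 < a → a < b → ACD f (fun r => (m + v r) * g r + (c₂ r - c₂ (-r))) a b) ∧
      (∀ a b, 0 < a → a < b → ACD g (fun r => (m - v r) * f r - (c₁ r + c₁ (-r))) a b) := by
  obtain ⟨d2, hd2⟩ := dbr isOpen_univ ordConnected_univ (mem_univ (0:ℝ))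
    (h2.locallyIntegrableOn _) (hw1.locallyIntegrableOn _) (fun φ h1 h2 _ => e1 φ h1 h2)
  obtain ⟨d1, hd1⟩ := dbr isOpen_univ ordConnected_univ (mem_univ (0:ℝ))
    (h1.locallyIntegrableOn _) (hw2.locallyIntegrableOn _) (fun φ h1 h2 _ => e2 φ h1 h2)
  set w1 : ℝ → ℝ := fun x => (m - v |x|) * u₁ x - c₁ x with hw1d
  set w2 : ℝ → ℝ := fun x => (m + v |x|) * u₂ x + c₂ x with hw2d
  have hd1' : ∀ᵐ x : ℝ, u₁ x = d1 + ∫ t in (0:ℝ)..x, w2 t := by
    filter_upwards [hd1] with x hx using hx (mem_univ _)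
  have hd2' : ∀ᵐ x : ℝ, u₂ x = d2 + ∫ t in (0:ℝ)..x, w1 t := by
    filter_upwards [hd2] with x hx using hx (mem_univ _)
  have i1 : ∀ x, IntervalIntegrable w1 volume 0 x := fun x => loc_iff hw1
  have i2 : ∀ x, IntervalIntegrable w2 volume 0 x := fun x => loc_iff hw2
  have hineg : ∀ (w : ℝ → ℝ), (∀ x, IntervalIntegrable w volume 0 x) →
      ∀ x, IntervalIntegrable (fun t => w (-t)) volume 0 x := by
    intro w hw x
    have := (hw (-x)).comp_sub_left 0
    simpa using this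
  have j1 : ∀ x, IntervalIntegrable (fun t => w1 t + w1 (-t)) volume 0 x := fun x =>
    (i1 x).add (hineg _ i1 x)
  have j2 : ∀ x, IntervalIntegrable (fun t => w2 t - w2 (-t)) volume 0 x := fun x =>
    (i2 x).sub (hineg _ i2 x)
  set f : ℝ → ℝ := fun x => 2 * d1 + ∫ t in (0:ℝ)..x, (w2 t - w2 (-t)) with hf
  set g : ℝ → ℝ := fun x => 0 + ∫ t in (0:ℝ)..x, (w1 t + w1 (-t)) with hg
  have hfu : ∀ᵐ x : ℝ, f x = u₁ x + u₁ (-x) := by
    filter_upwards [hd1', refl_ae hd1'] with x hx hx'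
    rw [hx, hx', refl_int]
    simp only [hf]
    rw [intervalIntegral.integral_sub (i2 x) (hineg _ i2 x)]
    ring
  have hgu : ∀ᵐ x : ℝ, g x = u₂ x - u₂ (-x) := by
    filter_upwards [hd2', refl_ae hd2'] with x hx hx'
    rw [hx, hx', refl_int]
    simp only [hg]
    rw [intervalIntegral.integral_add (i1 x) (hineg _ i1 x)]
    ring
  refine ⟨f, g, hfu, hgu, by simp [hg], ?_, ?_, ?_, ?_⟩
  · exact continuous_const.add (intervalIntegral.continuous_primitive
      (fun a b => ((j2 a).symm).trans (j2 b)) 0)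
  · exact continuous_const.add (intervalIntegral.continuous_primitive
      (fun a b => ((j1 a).symm).trans (j1 b)) 0)
  · intro a b ha hab
    have h3 : ACD f (fun t => w2 t - w2 (-t)) 0 b :=
      ACD.of_integral (j2 b) left_mem_uIcc (fun x _ => rfl) (ha.trans hab)
    refine (h3.mono ?_).congr_der ?_
    · rw [uIcc_of_le hab.le, uIcc_of_le (ha.trans hab).le]; exact Icc_subset_Icc ha.le le_rfl
    · filter_upwards [hgu] with x hx hxm
      rw [uIcc_of_le hab.le] at hxm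
      have hx0 : 0 < x := ha.trans_le hxm.1
      rw [hx]
      simp only [hw2d, abs_neg, abs_of_pos hx0]
      ring
  · intro a b ha hab
    have h3 : ACD g (fun t => w1 t + w1 (-t)) 0 b :=
      ACD.of_integral (j1 b) left_mem_uIcc (fun x _ => rfl) (ha.trans hab)
    refine (h3.mono ?_).congr_der ?_
    · rw [uIcc_of_le hab.le, uIcc_of_le (ha.trans hab).le]; exact Icc_subset_Icc ha.le le_rfl
    · filter_upwards [hfu] with x hx hxm
      rw [uIcc_of_le hab.le] at hxm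
      have hx0 : 0 < x := ha.trans_le hxm.1
      rw [hx]
      simp only [hw1d, abs_neg, abs_of_pos hx0]
      ring

section
variable {m l : ℝ} {v : ℝ → ℝ} {V : ℝ → ℝ} {ψ₁ ψ₂ χ₁ χ₂ : ℝ → ℂ}

theorem line_pair (hv : Pot 0 v) (hl0 : 0 ≤ l) (hlm : l < m)
    (hF : ∀ r, 0 ≤ r → 0 < FF 0 m l v r)
    (hH : ∃ R₀, 1 ≤ R₀ ∧ ∀ r, R₀ ≤ r → HH 0 m l v r ≤ 0)
    (hV : V =ᵐ[volume] fun x => v |x|) (h1 : MemLp ψ₁ 2) (h2 : MemLp ψ₂ 2)
    (h3 : MemLp χ₁ 2) (h4 : MemLp χ₂ 2)
    (hV1 : LocallyIntegrable (fun z => (V z : ℂ) * ψ₁ z))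
    (hV2 : LocallyIntegrable (fun z => (V z : ℂ) * ψ₂ z))
    (e1 : ∀ φ : ℝ → ℂ, ContDiff ℝ ∞ φ → HasCompactSupport φ →
      ∫ x, ((m - V x) * ψ₁ x * φ x - ψ₂ x * deriv φ x) = ∫ x, χ₁ x * φ x)
    (e2 : ∀ φ : ℝ → ℂ, ContDiff ℝ ∞ φ → HasCompactSupport φ →
      ∫ x, (ψ₁ x * deriv φ x + (-m - V x) * ψ₂ x * φ x) = ∫ x, χ₂ x * φ x) :
    (∫ z, conj (upL m l v z) * χ₁ z) + ∫ z, conj (loL m l v z) * χ₂ z =
      (l : ℂ) * ((∫ z, conj (upL m l v z) * ψ₁ z) + ∫ z, conj (loL m l v z) * ψ₂ z) := by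
  have hm : 0 < m := by linarith
  have hl : |l| < m := by rw [abs_of_nonneg hl0]; exact hlm
  have hsys := FF_sys (ν := 0) hv hm hl.le
  obtain ⟨⟨M, hM0, hM⟩, hb⟩ := reg_bounds hv hm hl0 hlm hF hH
  have hup := upL_memLp hv hm hl.le hb
  have hlo := loL_memLp hv hm hl.le hb
  have hupc : MemLp (fun z => conj (upL m l v z)) 2 := hup.star
  have hloc : MemLp (fun z => conj (loL m l v z)) 2 := hlo.star
  have i1 : Integrable (fun z => conj (upL m l v z) * χ₁ z) := hupc.integrable_mul h3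
  have i2 : Integrable (fun z => conj (loL m l v z) * χ₂ z) := hloc.integrable_mul h4
  have i3 : Integrable (fun z => conj (upL m l v z) * ψ₁ z) := hupc.integrable_mul h1
  have i4 : Integrable (fun z => conj (loL m l v z) * ψ₂ z) := hloc.integrable_mul h2
  have s1 := line_split (i1.add i2)
  have s2 := line_split (i3.add i4)
  simp only [Pi.add_apply] at s1 s2
  rw [← integral_add i1 i2, ← integral_add i3 i4, s1, s2]
  have k1 : IntegrableOn (fun r => (conj (upL m l v r) * χ₁ r + conj (loL m l v r) * χ₂ r) +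
      (conj (upL m l v (-r)) * χ₁ (-r) + conj (loL m l v (-r)) * χ₂ (-r))) (Ioi 0) :=
    (i1.add i2).integrableOn.add (i1.add i2).comp_neg.integrableOn
  have k2 : IntegrableOn (fun r => (conj (upL m l v r) * ψ₁ r + conj (loL m l v r) * ψ₂ r) +
      (conj (upL m l v (-r)) * ψ₁ (-r) + conj (loL m l v (-r)) * ψ₂ (-r))) (Ioi 0) :=
    (i3.add i4).integrableOn.add (i3.add i4).comp_neg.integrableOn
  have l1 : LocallyIntegrable ψ₁ := h1.locallyIntegrable (by norm_num)
  have l2 : LocallyIntegrable ψ₂ := h2.locallyIntegrable (by norm_num)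
  have l3 : LocallyIntegrable χ₁ := h3.locallyIntegrable (by norm_num)
  have l4 : LocallyIntegrable χ₂ := h4.locallyIntegrable (by norm_num)
  have hcu : ∀ r : ℝ, 0 < r → conj (upL m l v r) = (FF 0 m l v r : ℂ) ∧
      conj (upL m l v (-r)) = (FF 0 m l v r : ℂ) ∧ conj (loL m l v r) = -(HH 0 m l v r : ℂ) ∧
      conj (loL m l v (-r)) = (HH 0 m l v r : ℂ) := by
    intro r hr
    unfold upL loL
    rw [abs_neg, abs_of_pos hr, div_self hr.ne', neg_div, div_self hr.ne']
    simp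
  have key : ∀ P : ℂ →L[ℝ] ℝ,
      P (∫ r : ℝ in Ioi 0, ((conj (upL m l v r) * χ₁ r + conj (loL m l v r) * χ₂ r) +
        (conj (upL m l v (-r)) * χ₁ (-r) + conj (loL m l v (-r)) * χ₂ (-r)))) =
      P ((l : ℂ) * ∫ r : ℝ in Ioi 0, ((conj (upL m l v r) * ψ₁ r + conj (loL m l v r) * ψ₂ r) +
        (conj (upL m l v (-r)) * ψ₁ (-r) + conj (loL m l v (-r)) * ψ₂ (-r)))) := by
    intro P
    have hPl : ∀ {ψ : ℝ → ℂ}, LocallyIntegrable ψ → LocallyIntegrable (fun x => P (ψ x)) := by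
      intro ψ hψ x
      obtain ⟨s, hs, hi⟩ := hψ x
      exact ⟨s, hs, P.integrable_comp hi⟩
    have hPV : ∀ {ψ : ℝ → ℂ}, LocallyIntegrable (fun z => (V z : ℂ) * ψ z) →
        LocallyIntegrable (fun x => v |x| * P (ψ x)) := by
      intro ψ hψ
      refine locInt_congr ?_ (hPl hψ)
      filter_upwards [hV] with x hx
      rw [hx, P_real_mul]
    have hV2' : LocallyIntegrable (fun z => (V z : ℂ) * (-ψ₂ z)) := by
      refine hV2.neg.congr (ae_of_all _ fun x => ?_)
      simp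
    obtain ⟨f, g, hf, hg, hg0, hfc, hgc, hfA, hgA⟩ := half_rep (m := m) (v := v)
      (u₁ := fun x => P (ψ₁ x)) (u₂ := fun x => P (-ψ₂ x)) (c₁ := fun x => P (χ₁ x))
      (c₂ := fun x => P (-χ₂ x)) (hPl l1) (hPl l2.neg) (by
        have : (fun x => (m - v |x|) * P (ψ₁ x) - P (χ₁ x)) =
          fun x => (m * P (ψ₁ x) - v |x| * P (ψ₁ x)) - P (χ₁ x) := by funext x; ring
        rw [this]
        exact (((hPl l1).smul m).sub (hPV hV1)).sub (hPl l3)) (by
        have : (fun x => (m + v |x|) * P (-ψ₂ x) + P (-χ₂ x)) =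
          fun x => (m * P (-ψ₂ x) + v |x| * P (-ψ₂ x)) + P (-χ₂ x) := by funext x; ring
        rw [this]
        exact (((hPl l2.neg).smul m).add (hPV hV2')).add (hPl l4.neg))
      (fun φ hφ hc => line_real1 hV l1 l2 l3 hV1 e1 P φ hφ hc)
      (fun φ hφ hc => line_real2 hV l1 l2 l4 hV2 e2 P φ hφ hc)
    have e3 : ∀ᵐ r : ℝ ∂(volume.restrict (Ioi 0)), P ((conj (upL m l v r) * χ₁ r +
        conj (loL m l v r) * χ₂ r) + (conj (upL m l v (-r)) * χ₁ (-r) +
        conj (loL m l v (-r)) * χ₂ (-r))) =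
        r ^ 0 * FF 0 m l v r * (P (χ₁ r) + P (χ₁ (-r))) +
        HH 0 m l v r * (P (-χ₂ r) - P (-χ₂ (-r))) := by
      refine (ae_restrict_iff' measurableSet_Ioi).2 (ae_of_all _ fun r hr => ?_)
      obtain ⟨q1, q2, q3, q4⟩ := hcu r hr
      rw [q1, q2, q3, q4]
      simp only [map_add, neg_mul, map_neg, P_real_mul]
      ring
    have e4 : ∀ᵐ r : ℝ ∂(volume.restrict (Ioi 0)), P ((conj (upL m l v r) * ψ₁ r +
        conj (loL m l v r) * ψ₂ r) + (conj (upL m l v (-r)) * ψ₁ (-r) +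
        conj (loL m l v (-r)) * ψ₂ (-r))) =
        r ^ 0 * FF 0 m l v r * f r + (r ^ 0)⁻¹ * HH 0 m l v r * g r := by
      refine (ae_restrict_iff' measurableSet_Ioi).2 ?_
      filter_upwards [hf, hg] with r hfr hgr hr
      obtain ⟨q1, q2, q3, q4⟩ := hcu r hr
      rw [q1, q2, q3, q4, hfr, hgr]
      simp only [map_add, neg_mul, map_neg, P_real_mul]
      ring
    have c1 := P.integral_comp_comm k1
    have c2 := P.integral_comp_comm k2
    rw [← c1, P_real_mul, ← c2, integral_congr_ae e3, integral_congr_ae e4]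
    have j1 : IntegrableOn (fun r => r ^ 0 * FF 0 m l v r * (P (χ₁ r) + P (χ₁ (-r))) +
        HH 0 m l v r * (P (-χ₂ r) - P (-χ₂ (-r)))) (Ioi 0) :=
      Integrable.congr (P.integrable_comp k1) e3
    have j2 : IntegrableOn (fun r => r ^ 0 * FF 0 m l v r * f r +
        (r ^ 0)⁻¹ * HH 0 m l v r * g r) (Ioi 0) := Integrable.congr (P.integrable_comp k2) e4
    -- square integrability
    have m1 : MemLp (fun x => P (ψ₁ x) + P (ψ₁ (-x))) 2 :=
      (memLp_P P h1).add ((memLp_P P h1).comp_measurePreserving (Measure.measurePreserving_neg volume))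
    have m2 : MemLp (fun x => P (-ψ₂ x) - P (-ψ₂ (-x))) 2 :=
      (memLp_P P h2.neg).sub
        ((memLp_P P h2.neg).comp_measurePreserving (Measure.measurePreserving_neg volume))
    have m1' : Integrable (fun x => f x ^ 2) := by
      refine m1.integrable_sq.congr ?_
      filter_upwards [hf] with x hx
      rw [hx]
    have m2' : Integrable (fun x => g x ^ 2) := by
      refine m2.integrable_sq.congr ?_
      filter_upwards [hg] with x hx
      rw [hx]
    refine pair1 (ν := 0) (v := v) (m := m)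
      (fun a b ha hab => (hsys.mono ha.le).hF b hab)
      (fun a b ha hab => (hsys.mono ha.le).hH b hab) ?_ ?_ j2 j1 ?_ ?_
    · intro a b ha hab
      refine (hfA a b ha hab).congr_der' fun x _ => ?_
      simp
    · intro a b ha hab
      refine (hgA a b ha hab).congr_der' fun x _ => ?_
      simp
    · intro ε hε δ hδ
      have c1 := (hsys.hF 1 one_pos).continuousOn
      have c2 := (hsys.hH 1 one_pos).continuousOn
      rw [uIcc_of_le zero_le_one] at c1 c2
      have c3 : ContinuousWithinAt (fun s => FF 0 m l v s * g s - HH 0 m l v s * f s) (Icc 0 1) 0 :=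
        ((c1 0 (left_mem_Icc.2 zero_le_one)).mul hgc.continuousWithinAt).sub
          ((c2 0 (left_mem_Icc.2 zero_le_one)).mul hfc.continuousWithinAt)
      obtain ⟨d, hd, h5⟩ := (Metric.continuousWithinAt_iff.1 c3) ε hε
      set s := min (min (d / 2) (δ / 2)) 1 with hs
      have hs0 : 0 < s := by positivity
      have hs1 : s ≤ 1 := min_le_right _ _
      have hsd : s ≤ d / 2 := (min_le_left _ _).trans (min_le_left _ _)
      have hsδ : s ≤ δ / 2 := (min_le_left _ _).trans (min_le_right _ _)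
      refine ⟨s, hs0, by linarith, ?_⟩
      have h6 := @h5 s ⟨hs0.le, hs1⟩ (by
        rw [Real.dist_eq, sub_zero, abs_of_pos hs0]
        linarith)
      rw [HH_zero hv hm hl.le, hg0, Real.dist_eq] at h6
      simpa using h6
    · intro ε hε R
      have hint : IntegrableOn (fun r => (r ^ 0 * FF 0 m l v r ^ 2 + (r ^ 0)⁻¹ * HH 0 m l v r ^ 2) +
          (f r ^ 2 + g r ^ 2)) (Ioi 0) := Integrable.add hb (m1'.integrableOn.add m2'.integrableOn)
      obtain ⟨t, ht, ht2⟩ := seq_infty hint (ε := ε) (R := max R 1) hε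
      have ht1 : 1 ≤ t := (le_max_right _ _).trans ht
      have ht0 : 0 < t := by linarith
      refine ⟨t, (le_max_left _ _).trans ht, ?_⟩
      rw [pow_zero, inv_one, one_mul, one_mul] at ht2
      have e5 := abs_mul_le_sq (FF 0 m l v t) (g t)
      have e6 := abs_mul_le_sq (HH 0 m l v t) (f t)
      have n1 : 0 ≤ FF 0 m l v t ^ 2 := by positivity
      have n2 : 0 ≤ g t ^ 2 := by positivity
      have n3 : 0 ≤ HH 0 m l v t ^ 2 := by positivity
      have n4 : 0 ≤ f t ^ 2 := by positivity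
      have e9 : (FF 0 m l v t ^ 2 + HH 0 m l v t ^ 2) + (f t ^ 2 + g t ^ 2) ≤
          t * ((FF 0 m l v t ^ 2 + HH 0 m l v t ^ 2) + (f t ^ 2 + g t ^ 2)) :=
        le_mul_of_one_le_left (by positivity) ht1
      calc |FF 0 m l v t * g t - HH 0 m l v t * f t| ≤
            |FF 0 m l v t * g t| + |HH 0 m l v t * f t| := abs_sub _ _
        _ < ε := by linarith
  refine Complex.ext ?_ ?_
  · exact key Complex.reCLM
  · exact key Complex.imCLM

end

end

end Pool.Agent.helper84.Dir
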