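import Pool.Agent.helper84.DirHalf

open MeasureTheory Set Filter Topology
open scoped NNReal

namespace Pool.Agent.helper84.Dir

section
variable {v : ℝ → ℝ} {m l : ℝ}

lemma cA0 (t : ℝ) : cA 0 m l v t = m + l + v t := by simp [cA]
lemma cB0 (t : ℝ) : cB 0 m l v t = m - l - v t := by simp [cB]

/-- lower bound for `H/F` on the half line in dimension one -/
lemma lower_all (hv : Pot 0 v) (hm : 0 < m) (hl : |l| < m)
    (hF : ∀ r, 0 ≤ r → 0 < FF 0 m l v r) :
    ∃ K, 0 ≤ K ∧ ∀ r, 0 ≤ r → -K * FF 0 m l v r ≤ HH 0 m l v r := by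
  obtain ⟨hl1, hl2⟩ := abs_lt.1 hl
  have hml : 0 < m + l := by linarith
  have hml' : 0 < m - l := by linarith
  have hsys := FF_sys (ν := 0) hv hm hl.le
  set F := FF 0 m l v
  set H := HH 0 m l v
  set K := Real.sqrt ((m - l) / (m + l)) with hK
  have hK0 : 0 ≤ K := Real.sqrt_nonneg _
  have hK2 : K ^ 2 * (m + l) = m - l := by
    rw [hK, Real.sq_sqrt (by positivity), div_mul_cancel₀ _ hml.ne']
  refine ⟨K, hK0, fun r₀ hr₀ => ?_⟩
  by_contra hcon
  push Not at hcon
  set c := K * (m + l) with hc
  have hc0 : 0 ≤ c := by positivity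
  set E : ℝ → ℝ := fun r => H r + K * F r with hE
  have hE0 : E r₀ < 0 := by simp only [hE]; linarith
  have hs := hsys.mono hr₀
  have hEacd : ∀ R, r₀ < R → ACD E (fun r => (m - l - v r) * F r + K * ((m + l + v r) * H r)) r₀ R := by
    intro R hR
    refine ((hs.hH R hR).add ((hs.hF R hR).const_mul K)).congr_der' fun x _ => ?_
    rw [cA0, cB0]
  have hexp : ∀ R, r₀ < R → ACD (fun r => Real.exp (-c * r)) (fun r => Real.exp (-c * r) * (-c)) r₀ R := by
    intro R hR
    refine ACD.of_hasDerivAt (fun x _ => ?_) ?_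
    · have := ((hasDerivAt_id x).const_mul (-c)).exp
      simpa using this
    · exact (by fun_prop : Continuous fun r : ℝ => Real.exp (-c * r) * (-c)).continuousOn
  -- comparison on an interval where H < 0
  have hcomp : ∀ R, r₀ < R → (∀ r, r₀ ≤ r → r < R → H r < 0) → E R ≤ E r₀ * Real.exp (c * (R - r₀)) := by
    intro R hR hneg
    have h1 := ((hEacd R hR).mul (hexp R hR)).integral_mono_le (u := fun _ => 0) hR.le
      (by simp) (by
        have hne : ∀ᵐ x : ℝ, x ≠ R := by simp [ae_iff, measure_singleton]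
        filter_upwards [hne] with x hxR hx
        have hx1 : x < R := lt_of_le_of_ne hx.2 hxR
        have hHx := hneg x hx.1.le hx1
        have hFx := hF x (hr₀.trans hx.1.le)
        have hvx := hv.pos x
        have e : (m - l - v x) * F x + K * ((m + l + v x) * H x) - c * E x =
            v x * (K * H x - F x) := by
          simp only [hE, hc]
          have : (m - l) * F x = K ^ 2 * (m + l) * F x := by rw [hK2]
          linear_combination this
        have h2 : v x * (K * H x - F x) ≤ 0 :=
          mul_nonpos_of_nonneg_of_nonpos hvx (by nlinarith)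
        have h3 := Real.exp_pos (-c * x)
        have h4 : ((m - l - v x) * F x + K * ((m + l + v x) * H x)) * Real.exp (-c * x) +
            E x * (Real.exp (-c * x) * (-c)) = (((m - l - v x) * F x + K * ((m + l + v x) * H x)) -
              c * E x) * Real.exp (-c * x) := by ring
        rw [h4, e]
        exact mul_nonpos_of_nonpos_of_nonneg h2 h3.le)
    simp only [intervalIntegral.integral_zero] at h1
    have h5 : E R * Real.exp (-c * R) ≤ E r₀ * Real.exp (-c * r₀) := by linarith
    have h6 : E R = E R * Real.exp (-c * R) * Real.exp (c * R) := by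
      rw [mul_assoc, ← Real.exp_add]; simp
    rw [h6]
    calc E R * Real.exp (-c * R) * Real.exp (c * R) ≤
          E r₀ * Real.exp (-c * r₀) * Real.exp (c * R) :=
          mul_le_mul_of_nonneg_right h5 (Real.exp_pos _).le
      _ = E r₀ * Real.exp (c * (R - r₀)) := by rw [mul_assoc, ← Real.exp_add]; ring_nf
  have hH0 : H r₀ < 0 := by
    have := hF r₀ hr₀
    have h2 : 0 ≤ K * F r₀ := by positivity
    linarith
  have hHneg : ∀ r, r₀ ≤ r → H r < 0 := by
    intro R hR
    rcases eq_or_lt_of_le hR with e | hlt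
    · rw [← e]; exact hH0
    by_contra hcon2
    push Not at hcon2
    have hcont : ContinuousOn (fun r => -H r) (Icc r₀ R) := by
      have := (hs.hH R hlt).continuousOn
      rw [uIcc_of_le hlt.le] at this
      exact this.neg
    obtain ⟨T, hT1, hT2, hT3, hT4⟩ := exists_first (F := fun r => -H r) hlt hcont
      (by show 0 < -H r₀; linarith) (by show -H R ≤ 0; linarith)
    have h1 := hcomp T hT1 (fun r h1 h2 => by have := hT4 r h1 h2; linarith)
    have h2 : E r₀ * Real.exp (c * (T - r₀)) < 0 := mul_neg_of_neg_of_pos hE0 (Real.exp_pos _)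
    have h3 : 0 ≤ E T := by
      have := hF T (hr₀.trans hT1.le)
      have h4 : 0 ≤ K * F T := by positivity
      simp only [hE]
      have : -H T ≤ 0 := hT3
      linarith
    linarith
  have hEle : ∀ r, r₀ < r → E r ≤ E r₀ := by
    intro r hr
    have h1 := hcomp r hr (fun x h1 _ => hHneg x h1)
    have h2 : (1:ℝ) ≤ Real.exp (c * (r - r₀)) := Real.one_le_exp (by
      have : 0 ≤ r - r₀ := by linarith
      positivity)
    nlinarith
  set R := r₀ + (F r₀ + 1) / ((m + l) * (-E r₀)) with hR
  have hFr := hF r₀ hr₀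
  have hRr : r₀ < R := by
    have : 0 < (F r₀ + 1) / ((m + l) * (-E r₀)) := by
      have : 0 < -E r₀ := by linarith
      positivity
    linarith
  have h1 := (hs.hF R hRr).integral_mono_le (u := fun _ => (m + l) * E r₀) hRr.le (by simp)
    (ae_of_all _ fun x hx => by
      rw [cA0]
      have h2 := hEle x hx.1
      have h3 := hHneg x hx.1.le
      have h4 := hF x (hr₀.trans hx.1.le)
      have h5 : H x ≤ E r₀ := by
        have : 0 ≤ K * F x := by positivity
        simp only [hE] at h2 ⊢
        linarith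
      have h6 := hv.pos x
      nlinarith)
  rw [intervalIntegral.integral_const, smul_eq_mul] at h1
  have h2 : (R - r₀) * ((m + l) * E r₀) = -(F r₀ + 1) := by
    simp only [hR]
    have : E r₀ ≠ 0 := hE0.ne
    field_simp
    ring
  have h3 := hF R (hr₀.trans hRr.le)
  linarith

/-- solutions vanishing at the origin in the first component -/
lemma odd_zero (hv : Pot 0 v) (hm : 0 < m) (hl : |l| < m)
    (hF : ∀ r, 0 ≤ r → 0 < FF 0 m l v r) {f g : ℝ → ℝ}
    (hf : ∀ R, 0 < R → ACD f (fun r => (m + l + v r) * g r) 0 R)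
    (hg : ∀ R, 0 < R → ACD g (fun r => (m - l - v r) * f r) 0 R) (hf0 : f 0 = 0)
    (hL2 : IntegrableOn (fun r => f r ^ 2 + g r ^ 2) (Ioi 0)) :
    ∀ r, 0 ≤ r → f r = 0 ∧ g r = 0 := by
  obtain ⟨hl1, hl2⟩ := abs_lt.1 hl
  have hml : 0 < m + l := by linarith
  have hsys := FF_sys (ν := 0) hv hm hl.le
  obtain ⟨K, hK0, hK⟩ := lower_all hv hm hl hF
  set F := FF 0 m l v
  set H := HH 0 m l v
  set P : ℝ → ℝ := fun r => H r * (F r)⁻¹ with hP
  have hPK : ∀ r, 0 ≤ r → -K ≤ P r := by
    intro r hr
    simp only [hP]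
    rw [← div_eq_mul_inv, le_div_iff₀ (hF r hr)]
    exact hK r hr
  have hPacd : ∀ R, 0 < R → ACD P (fun r => (m - l - v r) - (m + l + v r) * P r ^ 2) 0 R := by
    intro R hR
    have hpos : ∀ x ∈ uIcc 0 R, 0 < F x := fun x hx => by
      rw [uIcc_of_le hR.le] at hx; exact hF x hx.1
    refine ((hsys.hH R hR).mul ((hsys.hF R hR).inv hpos)).congr_der' fun x hx => ?_
    have := hpos x hx
    rw [cA0, cB0]
    simp only [hP]
    field_simp
    ring
  set W : ℝ → ℝ := fun r => f r * g r - P r * (f r * f r) with hW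
  have hWacd : ∀ R, 0 < R → ACD W (fun r => (m + l + v r) * (g r - P r * f r) ^ 2) 0 R := by
    intro R hR
    refine (((hf R hR).mul (hg R hR)).sub ((hPacd R hR).mul ((hf R hR).mul (hf R hR)))).congr_der'
      fun x _ => ?_
    ring
  have hW0 : W 0 = 0 := by simp [hW, hf0]
  have hWmono : ∀ r s, 0 ≤ r → r ≤ s → W r ≤ W s := by
    intro r s hr hrs
    rcases eq_or_lt_of_le hrs with e | hlt
    · rw [e]
    refine ((hWacd s (lt_of_le_of_lt hr hlt)).mono (c := r) (d := s) ?_).le_of_nonneg hrs
      (ae_of_all _ fun x _ => ?_)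
    · rw [uIcc_of_le hrs, uIcc_of_le (hr.trans hrs)]
      exact Icc_subset_Icc hr le_rfl
    · have := hv.pos x
      have : 0 < m + l + v x := by linarith
      positivity
  have hWle : ∀ r, 0 ≤ r → ∀ ε : ℝ, 0 < ε → W r ≤ ε := by
    intro r hr ε hε
    obtain ⟨t, ht, ht2⟩ := seq_infty hL2 (ε := ε / (K + 1)) (R := max r 1) (by positivity)
    have ht1 : 1 ≤ t := (le_max_right _ _).trans ht
    have htr : r ≤ t := (le_max_left _ _).trans ht
    have h1 : f t ^ 2 + g t ^ 2 ≤ ε / (K + 1) := by
      have : 0 ≤ f t ^ 2 + g t ^ 2 := by positivity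
      nlinarith
    have h2 := hWmono r t hr htr
    have h3 : W t ≤ (K + 1) * (f t ^ 2 + g t ^ 2) := by
      simp only [hW]
      have h4 := hPK t (hr.trans htr)
      have h5 : -P t * (f t * f t) ≤ K * (f t * f t) :=
        mul_le_mul_of_nonneg_right (by linarith) (mul_self_nonneg _)
      have h6 : f t * g t ≤ (f t ^ 2 + g t ^ 2) / 2 := by nlinarith [sq_nonneg (f t - g t)]
      have h7 : 0 ≤ K * g t ^ 2 := by positivity
      nlinarith [sq_nonneg (f t), sq_nonneg (g t)]
    have h4 : (K + 1) * (f t ^ 2 + g t ^ 2) ≤ (K + 1) * (ε / (K + 1)) :=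
      mul_le_mul_of_nonneg_left h1 (by positivity)
    have h5 : (K + 1) * (ε / (K + 1)) = ε := by field_simp
    linarith
  have hWz : ∀ r, 0 ≤ r → W r = 0 := by
    intro r hr
    refine le_antisymm (le_of_forall_pos_le_add fun ε hε => by
      have := hWle r hr ε hε; linarith) ?_
    rw [← hW0]; exact hWmono 0 r le_rfl hr
  -- g = P f
  have hfc : ∀ R, 0 < R → ContinuousOn f (Icc 0 R) := fun R hR => by
    have := (hf R hR).continuousOn; rwa [uIcc_of_le hR.le] at this
  have hgc : ∀ R, 0 < R → ContinuousOn g (Icc 0 R) := fun R hR => by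
    have := (hg R hR).continuousOn; rwa [uIcc_of_le hR.le] at this
  have hPc : ∀ R, 0 < R → ContinuousOn P (Icc 0 R) := fun R hR => by
    have := (hPacd R hR).continuousOn; rwa [uIcc_of_le hR.le] at this
  have hgP : ∀ r, 0 ≤ r → g r - P r * f r = 0 := by
    intro r hr
    by_contra hne
    set R := r + 1 with hR
    have hR0 : 0 < R := by linarith
    have h1 := (hWacd R hR0).integral
    rw [hWz R hR0.le, hWz 0 le_rfl, sub_zero] at h1
    have h2 : (∫ x in (0:ℝ)..R, (m + l) * (g x - P x * f x) ^ 2) ≤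
        ∫ x in (0:ℝ)..R, (m + l + v x) * (g x - P x * f x) ^ 2 := by
      refine intervalIntegral.integral_mono_on hR0.le ?_ (hWacd R hR0).intervalIntegrable ?_
      · refine ii_of_cont hR0.le (ContinuousOn.mul continuousOn_const ?_)
        exact ((hgc R hR0).sub ((hPc R hR0).mul (hfc R hR0))).pow 2
      · intro x _
        have := hv.pos x
        exact mul_le_mul_of_nonneg_right (by linarith) (sq_nonneg _)
    have h3 : 0 < ∫ x in (0:ℝ)..R, (m + l) * (g x - P x * f x) ^ 2 := by
      refine intervalIntegral.integral_pos hR0 ?_ (fun x _ => by positivity)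
        ⟨r, ⟨hr, by linarith⟩, by positivity⟩
      exact ContinuousOn.mul continuousOn_const
        (((hgc R hR0).sub ((hPc R hR0).mul (hfc R hR0))).pow 2)
    linarith
  -- f / F constant
  have hfz : ∀ r, 0 ≤ r → f r = 0 := by
    intro r hr
    rcases eq_or_lt_of_le hr with e | hr0
    · rw [← e]; exact hf0
    have hpos : ∀ x ∈ uIcc 0 r, 0 < F x := fun x hx => by
      rw [uIcc_of_le hr] at hx; exact hF x hx.1
    have h1 := ((hf r hr0).mul ((hsys.hF r hr0).inv hpos)).integral
    have h2 : ∫ x in (0:ℝ)..r, ((m + l + v x) * g x * (F x)⁻¹ +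
        f x * (-(F x ^ 2)⁻¹ * (cA 0 m l v x * H x))) = ∫ x in (0:ℝ)..r, (0:ℝ) := by
      refine intervalIntegral.integral_congr fun x hx => ?_
      have h3 := hpos x hx
      rw [uIcc_of_le hr] at hx
      have h4 : g x = P x * f x := by linarith [hgP x hx.1]
      beta_reduce
      rw [h4, cA0]
      simp only [hP]
      field_simp
      ring
    rw [h2, hf0, zero_mul, sub_zero] at h1
    simp only [intervalIntegral.integral_zero] at h1
    have h3 := hF r hr
    have h4 : f r * (F r)⁻¹ = 0 := h1.symm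
    rcases mul_eq_zero.1 h4 with h5 | h5
    · exact h5
    · exact absurd h5 (inv_ne_zero h3.ne')
  intro r hr
  refine ⟨hfz r hr, ?_⟩
  have := hgP r hr
  rw [hfz r hr, mul_zero, sub_zero] at this
  exact this

end

end Pool.Agent.helper84.Dir
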