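import Pool.Agent.helper84.DirRed

open MeasureTheory Set Filter Topology
open scoped NNReal ENNReal ContDiff Real ComplexConjugate

namespace Pool.Agent.helper84.Dir

noncomputable section

/-- the Hilbert space of square integrable spinors -/
abbrev Sp (E : Type*) [MeasureSpace E] :=
  WithLp 2 (Lp ℂ 2 (volume : Measure E) × Lp ℂ 2 (volume : Measure E))

section abstract

variable {H : Type*} [NormedAddCommGroup H] [InnerProductSpace ℂ H] [CompleteSpace H]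

open LinearPMap in
lemma mem_of_pair {T : H →ₗ.[ℂ] H} (hT : IsSelfAdjoint T) {y w : H}
    (h : ∀ x : T.domain, inner ℂ w (x : H) = inner ℂ y (T x)) :
    ∃ hy : y ∈ T.domain, T ⟨y, hy⟩ = w := by
  have hd := hT.dense_domain
  have hy' : y ∈ (adjoint T).domain := mem_adjoint_domain_of_exists y ⟨w, h⟩
  have h2 : (adjoint T) ⟨y, hy'⟩ = w := adjoint_apply_eq hd _ h
  have h3 : adjoint T = T := isSelfAdjoint_def.1 hT
  exact ⟨h3.le.1 hy', (h3.le.2 rfl).symm.trans h2⟩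

end abstract

section
variable {E : Type*} [MeasureSpace E]

lemma inner_toLp {u : E → ℂ} (hu : MemLp u 2) (f : Lp ℂ 2 (volume : Measure E)) :
    inner ℂ (hu.toLp) f = ∫ z, conj (u z) * f z := by
  rw [L2.inner_def]
  refine integral_congr_ae ?_
  filter_upwards [hu.coeFn_toLp] with z hz
  rw [RCLike.inner_apply, hz, mul_comm]

lemma inner_spinor {u₁ u₂ : E → ℂ} (h1 : MemLp u₁ 2) (h2 : MemLp u₂ 2) (Ψ : Sp E) :
    inner ℂ (WithLp.toLp 2 (h1.toLp, h2.toLp) : Sp E) Ψ =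
      (∫ z, conj (u₁ z) * Ψ.fst z) + ∫ z, conj (u₂ z) * Ψ.snd z := by
  rw [WithLp.prod_inner_apply, ← inner_toLp h1, ← inner_toLp h2]
  rfl

lemma smul_ae {Ψ Φ : Sp E} {l : ℂ} (h : Φ = l • Ψ) :
    ((Φ.fst : E → ℂ) =ᵐ[volume] fun z => l * Ψ.fst z) ∧
    ((Φ.snd : E → ℂ) =ᵐ[volume] fun z => l * Ψ.snd z) := by
  subst h
  constructor
  · rw [WithLp.smul_fst]
    filter_upwards [Lp.coeFn_smul l Ψ.fst] with z hz
    rw [hz]; rfl
  · rw [WithLp.smul_snd]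
    filter_upwards [Lp.coeFn_smul l Ψ.snd] with z hz
    rw [hz]; rfl

lemma toLp_ne_zero {u₁ u₂ : E → ℂ} (h1 : MemLp u₁ 2) (h2 : MemLp u₂ 2)
    (hE : (volume : Measure E) ≠ 0) (hu : ∀ z, u₁ z ≠ 0) :
    (WithLp.toLp 2 (h1.toLp, h2.toLp) : Sp E) ≠ 0 := by
  intro h
  have h3 : h1.toLp = 0 := by
    have := congrArg (fun Ψ : Sp E => Ψ.fst) h
    simpa using this
  have h4 : u₁ =ᵐ[volume] 0 := by
    have h5 := h1.coeFn_toLp
    rw [h3] at h5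
    exact h5.symm.trans (Lp.coeFn_zero _ _ _)
  have h6 : ∀ᵐ z : E, False := by
    filter_upwards [h4] with z hz
    exact hu z hz
  rw [ae_iff] at h6
  simp only [not_false_eq_true, ofPred_true, Measure.measure_univ_eq_zero] at h6
  exact hE h6

end

section two
variable {m l η : ℝ} {V : ℂ → ℝ} {v : ℝ → ℝ}

/-- Dimension two, operator version. -/
theorem op2 (hm : 0 < m) (hη : EtaOK m η) (h25 : η ≤ 2 / 5) (h3 : η ≤ 3 * m / 10)
    (hv : Pot 1 v) (hI : ∫ r in Ioi 0, r ^ 1 * pd v η r ^ (1 + 1) ≤ η ^ (1 + 1))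
    (hV : V =ᵐ[volume] fun z => v ‖z‖) (T : Sp ℂ →ₗ.[ℂ] Sp ℂ) (hT : IsSelfAdjoint T)
    (hV1 : ∀ Ψ : T.domain, LocallyIntegrable (fun z => (V z : ℂ) * (Ψ : Sp ℂ).fst z))
    (hV2 : ∀ Ψ : T.domain, LocallyIntegrable (fun z => (V z : ℂ) * (Ψ : Sp ℂ).snd z))
    (e1 : ∀ Ψ : T.domain, ∀ φ : ℂ → ℂ, ContDiff ℝ ∞ φ → HasCompactSupport φ →
      ∫ z, ((m - V z) * (Ψ : Sp ℂ).fst z * φ z + Complex.I * (Ψ : Sp ℂ).snd z *
        (fderiv ℝ φ z 1 - Complex.I * fderiv ℝ φ z Complex.I)) = ∫ z, (T Ψ).fst z * φ z)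
    (e2 : ∀ Ψ : T.domain, ∀ φ : ℂ → ℂ, ContDiff ℝ ∞ φ → HasCompactSupport φ →
      ∫ z, ((-m - V z) * (Ψ : Sp ℂ).snd z * φ z + Complex.I * (Ψ : Sp ℂ).fst z *
        (fderiv ℝ φ z 1 + Complex.I * fderiv ℝ φ z Complex.I)) = ∫ z, (T Ψ).snd z * φ z)
    (hG : ∀ Ψ : T.domain, ∫⁻ x, ∫⁻ y, Gk 2 (Ψ : Sp ℂ).fst x y < ⊤)
    (hl : |l| < m) (hlow : ∀ l' : ℝ, -m < l' → l' < l → ∀ Ψ : T.domain,
      T Ψ = (l' : ℂ) • (Ψ : Sp ℂ) → (Ψ : Sp ℂ) = 0) :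
    (∀ r, 0 ≤ r → 0 < FF 1 m l v r) ∧ ∀ Ψ : T.domain, T Ψ = (l : ℂ) • (Ψ : Sp ℂ) →
      ∃ c : ℂ, (((Ψ : Sp ℂ).fst : ℂ → ℂ) =ᵐ[volume] fun z => c * up m l v z) ∧
        (((Ψ : Sp ℂ).snd : ℂ → ℂ) =ᵐ[volume] fun z => c * lo m l v z) := by
  obtain ⟨hsm, hs1⟩ := small_of hv hη.pos hI
  have hF : ∀ r, 0 ≤ r → 0 < FF 1 m l v r := by
    refine FF_pos_of_lowest hv hm hη.pos h25 h3 hs1 hl ?_
    intro l' hl0 hl'l hF' hH'
    have hl'm : l' < m := hl'l.trans (abs_lt.1 hl).2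
    have hl'a : |l'| < m := by rw [abs_of_nonneg hl0]; exact hl'm
    have hb := (reg_bounds hv hm hl0 hl'm hF' hH').2
    have hup := up_memLp hv hm hl'a.le hb
    have hlo := lo_memLp hv hm hl'a.le hb
    set Φ : Sp ℂ := WithLp.toLp 2 (hup.toLp, hlo.toLp) with hΦ
    obtain ⟨hy, hy2⟩ := mem_of_pair hT (y := Φ) (w := (l' : ℂ) • Φ) (by
      intro x
      rw [inner_smul_left, hΦ, inner_spinor hup hlo, inner_spinor hup hlo, Complex.conj_ofReal]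
      exact (plane_pair hv hl0 hl'm hF' hH' hV (Lp.memLp _) (Lp.memLp _) (Lp.memLp _)
        (Lp.memLp _) (hV1 x) (hV2 x) (e1 x) (e2 x)).symm)
    have h5 := hlow l' (by linarith) hl'l ⟨Φ, hy⟩ hy2
    refine toLp_ne_zero hup hlo (NeZero.ne _) (fun z => ?_) h5
    unfold up
    have := hF' ‖z‖ (norm_nonneg z)
    exact_mod_cast this.ne'
  refine ⟨hF, fun Ψ hΨ => ?_⟩
  obtain ⟨a1, a2⟩ := smul_ae hΨ
  refine plane_core hv hl hη (fun s t hs hst => hsm s t hs.le hst) hF hV (Lp.memLp _) (Lp.memLp _)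
    (hG Ψ) (hV1 Ψ) (hV2 Ψ) (fun φ hφ hc => ?_) (fun φ hφ hc => ?_)
  · rw [e1 Ψ φ hφ hc]
    refine integral_congr_ae ?_
    filter_upwards [a1] with z hz
    rw [hz]
  · rw [e2 Ψ φ hφ hc]
    refine integral_congr_ae ?_
    filter_upwards [a2] with z hz
    rw [hz]

/-- the ground state profile is square integrable -/
lemma FF_sq_int2 {c : ℂ} (hc : c ≠ 0)
    {ψ : ℂ → ℂ} (hψ : MemLp ψ 2) (he : ψ =ᵐ[volume] fun z => c * up m l v z) :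
    IntegrableOn (fun r => r ^ 1 * FF 1 m l v r ^ 2) (Ioi 1) := by
  have h1 : MemLp (up m l v) 2 := by
    have h2 : MemLp (fun z => c⁻¹ * ψ z) 2 := hψ.const_mul c⁻¹
    refine (memLp_congr_ae ?_).1 h2
    filter_upwards [he] with z hz
    rw [hz]; field_simp
  have h3 := ang_L2 (k := 0) h1
  have h4 : IntegrableOn (fun r => ((2 * π) ^ 2)⁻¹ * (r * ‖ang 0 (up m l v) r‖ ^ 2)) (Ioi 1) :=
    (h3.mono_set (Ioi_subset_Ioi zero_le_one)).const_mul _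
  refine h4.congr_fun (fun r hr => ?_) measurableSet_Ioi
  have hr0 : 0 < r := lt_trans one_pos hr
  have h5 : ang 0 (up m l v) r = ((2 * π : ℝ) : ℂ) * (FF 1 m l v r : ℂ) := by
    unfold ang
    have : (fun θ : ℝ => up m l v (pt r θ) * Complex.exp (-((0 : ℤ) * θ) * Complex.I)) =
        fun _ => (FF 1 m l v r : ℂ) := by
      funext θ; rw [up_pt hr0]; simp
    rw [this, integral_const, μT_univ, Complex.real_smul]
  beta_reduce
  rw [h5, norm_mul, Complex.norm_real, Complex.norm_real, Real.norm_eq_abs, Real.norm_eq_abs,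
    abs_of_pos (by positivity : 0 < 2 * π)]
  have e : (2 * π * |FF 1 m l v r|) ^ 2 = (2 * π) ^ 2 * FF 1 m l v r ^ 2 := by
    rw [mul_pow (2 * π), sq_abs]
  rw [e, pow_one]
  field_simp

end two

section one
variable {m l η : ℝ} {V : ℝ → ℝ} {v : ℝ → ℝ}

/-- Dimension one, operator version. -/
theorem op1 (hm : 0 < m) (hη : EtaOK m η) (h25 : η ≤ 2 / 5) (h3 : η ≤ 3 * m / 10)
    (hv : Pot 0 v) (hI : ∫ r in Ioi 0, r ^ 0 * pd v η r ^ (0 + 1) ≤ η ^ (0 + 1))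
    (hV : V =ᵐ[volume] fun z => v |z|) (T : Sp ℝ →ₗ.[ℂ] Sp ℝ) (hT : IsSelfAdjoint T)
    (hV1 : ∀ Ψ : T.domain, LocallyIntegrable (fun z => (V z : ℂ) * (Ψ : Sp ℝ).fst z))
    (hV2 : ∀ Ψ : T.domain, LocallyIntegrable (fun z => (V z : ℂ) * (Ψ : Sp ℝ).snd z))
    (e1 : ∀ Ψ : T.domain, ∀ φ : ℝ → ℂ, ContDiff ℝ ∞ φ → HasCompactSupport φ →
      ∫ x, ((m - V x) * (Ψ : Sp ℝ).fst x * φ x - (Ψ : Sp ℝ).snd x * deriv φ x) =
        ∫ x, (T Ψ).fst x * φ x)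
    (e2 : ∀ Ψ : T.domain, ∀ φ : ℝ → ℂ, ContDiff ℝ ∞ φ → HasCompactSupport φ →
      ∫ x, ((Ψ : Sp ℝ).fst x * deriv φ x + (-m - V x) * (Ψ : Sp ℝ).snd x * φ x) =
        ∫ x, (T Ψ).snd x * φ x)
    (hl : |l| < m) (hlow : ∀ l' : ℝ, -m < l' → l' < l → ∀ Ψ : T.domain,
      T Ψ = (l' : ℂ) • (Ψ : Sp ℝ) → (Ψ : Sp ℝ) = 0) :
    (∀ r, 0 ≤ r → 0 < FF 0 m l v r) ∧ ∀ Ψ : T.domain, T Ψ = (l : ℂ) • (Ψ : Sp ℝ) →
      ∃ c : ℂ, (((Ψ : Sp ℝ).fst : ℝ → ℂ) =ᵐ[volume] fun z => c * upL m l v z) ∧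
        (((Ψ : Sp ℝ).snd : ℝ → ℂ) =ᵐ[volume] fun z => c * loL m l v z) := by
  obtain ⟨-, hs1⟩ := small_of hv hη.pos hI
  have hF : ∀ r, 0 ≤ r → 0 < FF 0 m l v r := by
    refine FF_pos_of_lowest hv hm hη.pos h25 h3 hs1 hl ?_
    intro l' hl0 hl'l hF' hH'
    have hl'm : l' < m := hl'l.trans (abs_lt.1 hl).2
    have hl'a : |l'| < m := by rw [abs_of_nonneg hl0]; exact hl'm
    have hb := (reg_bounds hv hm hl0 hl'm hF' hH').2
    have hup := upL_memLp hv hm hl'a.le hb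
    have hlo := loL_memLp hv hm hl'a.le hb
    set Φ : Sp ℝ := WithLp.toLp 2 (hup.toLp, hlo.toLp) with hΦ
    obtain ⟨hy, hy2⟩ := mem_of_pair hT (y := Φ) (w := (l' : ℂ) • Φ) (by
      intro x
      rw [inner_smul_left, hΦ, inner_spinor hup hlo, inner_spinor hup hlo, Complex.conj_ofReal]
      exact (line_pair hv hl0 hl'm hF' hH' hV (Lp.memLp _) (Lp.memLp _) (Lp.memLp _)
        (Lp.memLp _) (hV1 x) (hV2 x) (e1 x) (e2 x)).symm)
    have h5 := hlow l' (by linarith) hl'l ⟨Φ, hy⟩ hy2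
    refine toLp_ne_zero hup hlo (NeZero.ne _) (fun z => ?_) h5
    unfold upL
    have := hF' |z| (abs_nonneg z)
    exact_mod_cast this.ne'
  refine ⟨hF, fun Ψ hΨ => ?_⟩
  obtain ⟨a1, a2⟩ := smul_ae hΨ
  refine line_eig hv hl hF hV (Lp.memLp _) (Lp.memLp _)
    (hV1 Ψ) (hV2 Ψ) (fun φ hφ hc => ?_) (fun φ hφ hc => ?_)
  · rw [e1 Ψ φ hφ hc]
    refine integral_congr_ae ?_
    filter_upwards [a1] with z hz
    rw [hz]
  · rw [e2 Ψ φ hφ hc]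
    refine integral_congr_ae ?_
    filter_upwards [a2] with z hz
    rw [hz]

lemma FF_sq_int1 {c : ℂ} (hc : c ≠ 0)
    {ψ : ℝ → ℂ} (hψ : MemLp ψ 2) (he : ψ =ᵐ[volume] fun z => c * upL m l v z) :
    IntegrableOn (fun r => r ^ 0 * FF 0 m l v r ^ 2) (Ioi 1) := by
  have h1 : MemLp (upL m l v) 2 := by
    have h2 : MemLp (fun z => c⁻¹ * ψ z) 2 := hψ.const_mul c⁻¹
    refine (memLp_congr_ae ?_).1 h2
    filter_upwards [he] with z hz
    rw [hz]; field_simp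
  have h3 : Integrable (fun z => ‖upL m l v z‖ ^ 2) := h1.integrable_norm_pow (by norm_num)
  refine (h3.integrableOn (s := Ioi 1)).congr_fun (fun r hr => ?_) measurableSet_Ioi
  have hr0 : 0 < r := lt_trans one_pos hr
  unfold upL
  beta_reduce
  rw [abs_of_pos hr0, Complex.norm_real, Real.norm_eq_abs, sq_abs, pow_zero, one_mul]

end one

section combine
variable {E : Type*} [MeasureSpace E]

lemma sp_ext {Ψ Φ : Sp E} (h1 : (Ψ.fst : E → ℂ) =ᵐ[volume] Φ.fst)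
    (h2 : (Ψ.snd : E → ℂ) =ᵐ[volume] Φ.snd) : Ψ = Φ := by
  have e1 : Ψ.fst = Φ.fst := Lp.ext h1
  have e2 : Ψ.snd = Φ.snd := Lp.ext h2
  exact WithLp.ofLp_injective 2 (Prod.ext e1 e2)

lemma coef_ne_zero {Ψ : Sp E} (hΨ : Ψ ≠ 0) {u w : E → ℂ} {c : ℂ}
    (h1 : (Ψ.fst : E → ℂ) =ᵐ[volume] fun z => c * u z)
    (h2 : (Ψ.snd : E → ℂ) =ᵐ[volume] fun z => c * w z) : c ≠ 0 := by
  rintro rfl
  refine hΨ (sp_ext ?_ ?_)
  · have : ((0 : Sp E).fst : E → ℂ) =ᵐ[volume] 0 := Lp.coeFn_zero _ _ _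
    filter_upwards [h1, this] with z hz hz'
    rw [hz, hz', zero_mul]; rfl
  · have : ((0 : Sp E).snd : E → ℂ) =ᵐ[volume] 0 := Lp.coeFn_zero _ _ _
    filter_upwards [h2, this] with z hz hz'
    rw [hz, hz', zero_mul]; rfl

lemma proportional {Ψ Ψ' : Sp E} {u w : E → ℂ} {c c' : ℂ} (hc : c ≠ 0)
    (h1 : (Ψ.fst : E → ℂ) =ᵐ[volume] fun z => c * u z)
    (h2 : (Ψ.snd : E → ℂ) =ᵐ[volume] fun z => c * w z)
    (h1' : (Ψ'.fst : E → ℂ) =ᵐ[volume] fun z => c' * u z)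
    (h2' : (Ψ'.snd : E → ℂ) =ᵐ[volume] fun z => c' * w z) : Ψ' = (c' / c) • Ψ := by
  obtain ⟨a1, a2⟩ := smul_ae (Ψ := Ψ) (Φ := (c' / c) • Ψ) rfl
  refine sp_ext ?_ ?_
  · filter_upwards [h1, h1', a1] with z hz hz' hz''
    rw [hz', hz'', hz]
    field_simp
  · filter_upwards [h2, h2', a2] with z hz hz' hz''
    rw [hz', hz'', hz]
    field_simp

end combine

/-- local integrability of `V ψ` in the plane -/
lemma loc_mul {V : ℂ → ℝ} {p : ℝ≥0∞} (hp : 2 ≤ p) (hV : MemLp V p) {ψ : ℂ → ℂ} (hψ : MemLp ψ 2) :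
    LocallyIntegrable (fun z => (V z : ℂ) * ψ z) := by
  rw [locallyIntegrable_iff]
  intro K hK
  have : IsFiniteMeasure (volume.restrict K : Measure ℂ) := ⟨by
    rw [Measure.restrict_apply_univ]; exact hK.measure_lt_top⟩
  have h1 : MemLp V 2 (volume.restrict K) := (hV.mono_measure Measure.restrict_le_self).mono_exponent hp
  have h2 : MemLp (fun z => (V z : ℂ)) 2 (volume.restrict K) := h1.ofReal
  exact h2.integrable_mul (hψ.mono_measure Measure.restrict_le_self)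

end

end Pool.Agent.helper84.Dir
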