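import Pool.Agent.helper84.DirPlane2

open MeasureTheory Set Filter Topology
open scoped NNReal ENNReal ContDiff Real ComplexConjugate

namespace Pool.Agent.helper84.Dir

noncomputable section

/-- an integral vanishes if boundary terms of a primitive do -/
lemma zero_of_boundary {B w : ℝ → ℝ} (hB : ∀ a b, 0 < a → a < b → ACD B w a b)
    (hw : IntegrableOn w (Ioi 0))
    (h0 : ∀ ε : ℝ, 0 < ε → ∀ δ : ℝ, 0 < δ → ∃ s, 0 < s ∧ s < δ ∧ |B s| < ε)
    (hi : ∀ ε : ℝ, 0 < ε → ∀ R : ℝ, ∃ t, R ≤ t ∧ |B t| < ε) : ∫ r in Ioi 0, w r = 0 := by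
  have hwi : ∀ x, 0 ≤ x → IntervalIntegrable w volume 0 x := fun x hx =>
    (intervalIntegrable_iff_integrableOn_Ioc_of_le hx).2 (hw.mono_set Ioc_subset_Ioi_self)
  set Φ : ℝ → ℝ := fun x => ∫ t in (0:ℝ)..x, w t with hΦ
  have h1 : Tendsto Φ atTop (𝓝 (∫ r in Ioi 0, w r)) :=
    intervalIntegral_tendsto_integral_Ioi 0 hw tendsto_id
  have h2 : ACD Φ w 0 1 := ACD.of_integral (c := 0) (x₀ := 0) (hwi 1 zero_le_one) left_mem_uIcc
    (by intro x _; simp [hΦ]) one_pos
  have h3 := h2.continuousOn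
  rw [uIcc_of_le zero_le_one] at h3
  set I := ∫ r in Ioi 0, w r with hI
  by_contra hne
  have hIpos : 0 < |I| := abs_pos.2 hne
  obtain ⟨d, hd, h4⟩ := (Metric.continuousWithinAt_iff.1 (h3 0 (left_mem_Icc.2 zero_le_one)))
    (|I| / 4) (by positivity)
  obtain ⟨R, hR⟩ := Metric.tendsto_atTop.1 h1 (|I| / 4) (by positivity)
  obtain ⟨s, hs, hsd, hs2⟩ := h0 (|I| / 4) (by positivity) (min d 1) (by positivity)
  obtain ⟨t, ht, ht2⟩ := hi (|I| / 4) (by positivity) (max R (s + 1))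
  have hst : s < t := by have := (le_max_right R (s+1)).trans ht; linarith
  have h5 := (hB s t hs hst).integral
  have h6 : Φ s + ∫ r in s..t, w r = Φ t := intervalIntegral.integral_add_adjacent_intervals
    (hwi s hs.le) ((hwi t (hs.trans hst).le).mono_set (by
      rw [uIcc_of_le hst.le, uIcc_of_le (hs.trans hst).le]; exact Icc_subset_Icc hs.le le_rfl))
  have h7 := @h4 s ⟨hs.le, (hsd.trans_le (min_le_right _ _)).le⟩ (by
    rw [Real.dist_eq, sub_zero, abs_of_pos hs]; exact hsd.trans_le (min_le_left _ _))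
  have h8 := hR t ((le_max_left _ _).trans ht)
  rw [Real.dist_eq] at h7 h8
  have h9 : Φ 0 = 0 := by simp [hΦ]
  rw [h9, sub_zero] at h7
  have e : I = (Φ s) + (B t - B s) - (Φ t - I) := by rw [← h5]; linarith
  have h10 : |I| ≤ |Φ s| + (|B t| + |B s|) + |Φ t - I| := by
    nth_rewrite 1 [e]
    refine (abs_sub _ _).trans ?_
    refine add_le_add ((abs_add_le _ _).trans (add_le_add le_rfl (abs_sub _ _))) le_rfl
  linarith

lemma abs_mul_le_sq (a b : ℝ) : |a * b| ≤ (a ^ 2 + b ^ 2) / 2 := abs_mul_le_half a b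

/-- one dimensional pairing identity -/
theorem pair1 {ν : ℕ} {m l : ℝ} {v : ℝ → ℝ} {F H f q c₁ c₂ : ℝ → ℝ}
    (hF : ∀ a b, 0 < a → a < b → ACD F (fun r => cA ν m l v r * H r) a b)
    (hH : ∀ a b, 0 < a → a < b → ACD H (fun r => cB ν m l v r * F r) a b)
    (hf : ∀ a b, 0 < a → a < b → ACD f (fun r => (r ^ ν)⁻¹ * (m + v r) * q r + c₂ r) a b)
    (hq : ∀ a b, 0 < a → a < b → ACD q (fun r => r ^ ν * (m - v r) * f r - r ^ ν * c₁ r) a b)
    (hi1 : IntegrableOn (fun r => r ^ ν * F r * f r + (r ^ ν)⁻¹ * H r * q r) (Ioi 0))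
    (hi2 : IntegrableOn (fun r => r ^ ν * F r * c₁ r + H r * c₂ r) (Ioi 0))
    (h0 : ∀ ε : ℝ, 0 < ε → ∀ δ : ℝ, 0 < δ → ∃ s, 0 < s ∧ s < δ ∧ |F s * q s - H s * f s| < ε)
    (hi : ∀ ε : ℝ, 0 < ε → ∀ R : ℝ, ∃ t, R ≤ t ∧ |F t * q t - H t * f t| < ε) :
    ∫ r in Ioi 0, (r ^ ν * F r * c₁ r + H r * c₂ r) =
      l * ∫ r in Ioi 0, (r ^ ν * F r * f r + (r ^ ν)⁻¹ * H r * q r) := by
  have h1 := zero_of_boundary (B := fun r => F r * q r - H r * f r)
    (w := fun r => l * (r ^ ν * F r * f r + (r ^ ν)⁻¹ * H r * q r) -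
      (r ^ ν * F r * c₁ r + H r * c₂ r)) (by
        intro a b ha hab
        refine (((hF a b ha hab).mul (hq a b ha hab)).sub
          ((hH a b ha hab).mul (hf a b ha hab))).congr_der' fun x _ => ?_
        unfold cA cB
        ring) ((Integrable.const_mul hi1 l).sub hi2) h0 hi
  rw [integral_sub (Integrable.const_mul hi1 l) hi2, integral_const_mul] at h1
  linarith

section polar

lemma memLp_polar {G : ℂ → ℂ} (hG : AEStronglyMeasurable G volume) {w : ℝ → ℝ}
    (hw : ∀ r, 0 < r → ∀ θ, ‖G (pt r θ)‖ ^ 2 = w r)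
    (hi : IntegrableOn (fun r => r * w r) (Ioi 0)) : MemLp G 2 := by
  rw [memLp_two_iff_integrable_sq_norm hG]
  refine ⟨hG.norm.pow 2, ?_⟩
  rw [hasFiniteIntegral_iff_ofReal (ae_of_all _ fun _ => by positivity),
    ← lint_polar (fun z => ENNReal.ofReal (‖G z‖ ^ 2))]
  have h1 : Integrable (fun p : ℝ × ℝ => p.1 * w p.1) μP := by
    have : Integrable (fun p : ℝ × ℝ => (fun r => r * w r) p.1 * (fun _ : ℝ => (1:ℝ)) p.2) μP :=
      Integrable.mul_prod hi (integrable_const 1)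
    simpa using this
  have h2 := h1.2
  rw [hasFiniteIntegral_iff_norm] at h2
  refine lt_of_le_of_lt (lintegral_mono_ae ?_) h2
  filter_upwards [pos_ae_μP] with p hp
  rw [← ENNReal.ofReal_mul hp.le, hw p.1 hp]
  exact ENNReal.ofReal_le_ofReal (le_abs_self _)

lemma pair_polar {G χ : ℂ → ℂ} (hG : MemLp G 2) (hχ : MemLp χ 2) {a : ℝ → ℂ} {j : ℤ}
    (ha : ∀ r, 0 < r → ∀ θ : ℝ, conj (G (pt r θ)) = a r * Complex.exp (-(j * θ) * Complex.I)) :
    Integrable (fun r : ℝ => (r : ℂ) * a r * ang j χ r) μR ∧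
    ∫ z, conj (G z) * χ z = ∫ r : ℝ, (r : ℂ) * a r * ang j χ r ∂μR := by
  have hGc : MemLp (fun z => conj (G z)) 2 := hG.star
  have hi : Integrable (fun z => conj (G z) * χ z) := hGc.integrable_mul hχ
  have h1 := integrable_polar hi
  have h2 : ∀ᵐ r : ℝ ∂μR, ∫ θ, (r : ℂ) * (conj (G (pt r θ)) * χ (pt r θ)) ∂μT =
      (r : ℂ) * a r * ang j χ r := by
    filter_upwards [ae_μR.2 (ae_of_all _ fun r (hr : 0 < r) => hr)] with r hr
    unfold ang
    rw [← integral_const_mul]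
    congr 1
    funext θ
    rw [ha r hr θ]
    ring
  refine ⟨h1.integral_prod_left.congr h2, ?_⟩
  rw [← int_polar, ← integral_congr_ae h2]
  exact integral_prod _ h1

end polar

section
variable {m l : ℝ} {v : ℝ → ℝ} {V : ℂ → ℝ} {ψ₁ ψ₂ χ₁ χ₂ : ℂ → ℂ}

lemma conj_up {r : ℝ} (hr : 0 < r) (θ : ℝ) : conj (up m l v (pt r θ)) =
    (FF 1 m l v r : ℂ) * Complex.exp (-((0 : ℤ) * θ) * Complex.I) := by
  rw [up_pt hr]
  simp

lemma conj_lo {r : ℝ} (hr : 0 < r) (θ : ℝ) : conj (lo m l v (pt r θ)) =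
    (Complex.I * ((HH 1 m l v r / r : ℝ) : ℂ)) * Complex.exp (-((1 : ℤ) * θ) * Complex.I) := by
  rw [lo_pt hr, map_mul, map_mul, map_neg, Complex.conj_I, Complex.conj_ofReal, ← Complex.exp_conj,
    map_mul, Complex.conj_ofReal, Complex.conj_I, neg_neg]
  congr 2
  push_cast
  ring

lemma up_memLp (hv : Pot 1 v) (hm : 0 < m) (hl : |l| ≤ m)
    (hb : IntegrableOn (fun r => r ^ 1 * FF 1 m l v r ^ 2 + (r ^ 1)⁻¹ * HH 1 m l v r ^ 2) (Ioi 0)) :
    MemLp (up m l v) 2 := by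
  refine memLp_polar (up_asm hv hm hl) (w := fun r => FF 1 m l v r ^ 2) (fun r hr θ => ?_) ?_
  · rw [up_pt hr, Complex.norm_real, Real.norm_eq_abs, sq_abs]
  · refine hb.mono' ?_ ?_
    · have := ((FF_cont hv hm hl).mono Ioi_subset_Ici_self).aestronglyMeasurable
        measurableSet_Ioi (μ := volume)
      exact (measurable_id.aestronglyMeasurable).mul (this.pow 2)
    · refine (ae_restrict_iff' measurableSet_Ioi).2 (ae_of_all _ fun r hr => ?_)
      have hr0 : 0 < r := hr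
      rw [Real.norm_eq_abs, abs_of_nonneg (by positivity), pow_one]
      have : 0 ≤ r⁻¹ * HH 1 m l v r ^ 2 := by positivity
      linarith

lemma lo_memLp (hv : Pot 1 v) (hm : 0 < m) (hl : |l| ≤ m)
    (hb : IntegrableOn (fun r => r ^ 1 * FF 1 m l v r ^ 2 + (r ^ 1)⁻¹ * HH 1 m l v r ^ 2) (Ioi 0)) :
    MemLp (lo m l v) 2 := by
  refine memLp_polar (lo_asm hv hm hl) (w := fun r => (HH 1 m l v r / r) ^ 2) (fun r hr θ => ?_) ?_
  · rw [lo_pt hr, norm_mul, norm_mul, norm_neg, Complex.norm_I, one_mul, Complex.norm_real,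
      Real.norm_eq_abs, Complex.norm_exp_ofReal_mul_I, mul_one, sq_abs]
  · refine hb.mono' ?_ ?_
    · have h1 := ((HH_cont hv hm hl).mono Ioi_subset_Ici_self).aestronglyMeasurable
        measurableSet_Ioi (μ := volume)
      have h2 : AEStronglyMeasurable (fun r => HH 1 m l v r / r) (volume.restrict (Ioi 0)) :=
        h1.div₀ measurable_id.aestronglyMeasurable
      exact (measurable_id.aestronglyMeasurable).mul (h2.pow 2)
    · refine (ae_restrict_iff' measurableSet_Ioi).2 (ae_of_all _ fun r hr => ?_)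
      have hr0 : 0 < r := hr
      rw [Real.norm_eq_abs, abs_of_nonneg (by positivity), pow_one]
      have e : r * (HH 1 m l v r / r) ^ 2 = r⁻¹ * HH 1 m l v r ^ 2 := by field_simp
      rw [e]
      have : 0 ≤ r * FF 1 m l v r ^ 2 := by positivity
      linarith

theorem plane_pair (hv : Pot 1 v) (hl0 : 0 ≤ l) (hlm : l < m)
    (hF : ∀ r, 0 ≤ r → 0 < FF 1 m l v r)
    (hH : ∃ R₀, 1 ≤ R₀ ∧ ∀ r, R₀ ≤ r → HH 1 m l v r ≤ 0)
    (hV : V =ᵐ[volume] fun z => v ‖z‖) (h1 : MemLp ψ₁ 2) (h2 : MemLp ψ₂ 2)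
    (h3 : MemLp χ₁ 2) (h4 : MemLp χ₂ 2)
    (hV1 : LocallyIntegrable (fun z => (V z : ℂ) * ψ₁ z))
    (hV2 : LocallyIntegrable (fun z => (V z : ℂ) * ψ₂ z))
    (e1 : ∀ φ : ℂ → ℂ, ContDiff ℝ ∞ φ → HasCompactSupport φ →
      ∫ z, ((m - V z) * ψ₁ z * φ z + Complex.I * ψ₂ z *
        (fderiv ℝ φ z 1 - Complex.I * fderiv ℝ φ z Complex.I)) = ∫ z, χ₁ z * φ z)
    (e2 : ∀ φ : ℂ → ℂ, ContDiff ℝ ∞ φ → HasCompactSupport φ →
      ∫ z, ((-m - V z) * ψ₂ z * φ z + Complex.I * ψ₁ z *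
        (fderiv ℝ φ z 1 + Complex.I * fderiv ℝ φ z Complex.I)) = ∫ z, χ₂ z * φ z) :
    (∫ z, conj (up m l v z) * χ₁ z) + ∫ z, conj (lo m l v z) * χ₂ z =
      (l : ℂ) * ((∫ z, conj (up m l v z) * ψ₁ z) + ∫ z, conj (lo m l v z) * ψ₂ z) := by
  have hm : 0 < m := by linarith
  have hl : |l| < m := by rw [abs_of_nonneg hl0]; exact hlm
  have hsys := FF_sys (ν := 1) hv hm hl.le
  obtain ⟨⟨M, hM0, hM⟩, hb⟩ := reg_bounds hv hm hl0 hlm hF hH
  have hup := up_memLp hv hm hl.le hb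
  have hlo := lo_memLp hv hm hl.le hb
  have p1 := pair_polar hup h3 (a := fun r => (FF 1 m l v r : ℂ)) (j := 0) (fun r hr θ => conj_up hr θ)
  have p2 := pair_polar hlo h4 (a := fun r => Complex.I * ((HH 1 m l v r / r : ℝ) : ℂ)) (j := 1)
    (fun r hr θ => conj_lo hr θ)
  have p3 := pair_polar hup h1 (a := fun r => (FF 1 m l v r : ℂ)) (j := 0) (fun r hr θ => conj_up hr θ)
  have p4 := pair_polar hlo h2 (a := fun r => Complex.I * ((HH 1 m l v r / r : ℝ) : ℂ)) (j := 1)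
    (fun r hr θ => conj_lo hr θ)
  rw [p1.2, p2.2, p3.2, p4.2, ← integral_add p1.1 p2.1, ← integral_add p3.1 p4.1]
  have hpos := ae_μR.2 (ae_of_all _ fun r (hr : 0 < r) => hr)
  -- scalar version
  have key : ∀ P : ℂ →L[ℝ] ℝ,
      P (∫ r : ℝ, ((r : ℂ) * (FF 1 m l v r : ℂ) * ang 0 χ₁ r + (r : ℂ) *
        (Complex.I * ((HH 1 m l v r / r : ℝ) : ℂ)) * ang 1 χ₂ r) ∂μR) =
      P ((l : ℂ) * ∫ r : ℝ, ((r : ℂ) * (FF 1 m l v r : ℂ) * ang 0 ψ₁ r + (r : ℂ) *
        (Complex.I * ((HH 1 m l v r / r : ℝ) : ℂ)) * ang 1 ψ₂ r) ∂μR) := by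
    intro P
    obtain ⟨f, g, hf, hg, hfA, hgA⟩ := channel (m := m) hV (h1.locallyIntegrable (by norm_num))
      (h2.locallyIntegrable (by norm_num)) (h3.locallyIntegrable (by norm_num))
      (h4.locallyIntegrable (by norm_num)) hV1 hV2 e1 e2 0 P
    have e3 : ∀ᵐ r : ℝ ∂μR, P ((r : ℂ) * (FF 1 m l v r : ℂ) * ang 0 χ₁ r + (r : ℂ) *
        (Complex.I * ((HH 1 m l v r / r : ℝ) : ℂ)) * ang 1 χ₂ r) =
        r ^ 1 * FF 1 m l v r * P (ang 0 χ₁ r) + HH 1 m l v r * P (Complex.I * ang (0 + 1) χ₂ r) := by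
      filter_upwards [hpos] with r hr
      have hr' : (r : ℂ) ≠ 0 := by exact_mod_cast hr.ne'
      have e : (r : ℂ) * (FF 1 m l v r : ℂ) * ang 0 χ₁ r + (r : ℂ) *
        (Complex.I * ((HH 1 m l v r / r : ℝ) : ℂ)) * ang 1 χ₂ r =
        ((r ^ 1 * FF 1 m l v r : ℝ) : ℂ) * ang 0 χ₁ r + (HH 1 m l v r : ℂ) * (Complex.I * ang 1 χ₂ r) := by
        push_cast; field_simp
      rw [e, map_add, P_real_mul, P_real_mul, zero_add]
    have e4 : ∀ᵐ r : ℝ ∂μR, P ((r : ℂ) * (FF 1 m l v r : ℂ) * ang 0 ψ₁ r + (r : ℂ) *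
        (Complex.I * ((HH 1 m l v r / r : ℝ) : ℂ)) * ang 1 ψ₂ r) =
        r ^ 1 * FF 1 m l v r * f r + (r ^ 1)⁻¹ * HH 1 m l v r * (r * g r) := by
      filter_upwards [hpos, hf, hg] with r hr hfr hgr
      have hr' : (r : ℂ) ≠ 0 := by exact_mod_cast hr.ne'
      have e : (r : ℂ) * (FF 1 m l v r : ℂ) * ang 0 ψ₁ r + (r : ℂ) *
        (Complex.I * ((HH 1 m l v r / r : ℝ) : ℂ)) * ang 1 ψ₂ r =
        ((r ^ 1 * FF 1 m l v r : ℝ) : ℂ) * ang 0 ψ₁ r + (HH 1 m l v r : ℂ) * (Complex.I * ang 1 ψ₂ r) := by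
        push_cast; field_simp
      rw [zero_add] at hgr
      rw [e, map_add, P_real_mul, P_real_mul, hfr, hgr]
      field_simp
    have i1 := P.integrable_comp (p1.1.add p2.1)
    have i2 := P.integrable_comp (p3.1.add p4.1)
    have j1 : IntegrableOn (fun r => r ^ 1 * FF 1 m l v r * P (ang 0 χ₁ r) +
        HH 1 m l v r * P (Complex.I * ang (0 + 1) χ₂ r)) (Ioi 0) := Integrable.congr i1 e3
    have j2 : IntegrableOn (fun r => r ^ 1 * FF 1 m l v r * f r +
        (r ^ 1)⁻¹ * HH 1 m l v r * (r * g r)) (Ioi 0) := Integrable.congr i2 e4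
    have c1 := P.integral_comp_comm (p1.1.add p2.1)
    have c2 := P.integral_comp_comm (p3.1.add p4.1)
    simp only [Pi.add_apply] at c1 c2
    rw [← c1, P_real_mul, ← c2, integral_congr_ae e3, integral_congr_ae e4]
    -- square integrability of f, g
    have s1 := P_int (w := fun r => r) (fun r hr => hr.le) P (ang_asm h1.1) measurable_id
      (ang_L2 (k := 0) h1) hf
    have s2 := P_int (w := fun r => r) (u := fun r => Complex.I * ang (0 + 1) ψ₂ r)
      (fun r hr => hr.le) P (aestronglyMeasurable_const.mul (ang_asm h2.1)) measurable_id (by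
        have := ang_L2 (k := 0 + 1) h2
        refine this.congr_fun (fun r _ => ?_) measurableSet_Ioi
        simp) hg
    refine pair1 (ν := 1) (v := v) (m := m)
      (fun a b ha hab => (hsys.mono ha.le).hF b hab)
      (fun a b ha hab => (hsys.mono ha.le).hH b hab) ?_ ?_ j2 j1 ?_ ?_
    · intro a b ha hab
      refine (hfA a b ha hab).congr_der' fun x hx => ?_
      rw [uIcc_of_le hab.le] at hx
      have hx0 : 0 < x := ha.trans_le hx.1
      push_cast
      field_simp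
      ring
    · intro a b ha hab
      have hid : ACD (fun x : ℝ => x) (fun _ => 1) a b :=
        ACD.of_hasDerivAt (fun x _ => hasDerivAt_id x) continuousOn_const
      refine (hid.mul (hgA a b ha hab)).congr_der' fun x hx => ?_
      rw [uIcc_of_le hab.le] at hx
      have hx0 : 0 < x := ha.trans_le hx.1
      push_cast
      field_simp
      ring
    · intro ε hε δ hδ
      obtain ⟨T, hT, hT2⟩ := HH_near_zero (ν := 1) hv hm hl one_pos
      have hint : IntegrableOn (fun r => r * (f r ^ 2 + g r ^ 2)) (Ioc 0 1) := by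
        refine IntegrableOn.mono_set (t := Ioi 0) ?_ Ioc_subset_Ioi_self
        refine (Integrable.add s1 s2).congr (ae_of_all _ fun r => ?_)
        simp only [Pi.add_apply]
        ring
      obtain ⟨s, hs, hsδ, hs2⟩ := seq_zero one_pos hint
        (ε := (ε / (M + 2)) ^ 2) (δ := min δ (min T 1)) (by positivity) (by positivity)
      have hsT : s ≤ T := (hsδ.trans_le ((min_le_right _ _).trans (min_le_left _ _))).le
      refine ⟨s, hs, hsδ.trans_le (min_le_left _ _), ?_⟩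
      have hH' := hT2 s hs.le hsT
      rw [one_mul, pow_one] at hH'
      have hFs := (hM s hs).1
      have ha : |s * f s| < ε / (M + 2) := by
        refine abs_lt_of_sq_lt_sq ?_ (by positivity)
        nlinarith [sq_nonneg (s * g s)]
      have hb' : |s * g s| < ε / (M + 2) := by
        refine abs_lt_of_sq_lt_sq ?_ (by positivity)
        nlinarith [sq_nonneg (s * f s)]
      have e5 : |HH 1 m l v s * f s| ≤ |s * f s| := by
        rw [abs_mul, abs_mul, abs_of_pos hs]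
        exact mul_le_mul_of_nonneg_right hH' (abs_nonneg _)
      have e6 : |FF 1 m l v s * (s * g s)| ≤ M * |s * g s| := by
        rw [abs_mul]
        exact mul_le_mul_of_nonneg_right hFs (abs_nonneg _)
      have e7 : M * |s * g s| ≤ M * (ε / (M + 2)) := mul_le_mul_of_nonneg_left hb'.le hM0
      have e8 : ε / (M + 2) + M * (ε / (M + 2)) < ε := by
        have : ε / (M + 2) * (M + 2) = ε := by field_simp
        have : 0 < ε / (M + 2) := by positivity
        nlinarith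
      calc |FF 1 m l v s * (s * g s) - HH 1 m l v s * f s| ≤
            |FF 1 m l v s * (s * g s)| + |HH 1 m l v s * f s| := abs_sub _ _
        _ < ε := by linarith
    · intro ε hε R
      have hint : IntegrableOn (fun r => (r ^ 1 * FF 1 m l v r ^ 2 + (r ^ 1)⁻¹ * HH 1 m l v r ^ 2) +
          (r * f r ^ 2 + r * g r ^ 2)) (Ioi 0) := Integrable.add hb (Integrable.add s1 s2)
      obtain ⟨t, ht, ht2⟩ := seq_infty hint (ε := ε) (R := max R 1) hε
      have ht1 : 1 ≤ t := (le_max_right _ _).trans ht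
      have ht0 : 0 < t := by linarith
      refine ⟨t, (le_max_left _ _).trans ht, ?_⟩
      rw [pow_one] at ht2
      have e5 : |FF 1 m l v t * (t * g t)| ≤ (t * FF 1 m l v t ^ 2 + t * g t ^ 2) / 2 := by
        have := mul_le_mul_of_nonneg_left (abs_mul_le_sq (FF 1 m l v t) (g t)) ht0.le
        rw [show FF 1 m l v t * (t * g t) = t * (FF 1 m l v t * g t) by ring, abs_mul,
          abs_of_pos ht0]
        linarith
      have e6 : |HH 1 m l v t * f t| ≤ (t⁻¹ * HH 1 m l v t ^ 2 + t * f t ^ 2) / 2 := by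
        have := mul_le_mul_of_nonneg_left (abs_mul_le_sq (HH 1 m l v t / t) (f t)) ht0.le
        have e7 : HH 1 m l v t * f t = t * (HH 1 m l v t / t * f t) := by field_simp
        have e8 : t * (((HH 1 m l v t / t) ^ 2 + f t ^ 2) / 2) =
          (t⁻¹ * HH 1 m l v t ^ 2 + t * f t ^ 2) / 2 := by field_simp
        rw [e7, abs_mul, abs_of_pos ht0, ← e8]
        exact this
      have n1 : 0 ≤ t * FF 1 m l v t ^ 2 := by positivity
      have n2 : 0 ≤ t * g t ^ 2 := by positivity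
      have n3 : 0 ≤ t⁻¹ * HH 1 m l v t ^ 2 := by positivity
      have n4 : 0 ≤ t * f t ^ 2 := by positivity
      have e9 : (t * FF 1 m l v t ^ 2 + t⁻¹ * HH 1 m l v t ^ 2) + (t * f t ^ 2 + t * g t ^ 2) ≤
          t * ((t * FF 1 m l v t ^ 2 + t⁻¹ * HH 1 m l v t ^ 2) + (t * f t ^ 2 + t * g t ^ 2)) :=
        le_mul_of_one_le_left (by positivity) ht1
      calc |FF 1 m l v t * (t * g t) - HH 1 m l v t * f t| ≤
            |FF 1 m l v t * (t * g t)| + |HH 1 m l v t * f t| := abs_sub _ _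
        _ < ε := by linarith
  refine Complex.ext ?_ ?_
  · exact key Complex.reCLM
  · exact key Complex.imCLM

end

end

end Pool.Agent.helper84.Dir
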