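import Pool.Agent.helper84.DirFour

open MeasureTheory Set Filter Topology
open scoped NNReal ENNReal ContDiff Real ComplexConjugate

namespace Pool.Agent.helper84.Dir

noncomputable section

lemma ang_const_mul {k : ℤ} (c : ℂ) (ψ : ℂ → ℂ) (r : ℝ) :
    ang k (fun z => c * ψ z) r = c * ang k ψ r := by
  unfold ang
  rw [← integral_const_mul]
  congr 1
  funext θ
  ring

lemma P_sq_le (P : ℂ →L[ℝ] ℝ) (z : ℂ) : P z ^ 2 ≤ ‖P‖ ^ 2 * ‖z‖ ^ 2 := by
  rw [← mul_pow, ← sq_abs (P z)]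
  exact pow_le_pow_left₀ (abs_nonneg _) (P.le_opNorm z) 2

lemma P_int {w : ℝ → ℝ} (hw : ∀ r, 0 < r → 0 ≤ w r) (P : ℂ →L[ℝ] ℝ) {u : ℝ → ℂ} {f : ℝ → ℝ}
    (hu : AEStronglyMeasurable u μR) (hwm : Measurable w)
    (hi : IntegrableOn (fun r => w r * ‖u r‖ ^ 2) (Ioi 0))
    (hf : ∀ᵐ r ∂μR, P (u r) = f r) : IntegrableOn (fun r => w r * f r ^ 2) (Ioi 0) := by
  have h1 : Integrable (fun r => ‖P‖ ^ 2 * (w r * ‖u r‖ ^ 2)) μR := Integrable.const_mul hi _
  have h2 : Integrable (fun r => w r * P (u r) ^ 2) μR := by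
    refine h1.mono' ?_ ?_
    · exact hwm.aestronglyMeasurable.mul ((P.continuous.comp_aestronglyMeasurable hu).pow 2)
    · filter_upwards [ae_μR.2 (ae_of_all _ fun r (hr : 0 < r) => hr)] with r hr
      have h3 := hw r hr
      rw [Real.norm_eq_abs, abs_of_nonneg (by positivity)]
      calc w r * P (u r) ^ 2 ≤ w r * (‖P‖ ^ 2 * ‖u r‖ ^ 2) :=
            mul_le_mul_of_nonneg_left (P_sq_le P _) h3
        _ = _ := by ring
  refine Integrable.congr h2 ?_
  filter_upwards [hf] with r hr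
  rw [hr]

/-- data of a channel of an eigenfunction -/
structure ChData (k : ℤ) (m l : ℝ) (v : ℝ → ℝ) (ψ₁ ψ₂ : ℂ → ℂ) (P : ℂ →L[ℝ] ℝ) (f g : ℝ → ℝ) : Prop where
  hf : ∀ᵐ r ∂μR, P (ang k ψ₁ r) = f r
  hg : ∀ᵐ r ∂μR, P (Complex.I * ang (k + 1) ψ₂ r) = g r
  ch : Chan k m l v f g
  int : IntegrableOn (fun r => r * (f r ^ 2 + g r ^ 2)) (Ioi 0)

section
variable {m l : ℝ} {v : ℝ → ℝ} {V : ℂ → ℝ} {ψ₁ ψ₂ : ℂ → ℂ}

theorem exists_chData (hV : V =ᵐ[volume] fun z => v ‖z‖) (h1 : MemLp ψ₁ 2) (h2 : MemLp ψ₂ 2)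
    (hV1 : LocallyIntegrable (fun z => (V z : ℂ) * ψ₁ z))
    (hV2 : LocallyIntegrable (fun z => (V z : ℂ) * ψ₂ z))
    (e1 : ∀ φ : ℂ → ℂ, ContDiff ℝ ∞ φ → HasCompactSupport φ →
      ∫ z, ((m - V z) * ψ₁ z * φ z + Complex.I * ψ₂ z *
        (fderiv ℝ φ z 1 - Complex.I * fderiv ℝ φ z Complex.I)) = ∫ z, (l * ψ₁ z) * φ z)
    (e2 : ∀ φ : ℂ → ℂ, ContDiff ℝ ∞ φ → HasCompactSupport φ →
      ∫ z, ((-m - V z) * ψ₂ z * φ z + Complex.I * ψ₁ z *
        (fderiv ℝ φ z 1 + Complex.I * fderiv ℝ φ z Complex.I)) = ∫ z, (l * ψ₂ z) * φ z)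
    (k : ℤ) (P : ℂ →L[ℝ] ℝ) : ∃ f g, ChData k m l v ψ₁ ψ₂ P f g := by
  have l1 : LocallyIntegrable ψ₁ := h1.locallyIntegrable (by norm_num)
  have l2 : LocallyIntegrable ψ₂ := h2.locallyIntegrable (by norm_num)
  obtain ⟨f, g, hf, hg, hfA, hgA⟩ := channel (m := m) hV l1 l2 (l1.smul (l : ℂ)) (l2.smul (l : ℂ))
    hV1 hV2 e1 e2 k P
  have c1 : ∀ r, P (Complex.I * ang (k + 1) ((l : ℂ) • ψ₂) r) = l * P (Complex.I * ang (k + 1) ψ₂ r) := by
    intro r
    have : ang (k + 1) ((l : ℂ) • ψ₂) r = (l : ℂ) * ang (k + 1) ψ₂ r := ang_const_mul _ _ _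
    rw [this, ← P_real_mul]
    congr 1; ring
  have c2 : ∀ r, P (ang k ((l : ℂ) • ψ₁) r) = l * P (ang k ψ₁ r) := by
    intro r
    have : ang k ((l : ℂ) • ψ₁) r = (l : ℂ) * ang k ψ₁ r := ang_const_mul _ _ _
    rw [this, P_real_mul]
  refine ⟨f, g, hf, hg, ⟨fun a b ha hab => ?_, fun a b ha hab => ?_⟩, ?_⟩
  · refine (hfA a b ha hab).congr_der ?_
    filter_upwards [ae_μR.1 hg] with r hr hrm
    rw [uIcc_of_le hab.le] at hrm
    rw [c1, hr (ha.trans_le hrm.1)]
    ring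
  · refine (hgA a b ha hab).congr_der ?_
    filter_upwards [ae_μR.1 hf] with r hr hrm
    rw [uIcc_of_le hab.le] at hrm
    rw [c2, hr (ha.trans_le hrm.1)]
    ring
  · have i1 := P_int (w := fun r => r) (fun r hr => hr.le) P (ang_asm h1.1) measurable_id
      (ang_L2 (k := k) h1) hf
    have i2 := P_int (w := fun r => r) (u := fun r => Complex.I * ang (k + 1) ψ₂ r)
      (fun r hr => hr.le) P (aestronglyMeasurable_const.mul (ang_asm h2.1)) measurable_id (by
        have := ang_L2 (k := k + 1) h2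
        refine this.congr_fun (fun r _ => ?_) measurableSet_Ioi
        simp) hg
    refine (Integrable.add i1 i2).congr (ae_of_all _ fun r => ?_)
    simp only [Pi.add_apply]
    ring

/-- a nonzero angular momentum channel of an eigenfunction at an energy where the regular radial
solution is positive vanishes. -/
theorem chData_zero (hv : Pot 1 v) (hl : |l| < m) {η : ℝ} (hη : EtaOK m η)
    (hsm : ∀ s t, 0 < s → s ≤ t → ∫ x in s..t, x ^ 1 * pd v η x ^ (1 + 1) ≤ η ^ 2)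
    (hF : ∀ r, 0 ≤ r → 0 < FF 1 m l v r) {k : ℤ} (hk : k ≠ 0) {P : ℂ →L[ℝ] ℝ} {f g : ℝ → ℝ}
    (h : ChData k m l v ψ₁ ψ₂ P f g)
    (hm1 : k = -1 → IntegrableOn (fun r => f r ^ 2) (Ioi 0)) :
    (∀ᵐ r ∂μR, P (ang k ψ₁ r) = 0) ∧ ∀ᵐ r ∂μR, P (Complex.I * ang (k + 1) ψ₂ r) = 0 := by
  obtain ⟨hl1, hl2⟩ := abs_lt.1 hl
  have hkc : (1 ≤ k ∨ k ≤ -2) ∨ k = -1 := by omega
  have hreg : ChanReg k m l v f g := by
    refine ⟨h.ch, fun ε hε R => seq_infty h.int hε, fun ε hε δ hδ => ?_⟩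
    rcases hkc with hk1 | hk1
    · have hkr : (1:ℝ) ≤ k ∨ (k:ℝ) ≤ -2 := by
        rcases hk1 with h | h
        · left; exact_mod_cast h
        · right; exact_mod_cast h
      obtain ⟨s, hs, hsδ, hs2⟩ := reg_gen hv h.ch hl hkr one_pos
        (h.int.mono_set Ioc_subset_Ioi_self) hε (δ := min δ 1) (by positivity)
      have h1 : 0 ≤ f s ^ 2 := sq_nonneg _
      have h2 : 0 ≤ g s ^ 2 := sq_nonneg _
      refine ⟨s, hs, hsδ.trans_le (min_le_left _ _), by linarith, ?_, fun _ => by linarith⟩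
      have h3 := abs_mul_le_half (f s) (g s)
      have h4 : s < 1 := hsδ.trans_le (min_le_right _ _)
      nlinarith [abs_nonneg (f s * g s)]
    · have hkr : (k:ℝ) = -1 := by rw [hk1]; norm_num
      have hch : Chan (-1) m l v f g := by rw [← hkr]; exact h.ch
      have hint : IntegrableOn (fun x => f x ^ 2) (Ioc 0 1) :=
        (hm1 hk1).mono_set Ioc_subset_Ioi_self
      obtain ⟨T, M, hT, hM, hg⟩ := reg_m1_g hv hch hl one_pos hint
      obtain ⟨s, hs, hsδ, hs2⟩ := reg_m1_f hv hch hl one_pos hint hε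
        (δ := min δ (min T (ε / (ε + M)))) (by positivity)
      have hsδ1 : s < δ := hsδ.trans_le (min_le_left _ _)
      have hsT : s < T := hsδ.trans_le ((min_le_right _ _).trans (min_le_left _ _))
      have hse : s < ε / (ε + M) := hsδ.trans_le ((min_le_right _ _).trans (min_le_right _ _))
      refine ⟨s, hs, hsδ1, hs2, ?_, fun h => absurd hkr h⟩
      have h3 := abs_mul_le_half (f s) (g s)
      have h4 := hg s hs hsT
      rw [lt_div_iff₀ (by positivity)] at hse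
      have h5 : |f s * g s| ≤ (ε + M) / 2 := by linarith
      have h6 : s * |f s * g s| ≤ s * ((ε + M) / 2) := mul_le_mul_of_nonneg_left h5 hs.le
      nlinarith
  have hkr : 1 ≤ (k:ℝ) ∨ (k:ℝ) ≤ -2 ∨ (k:ℝ) = -1 := by
    rcases hkc with (h | h) | h
    · left; exact_mod_cast h
    · right; left; exact_mod_cast h
    · right; right; exact_mod_cast h
  have hfz : ∀ x, 0 < x → f x = 0 := by
    intro x hx
    by_contra hne
    exact chan_contra hv hreg hl hη hsm hkr ⟨x, hx, hne⟩ hF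
  have hgz : ∀ᵐ r ∂μR, g r = 0 := by
    rw [ae_μR]
    have h1 : ∀ n : ℕ, ∀ᵐ x : ℝ, x ∈ uIcc (1 / ((n:ℝ) + 1)) (n + 2) →
        HasDerivAt f (k / x * f x + (m + l + v x) * g x) x := by
      intro n
      refine (h.ch.hf (1 / ((n:ℝ) + 1)) (n + 2) (by positivity) ?_).der
      have : 1 / ((n:ℝ) + 1) ≤ 1 := by
        rw [div_le_one (by positivity)]
        have : (0:ℝ) ≤ n := n.cast_nonneg
        linarith
      have : (0:ℝ) ≤ n := n.cast_nonneg
      linarith
    have h2 := ae_all_iff.2 h1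
    filter_upwards [h2] with x hx hx0
    obtain ⟨n, hn⟩ := exists_nat_ge (max x (1 / x))
    have hn1 : x ≤ n := (le_max_left _ _).trans hn
    have hn2 : 1 / x ≤ n := (le_max_right _ _).trans hn
    have h3 := hx n (by
      have h4 : 1 / ((n:ℝ) + 1) ≤ x := by
        rw [div_le_iff₀ hx0] at hn2
        rw [div_le_iff₀ (by positivity)]
        nlinarith
      rw [uIcc_of_le (h4.trans (by linarith))]
      exact ⟨h4, by linarith⟩)
    have h5 : HasDerivAt f 0 x := by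
      refine (hasDerivAt_const x (0:ℝ)).congr_of_eventuallyEq ?_
      filter_upwards [lt_mem_nhds hx0] with y hy using hfz y hy
    have h6 := h3.unique h5
    rw [hfz x hx0, mul_zero, zero_add] at h6
    have h7 := hv.pos x
    rcases mul_eq_zero.1 h6 with h8 | h8
    · linarith
    · exact h8
  constructor
  · filter_upwards [h.hf, ae_μR.2 (ae_of_all _ fun r (hr : 0 < r) => hr)] with r hr hr0
    rw [hr, hfz r hr0]
  · filter_upwards [h.hg, hgz] with r hr hr0
    rw [hr, hr0]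

/-- the channel `k = 0` -/
theorem chData_rad (hv : Pot 1 v) (hl : |l| < m)
    (hF : ∀ r, 0 ≤ r → 0 < FF 1 m l v r) {P : ℂ →L[ℝ] ℝ} {f g : ℝ → ℝ}
    (h : ChData 0 m l v ψ₁ ψ₂ P f g) :
    ∃ c : ℝ, (∀ᵐ r ∂μR, P (ang 0 ψ₁ r) = c * FF 1 m l v r) ∧
      ∀ᵐ r ∂μR, P (Complex.I * ang 1 ψ₂ r) = c * (HH 1 m l v r / r) := by
  have hm : 0 < m := lt_of_le_of_lt (abs_nonneg l) hl
  have hsys := FF_sys (ν := 1) hv hm hl.le
  obtain ⟨c, hc⟩ := prop_of_wronskian (ν := 1) hv hm hl hF (f := f) (q := fun r => r * g r)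
    (by
      intro a b ha hab
      refine (h.ch.hf a b ha hab).congr_der' fun x hx => ?_
      rw [uIcc_of_le hab.le] at hx
      have hx0 : 0 < x := ha.trans_le hx.1
      unfold cA
      push_cast
      field_simp
      ring)
    (by
      intro a b ha hab
      have hid : ACD (fun x : ℝ => x) (fun _ => 1) a b :=
        ACD.of_hasDerivAt (fun x _ => hasDerivAt_id x) continuousOn_const
      refine (hid.mul (h.ch.hg a b ha hab)).congr_der' fun x hx => ?_
      rw [uIcc_of_le hab.le] at hx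
      have hx0 : 0 < x := ha.trans_le hx.1
      unfold cB
      push_cast
      field_simp
      ring)
    (by
      intro ε hε
      have h1 := (hsys.hF 1 one_pos).continuousOn
      rw [uIcc_of_le zero_le_one] at h1
      obtain ⟨M, hM⟩ := isCompact_Icc.exists_bound_of_continuousOn h1
      have hM0 : 0 ≤ M := (norm_nonneg _).trans (hM 0 (left_mem_Icc.2 zero_le_one))
      obtain ⟨T, hT, hT2⟩ := HH_near_zero (ν := 1) hv hm hl one_pos
      obtain ⟨s, hs, hsδ, hs2⟩ := seq_zero one_pos (h.int.mono_set Ioc_subset_Ioi_self)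
        (ε := (ε / (M + 2)) ^ 2) (δ := min T 1) (by positivity) (by positivity)
      have hsT : s ≤ T := (hsδ.trans_le (min_le_left _ _)).le
      have hs1 : s ≤ 1 := (hsδ.trans_le (min_le_right _ _)).le
      refine ⟨s, hs, ?_⟩
      have hH := hT2 s hs.le hsT
      rw [one_mul, pow_one] at hH
      have hFs := hM s ⟨hs.le, hs1⟩
      rw [Real.norm_eq_abs] at hFs
      have ha : |s * f s| < ε / (M + 2) := by
        refine abs_lt_of_sq_lt_sq ?_ (by positivity)
        nlinarith [sq_nonneg (s * g s)]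
      have hb : |s * g s| < ε / (M + 2) := by
        refine abs_lt_of_sq_lt_sq ?_ (by positivity)
        nlinarith [sq_nonneg (s * f s)]
      have e1 : |f s * HH 1 m l v s| ≤ |s * f s| := by
        rw [abs_mul, abs_mul, abs_of_pos hs, mul_comm]
        exact mul_le_mul_of_nonneg_right hH (abs_nonneg _)
      have e2 : |s * g s * FF 1 m l v s| ≤ |s * g s| * M := by
        rw [abs_mul]
        exact mul_le_mul_of_nonneg_left hFs (abs_nonneg _)
      have e3 : |s * g s| * M ≤ ε / (M + 2) * M := mul_le_mul_of_nonneg_right hb.le hM0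
      have e4 : ε / (M + 2) + ε / (M + 2) * M < ε := by
        have : ε / (M + 2) * (M + 2) = ε := by field_simp
        have : 0 < ε / (M + 2) := by positivity
        nlinarith
      calc |f s * HH 1 m l v s - s * g s * FF 1 m l v s| ≤
            |f s * HH 1 m l v s| + |s * g s * FF 1 m l v s| := abs_sub _ _
        _ < ε := by linarith)
  refine ⟨c, ?_, ?_⟩
  · filter_upwards [h.hf, ae_μR.2 (ae_of_all _ fun r (hr : 0 < r) => hr)] with r hr hr0
    rw [hr, (hc r hr0).1]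
  · have hg := h.hg
    filter_upwards [hg, ae_μR.2 (ae_of_all _ fun r (hr : 0 < r) => hr)] with r hr hr0
    have h3 := (hc r hr0).2
    have h4 : g r = c * (HH 1 m l v r / r) := by
      field_simp
      rw [mul_comm]; exact h3
    rw [← h4, ← hr]
    simp

end

end

end Pool.Agent.helper84.Dir
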