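import Pool.Agent.helper84.DirPlane

open MeasureTheory Set Filter Topology
open scoped NNReal ENNReal ContDiff Real ComplexConjugate

namespace Pool.Agent.helper84.Dir

noncomputable section

lemma contOn_Ici {F : ℝ → ℝ} (h : ∀ R, 0 < R → ContinuousOn F (uIcc 0 R)) :
    ContinuousOn F (Ici 0) := by
  intro x hx
  have hx0 : 0 ≤ x := hx
  have h1 := h (x + 1) (by linarith)
  rw [uIcc_of_le (by linarith)] at h1
  have h2 := h1 x ⟨hx0, by linarith⟩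
  refine h2.mono_of_mem_nhdsWithin ?_
  rw [mem_nhdsWithin]
  exact ⟨Iio (x + 1), isOpen_Iio, by simp, fun y hy => ⟨hy.2, (mem_Iio.1 hy.1).le⟩⟩

section
variable {ν : ℕ} {m l : ℝ} {v : ℝ → ℝ}

lemma FF_cont (h : Pot ν v) (hm : 0 < m) (hl : |l| ≤ m) : ContinuousOn (FF ν m l v) (Ici 0) :=
  contOn_Ici fun R hR => ((FF_sys h hm hl).hF R hR).continuousOn

lemma HH_cont (h : Pot ν v) (hm : 0 < m) (hl : |l| ≤ m) : ContinuousOn (HH ν m l v) (Ici 0) :=
  contOn_Ici fun R hR => ((FF_sys h hm hl).hH R hR).continuousOn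

end

section
variable {m l : ℝ} {v : ℝ → ℝ} {V : ℂ → ℝ} {ψ₁ ψ₂ : ℂ → ℂ}

/-- upper component of the radial solution in the plane -/
def up (m l : ℝ) (v : ℝ → ℝ) (z : ℂ) : ℂ := (FF 1 m l v ‖z‖ : ℂ)
/-- lower component of the radial solution in the plane -/
def lo (m l : ℝ) (v : ℝ → ℝ) (z : ℂ) : ℂ :=
  -Complex.I * ((HH 1 m l v ‖z‖ / ‖z‖ ^ 2 : ℝ) : ℂ) * z

lemma up_asm (hv : Pot 1 v) (hm : 0 < m) (hl : |l| ≤ m) :
    AEStronglyMeasurable (up m l v) volume := by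
  have h1 : Continuous fun z : ℂ => FF 1 m l v ‖z‖ :=
    (FF_cont hv hm hl).comp_continuous continuous_norm fun z => norm_nonneg z
  exact (Complex.continuous_ofReal.comp h1).aestronglyMeasurable

lemma lo_asm (hv : Pot 1 v) (hm : 0 < m) (hl : |l| ≤ m) :
    AEStronglyMeasurable (lo m l v) volume := by
  have h1 : Continuous fun z : ℂ => HH 1 m l v ‖z‖ :=
    (HH_cont hv hm hl).comp_continuous continuous_norm fun z => norm_nonneg z
  have h2 : Measurable fun z : ℂ => HH 1 m l v ‖z‖ / ‖z‖ ^ 2 := h1.measurable.div (by fun_prop)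
  unfold lo
  exact ((measurable_const.mul (Complex.measurable_ofReal.comp h2)).mul
    measurable_id).aestronglyMeasurable

lemma up_pt {r : ℝ} (hr : 0 < r) (θ : ℝ) : up m l v (pt r θ) = (FF 1 m l v r : ℂ) := by
  unfold up
  rw [norm_pt, abs_of_pos hr]

lemma lo_pt {r : ℝ} (hr : 0 < r) (θ : ℝ) : lo m l v (pt r θ) =
    -Complex.I * ((HH 1 m l v r / r : ℝ) : ℂ) * Complex.exp (θ * Complex.I) := by
  unfold lo
  rw [norm_pt, abs_of_pos hr]
  unfold pt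
  have hr' : (r : ℂ) ≠ 0 := by exact_mod_cast hr.ne'
  push_cast
  field_simp

theorem plane_core (hv : Pot 1 v) (hl : |l| < m) {η : ℝ} (hη : EtaOK m η)
    (hsm : ∀ s t, 0 < s → s ≤ t → ∫ x in s..t, x ^ 1 * pd v η x ^ (1 + 1) ≤ η ^ 2)
    (hF : ∀ r, 0 ≤ r → 0 < FF 1 m l v r)
    (hV : V =ᵐ[volume] fun z => v ‖z‖) (h1 : MemLp ψ₁ 2) (h2 : MemLp ψ₂ 2)
    (hG : ∫⁻ x, ∫⁻ y, Gk 2 ψ₁ x y < ⊤)
    (hV1 : LocallyIntegrable (fun z => (V z : ℂ) * ψ₁ z))
    (hV2 : LocallyIntegrable (fun z => (V z : ℂ) * ψ₂ z))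
    (e1 : ∀ φ : ℂ → ℂ, ContDiff ℝ ∞ φ → HasCompactSupport φ →
      ∫ z, ((m - V z) * ψ₁ z * φ z + Complex.I * ψ₂ z *
        (fderiv ℝ φ z 1 - Complex.I * fderiv ℝ φ z Complex.I)) = ∫ z, (l * ψ₁ z) * φ z)
    (e2 : ∀ φ : ℂ → ℂ, ContDiff ℝ ∞ φ → HasCompactSupport φ →
      ∫ z, ((-m - V z) * ψ₂ z * φ z + Complex.I * ψ₁ z *
        (fderiv ℝ φ z 1 + Complex.I * fderiv ℝ φ z Complex.I)) = ∫ z, (l * ψ₂ z) * φ z) :
    ∃ c : ℂ, (ψ₁ =ᵐ[volume] fun z => c * up m l v z) ∧ (ψ₂ =ᵐ[volume] fun z => c * lo m l v z) := by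
  have hm : 0 < m := lt_of_le_of_lt (abs_nonneg l) hl
  have hzero : ∀ k : ℤ, k ≠ 0 → (∀ᵐ r ∂μR, ang k ψ₁ r = 0) ∧ ∀ᵐ r ∂μR, ang (k + 1) ψ₂ r = 0 := by
    intro k hk
    have key : ∀ P : ℂ →L[ℝ] ℝ, (∀ᵐ r ∂μR, P (ang k ψ₁ r) = 0) ∧
        ∀ᵐ r ∂μR, P (Complex.I * ang (k + 1) ψ₂ r) = 0 := by
      intro P
      obtain ⟨f, g, h⟩ := exists_chData (m := m) (l := l) hV h1 h2 hV1 hV2 e1 e2 k P
      refine chData_zero hv hl hη hsm hF hk h fun _ => ?_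
      have := P_int (w := fun _ => 1) (fun r hr => zero_le_one) P (ang_asm h1.1) measurable_const
        (by simpa using gag hk h1 hG) h.hf
      simpa using this
    obtain ⟨r1, r2⟩ := key Complex.reCLM
    obtain ⟨i1, i2⟩ := key Complex.imCLM
    constructor
    · filter_upwards [r1, i1] with r hr hi
      exact Complex.ext hr hi
    · filter_upwards [r2, i2] with r hr hi
      have h3 : Complex.I * ang (k + 1) ψ₂ r = 0 := Complex.ext hr hi
      rcases mul_eq_zero.1 h3 with h | h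
      · exact absurd h Complex.I_ne_zero
      · exact h
  have key0 : ∀ P : ℂ →L[ℝ] ℝ, ∃ c : ℝ, (∀ᵐ r ∂μR, P (ang 0 ψ₁ r) = c * FF 1 m l v r) ∧
      ∀ᵐ r ∂μR, P (Complex.I * ang 1 ψ₂ r) = c * (HH 1 m l v r / r) := by
    intro P
    obtain ⟨f, g, h⟩ := exists_chData (m := m) (l := l) hV h1 h2 hV1 hV2 e1 e2 0 P
    exact chData_rad hv hl hF h
  obtain ⟨cr, hcr1, hcr2⟩ := key0 Complex.reCLM
  obtain ⟨ci, hci1, hci2⟩ := key0 Complex.imCLM
  set C : ℂ := ⟨cr, ci⟩ with hC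
  have hpos := ae_μR.2 (ae_of_all _ fun r (hr : 0 < r) => hr)
  have ha1 : ∀ᵐ r ∂μR, ang 0 ψ₁ r = C * (FF 1 m l v r : ℂ) := by
    filter_upwards [hcr1, hci1] with r hr hi
    refine Complex.ext ?_ ?_
    · simp only [Complex.reCLM_apply] at hr
      simp [hr, hC]
    · simp only [Complex.imCLM_apply] at hi
      simp [hi, hC]
  have ha2 : ∀ᵐ r ∂μR, Complex.I * ang 1 ψ₂ r = C * ((HH 1 m l v r / r : ℝ) : ℂ) := by
    filter_upwards [hcr2, hci2] with r hr hi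
    refine Complex.ext ?_ ?_
    · simp only [Complex.reCLM_apply] at hr
      rw [hr, Complex.re_mul_ofReal]
    · simp only [Complex.imCLM_apply] at hi
      rw [hi, Complex.im_mul_ofReal]
  have m1 := plane_mode h1 0 (fun k hk => (hzero k hk).1)
  have m2 := plane_mode h2 1 (fun k hk => by
    have := (hzero (k - 1) (sub_ne_zero.2 hk)).2
    simpa using this)
  have tr : ∀ {Q : ℝ → Prop}, (∀ᵐ r ∂μR, Q r) → ∀ᵐ p ∂μP, Q p.1 := by
    intro Q hQ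
    exact (Measure.quasiMeasurePreserving_fst (μ := μR) (ν := μT)).ae hQ
  have hup := up_asm hv hm hl.le
  have hlo := lo_asm hv hm hl.le
  refine ⟨(2 * π)⁻¹ * C, ?_, ?_⟩
  · refine ae_eq_of_polar h1.1 (aestronglyMeasurable_const.mul hup) ?_
    filter_upwards [m1, tr ha1, tr hpos] with p hp hp1 hp0
    rw [hp, hp1, up_pt hp0]
    push_cast
    simp
    ring_nf
  · refine ae_eq_of_polar h2.1 (aestronglyMeasurable_const.mul hlo) ?_
    filter_upwards [m2, tr ha2, tr hpos] with p hp hp1 hp0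
    have h3 : ang 1 ψ₂ p.1 = -Complex.I * (C * ((HH 1 m l v p.1 / p.1 : ℝ) : ℂ)) := by
      rw [← hp1]
      linear_combination (ang 1 ψ₂ p.1) * Complex.I_sq
    rw [hp, h3, lo_pt hp0]
    push_cast
    ring

end

end

end Pool.Agent.helper84.Dir
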