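import Pool.Agent.helper84.DirLine

open MeasureTheory Set Filter Topology
open scoped NNReal ENNReal ContDiff Real

namespace Pool.Agent.helper84.Dir

noncomputable section

/-- the point with polar coordinates `(r,θ)` -/
def pt (r θ : ℝ) : ℂ := (r : ℂ) * Complex.exp (θ * Complex.I)

lemma pt_eq (p : ℝ × ℝ) : Complex.polarCoord.symm p = pt p.1 p.2 := by
  rw [Complex.polarCoord_symm_apply, pt, Complex.exp_mul_I]
  push_cast
  ring

lemma norm_pt (r θ : ℝ) : ‖pt r θ‖ = |r| := by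
  simp [pt, Complex.norm_exp_ofReal_mul_I]

lemma pt_cont : Continuous (fun p : ℝ × ℝ => pt p.1 p.2) := by
  unfold pt
  fun_prop

def μR : Measure ℝ := volume.restrict (Ioi 0)
def μT : Measure ℝ := volume.restrict (Ioo (-π) π)
def μP : Measure (ℝ × ℝ) := μR.prod μT

instance : SFinite μR := by unfold μR; infer_instance
instance : SigmaFinite μR := by unfold μR; infer_instance
instance : IsFiniteMeasure μT := by
  unfold μT
  exact ⟨by simp⟩
instance : SigmaFinite μP := by unfold μP; infer_instance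

lemma μP_eq : μP = volume.restrict (Ioi 0 ×ˢ Ioo (-π) π) := by
  unfold μP μR μT
  rw [Measure.prod_restrict]
  rfl

lemma ae_μR {P : ℝ → Prop} : (∀ᵐ r ∂μR, P r) ↔ ∀ᵐ r : ℝ, 0 < r → P r := by
  unfold μR
  rw [ae_restrict_iff' measurableSet_Ioi]
  rfl

lemma pos_ae_μP : ∀ᵐ p ∂μP, 0 < p.1 := by
  rw [μP_eq, ae_restrict_iff' (measurableSet_Ioi.prod measurableSet_Ioo)]
  exact ae_of_all _ fun p hp => hp.1

lemma lint_polar (f : ℂ → ℝ≥0∞) :
    ∫⁻ p, ENNReal.ofReal p.1 * f (pt p.1 p.2) ∂μP = ∫⁻ z, f z := by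
  rw [← Complex.lintegral_comp_polarCoord_symm, μP_eq]
  simp only [pt_eq, smul_eq_mul]
  rfl

lemma int_polar (f : ℂ → ℂ) : ∫ p, (p.1 : ℂ) * f (pt p.1 p.2) ∂μP = ∫ z, f z := by
  rw [← Complex.integral_comp_polarCoord_symm, μP_eq]
  simp only [pt_eq, Complex.real_smul]
  rfl

lemma qmp : Measure.QuasiMeasurePreserving (fun p : ℝ × ℝ => pt p.1 p.2) μP volume := by
  refine ⟨pt_cont.measurable, ?_⟩
  refine Measure.AbsolutelyContinuous.mk fun A hA hA0 => ?_
  rw [Measure.map_apply pt_cont.measurable hA]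
  have h1 := lint_polar (A.indicator 1)
  rw [lintegral_indicator_one hA, hA0, lintegral_eq_zero_iff (by
    refine Measurable.mul (by fun_prop) ?_
    exact (measurable_one.indicator hA).comp pt_cont.measurable)] at h1
  have h2 : ∀ᵐ p ∂μP, p ∉ (fun p : ℝ × ℝ => pt p.1 p.2) ⁻¹' A := by
    filter_upwards [h1, pos_ae_μP] with p hp hp0 hpA
    have hpA' : pt p.1 p.2 ∈ A := hpA
    have : A.indicator (1 : ℂ → ℝ≥0∞) (pt p.1 p.2) = 1 := by
      rw [indicator_of_mem hpA']; rfl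
    simp only [this, Pi.zero_apply, mul_one] at hp
    rw [ENNReal.ofReal_eq_zero] at hp
    linarith
  exact measure_eq_zero_iff_ae_notMem.2 h2

lemma ae_polar {P : ℂ → Prop} (h : ∀ᵐ z, P z) : ∀ᵐ p ∂μP, P (pt p.1 p.2) := qmp.ae h

lemma ae_polar' {P : ℂ → Prop} (h : ∀ᵐ z, P z) : ∀ᵐ r ∂μR, ∀ᵐ θ ∂μT, P (pt r θ) :=
  Measure.ae_ae_of_ae_prod (ae_polar h)

/-- converse transfer of null sets -/
lemma ae_of_polar {P : ℂ → Prop} (hP : MeasurableSet {z | P z})
    (h : ∀ᵐ p ∂μP, P (pt p.1 p.2)) : ∀ᵐ z, P z := by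
  have h1 := lint_polar ({z | P z}ᶜ.indicator 1)
  rw [lintegral_indicator_one hP.compl] at h1
  have h2 : ∫⁻ p, ENNReal.ofReal p.1 * {z | P z}ᶜ.indicator (1 : ℂ → ℝ≥0∞) (pt p.1 p.2) ∂μP = 0 := by
    rw [lintegral_eq_zero_iff (by
      refine Measurable.mul (by fun_prop) ?_
      exact (measurable_one.indicator hP.compl).comp pt_cont.measurable)]
    filter_upwards [h] with p hp
    rw [indicator_of_notMem (by simpa using hp)]
    simp
  rw [h2] at h1
  exact h1.symm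

lemma asm_polar {f : ℂ → ℂ} (hf : AEStronglyMeasurable f volume) :
    AEStronglyMeasurable (fun p : ℝ × ℝ => f (pt p.1 p.2)) μP :=
  hf.comp_quasiMeasurePreserving qmp

lemma asm_polar_real {f : ℂ → ℝ} (hf : AEStronglyMeasurable f volume) :
    AEStronglyMeasurable (fun p : ℝ × ℝ => f (pt p.1 p.2)) μP :=
  hf.comp_quasiMeasurePreserving qmp

lemma fst_asm : AEStronglyMeasurable (fun p : ℝ × ℝ => (p.1 : ℂ)) μP :=
  (by fun_prop : Continuous (fun p : ℝ × ℝ => (p.1 : ℂ))).aestronglyMeasurable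

lemma integrable_polar {f : ℂ → ℂ} (hf : Integrable f) :
    Integrable (fun p : ℝ × ℝ => (p.1 : ℂ) * f (pt p.1 p.2)) μP := by
  refine ⟨fst_asm.mul (asm_polar hf.1), ?_⟩
  have h1 := hf.2
  rw [hasFiniteIntegral_iff_enorm] at h1 ⊢
  rw [← lint_polar (fun z => ‖f z‖ₑ)] at h1
  refine lt_of_le_of_lt (le_of_eq ?_) h1
  refine lintegral_congr_ae ?_
  filter_upwards [pos_ae_μP] with p hp
  rw [enorm_mul]
  congr 1
  rw [← ofReal_norm]
  simp [abs_of_pos hp]

lemma integrable_polar_real {f : ℂ → ℝ} (hf : Integrable f) :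
    Integrable (fun p : ℝ × ℝ => p.1 * f (pt p.1 p.2)) μP := by
  have h := integrable_polar (f := fun z => (f z : ℂ)) hf.ofReal
  have h2 := h.re
  refine h2.congr (ae_of_all _ fun p => ?_)
  simp

lemma int_polar_real {f : ℂ → ℝ} : ∫ p, p.1 * f (pt p.1 p.2) ∂μP = ∫ z, f z := by
  have h := int_polar (fun z => (f z : ℂ))
  have : (fun p : ℝ × ℝ => (p.1 : ℂ) * ((f (pt p.1 p.2) : ℝ) : ℂ)) =
      fun p => ((p.1 * f (pt p.1 p.2) : ℝ) : ℂ) := by
    funext p; push_cast; ring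
  rw [this] at h
  have e1 : ∫ p, ((p.1 * f (pt p.1 p.2) : ℝ) : ℂ) ∂μP = ((∫ p, p.1 * f (pt p.1 p.2) ∂μP : ℝ) : ℂ) :=
    integral_ofReal
  have e2 : ∫ z, ((f z : ℝ) : ℂ) = ((∫ z, f z : ℝ) : ℂ) := integral_ofReal
  rw [e1, e2] at h
  exact_mod_cast h

/-- angular Fourier coefficient -/
def ang (k : ℤ) (ψ : ℂ → ℂ) (r : ℝ) : ℂ :=
  ∫ θ, ψ (pt r θ) * Complex.exp (-(k * θ) * Complex.I) ∂μT

lemma ang_congr {k : ℤ} {ψ φ : ℂ → ℂ} (h : ψ =ᵐ[volume] φ) : ∀ᵐ r ∂μR, ang k ψ r = ang k φ r := by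
  filter_upwards [ae_polar' h] with r hr
  refine integral_congr_ae ?_
  filter_upwards [hr] with θ hθ
  rw [hθ]

lemma exp_k_cont (k : ℤ) : Continuous (fun p : ℝ × ℝ => Complex.exp (-(k * p.2) * Complex.I)) := by
  fun_prop

lemma norm_exp_k (k : ℤ) (θ : ℝ) : ‖Complex.exp (-(k * θ) * Complex.I)‖ = 1 := by
  have : (-(k * θ) : ℂ) * Complex.I = ((-(k * θ) : ℝ) : ℂ) * Complex.I := by push_cast; ring
  rw [this, Complex.norm_exp_ofReal_mul_I]

lemma ang_asm {k : ℤ} {ψ : ℂ → ℂ} (hψ : AEStronglyMeasurable ψ volume) :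
    AEStronglyMeasurable (ang k ψ) μR := by
  have h : AEStronglyMeasurable (fun p : ℝ × ℝ => ψ (pt p.1 p.2) *
      Complex.exp (-(k * p.2) * Complex.I)) μP :=
    (asm_polar hψ).mul (exp_k_cont k).aestronglyMeasurable
  exact h.integral_prod_right'

/-- integrability on almost every circle -/
lemma circ_int {ψ : ℂ → ℂ} (hψ : LocallyIntegrable ψ) :
    ∀ᵐ r ∂μR, Integrable (fun θ => ψ (pt r θ)) μT := by
  have h1 : ∀ n : ℕ, ∀ᵐ r : ℝ ∂μR, r ≤ (n:ℝ) → Integrable (fun θ => ψ (pt r θ)) μT := by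
    intro n
    have h2 : Integrable ((Metric.closedBall (0:ℂ) n).indicator ψ) := by
      rw [integrable_indicator_iff measurableSet_closedBall]
      exact hψ.integrableOn_isCompact (isCompact_closedBall _ _)
    have h3 := (integrable_polar h2).prod_right_ae
    filter_upwards [h3, ae_μR.2 (ae_of_all _ fun r (hr : 0 < r) => hr)] with r hr hr0 hrn
    have h4 : Integrable (fun θ => (r:ℂ)⁻¹ * ((r:ℂ) * (Metric.closedBall (0:ℂ) n).indicator ψ (pt r θ))) μT :=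
      hr.const_mul _
    refine h4.congr (ae_of_all _ fun θ => ?_)
    have : pt r θ ∈ Metric.closedBall (0:ℂ) n := by
      rw [mem_closedBall_zero_iff, norm_pt, abs_of_pos hr0]; exact hrn
    have hr' : (r:ℂ) ≠ 0 := by exact_mod_cast hr0.ne'
    beta_reduce
    rw [indicator_of_mem this]
    field_simp
  have h5 := ae_all_iff.2 h1
  filter_upwards [h5] with r hr
  obtain ⟨n, hn⟩ := exists_nat_ge r
  exact hr n hn

lemma circ_int_exp {k : ℤ} {u : ℝ → ℂ} (hu : Integrable u μT) :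
    Integrable (fun θ => u θ * Complex.exp (-(k * θ) * Complex.I)) μT := by
  refine hu.mul_bdd (c := 1) ?_ (ae_of_all _ fun θ => (norm_exp_k k θ).le)
  exact (by fun_prop : Continuous fun θ : ℝ => Complex.exp (-(k * θ) * Complex.I)).aestronglyMeasurable

lemma μT_univ : μT.real univ = 2 * π := by
  unfold μT
  rw [measureReal_restrict_apply_univ, Real.volume_real_Ioo_of_le (by linarith [Real.pi_pos])]
  ring

/-- local integrability of angular coefficients with the weight `r` -/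
lemma ang_int {k : ℤ} {ψ : ℂ → ℂ} (hψ : LocallyIntegrable ψ) (R : ℝ) :
    IntegrableOn (fun r => r * ‖ang k ψ r‖) (Ioc 0 R) := by
  have h2 : Integrable ((Metric.closedBall (0:ℂ) R).indicator ψ) := by
    rw [integrable_indicator_iff measurableSet_closedBall]
    exact hψ.integrableOn_isCompact (isCompact_closedBall _ _)
  have h3 := (integrable_polar h2)
  have h3' := h3.norm.integral_prod_left
  have h4 : IntegrableOn (fun r : ℝ => ∫ θ, ‖(r:ℂ) * (Metric.closedBall (0:ℂ) R).indicator ψ (pt r θ)‖ ∂μT)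
      (Ioc 0 R) := by
    refine IntegrableOn.mono_set (t := Ioi 0) ?_ Ioc_subset_Ioi_self
    exact h3'
  refine Integrable.mono' h4 ?_ ?_
  · have h5 := (ang_asm (k := k) hψ.aestronglyMeasurable).norm
    have h6 : AEStronglyMeasurable (fun r : ℝ => r * ‖ang k ψ r‖) μR :=
      (continuous_id.aestronglyMeasurable).mul h5
    exact h6.mono_measure (Measure.restrict_mono Ioc_subset_Ioi_self le_rfl)
  · refine (ae_restrict_iff' measurableSet_Ioc).2 (ae_of_all _ fun r hr => ?_)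
    have hr0 := hr.1
    rw [Real.norm_eq_abs, abs_mul, abs_of_pos hr0, abs_of_nonneg (norm_nonneg _)]
    unfold ang
    have h7 : ∫ θ, ‖(r:ℂ) * (Metric.closedBall (0:ℂ) R).indicator ψ (pt r θ)‖ ∂μT =
        r * ∫ θ, ‖ψ (pt r θ)‖ ∂μT := by
      rw [← integral_const_mul]
      congr 1
      funext θ
      have : pt r θ ∈ Metric.closedBall (0:ℂ) R := by
        rw [mem_closedBall_zero_iff, norm_pt, abs_of_pos hr0]; exact hr.2
      rw [indicator_of_mem this, norm_mul]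
      simp [abs_of_pos hr0]
    rw [h7]
    refine mul_le_mul_of_nonneg_left ?_ hr0.le
    refine (norm_integral_le_integral_norm _).trans (le_of_eq ?_)
    congr 1
    funext θ
    rw [norm_mul, norm_exp_k, mul_one]

lemma ang_loc {k : ℤ} {ψ : ℂ → ℂ} (hψ : LocallyIntegrable ψ) :
    LocallyIntegrableOn (ang k ψ) (Ioi 0) := by
  rw [locallyIntegrableOn_iff isOpen_Ioi.isLocallyClosed]
  intro K hK hKc
  rcases K.eq_empty_or_nonempty with rfl | hne
  · simp
  obtain ⟨a, ha, hamin⟩ := hKc.exists_isLeast hne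
  obtain ⟨b, hb, hbmax⟩ := hKc.exists_isGreatest hne
  have ha0 : 0 < a := hK ha
  have h1 : IntegrableOn (fun r => a⁻¹ * (r * ‖ang k ψ r‖)) K := by
    have := (ang_int (k := k) hψ b).mono_set (s := K) (fun x hx => ⟨hK hx, hbmax hx⟩)
    exact this.const_mul _
  refine Integrable.mono' h1 ?_ ?_
  · exact (ang_asm (k := k) hψ.aestronglyMeasurable).mono_measure (Measure.restrict_mono hK le_rfl)
  · refine (ae_restrict_iff' hKc.measurableSet).2 (ae_of_all _ fun r hr => ?_)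
    have har : a ≤ r := hamin hr
    have h2 : 1 ≤ a⁻¹ * r := by
      rw [inv_mul_eq_div, le_div_iff₀ ha0]; linarith
    nlinarith [norm_nonneg (ang k ψ r)]

/-- square integrability -/
lemma circ_sq {ψ : ℂ → ℂ} (hψ : MemLp ψ 2) :
    ∀ᵐ r ∂μR, MemLp (fun θ => ψ (pt r θ)) 2 μT := by
  have h1 : Integrable (fun z => ‖ψ z‖ ^ 2) := hψ.integrable_norm_pow (by norm_num)
  have h2 := (integrable_polar_real h1).prod_right_ae
  have h3 := (asm_polar hψ.1).prodMk_left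
  filter_upwards [h2, h3, ae_μR.2 (ae_of_all _ fun r (hr : 0 < r) => hr)] with r hr hr3 hr0
  rw [memLp_two_iff_integrable_sq_norm hr3]
  have h4 : Integrable (fun θ => r⁻¹ * (r * ‖ψ (pt r θ)‖ ^ 2)) μT := hr.const_mul _
  refine h4.congr (ae_of_all _ fun θ => ?_)
  field_simp

lemma sq_norm_integral_le {u : ℝ → ℂ} (hu : MemLp u 2 μT) :
    ‖∫ θ, u θ ∂μT‖ ^ 2 ≤ 2 * π * ∫ θ, ‖u θ‖ ^ 2 ∂μT := by
  have h1 : Integrable (fun θ => ‖u θ‖ ^ 2) μT := hu.integrable_norm_pow (by norm_num)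
  have h2 : Integrable (fun θ => ‖u θ‖) μT := (hu.integrable (by norm_num)).norm
  set A := ∫ θ, ‖u θ‖ ∂μT with hA
  have hA0 : 0 ≤ A := integral_nonneg fun _ => norm_nonneg _
  have h3 : ‖∫ θ, u θ ∂μT‖ ≤ A := norm_integral_le_integral_norm _
  have hπ := Real.pi_pos
  -- ∫ (‖u‖ - A/(2π))² ≥ 0
  have h4 : 0 ≤ ∫ θ, (‖u θ‖ - A / (2 * π)) ^ 2 ∂μT := integral_nonneg fun _ => sq_nonneg _
  have h5 : ∫ θ, (‖u θ‖ - A / (2 * π)) ^ 2 ∂μT =
      (∫ θ, ‖u θ‖ ^ 2 ∂μT) - 2 * (A / (2 * π)) * A + 2 * π * (A / (2 * π)) ^ 2 := by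
    have : (fun θ => (‖u θ‖ - A / (2 * π)) ^ 2) =
        fun θ => ‖u θ‖ ^ 2 - 2 * (A / (2 * π)) * ‖u θ‖ + (A / (2 * π)) ^ 2 := by
      funext θ; ring
    have i1 : Integrable (fun θ => ‖u θ‖ ^ 2 - 2 * (A / (2 * π)) * ‖u θ‖) μT :=
      h1.sub (h2.const_mul _)
    rw [this, integral_add i1 (integrable_const _),
      integral_sub h1 (h2.const_mul _), integral_const_mul, integral_const, μT_univ, smul_eq_mul]
  rw [h5] at h4
  have h6 : 2 * (A / (2 * π)) * A - 2 * π * (A / (2 * π)) ^ 2 = A ^ 2 / (2 * π) := by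
    field_simp; ring
  have h7 : A ^ 2 / (2 * π) ≤ ∫ θ, ‖u θ‖ ^ 2 ∂μT := by linarith
  rw [div_le_iff₀ (by positivity)] at h7
  calc ‖∫ θ, u θ ∂μT‖ ^ 2 ≤ A ^ 2 := pow_le_pow_left₀ (norm_nonneg _) h3 2
    _ ≤ _ := by linarith

lemma ang_sq_le {k : ℤ} {ψ : ℂ → ℂ} {r : ℝ} (hψ : MemLp (fun θ => ψ (pt r θ)) 2 μT) :
    ‖ang k ψ r‖ ^ 2 ≤ 2 * π * ∫ θ, ‖ψ (pt r θ)‖ ^ 2 ∂μT := by
  unfold ang
  have h1 : MemLp (fun θ => ψ (pt r θ) * Complex.exp (-(k * θ) * Complex.I)) 2 μT := by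
    refine MemLp.of_le hψ (hψ.1.mul (by fun_prop : Continuous fun θ : ℝ =>
      Complex.exp (-(k * θ) * Complex.I)).aestronglyMeasurable) (ae_of_all _ fun θ => ?_)
    rw [norm_mul, norm_exp_k, mul_one]
  refine (sq_norm_integral_le h1).trans (le_of_eq ?_)
  congr 2
  funext θ
  rw [norm_mul, norm_exp_k, mul_one]

lemma ang_L2 {k : ℤ} {ψ : ℂ → ℂ} (hψ : MemLp ψ 2) :
    IntegrableOn (fun r => r * ‖ang k ψ r‖ ^ 2) (Ioi 0) := by
  have h1 : Integrable (fun z => ‖ψ z‖ ^ 2) := hψ.integrable_norm_pow (by norm_num)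
  have h2 := (integrable_polar_real h1).integral_prod_left
  have h3 : Integrable (fun r => 2 * π * ∫ θ, r * ‖ψ (pt r θ)‖ ^ 2 ∂μT) μR := h2.const_mul _
  refine Integrable.mono' h3 ?_ ?_
  · exact (continuous_id.aestronglyMeasurable).mul ((ang_asm (k := k) hψ.1).norm.pow 2)
  · filter_upwards [circ_sq hψ, ae_μR.2 (ae_of_all _ fun r (hr : 0 < r) => hr)] with r hr hr0
    rw [Real.norm_eq_abs, abs_of_nonneg (by positivity), integral_const_mul]
    have := mul_le_mul_of_nonneg_left (ang_sq_le (k := k) hr) hr0.le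
    calc r * ‖ang k ψ r‖ ^ 2 ≤ r * (2 * π * ∫ θ, ‖ψ (pt r θ)‖ ^ 2 ∂μT) := this
      _ = _ := by ring

end

end Pool.Agent.helper84.Dir
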