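import Pool.Agent.helper84.DirVolt

open MeasureTheory Set Filter Topology
open scoped NNReal

namespace Pool.Agent.helper84.Dir

/-- the part of the potential above height `δ` -/
noncomputable def pd (v : ℝ → ℝ) (δ : ℝ) (r : ℝ) : ℝ := max (v r - δ) 0

lemma pd_nonneg (v : ℝ → ℝ) (δ r : ℝ) : 0 ≤ pd v δ r := le_max_right _ _

lemma sub_pd_le (v : ℝ → ℝ) (δ r : ℝ) : v r - pd v δ r ≤ δ := by
  have := le_max_left (v r - δ) 0
  unfold pd; linarith

lemma sub_pd_nonneg {v : ℝ → ℝ} {δ r : ℝ} (hδ : 0 ≤ δ) (hv : 0 ≤ v r) : 0 ≤ v r - pd v δ r := by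
  unfold pd
  rcases max_cases (v r - δ) 0 with h | h <;> rw [h.1] <;> linarith

lemma pd_le {v : ℝ → ℝ} {δ r : ℝ} (hδ : 0 ≤ δ) (hv : 0 ≤ v r) : pd v δ r ≤ v r := by
  linarith [sub_pd_nonneg hδ hv]

/-- Admissible potentials on the half line, with radial weight `r ^ ν`, `ν = 0, 1`. -/
structure Pot (ν : ℕ) (v : ℝ → ℝ) : Prop where
  hν : ν = 0 ∨ ν = 1
  meas : Measurable v
  pos : ∀ r, 0 ≤ v r
  int : ∀ δ, 0 < δ → IntegrableOn (fun r => r ^ ν * (pd v δ r) ^ (ν + 1)) (Ioi 0)

section
variable {ν : ℕ} {v : ℝ → ℝ}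

lemma pd_meas (hv : Measurable v) (δ : ℝ) : Measurable (pd v δ) :=
  (hv.sub_const δ).max measurable_const

lemma le_one_add_pow {x : ℝ} (hν : ν = 0 ∨ ν = 1) : x ≤ 1 + x ^ (ν + 1) := by
  rcases hν with rfl | rfl
  · simp
  · norm_num
    nlinarith [sq_nonneg (x - 1)]

lemma Pot.ii_pow (h : Pot ν v) {δ : ℝ} (hδ : 0 < δ) {a b : ℝ} (ha : 0 ≤ a) (hab : a ≤ b) :
    IntervalIntegrable (fun r => r ^ ν * (pd v δ r) ^ (ν + 1)) volume a b := by
  rw [intervalIntegrable_iff_integrableOn_Ioc_of_le hab]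
  exact (h.int δ hδ).mono_set (fun x hx => lt_of_le_of_lt ha hx.1)

lemma Pot.ii_pd (h : Pot ν v) {δ : ℝ} (hδ : 0 < δ) {a b : ℝ} (ha : 0 ≤ a) (hab : a ≤ b) :
    IntervalIntegrable (fun r => r ^ ν * pd v δ r) volume a b := by
  have h1 : IntervalIntegrable (fun r : ℝ => r ^ ν * 1 + r ^ ν * (pd v δ r) ^ (ν + 1)) volume a b := by
    refine IntervalIntegrable.add ?_ (h.ii_pow hδ ha hab)
    exact Continuous.intervalIntegrable (by fun_prop) _ _
  refine h1.mono_fun ?_ ?_
  · exact ((measurable_id.pow_const ν).mul (pd_meas h.meas δ)).aestronglyMeasurable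
  · rw [uIoc_of_le hab]
    refine (ae_restrict_iff' measurableSet_Ioc).2 (ae_of_all _ fun t ht => ?_)
    have ht0 : 0 ≤ t := ha.trans ht.1.le
    have hp := pd_nonneg v δ t
    beta_reduce
    rw [Real.norm_eq_abs, Real.norm_eq_abs, abs_of_nonneg (by positivity),
      abs_of_nonneg (by positivity), ← mul_add]
    exact mul_le_mul_of_nonneg_left (le_one_add_pow h.hν) (by positivity)

lemma Pot.ii_v (h : Pot ν v) {a b : ℝ} (ha : 0 ≤ a) (hab : a ≤ b) :
    IntervalIntegrable (fun r => r ^ ν * v r) volume a b := by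
  have h1 : IntervalIntegrable (fun r : ℝ => r ^ ν * 1 + r ^ ν * pd v 1 r) volume a b := by
    refine IntervalIntegrable.add ?_ (h.ii_pd one_pos ha hab)
    exact Continuous.intervalIntegrable (by fun_prop) _ _
  refine h1.mono_fun ?_ ?_
  · exact ((measurable_id.pow_const ν).mul h.meas).aestronglyMeasurable
  · rw [uIoc_of_le hab]
    refine (ae_restrict_iff' measurableSet_Ioc).2 (ae_of_all _ fun t ht => ?_)
    have ht0 : 0 ≤ t := ha.trans ht.1.le
    have hp := pd_nonneg v 1 t
    have hv := h.pos t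
    have := sub_pd_le v 1 t
    beta_reduce
    rw [Real.norm_eq_abs, Real.norm_eq_abs, abs_of_nonneg (by positivity),
      abs_of_nonneg (by positivity), ← mul_add]
    exact mul_le_mul_of_nonneg_left (by linarith) (by positivity)

/-- on intervals away from `0` -/
lemma Pot.ii_v' (h : Pot ν v) {a b : ℝ} (ha : 0 < a) (hab : a ≤ b) :
    IntervalIntegrable v volume a b := by
  have h1 := h.ii_v ha.le hab
  have h2 : IntervalIntegrable (fun r : ℝ => (r ^ ν)⁻¹ * (r ^ ν * v r)) volume a b := by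
    refine h1.continuousOn_mul ?_
    rw [uIcc_of_le hab]
    intro x hx
    have : x ^ ν ≠ 0 := pow_ne_zero _ (lt_of_lt_of_le ha hx.1).ne'
    exact ((continuousAt_id.pow ν).inv₀ this).continuousWithinAt
  refine h2.congr_ae ?_
  rw [uIoc_of_le hab]
  refine (ae_restrict_iff' measurableSet_Ioc).2 (ae_of_all _ fun t ht => ?_)
  have : t ^ ν ≠ 0 := pow_ne_zero _ (lt_trans ha ht.1).ne'
  field_simp

noncomputable def wA (ν : ℕ) (m : ℝ) (v : ℝ → ℝ) (t : ℝ) : ℝ := (|t| ^ ν)⁻¹ * (2 * m + v t)
noncomputable def wB (ν : ℕ) (m : ℝ) (v : ℝ → ℝ) (t : ℝ) : ℝ := |t| ^ ν * (2 * m + v t)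
noncomputable def cA (ν : ℕ) (m l : ℝ) (v : ℝ → ℝ) (t : ℝ) : ℝ := (t ^ ν)⁻¹ * (m + l + v t)
noncomputable def cB (ν : ℕ) (m l : ℝ) (v : ℝ → ℝ) (t : ℝ) : ℝ := t ^ ν * (m - l - v t)

lemma Pot.wB_int (h : Pot ν v) (m : ℝ) {a b : ℝ} (ha : 0 ≤ a) (hab : a ≤ b) :
    IntervalIntegrable (wB ν m v) volume a b := by
  have h1 : IntervalIntegrable (fun r : ℝ => r ^ ν * (2 * m) + r ^ ν * v r) volume a b :=
    (Continuous.intervalIntegrable (by fun_prop) _ _).add (h.ii_v ha hab)
  refine h1.congr_ae ?_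
  rw [uIoc_of_le hab]
  refine (ae_restrict_iff' measurableSet_Ioc).2 (ae_of_all _ fun t ht => ?_)
  have ht0 : 0 ≤ t := ha.trans ht.1.le
  simp only [wB, abs_of_nonneg ht0]
  ring

/-- Comparison of first moment with the quadratic one. -/
lemma pd_moment (h : Pot ν v) {δ κ : ℝ} (hδ : 0 < δ) (hκ : 0 < κ) {a r : ℝ} (ha : 0 ≤ a)
    (har : a ≤ r) (hK : ∫ s in a..r, s ^ ν * pd v δ s ^ (ν + 1) ≤ κ ^ (ν + 1)) :
    ∫ s in a..r, s ^ ν * pd v δ s ≤ κ * r ^ ν := by
  rcases h.hν with rfl | rfl
  · simpa using hK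
  · rcases eq_or_lt_of_le (ha.trans har) with h0 | h0
    · have : a = r := le_antisymm har (h0 ▸ ha)
      rw [this]; simp [← h0]
    have h1 : ∫ s in a..r, s ^ 1 * pd v δ s ≤
        ∫ s in a..r, ((r / (2 * κ)) * (s ^ 1 * pd v δ s ^ (1 + 1)) + (κ / (2 * r)) * s) := by
      refine intervalIntegral.integral_mono_on har (h.ii_pd hδ ha har)
        (((h.ii_pow hδ ha har).const_mul _).add
          (Continuous.intervalIntegrable (by fun_prop) _ _)) ?_
      intro s hs
      have hs0 : 0 ≤ s := ha.trans hs.1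
      have hp := pd_nonneg v δ s
      have e : (r / (2 * κ)) * (s ^ 1 * pd v δ s ^ (1 + 1)) + (κ / (2 * r)) * s - s ^ 1 * pd v δ s
        = s * (1 / (2 * κ * r)) * (r * pd v δ s - κ) ^ 2 := by
        field_simp
        ring
      have : 0 ≤ s * (1 / (2 * κ * r)) * (r * pd v δ s - κ) ^ 2 := by positivity
      linarith
    rw [intervalIntegral.integral_add ((h.ii_pow hδ ha har).const_mul _)
      (Continuous.intervalIntegrable (by fun_prop) _ _),
      intervalIntegral.integral_const_mul, intervalIntegral.integral_const_mul, integral_id] at h1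
    have h2 : (r / (2 * κ)) * (∫ s in a..r, s ^ 1 * pd v δ s ^ (1 + 1)) ≤ (r / (2 * κ)) * κ ^ 2 :=
      mul_le_mul_of_nonneg_left hK (by positivity)
    have h3 : (κ / (2 * r)) * ((r ^ 2 - a ^ 2) / 2) ≤ κ / (2 * r) * (r ^ 2 / 2) := by
      refine mul_le_mul_of_nonneg_left ?_ (by positivity)
      nlinarith [sq_nonneg a]
    have h4 : (r / (2 * κ)) * κ ^ 2 + κ / (2 * r) * (r ^ 2 / 2) = κ * r * (3 / 4) := by
      field_simp
      ring
    have h5 : κ * r * (3/4) ≤ κ * r ^ 1 := by nlinarith [mul_pos hκ h0]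
    linarith

lemma Pot.tail (h : Pot ν v) {δ ε : ℝ} (hδ : 0 < δ) (hε : 0 < ε) :
    ∃ R₀, 1 ≤ R₀ ∧ ∀ a r, R₀ ≤ a → a ≤ r → ∫ s in a..r, s ^ ν * pd v δ s ^ (ν + 1) ≤ ε := by
  have h1 := intervalIntegral_tendsto_integral_Ioi (0 : ℝ) (h.int δ hδ) tendsto_id
  have h2 := (Metric.tendsto_atTop.1 h1) (ε / 2) (by positivity)
  obtain ⟨N, hN⟩ := h2
  refine ⟨max N 1, le_max_right _ _, fun a r ha har => ?_⟩
  have ha1 : 1 ≤ a := (le_max_right _ _).trans ha
  have e1 := hN a ((le_max_left _ _).trans ha)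
  have e2 := hN r (((le_max_left _ _).trans ha).trans har)
  rw [Real.dist_eq, abs_lt] at e1 e2
  have e3 := intervalIntegral.integral_add_adjacent_intervals
    (h.ii_pow hδ le_rfl (by linarith : (0:ℝ) ≤ a)) (h.ii_pow hδ (by linarith : (0:ℝ) ≤ a) har)
  simp only [id] at e1 e2
  linarith [e1.1, e1.2, e2.1, e2.2]

lemma Pot.tail1 (h : Pot ν v) {δ κ : ℝ} (hδ : 0 < δ) (hκ : 0 < κ) :
    ∃ R₀, 1 ≤ R₀ ∧ ∀ a r, R₀ ≤ a → a ≤ r → ∫ s in a..r, s ^ ν * pd v δ s ≤ κ * r ^ ν := by
  obtain ⟨R₀, h1, h2⟩ := h.tail hδ (show 0 < κ ^ (ν + 1) by positivity)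
  exact ⟨R₀, h1, fun a r ha har => pd_moment h hδ hκ (by linarith) har (h2 a r ha har)⟩

/-- local square integrability for `ν = 1` -/
lemma Pot.ii_sq (h : Pot 1 v) (m : ℝ) {a b : ℝ} (ha : 0 ≤ a) (hab : a ≤ b) :
    IntervalIntegrable (fun r => r * (2 * m + v r) ^ 2) volume a b := by
  have h1 : IntervalIntegrable (fun r : ℝ => 2 * (2 * |m| + 1) ^ 2 * r +
      2 * (r ^ 1 * (pd v 1 r) ^ (1 + 1))) volume a b := by
    refine IntervalIntegrable.add ?_ ((h.ii_pow one_pos ha hab).const_mul _)
    exact Continuous.intervalIntegrable (by fun_prop) _ _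
  refine h1.mono_fun ?_ ?_
  · exact (measurable_id.mul ((measurable_const.add h.meas).pow_const 2)).aestronglyMeasurable
  · rw [uIoc_of_le hab]
    refine (ae_restrict_iff' measurableSet_Ioc).2 (ae_of_all _ fun t ht => ?_)
    have ht0 : 0 ≤ t := ha.trans ht.1.le
    have hp := pd_nonneg v 1 t
    have hv := h.pos t
    have h2 := sub_pd_le v 1 t
    beta_reduce
    rw [Real.norm_eq_abs, Real.norm_eq_abs, abs_of_nonneg (by positivity),
      abs_of_nonneg (by positivity)]
    have h3 : (2 * m + v t) ^ 2 ≤ ((2 * |m| + 1) + pd v 1 t) ^ 2 := by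
      rw [← sq_abs (2 * m + v t)]
      have : |2 * m + v t| ≤ (2 * |m| + 1) + pd v 1 t := by
        have e1 : |2 * m + v t| ≤ |2 * m| + |v t| := abs_add_le _ _
        rw [abs_mul, abs_of_nonneg hv, abs_two] at e1
        linarith
      gcongr
    have h4 : ((2 * |m| + 1) + pd v 1 t) ^ 2 ≤ 2 * (2 * |m| + 1) ^ 2 + 2 * pd v 1 t ^ 2 := by
      nlinarith [sq_nonneg ((2 * |m| + 1) - pd v 1 t)]
    calc t * (2 * m + v t) ^ 2 ≤ t * (2 * (2 * |m| + 1) ^ 2 + 2 * pd v 1 t ^ 2) :=
          mul_le_mul_of_nonneg_left (h3.trans h4) ht0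
      _ = _ := by ring

lemma Pot.vdata (h : Pot ν v) {m : ℝ} (hm : 0 < m) : VData (wA ν m v) (wB ν m v) := by
  have hAm : Measurable (wA ν m v) :=
    ((measurable_id.abs.pow_const ν).inv).mul (measurable_const.add h.meas)
  have hBm : Measurable (wB ν m v) :=
    ((measurable_id.abs.pow_const ν)).mul (measurable_const.add h.meas)
  have hBi : ∀ R, 0 < R → IntervalIntegrable (wB ν m v) volume 0 R :=
    fun R hR => h.wB_int m le_rfl hR.le
  refine ⟨hAm, hBm, fun t => ?_, fun t => ?_, hBi, ?_⟩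
  · have := h.pos t
    unfold wA; positivity
  · have := h.pos t
    unfold wB; positivity
  intro R hR
  have hBacd : ACD (BI (wB ν m v)) (wB ν m v) 0 R :=
    ACD.of_integral (c := 0) (x₀ := 0) (hBi R hR) left_mem_uIcc (by intro x _; simp [BI]) hR
  rcases h.hν with rfl | rfl
  · have h1 : IntervalIntegrable (wA 0 m v) volume 0 R := by
      have := hBi R hR
      have e : wA 0 m v = wB 0 m v := by funext t; simp [wA, wB]
      rwa [e]
    exact h1.mul_continuousOn hBacd.continuousOn
  · -- the Hardy type estimate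
    rw [intervalIntegrable_iff_integrableOn_Ioc_of_le hR.le]
    set w : ℝ → ℝ := fun t => 2 * m + v t with hw
    set K : ℝ := ∫ t in 0..R, t * w t ^ 2 with hK
    have hwpos : ∀ t, 0 ≤ w t := fun t => by have := h.pos t; simp only [hw]; positivity
    have hKint : ∀ a b, 0 ≤ a → a ≤ b → IntervalIntegrable (fun t => t * w t ^ 2) volume a b :=
      fun a b ha hab => h.ii_sq m ha hab
    -- size of BI
    have hBle : ∀ s, 0 < s → s ≤ R → BI (wB 1 m v) s ≤ s * (K / 2 + 1 / 4) := by
      intro s hs hsR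
      have h1 : BI (wB 1 m v) s ≤ ∫ t in 0..s, (s / 2 * (t * w t ^ 2) + (1 / (2 * s)) * t) := by
        refine intervalIntegral.integral_mono_on hs.le (hBi s hs)
          (((hKint 0 s le_rfl hs.le).const_mul _).add
            (Continuous.intervalIntegrable (by fun_prop) _ _)) ?_
        intro t ht
        simp only [wB, abs_of_nonneg ht.1, pow_one]
        have e : s / 2 * (t * w t ^ 2) + (1 / (2 * s)) * t - t * w t
          = t * (1 / (2 * s)) * (s * w t - 1) ^ 2 := by
          field_simp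
          ring
        have ht0 := ht.1
        have : 0 ≤ t * (1 / (2 * s)) * (s * w t - 1) ^ 2 := by positivity
        change t * w t ≤ _
        linarith
      rw [intervalIntegral.integral_add ((hKint 0 s le_rfl hs.le).const_mul _)
        (Continuous.intervalIntegrable (by fun_prop) _ _),
        intervalIntegral.integral_const_mul, intervalIntegral.integral_const_mul,
        integral_id] at h1
      have h2 : ∫ t in 0..s, t * w t ^ 2 ≤ K := by
        refine intervalIntegral.integral_mono_interval le_rfl hs.le hsR ?_ (hKint 0 R le_rfl hR.le)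
        refine (ae_restrict_iff' measurableSet_Ioc).2 (ae_of_all _ fun t ht => ?_)
        have := hwpos t
        have ht0 := ht.1.le
        show 0 ≤ t * w t ^ 2
        positivity
      have h3 : s / 2 * (∫ t in 0..s, t * w t ^ 2) ≤ s / 2 * K :=
        mul_le_mul_of_nonneg_left h2 (by positivity)
      have h4 : 1 / (2 * s) * ((s ^ 2 - 0 ^ 2) / 2) = s * (1 / 4) := by
        field_simp
        ring
      rw [h4] at h1
      linarith
    have hK0 : 0 ≤ K := by
      refine intervalIntegral.integral_nonneg hR.le fun t ht => ?_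
      have := hwpos t
      have ht0 := ht.1
      positivity
    have hBpos : ∀ s, 0 ≤ s → 0 ≤ BI (wB 1 m v) s := by
      intro s hs
      refine intervalIntegral.integral_nonneg hs fun t ht => ?_
      have := h.pos t
      unfold wB; positivity
    have hcont : ContinuousOn (BI (wB 1 m v)) (Icc 0 R) := by
      have := hBacd.continuousOn; rwa [uIcc_of_le hR.le] at this
    -- integrability away from zero
    have hfi : ∀ a, 0 < a → a ≤ R → IntervalIntegrable
        (fun t => wA 1 m v t * BI (wB 1 m v) t) volume a R := by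
      intro a ha haR
      have h1 : IntervalIntegrable (wA 1 m v) volume a R := by
        have h2 : IntervalIntegrable (fun t : ℝ => t⁻¹ * (2 * m + v t)) volume a R := by
          refine (IntervalIntegrable.add (by simp) (h.ii_v' ha haR)).continuousOn_mul ?_
          rw [uIcc_of_le haR]
          exact continuousOn_id.inv₀ fun x hx => (lt_of_lt_of_le ha hx.1).ne'
        refine h2.congr_ae ?_
        rw [uIoc_of_le haR]
        refine (ae_restrict_iff' measurableSet_Ioc).2 (ae_of_all _ fun t ht => ?_)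
        simp only [wA, pow_one, abs_of_pos (ha.trans ht.1)]
      refine h1.mul_continuousOn (hcont.mono ?_)
      rw [uIcc_of_le haR]
      exact Icc_subset_Icc ha.le le_rfl
    refine integrableOn_Ioc_of_intervalIntegral_norm_bounded_left (l := atTop)
      (a := fun n : ℕ => R / (n + 1)) (I := (4 / 3) * (K + (K / 2 + 1 / 4) ^ 2 / 8 +
        (K / 2 + 1 / 4) ^ 2 / 2)) ?_ ?_ ?_
    · intro n
      have h1 : 0 < R / (n + 1 : ℝ) := by positivity
      have h2 : R / (n + 1 : ℝ) ≤ R := div_le_self hR.le (by linarith [Nat.cast_nonneg (α := ℝ) n])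
      exact (intervalIntegrable_iff_integrableOn_Ioc_of_le h2).1 (hfi _ h1 h2)
    · have := (tendsto_one_div_add_atTop_nhds_zero_nat (𝕜 := ℝ)).const_mul R
      simpa [div_eq_mul_inv] using this
    · refine Eventually.of_forall fun n => ?_
      set s : ℝ := R / (n + 1) with hs
      have hs0 : 0 < s := by positivity
      have hsR : s ≤ R := div_le_self hR.le (by linarith [Nat.cast_nonneg (α := ℝ) n])
      have e0 : ∫ x in Ioc s R, ‖wA 1 m v x * BI (wB 1 m v) x‖ =
          ∫ x in s..R, w x * BI (wB 1 m v) x / x := by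
        rw [intervalIntegral.integral_of_le hsR]
        refine setIntegral_congr_fun measurableSet_Ioc fun x hx => ?_
        have hx0 : 0 < x := hs0.trans hx.1
        have h1 := hwpos x
        have h2 := hBpos x hx0.le
        have h3 : wA 1 m v x = x⁻¹ * w x := by simp [wA, abs_of_pos hx0, hw]
        simp only [h3]
        rw [Real.norm_eq_abs, abs_of_nonneg (by positivity)]
        field_simp
      change ∫ x in Ioc s R, ‖wA 1 m v x * BI (wB 1 m v) x‖ ≤ _
      rw [e0]
      -- energy identity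
      set Bf := BI (wB 1 m v) with hBf
      have hA1 : ACD Bf (wB 1 m v) s R := hBacd.mono (by
        rw [uIcc_of_le hsR, uIcc_of_le hR.le]; exact Icc_subset_Icc hs0.le le_rfl)
      have hA2 : ACD (fun t : ℝ => (t ^ 2)⁻¹) (fun t => -2 * (t ^ 3)⁻¹) s R := by
        refine ACD.of_hasDerivAt ?_ ?_
        · intro x hx
          rw [uIcc_of_le hsR] at hx
          have hx0 : x ≠ 0 := (lt_of_lt_of_le hs0 hx.1).ne'
          have h1 : HasDerivAt (fun t : ℝ => (t ^ 2)⁻¹) (-(2 * x) / (x ^ 2) ^ 2) x := by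
            have := (hasDerivAt_pow 2 x).fun_inv (pow_ne_zero 2 hx0)
            simpa using this
          convert h1 using 1
          field_simp
        · rw [uIcc_of_le hsR]
          refine continuousOn_const.mul ((continuousOn_id.pow 3).inv₀ fun x hx => ?_)
          exact pow_ne_zero 3 (lt_of_lt_of_le hs0 hx.1).ne'
      have hA3 := (hA1.mul hA1).mul hA2
      have hint1 : IntervalIntegrable (fun x => w x * Bf x / x) volume s R := by
        refine (hfi s hs0 hsR).congr_ae ?_
        rw [uIoc_of_le hsR]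
        refine (ae_restrict_iff' measurableSet_Ioc).2 (ae_of_all _ fun t ht => ?_)
        have hx0 : 0 < t := hs0.trans ht.1
        have h3 : wA 1 m v t = t⁻¹ * w t := by simp [wA, abs_of_pos hx0, hw]
        beta_reduce
        rw [h3]; field_simp
      have hint2 : IntervalIntegrable (fun x => Bf x ^ 2 * (x ^ 3)⁻¹) volume s R := by
        refine ContinuousOn.intervalIntegrable ?_
        rw [uIcc_of_le hsR]
        refine ((hcont.mono (Icc_subset_Icc hs0.le le_rfl)).pow 2).mul
          ((continuousOn_id.pow 3).inv₀ fun x hx => ?_)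
        exact pow_ne_zero 3 (lt_of_lt_of_le hs0 hx.1).ne'
      have hI := hA3.integral
      have e1 : ∫ x in s..R, ((wB 1 m v x * Bf x + Bf x * wB 1 m v x) * (x ^ 2)⁻¹ +
          Bf x * Bf x * (-2 * (x ^ 3)⁻¹)) =
          ∫ x in s..R, (2 * (w x * Bf x / x) - 2 * (Bf x ^ 2 * (x ^ 3)⁻¹)) := by
        refine intervalIntegral.integral_congr fun x hx => ?_
        rw [uIcc_of_le hsR] at hx
        have hx0 : 0 < x := lt_of_lt_of_le hs0 hx.1
        have h3 : wB 1 m v x = x * w x := by simp [wB, abs_of_pos hx0, hw]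
        simp only [h3]
        field_simp
        ring
      rw [e1, intervalIntegral.integral_sub (hint1.const_mul _) (hint2.const_mul _),
        intervalIntegral.integral_const_mul, intervalIntegral.integral_const_mul] at hI
      set X := ∫ x in s..R, w x * Bf x / x
      set Y := ∫ x in s..R, Bf x ^ 2 * (x ^ 3)⁻¹
      have hXY : X ≤ K + Y / 4 := by
        have h1 : X ≤ ∫ x in s..R, (x * w x ^ 2 + 1 / 4 * (Bf x ^ 2 * (x ^ 3)⁻¹)) := by
          refine intervalIntegral.integral_mono_on hsR hint1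
            ((hKint s R hs0.le hsR).add (hint2.const_mul _)) ?_
          intro x hx
          have hx0 : 0 < x := lt_of_lt_of_le hs0 hx.1
          have e : x * w x ^ 2 + 1 / 4 * (Bf x ^ 2 * (x ^ 3)⁻¹) - w x * Bf x / x =
            1 / (4 * x ^ 3) * (2 * x ^ 2 * w x - Bf x) ^ 2 := by
            field_simp
            ring
          have : 0 ≤ 1 / (4 * x ^ 3) * (2 * x ^ 2 * w x - Bf x) ^ 2 := by positivity
          linarith
        rw [intervalIntegral.integral_add (hKint s R hs0.le hsR) (hint2.const_mul _),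
          intervalIntegral.integral_const_mul] at h1
        have h2 : ∫ t in s..R, t * w t ^ 2 ≤ K := by
          refine intervalIntegral.integral_mono_interval hs0.le hsR le_rfl ?_
            (hKint 0 R le_rfl hR.le)
          refine (ae_restrict_iff' measurableSet_Ioc).2 (ae_of_all _ fun t ht => ?_)
          have := hwpos t
          have ht0 := ht.1.le
          show 0 ≤ t * w t ^ 2
          positivity
        linarith
      have hs2 : Bf s * Bf s * (s ^ 2)⁻¹ ≤ (K / 2 + 1 / 4) ^ 2 := by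
        have h1 := hBle s hs0 hsR
        have h2 := hBpos s hs0.le
        rw [← div_eq_mul_inv, div_le_iff₀ (by positivity)]
        nlinarith
      have hR2 : 0 ≤ Bf R * Bf R * (R ^ 2)⁻¹ := mul_nonneg (mul_self_nonneg _) (by positivity)
      have hs3 : 0 ≤ (K / 2 + 1 / 4) ^ 2 := by positivity
      have : 2 * X - 2 * Y = Bf R * Bf R * (R ^ 2)⁻¹ - Bf s * Bf s * (s ^ 2)⁻¹ := hI
      have hY : Y ≤ X + (K / 2 + 1 / 4) ^ 2 / 2 := by linarith
      nlinarith

lemma vcoef (h : Measurable v) (hpos : ∀ r, 0 ≤ v r) {m l : ℝ} (hl : |l| ≤ m) :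
    VCoef (wA ν m v) (wB ν m v) (cA ν m l v) (cB ν m l v) := by
  obtain ⟨h1, h2⟩ := abs_le.1 hl
  refine ⟨((measurable_id.pow_const ν).inv).mul (measurable_const.add h),
    ((measurable_id.pow_const ν)).mul (measurable_const.sub h), fun t ht => ?_, fun t ht => ?_⟩
  · have hv := hpos t
    unfold cA wA
    rw [abs_mul, abs_of_pos (a := (t ^ ν)⁻¹) (by positivity), abs_of_pos ht]
    refine mul_le_mul_of_nonneg_left ?_ (by positivity)
    rw [abs_le]; constructor <;> linarith
  · have hv := hpos t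
    unfold cB wB
    rw [abs_mul, abs_of_pos (a := (t ^ ν)) (by positivity), abs_of_pos ht]
    refine mul_le_mul_of_nonneg_left ?_ (by positivity)
    rw [abs_le]; constructor <;> linarith

end

end Pool.Agent.helper84.Dir
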