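import Pool.Agent.helper84.DirLine3

open MeasureTheory Set Filter Topology
open scoped NNReal ENNReal ContDiff Real

namespace Pool.Agent.helper84.Dir

noncomputable section

lemma pd_pow_le {ν : ℕ} {p : ℝ} (hp : (ν:ℝ) + 1 ≤ p) {δ : ℝ} (hδ : 0 < δ) {v : ℝ → ℝ} (r : ℝ)
    (hv : 0 ≤ v r) : pd v δ r ^ (ν + 1) ≤ δ ^ ((ν:ℝ) + 1 - p) * v r ^ p := by
  rcases le_or_gt (v r) δ with h | h
  · have : pd v δ r = 0 := by unfold pd; rw [max_eq_right]; linarith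
    rw [this, zero_pow (by omega)]
    positivity
  · have hv0 : 0 < v r := hδ.trans h
    have h1 : pd v δ r ^ (ν + 1) ≤ v r ^ (ν + 1) :=
      pow_le_pow_left₀ (pd_nonneg v δ r) (pd_le hδ.le hv) _
    have h2 : v r ^ (ν + 1) = v r ^ ((ν:ℝ) + 1 - p) * v r ^ p := by
      rw [← Real.rpow_add hv0]
      have : (ν:ℝ) + 1 - p + p = ((ν + 1 : ℕ) : ℝ) := by push_cast; ring
      rw [this, Real.rpow_natCast]
    rw [h2] at h1
    refine h1.trans (mul_le_mul_of_nonneg_right ?_ (by positivity))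
    exact Real.rpow_le_rpow_of_nonpos hδ h.le (by linarith)

lemma pot_of {ν : ℕ} (hν : ν = 0 ∨ ν = 1) {v : ℝ → ℝ} (hm : Measurable v) (hv : ∀ r, 0 ≤ v r)
    {p : ℝ} (hp : (ν:ℝ) + 1 ≤ p) {η : ℝ} (hη : 0 < η)
    (hI : ∫⁻ r, ENNReal.ofReal (r ^ ν * v r ^ p) ∂μR ≤ ENNReal.ofReal (η ^ p)) :
    Pot ν v ∧ ∫ r in Ioi 0, r ^ ν * pd v η r ^ (ν + 1) ≤ η ^ (ν + 1) := by
  have key : ∀ δ : ℝ, 0 < δ → ∫⁻ r, ENNReal.ofReal (r ^ ν * pd v δ r ^ (ν + 1)) ∂μR ≤
      ENNReal.ofReal (δ ^ ((ν:ℝ) + 1 - p) * η ^ p) := by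
    intro δ hδ
    calc ∫⁻ r, ENNReal.ofReal (r ^ ν * pd v δ r ^ (ν + 1)) ∂μR ≤
          ∫⁻ r, ENNReal.ofReal (δ ^ ((ν:ℝ) + 1 - p)) * ENNReal.ofReal (r ^ ν * v r ^ p) ∂μR := by
          refine lintegral_mono_ae ?_
          filter_upwards [ae_μR.2 (ae_of_all _ fun r (hr : 0 < r) => hr)] with r hr
          rw [← ENNReal.ofReal_mul (by positivity)]
          refine ENNReal.ofReal_le_ofReal ?_
          calc r ^ ν * pd v δ r ^ (ν + 1) ≤ r ^ ν * (δ ^ ((ν:ℝ) + 1 - p) * v r ^ p) :=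
                mul_le_mul_of_nonneg_left (pd_pow_le hp hδ r (hv r)) (by positivity)
            _ = _ := by ring
      _ = ENNReal.ofReal (δ ^ ((ν:ℝ) + 1 - p)) * ∫⁻ r, ENNReal.ofReal (r ^ ν * v r ^ p) ∂μR :=
          lintegral_const_mul' _ _ ENNReal.ofReal_ne_top
      _ ≤ ENNReal.ofReal (δ ^ ((ν:ℝ) + 1 - p)) * ENNReal.ofReal (η ^ p) := by gcongr
      _ = _ := by rw [← ENNReal.ofReal_mul (by positivity)]
  have hmeas : ∀ δ, Measurable fun r => r ^ ν * pd v δ r ^ (ν + 1) := fun δ =>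
    (measurable_id.pow_const ν).mul ((pd_meas hm δ).pow_const _)
  have hnn : ∀ δ, 0 ≤ᵐ[μR] fun r => r ^ ν * pd v δ r ^ (ν + 1) := by
    intro δ
    filter_upwards [ae_μR.2 (ae_of_all _ fun r (hr : 0 < r) => hr)] with r hr
    have := pd_nonneg v δ r
    show 0 ≤ r ^ ν * pd v δ r ^ (ν + 1)
    positivity
  refine ⟨⟨hν, hm, hv, fun δ hδ => ⟨(hmeas δ).aestronglyMeasurable, ?_⟩⟩, ?_⟩
  · change HasFiniteIntegral _ μR
    rw [hasFiniteIntegral_iff_ofReal (hnn δ)]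
    exact lt_of_le_of_lt (key δ hδ) ENNReal.ofReal_lt_top
  · change ∫ r, r ^ ν * pd v η r ^ (ν + 1) ∂μR ≤ _
    rw [integral_eq_lintegral_of_nonneg_ae (hnn η) (hmeas η).aestronglyMeasurable]
    refine ENNReal.toReal_le_of_le_ofReal (by positivity) ((key η hη).trans (le_of_eq ?_))
    congr 1
    rw [← Real.rpow_add hη]
    have : (ν:ℝ) + 1 - p + p = ((ν + 1 : ℕ) : ℝ) := by push_cast; ring
    rw [this, Real.rpow_natCast]

lemma lint_le {E : Type*} [MeasureSpace E] {V : E → ℝ} {p : ℝ≥0∞} (hp0 : p ≠ 0) (hpt : p ≠ ⊤)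
    {η : ℝ} (hη : 0 < η) (hε : eLpNorm V p volume ≤ ENNReal.ofReal η) :
    ∫⁻ x, ‖V x‖ₑ ^ p.toReal ≤ ENNReal.ofReal (η ^ p.toReal) := by
  have hpr : 0 < p.toReal := ENNReal.toReal_pos hp0 hpt
  rw [eLpNorm_eq_lintegral_rpow_enorm_toReal hp0 hpt] at hε
  have h1 := ENNReal.rpow_le_rpow hε hpr.le
  rw [← ENNReal.rpow_mul, one_div, inv_mul_cancel₀ hpr.ne', ENNReal.rpow_one,
    ENNReal.ofReal_rpow_of_pos hη] at h1
  exact h1

lemma enorm_rpow_eq {x p : ℝ} (hx : 0 ≤ x) (hp : 0 ≤ p) : ‖x‖ₑ ^ p = ENNReal.ofReal (x ^ p) := by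
  rw [← ofReal_norm, Real.norm_eq_abs, abs_of_nonneg hx, ENNReal.ofReal_rpow_of_nonneg hx hp]

/-- consequences of the smallness of the total mass -/
lemma small_of {ν : ℕ} {v : ℝ → ℝ} (h : Pot ν v) {η : ℝ} (hη : 0 < η)
    (hI : ∫ r in Ioi 0, r ^ ν * pd v η r ^ (ν + 1) ≤ η ^ (ν + 1)) :
    (∀ s t, 0 ≤ s → s ≤ t → ∫ x in s..t, x ^ ν * pd v η x ^ (ν + 1) ≤ η ^ (ν + 1)) ∧
    Small1 ν v η := by
  have h1 : ∀ s t, 0 ≤ s → s ≤ t → ∫ x in s..t, x ^ ν * pd v η x ^ (ν + 1) ≤ η ^ (ν + 1) := by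
    intro s t hs hst
    refine le_trans ?_ hI
    rw [intervalIntegral.integral_of_le hst]
    refine setIntegral_mono_set (h.int η hη) ?_ ?_
    · refine (ae_restrict_iff' measurableSet_Ioi).2 (ae_of_all _ fun r hr => ?_)
      have hr0 : 0 < r := hr
      have := pd_nonneg v η r
      show 0 ≤ r ^ ν * pd v η r ^ (ν + 1)
      positivity
    · exact ae_of_all _ fun x hx => lt_of_le_of_lt hs hx.1
  exact ⟨h1, fun r hr => pd_moment h hη hη le_rfl hr (h1 0 r le_rfl hr)⟩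

/-- reduction in dimension one -/
theorem red1 {V : ℝ → ℝ} {v : ℝ → ℝ} {p : ℝ≥0∞} (hp1 : 1 ≤ p) (hpt : p ≠ ⊤) {η : ℝ} (hη : 0 < η)
    (hε : eLpNorm V p volume ≤ ENNReal.ofReal η) (hm : Measurable v) (hv : ∀ r, 0 ≤ v r)
    (hV : V =ᵐ[volume] fun x => v |x|) :
    Pot 0 v ∧ ∫ r in Ioi 0, r ^ 0 * pd v η r ^ (0 + 1) ≤ η ^ (0 + 1) := by
  have hp0 : p ≠ 0 := (zero_lt_one.trans_le hp1).ne'
  have hpr : 1 ≤ p.toReal := by
    have := ENNReal.toReal_mono hpt hp1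
    simpa using this
  refine pot_of (Or.inl rfl) hm hv (by simpa using hpr) hη ?_
  refine le_trans ?_ (lint_le hp0 hpt hη hε)
  unfold μR
  refine le_trans (lintegral_mono_ae ?_) (setLIntegral_le_lintegral (Ioi 0) _)
  refine (ae_restrict_iff' measurableSet_Ioi).2 ?_
  filter_upwards [hV] with x hx hx0
  have hx0' : 0 < x := hx0
  rw [hx, abs_of_pos hx0', enorm_rpow_eq (hv x) (by linarith), pow_zero, one_mul]

/-- reduction in dimension two -/
theorem red2 {V : ℂ → ℝ} {v : ℝ → ℝ} {p : ℝ≥0∞} (hp2 : 2 ≤ p) (hpt : p ≠ ⊤) {η : ℝ} (hη : 0 < η)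
    (hε : eLpNorm V p volume ≤ ENNReal.ofReal η) (hm : Measurable v) (hv : ∀ r, 0 ≤ v r)
    (hV : V =ᵐ[volume] fun x => v ‖x‖) :
    Pot 1 v ∧ ∫ r in Ioi 0, r ^ 1 * pd v η r ^ (1 + 1) ≤ η ^ (1 + 1) := by
  have hp0 : p ≠ 0 := (lt_of_lt_of_le (by norm_num) hp2).ne'
  have hpr : 2 ≤ p.toReal := by
    have := ENNReal.toReal_mono hpt hp2
    simpa using this
  refine pot_of (Or.inr rfl) hm hv (by push_cast; linarith) hη ?_
  refine le_trans ?_ (lint_le hp0 hpt hη hε)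
  rw [← lint_polar (fun z => ‖V z‖ₑ ^ p.toReal)]
  have h1 : ∫⁻ q, ENNReal.ofReal q.1 * ‖V (pt q.1 q.2)‖ₑ ^ p.toReal ∂μP =
      ∫⁻ q, ENNReal.ofReal (q.1 ^ 1 * v q.1 ^ p.toReal) ∂μP := by
    refine lintegral_congr_ae ?_
    filter_upwards [ae_polar hV, pos_ae_μP] with q hq hq0
    rw [hq, norm_pt, abs_of_pos hq0, enorm_rpow_eq (hv _) (by linarith), ← ENNReal.ofReal_mul hq0.le,
      pow_one]
  rw [h1]
  unfold μP
  have hme : Measurable fun r : ℝ => ENNReal.ofReal (r ^ 1 * v r ^ p.toReal) := by fun_prop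
  have hme2 : AEMeasurable (fun q : ℝ × ℝ => ENNReal.ofReal (q.1 ^ 1 * v q.1 ^ p.toReal))
      (μR.prod μT) := (hme.comp measurable_fst).aemeasurable
  rw [lintegral_prod _ hme2]
  refine lintegral_mono fun r => ?_
  simp only [lintegral_const]
  have h2 : 1 ≤ μT univ := by
    have : μT univ = ENNReal.ofReal (2 * π) := by rw [← μT_univ]; exact (ofReal_measureReal).symm
    rw [this, ← ENNReal.ofReal_one]
    refine ENNReal.ofReal_le_ofReal ?_
    linarith [Real.pi_gt_three]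
  exact le_mul_of_one_le_right' h2

/-- measurable radial profile, dimension one -/
theorem rad1 {V : ℝ → ℝ} (hVm : AEStronglyMeasurable V volume) (hV0 : ∀ᵐ x, 0 ≤ V x)
    {v₀ : ℝ → ℝ} (hr : V =ᵐ[volume] fun x => v₀ |x|) :
    ∃ v : ℝ → ℝ, Measurable v ∧ (∀ r, 0 ≤ v r) ∧ V =ᵐ[volume] fun x => v |x| := by
  refine ⟨fun r => max (hVm.mk V r) 0, hVm.stronglyMeasurable_mk.measurable.max measurable_const,
    fun r => le_max_right _ _, ?_⟩
  have h1 : ∀ᵐ x, x ≠ (0:ℝ) := by simp [ae_iff, measure_singleton]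
  filter_upwards [hVm.ae_eq_mk, refl_ae hVm.ae_eq_mk, hr, refl_ae hr, hV0, h1] with x h2 h3 h4 h5 h6 h7
  rcases lt_or_gt_of_ne h7 with h8 | h8
  · rw [abs_of_neg h8, ← h3, h5, abs_neg, ← h4, max_eq_left h6]
  · rw [abs_of_pos h8, ← h2, max_eq_left h6]

/-- measurable radial profile, dimension two -/
theorem rad2 {V : ℂ → ℝ} (hVm : AEStronglyMeasurable V volume) (hV0 : ∀ᵐ x, 0 ≤ V x)
    {v₀ : ℝ → ℝ} (hr : V =ᵐ[volume] fun x => v₀ ‖x‖) :
    ∃ v : ℝ → ℝ, Measurable v ∧ (∀ r, 0 ≤ v r) ∧ V =ᵐ[volume] fun x => v ‖x‖ := by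
  set V' := hVm.mk V with hV'
  have hV'm : Measurable V' := hVm.stronglyMeasurable_mk.measurable
  have he : V =ᵐ[volume] V' := hVm.ae_eq_mk
  have hπ := Real.pi_pos
  set v₁ : ℝ → ℝ := fun r => (2 * π)⁻¹ * ∫ θ, V' (pt r θ) ∂μT with hv₁
  have hv₁m : Measurable v₁ := by
    have h1 : StronglyMeasurable fun r => ∫ θ, V' (pt r θ) ∂μT := by
      have h2 : StronglyMeasurable fun q : ℝ × ℝ => V' (pt q.1 q.2) :=
        (hV'm.comp pt_cont.measurable).stronglyMeasurable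
      exact h2.integral_prod_right'
    exact (h1.measurable).const_mul _
  have hV'v : ∀ᵐ z, V' z = v₀ ‖z‖ := by
    filter_upwards [he, hr] with z h1 h2
    rw [← h1, h2]
  have hv₁v : ∀ᵐ r ∂μR, v₁ r = v₀ r := by
    filter_upwards [ae_polar' hV'v, ae_μR.2 (ae_of_all _ fun r (hr : 0 < r) => hr)] with r h1 hr0
    simp only [hv₁]
    have : ∫ θ, V' (pt r θ) ∂μT = ∫ θ, v₀ r ∂μT := by
      refine integral_congr_ae ?_
      filter_upwards [h1] with θ hθ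
      rw [hθ, norm_pt, abs_of_pos hr0]
    rw [this, integral_const, μT_univ, smul_eq_mul]
    field_simp
  have hm : Measurable fun r => max (v₁ r) 0 := hv₁m.max measurable_const
  refine ⟨fun r => max (v₁ r) 0, hm, fun r => le_max_right _ _, ?_⟩
  have key : ∀ᵐ z, V' z = max (v₁ ‖z‖) 0 := by
    refine ae_of_polar (measurableSet_eq_fun hV'm (hm.comp measurable_norm)) ?_
    have h3 : ∀ᵐ q ∂μP, v₁ q.1 = v₀ q.1 :=
      (Measure.quasiMeasurePreserving_fst (μ := μR) (ν := μT)).ae hv₁v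
    filter_upwards [ae_polar hV'v, ae_polar he, ae_polar hV0, h3, pos_ae_μP] with q h4 h5 h6 h7 h8
    rw [norm_pt, abs_of_pos h8, h7]
    rw [norm_pt, abs_of_pos h8] at h4
    rw [← h4, ← h5, max_eq_left h6]
  filter_upwards [he, key] with z h1 h2
  rw [h1, h2]

/-- radially nonincreasing profile -/
lemma anti_profile {v₀ : ℝ → ℝ} (h : AntitoneOn v₀ (Ioi 0)) :
    ∃ v : ℝ → ℝ, Measurable v ∧ (∀ r, 0 ≤ v r) ∧ AntitoneOn v (Ioi 0) ∧
      ∀ r, 0 < r → v r = max (v₀ r) 0 := by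
  classical
  refine ⟨fun r => if 0 < r then max (v₀ r) 0 else 0, ?_, ?_, ?_, ?_⟩
  · refine measurable_of_Ioi fun a => ?_
    rcases lt_or_ge a 0 with ha | ha
    · have : (fun r : ℝ => if 0 < r then max (v₀ r) 0 else 0) ⁻¹' Ioi a = univ := by
        ext r
        simp only [mem_preimage, mem_Ioi, mem_univ, iff_true]
        split_ifs
        · exact lt_of_lt_of_le ha (le_max_right _ _)
        · exact ha
      rw [this]; exact MeasurableSet.univ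
    · refine OrdConnected.measurableSet ?_
      refine ⟨fun x hx y hy z hz => ?_⟩
      simp only [mem_preimage, mem_Ioi] at hx hy ⊢
      have hx0 : 0 < x := by
        by_contra hcon
        rw [if_neg hcon] at hx
        linarith
      have hz0 : 0 < z := hx0.trans_le hz.1
      have hy0 : 0 < y := hz0.trans_le hz.2
      rw [if_pos hy0] at hy
      rw [if_pos hz0]
      refine lt_of_lt_of_le hy ?_
      exact max_le_max (h hz0 hy0 hz.2) le_rfl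
  · intro r
    dsimp only
    split_ifs
    · exact le_max_right _ _
    · exact le_rfl
  · intro x hx y hy hxy
    have hx0 : 0 < x := hx
    have hy0 : 0 < y := hy
    dsimp only
    rw [if_pos hx0, if_pos hy0]
    exact max_le_max (h hx hy hxy) le_rfl
  · intro r hr
    dsimp only
    rw [if_pos hr]

end

end Pool.Agent.helper84.Dir
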