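import Pool.Agent.helper84.DirEst3

open MeasureTheory Set Filter Topology
open scoped NNReal

namespace Pool.Agent.helper84.Dir

/-- an integrable function is `o(1/r)` along a sequence tending to `0` -/
lemma seq_zero {u : ℝ → ℝ} {T : ℝ} (hT : 0 < T) (hu : IntegrableOn u (Ioc 0 T))
    {ε δ : ℝ} (hε : 0 < ε) (hδ : 0 < δ) : ∃ s, 0 < s ∧ s < δ ∧ s * u s < ε := by
  by_contra hcon
  push Not at hcon
  set T' := min T (δ / 2) with hT'
  have hT'0 : 0 < T' := by positivity
  have h1 : IntegrableOn (fun x : ℝ => x⁻¹) (Ioc 0 T') := by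
    have h2 : IntegrableOn (fun x => ε⁻¹ * u x) (Ioc 0 T') :=
      (hu.mono_set (Ioc_subset_Ioc le_rfl (min_le_left _ _))).const_mul _
    refine Integrable.mono' h2 (measurable_inv.aestronglyMeasurable) ?_
    refine (ae_restrict_iff' measurableSet_Ioc).2 (ae_of_all _ fun x hx => ?_)
    have h3 := hcon x hx.1 (lt_of_le_of_lt (hx.2.trans (min_le_right _ _)) (by linarith))
    have hx0 := hx.1
    rw [Real.norm_eq_abs, abs_of_pos (by positivity), inv_eq_one_div, inv_eq_one_div,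
      div_mul_eq_mul_div, one_mul, div_le_div_iff₀ hx0 hε]
    linarith
  have h2 : IntervalIntegrable (fun x : ℝ => x⁻¹) volume 0 T' :=
    (intervalIntegrable_iff_integrableOn_Ioc_of_le hT'0.le).2 h1
  rw [intervalIntegrable_inv_iff] at h2
  rcases h2 with h2 | h2
  · exact hT'0.ne h2
  · exact h2 left_mem_uIcc

/-- an integrable function is `o(1/r)` along a sequence tending to `∞` -/
lemma seq_infty {u : ℝ → ℝ} {T : ℝ} (hu : IntegrableOn u (Ioi T))
    {ε R : ℝ} (hε : 0 < ε) : ∃ t, R ≤ t ∧ t * u t < ε := by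
  by_contra hcon
  push Not at hcon
  set R' := max (max R T) 1 with hR'
  have h1 : IntegrableOn (fun x : ℝ => x⁻¹) (Ioi R') := by
    have h2 : IntegrableOn (fun x => ε⁻¹ * u x) (Ioi R') :=
      (hu.mono_set (Ioi_subset_Ioi ((le_max_right _ _).trans (le_max_left _ _)))).const_mul _
    refine Integrable.mono' h2 (measurable_inv.aestronglyMeasurable) ?_
    refine (ae_restrict_iff' measurableSet_Ioi).2 (ae_of_all _ fun x hx => ?_)
    have hxR : R' < x := hx
    have h3 := hcon x (((le_max_left _ _).trans (le_max_left _ _)).trans hxR.le)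
    have hx0 : 0 < x := by
      have : 1 ≤ R' := le_max_right _ _
      linarith
    rw [Real.norm_eq_abs, abs_of_pos (by positivity), inv_eq_one_div, inv_eq_one_div,
      div_mul_eq_mul_div, one_mul, div_le_div_iff₀ hx0 hε]
    linarith
  exact not_integrableOn_Ioi_inv h1

section
variable {k m l : ℝ} {v f g : ℝ → ℝ}

lemma small_near_zero (hv : Pot 1 v) {δ ω : ℝ} (hδ : 0 < δ) (hω : 0 < ω) :
    ∃ T₀, 0 < T₀ ∧ ∀ s t, 0 ≤ s → s ≤ t → t ≤ T₀ →
      ∫ x in s..t, x ^ 1 * pd v δ x ^ (1 + 1) ≤ ω := by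
  have h1 : IntervalIntegrable (fun r => r ^ 1 * (pd v δ r) ^ (1 + 1)) volume 0 1 :=
    hv.ii_pow hδ le_rfl zero_le_one
  have h2 : ACD (fun r => ∫ x in (0:ℝ)..r, x ^ 1 * pd v δ x ^ (1 + 1))
      (fun r => r ^ 1 * (pd v δ r) ^ (1 + 1)) 0 1 :=
    ACD.of_integral (c := 0) (x₀ := 0) h1 left_mem_uIcc (by intro x _; simp) one_pos
  have h3 := h2.continuousOn
  rw [uIcc_of_le zero_le_one] at h3
  have h4 := h3 0 (left_mem_Icc.2 zero_le_one)
  have h5 := (Metric.continuousWithinAt_iff.1 h4) ω hω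
  obtain ⟨d, hd, h6⟩ := h5
  refine ⟨min (d / 2) 1, by positivity, fun s t hs hst ht => ?_⟩
  have ht0 : 0 ≤ t := hs.trans hst
  have h7 := @h6 t ⟨ht0, ht.trans (min_le_right _ _)⟩ (by
    rw [Real.dist_eq, sub_zero, abs_of_nonneg ht0]
    exact lt_of_le_of_lt (ht.trans (min_le_left _ _)) (by linarith))
  simp only [intervalIntegral.integral_same] at h7
  rw [Real.dist_eq, sub_zero, abs_lt] at h7
  refine le_trans ?_ h7.2.le
  refine intervalIntegral.integral_mono_interval hs hst le_rfl ?_ (hv.ii_pow hδ le_rfl ht0)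
  refine (ae_restrict_iff' measurableSet_Ioc).2 (ae_of_all _ fun x hx => ?_)
  have := pd_nonneg v δ x
  have hx0 := hx.1.le
  show 0 ≤ x ^ 1 * pd v δ x ^ (1 + 1)
  positivity

lemma log_lower {c τ s T : ℝ} {u : ℝ → ℝ} (hc : 0 ≤ c) (hs : 0 < s) (hsτ : s ≤ τ) (hτT : τ < T)
    (hu : IntervalIntegrable u volume s T) (hu0 : ∀ x ∈ Icc s T, 0 ≤ u x)
    (hle : ∀ x ∈ Icc τ T, c / x ≤ u x) : c * Real.log (T / τ) ≤ ∫ x in s..T, u x := by
  have hτ : 0 < τ := hs.trans_le hsτ
  have hT : 0 < T := hτ.trans hτT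
  have h1 : ∫ x in τ..T, u x ≤ ∫ x in s..T, u x := by
    refine intervalIntegral.integral_mono_interval hsτ hτT.le le_rfl ?_ hu
    refine (ae_restrict_iff' measurableSet_Ioc).2 (ae_of_all _ fun x hx => hu0 x ⟨hx.1.le, hx.2⟩)
  refine le_trans ?_ h1
  have h2 : ∫ x in τ..T, c / x = c * Real.log (T / τ) := by
    have : (fun x : ℝ => c / x) = fun x => c * x⁻¹ := by funext x; rw [div_eq_mul_inv]
    rw [this, intervalIntegral.integral_const_mul, integral_inv_of_pos hτ hT]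
  rw [← h2]
  refine intervalIntegral.integral_mono_on hτT.le ?_ ?_ hle
  · refine ContinuousOn.intervalIntegrable ?_
    rw [uIcc_of_le hτT.le]
    exact continuousOn_const.div continuousOn_id fun x hx => (hτ.trans_le hx.1).ne'
  · refine hu.mono_set ?_
    rw [uIcc_of_le hτT.le, uIcc_of_le (hsτ.trans hτT.le)]
    exact Icc_subset_Icc hsτ le_rfl

/-- if `c log(T/τ) ≤ M` for all `τ` then `c ≤ 0` -/
lemma log_unbounded {c M T : ℝ} (hc : 0 < c) (hT : 0 < T) :
    ∃ τ, 0 < τ ∧ τ < T ∧ M < c * Real.log (T / τ) := by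
  refine ⟨T * Real.exp (-(|M| / c + 1)), by positivity, ?_, ?_⟩
  · have : Real.exp (-(|M| / c + 1)) < 1 := by
      rw [Real.exp_lt_one_iff]
      have : 0 ≤ |M| / c := by positivity
      linarith
    nlinarith
  · have e : T / (T * Real.exp (-(|M| / c + 1))) = Real.exp (|M| / c + 1) := by
      rw [Real.exp_neg]; field_simp
    rw [e, Real.log_exp]
    have : c * (|M| / c + 1) = |M| + c := by field_simp
    rw [this]
    linarith [le_abs_self M]

/-- squared weight -/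
lemma rho2_acd {τ : ℝ} (hτ : 0 < τ) (s t : ℝ) :
    ACD (fun x : ℝ => x ^ 2 / (x ^ 2 + τ ^ 2)) (fun x => 2 * τ ^ 2 * x / (x ^ 2 + τ ^ 2) ^ 2) s t := by
  refine ACD.of_hasDerivAt (fun x _ => ?_) ?_
  · have h1 : HasDerivAt (fun y : ℝ => y ^ 2 + τ ^ 2) (2 * x) x := by
      simpa using (hasDerivAt_pow 2 x).add_const (τ ^ 2)
    have h0 : HasDerivAt (fun y : ℝ => y ^ 2) (2 * x) x := by simpa using hasDerivAt_pow 2 x
    have h2 := h0.div h1 (by positivity)
    have h3 : (2 * x * (x ^ 2 + τ ^ 2) - x ^ 2 * (2 * x)) / (x ^ 2 + τ ^ 2) ^ 2 =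
        2 * τ ^ 2 * x / (x ^ 2 + τ ^ 2) ^ 2 := by congr 1; ring
    rw [← h3]
    exact h2
  · refine Continuous.continuousOn (Continuous.div (by fun_prop) (by fun_prop) fun x => by positivity)

lemma rho1_acd {τ : ℝ} (hτ : 0 < τ) {s t : ℝ} (hs : 0 < s) (hst : s ≤ t) :
    ACD (fun x : ℝ => x / (x + τ)) (fun x => τ / (x + τ) ^ 2) s t := by
  refine ACD.of_hasDerivAt (fun x hx => ?_) ?_
  · rw [uIcc_of_le hst] at hx
    have hx0 : 0 < x := hs.trans_le hx.1
    have h1 : HasDerivAt (fun y : ℝ => y + τ) 1 x := (hasDerivAt_id x).add_const τ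
    have h2 := (hasDerivAt_id x).div h1 (by positivity)
    have h3 : (1 * (x + τ) - id x * 1) / (x + τ) ^ 2 = τ / (x + τ) ^ 2 := by
      simp only [id]; congr 1; ring
    rw [← h3]
    exact h2
  · refine ContinuousOn.div continuousOn_const (by fun_prop) fun x hx => ?_
    rw [uIcc_of_le hst] at hx
    have hx0 : 0 < x := hs.trans_le hx.1
    positivity

/-- Regularity at the origin for `k ∉ {0,-1}`. -/
lemma reg_gen (hv : Pot 1 v) (hc : Chan k m l v f g) (hl : |l| < m)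
    (hk : 1 ≤ k ∨ k ≤ -2) {T₁ : ℝ} (hT₁ : 0 < T₁)
    (hint : IntegrableOn (fun x => x * (f x ^ 2 + g x ^ 2)) (Ioc 0 T₁)) {ε δ : ℝ} (hε : 0 < ε)
    (hδ : 0 < δ) : ∃ s, 0 < s ∧ s < δ ∧ f s ^ 2 + g s ^ 2 < ε := by
  obtain ⟨hl1, hl2⟩ := abs_lt.1 hl
  have hm : 0 < m := lt_of_le_of_lt (abs_nonneg l) hl
  by_contra hcon
  push Not at hcon
  -- constants
  set Ck := 2 * |k| + 3 with hCk
  have hCk0 : 0 < Ck := by positivity
  set ω := 1 / (8 * (Ck + 1)) with hω
  have hω0 : 0 < ω := by positivity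
  obtain ⟨T₀, hT₀, hsmall⟩ := small_near_zero hv (δ := 1) (ω := ω ^ 2) one_pos (by positivity)
  set T := min (min T₀ (δ / 2)) (min T₁ (1 / (8 * (m + 1)))) with hT
  have hT0 : 0 < T := by positivity
  have hTT₀ : T ≤ T₀ := (min_le_left _ _).trans (min_le_left _ _)
  have hTδ : T < δ := lt_of_le_of_lt ((min_le_left _ _).trans (min_le_right _ _)) (by linarith)
  have hTT₁ : T ≤ T₁ := (min_le_right _ _).trans (min_le_left _ _)
  have hTm : 8 * (m + 1) * T ≤ 1 := by
    have : T ≤ 1 / (8 * (m + 1)) := (min_le_right _ _).trans (min_le_right _ _)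
    rw [le_div_iff₀ (by positivity)] at this
    linarith
  set E := f T ^ 2 + g T ^ 2 with hE
  have hE0 : 0 ≤ E := by positivity
  obtain ⟨τ, hτ, hτT, hlog⟩ := log_unbounded (c := ε / 2) (M := 2 * E + 1) (T := T) (by positivity) hT0
  obtain ⟨s, hs, hsτ, hsu⟩ := seq_zero hT₁ hint (ε := τ ^ 2) (δ := τ) (by positivity) hτ
  have hsT : s < T := hsτ.trans hτT
  have hsm : ∫ x in s..T, x ^ 1 * pd v 1 x ^ (1 + 1) ≤ ω ^ 2 := hsmall s T hs.le hsT.le hTT₀
  -- weight
  set ρ : ℝ → ℝ := fun x => x ^ 2 / (x ^ 2 + τ ^ 2) with hρ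
  have hρ0 : ∀ x, 0 ≤ ρ x := fun x => by simp only [hρ]; positivity
  have hρ1 : ∀ x, ρ x ≤ 1 := fun x => by
    simp only [hρ]; rw [div_le_one (by positivity)]; nlinarith [sq_nonneg τ]
  have hρ' : ∀ x, 0 < x → 2 * τ ^ 2 * x / (x ^ 2 + τ ^ 2) ^ 2 ≤ 2 * (ρ x / x) := by
    intro x hx
    have e : 2 * (ρ x / x) - 2 * τ ^ 2 * x / (x ^ 2 + τ ^ 2) ^ 2 = 2 * x ^ 3 / (x ^ 2 + τ ^ 2) ^ 2 := by
      simp only [hρ]; field_simp; ring
    have : 0 ≤ 2 * x ^ 3 / (x ^ 2 + τ ^ 2) ^ 2 := by positivity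
    linarith
  have hρ'0 : ∀ x, 0 < x → 0 ≤ 2 * τ ^ 2 * x / (x ^ 2 + τ ^ 2) ^ 2 := fun x hx => by positivity
  have hfc := hc.fc hs hsT
  have hgc := hc.gc hs hsT
  have hρc : ContinuousOn ρ (Icc s T) := by
    refine Continuous.continuousOn (Continuous.div (by fun_prop) (by fun_prop) fun x => by positivity)
  set i : ℝ → ℝ := fun x => ρ x * (f x ^ 2 + g x ^ 2) / x with hi
  have hic : ContinuousOn i (Icc s T) :=
    (hρc.mul ((hfc.pow 2).add (hgc.pow 2))).div continuousOn_id fun x hx => (hs.trans_le hx.1).ne'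
  have hi0 : ∀ x ∈ Icc s T, 0 ≤ i x := fun x hx => by
    have := hs.trans_le hx.1
    have := hρ0 x
    simp only [hi]; positivity
  set X := ∫ x in s..T, i x with hX
  have hX0 : 0 ≤ X := intervalIntegral.integral_nonneg hsT.le hi0
  have ii := ii_of_cont hsT.le hic
  have hφc : ContinuousOn (fun x => ρ x * |f x * g x|) (Icc s T) := hρc.mul (hfc.mul hgc).abs
  set PQ := ∫ x in s..T, pd v 1 x * (ρ x * |f x * g x|) with hPQ
  have iPQ := ii_pdc hv one_pos hs hsT.le hφc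
  -- bound on the supremum
  have hS : ∀ r ∈ Icc s T, ρ r * (f r ^ 2 + g r ^ 2) ≤ E + Ck * X := by
    have h1 := (rho2_acd hτ s T).mul ((hc.acdff hs hsT).add (hc.acdgg hs hsT))
    have h2 := up_right hsT h1 (ii.const_mul Ck)
      (fun x hx => mul_nonneg hCk0.le (hi0 x hx)) (fun x hx => by
        have hx0 : 0 < x := hs.trans_le hx.1
        have hr := hρ0 x
        have e1 : ρ x * (2 * k * (f x ^ 2 / x) + 2 * (m + l + v x) * (f x * g x) +
            (-(2 * (k + 1) * (g x ^ 2 / x)) + 2 * (m - l - v x) * (f x * g x))) =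
            2 * k * (ρ x * f x ^ 2 / x) - 2 * (k + 1) * (ρ x * g x ^ 2 / x) +
            4 * m * (ρ x * (f x * g x)) := by ring
        change -(2 * τ ^ 2 * x / (x ^ 2 + τ ^ 2) ^ 2 * (f x ^ 2 + g x ^ 2) +
          ρ x * (2 * k * (f x ^ 2 / x) + 2 * (m + l + v x) * (f x * g x) +
            (-(2 * (k + 1) * (g x ^ 2 / x)) + 2 * (m - l - v x) * (f x * g x)))) ≤ Ck * i x
        rw [e1]
        have e2 := hρ'0 x hx0
        have e3 : -|k| ≤ k := neg_abs_le k
        have e4 : k ≤ |k| := le_abs_self k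
        have e5 : 0 ≤ ρ x * f x ^ 2 / x := by positivity
        have e6 : 0 ≤ ρ x * g x ^ 2 / x := by positivity
        have e7 : |f x * g x| ≤ (f x ^ 2 + g x ^ 2) / 2 := by
          rw [abs_le]; constructor <;> nlinarith [sq_nonneg (f x - g x), sq_nonneg (f x + g x)]
        have e8 : 4 * m * (ρ x * |f x * g x|) ≤ i x := by
          have hxT : x ≤ T := hx.2
          have h3 : 2 * m * x ≤ 1 := by nlinarith
          calc 4 * m * (ρ x * |f x * g x|) ≤ 4 * m * (ρ x * ((f x ^ 2 + g x ^ 2) / 2)) := by gcongr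
            _ = (2 * m * x) * i x := by simp only [hi]; field_simp; ring
            _ ≤ 1 * i x := mul_le_mul_of_nonneg_right h3 (hi0 x hx)
            _ = i x := one_mul _
        have e9 : -(4 * m * (ρ x * (f x * g x))) ≤ 4 * m * (ρ x * |f x * g x|) := by
          have := neg_abs_le (f x * g x)
          have h3 : ρ x * (-(f x * g x)) ≤ ρ x * |f x * g x| :=
            mul_le_mul_of_nonneg_left (by linarith) hr
          nlinarith
        have e10 : i x = ρ x * f x ^ 2 / x + ρ x * g x ^ 2 / x := by simp only [hi]; ring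
        have e11 : 0 ≤ 2 * τ ^ 2 * x / (x ^ 2 + τ ^ 2) ^ 2 * (f x ^ 2 + g x ^ 2) := by positivity
        have e12 : -(2 * k * (ρ x * f x ^ 2 / x)) ≤ 2 * |k| * (ρ x * f x ^ 2 / x) := by nlinarith
        have e13 : 2 * (k + 1) * (ρ x * g x ^ 2 / x) ≤ (2 * |k| + 2) * (ρ x * g x ^ 2 / x) := by
          nlinarith
        rw [hCk]
        rw [e10] at e8 ⊢
        nlinarith)
    intro r hr
    have h3 := h2 r hr
    rw [intervalIntegral.integral_const_mul] at h3
    have h4 : T ^ 2 / (T ^ 2 + τ ^ 2) * (f T ^ 2 + g T ^ 2) ≤ E := by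
      have := hρ1 T
      simp only [hρ] at this
      simp only [hE]
      nlinarith
    calc _ ≤ _ := h3
      _ ≤ _ := by linarith
  have hSn : 0 ≤ E + Ck * X := by positivity
  -- Cauchy-Schwarz
  have hPQle : PQ ≤ ω / 2 * ((E + Ck * X) + X) := by
    refine cs hv one_pos hω0 hs hsT hsm hφc hic hSn le_rfl hX0 ?_
    intro x hx
    have hx0 : 0 < x := hs.trans_le hx.1
    have h1 := hS x hx
    have hr := hρ0 x
    have e7 : |f x * g x| ≤ (f x ^ 2 + g x ^ 2) / 2 := by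
      rw [abs_le]; constructor <;> nlinarith [sq_nonneg (f x - g x), sq_nonneg (f x + g x)]
    have e8 : |f x * g x| ≤ f x ^ 2 + g x ^ 2 := e7.trans (by nlinarith [sq_nonneg (f x), sq_nonneg (g x)])
    have e9 : (ρ x * |f x * g x|) ^ 2 ≤ (ρ x * (f x ^ 2 + g x ^ 2)) ^ 2 := by gcongr
    calc (ρ x * |f x * g x|) ^ 2 / x ≤ (ρ x * (f x ^ 2 + g x ^ 2)) ^ 2 / x := by gcongr
      _ = (ρ x * (f x ^ 2 + g x ^ 2)) * i x := by simp only [hi]; ring
      _ ≤ _ := mul_le_mul_of_nonneg_right h1 (hi0 x hx)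
  -- main inequality
  have hmain : 2 * X ≤ E + ρ s * (f s ^ 2 + g s ^ 2) + (1 / 4 * X + 4 * PQ) := by
    have hpt : ∀ x ∈ Ioc s T, ρ x * (4 * |l + v x| * |f x * g x|) ≤
        1 / 4 * i x + 4 * (pd v 1 x * (ρ x * |f x * g x|)) := by
      intro x hx
      have hx0 : 0 < x := hs.trans hx.1
      have hr := hρ0 x
      have hvx := hv.pos x
      have h1 := sub_pd_le v 1 x
      have hp := pd_nonneg v 1 x
      have e1 : |l + v x| ≤ m + 1 + pd v 1 x := by
        rw [abs_le]; constructor <;> linarith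
      have e7 : |f x * g x| ≤ (f x ^ 2 + g x ^ 2) / 2 := by
        rw [abs_le]; constructor <;> nlinarith [sq_nonneg (f x - g x), sq_nonneg (f x + g x)]
      have e2 : 4 * (m + 1) * (ρ x * |f x * g x|) ≤ 1 / 4 * i x := by
        have h3 : 2 * (m + 1) * x ≤ 1 / 4 := by nlinarith [hx.2]
        calc 4 * (m + 1) * (ρ x * |f x * g x|) ≤ 4 * (m + 1) * (ρ x * ((f x ^ 2 + g x ^ 2) / 2)) := by
              gcongr
          _ = (2 * (m + 1) * x) * i x := by simp only [hi]; field_simp; ring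
          _ ≤ 1 / 4 * i x := mul_le_mul_of_nonneg_right h3 (hi0 x ⟨hx.1.le, hx.2⟩)
      calc ρ x * (4 * |l + v x| * |f x * g x|) ≤ ρ x * (4 * (m + 1 + pd v 1 x) * |f x * g x|) := by
            gcongr
        _ = 4 * (m + 1) * (ρ x * |f x * g x|) + 4 * (pd v 1 x * (ρ x * |f x * g x|)) := by ring
        _ ≤ _ := by linarith
    have iu : IntervalIntegrable (fun x => (1 / 4 * i x + 4 * (pd v 1 x * (ρ x * |f x * g x|))) -
        2 * i x) volume s T := ((ii.const_mul _).add (iPQ.const_mul _)).sub (ii.const_mul _)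
    have hival : ∫ x in s..T, ((1 / 4 * i x + 4 * (pd v 1 x * (ρ x * |f x * g x|))) -
        2 * i x) = 1 / 4 * X + 4 * PQ - 2 * X := by
      rw [intervalIntegral.integral_sub ((ii.const_mul _).add (iPQ.const_mul _)) (ii.const_mul _),
        intervalIntegral.integral_add (ii.const_mul _) (iPQ.const_mul _),
        intervalIntegral.integral_const_mul, intervalIntegral.integral_const_mul,
        intervalIntegral.integral_const_mul]
    have hρT : 0 ≤ ρ T := hρ0 T
    have hρT1 := hρ1 T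
    have hρs : 0 ≤ ρ s := hρ0 s
    rcases hk with hk | hk
    · have h1 := ((rho2_acd hτ s T).mul ((hc.acdff hs hsT).sub (hc.acdgg hs hsT))).neg
      have h2 := h1.integral_mono_le hsT.le iu (ae_of_all _ fun x hx => by
        have hx0 : 0 < x := hs.trans hx.1
        have hr := hρ0 x
        have e1 : ρ x * (2 * k * (f x ^ 2 / x) + 2 * (m + l + v x) * (f x * g x) -
            (-(2 * (k + 1) * (g x ^ 2 / x)) + 2 * (m - l - v x) * (f x * g x))) =
            2 * k * (ρ x * f x ^ 2 / x) + 2 * (k + 1) * (ρ x * g x ^ 2 / x) +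
            ρ x * (4 * (l + v x) * (f x * g x)) := by ring
        change -(2 * τ ^ 2 * x / (x ^ 2 + τ ^ 2) ^ 2 * (f x ^ 2 - g x ^ 2) +
          ρ x * (2 * k * (f x ^ 2 / x) + 2 * (m + l + v x) * (f x * g x) -
            (-(2 * (k + 1) * (g x ^ 2 / x)) + 2 * (m - l - v x) * (f x * g x)))) ≤ _
        rw [e1]
        have e2 := hρ'0 x hx0
        have e2' := hρ' x hx0
        have e5 : 0 ≤ ρ x * f x ^ 2 / x := by positivity
        have e6 : 0 ≤ ρ x * g x ^ 2 / x := by positivity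
        have e8 : -(4 * (l + v x) * (f x * g x)) ≤ 4 * |l + v x| * |f x * g x| := by
          have := neg_abs_le ((l + v x) * (f x * g x))
          rw [abs_mul] at this; linarith
        have e9 := mul_le_mul_of_nonneg_left e8 hr
        have e10 := hpt x hx
        have e11 : 2 * τ ^ 2 * x / (x ^ 2 + τ ^ 2) ^ 2 * g x ^ 2 ≤ 2 * (ρ x / x) * g x ^ 2 :=
          mul_le_mul_of_nonneg_right e2' (by positivity)
        have e12 : 2 * (ρ x / x) * g x ^ 2 = 2 * (ρ x * g x ^ 2 / x) := by ring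
        have e13 : i x = ρ x * f x ^ 2 / x + ρ x * g x ^ 2 / x := by simp only [hi]; ring
        have e14 : 0 ≤ 2 * τ ^ 2 * x / (x ^ 2 + τ ^ 2) ^ 2 * f x ^ 2 := by positivity
        have e15 : ρ x * f x ^ 2 / x ≤ k * (ρ x * f x ^ 2 / x) := by nlinarith
        have e16 : ρ x * g x ^ 2 / x ≤ k * (ρ x * g x ^ 2 / x) := by nlinarith
        nlinarith)
      rw [hival] at h2
      change -(ρ T * (f T ^ 2 - g T ^ 2)) - -(ρ s * (f s ^ 2 - g s ^ 2)) ≤ _ at h2
      have h3 : ρ T * (f T ^ 2 - g T ^ 2) ≤ E := by simp only [hE]; nlinarith [sq_nonneg (f T), sq_nonneg (g T)]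
      have h4 : -(ρ s * (f s ^ 2 - g s ^ 2)) ≤ ρ s * (f s ^ 2 + g s ^ 2) := by nlinarith [sq_nonneg (f s)]
      linarith
    · have h1 := ((rho2_acd hτ s T).mul ((hc.acdgg hs hsT).sub (hc.acdff hs hsT))).neg
      have h2 := h1.integral_mono_le hsT.le iu (ae_of_all _ fun x hx => by
        have hx0 : 0 < x := hs.trans hx.1
        have hr := hρ0 x
        have e1 : ρ x * (-(2 * (k + 1) * (g x ^ 2 / x)) + 2 * (m - l - v x) * (f x * g x) -
            (2 * k * (f x ^ 2 / x) + 2 * (m + l + v x) * (f x * g x))) =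
            -(2 * k * (ρ x * f x ^ 2 / x)) - 2 * (k + 1) * (ρ x * g x ^ 2 / x) -
            ρ x * (4 * (l + v x) * (f x * g x)) := by ring
        change -(2 * τ ^ 2 * x / (x ^ 2 + τ ^ 2) ^ 2 * (g x ^ 2 - f x ^ 2) +
          ρ x * (-(2 * (k + 1) * (g x ^ 2 / x)) + 2 * (m - l - v x) * (f x * g x) -
            (2 * k * (f x ^ 2 / x) + 2 * (m + l + v x) * (f x * g x)))) ≤ _
        rw [e1]
        have e2 := hρ'0 x hx0
        have e2' := hρ' x hx0
        have e5 : 0 ≤ ρ x * f x ^ 2 / x := by positivity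
        have e6 : 0 ≤ ρ x * g x ^ 2 / x := by positivity
        have e8 : 4 * (l + v x) * (f x * g x) ≤ 4 * |l + v x| * |f x * g x| := by
          have := le_abs_self ((l + v x) * (f x * g x))
          rw [abs_mul] at this; linarith
        have e9 := mul_le_mul_of_nonneg_left e8 hr
        have e10 := hpt x hx
        have e11 : 2 * τ ^ 2 * x / (x ^ 2 + τ ^ 2) ^ 2 * f x ^ 2 ≤ 2 * (ρ x / x) * f x ^ 2 :=
          mul_le_mul_of_nonneg_right e2' (by positivity)
        have e12 : 2 * (ρ x / x) * f x ^ 2 = 2 * (ρ x * f x ^ 2 / x) := by ring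
        have e13 : i x = ρ x * f x ^ 2 / x + ρ x * g x ^ 2 / x := by simp only [hi]; ring
        have e14 : 0 ≤ 2 * τ ^ 2 * x / (x ^ 2 + τ ^ 2) ^ 2 * g x ^ 2 := by positivity
        have e15 : 2 * (ρ x * f x ^ 2 / x) ≤ -k * (ρ x * f x ^ 2 / x) := by nlinarith
        have e16 : ρ x * g x ^ 2 / x ≤ -(k + 1) * (ρ x * g x ^ 2 / x) := by nlinarith
        nlinarith)
      rw [hival] at h2
      change -(ρ T * (g T ^ 2 - f T ^ 2)) - -(ρ s * (g s ^ 2 - f s ^ 2)) ≤ _ at h2
      have h3 : ρ T * (g T ^ 2 - f T ^ 2) ≤ E := by simp only [hE]; nlinarith [sq_nonneg (f T), sq_nonneg (g T)]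
      have h4 : -(ρ s * (g s ^ 2 - f s ^ 2)) ≤ ρ s * (f s ^ 2 + g s ^ 2) := by nlinarith [sq_nonneg (g s)]
      linarith
  -- conclude
  have hρs1 : ρ s * (f s ^ 2 + g s ^ 2) ≤ 1 := by
    have h1 : ρ s ≤ s ^ 2 / τ ^ 2 := by
      simp only [hρ]
      gcongr
      nlinarith [sq_nonneg s]
    have h2 : s ^ 2 / τ ^ 2 * (f s ^ 2 + g s ^ 2) = s * (s * (f s ^ 2 + g s ^ 2)) / τ ^ 2 := by ring
    have h3 : ρ s * (f s ^ 2 + g s ^ 2) ≤ s ^ 2 / τ ^ 2 * (f s ^ 2 + g s ^ 2) :=
      mul_le_mul_of_nonneg_right h1 (by positivity)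
    rw [h2] at h3
    refine h3.trans ?_
    rw [div_le_one (by positivity)]
    exact hsu.le
  have hω1 : 4 * (ω / 2 * ((E + Ck * X) + X)) ≤ 1 / 4 * E + 1 / 4 * X := by
    have h1 : 4 * (ω / 2 * ((E + Ck * X) + X)) = 2 * ω * E + 2 * ω * (Ck + 1) * X := by ring
    have h2 : 2 * ω * (Ck + 1) = 1 / 4 := by simp only [hω]; field_simp; norm_num
    have h3 : 2 * ω ≤ 1 / 4 := by
      have : (1:ℝ) ≤ Ck + 1 := by linarith
      nlinarith
    rw [h1, h2]
    nlinarith
  have hXle : X ≤ 2 * E + 1 := by nlinarith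
  have hXge := log_lower (c := ε / 2) (by positivity) hs hsτ.le hτT ii hi0 (fun x hx => by
    have hx0 : 0 < x := hτ.trans_le hx.1
    have h1 := hcon x hx0 (lt_of_le_of_lt hx.2 hTδ)
    have h2 : 1 / 2 ≤ ρ x := by
      simp only [hρ]
      rw [div_le_div_iff₀ (by norm_num) (by positivity)]
      nlinarith [hx.1]
    simp only [hi]
    gcongr
    nlinarith)
  linarith

end

end Pool.Agent.helper84.Dir
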