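import Pool.Agent.helper84.DirReg

open MeasureTheory Set Filter Topology
open scoped NNReal

namespace Pool.Agent.helper84.Dir

section
variable {k m l : ℝ} {v f g : ℝ → ℝ}

lemma abs_mul_le_half (a b : ℝ) : |a * b| ≤ (a ^ 2 + b ^ 2) / 2 := by
  rw [abs_le]; constructor <;> nlinarith [sq_nonneg (a - b), sq_nonneg (a + b)]

/-- Weighted a priori bound at the origin for `k = -1`. -/
lemma reg_m1_bound (hv : Pot 1 v) (hc : Chan (-1) m l v f g) (hl : |l| < m) {T₁ : ℝ} (hT₁ : 0 < T₁) :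
    ∃ T, 0 < T ∧ T ≤ T₁ ∧ ∀ τ s, 0 < s → s < τ → τ < T → s * f s ^ 2 ≤ τ →
      (∫ x in s..T, x / (x + τ) * (f x ^ 2 / x)) ≤ 3 * g T ^ 2 + 2 ∧
      ∀ r ∈ Icc s T, r / (r + τ) * g r ^ 2 ≤ 3 * g T ^ 2 + 1 := by
  obtain ⟨hl1, hl2⟩ := abs_lt.1 hl
  have hm : 0 < m := lt_of_le_of_lt (abs_nonneg l) hl
  obtain ⟨T₀, hT₀, hsmall⟩ := small_near_zero hv (δ := 1) (ω := (1 / 16) ^ 2) one_pos (by positivity)
  set T := min (min T₀ 1) (min T₁ (1 / (16 * (2 * m + 1)))) with hT
  have hT0 : 0 < T := by positivity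
  have hTT₀ : T ≤ T₀ := (min_le_left _ _).trans (min_le_left _ _)
  have hTT₁ : T ≤ T₁ := (min_le_right _ _).trans (min_le_left _ _)
  have hTm : 16 * (2 * m + 1) * T ≤ 1 := by
    have : T ≤ 1 / (16 * (2 * m + 1)) := (min_le_right _ _).trans (min_le_right _ _)
    rw [le_div_iff₀ (by positivity)] at this
    linarith
  refine ⟨T, hT0, hTT₁, fun τ s hs hsτ hτT hsf => ?_⟩
  have hτ : 0 < τ := hs.trans hsτ
  have hsT : s < T := hsτ.trans hτT
  have hsm : ∫ x in s..T, x ^ 1 * pd v 1 x ^ (1 + 1) ≤ (1 / 16) ^ 2 := hsmall s T hs.le hsT.le hTT₀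
  set ρ : ℝ → ℝ := fun x => x / (x + τ) with hρ
  have hρ0 : ∀ x, 0 < x → 0 ≤ ρ x := fun x hx => by simp only [hρ]; positivity
  have hρ1 : ∀ x, 0 < x → ρ x ≤ 1 := fun x hx => by
    simp only [hρ]; rw [div_le_one (by positivity)]; linarith
  have hρ' : ∀ x, 0 < x → τ / (x + τ) ^ 2 ≤ ρ x / x := by
    intro x hx
    have e : ρ x / x - τ / (x + τ) ^ 2 = x / (x + τ) ^ 2 := by
      simp only [hρ]; field_simp; ring
    have : 0 ≤ x / (x + τ) ^ 2 := by positivity
    linarith
  have hρ'0 : ∀ x, 0 < x → 0 ≤ τ / (x + τ) ^ 2 := fun x hx => by positivity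
  have hfc := hc.fc hs hsT
  have hgc := hc.gc hs hsT
  have hρc : ContinuousOn ρ (Icc s T) := by
    refine ContinuousOn.div continuousOn_id (by fun_prop) fun x hx => ?_
    have := hs.trans_le hx.1
    positivity
  set i : ℝ → ℝ := fun x => ρ x * (f x ^ 2 / x) with hi
  have hic : ContinuousOn i (Icc s T) := hρc.mul (cI hs hfc)
  have hi0 : ∀ x ∈ Icc s T, 0 ≤ i x := fun x hx => by
    have h1 := hs.trans_le hx.1
    have := hρ0 x h1
    simp only [hi]; positivity
  set X := ∫ x in s..T, i x with hX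
  have hX0 : 0 ≤ X := intervalIntegral.integral_nonneg hsT.le hi0
  have ii := ii_of_cont hsT.le hic
  have hφc : ContinuousOn (fun x => ρ x * |f x * g x|) (Icc s T) := hρc.mul (hfc.mul hgc).abs
  set PQ := ∫ x in s..T, pd v 1 x * (ρ x * |f x * g x|) with hPQ
  have iPQ := ii_pdc hv one_pos hs hsT.le hφc
  -- sup of ρ g²
  obtain ⟨x₀, hx₀, hmax⟩ := isCompact_Icc.exists_isMaxOn
    (⟨s, le_rfl, hsT.le⟩ : (Icc s T).Nonempty) (hρc.mul (hgc.pow 2))
  set S := ρ x₀ * g x₀ ^ 2 with hS
  have hSle : ∀ x ∈ Icc s T, ρ x * g x ^ 2 ≤ S := fun x hx => hmax hx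
  have hS0 : 0 ≤ S := by
    have := hρ0 x₀ (hs.trans_le hx₀.1)
    positivity
  -- the L¹ bound
  have hpt1 : ∀ x ∈ Icc s T, ρ x * |f x * g x| ≤ T / 2 * i x + S / 2 := by
    intro x hx
    have hx0 : 0 < x := hs.trans_le hx.1
    have hr := hρ0 x hx0
    have h1 := hSle x hx
    have e : T / 2 * i x + x / (2 * T) * (ρ x * g x ^ 2) - ρ x * |f x * g x| =
        ρ x / (2 * T * x) * (T * |f x| - x * |g x|) ^ 2 := by
      simp only [hi]
      rw [abs_mul, ← sq_abs (f x), ← sq_abs (g x)]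
      field_simp
      ring
    have e2 : 0 ≤ ρ x / (2 * T * x) * (T * |f x| - x * |g x|) ^ 2 := by positivity
    have e3 : x / (2 * T) * (ρ x * g x ^ 2) ≤ 1 / 2 * S := by
      refine mul_le_mul ?_ h1 (by positivity) (by norm_num)
      rw [div_le_div_iff₀ (by positivity) (by norm_num)]
      linarith [hx.2]
    linarith
  have hPQle : PQ ≤ (1 / 16) / 2 * (S + X) := by
    refine cs hv one_pos (by norm_num) hs hsT hsm hφc hic hS0 le_rfl hX0 ?_
    intro x hx
    have hx0 : 0 < x := hs.trans_le hx.1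
    have e : (ρ x * |f x * g x|) ^ 2 / x = (ρ x * g x ^ 2) * i x := by
      simp only [hi]; rw [mul_pow, sq_abs]; ring
    rw [e]
    exact mul_le_mul_of_nonneg_right (hSle x hx) (hi0 x hx)
  have hTs : (T - s) * S ≤ T * S := mul_le_mul_of_nonneg_right (by linarith) hS0
  -- bound for S
  have hSb : S ≤ g T ^ 2 + (2 * (2 * m + 1) * (T / 2 * X + (T - s) * (S / 2)) + 2 * PQ) := by
    have h1 := (rho1_acd hτ hs hsT.le).mul (hc.acdgg hs hsT)
    have iu : IntervalIntegrable (fun x => 2 * (2 * m + 1) * (T / 2 * i x + S / 2) +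
        2 * (pd v 1 x * (ρ x * |f x * g x|))) volume s T :=
      (((ii.const_mul _).add (by simp)).const_mul _).add (iPQ.const_mul _)
    have h2 := up_right hsT h1 iu (fun x hx => by
      have hx0 : 0 < x := hs.trans_le hx.1
      have h3 := hi0 x hx
      have h4 := pd_nonneg v 1 x
      have h5 := hρ0 x hx0
      positivity) (fun x hx => by
        have hx0 : 0 < x := hs.trans_le hx.1
        have hr := hρ0 x hx0
        have hvx := hv.pos x
        have h3 := sub_pd_le v 1 x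
        have hp := pd_nonneg v 1 x
        have e1 : |m - l - v x| ≤ 2 * m + 1 + pd v 1 x := by
          rw [abs_le]; constructor <;> linarith
        have e2 := hρ'0 x hx0
        have e3 : -(2 * (m - l - v x) * (f x * g x)) ≤ 2 * |m - l - v x| * |f x * g x| := by
          have := neg_abs_le ((m - l - v x) * (f x * g x))
          rw [abs_mul] at this; linarith
        have e4 := mul_le_mul_of_nonneg_left e3 hr
        have e5 : ρ x * (2 * |m - l - v x| * |f x * g x|) ≤
            ρ x * (2 * (2 * m + 1 + pd v 1 x) * |f x * g x|) := by gcongr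
        have e6 := hpt1 x hx
        have e7 : 0 ≤ τ / (x + τ) ^ 2 * g x ^ 2 := by positivity
        have e8 : (2 * (2 * m + 1)) * (ρ x * |f x * g x|) ≤ (2 * (2 * m + 1)) * (T / 2 * i x + S / 2) :=
          mul_le_mul_of_nonneg_left e6 (by positivity)
        change -(τ / (x + τ) ^ 2 * g x ^ 2 + ρ x * (-(2 * (-1 + 1) * (g x ^ 2 / x)) +
          2 * (m - l - v x) * (f x * g x))) ≤ _
        have e9 : -(2 * (-1 + 1) * (g x ^ 2 / x)) = 0 := by ring
        rw [e9, zero_add]
        linarith) x₀ hx₀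
    have h3 : ∫ x in s..T, (2 * (2 * m + 1) * (T / 2 * i x + S / 2) +
        2 * (pd v 1 x * (ρ x * |f x * g x|))) =
        2 * (2 * m + 1) * (T / 2 * X + (T - s) * (S / 2)) + 2 * PQ := by
      rw [intervalIntegral.integral_add (((ii.const_mul _).add (by simp)).const_mul _)
        (iPQ.const_mul _), intervalIntegral.integral_const_mul, intervalIntegral.integral_const_mul,
        intervalIntegral.integral_add (ii.const_mul _) (by simp),
        intervalIntegral.integral_const_mul, intervalIntegral.integral_const, smul_eq_mul]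
    rw [h3] at h2
    have h4 : T / (T + τ) * g T ^ 2 ≤ g T ^ 2 := by
      have := hρ1 T hT0
      simp only [hρ] at this
      nlinarith [sq_nonneg (g T)]
    exact h2.trans (by linarith)
  -- bound for X
  have hXb : X ≤ g T ^ 2 + ρ s * f s ^ 2 + (4 * (m + 1) * (T / 2 * X + (T - s) * (S / 2)) + 4 * PQ) := by
    have h1 := ((rho1_acd hτ hs hsT.le).mul ((hc.acdgg hs hsT).sub (hc.acdff hs hsT))).neg
    have iu0 : IntervalIntegrable (fun x => 4 * (m + 1) * (T / 2 * i x + S / 2) +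
        4 * (pd v 1 x * (ρ x * |f x * g x|))) volume s T :=
      (((ii.const_mul _).add (by simp)).const_mul _).add (iPQ.const_mul _)
    have h2 := h1.integral_mono_le (u := fun x => (4 * (m + 1) * (T / 2 * i x + S / 2) +
        4 * (pd v 1 x * (ρ x * |f x * g x|))) - i x) hsT.le (iu0.sub ii) (ae_of_all _ fun x hx => by
        have hx0 : 0 < x := hs.trans hx.1
        have hxI : x ∈ Icc s T := ⟨hx.1.le, hx.2⟩
        have hr := hρ0 x hx0
        have hvx := hv.pos x
        have h3 := sub_pd_le v 1 x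
        have hp := pd_nonneg v 1 x
        have e1 : |l + v x| ≤ m + 1 + pd v 1 x := by
          rw [abs_le]; constructor <;> linarith
        have e2 := hρ'0 x hx0
        have e2' := hρ' x hx0
        have e3 : 4 * (l + v x) * (f x * g x) ≤ 4 * |l + v x| * |f x * g x| := by
          have := le_abs_self ((l + v x) * (f x * g x))
          rw [abs_mul] at this; linarith
        have e4 := mul_le_mul_of_nonneg_left e3 hr
        have e5 : ρ x * (4 * |l + v x| * |f x * g x|) ≤
            ρ x * (4 * (m + 1 + pd v 1 x) * |f x * g x|) := by gcongr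
        have e6 := hpt1 x hxI
        have e7 : 0 ≤ τ / (x + τ) ^ 2 * g x ^ 2 := by positivity
        have e8 : (4 * (m + 1)) * (ρ x * |f x * g x|) ≤ (4 * (m + 1)) * (T / 2 * i x + S / 2) :=
          mul_le_mul_of_nonneg_left e6 (by positivity)
        have e9 : τ / (x + τ) ^ 2 * f x ^ 2 ≤ ρ x / x * f x ^ 2 :=
          mul_le_mul_of_nonneg_right e2' (by positivity)
        have e10 : ρ x / x * f x ^ 2 = i x := by simp only [hi]; ring
        change -(τ / (x + τ) ^ 2 * (g x ^ 2 - f x ^ 2) + ρ x * ((-(2 * (-1 + 1) * (g x ^ 2 / x)) +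
          2 * (m - l - v x) * (f x * g x)) - (2 * (-1) * (f x ^ 2 / x) +
            2 * (m + l + v x) * (f x * g x)))) ≤ _
        have e11 : ρ x * ((-(2 * (-1 + 1) * (g x ^ 2 / x)) +
          2 * (m - l - v x) * (f x * g x)) - (2 * (-1) * (f x ^ 2 / x) +
            2 * (m + l + v x) * (f x * g x))) = 2 * i x - ρ x * (4 * (l + v x) * (f x * g x)) := by
          simp only [hi]; ring
        rw [e11]
        linarith)
    rw [intervalIntegral.integral_sub iu0 ii, intervalIntegral.integral_add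
      (((ii.const_mul _).add (by simp)).const_mul _)
        (iPQ.const_mul _), intervalIntegral.integral_const_mul, intervalIntegral.integral_const_mul,
        intervalIntegral.integral_add (ii.const_mul _) (by simp),
        intervalIntegral.integral_const_mul, intervalIntegral.integral_const, smul_eq_mul] at h2
    change -(ρ T * (g T ^ 2 - f T ^ 2)) - -(ρ s * (g s ^ 2 - f s ^ 2)) ≤ _ at h2
    have hρT := hρ0 T hT0
    have hρT1 := hρ1 T hT0
    have hρs := hρ0 s hs
    have h3 : ρ T * (g T ^ 2 - f T ^ 2) ≤ g T ^ 2 := by nlinarith [sq_nonneg (f T), sq_nonneg (g T)]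
    have h4 : -(ρ s * f s ^ 2) ≤ ρ s * (g s ^ 2 - f s ^ 2) := by nlinarith [sq_nonneg (g s)]
    linarith
  have hρs1 : ρ s * f s ^ 2 ≤ 1 := by
    have h1 : ρ s ≤ s / τ := by
      simp only [hρ]
      gcongr
      linarith
    have h3 : ρ s * f s ^ 2 ≤ s / τ * f s ^ 2 := mul_le_mul_of_nonneg_right h1 (by positivity)
    refine h3.trans ?_
    rw [div_mul_eq_mul_div, div_le_one hτ]
    exact hsf
  have hTX : 16 * ((2 * m + 1) * (T * X)) ≤ X := by nlinarith
  have hTS : 16 * ((2 * m + 1) * (T * S)) ≤ S := by nlinarith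
  have hTX0 : 0 ≤ T * X := by positivity
  have hTS0 : 0 ≤ T * S := by positivity
  have hSf : S ≤ g T ^ 2 + (X + S) / 8 := by nlinarith
  have hXf : X ≤ g T ^ 2 + 1 + (X + S) / 4 := by nlinarith
  have hg0 : 0 ≤ g T ^ 2 := by positivity
  refine ⟨?_, fun r hr => (hSle r hr).trans ?_⟩
  · change X ≤ _
    linarith
  · linarith

lemma reg_m1_g (hv : Pot 1 v) (hc : Chan (-1) m l v f g) (hl : |l| < m) {T₁ : ℝ} (hT₁ : 0 < T₁)
    (hint : IntegrableOn (fun x => f x ^ 2) (Ioc 0 T₁)) :
    ∃ T M, 0 < T ∧ 0 ≤ M ∧ ∀ r, 0 < r → r < T → g r ^ 2 ≤ M := by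
  obtain ⟨T, hT, hTT₁, hb⟩ := reg_m1_bound hv hc hl hT₁
  refine ⟨T, 2 * (3 * g T ^ 2 + 1), hT, by positivity, fun r hr hrT => ?_⟩
  obtain ⟨s, hs, hsr, hsf⟩ := seq_zero hT₁ hint (ε := r) (δ := r) hr hr
  have h1 := (hb r s hs hsr hrT hsf.le).2 r ⟨hsr.le, hrT.le⟩
  have h2 : r / (r + r) = 1 / 2 := by field_simp; norm_num
  rw [h2] at h1
  linarith

lemma reg_m1_f (hv : Pot 1 v) (hc : Chan (-1) m l v f g) (hl : |l| < m) {T₁ : ℝ} (hT₁ : 0 < T₁)
    (hint : IntegrableOn (fun x => f x ^ 2) (Ioc 0 T₁)) {ε δ : ℝ} (hε : 0 < ε) (hδ : 0 < δ) :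
    ∃ s, 0 < s ∧ s < δ ∧ f s ^ 2 < ε := by
  obtain ⟨T, hT, hTT₁, hb⟩ := reg_m1_bound hv hc hl (T₁ := min T₁ (δ / 2)) (by positivity)
  by_contra hcon
  push Not at hcon
  obtain ⟨τ, hτ, hτT, hlog⟩ := log_unbounded (c := ε / 2) (M := 3 * g T ^ 2 + 2) (T := T)
    (by positivity) hT
  obtain ⟨s, hs, hsτ, hsu⟩ := seq_zero hT₁ hint (ε := τ) (δ := τ) hτ hτ
  have h1 := (hb τ s hs hsτ hτT hsu.le).1
  have hsT := hsτ.trans hτT
  have hfc := hc.fc hs hsT
  have hcont : ContinuousOn (fun x => x / (x + τ) * (f x ^ 2 / x)) (Icc s T) := by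
    refine ContinuousOn.mul (ContinuousOn.div continuousOn_id (by fun_prop) fun x hx => ?_) (cI hs hfc)
    have := hs.trans_le hx.1
    positivity
  have h2 := log_lower (c := ε / 2) (by positivity) hs hsτ.le hτT (ii_of_cont hsT.le hcont)
    (fun x hx => by have := hs.trans_le hx.1; positivity) (fun x hx => by
      have hx0 : 0 < x := hτ.trans_le hx.1
      have h3 := hcon x hx0 (by
        have : x ≤ δ / 2 := hx.2.trans (hTT₁.trans (min_le_right _ _))
        linarith)
      have h4 : 1 / 2 ≤ x / (x + τ) := by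
        rw [div_le_div_iff₀ (by norm_num) (by positivity)]; linarith [hx.1]
      calc ε / 2 / x = 1 / 2 * (ε / x) := by ring
        _ ≤ x / (x + τ) * (f x ^ 2 / x) := by gcongr)
  linarith

end

end Pool.Agent.helper84.Dir
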