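import Pool.Agent.helper84.DirPot

open MeasureTheory Set Filter Topology
open scoped NNReal

namespace Pool.Agent.helper84.Dir

/-- `(F,H)` solves `F' = a H`, `H' = b F` on `[r₁,∞)`. -/
structure LSys (a b F H : ℝ → ℝ) (r₁ : ℝ) : Prop where
  hF : ∀ R, r₁ < R → ACD F (fun r => a r * H r) r₁ R
  hH : ∀ R, r₁ < R → ACD H (fun r => b r * F r) r₁ R

lemma LSys.mono {a b F H : ℝ → ℝ} {r₁ r₂ : ℝ} (h : LSys a b F H r₁) (h12 : r₁ ≤ r₂) :
    LSys a b F H r₂ := by
  refine ⟨fun R hR => (h.hF R (lt_of_le_of_lt h12 hR)).mono ?_,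
    fun R hR => (h.hH R (lt_of_le_of_lt h12 hR)).mono ?_⟩ <;>
  · rw [uIcc_of_le hR.le, uIcc_of_le (h12.trans hR.le)]
    exact Icc_subset_Icc h12 le_rfl

/-- first point where a continuous function ceases to be positive -/
lemma exists_first {F : ℝ → ℝ} {r₁ R : ℝ} (h1R : r₁ < R) (hc : ContinuousOn F (Icc r₁ R))
    (h0 : 0 < F r₁) (hR : F R ≤ 0) :
    ∃ T, r₁ < T ∧ T ≤ R ∧ F T ≤ 0 ∧ ∀ r, r₁ ≤ r → r < T → 0 < F r := by
  set S := Icc r₁ R ∩ F ⁻¹' Iic 0 with hS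
  have hclosed : IsClosed S := hc.preimage_isClosed_of_isClosed isClosed_Icc isClosed_Iic
  have hne : S.Nonempty := ⟨R, ⟨h1R.le, le_rfl⟩, hR⟩
  have hbdd : BddBelow S := ⟨r₁, fun x hx => hx.1.1⟩
  have hT := hclosed.csInf_mem hne hbdd
  refine ⟨sInf S, ?_, hT.1.2, hT.2, fun r hr1 hrT => ?_⟩
  · rcases eq_or_lt_of_le hT.1.1 with h | h
    · exfalso
      have := hT.2
      rw [← h] at this
      exact absurd this (not_le.2 h0)
    · exact h
  · by_contra hcon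
    push Not at hcon
    exact absurd (csInf_le hbdd (show r ∈ S from ⟨⟨hr1, (hrT.le.trans hT.1.2)⟩, hcon⟩))
      (not_le.2 hrT)

/-- Comparison with a (nonpositive) lower solution of the Riccati equation. -/
lemma subsol {a b F H Y Y' : ℝ → ℝ} {r₁ : ℝ} (h : LSys a b F H r₁)
    (hY : ∀ R, r₁ < R → ACD Y Y' r₁ R)
    (ha : ∀ r, r₁ < r → 0 ≤ a r)
    (hq : ∀ᵐ r : ℝ, r₁ < r → 0 ≤ b r - a r * Y r ^ 2 - Y' r)
    (hint : ∀ R, r₁ < R → IntervalIntegrable (fun r => -(a r * Y r)) volume r₁ R)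
    (h0 : 0 < F r₁) (h1 : Y r₁ * F r₁ ≤ H r₁) :
    ∀ r, r₁ ≤ r → 0 < F r ∧ Y r * F r ≤ H r := by
  set C : ℝ → ℝ := fun r => ∫ t in r₁..r, -(a t * Y t) with hC
  have hCacd : ∀ R, r₁ < R → ACD C (fun r => -(a r * Y r)) r₁ R := fun R hR =>
    ACD.of_integral (c := 0) (x₀ := r₁) (hint R hR) left_mem_uIcc (by intro x _; simp [hC]) hR
  have hC0 : C r₁ = 0 := by simp [hC]
  -- D = H - Y F
  have hD : ∀ R, r₁ < R → ACD (fun r => Real.exp (-C r) * (H r - Y r * F r))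
      (fun r => Real.exp (-C r) * ((b r - a r * Y r ^ 2 - Y' r) * F r)) r₁ R := by
    intro R hR
    have h2 := ((hCacd R hR).neg.exp).mul ((h.hH R hR).sub ((hY R hR).mul (h.hF R hR)))
    refine h2.congr_der' fun x _ => ?_
    ring
  have hE : ∀ R, r₁ < R → ACD (fun r => Real.exp (C r) * F r)
      (fun r => Real.exp (C r) * (a r * (H r - Y r * F r))) r₁ R := by
    intro R hR
    have h2 := ((hCacd R hR).exp).mul (h.hF R hR)
    refine h2.congr_der' fun x _ => ?_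
    ring
  -- positivity of D as long as F is nonnegative
  have hDpos : ∀ T, r₁ < T → (∀ r, r₁ ≤ r → r < T → 0 < F r) → Y T * F T ≤ H T := by
    intro T hT hFT
    have h2 := (hD T hT).le_of_nonneg hT.le (by
      filter_upwards [hq, show ∀ᵐ x : ℝ, x ≠ T by simp [ae_iff, measure_singleton]] with x hx hxT hxm
      have := hFT x hxm.1.le (lt_of_le_of_ne hxm.2 hxT)
      have := hx hxm.1
      positivity)
    have h3 : 0 ≤ Real.exp (-C r₁) * (H r₁ - Y r₁ * F r₁) :=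
      mul_nonneg (Real.exp_pos _).le (by linarith)
    have h4 : 0 ≤ Real.exp (-C T) * (H T - Y T * F T) := h3.trans h2
    have := nonneg_of_mul_nonneg_right h4 (Real.exp_pos _)
    linarith
  have hFpos : ∀ r, r₁ ≤ r → 0 < F r := by
    intro r hr
    by_contra hcon
    push Not at hcon
    have hrr : r₁ < r := by
      rcases eq_or_lt_of_le hr with h2 | h2
      · exfalso; rw [← h2] at hcon; linarith
      · exact h2
    have hcont : ContinuousOn F (Icc r₁ r) := by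
      have := (h.hF r hrr).continuousOn; rwa [uIcc_of_le hrr.le] at this
    obtain ⟨T, hT1, hT2, hT3, hT4⟩ := exists_first hrr hcont h0 hcon
    have h2 := (hE T hT1).le_of_nonneg hT1.le (ae_of_all _ fun x hx => by
      have h3 : Y x * F x ≤ H x := hDpos x hx.1 fun y hy1 hy2 => hT4 y hy1 (hy2.trans_le hx.2)
      have := ha x hx.1
      have h4 : 0 ≤ H x - Y x * F x := by linarith
      positivity)
    have h3 : 0 < Real.exp (C r₁) * F r₁ := by positivity
    have h4 : 0 < Real.exp (C T) * F T := h3.trans_le h2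
    have := pos_of_mul_pos_right h4 (Real.exp_pos _).le
    linarith
  intro r hr
  refine ⟨hFpos r hr, ?_⟩
  rcases eq_or_lt_of_le hr with h2 | h2
  · rw [← h2]; exact h1
  · exact hDpos r h2 fun y hy _ => hFpos y hy

section
variable {ν : ℕ} {v : ℝ → ℝ} {m l : ℝ}

noncomputable def FF (ν : ℕ) (m l : ℝ) (v : ℝ → ℝ) : ℝ → ℝ := Fs (cA ν m l v) (cB ν m l v)
noncomputable def HH (ν : ℕ) (m l : ℝ) (v : ℝ → ℝ) : ℝ → ℝ := Hs (cA ν m l v) (cB ν m l v)

lemma FF_sys (h : Pot ν v) (hm : 0 < m) (hl : |l| ≤ m) :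
    LSys (cA ν m l v) (cB ν m l v) (FF ν m l v) (HH ν m l v) 0 :=
  ⟨fun _ hR => Fs_acd (h.vdata hm) (vcoef h.meas h.pos hl) hR,
   fun _ hR => Hs_acd (h.vdata hm) (vcoef h.meas h.pos hl) hR⟩

lemma FF_zero (h : Pot ν v) (hm : 0 < m) (hl : |l| ≤ m) : FF ν m l v 0 = 1 :=
  Fs_zero (h.vdata hm) (vcoef h.meas h.pos hl)

lemma HH_zero (h : Pot ν v) (hm : 0 < m) (hl : |l| ≤ m) : HH ν m l v 0 = 0 :=
  Hs_zero (h.vdata hm) (vcoef h.meas h.pos hl)

lemma FF_diff (h : Pot ν v) (hm : 0 < m) (hl : |l| ≤ m) {l' : ℝ} (hl' : |l'| ≤ m) {r : ℝ}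
    (hr : 0 ≤ r) : |FF ν m l v r - FF ν m l' v r| ≤
      3 * (|l - l'| / (2 * m)) * Real.exp (2 * hI (wA ν m v) (wB ν m v) r) := by
  refine Fs_diff (by positivity) (h.vdata hm) (vcoef h.meas h.pos hl) (vcoef h.meas h.pos hl')
    ?_ ?_ hr
  · intro t ht
    have hv := h.pos t
    have e : cA ν m l v t - cA ν m l' v t = (t ^ ν)⁻¹ * (l - l') := by unfold cA; ring
    rw [e, abs_mul, abs_of_pos (a := (t ^ ν)⁻¹) (by positivity), wA, abs_of_pos ht]
    have : |l - l'| ≤ |l - l'| / (2 * m) * (2 * m + v t) := by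
      rw [mul_add, div_mul_cancel₀ _ (by positivity)]
      have : 0 ≤ |l - l'| / (2 * m) * v t := by positivity
      linarith
    calc (t ^ ν)⁻¹ * |l - l'| ≤ (t ^ ν)⁻¹ * (|l - l'| / (2 * m) * (2 * m + v t)) := by gcongr
      _ = _ := by ring
  · intro t ht
    have hv := h.pos t
    have e : cB ν m l v t - cB ν m l' v t = (t ^ ν) * (l' - l) := by unfold cB; ring
    rw [e, abs_mul, abs_of_pos (a := (t ^ ν)) (by positivity), wB, abs_of_pos ht, abs_sub_comm]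
    have : |l - l'| ≤ |l - l'| / (2 * m) * (2 * m + v t) := by
      rw [mul_add, div_mul_cancel₀ _ (by positivity)]
      have : 0 ≤ |l - l'| / (2 * m) * v t := by positivity
      linarith
    calc (t ^ ν) * |l - l'| ≤ (t ^ ν) * (|l - l'| / (2 * m) * (2 * m + v t)) := by gcongr
      _ = _ := by ring

lemma HH_diff (h : Pot ν v) (hm : 0 < m) (hl : |l| ≤ m) {l' : ℝ} (hl' : |l'| ≤ m) {r : ℝ}
    (hr : 0 ≤ r) : |HH ν m l v r - HH ν m l' v r| ≤
      3 * (|l - l'| / (2 * m)) * BI (wB ν m v) r * Real.exp (2 * hI (wA ν m v) (wB ν m v) r) := by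
  refine Hs_diff (by positivity) (h.vdata hm) (vcoef h.meas h.pos hl) (vcoef h.meas h.pos hl')
    ?_ ?_ hr
  · intro t ht
    have hv := h.pos t
    have e : cA ν m l v t - cA ν m l' v t = (t ^ ν)⁻¹ * (l - l') := by unfold cA; ring
    rw [e, abs_mul, abs_of_pos (a := (t ^ ν)⁻¹) (by positivity), wA, abs_of_pos ht]
    have : |l - l'| ≤ |l - l'| / (2 * m) * (2 * m + v t) := by
      rw [mul_add, div_mul_cancel₀ _ (by positivity)]
      have : 0 ≤ |l - l'| / (2 * m) * v t := by positivity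
      linarith
    calc (t ^ ν)⁻¹ * |l - l'| ≤ (t ^ ν)⁻¹ * (|l - l'| / (2 * m) * (2 * m + v t)) := by gcongr
      _ = _ := by ring
  · intro t ht
    have hv := h.pos t
    have e : cB ν m l v t - cB ν m l' v t = (t ^ ν) * (l' - l) := by unfold cB; ring
    rw [e, abs_mul, abs_of_pos (a := (t ^ ν)) (by positivity), wB, abs_of_pos ht, abs_sub_comm]
    have : |l - l'| ≤ |l - l'| / (2 * m) * (2 * m + v t) := by
      rw [mul_add, div_mul_cancel₀ _ (by positivity)]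
      have : 0 ≤ |l - l'| / (2 * m) * v t := by positivity
      linarith
    calc (t ^ ν) * |l - l'| ≤ (t ^ ν) * (|l - l'| / (2 * m) * (2 * m + v t)) := by gcongr
      _ = _ := by ring

lemma cA_pos (hpos : ∀ r, 0 ≤ v r) (hl : -m < l) {r : ℝ} (hr : 0 < r) : 0 < cA ν m l v r := by
  have := hpos r
  unfold cA
  have : 0 < m + l + v r := by linarith
  positivity

/-- The comparison function. -/
lemma pd_prim (h : Pot ν v) {δ : ℝ} (hδ : 0 < δ) (c : ℝ) {r₁ : ℝ} (hr₁ : 0 ≤ r₁) {R : ℝ} (hR : r₁ < R) :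
    ACD (fun r => c * ∫ s in r₁..r, s ^ ν * pd v δ s) (fun r => c * (r ^ ν * pd v δ r)) r₁ R := by
  refine ACD.const_mul c ?_
  exact ACD.of_integral (c := 0) (x₀ := r₁) (h.ii_pd hδ hr₁ hR.le) left_mem_uIcc
    (by intro x _; simp) hR

/-- Cone lemma: if `F > 0`, `H ≥ 0` at `r₁`, then `F` stays positive and `H ≥ - bb r^ν F`. -/
lemma cone (h : Pot ν v) (hm : 0 < m) (hl : |l| < m) {F H : ℝ → ℝ} {r₁ : ℝ} (hr₁ : 0 ≤ r₁)
    (hs : LSys (cA ν m l v) (cB ν m l v) F H r₁) {δ bb κ : ℝ} (hδ : 0 < δ) (hb : 0 < bb)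
    (hc1 : (1 + bb ^ 2) * κ ≤ bb)
    (hc2 : 0 ≤ (m - l) - (m + l) * bb ^ 2 - (1 + bb ^ 2) * δ)
    (hκ : ∀ r, r₁ ≤ r → ∫ s in r₁..r, s ^ ν * pd v δ s ≤ κ * r ^ ν)
    (h0 : 0 < F r₁) (h1 : 0 ≤ H r₁) :
    ∀ r, r₁ ≤ r → 0 < F r ∧ -(bb * r ^ ν) * F r ≤ H r := by
  obtain ⟨hl1, hl2⟩ := abs_lt.1 hl
  set Y : ℝ → ℝ := fun r => -(1 + bb ^ 2) * ∫ s in r₁..r, s ^ ν * pd v δ s with hY
  have hYint : ∀ r, r₁ ≤ r → 0 ≤ ∫ s in r₁..r, s ^ ν * pd v δ s := by
    intro r hr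
    refine intervalIntegral.integral_nonneg hr fun s hs => ?_
    have h2 := pd_nonneg v δ s
    have h3 : 0 ≤ s := hr₁.trans hs.1
    positivity
  have hYle : ∀ r, r₁ ≤ r → -(bb * r ^ ν) ≤ Y r ∧ Y r ≤ 0 := by
    intro r hr
    have h2 := hYint r hr
    have h3 := hκ r hr
    have hr0 : 0 ≤ r := hr₁.trans hr
    have h4 : 0 ≤ r ^ ν := by positivity
    simp only [hY]
    constructor
    · have h5 : (1 + bb ^ 2) * ∫ s in r₁..r, s ^ ν * pd v δ s ≤ (1 + bb ^ 2) * (κ * r ^ ν) :=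
        mul_le_mul_of_nonneg_left h3 (by positivity)
      have h6 : (1 + bb ^ 2) * (κ * r ^ ν) ≤ bb * r ^ ν := by
        rw [← mul_assoc]; exact mul_le_mul_of_nonneg_right hc1 h4
      linarith
    · have : 0 ≤ (1 + bb ^ 2) * ∫ s in r₁..r, s ^ ν * pd v δ s := by positivity
      linarith
  have hYsq : ∀ r, r₁ ≤ r → Y r ^ 2 ≤ (bb * r ^ ν) ^ 2 := by
    intro r hr
    have h2 := hYle r hr
    nlinarith [h2.1, h2.2]
  have hfin := subsol (Y := Y) (Y' := fun r => -(1 + bb ^ 2) * (r ^ ν * pd v δ r)) hs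
    (fun R hR => pd_prim h hδ _ hr₁ hR)
    (fun r hr => (cA_pos h.pos (by linarith) (lt_of_le_of_lt hr₁ hr)).le) ?_ ?_ h0 ?_
  · intro r hr
    obtain ⟨h2, h3⟩ := hfin r hr
    refine ⟨h2, le_trans ?_ h3⟩
    exact mul_le_mul_of_nonneg_right (hYle r hr).1 h2.le
  · refine ae_of_all _ fun r hr => ?_
    have hr0 : 0 < r := lt_of_le_of_lt hr₁ hr
    have hv := h.pos r
    have h2 := hYsq r hr.le
    have h3 : cA ν m l v r * Y r ^ 2 ≤ cA ν m l v r * (bb * r ^ ν) ^ 2 :=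
      mul_le_mul_of_nonneg_left h2 (cA_pos h.pos (by linarith) hr0).le
    have h4 : cA ν m l v r * (bb * r ^ ν) ^ 2 = r ^ ν * ((m + l + v r) * bb ^ 2) := by
      unfold cA; field_simp
    have h5 := sub_pd_le v δ r
    have h6 : 0 < r ^ ν := by positivity
    have h7 : cB ν m l v r - r ^ ν * ((m + l + v r) * bb ^ 2) +
      (1 + bb ^ 2) * (r ^ ν * pd v δ r) = r ^ ν * ((m - l) - (m + l) * bb ^ 2 -
        (1 + bb ^ 2) * (v r - pd v δ r)) := by unfold cB; ring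
    have h8 : 0 ≤ (m - l) - (m + l) * bb ^ 2 - (1 + bb ^ 2) * (v r - pd v δ r) := by
      have : (1 + bb ^ 2) * (v r - pd v δ r) ≤ (1 + bb ^ 2) * δ :=
        mul_le_mul_of_nonneg_left h5 (by positivity)
      linarith
    have h9 : 0 ≤ r ^ ν * ((m - l) - (m + l) * bb ^ 2 - (1 + bb ^ 2) * (v r - pd v δ r)) := by
      positivity
    linarith
  · intro R hR
    -- integrability of a * Y
    have hdom : IntervalIntegrable (fun r => (1 + bb ^ 2) * (wA ν m v r * BI (wB ν m v) r))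
        volume r₁ R := by
      have := ((h.vdata hm).ABint R (lt_of_le_of_lt hr₁ hR)).const_mul (1 + bb ^ 2)
      refine this.mono_set ?_
      rw [uIcc_of_le hR.le, uIcc_of_le (hr₁.trans hR.le)]
      exact Icc_subset_Icc hr₁ le_rfl
    have hYc : ContinuousOn Y (uIcc r₁ R) := (pd_prim h hδ _ hr₁ hR).continuousOn
    refine hdom.mono_fun ?_ ?_
    · refine (AEStronglyMeasurable.mul ?_ ?_).neg
      · exact (((measurable_id.pow_const ν).inv).mul
          (measurable_const.add h.meas)).aestronglyMeasurable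
      · exact (hYc.mono uIoc_subset_uIcc).aestronglyMeasurable measurableSet_uIoc
    · rw [uIoc_of_le hR.le]
      refine (ae_restrict_iff' measurableSet_Ioc).2 (ae_of_all _ fun r hr => ?_)
      have hr0 : 0 < r := lt_of_le_of_lt hr₁ hr.1
      have h2 := (vcoef (ν := ν) h.meas h.pos hl.le).ale r hr0
      have h3 := (h.vdata hm).Apos r (A := wA ν m v)
      have h4 := (h.vdata hm).BI_nonneg hr0.le
      have h5 := hYint r hr.1.le
      beta_reduce
      rw [Real.norm_eq_abs, Real.norm_eq_abs, abs_neg, abs_mul,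
        abs_of_nonneg (a := (1 + bb ^ 2) * (wA ν m v r * BI (wB ν m v) r)) (by positivity)]
      have h6 : |Y r| ≤ (1 + bb ^ 2) * BI (wB ν m v) r := by
        simp only [hY]
        rw [abs_mul, abs_neg, abs_of_nonneg (a := 1 + bb ^ 2) (by positivity), abs_of_nonneg h5]
        refine mul_le_mul_of_nonneg_left ?_ (by positivity)
        have e1 : ∫ s in r₁..r, s ^ ν * pd v δ s ≤ ∫ s in r₁..r, wB ν m v s := by
          refine intervalIntegral.integral_mono_on hr.1.le (h.ii_pd hδ hr₁ hr.1.le)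
            (h.wB_int m hr₁ hr.1.le) fun s hs => ?_
          have hs0 : 0 ≤ s := hr₁.trans hs.1
          unfold wB
          rw [abs_of_nonneg hs0]
          refine mul_le_mul_of_nonneg_left ?_ (by positivity)
          have := pd_le (v := v) (r := s) hδ.le (h.pos s)
          linarith
        refine e1.trans ?_
        refine intervalIntegral.integral_mono_interval hr₁ hr.1.le le_rfl ?_
          (h.wB_int m le_rfl hr0.le)
        refine (ae_restrict_iff' measurableSet_Ioc).2 (ae_of_all _ fun t _ => ?_)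
        exact (h.vdata hm).Bpos t
      calc |cA ν m l v r| * |Y r| ≤ wA ν m v r * ((1 + bb ^ 2) * BI (wB ν m v) r) :=
            mul_le_mul h2 h6 (abs_nonneg _) h3
        _ = _ := by ring
  · simp [hY, h1]

/-- Uniform cone radius for `l ∈ [0, l₀]`. -/
lemma cone_unif (h : Pot ν v) (hm : 0 < m) {l₀ : ℝ} (hl₀ : l₀ < m) :
    ∃ R₀, 1 ≤ R₀ ∧ ∀ l, 0 ≤ l → l ≤ l₀ → ∀ F H : ℝ → ℝ, ∀ r₁, R₀ ≤ r₁ →
      LSys (cA ν m l v) (cB ν m l v) F H r₁ → 0 < F r₁ → 0 ≤ H r₁ →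
      ∀ r, r₁ ≤ r → 0 < F r ∧ -(r ^ ν) * F r ≤ H r := by
  -- constants
  set d := m - l₀ with hd
  have hd0 : 0 < d := by simp only [hd]; linarith
  obtain ⟨bb, hb0, hb1, hb2⟩ : ∃ bb : ℝ, 0 < bb ∧ bb ≤ 1 / 2 ∧ 2 * m * bb ^ 2 ≤ d / 2 := by
    refine ⟨min (1/2) (d / (4 * m)), by positivity, min_le_left _ _, ?_⟩
    set x := min (1/2) (d / (4 * m)) with hx
    have h1 : x ≤ 1 / 2 := min_le_left _ _
    have h2 : x ≤ d / (4 * m) := min_le_right _ _
    have h3 : 0 < x := by positivity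
    have h4 : x ^ 2 ≤ 1 / 2 * (d / (4 * m)) := by nlinarith
    calc 2 * m * x ^ 2 ≤ 2 * m * (1 / 2 * (d / (4 * m))) := by gcongr
      _ = d / 4 := by field_simp
      _ ≤ d / 2 := by linarith
  obtain ⟨R₀, hR₀, htail⟩ := h.tail1 (δ := d / 8) (κ := bb / 2) (by positivity) (by positivity)
  refine ⟨R₀, hR₀, fun l hl0 hl1 F H r₁ hr₁ hs h0 h1 r hr => ?_⟩
  have hr₁0 : 0 ≤ r₁ := by linarith
  have hlm : |l| < m := by rw [abs_of_nonneg hl0]; linarith
  have hc := cone h hm hlm hr₁0 hs (δ := d / 8) (bb := bb) (κ := bb / 2) (by positivity) hb0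
    (by nlinarith) ?_ (fun r hr => htail r₁ r hr₁ hr) h0 h1 r hr
  · refine ⟨hc.1, le_trans ?_ hc.2⟩
    have h2 : bb * r ^ ν ≤ r ^ ν := by
      have : 0 ≤ r ^ ν := by have : 0 ≤ r := hr₁0.trans hr; positivity
      nlinarith
    have h3 := hc.1
    nlinarith
  · have h2 : (m + l) * bb ^ 2 ≤ 2 * m * bb ^ 2 := by
      have : 0 ≤ bb ^ 2 := by positivity
      nlinarith
    nlinarith [sq_nonneg bb]

end

end Pool.Agent.helper84.Dir
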