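import Pool.Agent.helper84.DirShoot

open MeasureTheory Set Filter Topology
open scoped NNReal

namespace Pool.Agent.helper84.Dir

section
variable {ν : ℕ} {v : ℝ → ℝ} {m l : ℝ}

/-- the smallness condition, in first moment form -/
def Small1 (ν : ℕ) (v : ℝ → ℝ) (η : ℝ) : Prop :=
  ∀ r, 0 ≤ r → ∫ s in 0..r, s ^ ν * pd v η s ≤ η * r ^ ν

lemma start_cone (h : Pot ν v) (hm : 0 < m) {η : ℝ} (hη : 0 < η) (h1 : η ≤ 2 / 5)
    (h2 : η ≤ 3 * m / 10) (hs : Small1 ν v η) :
    ∀ r, 0 ≤ r → 0 < FF ν m 0 v r ∧ -(1 / 2 * r ^ ν) * FF ν m 0 v r ≤ HH ν m 0 v r := by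
  have hl : |(0:ℝ)| ≤ m := by simpa using hm.le
  refine cone h hm (by simpa using hm) le_rfl (FF_sys h hm hl) (δ := η) (κ := η) hη
    (by norm_num) (by nlinarith) (by nlinarith) hs ?_ ?_
  · rw [FF_zero h hm hl]; norm_num
  · rw [HH_zero h hm hl]

lemma pow_int_ge (hν : ν = 0 ∨ ν = 1) {a r : ℝ} (ha : 0 ≤ a) (har : a ≤ r) :
    (r - a) * r ^ ν / 2 ≤ ∫ s in a..r, s ^ ν := by
  rcases hν with rfl | rfl
  · simp; linarith
  · simp only [pow_one, integral_id]
    nlinarith [mul_nonneg ha (sub_nonneg.2 har)]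

lemma start_grow (h : Pot ν v) (hm : 0 < m) {η : ℝ} (hη : 0 < η) (h1 : η ≤ 2 / 5)
    (h2 : η ≤ 3 * m / 10) (hs : Small1 ν v η) {R₀ : ℝ} (hR₀ : 0 < R₀) :
    ∃ r, R₀ ≤ r ∧ 0 < HH ν m 0 v r := by
  by_contra hcon
  push Not at hcon
  have hl : |(0:ℝ)| ≤ m := by simpa using hm.le
  have hc := start_cone h hm hη h1 h2 hs
  set c := 3 / 4 * m - 5 / 4 * η with hcdef
  have hc0 : 0 < c := by simp only [hcdef]; linarith
  set R := R₀ + 3 / c with hR
  have hRR : R₀ < R := by simp only [hR]; linarith [show 0 < 3 / c by positivity]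
  have hR0 : 0 < R := hR₀.trans hRR
  have hsys := (FF_sys (ν := ν) h hm hl).mono hR₀.le
  set F := FF ν m 0 v
  set H := HH ν m 0 v
  have hF := hsys.hF R hRR
  have hH := hsys.hH R hRR
  have hFpos : ∀ x ∈ uIcc R₀ R, 0 < F x := fun x hx => by
    rw [uIcc_of_le hRR.le] at hx
    exact (hc x (hR₀.le.trans hx.1)).1
  have hP := hH.mul (hF.inv hFpos)
  have hPle : ∀ x, R₀ ≤ x → -(1/2 * x ^ ν) ≤ H x * (F x)⁻¹ ∧ H x * (F x)⁻¹ ≤ 0 := by
    intro x hx
    have hx0 : 0 < x := hR₀.trans_le hx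
    obtain ⟨e1, e2⟩ := hc x hx0.le
    constructor
    · rw [← div_eq_mul_inv, le_div_iff₀ e1]; exact e2
    · exact mul_nonpos_of_nonpos_of_nonneg (hcon x hx) (by positivity)
  have hint1 : IntervalIntegrable (fun s : ℝ => c * s ^ ν) volume R₀ R :=
    Continuous.intervalIntegrable (by fun_prop) _ _
  have hint2 := (h.ii_pd hη hR₀.le hRR.le).const_mul (5/4)
  have hineq : ∫ s in R₀..R, (c * s ^ ν - 5 / 4 * (s ^ ν * pd v η s)) ≤
      ∫ x in R₀..R, (cB ν m 0 v x * F x * (F x)⁻¹ + H x * (-((F x)^2)⁻¹ * (cA ν m 0 v x * H x))) := by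
    refine intervalIntegral.integral_mono_on hRR.le (hint1.sub hint2) hP.intervalIntegrable ?_
    intro x hx
    have hx0 : 0 < x := hR₀.trans_le hx.1
    obtain ⟨e1, e2⟩ := hc x hx0.le
    obtain ⟨e3, e4⟩ := hPle x hx.1
    set P := H x * (F x)⁻¹ with hPd
    have e5 : cB ν m 0 v x * F x * (F x)⁻¹ + H x * (-((F x)^2)⁻¹ * (cA ν m 0 v x * H x)) =
        cB ν m 0 v x - cA ν m 0 v x * P ^ 2 := by
      simp only [hPd]; field_simp; ring
    rw [e5]
    have hv := h.pos x
    have e6 : P ^ 2 ≤ (1 / 2 * x ^ ν) ^ 2 := by nlinarith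
    have e7 : cA ν m 0 v x * P ^ 2 ≤ cA ν m 0 v x * (1 / 2 * x ^ ν) ^ 2 :=
      mul_le_mul_of_nonneg_left e6 (cA_pos h.pos (by linarith) hx0).le
    have e8 : cA ν m 0 v x * (1 / 2 * x ^ ν) ^ 2 = x ^ ν * ((m + 0 + v x) / 4) := by
      unfold cA; field_simp; ring
    have e9 := sub_pd_le v η x
    have e10 : 0 < x ^ ν := by positivity
    have e11 : cB ν m 0 v x - x ^ ν * ((m + 0 + v x) / 4) - (c * x ^ ν - 5 / 4 * (x ^ ν * pd v η x))
      = x ^ ν * (5 / 4 * (η - (v x - pd v η x))) := by unfold cB; simp only [hcdef]; ring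
    have e12 : 0 ≤ x ^ ν * (5 / 4 * (η - (v x - pd v η x))) := by
      have : 0 ≤ η - (v x - pd v η x) := by linarith
      positivity
    linarith
  rw [hP.integral, intervalIntegral.integral_sub hint1 hint2,
    intervalIntegral.integral_const_mul, intervalIntegral.integral_const_mul] at hineq
  have g1 := pow_int_ge h.hν hR₀.le hRR.le
  have g2 : ∫ s in R₀..R, s ^ ν * pd v η s ≤ η * R ^ ν := by
    refine le_trans ?_ (hs R hR0.le)
    refine intervalIntegral.integral_mono_interval hR₀.le hRR.le le_rfl ?_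
      (h.ii_pd hη le_rfl hR0.le)
    refine (ae_restrict_iff' measurableSet_Ioc).2 (ae_of_all _ fun t ht => ?_)
    have := pd_nonneg v η t
    have ht0 := ht.1
    show 0 ≤ t ^ ν * pd v η t
    positivity
  have g3 := (hPle R hRR.le).2
  have g4 := (hPle R₀ le_rfl).1
  have g5 : R₀ ^ ν ≤ R ^ ν := pow_le_pow_left₀ hR₀.le hRR.le ν
  have g6 : 0 < R ^ ν := by positivity
  have g7 : c * ((R - R₀) * R ^ ν / 2) = 3 / 2 * R ^ ν := by
    have : R - R₀ = 3 / c := by simp only [hR]; ring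
    rw [this]; field_simp
  have g8 : c * ((R - R₀) * R ^ ν / 2) ≤ c * ∫ s in R₀..R, s ^ ν :=
    mul_le_mul_of_nonneg_left g1 hc0.le
  have g9 : 5 / 4 * (∫ s in R₀..R, s ^ ν * pd v η s) ≤ 1 / 2 * R ^ ν := by
    have : η * R ^ ν ≤ 2 / 5 * R ^ ν := mul_le_mul_of_nonneg_right h1 g6.le
    linarith
  linarith

lemma pd_sq_young (hν : ν = 0 ∨ ν = 1) {M₀ ε : ℝ} (hε : 0 < ε) :
    ∃ C, 0 ≤ C ∧ ∀ p f : ℝ, 0 ≤ p → 0 ≤ f → f ≤ M₀ → p * f ^ 2 ≤ C * p ^ (ν + 1) + ε * f ^ 2 := by
  rcases hν with rfl | rfl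
  · refine ⟨M₀ ^ 2, by positivity, fun p f hp hf hfM => ?_⟩
    have h1 : f ^ 2 ≤ M₀ ^ 2 := pow_le_pow_left₀ hf hfM 2
    have h2 : p * f ^ 2 ≤ p * M₀ ^ 2 := mul_le_mul_of_nonneg_left h1 hp
    have h3 : 0 ≤ ε * f ^ 2 := by positivity
    simp only [zero_add, pow_one]
    linarith
  · refine ⟨M₀ ^ 2 / (4 * ε), by positivity, fun p f hp hf hfM => ?_⟩
    have h1 : p * f ^ 2 ≤ p * (M₀ * f) := by
      refine mul_le_mul_of_nonneg_left ?_ hp
      nlinarith
    have h2 : M₀ ^ 2 / (4 * ε) * p ^ (1 + 1) + ε * f ^ 2 - p * (M₀ * f) =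
      1 / (4 * ε) * (M₀ * p - 2 * ε * f) ^ 2 := by
      field_simp; ring
    have h3 : 0 ≤ 1 / (4 * ε) * (M₀ * p - 2 * ε * f) ^ 2 := by positivity
    linarith

lemma hasDerivAt_inv_pow (hν : ν = 0 ∨ ν = 1) {x : ℝ} (hx : 0 < x) :
    HasDerivAt (fun r : ℝ => (r ^ ν)⁻¹) (-(ν * (x ^ (ν + 1))⁻¹)) x := by
  rcases hν with rfl | rfl
  · simpa using hasDerivAt_const x (1 : ℝ)
  · have := hasDerivAt_inv hx.ne'
    simpa using this

/-- Decaying alternative. -/
lemma decay (h : Pot ν v) (hm : 0 < m) (hl0 : 0 ≤ l) (hlm : l < m) {F H : ℝ → ℝ} {R₀ : ℝ}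
    (hR₀ : 0 < R₀) (hs : LSys (cA ν m l v) (cB ν m l v) F H R₀)
    (hF : ∀ r, R₀ ≤ r → 0 < F r) (hH : ∀ r, R₀ ≤ r → H r ≤ 0) :
    ∃ R₁, R₀ ≤ R₁ ∧ (∀ r, R₁ ≤ r → -(2 * r ^ ν) * F r ≤ H r) ∧
      (∀ r, R₁ ≤ r → F r ≤ F R₁) ∧
      IntegrableOn (fun r => r ^ ν * F r ^ 2 + (r ^ ν)⁻¹ * H r ^ 2) (Ioi R₁) := by
  set R₁ := max R₀ (1 / m) with hR₁
  have hR₁0 : 0 < R₁ := hR₀.trans_le (le_max_left _ _)
  have hs1 := hs.mono (le_max_left R₀ (1/m))
  rw [← hR₁] at hs1
  have hF1 : ∀ r, R₁ ≤ r → 0 < F r := fun r hr => hF r ((le_max_left _ _).trans hr)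
  have hH1 : ∀ r, R₁ ≤ r → H r ≤ 0 := fun r hr => hH r ((le_max_left _ _).trans hr)
  have hmr : ∀ r, R₁ ≤ r → ν / r ≤ m := by
    intro r hr
    have h1 : 1 / m ≤ r := (le_max_right _ _).trans hr
    have hr0 : 0 < r := hR₁0.trans_le hr
    rw [div_le_iff₀ hr0]
    rw [div_le_iff₀ hm] at h1
    rcases h.hν with h0 | h0 <;> rw [h0] <;> push_cast <;> nlinarith
  -- monotonicity of F
  have hmono : ∀ r s, R₁ ≤ r → r ≤ s → F s ≤ F r := by
    intro r s hr hrs
    rcases eq_or_lt_of_le hrs with e | hlt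
    · rw [e]
    have hr0 : 0 < r := hR₁0.trans_le hr
    have h1 := ((hs1.mono hr).hF s hlt).neg.le_of_nonneg hrs (ae_of_all _ fun x hx => by
      have hx0 : 0 < x := hr0.trans hx.1
      have h2 := cA_pos (ν := ν) (m := m) (l := l) h.pos (by linarith) hx0
      have h3 := hH1 x (hr.trans hx.1.le)
      nlinarith)
    linarith
  -- the quantity E
  set E : ℝ → ℝ := fun r => -(H r * (r ^ ν)⁻¹) - 2 * F r with hE
  have hEacd : ∀ a b, R₁ ≤ a → a < b → ACD (fun r => Real.exp (-(m * r)) * E r)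
      (fun r => Real.exp (-(m * r)) * (F r * (m + l + v r) +
        (-(H r * (r ^ ν)⁻¹)) * (2 * (m + l + v r) - m - ν / r))) a b := by
    intro a b ha hab
    have ha0 : 0 < a := hR₁0.trans_le ha
    have h1 : ACD (fun r : ℝ => (r ^ ν)⁻¹) (fun x => -(ν * (x ^ (ν + 1))⁻¹)) a b := by
      refine ACD.of_hasDerivAt (fun x hx => ?_) ?_
      · rw [uIcc_of_le hab.le] at hx
        exact hasDerivAt_inv_pow h.hν (ha0.trans_le hx.1)
      · refine (continuousOn_const.mul ((continuousOn_id.pow _).inv₀ fun x hx => ?_)).neg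
        rw [uIcc_of_le hab.le] at hx
        exact pow_ne_zero _ (ha0.trans_le hx.1).ne'
    have h2 : ACD (fun r : ℝ => -(m * r)) (fun _ => -(m * 1)) a b :=
      ACD.of_hasDerivAt (fun x _ => ((hasDerivAt_id x).const_mul m).neg) continuousOn_const
    have h3 := (h2.exp).mul ((((hs1.mono ha).hH b hab).mul h1).neg.sub
      (((hs1.mono ha).hF b hab).const_mul 2))
    refine h3.congr_der' fun x hx => ?_
    rw [uIcc_of_le hab.le] at hx
    have hx0 : 0 < x := ha0.trans_le hx.1
    have e1 : cA ν m l v x * H x = (m + l + v x) * (H x * (x ^ ν)⁻¹) := by unfold cA; ring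
    have e2 : cB ν m l v x * F x * (x ^ ν)⁻¹ = (m - l - v x) * F x := by
      unfold cB; field_simp
    have e3 : H x * -(ν * (x ^ (ν + 1))⁻¹) = - (ν / x) * (H x * (x ^ ν)⁻¹) := by
      rw [pow_succ]; field_simp
    rw [e1, e2, e3]
    ring
  have hEnonpos : ∀ r, R₁ ≤ r → E r ≤ 0 := by
    intro r₁ hr₁
    by_contra hcon
    push Not at hcon
    have hr₁0 : 0 < r₁ := hR₁0.trans_le hr₁
    have hgrow : ∀ r, r₁ ≤ r → E r₁ ≤ E r := by
      intro r hr
      rcases eq_or_lt_of_le hr with e | hlt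
      · rw [e]
      have h1 := (hEacd r₁ r hr₁ hlt).le_of_nonneg hr (ae_of_all _ fun x hx => by
        have hx0 : 0 < x := hr₁0.trans hx.1
        have h2 := hF1 x (hr₁.trans hx.1.le)
        have h3 := hH1 x (hr₁.trans hx.1.le)
        have h4 := hmr x (hr₁.trans hx.1.le)
        have hv := h.pos x
        have h5 : 0 ≤ -(H x * (x ^ ν)⁻¹) := by
          have : 0 < (x ^ ν)⁻¹ := by positivity
          nlinarith
        have h6 : 0 ≤ 2 * (m + l + v x) - m - ν / x := by linarith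
        have h7 : 0 ≤ m + l + v x := by linarith
        positivity)
      have h2 : E r₁ ≤ Real.exp (m * r₁) * (Real.exp (-(m * r)) * E r) := by
        have : Real.exp (m * r₁) * (Real.exp (-(m * r₁)) * E r₁) = E r₁ := by
          rw [← mul_assoc, ← Real.exp_add]; simp
        rw [← this]
        exact mul_le_mul_of_nonneg_left h1 (Real.exp_pos _).le
      rw [← mul_assoc, ← Real.exp_add] at h2
      have h3 : Real.exp (m * r₁ + -(m * r)) ≤ 1 := by
        rw [Real.exp_le_one_iff]; nlinarith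
      have h4 : 0 < E r := by
        have : 0 < Real.exp (m * r₁ + -(m * r)) * E r := hcon.trans_le h2
        exact pos_of_mul_pos_right this (Real.exp_pos _).le
      nlinarith
    -- F would become negative
    set R := r₁ + F r₁ / (m * E r₁) with hR
    have hFr : 0 < F r₁ := hF1 r₁ hr₁
    have hRr : r₁ < R := by simp only [hR]; linarith [show 0 < F r₁ / (m * E r₁) by positivity]
    have h1 := ((hs1.mono hr₁).hF R hRr).integral_mono_le (u := fun _ => -(m * E r₁)) hRr.le
      (by simp) (ae_of_all _ fun x hx => by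
        have hx0 : 0 < x := hr₁0.trans hx.1
        have h2 := hF1 x (hr₁.trans hx.1.le)
        have h4 := hgrow x hx.1.le
        have hv := h.pos x
        have e1 : cA ν m l v x * H x = (m + l + v x) * (H x * (x ^ ν)⁻¹) := by unfold cA; ring
        rw [e1]
        have h5 : H x * (x ^ ν)⁻¹ ≤ - E r₁ := by
          simp only [hE] at h4 ⊢; linarith
        nlinarith)
    rw [intervalIntegral.integral_const, smul_eq_mul] at h1
    have h2 : (R - r₁) * -(m * E r₁) = - F r₁ := by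
      simp only [hR]; field_simp; ring
    have h3 := hF1 R (hr₁.trans hRr.le)
    linarith
  have hlow : ∀ r, R₁ ≤ r → -(2 * r ^ ν) * F r ≤ H r := by
    intro r hr
    have h1 := hEnonpos r hr
    have hr0 : 0 < r := hR₁0.trans_le hr
    simp only [hE] at h1
    have h2 : 0 < r ^ ν := by positivity
    have h3 : -(H r * (r ^ ν)⁻¹) ≤ 2 * F r := by linarith
    have h4 : -(H r * (r ^ ν)⁻¹) * r ^ ν ≤ 2 * F r * r ^ ν := mul_le_mul_of_nonneg_right h3 h2.le
    have h5 : -(H r * (r ^ ν)⁻¹) * r ^ ν = - H r := by field_simp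
    rw [h5] at h4
    linarith
  refine ⟨R₁, le_max_left _ _, hlow, fun r hr => hmono R₁ r le_rfl hr, ?_⟩
  -- energy
  set d := m - l with hd
  have hd0 : 0 < d := by simp only [hd]; linarith
  obtain ⟨C, hC0, hC⟩ := pd_sq_young (ν := ν) h.hν (M₀ := F R₁) (ε := d / 4)
    (by positivity)
  set K := ∫ r in Ioi (0:ℝ), r ^ ν * (pd v (d/4) r) ^ (ν + 1) with hK
  set g : ℝ → ℝ := fun r => r ^ ν * F r ^ 2 + (r ^ ν)⁻¹ * H r ^ 2 with hg
  have hgc : ∀ b, R₁ < b → ContinuousOn g (Icc R₁ b) := by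
    intro b hb
    have h1 := (hs1.hF b hb).continuousOn
    have h2 := (hs1.hH b hb).continuousOn
    rw [uIcc_of_le hb.le] at h1 h2
    refine ((continuousOn_id.pow _).mul (h1.pow 2)).add
      (((continuousOn_id.pow _).inv₀ fun x hx => ?_).mul (h2.pow 2))
    exact pow_ne_zero _ (hR₁0.trans_le hx.1).ne'
  have hbound : ∀ b, R₁ < b → min m (d / 2) * ∫ r in R₁..b, g r ≤ - (F R₁ * H R₁) + C * K := by
    intro b hb
    have h1 := ((hs1.hF b hb).mul (hs1.hH b hb))
    have h2 := h1.integral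
    have hgi : IntervalIntegrable g volume R₁ b :=
      ContinuousOn.intervalIntegrable (by rw [uIcc_of_le hb.le]; exact hgc b hb)
    have hpi : IntervalIntegrable (fun r => C * (r ^ ν * (pd v (d/4) r) ^ (ν + 1))) volume R₁ b :=
      (h.ii_pow (by positivity) hR₁0.le hb.le).const_mul _
    have h3 : ∫ r in R₁..b, (min m (d / 2) * g r - C * (r ^ ν * (pd v (d/4) r) ^ (ν + 1))) ≤
        ∫ r in R₁..b, (cA ν m l v r * H r * H r + F r * (cB ν m l v r * F r)) := by
      refine intervalIntegral.integral_mono_on hb.le ((hgi.const_mul _).sub hpi)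
        h1.intervalIntegrable ?_
      intro x hx
      have hx0 : 0 < x := hR₁0.trans_le hx.1
      have hv := h.pos x
      have hp := pd_nonneg v (d/4) x
      have hFx := hF1 x hx.1
      have hxν : 0 < x ^ ν := by positivity
      have e1 := hC (pd v (d/4) x) (F x) hp hFx.le (hmono R₁ x le_rfl hx.1)
      have e2 := sub_pd_le v (d/4) x
      have e3 : cA ν m l v x * H x * H x = (m + l + v x) * ((x ^ ν)⁻¹ * H x ^ 2) := by
        unfold cA; ring
      have e4 : F x * (cB ν m l v x * F x) = x ^ ν * ((d - v x) * F x ^ 2) := by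
        unfold cB; simp only [hd]; ring
      have e5 : min m (d/2) ≤ m := min_le_left _ _
      have e6 : min m (d/2) ≤ d / 2 := min_le_right _ _
      have e7 : 0 ≤ (x ^ ν)⁻¹ * H x ^ 2 := by positivity
      have e8 : min m (d/2) * ((x ^ ν)⁻¹ * H x ^ 2) ≤ (m + l + v x) * ((x ^ ν)⁻¹ * H x ^ 2) :=
        mul_le_mul_of_nonneg_right (by linarith) e7
      have e9 : min m (d/2) * (x ^ ν * F x ^ 2) ≤ d / 2 * (x ^ ν * F x ^ 2) :=
        mul_le_mul_of_nonneg_right e6 (by positivity)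
      have e10 : v x * F x ^ 2 ≤ d / 4 * F x ^ 2 + (C * pd v (d/4) x ^ (ν+1) + d / 4 * F x ^ 2) := by
        have : v x * F x ^ 2 ≤ (d / 4 + pd v (d/4) x) * F x ^ 2 :=
          mul_le_mul_of_nonneg_right (by linarith) (by positivity)
        linarith
      have e11 : x ^ ν * (v x * F x ^ 2) ≤ x ^ ν * (d / 4 * F x ^ 2 +
          (C * pd v (d/4) x ^ (ν+1) + d / 4 * F x ^ 2)) :=
        mul_le_mul_of_nonneg_left e10 hxν.le
      simp only [hg]
      rw [e3, e4]
      nlinarith
    rw [intervalIntegral.integral_sub (hgi.const_mul _) hpi, intervalIntegral.integral_const_mul,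
      intervalIntegral.integral_const_mul, h2] at h3
    have h4 : ∫ r in R₁..b, r ^ ν * (pd v (d/4) r) ^ (ν + 1) ≤ K := by
      rw [intervalIntegral.integral_of_le hb.le, hK]
      refine setIntegral_mono_set (h.int _ (by positivity)) ?_ ?_
      · refine (ae_restrict_iff' measurableSet_Ioi).2 (ae_of_all _ fun t ht => ?_)
        have := pd_nonneg v (d/4) t
        have ht0 : 0 < t := ht
        show 0 ≤ t ^ ν * (pd v (d/4) t) ^ (ν + 1)
        positivity
      · exact LE.le.eventuallyLE (fun x hx => hR₁0.trans hx.1)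
    have h5 : F b * H b ≤ 0 :=
      mul_nonpos_of_nonneg_of_nonpos (hF1 b hb.le).le (hH1 b hb.le)
    have h6 : C * (∫ r in R₁..b, r ^ ν * (pd v (d/4) r) ^ (ν + 1)) ≤ C * K :=
      mul_le_mul_of_nonneg_left h4 hC0
    linarith
  have hmin : 0 < min m (d / 2) := by positivity
  refine integrableOn_Ioi_of_intervalIntegral_norm_bounded
    ((- (F R₁ * H R₁) + C * K) / min m (d / 2)) R₁ (l := atTop) (b := fun n : ℕ => R₁ + (n + 1))
    (fun n => ?_) ?_ (Eventually.of_forall fun n => ?_)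
  · have hb : R₁ < R₁ + ((n:ℝ) + 1) := by linarith [Nat.cast_nonneg (α := ℝ) n]
    exact ((hgc _ hb).integrableOn_Icc).mono_set Ioc_subset_Icc_self
  · exact tendsto_atTop_add_const_left _ _ (tendsto_atTop_add_const_right _ _
      tendsto_natCast_atTop_atTop)
  · have hb : R₁ < R₁ + ((n:ℝ) + 1) := by linarith [Nat.cast_nonneg (α := ℝ) n]
    have e : ∫ x in R₁..R₁ + ((n:ℝ) + 1), ‖g x‖ = ∫ x in R₁..R₁ + ((n:ℝ) + 1), g x := by
      refine intervalIntegral.integral_congr fun x hx => ?_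
      rw [uIcc_of_le hb.le] at hx
      have hx0 : 0 < x := hR₁0.trans_le hx.1
      simp only [hg]
      rw [Real.norm_eq_abs, abs_of_nonneg (by positivity)]
    beta_reduce
    change ∫ x in R₁..R₁ + ((n:ℝ) + 1), ‖g x‖ ≤ _
    rw [e, le_div_iff₀ hmin, mul_comm]
    exact hbound _ hb

/-- nontrivial solutions do not vanish -/
lemma nonvanish (h : Pot ν v) (hm : 0 < m) (hl : |l| < m) {r : ℝ} (hr : 0 < r)
    (hF : FF ν m l v r = 0) : HH ν m l v r ≠ 0 := by
  intro hH
  have hsys := FF_sys (ν := ν) h hm hl.le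
  set F := FF ν m l v
  set H := HH ν m l v
  -- F vanishes on (0,r)
  have hz : ∀ s, 0 < s → s < r → F s = 0 := by
    intro s hs hsr
    set κ : ℝ → ℝ := fun x => |cA ν m l v x + cB ν m l v x| with hκ
    have h1 := (hsys.mono hs.le).hF r hsr
    have h2 := (hsys.mono hs.le).hH r hsr
    have hκi : IntervalIntegrable κ volume s r := by
      have hA : IntervalIntegrable (cA ν m l v) volume s r := by
        refine (IntervalIntegrable.add (by simp) (h.ii_v' hs hsr.le)).continuousOn_mul ?_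
        rw [uIcc_of_le hsr.le]
        exact (continuousOn_id.pow ν).inv₀ fun x hx => pow_ne_zero _ (lt_of_lt_of_le hs hx.1).ne'
      have hB : IntervalIntegrable (cB ν m l v) volume s r := by
        refine (IntervalIntegrable.sub (by simp) (h.ii_v' hs hsr.le)).continuousOn_mul ?_
        exact continuousOn_id.pow ν
      exact (hA.add hB).abs
    have h3 : ACD (fun x => ∫ t in s..x, κ t) κ s r :=
      ACD.of_integral (c := 0) (x₀ := s) hκi left_mem_uIcc (by intro x _; simp) hsr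
    have h4 := (h3.exp).mul ((h1.mul h1).add (h2.mul h2))
    have h5 := h4.le_of_nonneg hsr.le (ae_of_all _ fun x hx => by
      have e : Real.exp (∫ t in s..x, κ t) * κ x * (F x * F x + H x * H x) +
        Real.exp (∫ t in s..x, κ t) * (cA ν m l v x * H x * F x + F x * (cA ν m l v x * H x) +
          (cB ν m l v x * F x * H x + H x * (cB ν m l v x * F x))) =
        Real.exp (∫ t in s..x, κ t) * (κ x * (F x ^ 2 + H x ^ 2) +
          2 * (cA ν m l v x + cB ν m l v x) * (F x * H x)) := by ring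
      rw [e]
      refine mul_nonneg (Real.exp_pos _).le ?_
      have e1 : |2 * (cA ν m l v x + cB ν m l v x) * (F x * H x)| ≤
          κ x * (F x ^ 2 + H x ^ 2) := by
        rw [abs_mul, abs_mul, abs_two]
        have : |F x * H x| ≤ (F x ^ 2 + H x ^ 2) / 2 := by
          rw [abs_le]; constructor <;> nlinarith [sq_nonneg (F x - H x), sq_nonneg (F x + H x)]
        calc 2 * |cA ν m l v x + cB ν m l v x| * |F x * H x|
            ≤ 2 * |cA ν m l v x + cB ν m l v x| * ((F x ^ 2 + H x ^ 2) / 2) := by gcongr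
          _ = _ := by simp only [hκ]; ring
      linarith [(abs_le.1 e1).1])
    rw [hF, hH] at h5
    simp only [intervalIntegral.integral_same, Real.exp_zero, mul_zero, add_zero, one_mul] at h5
    nlinarith [mul_self_nonneg (F s), mul_self_nonneg (H s)]
  have hcont : ContinuousOn F (Icc 0 r) := by
    have := (hsys.hF r hr).continuousOn; rwa [uIcc_of_le hr.le] at this
  have h1 : Tendsto F (𝓝[Ioo 0 r] 0) (𝓝 (F 0)) :=
    (hcont 0 ⟨le_rfl, hr.le⟩).mono_left (nhdsWithin_mono _ Ioo_subset_Icc_self)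
  have h2 : Tendsto F (𝓝[Ioo 0 r] 0) (𝓝 0) := by
    refine tendsto_const_nhds.congr' ?_
    filter_upwards [self_mem_nhdsWithin] with s hs using (hz s hs.1 hs.2).symm
  have hne : (𝓝[Ioo 0 r] (0:ℝ)).NeBot := by
    rw [← mem_closure_iff_nhdsWithin_neBot, closure_Ioo hr.ne]
    exact ⟨le_rfl, hr.le⟩
  have h3 := tendsto_nhds_unique h1 h2
  rw [show F 0 = 1 from FF_zero h hm hl.le] at h3
  norm_num at h3

/-- at a zero the solution changes sign -/
lemma crossing (h : Pot ν v) (hm : 0 < m) (hl : |l| < m) {r : ℝ} (hr : 0 < r)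
    (hF : FF ν m l v r ≤ 0) : ∃ s, 0 < s ∧ FF ν m l v s < 0 := by
  rcases lt_or_eq_of_le hF with hlt | heq
  · exact ⟨r, hr, hlt⟩
  have hHne := nonvanish h hm hl hr heq
  have hsys := FF_sys (ν := ν) h hm hl.le
  obtain ⟨hl1, hl2⟩ := abs_lt.1 hl
  set F := FF ν m l v
  set H := HH ν m l v
  have hHc : ContinuousAt H r := by
    have := (hsys.hH (r+1) (by linarith)).continuousOn
    rw [uIcc_of_le (by linarith)] at this
    exact this.continuousAt (Icc_mem_nhds hr (by linarith))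
  rcases lt_or_gt_of_ne hHne with hneg | hpos
  · -- H < 0 near r; go to the right
    have h1 : ∀ᶠ x in 𝓝 r, H x < H r / 2 := hHc.eventually (gt_mem_nhds (by linarith))
    obtain ⟨ε, hε, hball⟩ := Metric.eventually_nhds_iff.1 h1
    set s := r + ε / 2
    have hrs : r < s := by simp only [s]; linarith
    have h2 : ACD F (fun x => cA ν m l v x * H x) r s := (hsys.mono hr.le).hF s hrs
    have h3 : F s - F r < 0 := by
      rw [← h2.integral]
      have hcont : IntervalIntegrable (fun _ : ℝ => (s ^ ν)⁻¹ * (m + l) * (H r / 2)) volume r s := by simp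
      have h4 : ∫ x in r..s, cA ν m l v x * H x ≤ ∫ x in r..s, (s ^ ν)⁻¹ * (m + l) * (H r / 2) := by
        refine intervalIntegral.integral_mono_on hrs.le h2.intervalIntegrable hcont ?_
        intro x hx
        have hx0 : 0 < x := hr.trans_le hx.1
        have hHx : H x < H r / 2 := hball (by
          rw [Real.dist_eq, abs_lt]; simp only [s] at hx; constructor <;> linarith [hx.1, hx.2])
        have hv := h.pos x
        have e1 : (s ^ ν)⁻¹ * (m + l) ≤ cA ν m l v x := by
          unfold cA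
          refine mul_le_mul ?_ (by linarith) (by linarith) (by positivity)
          refine inv_anti₀ (by positivity) (pow_le_pow_left₀ hx0.le hx.2 _)
        have e2 : 0 < (s ^ ν)⁻¹ * (m + l) := by
          have : 0 < s := hr.trans hrs
          have : 0 < m + l := by linarith
          positivity
        nlinarith
      rw [intervalIntegral.integral_const, smul_eq_mul] at h4
      have e2 : 0 < (s ^ ν)⁻¹ * (m + l) := by
        have : 0 < s := hr.trans hrs
        have : 0 < m + l := by linarith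
        positivity
      have : (s - r) * ((s ^ ν)⁻¹ * (m + l) * (H r / 2)) < 0 := by
        have : 0 < (s - r) * ((s ^ ν)⁻¹ * (m + l)) := mul_pos (by linarith) e2
        nlinarith
      linarith
    exact ⟨s, hr.trans hrs, by linarith⟩
  · -- H > 0 near r; go to the left
    have h1 : ∀ᶠ x in 𝓝 r, H r / 2 < H x := hHc.eventually (lt_mem_nhds (by linarith))
    obtain ⟨ε, hε, hball⟩ := Metric.eventually_nhds_iff.1 h1
    set s := max (r - ε / 2) (r / 2)
    have hs0 : 0 < s := lt_of_lt_of_le (by linarith) (le_max_right _ _)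
    have hsr : s < r := max_lt (by linarith) (by linarith)
    have h2 : ACD F (fun x => cA ν m l v x * H x) s r := (hsys.mono hs0.le).hF r hsr
    have h3 : 0 < F r - F s := by
      rw [← h2.integral]
      have hcont : IntervalIntegrable (fun _ : ℝ => (r ^ ν)⁻¹ * (m + l) * (H r / 2)) volume s r := by simp
      have h4 : ∫ x in s..r, (r ^ ν)⁻¹ * (m + l) * (H r / 2) ≤ ∫ x in s..r, cA ν m l v x * H x := by
        refine intervalIntegral.integral_mono_on hsr.le hcont h2.intervalIntegrable ?_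
        intro x hx
        have hx0 : 0 < x := hs0.trans_le hx.1
        have hx1 : r - ε / 2 ≤ x := (le_max_left _ _).trans hx.1
        have hHx : H r / 2 < H x := hball (by
          rw [Real.dist_eq, abs_lt]; constructor <;> linarith [hx.2])
        have hv := h.pos x
        have e1 : (r ^ ν)⁻¹ * (m + l) ≤ cA ν m l v x := by
          unfold cA
          refine mul_le_mul ?_ (by linarith) (by linarith) (by positivity)
          refine inv_anti₀ (by positivity) (pow_le_pow_left₀ hx0.le hx.2 _)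
        have e2 : 0 < (r ^ ν)⁻¹ * (m + l) := by
          have : 0 < m + l := by linarith
          positivity
        nlinarith
      rw [intervalIntegral.integral_const, smul_eq_mul] at h4
      have e2 : 0 < (r ^ ν)⁻¹ * (m + l) := by
        have : 0 < m + l := by linarith
        positivity
      have : 0 < (r - s) * ((r ^ ν)⁻¹ * (m + l) * (H r / 2)) := by
        have : 0 < (r - s) * ((r ^ ν)⁻¹ * (m + l)) := mul_pos (by linarith) e2
        nlinarith
      linarith
    exact ⟨s, hs0, by linarith⟩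

/-- **Shooting theorem.** -/
theorem shoot (h : Pot ν v) (hm : 0 < m) {η : ℝ} (hη : 0 < η) (h1 : η ≤ 2 / 5)
    (h2 : η ≤ 3 * m / 10) (hs : Small1 ν v η) {l₀ : ℝ} (hl₀ : 0 < l₀) (hl₀m : l₀ < m)
    (hz : ∃ r, 0 < r ∧ FF ν m l₀ v r ≤ 0) :
    ∃ l', 0 ≤ l' ∧ l' < l₀ ∧ (∀ r, 0 ≤ r → 0 < FF ν m l' v r) ∧
      ∃ R₀, 1 ≤ R₀ ∧ ∀ r, R₀ ≤ r → HH ν m l' v r ≤ 0 := by
  obtain ⟨R₀, hR₀, hcone⟩ := cone_unif (ν := ν) h hm hl₀m
  set U : Set ℝ := {l | |l| < m ∧ ∃ r, 0 < r ∧ FF ν m l v r < 0} with hU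
  set V : Set ℝ := {l | |l| < m ∧ ∃ r₁, R₀ ≤ r₁ ∧ (∀ r, 0 ≤ r → r ≤ r₁ → 0 < FF ν m l v r) ∧
    0 < HH ν m l v r₁} with hV
  have hUo : IsOpen U := by
    rw [Metric.isOpen_iff]
    rintro l ⟨hl, r, hr, hF⟩
    set E := Real.exp (2 * hI (wA ν m v) (wB ν m v) r) with hE
    have hEpos : 0 < E := Real.exp_pos _
    refine ⟨min (m - |l|) (-(FF ν m l v r) * (2 * m) / (3 * E)), ?_, ?_⟩
    · refine lt_min (by linarith) ?_
      have : 0 < -(FF ν m l v r) := by linarith
      positivity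
    · intro l' hl'
      rw [Metric.mem_ball, Real.dist_eq, lt_min_iff] at hl'
      have hl'm : |l'| < m := by
        have : |l'| ≤ |l' - l| + |l| := by
          have := abs_add_le (l' - l) l; simpa using this
        linarith [hl'.1]
      refine ⟨hl'm, r, hr, ?_⟩
      have h3 := FF_diff (ν := ν) h hm hl.le hl'm.le hr.le
      rw [abs_sub_comm l l'] at h3
      have h4 : 3 * (|l' - l| / (2 * m)) * E < -(FF ν m l v r) := by
        have h5 := hl'.2
        rw [lt_div_iff₀ (by positivity)] at h5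
        have e : 3 * (|l' - l| / (2 * m)) * E = |l' - l| * (3 * E) / (2 * m) := by ring
        rw [e, div_lt_iff₀ (by positivity)]
        exact h5
      have h6 := (abs_le.1 h3).1
      linarith
  have hVo : IsOpen V := by
    rw [Metric.isOpen_iff]
    rintro l ⟨hl, r₁, hr₁, hF, hH⟩
    have hr₁0 : 0 < r₁ := by linarith
    set E := Real.exp (2 * hI (wA ν m v) (wB ν m v) r₁) with hE
    have hEpos : 0 < E := Real.exp_pos _
    have hBnn : 0 ≤ BI (wB ν m v) r₁ := (h.vdata hm).BI_nonneg hr₁0.le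
    set Bq := BI (wB ν m v) r₁ + 1 with hBq
    have hBq0 : 0 < Bq := by positivity
    have hcont : ContinuousOn (FF ν m l v) (Icc 0 r₁) := by
      have := ((FF_sys (ν := ν) h hm hl.le).hF r₁ hr₁0).continuousOn
      rwa [uIcc_of_le hr₁0.le] at this
    obtain ⟨x₀, hx₀, hmin⟩ := isCompact_Icc.exists_isMinOn
      (⟨0, le_rfl, hr₁0.le⟩ : (Icc 0 r₁).Nonempty) hcont
    have hc0 : 0 < FF ν m l v x₀ := hF x₀ hx₀.1 hx₀.2
    set c := FF ν m l v x₀
    refine ⟨min (m - |l|) (min (c * (2 * m) / (3 * E)) (HH ν m l v r₁ * (2 * m) / (3 * Bq * E))), ?_, ?_⟩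
    · refine lt_min (by linarith) (lt_min (by positivity) (by positivity))
    · intro l' hl'
      rw [Metric.mem_ball, Real.dist_eq, lt_min_iff, lt_min_iff] at hl'
      obtain ⟨g1, g2, g3⟩ := hl'
      have hl'm : |l'| < m := by
        have : |l'| ≤ |l' - l| + |l| := by
          have := abs_add_le (l' - l) l; simpa using this
        linarith
      refine ⟨hl'm, r₁, hr₁, ?_, ?_⟩
      · intro r hr hrr
        have h3 := FF_diff (ν := ν) h hm hl.le hl'm.le hr
        rw [abs_sub_comm l l'] at h3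
        have h4 : 3 * (|l' - l| / (2 * m)) * Real.exp (2 * hI (wA ν m v) (wB ν m v) r) ≤
            3 * (|l' - l| / (2 * m)) * E := by
          refine mul_le_mul_of_nonneg_left ?_ (by positivity)
          refine Real.exp_le_exp.2 ?_
          have := (h.vdata hm).hI_mono hr hrr
          linarith
        have h5 : 3 * (|l' - l| / (2 * m)) * E < c := by
          rw [lt_div_iff₀ (by positivity)] at g2
          have e : 3 * (|l' - l| / (2 * m)) * E = |l' - l| * (3 * E) / (2 * m) := by ring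
          rw [e, div_lt_iff₀ (by positivity)]
          exact g2
        have h6 := (abs_le.1 h3).2
        have h7 : c ≤ FF ν m l v r := hmin ⟨hr, hrr⟩
        linarith
      · have h3 := HH_diff (ν := ν) h hm hl.le hl'm.le hr₁0.le
        rw [abs_sub_comm l l'] at h3
        have h4 : 3 * (|l' - l| / (2 * m)) * BI (wB ν m v) r₁ * E ≤
            3 * (|l' - l| / (2 * m)) * Bq * E := by
          have : BI (wB ν m v) r₁ ≤ Bq := by simp only [hBq]; linarith
          gcongr
        have h5 : 3 * (|l' - l| / (2 * m)) * Bq * E < HH ν m l v r₁ := by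
          rw [lt_div_iff₀ (by positivity)] at g3
          have e : 3 * (|l' - l| / (2 * m)) * Bq * E = |l' - l| * (3 * Bq * E) / (2 * m) := by ring
          rw [e, div_lt_iff₀ (by positivity)]
          exact g3
        have h6 := (abs_le.1 h3).2
        linarith
  have hconn := isPreconnected_Icc (a := (0:ℝ)) (b := l₀)
  by_contra hcon
  push Not at hcon
  have hl₀U : l₀ ∈ U := by
    obtain ⟨r, hr, hF⟩ := hz
    have hlm : |l₀| < m := by rw [abs_of_pos hl₀]; exact hl₀m
    obtain ⟨s, hs, hF'⟩ := crossing h hm hlm hr hF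
    exact ⟨hlm, s, hs, hF'⟩
  have h0V : (0:ℝ) ∈ V := by
    have h0m : |(0:ℝ)| < m := by simpa using hm
    obtain ⟨r, hr, hH⟩ := start_grow h hm hη h1 h2 hs (show 0 < R₀ by linarith)
    exact ⟨h0m, r, hr, fun x hx _ => (start_cone h hm hη h1 h2 hs x hx).1, hH⟩
  have hcover : Icc 0 l₀ ⊆ U ∪ V := by
    intro l hl
    have hlm : |l| < m := by rw [abs_of_nonneg hl.1]; linarith [hl.2]
    rcases eq_or_lt_of_le hl.2 with e | hlt
    · rw [e]; exact Or.inl hl₀U
    by_cases hF : ∀ r, 0 ≤ r → 0 < FF ν m l v r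
    · right
      obtain ⟨r, hr, hH⟩ := hcon l hl.1 hlt hF R₀ hR₀
      exact ⟨hlm, r, hr, fun x hx _ => hF x hx, hH⟩
    · left
      push Not at hF
      obtain ⟨r, hr, hFr⟩ := hF
      have hr0 : 0 < r := by
        rcases eq_or_lt_of_le hr with e | hlt
        · exfalso
          rw [← e, FF_zero h hm hlm.le] at hFr
          norm_num at hFr
        · exact hlt
      obtain ⟨s, hs, hF'⟩ := crossing h hm hlm hr0 hFr
      exact ⟨hlm, s, hs, hF'⟩
  obtain ⟨l, hl, ⟨hlm, r, hr, hFr⟩, ⟨_, r₁, hr₁, hF₁, hH₁⟩⟩ := hconn U V hUo hVo hcover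
    ⟨l₀, ⟨hl₀.le, le_rfl⟩, hl₀U⟩ ⟨0, ⟨le_rfl, hl₀.le⟩, h0V⟩
  have hr₁0 : 0 < r₁ := by linarith
  rcases le_total r r₁ with hle | hle
  · exact absurd (hF₁ r hr.le hle) (not_lt.2 hFr.le)
  · have := hcone l hl.1 hl.2 _ _ r₁ hr₁ ((FF_sys (ν := ν) h hm hlm.le).mono hr₁0.le)
      (hF₁ r₁ hr₁0.le le_rfl) hH₁.le r hle
    exact absurd this.1 (not_lt.2 hFr.le)

end

end Pool.Agent.helper84.Dir
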