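import Pool.Agent.helper84.DirChEq

open MeasureTheory Set Filter Topology
open scoped NNReal ENNReal ContDiff Real ComplexConjugate

namespace Pool.Agent.helper84.Dir

noncomputable section

variable {k : ℤ}

lemma P_mul_real (P : ℂ →L[ℝ] ℝ) (z : ℂ) (c : ℝ) : P (z * (c : ℂ)) = P z * c := by
  rw [mul_comm z, ← Complex.real_smul, map_smul, smul_eq_mul, mul_comm]

lemma P_real_mul (P : ℂ →L[ℝ] ℝ) (z : ℂ) (c : ℝ) : P ((c : ℂ) * z) = c * P z := by
  rw [← Complex.real_smul, map_smul, smul_eq_mul]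

lemma loc_P (P : ℂ →L[ℝ] ℝ) {u : ℝ → ℂ} (hu : LocallyIntegrableOn u (Ioi 0)) :
    LocallyIntegrableOn (fun r => P (u r)) (Ioi 0) := by
  rw [locallyIntegrableOn_iff isOpen_Ioi.isLocallyClosed] at hu ⊢
  intro K hK hKc
  exact P.integrable_comp (hu K hK hKc)

lemma loc_div {c : ℝ} {u : ℝ → ℝ} (hu : LocallyIntegrableOn u (Ioi 0)) :
    LocallyIntegrableOn (fun r => c / r * u r) (Ioi 0) := by
  refine hu.continuousOn_mul (g := fun r => c / r) ?_ isOpen_Ioi.isLocallyClosed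
  exact continuousOn_const.div continuousOn_id fun x hx => (mem_Ioi.1 hx).ne'

/-- the angular coefficient of `(c + V) ψ - χ` -/
lemma ang_A {v : ℝ → ℝ} {V : ℂ → ℝ} (hV : V =ᵐ[volume] fun z => v ‖z‖) {ψ χ : ℂ → ℂ}
    (hψ : LocallyIntegrable ψ) (hχ : LocallyIntegrable χ) (k : ℤ) (c : ℝ) :
    ∀ᵐ r ∂μR, ang k (fun z => ((c : ℂ) - (V z : ℂ)) * ψ z - χ z) r =
      ((c - v r : ℝ) : ℂ) * ang k ψ r - ang k χ r := by
  filter_upwards [circ_int hψ, circ_int hχ, ae_polar' hV,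
    ae_μR.2 (ae_of_all _ fun r (hr : 0 < r) => hr)] with r h1 h2 h3 hr
  unfold ang
  rw [← integral_const_mul, ← integral_sub ((circ_int_exp (k := k) h1).const_mul _) (circ_int_exp h2)]
  refine integral_congr_ae ?_
  filter_upwards [h3] with θ hθ
  rw [hθ, norm_pt, abs_of_pos hr]
  push_cast
  ring

theorem channel {m : ℝ} {v : ℝ → ℝ} {V : ℂ → ℝ} (hV : V =ᵐ[volume] fun z => v ‖z‖)
    {ψ₁ ψ₂ χ₁ χ₂ : ℂ → ℂ} (h1 : LocallyIntegrable ψ₁) (h2 : LocallyIntegrable ψ₂)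
    (h3 : LocallyIntegrable χ₁) (h4 : LocallyIntegrable χ₂)
    (hV1 : LocallyIntegrable (fun z => (V z : ℂ) * ψ₁ z))
    (hV2 : LocallyIntegrable (fun z => (V z : ℂ) * ψ₂ z))
    (e1 : ∀ φ : ℂ → ℂ, ContDiff ℝ ∞ φ → HasCompactSupport φ →
      ∫ z, ((m - V z) * ψ₁ z * φ z + Complex.I * ψ₂ z *
        (fderiv ℝ φ z 1 - Complex.I * fderiv ℝ φ z Complex.I)) = ∫ z, χ₁ z * φ z)
    (e2 : ∀ φ : ℂ → ℂ, ContDiff ℝ ∞ φ → HasCompactSupport φ →
      ∫ z, ((-m - V z) * ψ₂ z * φ z + Complex.I * ψ₁ z *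
        (fderiv ℝ φ z 1 + Complex.I * fderiv ℝ φ z Complex.I)) = ∫ z, χ₂ z * φ z)
    (k : ℤ) (P : ℂ →L[ℝ] ℝ) :
    ∃ f g : ℝ → ℝ, (∀ᵐ r ∂μR, P (ang k ψ₁ r) = f r) ∧
      (∀ᵐ r ∂μR, P (Complex.I * ang (k + 1) ψ₂ r) = g r) ∧
      (∀ a b, 0 < a → a < b → ACD f (fun r => k / r * f r + (m + v r) * g r +
        P (Complex.I * ang (k + 1) χ₂ r)) a b) ∧
      (∀ a b, 0 < a → a < b → ACD g (fun r => -((k + 1) / r) * g r + (m - v r) * f r -
        P (ang k χ₁ r)) a b) := by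
  -- local integrability of the zero order terms
  have hA1 : LocallyIntegrable (fun z => ((m : ℝ) - (V z : ℂ)) * ψ₁ z - χ₁ z) := by
    have : (fun z => ((m : ℝ) - (V z : ℂ)) * ψ₁ z - χ₁ z) =
        fun z => ((m : ℂ) • ψ₁ z - (V z : ℂ) * ψ₁ z) - χ₁ z := by
      funext z; simp only [smul_eq_mul]; ring
    rw [this]
    exact ((h1.smul (m : ℂ)).sub hV1).sub h3
  have hA2 : LocallyIntegrable (fun z => (((-m : ℝ) : ℂ) - (V z : ℂ)) * ψ₂ z - χ₂ z) := by
    have : (fun z => (((-m : ℝ) : ℂ) - (V z : ℂ)) * ψ₂ z - χ₂ z) =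
        fun z => (((-m : ℝ) : ℂ) • ψ₂ z - (V z : ℂ) * ψ₂ z) - χ₂ z := by
      funext z; simp only [smul_eq_mul]; ring
    rw [this]
    exact ((h2.smul ((-m : ℝ) : ℂ)).sub hV2).sub h4
  have aux : ∀ {A χ B : ℂ → ℂ} {φ : ℂ → ℂ}, LocallyIntegrable (fun z => A z - χ z) →
      LocallyIntegrable χ → Continuous φ → HasCompactSupport φ → Integrable B →
      (∫ z, (A z * φ z + B z) = ∫ z, χ z * φ z) → ∫ z, ((A z - χ z) * φ z + B z) = 0 := by
    intro A χ B φ hA hχ hφ hφc hB he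
    have i1 := mul_test_int hA hφ hφc
    have i2 := mul_test_int hχ hφ hφc
    have i3 : Integrable (fun z => (A z - χ z) * φ z + B z) := i1.add hB
    have : ∫ z, (A z * φ z + B z) = (∫ z, ((A z - χ z) * φ z + B z)) + ∫ z, χ z * φ z := by
      rw [← integral_add i3 i2]
      congr 1
      funext z
      ring
    rw [this] at he
    exact add_eq_right.1 he
  have w1 : ∀ φ : ℂ → ℂ, ContDiff ℝ ∞ φ → HasCompactSupport φ →
      ∫ z, ((((m : ℝ) - (V z : ℂ)) * ψ₁ z - χ₁ z) * φ z + Complex.I * ψ₂ z *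
        (fderiv ℝ φ z 1 - Complex.I * fderiv ℝ φ z Complex.I)) = 0 := by
    intro φ hφ hφc
    refine aux hA1 h3 hφ.continuous hφc ?_ (e1 φ hφ hφc)
    have c1 : Continuous fun z => Complex.I * (fderiv ℝ φ z 1 - Complex.I * fderiv ℝ φ z Complex.I) :=
      continuous_const.mul ((fderiv_apply_cont hφ _).sub
        (continuous_const.mul (fderiv_apply_cont hφ _)))
    have c2 : HasCompactSupport fun z => Complex.I *
        (fderiv ℝ φ z 1 - Complex.I * fderiv ℝ φ z Complex.I) :=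
      ((fderiv_apply_cs hφc 1).sub ((fderiv_apply_cs hφc Complex.I).mul_left)).mul_left
    refine (mul_test_int h2 c1 c2).congr (ae_of_all _ fun z => ?_)
    ring
  have w2 : ∀ φ : ℂ → ℂ, ContDiff ℝ ∞ φ → HasCompactSupport φ →
      ∫ z, (((((-m : ℝ) : ℂ) - (V z : ℂ)) * ψ₂ z - χ₂ z) * φ z + Complex.I * ψ₁ z *
        (fderiv ℝ φ z 1 + Complex.I * fderiv ℝ φ z Complex.I)) = 0 := by
    intro φ hφ hφc
    refine aux hA2 h4 hφ.continuous hφc ?_ ?_
    · have c1 : Continuous fun z => Complex.I * (fderiv ℝ φ z 1 + Complex.I * fderiv ℝ φ z Complex.I) :=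
        continuous_const.mul ((fderiv_apply_cont hφ _).add
          (continuous_const.mul (fderiv_apply_cont hφ _)))
      have c2 : HasCompactSupport fun z => Complex.I *
          (fderiv ℝ φ z 1 + Complex.I * fderiv ℝ φ z Complex.I) :=
        ((fderiv_apply_cs hφc 1).add ((fderiv_apply_cs hφc Complex.I).mul_left)).mul_left
      refine (mul_test_int h1 c1 c2).congr (ae_of_all _ fun z => ?_)
      ring
    · rw [← e2 φ hφ hφc]
      congr 1
      funext z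
      push_cast
      ring
  have a1 := ang_A (v := v) hV h1 h3 k m
  have a2 := ang_A (v := v) hV h2 h4 (k + 1) (-m)
  set A1 : ℂ → ℂ := fun z => ((m : ℝ) - (V z : ℂ)) * ψ₁ z - χ₁ z with hA1d
  set A2 : ℂ → ℂ := fun z => (((-m : ℝ) : ℂ) - (V z : ℂ)) * ψ₂ z - χ₂ z with hA2d
  -- local integrability of the channels
  have l1 : LocallyIntegrableOn (fun r => P (ang k ψ₁ r)) (Ioi 0) := loc_P P (ang_loc h1)
  have l2 : LocallyIntegrableOn (fun r => P (Complex.I * ang (k + 1) ψ₂ r)) (Ioi 0) :=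
    loc_P P ((ang_loc h2).smul Complex.I)
  have l3 : LocallyIntegrableOn (fun r => P (ang k A1 r)) (Ioi 0) := loc_P P (ang_loc hA1)
  have l4 : LocallyIntegrableOn (fun r => P (Complex.I * ang (k + 1) A2 r)) (Ioi 0) :=
    loc_P P ((ang_loc hA2).smul Complex.I)
  have lw1 : LocallyIntegrableOn (fun r => P (ang k A1 r) -
      (k + 1) / r * P (Complex.I * ang (k + 1) ψ₂ r)) (Ioi 0) := l3.sub (loc_div l2)
  have lw2 : LocallyIntegrableOn (fun r => k / r * P (ang k ψ₁ r) -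
      P (Complex.I * ang (k + 1) A2 r)) (Ioi 0) := (loc_div l1).sub l4
  obtain ⟨g, hg, hgA⟩ := weak_ode l2 lw1 (by
    intro ζ hζ hc hs
    obtain ⟨i1, i2⟩ := weak_ang1 hA1 h2 w1 k hζ hc hs
    have := P.integral_comp_comm i1
    rw [i2, map_zero] at this
    rw [← this]
    congr 1
    funext r
    rw [map_add, P_mul_real, P_mul_real]
    ring)
  obtain ⟨f, hf, hfA⟩ := weak_ode l1 lw2 (by
    intro ζ hζ hc hs
    obtain ⟨i1, i2⟩ := weak_ang2 hA2 h1 w2 k hζ hc hs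
    have i3 := i1.const_mul Complex.I
    have := P.integral_comp_comm i3
    rw [integral_const_mul, i2, mul_zero, map_zero] at this
    rw [← neg_eq_zero, ← integral_neg, ← this]
    congr 1
    funext r
    have e : Complex.I * (ang (k + 1) A2 r * (ζ r : ℂ) + Complex.I * ang k ψ₁ r *
        ((deriv ζ r + k / r * ζ r : ℝ) : ℂ)) = (Complex.I * ang (k + 1) A2 r) * (ζ r : ℂ) -
        ang k ψ₁ r * ((deriv ζ r + k / r * ζ r : ℝ) : ℂ) := by
      linear_combination (ang k ψ₁ r * ((deriv ζ r + k / r * ζ r : ℝ) : ℂ)) * Complex.I_sq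
    rw [e, map_sub, P_mul_real, P_mul_real]
    ring)
  refine ⟨f, g, hf, hg, fun a b ha hab => ?_, fun a b ha hab => ?_⟩
  · refine (hfA a b ha hab).congr_der ?_
    filter_upwards [ae_μR.1 hf, ae_μR.1 hg, ae_μR.1 a2] with r h5 h6 h7 hr
    rw [uIcc_of_le hab.le] at hr
    have hr0 : 0 < r := ha.trans_le hr.1
    rw [h7 hr0, ← h5 hr0, ← h6 hr0, mul_sub, map_sub, show Complex.I * (((-m - v r : ℝ) : ℂ) *
      ang (k + 1) ψ₂ r) = ((-m - v r : ℝ) : ℂ) * (Complex.I * ang (k + 1) ψ₂ r) by ring, P_real_mul]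
    ring
  · refine (hgA a b ha hab).congr_der ?_
    filter_upwards [ae_μR.1 hf, ae_μR.1 hg, ae_μR.1 a1] with r h5 h6 h7 hr
    rw [uIcc_of_le hab.le] at hr
    have hr0 : 0 < r := ha.trans_le hr.1
    rw [h7 hr0, ← h5 hr0, ← h6 hr0, map_sub, P_real_mul]
    ring

end

end Pool.Agent.helper84.Dir
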