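import Pool.Agent.helper84.DirPolar

open MeasureTheory Set Filter Topology
open scoped NNReal ENNReal ContDiff Real ComplexConjugate

namespace Pool.Agent.helper84.Dir

noncomputable section

/-- test functions `ζ(|z|)/|z| * exp(-ikθ)` -/
def tf (k : ℤ) (ζ : ℝ → ℝ) (z : ℂ) : ℂ := ((ζ ‖z‖ / ‖z‖ : ℝ) : ℂ) * (conj z / (‖z‖ : ℂ)) ^ k

variable {ζ : ℝ → ℝ} {k : ℤ}

lemma zeta_near (hs : tsupport ζ ⊆ Ioi 0) : ∃ a, 0 < a ∧ ∀ r, r < a → ζ r = 0 := by
  by_cases h : (Function.support ζ).Nonempty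
  · have h0 : (0:ℝ) ∉ tsupport ζ := fun h => absurd (hs h) (lt_irrefl (0:ℝ))
    have hop : IsOpen (tsupport ζ)ᶜ := (isClosed_tsupport ζ).isOpen_compl
    obtain ⟨a, ha, hball⟩ := Metric.isOpen_iff.1 hop 0 h0
    refine ⟨a, ha, fun r hr => ?_⟩
    by_contra hne
    have hmem : r ∈ tsupport ζ := subset_tsupport _ hne
    have hr0 : 0 < r := hs hmem
    exact hball (by rw [Metric.mem_ball, Real.dist_eq, sub_zero, abs_of_pos hr0]; exact hr) hmem
  · refine ⟨1, one_pos, fun r _ => ?_⟩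
    by_contra hne
    exact h ⟨r, hne⟩

lemma tf_near {a : ℝ} (h : ∀ r, r < a → ζ r = 0) {z : ℂ} (hz : ‖z‖ < a) : tf k ζ z = 0 := by
  simp [tf, h _ hz]

lemma contDiffAt_zpow' {f : ℂ → ℂ} {z : ℂ} (hf : ContDiffAt ℝ ∞ f z) (h0 : f z ≠ 0) (k : ℤ) :
    ContDiffAt ℝ ∞ (fun w => f w ^ k) z := by
  obtain ⟨n, rfl | rfl⟩ := k.eq_nat_or_neg
  · simp only [zpow_natCast]
    exact hf.pow n
  · simp only [zpow_neg, zpow_natCast]
    exact (hf.pow n).inv (pow_ne_zero n h0)

lemma tf_contDiff (hζ : ContDiff ℝ ∞ ζ) (hs : tsupport ζ ⊆ Ioi 0) : ContDiff ℝ ∞ (tf k ζ) := by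
  obtain ⟨a, ha, h⟩ := zeta_near hs
  rw [contDiff_iff_contDiffAt]
  intro z
  rcases eq_or_ne z 0 with rfl | hz
  · have : tf k ζ =ᶠ[𝓝 0] fun _ => 0 := by
      filter_upwards [Metric.ball_mem_nhds (0:ℂ) ha] with w hw
      exact tf_near h (by simpa using hw)
    exact contDiffAt_const.congr_of_eventuallyEq this
  · have hn : ContDiffAt ℝ ∞ (fun w : ℂ => ‖w‖) z := contDiffAt_norm ℝ hz
    have hn0 : ‖z‖ ≠ 0 := norm_ne_zero_iff.2 hz
    have h1 : ContDiffAt ℝ ∞ (fun w : ℂ => ζ ‖w‖ / ‖w‖) z :=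
      (hζ.contDiffAt.comp z hn).div hn hn0
    have h2 : ContDiffAt ℝ ∞ (fun w : ℂ => ((ζ ‖w‖ / ‖w‖ : ℝ) : ℂ)) z :=
      Complex.ofRealCLM.contDiff.contDiffAt.comp z h1
    have h3 : ContDiffAt ℝ ∞ (fun w : ℂ => ((‖w‖ : ℝ) : ℂ)) z :=
      Complex.ofRealCLM.contDiff.contDiffAt.comp z hn
    have h4 : ContDiffAt ℝ ∞ (fun w : ℂ => conj w) z := Complex.conjCLE.contDiff.contDiffAt
    have hn0' : ((‖z‖ : ℝ) : ℂ) ≠ 0 := by exact_mod_cast hn0
    have h5 : ContDiffAt ℝ ∞ (fun w : ℂ => conj w / (‖w‖ : ℂ)) z := by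
      simp only [div_eq_mul_inv]
      exact h4.mul (h3.inv hn0')
    refine h2.mul (contDiffAt_zpow' h5 ?_ k)
    exact div_ne_zero (by simpa using hz) hn0'

lemma tf_compact (hc : HasCompactSupport ζ) : HasCompactSupport (tf k ζ) := by
  obtain ⟨R, hR⟩ := (Metric.isBounded_iff_subset_closedBall (0:ℝ)).1 hc.isCompact.isBounded
  refine HasCompactSupport.intro (isCompact_closedBall (0:ℂ) R) fun z hz => ?_
  have : ζ ‖z‖ = 0 := by
    by_contra hne
    have h1 := hR (subset_tsupport _ hne)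
    rw [mem_closedBall_zero_iff, norm_norm] at h1
    exact hz (by rw [mem_closedBall_zero_iff]; exact h1)
  simp [tf, this]

lemma tf_pt {r : ℝ} (hr : 0 < r) (θ : ℝ) :
    tf k ζ (pt r θ) = ((ζ r / r : ℝ) : ℂ) * Complex.exp (-(k * θ) * Complex.I) := by
  unfold tf
  rw [norm_pt, abs_of_pos hr]
  congr 1
  have h1 : conj (pt r θ) / ((r : ℝ) : ℂ) = Complex.exp (-(θ * Complex.I)) := by
    unfold pt
    have hr' : ((r : ℝ) : ℂ) ≠ 0 := by exact_mod_cast hr.ne'
    rw [map_mul, Complex.conj_ofReal, ← Complex.exp_conj, map_mul, Complex.conj_ofReal, Complex.conj_I]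
    field_simp
  rw [h1, ← Complex.exp_int_mul]
  congr 1
  ring

lemma dbar1 (L : ℂ →L[ℝ] ℂ) (θ : ℝ) : L 1 - Complex.I * L Complex.I =
    Complex.exp (-(θ * Complex.I)) * (L (Complex.exp (θ * Complex.I)) -
      Complex.I * L (Complex.I * Complex.exp (θ * Complex.I))) := by
  have e1 : Complex.exp (θ * Complex.I) = Real.cos θ • (1:ℂ) + Real.sin θ • Complex.I := by
    rw [Complex.exp_mul_I, Complex.real_smul, Complex.real_smul]
    push_cast; ring
  have e2 : Complex.I * Complex.exp (θ * Complex.I) = (-Real.sin θ) • (1:ℂ) + Real.cos θ • Complex.I := by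
    rw [Complex.exp_mul_I, Complex.real_smul, Complex.real_smul]
    push_cast
    linear_combination (Complex.sin θ) * Complex.I_sq
  have e3 : Complex.exp (-(θ * Complex.I)) = Complex.cos θ - Complex.sin θ * Complex.I := by
    rw [← neg_mul, Complex.exp_mul_I, Complex.cos_neg, Complex.sin_neg]; ring
  rw [e2, e1]
  rw [map_add, map_add, map_smul, map_smul, map_smul, map_smul, e3]
  simp only [Complex.real_smul]
  push_cast
  have h := Complex.cos_sq_add_sin_sq (θ : ℂ)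
  linear_combination (-(L 1 - Complex.I * L Complex.I)) * h +
    (Complex.sin θ ^ 2 * L 1 - Complex.sin θ * Complex.cos θ * L Complex.I) * Complex.I_sq

lemma dbar2 (L : ℂ →L[ℝ] ℂ) (θ : ℝ) : L 1 + Complex.I * L Complex.I =
    Complex.exp (θ * Complex.I) * (L (Complex.exp (θ * Complex.I)) +
      Complex.I * L (Complex.I * Complex.exp (θ * Complex.I))) := by
  have e1 : Complex.exp (θ * Complex.I) = Real.cos θ • (1:ℂ) + Real.sin θ • Complex.I := by
    rw [Complex.exp_mul_I, Complex.real_smul, Complex.real_smul]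
    push_cast; ring
  have e2 : Complex.I * Complex.exp (θ * Complex.I) = (-Real.sin θ) • (1:ℂ) + Real.cos θ • Complex.I := by
    rw [Complex.exp_mul_I, Complex.real_smul, Complex.real_smul]
    push_cast
    linear_combination (Complex.sin θ) * Complex.I_sq
  have e3 : Complex.exp (θ * Complex.I) = Complex.cos θ + Complex.sin θ * Complex.I := by
    rw [Complex.exp_mul_I]
  have e4 : L (Complex.exp (θ * Complex.I)) = Real.cos θ • L 1 + Real.sin θ • L Complex.I := by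
    rw [e1, map_add, map_smul, map_smul]
  rw [e2, e4]
  rw [map_add, map_smul, map_smul, e3]
  simp only [Complex.real_smul]
  push_cast
  have h := Complex.cos_sq_add_sin_sq (θ : ℂ)
  linear_combination (-(L 1 + Complex.I * L Complex.I)) * h +
    (Complex.sin θ ^ 2 * L 1 - Complex.sin θ * Complex.cos θ * L Complex.I) * Complex.I_sq

/-- radial and angular derivatives in polar coordinates -/
lemma tf_derivs (hζ : ContDiff ℝ ∞ ζ) (hs : tsupport ζ ⊆ Ioi 0) {r : ℝ} (hr : 0 < r) (θ : ℝ) :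
    fderiv ℝ (tf k ζ) (pt r θ) (Complex.exp (θ * Complex.I)) =
      ((deriv ζ r / r - ζ r / r ^ 2 : ℝ) : ℂ) * Complex.exp (-(k * θ) * Complex.I) ∧
    fderiv ℝ (tf k ζ) (pt r θ) (Complex.I * Complex.exp (θ * Complex.I)) =
      ((ζ r / r ^ 2 : ℝ) : ℂ) * (-k * Complex.I) * Complex.exp (-(k * θ) * Complex.I) := by
  have hd := (((tf_contDiff (k := k) hζ hs).differentiable (by simp)) (pt r θ)).hasFDerivAt
  set L := fderiv ℝ (tf k ζ) (pt r θ) with hL
  have hr' : ((r : ℝ) : ℂ) ≠ 0 := by exact_mod_cast hr.ne'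
  constructor
  · -- radial curve
    have hc : HasDerivAt (fun t : ℝ => pt t θ) (Complex.exp (θ * Complex.I)) r := by
      unfold pt
      have := (Complex.ofRealCLM.hasDerivAt (x := r)).mul_const (Complex.exp (θ * Complex.I))
      simpa using this
    have h1 : HasDerivAt (fun t : ℝ => tf k ζ (pt t θ)) (L (Complex.exp (θ * Complex.I))) r :=
      HasFDerivAt.comp_hasDerivAt (l := tf k ζ) (f := fun t : ℝ => pt t θ) r hd hc
    have h2 : HasDerivAt (fun t : ℝ => ((ζ t / t : ℝ) : ℂ) * Complex.exp (-(k * θ) * Complex.I))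
        (((deriv ζ r / r - ζ r / r ^ 2 : ℝ) : ℂ) * Complex.exp (-(k * θ) * Complex.I)) r := by
      refine HasDerivAt.mul_const ?_ _
      have h3 : HasDerivAt (fun t : ℝ => ζ t / t) (deriv ζ r / r - ζ r / r ^ 2) r := by
        have := ((hζ.differentiable (by simp)) r).hasDerivAt.div (hasDerivAt_id r) hr.ne'
        refine this.congr_deriv ?_
        simp only [id]
        field_simp
      exact h3.ofReal_comp
    refine h1.unique (h2.congr_of_eventuallyEq ?_)
    filter_upwards [lt_mem_nhds hr] with t ht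
    exact tf_pt ht θ
  · have hc : HasDerivAt (fun t : ℝ => pt r t) ((r : ℂ) * (Complex.I * Complex.exp (θ * Complex.I))) θ := by
      unfold pt
      have h3 : HasDerivAt (fun t : ℝ => Complex.exp ((t : ℂ) * Complex.I))
          (Complex.exp (θ * Complex.I) * (1 * Complex.I)) θ :=
        ((Complex.ofRealCLM.hasDerivAt (x := θ)).mul_const Complex.I).cexp
      refine (h3.const_mul (r:ℂ)).congr_deriv ?_
      ring
    have h1 : HasDerivAt (fun t : ℝ => tf k ζ (pt r t))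
        (L ((r : ℂ) * (Complex.I * Complex.exp (θ * Complex.I)))) θ :=
      hd.comp_hasDerivAt θ hc
    have h2 : HasDerivAt (fun t : ℝ => ((ζ r / r : ℝ) : ℂ) * Complex.exp (-(k * t) * Complex.I))
        (((ζ r / r : ℝ) : ℂ) * (Complex.exp (-(k * θ) * Complex.I) * (-(k * 1) * Complex.I))) θ := by
      refine HasDerivAt.const_mul _ ?_
      exact ((((Complex.ofRealCLM.hasDerivAt (x := θ)).const_mul (k:ℂ)).neg).mul_const Complex.I).cexp
    have h3 : (fun t : ℝ => tf k ζ (pt r t)) =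
        fun t : ℝ => ((ζ r / r : ℝ) : ℂ) * Complex.exp (-(k * t) * Complex.I) :=
      funext fun t => tf_pt hr t
    rw [h3] at h1
    have h4 := h1.unique h2
    have h5 : L ((r : ℂ) * (Complex.I * Complex.exp (θ * Complex.I))) =
        (r : ℂ) * L (Complex.I * Complex.exp (θ * Complex.I)) := by
      have : (r : ℂ) * (Complex.I * Complex.exp (θ * Complex.I)) =
          r • (Complex.I * Complex.exp (θ * Complex.I)) := (Complex.real_smul).symm
      rw [this, map_smul, Complex.real_smul]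
    rw [h5] at h4
    have h6 : L (Complex.I * Complex.exp (θ * Complex.I)) = (r : ℂ)⁻¹ *
        (((ζ r / r : ℝ) : ℂ) * (Complex.exp (-(k * θ) * Complex.I) * (-(k * 1) * Complex.I))) := by
      rw [← h4]; field_simp
    rw [h6]
    push_cast
    field_simp

lemma exp_split (j : ℤ) (θ : ℝ) : Complex.exp (-((j + 1 : ℤ) * θ) * Complex.I) =
    Complex.exp (-(θ * Complex.I)) * Complex.exp (-(j * θ) * Complex.I) := by
  rw [← Complex.exp_add]; congr 1; push_cast; ring

lemma exp_split' (j : ℤ) (θ : ℝ) : Complex.exp (-(j * θ) * Complex.I) =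
    Complex.exp (θ * Complex.I) * Complex.exp (-((j + 1 : ℤ) * θ) * Complex.I) := by
  rw [← Complex.exp_add]; congr 1; push_cast; ring

lemma tf_dbar1 (hζ : ContDiff ℝ ∞ ζ) (hs : tsupport ζ ⊆ Ioi 0) {r : ℝ} (hr : 0 < r) (θ : ℝ) :
    (r : ℂ) * (fderiv ℝ (tf k ζ) (pt r θ) 1 - Complex.I * fderiv ℝ (tf k ζ) (pt r θ) Complex.I) =
      ((deriv ζ r - (k + 1) / r * ζ r : ℝ) : ℂ) *
        Complex.exp (-((k + 1 : ℤ) * θ) * Complex.I) := by
  obtain ⟨h1, h2⟩ := tf_derivs (k := k) hζ hs hr θ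
  have hr' : ((r : ℝ) : ℂ) ≠ 0 := by exact_mod_cast hr.ne'
  rw [dbar1 _ θ, h1, h2, exp_split]
  push_cast
  field_simp
  linear_combination ((ζ r : ℂ) * k) * Complex.I_sq

lemma tf_dbar2 (hζ : ContDiff ℝ ∞ ζ) (hs : tsupport ζ ⊆ Ioi 0) {r : ℝ} (hr : 0 < r) (θ : ℝ) :
    (r : ℂ) * (fderiv ℝ (tf (k + 1) ζ) (pt r θ) 1 +
      Complex.I * fderiv ℝ (tf (k + 1) ζ) (pt r θ) Complex.I) =
      ((deriv ζ r + k / r * ζ r : ℝ) : ℂ) * Complex.exp (-(k * θ) * Complex.I) := by
  obtain ⟨h1, h2⟩ := tf_derivs (k := k + 1) hζ hs hr θ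
  have hr' : ((r : ℝ) : ℂ) ≠ 0 := by exact_mod_cast hr.ne'
  rw [dbar2 _ θ, h1, h2, exp_split' k]
  push_cast
  field_simp
  linear_combination (-((ζ r : ℂ) * (k + 1))) * Complex.I_sq

end

end Pool.Agent.helper84.Dir
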