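import Pool.Agent.helper84.DirAC

open MeasureTheory Set Filter Topology
open scoped NNReal

namespace Pool.Agent.helper84.Dir

/-- Data for a first order linear system `F' = a H`, `H' = b F` on `[0,∞)` which may be singular
at `0`: `|a| ≤ A`, `|b| ≤ B`, with `B` and `A * ∫ B` locally integrable. -/
structure VData (A B : ℝ → ℝ) : Prop where
  Ameas : Measurable A
  Bmeas : Measurable B
  Apos : ∀ t, 0 ≤ A t
  Bpos : ∀ t, 0 ≤ B t
  Bint : ∀ R, 0 < R → IntervalIntegrable B volume 0 R
  ABint : ∀ R, 0 < R → IntervalIntegrable (fun t => A t * ∫ s in 0..t, B s) volume 0 R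

structure VCoef (A B a b : ℝ → ℝ) : Prop where
  ameas : Measurable a
  bmeas : Measurable b
  ale : ∀ t, 0 < t → |a t| ≤ A t
  ble : ∀ t, 0 < t → |b t| ≤ B t

/-- the iterates -/
noncomputable def Fn (a b : ℝ → ℝ) : ℕ → ℝ → ℝ
  | 0 => fun _ => 1
  | n + 1 => fun r => ∫ t in 0..r, a t * ∫ s in 0..t, b s * Fn a b n s

noncomputable def Hn (a b : ℝ → ℝ) (n : ℕ) (t : ℝ) : ℝ := ∫ s in 0..t, b s * Fn a b n s

noncomputable def BI (B : ℝ → ℝ) (t : ℝ) : ℝ := ∫ s in 0..t, B s

noncomputable def hI (A B : ℝ → ℝ) (r : ℝ) : ℝ := ∫ t in 0..r, A t * BI B t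

section
variable {A B a b : ℝ → ℝ}

lemma Fn_succ (n : ℕ) (r : ℝ) : Fn a b (n+1) r = ∫ t in 0..r, a t * Hn a b n t := rfl

lemma VData.BI_acd (h : VData A B) {R : ℝ} (hR : 0 < R) : ACD (BI B) B 0 R :=
  ACD.of_integral (c := 0) (x₀ := 0) (h.Bint R hR) left_mem_uIcc (by intro x _; simp [BI]) hR

lemma VData.hI_acd (h : VData A B) {R : ℝ} (hR : 0 < R) :
    ACD (hI A B) (fun t => A t * BI B t) 0 R :=
  ACD.of_integral (c := 0) (x₀ := 0) (h.ABint R hR) left_mem_uIcc (by intro x _; simp [hI]) hR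

lemma VData.BI_nonneg (h : VData A B) {t : ℝ} (ht : 0 ≤ t) : 0 ≤ BI B t :=
  intervalIntegral.integral_nonneg ht fun s _ => h.Bpos s

lemma VData.hI_nonneg (h : VData A B) {t : ℝ} (ht : 0 ≤ t) : 0 ≤ hI A B t :=
  intervalIntegral.integral_nonneg ht fun s hs => mul_nonneg (h.Apos s) (h.BI_nonneg hs.1)

lemma VData.hI_mono (h : VData A B) {s t : ℝ} (hs : 0 ≤ s) (hst : s ≤ t) :
    hI A B s ≤ hI A B t := by
  rcases eq_or_lt_of_le (hs.trans hst) with h0 | h0
  · have : s = t := le_antisymm hst (h0 ▸ hs)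
    rw [this]
  · have h1 := (h.hI_acd h0).mono (c := s) (d := t) (by
      rw [uIcc_of_le hst, uIcc_of_le h0.le]; exact Icc_subset_Icc hs le_rfl)
    exact h1.le_of_nonneg hst (ae_of_all _ fun x hx =>
      mul_nonneg (h.Apos x) (h.BI_nonneg (hs.trans hx.1.le)))

lemma VData.BI_mono (h : VData A B) {s t : ℝ} (hs : 0 ≤ s) (hst : s ≤ t) :
    BI B s ≤ BI B t := by
  rcases eq_or_lt_of_le (hs.trans hst) with h0 | h0
  · have : s = t := le_antisymm hst (h0 ▸ hs)
    rw [this]
  · have h1 := (h.BI_acd h0).mono (c := s) (d := t) (by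
      rw [uIcc_of_le hst, uIcc_of_le h0.le]; exact Icc_subset_Icc hs le_rfl)
    exact h1.le_of_nonneg hst (ae_of_all _ fun x hx => h.Bpos x)

lemma VData.pow_acd (h : VData A B) {R : ℝ} (hR : 0 < R) (n : ℕ) :
    ACD (fun r => hI A B r ^ (n+1) / (n+1).factorial)
      (fun r => A r * BI B r * (hI A B r ^ n / n.factorial)) 0 R := by
  have h1 : ∀ n : ℕ, ACD (fun r => hI A B r ^ (n+1))
      (fun r => (n+1) * (A r * BI B r * (hI A B r ^ n))) 0 R := by
    intro n
    induction n with
    | zero =>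
      have := h.hI_acd hR
      simpa using this
    | succ n ih =>
      have h2 := ih.mul (h.hI_acd hR)
      refine ACD.congr_der' (f' := (fun r => (n+1) * (A r * BI B r * (hI A B r ^ n)) * hI A B r +
          hI A B r ^ (n+1) * (A r * BI B r))) ?_ ?_
      · simpa [pow_succ] using h2
      · intro x _
        push_cast
        ring
  have h2 := (h1 n).const_mul (((n+1).factorial : ℝ)⁻¹)
  refine ACD.congr_der' (f' := fun r => ((n+1).factorial : ℝ)⁻¹ * ((n+1) * (A r * BI B r * (hI A B r ^ n)))) ?_ ?_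
  · have : (fun r => hI A B r ^ (n+1) / (n+1).factorial) =
      (fun r => ((n+1).factorial : ℝ)⁻¹ * hI A B r ^ (n+1)) := by
      funext r; rw [div_eq_inv_mul]
    rw [this]; exact h2
  · intro x _
    rw [Nat.factorial_succ]
    push_cast
    have : (n.factorial : ℝ) ≠ 0 := by positivity
    field_simp

lemma VData.pow_integral (h : VData A B) {r : ℝ} (hr : 0 ≤ r) (n : ℕ) :
    ∫ t in 0..r, A t * BI B t * (hI A B t ^ n / n.factorial) =
      hI A B r ^ (n+1) / (n+1).factorial := by
  rcases eq_or_lt_of_le hr with h0 | h0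
  · rw [← h0]; simp [hI]
  · rw [(h.pow_acd h0 n).integral]
    simp [hI]

/-- Main induction: continuity and size of the iterates. -/
lemma Fn_props (h : VData A B) (hc : VCoef A B a b) (n : ℕ) :
    (∀ R, 0 < R → ContinuousOn (Fn a b n) (Icc 0 R)) ∧
    (∀ r, 0 ≤ r → |Fn a b n r| ≤ hI A B r ^ n / n.factorial) ∧
    (∀ R, 0 < R → IntervalIntegrable (fun s => b s * Fn a b n s) volume 0 R) ∧
    (∀ t, 0 ≤ t → |Hn a b n t| ≤ BI B t * (hI A B t ^ n / n.factorial)) ∧
    (∀ R, 0 < R → IntervalIntegrable (fun t => a t * Hn a b n t) volume 0 R) := by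
  -- from the first two, derive the other three
  have key : ∀ n : ℕ, (∀ R, 0 < R → ContinuousOn (Fn a b n) (Icc 0 R)) →
      (∀ r, 0 ≤ r → |Fn a b n r| ≤ hI A B r ^ n / n.factorial) →
      (∀ R, 0 < R → IntervalIntegrable (fun s => b s * Fn a b n s) volume 0 R) ∧
      (∀ t, 0 ≤ t → |Hn a b n t| ≤ BI B t * (hI A B t ^ n / n.factorial)) ∧
      (∀ R, 0 < R → IntervalIntegrable (fun t => a t * Hn a b n t) volume 0 R) := by
    intro n h1 h2
    have h3 : ∀ R, 0 < R → IntervalIntegrable (fun s => b s * Fn a b n s) volume 0 R := by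
      intro R hR
      have hb : IntervalIntegrable b volume 0 R := by
        refine (h.Bint R hR).mono_fun hc.bmeas.aestronglyMeasurable ?_
        rw [uIoc_of_le hR.le]
        refine (ae_restrict_iff' measurableSet_Ioc).2 (ae_of_all _ fun t ht => ?_)
        beta_reduce
        rw [Real.norm_eq_abs, Real.norm_eq_abs, abs_of_nonneg (h.Bpos t)]
        exact hc.ble t ht.1
      exact hb.mul_continuousOn (by rw [uIcc_of_le hR.le]; exact h1 R hR)
    have h4 : ∀ t, 0 ≤ t → |Hn a b n t| ≤ BI B t * (hI A B t ^ n / n.factorial) := by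
      intro t ht
      rcases eq_or_lt_of_le ht with h0 | h0
      · rw [← h0]; simp [Hn, BI]
      have : |Hn a b n t| ≤ ∫ s in 0..t, B s * (hI A B t ^ n / n.factorial) := by
        rw [Hn, ← Real.norm_eq_abs]
        refine intervalIntegral.norm_integral_le_of_norm_le ht ?_ ((h.Bint t h0).mul_const _)
        refine ae_of_all _ fun s hs => ?_
        rw [Real.norm_eq_abs, abs_mul]
        refine mul_le_mul (hc.ble s hs.1) ((h2 s hs.1.le).trans ?_) (abs_nonneg _) (h.Bpos s)
        have := h.hI_mono hs.1.le hs.2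
        have h0' := h.hI_nonneg hs.1.le
        gcongr
      rwa [intervalIntegral.integral_mul_const] at this
    refine ⟨h3, h4, ?_⟩
    intro R hR
    have hHm : AEStronglyMeasurable (fun t => a t * Hn a b n t) (volume.restrict (uIoc 0 R)) := by
      refine hc.ameas.aestronglyMeasurable.mul ?_
      have hcont : ContinuousOn (Hn a b n) (uIcc 0 R) := by
        have : ACD (Hn a b n) (fun s => b s * Fn a b n s) 0 R :=
          ACD.of_integral (c := 0) (x₀ := 0) (h3 R hR) left_mem_uIcc (by intro x _; simp [Hn]) hR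
        exact this.continuousOn
      exact (hcont.mono uIoc_subset_uIcc).aestronglyMeasurable measurableSet_uIoc
    refine ((h.pow_acd hR n).intervalIntegrable).mono_fun hHm ?_
    rw [uIoc_of_le hR.le]
    refine (ae_restrict_iff' measurableSet_Ioc).2 (ae_of_all _ fun t ht => ?_)
    have hB := h.BI_nonneg ht.1.le
    have hh := h.hI_nonneg ht.1.le
    beta_reduce
    rw [Real.norm_eq_abs, Real.norm_eq_abs, abs_mul,
      abs_of_nonneg (show 0 ≤ A t * BI B t * (hI A B t ^ n / n.factorial) by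
        have := h.Apos t; positivity), mul_assoc]
    exact mul_le_mul (hc.ale t ht.1) (h4 t ht.1.le) (abs_nonneg _) (h.Apos t)
  have main : (∀ R, 0 < R → ContinuousOn (Fn a b n) (Icc 0 R)) ∧
    (∀ r, 0 ≤ r → |Fn a b n r| ≤ hI A B r ^ n / n.factorial) := by
    induction n with
    | zero =>
      refine ⟨fun R _ => continuousOn_const, fun r _ => by simp [Fn]⟩
    | succ n ih =>
      obtain ⟨h3, h4, h5⟩ := key n ih.1 ih.2
      refine ⟨fun R hR => ?_, fun r hr => ?_⟩
      · have : ACD (Fn a b (n+1)) (fun t => a t * Hn a b n t) 0 R :=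
          ACD.of_integral (c := 0) (x₀ := 0) (h5 R hR) left_mem_uIcc
            (by intro x _; simp [Fn_succ]) hR
        have := this.continuousOn
        rwa [uIcc_of_le hR.le] at this
      · rcases eq_or_lt_of_le hr with h0 | h0
        · rw [← h0]; simp [Fn_succ, hI]
        rw [← h.pow_integral hr n, Fn_succ, ← Real.norm_eq_abs]
        refine intervalIntegral.norm_integral_le_of_norm_le hr ?_
          ((h.pow_acd h0 n).intervalIntegrable)
        refine ae_of_all _ fun t ht => ?_
        rw [Real.norm_eq_abs, abs_mul, mul_assoc]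
        exact mul_le_mul (hc.ale t ht.1) (h4 t ht.1.le) (abs_nonneg _) (h.Apos t)
  exact ⟨main.1, main.2, key n main.1 main.2⟩

/-- The regular solution. -/
noncomputable def Fs (a b : ℝ → ℝ) (r : ℝ) : ℝ := ∑' n, Fn a b n r
noncomputable def Hs (a b : ℝ → ℝ) (r : ℝ) : ℝ := ∑' n, Hn a b n r

lemma summable_exp_bound (x : ℝ) : Summable (fun n : ℕ => x ^ n / n.factorial) :=
  Real.summable_pow_div_factorial x

lemma Fn_summable (h : VData A B) (hc : VCoef A B a b) {r : ℝ} (hr : 0 ≤ r) :
    Summable (fun n => Fn a b n r) :=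
  Summable.of_norm_bounded (summable_exp_bound (hI A B r))
    (fun n => by simpa using (Fn_props h hc n).2.1 r hr)

lemma Hn_summable (h : VData A B) (hc : VCoef A B a b) {r : ℝ} (hr : 0 ≤ r) :
    Summable (fun n => Hn a b n r) :=
  Summable.of_norm_bounded ((summable_exp_bound (hI A B r)).mul_left (BI B r))
    (fun n => by simpa using (Fn_props h hc n).2.2.2.1 r hr)

lemma tsum_pow (x : ℝ) : ∑' n : ℕ, x ^ n / n.factorial = Real.exp x := by
  rw [Real.exp_eq_exp_ℝ, NormedSpace.exp_eq_tsum_div]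

lemma Fs_le (h : VData A B) (hc : VCoef A B a b) {r : ℝ} (hr : 0 ≤ r) :
    |Fs a b r| ≤ Real.exp (hI A B r) := by
  rw [← tsum_pow, ← Real.norm_eq_abs]
  exact tsum_of_norm_bounded (summable_exp_bound _).hasSum
    (fun n => by simpa using (Fn_props h hc n).2.1 r hr)

lemma Hs_le (h : VData A B) (hc : VCoef A B a b) {r : ℝ} (hr : 0 ≤ r) :
    |Hs a b r| ≤ BI B r * Real.exp (hI A B r) := by
  rw [← tsum_pow, ← Real.norm_eq_abs, ← tsum_mul_left]
  exact tsum_of_norm_bounded ((summable_exp_bound _).mul_left _).hasSum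
    (fun n => by simpa using (Fn_props h hc n).2.2.2.1 r hr)

lemma exp_hI_cont (h : VData A B) {R : ℝ} (hR : 0 < R) :
    ContinuousOn (fun t => Real.exp (hI A B t)) (uIcc 0 R) :=
  Real.continuous_exp.comp_continuousOn (h.hI_acd hR).continuousOn

lemma Hs_eq (h : VData A B) (hc : VCoef A B a b) {r : ℝ} (hr : 0 ≤ r) :
    Hs a b r = ∫ s in 0..r, b s * Fs a b s := by
  rcases eq_or_lt_of_le hr with h0 | h0
  · rw [← h0]; simp [Hs, Hn]
  have := intervalIntegral.hasSum_integral_of_dominated_convergence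
    (F := fun n s => b s * Fn a b n s) (f := fun s => b s * Fs a b s) (μ := volume)
    (a := 0) (b := r) (fun n s => B s * (hI A B s ^ n / n.factorial))
    (fun n => ((Fn_props h hc n).2.2.1 r h0).def'.aestronglyMeasurable)
    (fun n => ae_of_all _ fun t ht => by
      rw [uIoc_of_le hr] at ht
      rw [Real.norm_eq_abs, abs_mul]
      exact mul_le_mul (hc.ble t ht.1) ((Fn_props h hc n).2.1 t ht.1.le) (abs_nonneg _) (h.Bpos t))
    (ae_of_all _ fun t _ => (summable_exp_bound _).mul_left _)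
    (by
      have h1 : (fun t => ∑' n : ℕ, B t * (hI A B t ^ n / n.factorial)) =
          fun t => B t * Real.exp (hI A B t) := by
        funext t; rw [tsum_mul_left, tsum_pow]
      rw [h1]
      exact (h.Bint r h0).mul_continuousOn (exp_hI_cont h h0))
    (ae_of_all _ fun t ht => by
      rw [uIoc_of_le hr] at ht
      exact ((Fn_summable h hc ht.1.le).hasSum).mul_left _)
  exact this.tsum_eq

lemma Fs_eq (h : VData A B) (hc : VCoef A B a b) {r : ℝ} (hr : 0 ≤ r) :
    Fs a b r = 1 + ∫ s in 0..r, a s * Hs a b s := by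
  have hF : Fs a b r = 1 + ∑' n, Fn a b (n+1) r := by
    rw [Fs, (Fn_summable h hc hr).tsum_eq_zero_add]; rfl
  rw [hF]
  congr 1
  rcases eq_or_lt_of_le hr with h0 | h0
  · rw [← h0]; simp [Fn]
  have := intervalIntegral.hasSum_integral_of_dominated_convergence
    (F := fun n s => a s * Hn a b n s) (f := fun s => a s * Hs a b s) (μ := volume)
    (a := 0) (b := r) (fun n s => A s * BI B s * (hI A B s ^ n / n.factorial))
    (fun n => ((Fn_props h hc n).2.2.2.2 r h0).def'.aestronglyMeasurable)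
    (fun n => ae_of_all _ fun t ht => by
      rw [uIoc_of_le hr] at ht
      rw [Real.norm_eq_abs, abs_mul, mul_assoc]
      exact mul_le_mul (hc.ale t ht.1) ((Fn_props h hc n).2.2.2.1 t ht.1.le) (abs_nonneg _)
        (h.Apos t))
    (ae_of_all _ fun t _ => (summable_exp_bound _).mul_left _)
    (by
      have h1 : (fun t => ∑' n : ℕ, A t * BI B t * (hI A B t ^ n / n.factorial)) =
          fun t => A t * BI B t * Real.exp (hI A B t) := by
        funext t; rw [tsum_mul_left, tsum_pow]
      rw [h1]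
      exact (h.ABint r h0).mul_continuousOn (exp_hI_cont h h0))
    (ae_of_all _ fun t ht => by
      rw [uIoc_of_le hr] at ht
      exact ((Hn_summable h hc ht.1.le).hasSum).mul_left _)
  exact this.tsum_eq

/-- Dependence of the iterates on the coefficients. -/
lemma Fn_diff {a' b' : ℝ → ℝ} {c : ℝ} (hc0 : 0 ≤ c) (h : VData A B) (hc : VCoef A B a b)
    (hc' : VCoef A B a' b') (hda : ∀ t, 0 < t → |a t - a' t| ≤ c * A t)
    (hdb : ∀ t, 0 < t → |b t - b' t| ≤ c * B t) (n : ℕ) :
    (∀ r, 0 ≤ r → |Fn a b n r - Fn a' b' n r| ≤ c * (2 * n) * (hI A B r ^ n / n.factorial)) ∧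
    (∀ t, 0 ≤ t → |Hn a b n t - Hn a' b' n t| ≤
      c * (2 * n + 1) * BI B t * (hI A B t ^ n / n.factorial)) := by
  have key : ∀ n : ℕ, (∀ r, 0 ≤ r → |Fn a b n r - Fn a' b' n r| ≤
      c * (2 * n) * (hI A B r ^ n / n.factorial)) →
      (∀ t, 0 ≤ t → |Hn a b n t - Hn a' b' n t| ≤
      c * (2 * n + 1) * BI B t * (hI A B t ^ n / n.factorial)) := by
    intro n h1 t ht
    rcases eq_or_lt_of_le ht with h0 | h0
    · rw [← h0]; simp [Hn, BI]
    have h2 := ((Fn_props h hc n).2.2.1 t h0)
    have h2' := ((Fn_props h hc' n).2.2.1 t h0)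
    have h3 : Hn a b n t - Hn a' b' n t = ∫ s in 0..t, (b s * Fn a b n s - b' s * Fn a' b' n s) := by
      rw [Hn, Hn, intervalIntegral.integral_sub h2 h2']
    have h4 : |Hn a b n t - Hn a' b' n t| ≤
        ∫ s in 0..t, B s * (c * (2 * n + 1) * (hI A B t ^ n / n.factorial)) := by
      rw [h3, ← Real.norm_eq_abs]
      refine intervalIntegral.norm_integral_le_of_norm_le ht ?_ ((h.Bint t h0).mul_const _)
      refine ae_of_all _ fun s hs => ?_
      have e1 : b s * Fn a b n s - b' s * Fn a' b' n s =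
        b s * (Fn a b n s - Fn a' b' n s) + (b s - b' s) * Fn a' b' n s := by ring
      have hm : hI A B s ^ n / n.factorial ≤ hI A B t ^ n / n.factorial := by
        have := h.hI_mono hs.1.le hs.2
        have h0' := h.hI_nonneg hs.1.le
        gcongr
      have hB := h.Bpos s
      rw [Real.norm_eq_abs, e1]
      calc |b s * (Fn a b n s - Fn a' b' n s) + (b s - b' s) * Fn a' b' n s|
          ≤ |b s| * |Fn a b n s - Fn a' b' n s| + |b s - b' s| * |Fn a' b' n s| := by
            rw [← abs_mul, ← abs_mul]; exact abs_add_le _ _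
        _ ≤ B s * (c * (2 * n) * (hI A B t ^ n / n.factorial)) +
            c * B s * (hI A B t ^ n / n.factorial) := by
            refine add_le_add (mul_le_mul (hc.ble s hs.1) ((h1 s hs.1.le).trans ?_)
              (abs_nonneg _) hB) (mul_le_mul (hdb s hs.1)
              (((Fn_props h hc' n).2.1 s hs.1.le).trans hm) (abs_nonneg _) (by positivity))
            gcongr
        _ = B s * (c * (2 * n + 1) * (hI A B t ^ n / n.factorial)) := by ring
    rw [intervalIntegral.integral_mul_const] at h4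
    calc _ ≤ _ := h4
      _ = _ := by rw [show (∫ s in 0..t, B s) = BI B t from rfl]; ring
  have main : ∀ r, 0 ≤ r → |Fn a b n r - Fn a' b' n r| ≤
      c * (2 * n) * (hI A B r ^ n / n.factorial) := by
    induction n with
    | zero => intro r _; simp [Fn]
    | succ n ih =>
      intro r hr
      rcases eq_or_lt_of_le hr with h0 | h0
      · rw [← h0]; simp [Fn_succ, hI]
      have h1 := key n ih
      have h2 := ((Fn_props h hc n).2.2.2.2 r h0)
      have h2' := ((Fn_props h hc' n).2.2.2.2 r h0)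
      have h3 : Fn a b (n+1) r - Fn a' b' (n+1) r =
          ∫ s in 0..r, (a s * Hn a b n s - a' s * Hn a' b' n s) := by
        rw [Fn_succ, Fn_succ, intervalIntegral.integral_sub h2 h2']
      have h4 : |Fn a b (n+1) r - Fn a' b' (n+1) r| ≤
          ∫ s in 0..r, (c * (2 * (n + 1))) * (A s * BI B s * (hI A B s ^ n / n.factorial)) := by
        rw [h3, ← Real.norm_eq_abs]
        refine intervalIntegral.norm_integral_le_of_norm_le hr ?_
          (((h.pow_acd h0 n).intervalIntegrable).const_mul _)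
        refine ae_of_all _ fun s hs => ?_
        have e1 : a s * Hn a b n s - a' s * Hn a' b' n s =
          a s * (Hn a b n s - Hn a' b' n s) + (a s - a' s) * Hn a' b' n s := by ring
        have hB := h.BI_nonneg hs.1.le
        have hh := h.hI_nonneg hs.1.le
        have hA := h.Apos s
        rw [Real.norm_eq_abs, e1]
        calc |a s * (Hn a b n s - Hn a' b' n s) + (a s - a' s) * Hn a' b' n s|
            ≤ |a s| * |Hn a b n s - Hn a' b' n s| + |a s - a' s| * |Hn a' b' n s| := by
              rw [← abs_mul, ← abs_mul]; exact abs_add_le _ _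
          _ ≤ A s * (c * (2 * n + 1) * BI B s * (hI A B s ^ n / n.factorial)) +
              c * A s * (BI B s * (hI A B s ^ n / n.factorial)) := by
              refine add_le_add (mul_le_mul (hc.ale s hs.1) (h1 s hs.1.le)
                (abs_nonneg _) hA) (mul_le_mul (hda s hs.1)
                ((Fn_props h hc' n).2.2.2.1 s hs.1.le) (abs_nonneg _) (by positivity))
          _ = (c * (2 * (n + 1))) * (A s * BI B s * (hI A B s ^ n / n.factorial)) := by ring
      rw [intervalIntegral.integral_const_mul, h.pow_integral hr n] at h4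
      push_cast
      exact h4
  exact ⟨main, key n main⟩

lemma two_mul_le_pow (n : ℕ) : (2 * n + 1 : ℝ) ≤ 3 * 2 ^ n := by
  have h1 : (n : ℝ) < 2 ^ n := by exact_mod_cast Nat.lt_two_pow_self
  have h2 : (1 : ℝ) ≤ 2 ^ n := one_le_pow₀ (by norm_num)
  linarith

lemma Fs_diff {a' b' : ℝ → ℝ} {c : ℝ} (hc0 : 0 ≤ c) (h : VData A B) (hc : VCoef A B a b)
    (hc' : VCoef A B a' b') (hda : ∀ t, 0 < t → |a t - a' t| ≤ c * A t)
    (hdb : ∀ t, 0 < t → |b t - b' t| ≤ c * B t) {r : ℝ} (hr : 0 ≤ r) :
    |Fs a b r - Fs a' b' r| ≤ 3 * c * Real.exp (2 * hI A B r) := by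
  have h1 := (Fn_summable h hc hr)
  have h2 := (Fn_summable h hc' hr)
  rw [Fs, Fs, ← h1.tsum_sub h2, ← Real.norm_eq_abs, ← tsum_pow, ← tsum_mul_left]
  refine tsum_of_norm_bounded ((summable_exp_bound _).mul_left _).hasSum (fun n => ?_)
  rw [Real.norm_eq_abs]
  refine ((Fn_diff hc0 h hc hc' hda hdb n).1 r hr).trans ?_
  have h3 := two_mul_le_pow n
  have h4 := h.hI_nonneg hr
  rw [mul_pow]
  calc c * (2 * n) * (hI A B r ^ n / n.factorial)
      ≤ c * (3 * 2 ^ n) * (hI A B r ^ n / n.factorial) := by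
        refine mul_le_mul_of_nonneg_right (mul_le_mul_of_nonneg_left (by linarith) hc0)
          (by positivity)
    _ = _ := by ring

lemma Hs_diff {a' b' : ℝ → ℝ} {c : ℝ} (hc0 : 0 ≤ c) (h : VData A B) (hc : VCoef A B a b)
    (hc' : VCoef A B a' b') (hda : ∀ t, 0 < t → |a t - a' t| ≤ c * A t)
    (hdb : ∀ t, 0 < t → |b t - b' t| ≤ c * B t) {r : ℝ} (hr : 0 ≤ r) :
    |Hs a b r - Hs a' b' r| ≤ 3 * c * BI B r * Real.exp (2 * hI A B r) := by
  have h1 := (Hn_summable h hc hr)
  have h2 := (Hn_summable h hc' hr)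
  rw [Hs, Hs, ← h1.tsum_sub h2, ← Real.norm_eq_abs, ← tsum_pow, ← tsum_mul_left]
  refine tsum_of_norm_bounded ((summable_exp_bound _).mul_left _).hasSum (fun n => ?_)
  rw [Real.norm_eq_abs]
  refine ((Fn_diff hc0 h hc hc' hda hdb n).2 r hr).trans ?_
  have h3 := two_mul_le_pow n
  have h4 := h.hI_nonneg hr
  have h5 := h.BI_nonneg hr
  rw [mul_pow]
  calc c * (2 * n + 1) * BI B r * (hI A B r ^ n / n.factorial)
      ≤ c * (3 * 2 ^ n) * BI B r * (hI A B r ^ n / n.factorial) := by
        gcongr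
    _ = _ := by ring

lemma Hs_bF_int (h : VData A B) (hc : VCoef A B a b) {R : ℝ} (hR : 0 < R) :
    IntervalIntegrable (fun s => b s * Fs a b s) volume 0 R := by
  have hm : ∀ n, AEStronglyMeasurable (fun s => b s * Fn a b n s) (volume.restrict (Ioc 0 R)) := by
    intro n
    have := ((Fn_props h hc n).2.2.1 R hR).aestronglyMeasurable
    simpa [uIoc_of_le hR.le] using this
  have hlim : ∀ᵐ t ∂(volume.restrict (Ioc 0 R)), HasSum (fun n => b t * Fn a b n t) (b t * Fs a b t) := by
    refine (ae_restrict_iff' measurableSet_Ioc).2 (ae_of_all _ fun t ht => ?_)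
    exact ((Fn_summable h hc ht.1.le).hasSum).mul_left _
  have hme : AEStronglyMeasurable (fun t => b t * Fs a b t) (volume.restrict (Ioc 0 R)) := by
    refine aestronglyMeasurable_of_tendsto_ae (u := atTop)
      (f := fun (s : ℕ) t => ∑ n ∈ Finset.range s, b t * Fn a b n t) (fun s => ?_) ?_
    · exact Finset.aestronglyMeasurable_fun_sum _ fun n _ => hm n
    · filter_upwards [hlim] with t ht using ht.tendsto_sum_nat
  have hb : IntervalIntegrable (fun s => B s * Real.exp (hI A B s)) volume 0 R :=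
    (h.Bint R hR).mul_continuousOn (exp_hI_cont h hR)
  refine hb.mono_fun (by rwa [uIoc_of_le hR.le]) ?_
  rw [uIoc_of_le hR.le]
  refine (ae_restrict_iff' measurableSet_Ioc).2 (ae_of_all _ fun t ht => ?_)
  beta_reduce
  rw [Real.norm_eq_abs, Real.norm_eq_abs, abs_mul, abs_mul, abs_of_nonneg (h.Bpos t),
    abs_of_pos (Real.exp_pos _)]
  exact mul_le_mul (hc.ble t ht.1) (Fs_le h hc ht.1.le) (abs_nonneg _) (h.Bpos t)

lemma Hs_acd (h : VData A B) (hc : VCoef A B a b) {R : ℝ} (hR : 0 < R) :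
    ACD (Hs a b) (fun s => b s * Fs a b s) 0 R :=
  ACD.of_integral (c := 0) (x₀ := 0) (Hs_bF_int h hc hR) left_mem_uIcc (by
    intro x hx
    rw [uIcc_of_le hR.le] at hx
    rw [Hs_eq h hc hx.1, zero_add]) hR

lemma Fs_aH_int (h : VData A B) (hc : VCoef A B a b) {R : ℝ} (hR : 0 < R) :
    IntervalIntegrable (fun s => a s * Hs a b s) volume 0 R := by
  have hb : IntervalIntegrable (fun s => A s * BI B s * Real.exp (hI A B s)) volume 0 R :=
    (h.ABint R hR).mul_continuousOn (exp_hI_cont h hR)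
  refine hb.mono_fun ?_ ?_
  · refine hc.ameas.aestronglyMeasurable.mul ?_
    exact ((Hs_acd h hc hR).continuousOn.mono uIoc_subset_uIcc).aestronglyMeasurable
      measurableSet_uIoc
  · rw [uIoc_of_le hR.le]
    refine (ae_restrict_iff' measurableSet_Ioc).2 (ae_of_all _ fun t ht => ?_)
    have hB := h.BI_nonneg ht.1.le
    beta_reduce
    rw [Real.norm_eq_abs, Real.norm_eq_abs, abs_mul, mul_assoc, abs_mul (A t),
      abs_of_nonneg (h.Apos t), abs_of_nonneg (by positivity : 0 ≤ BI B t * Real.exp (hI A B t))]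
    exact mul_le_mul (hc.ale t ht.1) (Hs_le h hc ht.1.le) (abs_nonneg _) (h.Apos t)

lemma Fs_acd (h : VData A B) (hc : VCoef A B a b) {R : ℝ} (hR : 0 < R) :
    ACD (Fs a b) (fun s => a s * Hs a b s) 0 R :=
  ACD.of_integral (c := 1) (x₀ := 0) (Fs_aH_int h hc hR) left_mem_uIcc (by
    intro x hx
    rw [uIcc_of_le hR.le] at hx
    rw [Fs_eq h hc hx.1]) hR

lemma Fs_zero (h : VData A B) (hc : VCoef A B a b) : Fs a b 0 = 1 := by
  rw [Fs_eq h hc le_rfl]; simp

lemma Hs_zero (h : VData A B) (hc : VCoef A B a b) : Hs a b 0 = 0 := by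
  rw [Hs_eq h hc le_rfl]; simp

end

end Pool.Agent.helper84.Dir
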