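import Pool.Agent.helper84.DirChan

open MeasureTheory Set Filter Topology
open scoped NNReal ContDiff

namespace Pool.Agent.helper84.Dir

/-- enclosing interval of a compact subset of an open interval -/
lemma exists_enclosing {U K : Set ℝ} (hU : IsOpen U) {x₀ : ℝ} (hx₀ : x₀ ∈ U) (hK : IsCompact K)
    (hKU : K ⊆ U) : ∃ c d, c ∈ U ∧ d ∈ U ∧ c < x₀ ∧ x₀ < d ∧ K ⊆ Ioo c d := by
  have hK' : IsCompact (insert x₀ K) := hK.insert x₀
  have hne : (insert x₀ K).Nonempty := ⟨x₀, mem_insert _ _⟩
  have hsub : insert x₀ K ⊆ U := insert_subset hx₀ hKU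
  obtain ⟨a, ha, hamin⟩ := hK'.exists_isLeast hne
  obtain ⟨b, hb, hbmax⟩ := hK'.exists_isGreatest hne
  obtain ⟨ε₁, hε₁, h₁⟩ := Metric.isOpen_iff.1 hU a (hsub ha)
  obtain ⟨ε₂, hε₂, h₂⟩ := Metric.isOpen_iff.1 hU b (hsub hb)
  refine ⟨a - ε₁ / 2, b + ε₂ / 2, h₁ ?_, h₂ ?_, ?_, ?_, fun x hx => ⟨?_, ?_⟩⟩
  · rw [Metric.mem_ball, Real.dist_eq, abs_lt]; constructor <;> linarith
  · rw [Metric.mem_ball, Real.dist_eq, abs_lt]; constructor <;> linarith
  · have := hamin (mem_insert x₀ K); linarith
  · have := hbmax (mem_insert x₀ K); linarith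
  · have := hamin (mem_insert_of_mem _ hx); linarith
  · have := hbmax (mem_insert_of_mem _ hx); linarith

lemma ii_of_loc {U : Set ℝ} (hc : U.OrdConnected) {w : ℝ → ℝ} (hw : LocallyIntegrableOn w U)
    {a b : ℝ} (ha : a ∈ U) (hb : b ∈ U) : IntervalIntegrable w volume a b := by
  rw [intervalIntegrable_iff]
  exact (hw.integrableOn_compact_subset (hc.uIcc_subset ha hb) isCompact_uIcc).mono_set
    uIoc_subset_uIcc

lemma integral_eq_interval {F : ℝ → ℝ} {c d : ℝ} (hcd : c ≤ d) (h : ∀ x, x ∉ Ioc c d → F x = 0) :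
    ∫ x, F x = ∫ x in c..d, F x := by
  rw [intervalIntegral.integral_of_le hcd, ← integral_indicator measurableSet_Ioc]
  congr 1
  funext x
  by_cases hx : x ∈ Ioc c d
  · rw [indicator_of_mem hx]
  · rw [indicator_of_notMem hx, h x hx]

lemma prim_cont {U : Set ℝ} (hU : IsOpen U) (hc : U.OrdConnected) {x₀ : ℝ} (hx₀ : x₀ ∈ U)
    {w : ℝ → ℝ} (hw : LocallyIntegrableOn w U) :
    ContinuousOn (fun x => ∫ t in x₀..x, w t) U := by
  intro x hx
  obtain ⟨c, d, hcU, hdU, h1, h2, h3⟩ := exists_enclosing hU hx₀ (isCompact_singleton (x := x))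
    (singleton_subset_iff.2 hx)
  have hcd : c < d := h1.trans h2
  have hacd : ACD (fun x => ∫ t in x₀..x, w t) w c d :=
    ACD.of_integral (c := 0) (x₀ := x₀) (ii_of_loc hc hw hcU hdU)
      (by rw [uIcc_of_le hcd.le]; exact ⟨h1.le, h2.le⟩) (by intro y _; simp) hcd
  have h4 := hacd.continuousOn
  rw [uIcc_of_le hcd.le] at h4
  have h5 : x ∈ Ioo c d := h3 rfl
  exact (h4.continuousAt (Icc_mem_nhds h5.1 h5.2)).continuousWithinAt

/-- the weak derivative identity for a primitive -/
lemma prim_weak {U : Set ℝ} (hU : IsOpen U) (hc : U.OrdConnected) {x₀ : ℝ} (hx₀ : x₀ ∈ U)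
    {w : ℝ → ℝ} (hw : LocallyIntegrableOn w U) {φ : ℝ → ℝ} (hφ : ContDiff ℝ ∞ φ)
    (hφc : HasCompactSupport φ) (hφU : tsupport φ ⊆ U) :
    ∫ x, ((∫ t in x₀..x, w t) * deriv φ x + w x * φ x) = 0 := by
  obtain ⟨c, d, hcU, hdU, h1, h2, h3⟩ := exists_enclosing hU hx₀ hφc hφU
  have hcd : c < d := h1.trans h2
  have hacd : ACD (fun x => ∫ t in x₀..x, w t) w c d :=
    ACD.of_integral (c := 0) (x₀ := x₀) (ii_of_loc hc hw hcU hdU)
      (by rw [uIcc_of_le hcd.le]; exact ⟨h1.le, h2.le⟩) (by intro y _; simp) hcd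
  have hφd : ACD φ (deriv φ) c d := by
    refine ACD.of_hasDerivAt (fun x _ => ?_) ?_
    · exact ((hφ.differentiable (by simp)) x).hasDerivAt
    · exact (hφ.continuous_deriv (by simp)).continuousOn
  have hzero : ∀ x, x ∉ Ioo c d → φ x = 0 := fun x hx =>
    image_eq_zero_of_notMem_tsupport fun h => hx (h3 h)
  have hzero' : ∀ x, x ∉ Ioo c d → deriv φ x = 0 := fun x hx => by
    refine image_eq_zero_of_notMem_tsupport fun h => hx (h3 (tsupport_deriv_subset (𝕜 := ℝ) ?_))
    exact h
  rw [integral_eq_interval hcd.le]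
  · have h4 := (hacd.mul hφd).integral
    rw [hzero c (by simp), hzero d (by simp)] at h4
    simp only [mul_zero, sub_zero] at h4
    rw [← h4]
    congr 1
    funext x
    ring
  · intro x hx
    have hx' : x ∉ Ioo c d := fun h => hx ⟨h.1, h.2.le⟩
    rw [hzero x hx', hzero' x hx']
    ring

lemma loc_mul_test {U : Set ℝ} {u : ℝ → ℝ} (hu : LocallyIntegrableOn u U)
    {φ : ℝ → ℝ} (hφ : Continuous φ) (hφc : HasCompactSupport φ) (hφU : tsupport φ ⊆ U) :
    Integrable (fun x => u x * φ x) := by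
  have h1 : IntegrableOn u (tsupport φ) := hu.integrableOn_compact_subset hφU hφc
  have h2 : IntegrableOn (fun x => u x * φ x) (tsupport φ) :=
    h1.mul_continuousOn hφ.continuousOn hφc
  rwa [integrableOn_iff_integrable_of_support_subset] at h2
  intro x hx
  by_contra hcon
  have : φ x = 0 := image_eq_zero_of_notMem_tsupport hcon
  simp [this] at hx

/-- du Bois-Reymond lemma on an open interval -/
theorem dbr {U : Set ℝ} (hU : IsOpen U) (hc : U.OrdConnected) {x₀ : ℝ} (hx₀ : x₀ ∈ U)
    {u w : ℝ → ℝ} (hu : LocallyIntegrableOn u U) (hw : LocallyIntegrableOn w U)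
    (h : ∀ φ : ℝ → ℝ, ContDiff ℝ ∞ φ → HasCompactSupport φ → tsupport φ ⊆ U →
      ∫ x, (u x * deriv φ x + w x * φ x) = 0) :
    ∃ c, ∀ᵐ x : ℝ, x ∈ U → u x = c + ∫ t in x₀..x, w t := by
  set W : ℝ → ℝ := fun x => ∫ t in x₀..x, w t with hW
  have hWl : LocallyIntegrableOn W U :=
    (prim_cont hU hc hx₀ hw).locallyIntegrableOn hU.measurableSet
  have hul : LocallyIntegrableOn (fun x => u x - W x) U := hu.sub hWl
  have h1 : ∀ φ : ℝ → ℝ, ContDiff ℝ ∞ φ → HasCompactSupport φ → tsupport φ ⊆ U →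
      ∫ x, (u x - W x) * deriv φ x = 0 := by
    intro φ hφ hφc hφU
    have hdc : Continuous (deriv φ) := hφ.continuous_deriv (by simp)
    have hds : HasCompactSupport (deriv φ) := hφc.deriv
    have hdU : tsupport (deriv φ) ⊆ U := (tsupport_deriv_subset (𝕜 := ℝ)).trans hφU
    have e1 := h φ hφ hφc hφU
    have e2 := prim_weak hU hc hx₀ hw hφ hφc hφU
    have i1 := loc_mul_test hu hdc hds hdU
    have i2 := loc_mul_test hw hφ.continuous hφc hφU
    have i3 := loc_mul_test hWl hdc hds hdU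
    have j1 : Integrable (fun x => u x * deriv φ x + w x * φ x) := i1.add i2
    have j2 : Integrable (fun x => W x * deriv φ x + w x * φ x) := i3.add i2
    have : ∫ x, (u x - W x) * deriv φ x =
        (∫ x, (u x * deriv φ x + w x * φ x)) - ∫ x, (W x * deriv φ x + w x * φ x) := by
      rw [← integral_sub j1 j2]
      congr 1
      funext x
      ring
    rw [this, e1, e2, sub_zero]
  -- a bump with integral one
  obtain ⟨ε, hε, hball⟩ := Metric.isOpen_iff.1 hU x₀ hx₀
  let f : ContDiffBump x₀ := ⟨ε / 4, ε / 2, by positivity, by linarith⟩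
  set χ : ℝ → ℝ := f.normed volume with hχ
  have hχd : ContDiff ℝ ∞ χ := f.contDiff_normed
  have hχc : HasCompactSupport χ := f.hasCompactSupport_normed
  have hχU : tsupport χ ⊆ U := by
    rw [hχ, f.tsupport_normed_eq]
    refine (Metric.closedBall_subset_ball ?_).trans hball
    change ε / 2 < ε
    linarith
  have hχ1 : ∫ x, χ x = 1 := f.integral_normed
  set c := ∫ x, (u x - W x) * χ x with hcdef
  have key : ∀ ψ : ℝ → ℝ, ContDiff ℝ ∞ ψ → HasCompactSupport ψ → tsupport ψ ⊆ U →
      ∫ x, ψ x • (u x - W x - c) = 0 := by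
    intro ψ hψ hψc hψU
    set I := ∫ x, ψ x with hI
    set θ : ℝ → ℝ := fun x => ψ x - I * χ x with hθ
    have hθd : ContDiff ℝ ∞ θ := hψ.sub (contDiff_const.mul hχd)
    have hψi : Integrable ψ := hψ.continuous.integrable_of_hasCompactSupport hψc
    have hχi : Integrable χ := hχd.continuous.integrable_of_hasCompactSupport hχc
    have hθi : ∫ x, θ x = 0 := by
      simp only [hθ]
      rw [integral_sub hψi (hχi.const_mul _), integral_const_mul, hχ1, mul_one, sub_self]
    obtain ⟨a, b, haU, hbU, ha, hb, hKab⟩ := exists_enclosing hU hx₀ (hψc.union hχc)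
      (union_subset hψU hχU)
    have hab : a < b := ha.trans hb
    have hθ0 : ∀ x, x ∉ Ioo a b → θ x = 0 := by
      intro x hx
      have e1 : ψ x = 0 := image_eq_zero_of_notMem_tsupport fun h => hx (hKab (Or.inl h))
      have e2 : χ x = 0 := image_eq_zero_of_notMem_tsupport fun h => hx (hKab (Or.inr h))
      simp [hθ, e1, e2]
    set φ : ℝ → ℝ := fun x => ∫ t in a..x, θ t with hφdef
    have hφderiv : ∀ x, HasDerivAt φ (θ x) x := fun x =>
      (hθd.continuous).integral_hasStrictDerivAt a x |>.hasDerivAt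
    have hder : deriv φ = θ := funext fun x => (hφderiv x).deriv
    have hφd : ContDiff ℝ ∞ φ := by
      rw [contDiff_infty_iff_deriv]
      exact ⟨fun x => (hφderiv x).differentiableAt, by rw [hder]; exact hθd⟩
    have hφ0 : ∀ x, x ∉ Icc a b → φ x = 0 := by
      intro x hx
      rcases lt_or_ge x a with hxa | hxa
      · simp only [hφdef]
        rw [intervalIntegral.integral_symm, neg_eq_zero]
        refine intervalIntegral.integral_zero_ae (ae_of_all _ fun t ht => ?_)
        rw [uIoc_of_le hxa.le] at ht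
        exact hθ0 t fun h => absurd h.1 (not_lt.2 ht.2)
      · have hxb : b < x := by
          by_contra hcon
          exact hx ⟨hxa, not_lt.1 hcon⟩
        have : φ x = ∫ x, θ x := by
          rw [integral_eq_interval (c := a) (d := x) (hab.le.trans hxb.le)]
          intro t ht
          refine hθ0 t fun h => ht ⟨h.1, h.2.le.trans hxb.le⟩
        rw [this, hθi]
    have hφs : Function.support φ ⊆ Icc a b := by
      intro x hx
      by_contra hcon
      exact hx (hφ0 x hcon)
    have hφts : tsupport φ ⊆ Icc a b := closure_minimal hφs isClosed_Icc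
    have hφc : HasCompactSupport φ := isCompact_Icc.of_isClosed_subset (isClosed_tsupport _) hφts
    have hφU : tsupport φ ⊆ U := hφts.trans (hc.out haU hbU)
    have e1 := h1 φ hφd hφc hφU
    rw [hder] at e1
    have i1 := loc_mul_test hul hψ.continuous hψc hψU
    have i2 := loc_mul_test hul hχd.continuous hχc hχU
    have e2 : ∫ x, (u x - W x) * θ x = (∫ x, (u x - W x) * ψ x) - I * c := by
      rw [hcdef, ← integral_const_mul, ← integral_sub i1 (i2.const_mul _)]
      congr 1
      funext x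
      simp only [hθ]
      ring
    have e3 : ∫ x, ψ x • (u x - W x - c) = (∫ x, (u x - W x) * ψ x) - I * c := by
      rw [hI, ← integral_mul_const, ← integral_sub i1 (hψi.mul_const _)]
      congr 1
      funext x
      simp only [smul_eq_mul]
      ring
    rw [e3, ← e2, e1]
  have hlc : LocallyIntegrableOn (fun x => u x - W x - c) U :=
    hul.sub ((locallyIntegrable_const c).locallyIntegrableOn U)
  have := hU.ae_eq_zero_of_integral_contDiff_smul_eq_zero hlc key
  refine ⟨c, ?_⟩
  filter_upwards [this] with x hx hxU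
  have := hx hxU
  linarith

end Pool.Agent.helper84.Dir
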